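import Pool.Agent.DiaC.SysDefs
import Pool.Agent.PGc.RgTop
import Pool.Agent.PGc.RigLe
import Pool.Agent.PGc.SerEq
import Pool.Agent.PGc.Crit

/-!
# Module EsVal: the generating function of the good maps where it is finite

`s = scr t ≤ 1/10`, `0 < t < 1`.  `Rg_expl`: `Rg s (Ef s v) = Rf s v` for `0 < v < t`; `Rg_top`: `Rg s E = ∞` for
`E > ecr t`.

`Rg_crit`: `Rg s E = ∑' n, rc' s n E^n` is the supremum of its values at `E' < E` (monotone
convergence: finite partial sums are continuous).  `ecr t = Ef s t` (`Ef_crit`) is the limit of `Ef s v`, `v → t`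
from the left, and `Rf s` is continuous on `(0, 1)` (`Ef_continuousOn`, `Yf_continuousOn`), so
`Rg s (ecr t) = Rf s t`.  (`0 ≤ Rf s t` as a limit of `Rf s v ≥ 0`.)

`Es_val`: let `z > 0`, `F = Es s z < ∞`.  `Rg s F ≤ F < ∞` (`E_eq`), so `F ≤ ecr t`, and `F ≥ z > 0`.  So `F = Ef s v`
for some `0 < v ≤ t` (`exists_Ef`, or `v = t` if `F = ecr t`).  By `ser_eq`, `par_eq`, `Esel_add` (all terms finite):
`Ser = s (F - Ser) F`, so `Ser = s F^2 / (1 + s F)`, `Par = F^2 / (1 + F)`; by `E_eq`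
`z = F - Ser - Par - Rg s F = Yf s v` (definition of `Rf`; compare the proof of `Rg_small`).
-/

set_option linter.unusedSectionVars false

namespace Dia
open Set PGr
open scoped ENNReal

variable {t : ℝ}

open Filter Topology in
theorem Rg_crit (h0 : 0 < t) (h1 : t < 1) (hs : scr t ≤ 1 / 10) : 0 ≤ Rf (scr t) t ∧
    Rg (ENNReal.ofReal (scr t)) (ENNReal.ofReal (ecr t)) = ENNReal.ofReal (Rf (scr t) t) := by
  have hs0 := scr_pos h0 h1
  have he0 := ecr_pos h0 h1
  have hcrit := Ef_crit h0 h1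
  have hmono := Ef_strictMonoOn h0 h1
  have hexpl := fun v (hv : 0 < v) (hv' : v < t) => Rg_expl h0 h1 hs hv hv'
  set s : ℝ := scr t with hsdef
  have hmem : Ico (0 : ℝ) 1 ∈ 𝓝 t := Ico_mem_nhds h0 h1
  have cE : ContinuousAt (Ef s) t := (Ef_continuousOn hs0).continuousAt hmem
  have cY : ContinuousAt (Yf s) t := (Yf_continuousOn hs0).continuousAt hmem
  have hEt : 0 < Ef s t := by rw [hcrit]; exact he0
  have cR : ContinuousAt (Rf s) t := by
    have e : Rf s = fun v => Ef s v - Yf s v - s * Ef s v ^ 2 / (1 + s * Ef s v) -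
        Ef s v ^ 2 / (1 + Ef s v) := rfl
    rw [e]
    refine ContinuousAt.sub (ContinuousAt.sub (cE.sub cY) ?_) ?_
    · refine ContinuousAt.div (continuousAt_const.mul (cE.pow 2))
        (continuousAt_const.add (continuousAt_const.mul cE)) ?_
      positivity
    · refine ContinuousAt.div (cE.pow 2) (continuousAt_const.add cE) ?_
      positivity
  have tE : Tendsto (Ef s) (𝓝[<] t) (𝓝 (ecr t)) := by
    rw [← hcrit]
    exact cE.tendsto.mono_left nhdsWithin_le_nhds
  have tR : Tendsto (Rf s) (𝓝[<] t) (𝓝 (Rf s t)) := cR.tendsto.mono_left nhdsWithin_le_nhds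
  have ev : ∀ᶠ v in 𝓝[<] t, v ∈ Ioo 0 t := Ioo_mem_nhdsLT h0
  have tR' : Tendsto (fun v => ENNReal.ofReal (Rf s v)) (𝓝[<] t) (𝓝 (ENNReal.ofReal (Rf s t))) :=
    ENNReal.tendsto_ofReal tR
  refine ⟨?_, le_antisymm ?_ ?_⟩
  · refine ge_of_tendsto tR ?_
    filter_upwards [ev] with v hv
    exact (hexpl v hv.1 hv.2).1
  · rw [Rg_series, ENNReal.tsum_eq_iSup_sum]
    refine iSup_le fun A => ?_
    have h2 : Tendsto (fun v => ∑ n ∈ A, rc' (ENNReal.ofReal s) n * ENNReal.ofReal (Ef s v) ^ n)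
        (𝓝[<] t) (𝓝 (∑ n ∈ A, rc' (ENNReal.ofReal s) n * ENNReal.ofReal (ecr t) ^ n)) := by
      refine tendsto_finsetSum _ fun n _ => ?_
      refine ENNReal.Tendsto.const_mul ?_ (Or.inl ?_)
      · exact ((ENNReal.continuous_pow n).tendsto _).comp (ENNReal.tendsto_ofReal tE)
      · exact pow_ne_zero n (ENNReal.ofReal_pos.2 he0).ne'
    refine le_of_tendsto_of_tendsto h2 tR' ?_
    filter_upwards [ev] with v hv
    rw [← (hexpl v hv.1 hv.2).2, Rg_series]
    exact ENNReal.sum_le_tsum A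
  · refine le_of_tendsto tR' ?_
    filter_upwards [ev] with v hv
    rw [← (hexpl v hv.1 hv.2).2]
    refine Rg_mono le_rfl (ENNReal.ofReal_le_ofReal ?_)
    rw [← hcrit]
    exact hmono.monotoneOn ⟨hv.1.le, hv.2.le⟩ (right_mem_Icc.2 h0.le) hv.2.le

theorem Es_val (h0 : 0 < t) (h1 : t < 1) (hs : scr t ≤ 1 / 10) {z : ℝ} (hz : 0 < z)
    (hfin : Es (ENNReal.ofReal (scr t)) (ENNReal.ofReal z) ≠ ⊤) :
    ∃ v, 0 < v ∧ v ≤ t ∧ z = Yf (scr t) v ∧
      Es (ENNReal.ofReal (scr t)) (ENNReal.ofReal z) = ENNReal.ofReal (Ef (scr t) v) := by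
  have hs0 := scr_pos h0 h1
  have he0 := ecr_pos h0 h1
  have hcrit := Ef_crit h0 h1
  have hE0 : 0 < (Es (ENNReal.ofReal (scr t)) (ENNReal.ofReal z)).toReal := by
    have h2 : ENNReal.ofReal z ≤ Es (ENNReal.ofReal (scr t)) (ENNReal.ofReal z) := by
      conv_rhs => rw [E_eq]
      exact le_trans le_self_add (le_trans le_self_add le_self_add)
    have h3 := (ENNReal.ofReal_le_iff_le_toReal hfin).1 h2
    exact hz.trans_le h3
  have hRtop : Rg (ENNReal.ofReal (scr t)) (Es (ENNReal.ofReal (scr t)) (ENNReal.ofReal z)) ≠ ⊤ := by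
    have h2 : Rg (ENNReal.ofReal (scr t)) (Es (ENNReal.ofReal (scr t)) (ENNReal.ofReal z)) ≤
        Es (ENNReal.ofReal (scr t)) (ENNReal.ofReal z) := by
      conv_rhs => rw [E_eq]
      exact le_add_self
    exact ne_top_of_le_ne_top hfin h2
  obtain ⟨v, hv, hvt, hEv⟩ : ∃ v, 0 < v ∧ v ≤ t ∧
      Ef (scr t) v = (Es (ENNReal.ofReal (scr t)) (ENNReal.ofReal z)).toReal := by
    have hle : (Es (ENNReal.ofReal (scr t)) (ENNReal.ofReal z)).toReal ≤ ecr t := by
      by_contra hcon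
      push Not at hcon
      have h2 := Rg_top h0 h1 hs hcon
      rw [ENNReal.ofReal_toReal hfin] at h2
      exact hRtop h2
    have hc : ContinuousOn (Ef (scr t)) (Icc 0 t) :=
      (Ef_continuousOn hs0).mono fun x hx => ⟨hx.1, hx.2.trans_lt h1⟩
    have hiv := intermediate_value_Icc h0.le hc
    rw [Ef_zero, hcrit] at hiv
    obtain ⟨v, hv, hve⟩ := hiv ⟨hE0.le, hle⟩
    refine ⟨v, ?_, hv.2, hve⟩
    rcases hv.1.lt_or_eq with h | h
    · exact h
    · exfalso
      rw [← h, Ef_zero] at hve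
      rw [← hve] at hE0
      exact lt_irrefl _ hE0
  have hRv : 0 ≤ Rf (scr t) v ∧ Rg (ENNReal.ofReal (scr t)) (ENNReal.ofReal (Ef (scr t) v)) =
      ENNReal.ofReal (Rf (scr t) v) := by
    rcases hvt.lt_or_eq with h | h
    · exact Rg_expl h0 h1 hs hv h
    · subst h
      have := Rg_crit h0 h1 hs
      rwa [← hcrit] at this
  refine ⟨v, hv, hvt, ?_, by rw [hEv, ENNReal.ofReal_toReal hfin]⟩
  have hEs : Es (ENNReal.ofReal (scr t)) (ENNReal.ofReal z) = ENNReal.ofReal (Ef (scr t) v) := by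
    rw [hEv, ENNReal.ofReal_toReal hfin]
  rw [← hEv] at hE0
  clear hEv
  set s : ℝ := scr t with hsdef
  set E : ℝ := Ef s v with hEdef
  set S : ℝ≥0∞ := ENNReal.ofReal s with hS
  set Y : ℝ≥0∞ := ENNReal.ofReal z with hY
  have hErr : (Es S Y).toReal = E := by rw [hEs, ENNReal.toReal_ofReal hE0.le]
  have hSr : S.toReal = s := ENNReal.toReal_ofReal hs0.le
  have hYr : Y.toReal = z := ENNReal.toReal_ofReal hz.le
  have hfin' : ∀ P : BMap → Prop, Esel S Y P ≠ ⊤ := fun P =>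
    ne_top_of_le_ne_top hfin (le_trans le_self_add (Esel_add S Y P).le)
  have hadd : ∀ P : BMap → Prop, (Esel S Y P).toReal + (Esel S Y fun M => ¬ P M).toReal = E := by
    intro P
    rw [← ENNReal.toReal_add (hfin' _) (hfin' _), Esel_add, ← hErr]
  have e1 := hadd IsSer
  have e2 := hadd IsPar
  have e3 : (Esel S Y IsSer).toReal = s * (Esel S Y fun M => ¬ IsSer M).toReal * E := by
    have h := congrArg ENNReal.toReal (ser_eq S Y)
    rwa [ENNReal.toReal_mul, ENNReal.toReal_mul, hSr, hErr] at h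
  have e4 : (Esel S Y IsPar).toReal = (Esel S Y fun M => ¬ IsPar M).toReal * E := by
    have h := congrArg ENNReal.toReal (par_eq S Y)
    rwa [ENNReal.toReal_mul, hErr] at h
  have hEeq := E_eq S Y
  have e5 : E = z + (Esel S Y IsSer).toReal + (Esel S Y IsPar).toReal +
      (Rg S (Es S Y)).toReal := by
    have h := congrArg ENNReal.toReal hEeq
    rw [ENNReal.toReal_add (ENNReal.add_ne_top.2 ⟨ENNReal.add_ne_top.2
        ⟨ENNReal.ofReal_ne_top, hfin' _⟩, hfin' _⟩) hRtop,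
      ENNReal.toReal_add (ENNReal.add_ne_top.2 ⟨ENNReal.ofReal_ne_top, hfin' _⟩) (hfin' _),
      ENNReal.toReal_add ENNReal.ofReal_ne_top (hfin' _), hErr, hYr] at h
    exact h
  have e6 : (Esel S Y IsSer).toReal = s * E ^ 2 / (1 + s * E) := by
    rw [eq_div_iff (by positivity)]
    have : (Esel S Y fun M => ¬ IsSer M).toReal = E - (Esel S Y IsSer).toReal := by linarith
    rw [this] at e3
    linear_combination e3
  have e7 : (Esel S Y IsPar).toReal = E ^ 2 / (1 + E) := by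
    rw [eq_div_iff (by positivity)]
    have : (Esel S Y fun M => ¬ IsPar M).toReal = E - (Esel S Y IsPar).toReal := by linarith
    rw [this] at e4
    linear_combination e4
  have e8 : (Rg S (Es S Y)).toReal = Rf s v := by
    rw [hEs, hRv.2, ENNReal.toReal_ofReal hRv.1]
  rw [e6, e7, e8] at e5
  unfold Rf at e5
  linarith

end Dia
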