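import Pool.Agent.DiaC.SysDefs
import Pool.Agent.PGc.Curve
import Pool.Agent.PGc.Crit

/-!
# Module TMono: the edge weight is a strictly increasing function of the parameter

`s > 0`, `u = uf s v` (`u (1-v)^2 = s v (1-u)^2`, `0 < u < 1` for `0 < v < 1`), `D = psiV s v = 1 + u + v - 3uv > 0`
(`D = (1-u)(1-v) + 2u(1-v) + 2v(1-u) > 0`).

`psi_id`: with `m = Yf s v = v (1-u)^2`, `s m = u (1-v)^2`, `Ef = v (1-u-v)/(1-v)^2`:
`1 + m + s m + s m Ef = 1 + v(1-u)^2 + u(1-v)^2 + u v (1-u-v) = 1 + u + v - 3uv`.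

`tV = v (1-u)^2 / D^2`; `u' = u (1-u)(1+v) / (v (1-v)(1+u))` (`uf_hasDerivAt`);
`tV'/tV = 1/v - 2u'/(1-u) - 2 (u' + 1 - 3u - 3v u')/D = (1-u)(1-u-v-3uv) / (v D (1+u))`:
`1/v - 2(1-3u)/D = (1 + u - v + 3uv)/(vD)`, `2/(1-u) + 2(1-3v)/D = 4(1-v)/((1-u)D)`, and
`(1+u)(1+u-v+3uv) - 4u(1+v) = (1-u)(1-u-v-3uv)`.
`qf s v = 1 - u - v - 3vu > 0` for `v < t`, `s = scr t` (`qf_pos`).  So `tV` is strictly increasing on `(0, t)`,
and on `(0, t]` by continuity (`strictMonoOn_of_deriv_pos` on the convex set `Ioc 0 t`, interior `Ioo 0 t`).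
-/

set_option linter.unusedSectionVars false

namespace Dia
open Set PGr

variable {s v t : ℝ}

theorem psiV_pos (hs : 0 < s) (h0 : 0 < v) (h1 : v < 1) : 0 < psiV s v := by
  have h2 := uf_pos hs h0 h1
  have h3 := uf_lt_one hs h0 h1
  unfold psiV
  have h4 : 0 < (1 - uf s v) * (1 - v) := mul_pos (by linarith) (by linarith)
  have h5 : 0 < uf s v * (1 - v) := mul_pos h2 (by linarith)
  have h6 : 0 < v * (1 - uf s v) := mul_pos h0 (by linarith)
  nlinarith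

theorem psi_id (hs : 0 < s) (h0 : 0 < v) (h1 : v < 1) :
    1 + Yf s v * (1 + s * (1 + Ef s v)) = psiV s v := by
  have h2 := uf_eq hs h0 h1
  have hv : 1 - v ≠ 0 := by linarith
  unfold psiV Yf Ef
  generalize uf s v = u at *
  have h3 : s * (v * (1 - u) ^ 2) = u * (1 - v) ^ 2 := by linarith
  have h4 : 1 + v * (1 - u) ^ 2 * (1 + s * (1 + v * (1 - u - v) / (1 - v) ^ 2))
      = 1 + v * (1 - u) ^ 2 + (s * (v * (1 - u) ^ 2)) * (1 + v * (1 - u - v) / (1 - v) ^ 2) := by ring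
  rw [h4, h3]
  field_simp
  ring

theorem tV_pos (hs : 0 < s) (h0 : 0 < v) (h1 : v < 1) : 0 < tV s v := by
  have h2 := psiV_pos hs h0 h1
  have h3 := uf_lt_one hs h0 h1
  unfold tV Yf
  have h4 : 0 < 1 - uf s v := by linarith
  positivity

theorem TMono.psiV_hasDerivAt (hs : 0 < s) (h0 : 0 < v) (h1 : v < 1) :
    HasDerivAt (psiV s) (uf s v * (1 - uf s v) * (1 + v) / ((1 + uf s v) * v * (1 - v)) * (1 - 3 * v) + 1 -
      3 * uf s v) v := by
  have h2 := uf_hasDerivAt hs h0 h1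
  have h3 : HasDerivAt (fun w => 1 + uf s w + w - 3 * uf s w * w)
      (uf s v * (1 - uf s v) * (1 + v) / ((1 + uf s v) * v * (1 - v)) + 1 -
        (3 * (uf s v * (1 - uf s v) * (1 + v) / ((1 + uf s v) * v * (1 - v))) * v + 3 * uf s v * 1)) v :=
    ((h2.const_add 1).add (hasDerivAt_id v)).sub ((h2.const_mul 3).mul (hasDerivAt_id v))
  refine HasDerivAt.congr_deriv h3 ?_
  ring

theorem TMono.tV_hasDerivAt (hs : 0 < s) (h0 : 0 < v) (h1 : v < 1) :
    HasDerivAt (tV s) ((1 - uf s v) ^ 3 * qf s v / (psiV s v ^ 3 * (1 + uf s v))) v := by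
  have h2 := Yf_hasDerivAt hs h0 h1
  have h3 := TMono.psiV_hasDerivAt hs h0 h1
  have h4 := psiV_pos hs h0 h1
  have h5 := uf_pos hs h0 h1
  have h6 := uf_lt_one hs h0 h1
  have h7 : HasDerivAt (fun w => psiV s w ^ 2) (2 * psiV s v *
      (uf s v * (1 - uf s v) * (1 + v) / ((1 + uf s v) * v * (1 - v)) * (1 - 3 * v) + 1 - 3 * uf s v)) v :=
    (h3.pow 2).congr_deriv (by simp)
  have h8 := h2.div h7 (pow_ne_zero 2 h4.ne')
  have h9 : tV s = Yf s / fun w => psiV s w ^ 2 := rfl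
  rw [h9]
  refine HasDerivAt.congr_deriv h8 ?_
  have hv : 1 - v ≠ 0 := by linarith
  have hu : 1 + uf s v ≠ 0 := by linarith
  have hp : psiV s v ≠ 0 := h4.ne'
  rw [div_eq_div_iff (by positivity) (by positivity)]
  unfold Yf qf
  unfold psiV at hp ⊢
  generalize uf s v = u at *
  field_simp
  ring

theorem tV_strictMonoOn (h0 : 0 < t) (h1 : t < 1) : StrictMonoOn (tV (scr t)) (Ioc 0 t) := by
  have hs := scr_pos h0 h1
  refine strictMonoOn_of_deriv_pos (convex_Ioc _ _)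
    (fun v hv => (TMono.tV_hasDerivAt hs hv.1 (hv.2.trans_lt h1)).continuousAt.continuousWithinAt) fun v hv => ?_
  rw [interior_Ioc] at hv
  have hv1 : v < 1 := hv.2.trans h1
  rw [(TMono.tV_hasDerivAt hs hv.1 hv1).deriv]
  have h2 := qf_pos hv.1 hv.2 h1
  have h3 := uf_pos hs hv.1 hv1
  have h4 := psiV_pos hs hv.1 hv1
  have h5 := uf_lt_one hs hv.1 hv1
  have h6 : 0 < 1 - uf (scr t) v := by linarith
  positivity

end Dia
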