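import Pool.Agent.DiaC.SysR
import Pool.Agent.DiaC.EsVal
import Pool.Agent.DiaC.TMono
import Pool.Agent.Dia.TCrit

/-!
# Module CritV: criticality of the rigid part at the critical edge weight

`0 < x < 1`, `w = wc x`, `q = 1 - x`, `u = alc x = x w / ((1-w)(1-qw))`, `vc x = w (1-qw)/(1-w)`.
Identities in `x, w` (`field_simp; ring`, all denominators positive: `nW_pos`, `w < 1`, `qw < 1`):
(1) `x v (1-u)^2 = u (1-v)^2`;  (2) `v (1-u)^2 / (1+u+v-3uv)^2 = w (1-w)(1-qw)/nW^2 = yc x`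
(`1+u+v-3uv = nW/..`: the square roots agree: `(1+u+v-3uv) (1-w)^2 (1-qw) = ..`; check with cross multiplication);
(3) `(1-w)^2 (1-qw) (1-u-v-3uv)` is exactly (right side minus left side) of `CritW x w`, so
`1 - u - v - 3uv = 0` (`wc_spec`).
With `u, v > 0`, (3) gives `u < 1`, `v < 1`, `u = (1-v)/(1+3v)`; with (1): `x = scr v` (`scr v` is
`(1+3v)(1-v)^3/(16 v^3)`); `u = uf x v` by `uf_unique`.

`ag_val`: let `A = Ag x (yc x) ≠ ⊤`, `z = yc A^2 > 0` real, `Es x z` is finite (`Es_ne_top`), so by `Es_val`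
(with `t = vc x`): `z = Yf x v`, `Es = Ef x v`, `0 < v ≤ vc x`; by `Ag_eq` and `psi_id`: `A = psiV x v`, so
`yc x = z/A^2 = tV x v`.  Also `yc x = tV x (vc x)` by (2).  `tV_strictMonoOn`: `v = vc x`.  So
`A = psiV x (vc x)`, `z = Yf x (vc x)`, `Es x z = Ef x (vc x) = ecr (vc x)` (`Ef_crit`).
-/

set_option linter.unusedSectionVars false

namespace Dia
open Set PGr Pool.Agent.DiamP
open scoped ENNReal

/-- the parameter of the critical point -/
noncomputable def vc (x : ℝ) : ℝ := wc x * (1 - (1 - x) * wc x) / (1 - wc x)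

variable {x : ℝ}

private theorem CritV_D (h0 : 0 < x) (h1 : x < 1) : 0 < 1 - (1 - x) * wc x := by
  obtain ⟨hw0, hw1, -⟩ := wc_spec h0 h1
  nlinarith [mul_nonneg h0.le hw0.le]

theorem vc_pos (h0 : 0 < x) (h1 : x < 1) : 0 < vc x := by
  obtain ⟨hw0, hw1, -⟩ := wc_spec h0 h1
  have h3 := CritV_D h0 h1
  have h4 : 0 < 1 - wc x := by linarith
  unfold vc
  positivity

/-- the critical equation -/
private theorem CritV_cr (h0 : 0 < x) (h1 : x < 1) :
    1 - alc x - vc x - 3 * alc x * vc x = 0 := by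
  obtain ⟨hw0, hw1, hc⟩ := wc_spec h0 h1
  have h3 := CritV_D h0 h1
  have h4 : 0 < 1 - wc x := by linarith
  unfold CritW at hc
  unfold alc vc
  obtain ⟨D, hD⟩ : ∃ D, D = 1 - (1 - x) * wc x := ⟨_, rfl⟩
  obtain ⟨F, hF⟩ : ∃ F, F = 1 - wc x := ⟨_, rfl⟩
  rw [← hD] at h3 hc ⊢
  rw [← hF] at h4 hc ⊢
  have h5 : (1 - x * wc x / (F * D) - wc x * D / F - 3 * (x * wc x / (F * D)) * (wc x * D / F)) *
      (F ^ 2 * D) = 0 := by
    have h6 : (1 - x * wc x / (F * D) - wc x * D / F - 3 * (x * wc x / (F * D)) * (wc x * D / F)) *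
      (F ^ 2 * D) = F ^ 2 * D - F * x * wc x - F * wc x * D ^ 2 - 3 * x * wc x ^ 2 * D := by
      field_simp
    rw [h6]
    have h7 : F ^ 2 * D - F * x * wc x - F * wc x * D ^ 2 - 3 * x * wc x ^ 2 * D =
        F * D ^ 2 - (3 * x * wc x * D + (1 - x) * wc x * F ^ 2 * D +
          x * (1 - x) * wc x ^ 2 * F) := by
      rw [hD, hF]
      ring
    rw [h7, hc]
    ring
  rcases mul_eq_zero.1 h5 with h | h
  · exact h
  · exact absurd h (by positivity)

theorem vc_lt_one (h0 : 0 < x) (h1 : x < 1) : vc x < 1 := by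
  have h2 := CritV_cr h0 h1
  have h3 := vc_pos h0 h1
  have h4 := alc_pos h0 h1
  have h5 := mul_pos h4 h3
  linarith

private theorem CritV_congr {f g : ℕ → ℝ} {a : ℝ} (h : ∀ n, f n = g n) (hg : HasSum g a) :
    HasSum f a := by
  have e : f = g := funext h
  rw [e]
  exact hg

private theorem CritV_u (h0 : 0 < x) (h1 : x < 1) : alc x < 1 := by
  have h2 := CritV_cr h0 h1
  have h3 := vc_pos h0 h1
  have h4 := alc_pos h0 h1
  have h5 := mul_pos h4 h3
  linarith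

private theorem CritV_ueq (h0 : 0 < x) (h1 : x < 1) :
    alc x = (1 - vc x) / (1 + 3 * vc x) := by
  have h2 := CritV_cr h0 h1
  have h3 := vc_pos h0 h1
  rw [eq_div_iff (by positivity)]
  linarith

private theorem CritV_uv (h0 : 0 < x) (h1 : x < 1) :
    alc x * (1 - vc x) ^ 2 = x * vc x * (1 - alc x) ^ 2 := by
  obtain ⟨hw0, hw1, hc⟩ := wc_spec h0 h1
  have h3 := CritV_D h0 h1
  have h4 : 0 < 1 - wc x := by linarith
  unfold alc vc
  obtain ⟨D, hD⟩ : ∃ D, D = 1 - (1 - x) * wc x := ⟨_, rfl⟩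
  obtain ⟨F, hF⟩ : ∃ F, F = 1 - wc x := ⟨_, rfl⟩
  rw [← hD] at h3 ⊢
  rw [← hF] at h4 ⊢
  have e1 : 1 - wc x * D / F = (F - wc x * D) / F := by field_simp
  have e2 : 1 - x * wc x / (F * D) = (F * D - x * wc x) / (F * D) := by field_simp
  have e3 : F * D - x * wc x = F - wc x * D := by
    rw [hD, hF]
    ring
  rw [e1, e2, e3]
  field_simp

private theorem CritV_yc (h0 : 0 < x) (h1 : x < 1) :
    vc x * (1 - alc x) ^ 2 / (1 + alc x + vc x - 3 * alc x * vc x) ^ 2 = yc x := by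
  obtain ⟨hw0, hw1, hc⟩ := wc_spec h0 h1
  have h3 := CritV_D h0 h1
  have h4 : 0 < 1 - wc x := by linarith
  have hN := nW_pos h0 h1 hw0.le hw1
  have hv1 : 0 < 1 - vc x := by
    have := vc_lt_one h0 h1
    linarith
  unfold vc at hv1
  unfold alc vc yc
  obtain ⟨D, hD⟩ : ∃ D, D = 1 - (1 - x) * wc x := ⟨_, rfl⟩
  obtain ⟨F, hF⟩ : ∃ F, F = 1 - wc x := ⟨_, rfl⟩
  obtain ⟨N, hN'⟩ : ∃ N, N = nW x (wc x) := ⟨_, rfl⟩
  rw [← hD] at h3 hv1 ⊢
  rw [← hF] at h4 hv1 ⊢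
  rw [← hN'] at hN ⊢
  obtain ⟨G, hG⟩ : ∃ G, G = F - wc x * D := ⟨_, rfl⟩
  have hG0 : 0 < G := by
    have e1 : 1 - wc x * D / F = G / F := by
      rw [hG]
      field_simp
    rw [e1] at hv1
    rcases (div_pos_iff.1 hv1) with h | h
    · exact h.1
    · linarith [h.2]
  have e2 : 1 - x * wc x / (F * D) = G / (F * D) := by
    rw [hG]
    field_simp
    rw [hD, hF]
    ring
  have e3 : 1 + x * wc x / (F * D) + wc x * D / F - 3 * (x * wc x / (F * D)) * (wc x * D / F) =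
      G * N / (F ^ 2 * D) := by
    have e4 : 1 + x * wc x / (F * D) + wc x * D / F -
        3 * (x * wc x / (F * D)) * (wc x * D / F) =
        (F ^ 2 * D + F * x * wc x + F * wc x * D ^ 2 - 3 * x * wc x ^ 2 * D) / (F ^ 2 * D) := by
      field_simp
    have e5 : F ^ 2 * D + F * x * wc x + F * wc x * D ^ 2 - 3 * x * wc x ^ 2 * D = G * N := by
      rw [hG, hN', hD, hF]
      unfold nW
      ring
    rw [e4, e5]
  rw [e2, e3]
  field_simp

theorem scr_vc (h0 : 0 < x) (h1 : x < 1) : scr (vc x) = x := by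
  have h2 := CritV_uv h0 h1
  have h3 := vc_pos h0 h1
  have h4 := CritV_ueq h0 h1
  have h5 : 0 < 1 - vc x := by
    have := vc_lt_one h0 h1
    linarith
  have e1 : 1 - alc x = 4 * vc x / (1 + 3 * vc x) := by
    rw [h4]
    field_simp
    ring
  rw [e1, h4] at h2
  unfold scr
  obtain ⟨v, hv⟩ : ∃ v, v = vc x := ⟨_, rfl⟩
  rw [← hv] at h2 h3 h5 ⊢
  have h6 : (1 + 3 * v) ≠ 0 := by positivity
  rw [div_eq_iff (by positivity)]
  field_simp at h2
  have h7 : v * (x * (16 * v ^ 3) - (1 + 3 * v) * (1 - v) ^ 3) = 0 := by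
    linear_combination (-v) * h2
  rcases mul_eq_zero.1 h7 with h | h
  · exact absurd h h3.ne'
  · linarith

theorem uf_vc (h0 : 0 < x) (h1 : x < 1) :
    uf x (vc x) = alc x ∧ alc x = (1 - vc x) / (1 + 3 * vc x) := by
  refine ⟨?_, CritV_ueq h0 h1⟩
  exact (uf_unique h0 (vc_pos h0 h1) (vc_lt_one h0 h1) (alc_pos h0 h1) (CritV_u h0 h1)
    (CritV_uv h0 h1)).symm

theorem yc_vc (h0 : 0 < x) (h1 : x < 1) : tV x (vc x) = yc x := by
  unfold tV Yf psiV
  rw [(uf_vc h0 h1).1]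
  exact CritV_yc h0 h1

theorem ag_val (h0 : 0 < x) (h1 : x ≤ 1 / 10)
    (h : Ag (ENNReal.ofReal x) (ENNReal.ofReal (yc x)) ≠ ⊤) :
    Ag (ENNReal.ofReal x) (ENNReal.ofReal (yc x)) = ENNReal.ofReal (psiV x (vc x)) ∧
    yc x * psiV x (vc x) ^ 2 = Yf x (vc x) ∧
    Es (ENNReal.ofReal x) (ENNReal.ofReal (Yf x (vc x))) = ENNReal.ofReal (ecr (vc x)) := by
  have h1' : x < 1 := by linarith
  have hy := yc_pos h0 h1'
  have hv0 := vc_pos h0 h1'
  have hv1 := vc_lt_one h0 h1'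
  have hs := scr_vc h0 h1'
  obtain ⟨A, hA⟩ : ∃ A, A = (Ag (ENNReal.ofReal x) (ENNReal.ofReal (yc x))).toReal := ⟨_, rfl⟩
  have hAo : Ag (ENNReal.ofReal x) (ENNReal.ofReal (yc x)) = ENNReal.ofReal A := by
    rw [hA, ENNReal.ofReal_toReal h]
  have hx' : ENNReal.ofReal x ≠ 0 := by
    rw [Ne, ENNReal.ofReal_eq_zero]; linarith
  have hy' : ENNReal.ofReal (yc x) ≠ 0 := by
    rw [Ne, ENNReal.ofReal_eq_zero]; linarith
  have hEs := Es_ne_top hx' hy' h
  have hAg := Ag_eq (ENNReal.ofReal x) (ENNReal.ofReal (yc x))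
  have hA1 : 1 ≤ A := by
    have e1 : (1 : ℝ≥0∞) ≤ ENNReal.ofReal A := by
      rw [← hAo, hAg]
      exact le_self_add
    rwa [ENNReal.one_le_ofReal] at e1
  have hA0 : 0 ≤ A := by linarith
  have hz0 : 0 < yc x * A ^ 2 := by positivity
  have hzo : ENNReal.ofReal (yc x) * Ag (ENNReal.ofReal x) (ENNReal.ofReal (yc x)) ^ 2 =
      ENNReal.ofReal (yc x * A ^ 2) := by
    rw [hAo, ← ENNReal.ofReal_pow hA0, ← ENNReal.ofReal_mul hy.le]
  rw [hzo] at hEs hAg
  have hval := Es_val (t := vc x) hv0 hv1 (by rw [hs]; exact h1) hz0 (by rw [hs]; exact hEs)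
  rw [hs] at hval
  obtain ⟨v, hv0', hv1', hz, hE⟩ := hval
  have hvlt : v < 1 := hv1'.trans_lt hv1
  have hEge : ENNReal.ofReal (yc x * A ^ 2) ≤
      Es (ENNReal.ofReal x) (ENNReal.ofReal (yc x * A ^ 2)) := by
    rw [E_eq, add_assoc, add_assoc]
    exact le_self_add
  have hEf : 0 < Ef x v := by
    rw [hE] at hEge
    by_contra hneg
    push Not at hneg
    rw [ENNReal.ofReal_of_nonpos hneg, nonpos_iff_eq_zero, ENNReal.ofReal_eq_zero] at hEge
    linarith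
  have hAeq : A = 1 + yc x * A ^ 2 * (1 + x * (1 + Ef x v)) := by
    rw [hE, hAo] at hAg
    have e2 : (1 : ℝ≥0∞) + ENNReal.ofReal (yc x * A ^ 2) *
        (1 + ENNReal.ofReal x * (1 + ENNReal.ofReal (Ef x v))) =
        ENNReal.ofReal (1 + yc x * A ^ 2 * (1 + x * (1 + Ef x v))) := by
      rw [ENNReal.ofReal_add zero_le_one (by positivity), ENNReal.ofReal_mul hz0.le,
        ENNReal.ofReal_add zero_le_one (by positivity), ENNReal.ofReal_mul h0.le,
        ENNReal.ofReal_add zero_le_one hEf.le, ENNReal.ofReal_one]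
    rw [e2] at hAg
    exact (ENNReal.ofReal_eq_ofReal_iff hA0 (by positivity)).1 hAg
  rw [hz, psi_id h0 hv0' hvlt] at hAeq
  have htV : tV x v = yc x := by
    unfold tV
    rw [← hz, ← hAeq]
    have : A ≠ 0 := by positivity
    field_simp
  have hmono := tV_strictMonoOn hv0 hv1
  rw [hs] at hmono
  have hinj : v = vc x := hmono.injOn ⟨hv0', hv1'⟩ ⟨hv0, le_rfl⟩ (by rw [htV, yc_vc h0 h1'])
  subst hinj
  refine ⟨by rw [hAo, hAeq], by rw [← hAeq]; exact hz, ?_⟩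
  rw [← hz, hE]
  congr 1
  have e3 := Ef_crit hv0 hv1
  rw [hs] at e3
  exact e3

/-- the total weights at the critical point; `v = vc x`, `u = alc x` -/
theorem crit_sums (h0 : 0 < x) (h1 : x ≤ 1 / 10)
    (h : Ag (ENNReal.ofReal x) (ENNReal.ofReal (yc x)) ≠ ⊤) :
    HasSum (aS x (yc x)) (1 + alc x + vc x - 3 * alc x * vc x) ∧
    HasSum (zS x (yc x)) (vc x * (1 - alc x) ^ 2) ∧
    HasSum (YS x (yc x)) (ecr (vc x)) ∧
    HasSum (SS x (yc x)) (x * ecr (vc x) ^ 2 / (1 + x * ecr (vc x))) ∧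
    HasSum (PS x (yc x)) (ecr (vc x) ^ 2 / (1 + ecr (vc x))) ∧
    HasSum (RS x (yc x)) (Rf x (vc x)) ∧
    HasSum (fun j => rhoS x j * ecr (vc x) ^ j) (Rf x (vc x)) := by
  have h1' : x < 1 := by linarith
  have hy := yc_pos h0 h1'
  have hv0 := vc_pos h0 h1'
  have hv1 := vc_lt_one h0 h1'
  have hs := scr_vc h0 h1'
  have huf := (uf_vc h0 h1').1
  obtain ⟨hA, hz, hE⟩ := ag_val h0 h1 h
  have hpsi := psiV_pos h0 hv0 hv1
  have hpsi' : psiV x (vc x) = 1 + alc x + vc x - 3 * alc x * vc x := by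
    unfold psiV
    rw [huf]
  have hYf' : Yf x (vc x) = vc x * (1 - alc x) ^ 2 := by
    unfold Yf
    rw [huf]
  have hAr : (Ag (ENNReal.ofReal x) (ENNReal.ofReal (yc x))).toReal = psiV x (vc x) := by
    rw [hA, ENNReal.toReal_ofReal hpsi.le]
  have he0 := ecr_pos hv0 hv1
  obtain ⟨sA, sZ, sY, sS, sP, sR⟩ := sys_sums h0 hy h
  have hsys := sys h0 hy h
  have hzo : ENNReal.ofReal (yc x) * Ag (ENNReal.ofReal x) (ENNReal.ofReal (yc x)) ^ 2 =
      ENNReal.ofReal (Yf x (vc x)) := by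
    rw [hA, ← ENNReal.ofReal_pow hpsi.le, ← ENNReal.ofReal_mul hy.le, hz]
  rw [hAr, hz] at sZ
  rw [hAr] at sA
  rw [hzo, hE, ENNReal.toReal_ofReal he0.le] at sY
  -- the sum of a convolution
  have hcv : ∀ {f g : ℕ → ℝ} {a b : ℝ}, (∀ n, 0 ≤ f n) → (∀ n, 0 ≤ g n) → HasSum f a →
      HasSum g b → HasSum (cv f g) (a * b) := by
    intro f g a b hf0 hg0 hf hg
    have hn : Summable fun k : ℕ => ‖f k‖ :=
      (summable_congr fun k => (Real.norm_of_nonneg (hf0 k))).2 hf.summable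
    have hn' : Summable fun k : ℕ => ‖g k‖ :=
      (summable_congr fun k => (Real.norm_of_nonneg (hg0 k))).2 hg.summable
    have h3 := tsum_mul_tsum_eq_tsum_sum_antidiagonal_of_summable_norm hn hn'
    have h4 := (summable_norm_sum_mul_antidiagonal_of_summable_norm hn hn').of_norm.hasSum
    rw [← h3, hf.tsum_eq, hg.tsum_eq] at h4
    exact h4
  have hSs := sS.hasSum
  have hPs := sP.hasSum
  obtain ⟨a, ha⟩ : ∃ a, a = ∑' n, SS x (yc x) n := ⟨_, rfl⟩
  obtain ⟨b, hb⟩ : ∃ b, b = ∑' n, PS x (yc x) n := ⟨_, rfl⟩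
  rw [← ha] at hSs
  rw [← hb] at hPs
  have haval : a = x * ecr (vc x) ^ 2 / (1 + x * ecr (vc x)) := by
    have e1 := (hcv (f := YS x (yc x) - SS x (yc x)) (fun n => by
      have := hsys.SY n
      simp only [Pi.sub_apply]
      linarith) hsys.Y0 (sY.sub hSs) sY).mul_left x
    have e2 : a = x * ((ecr (vc x) - a) * ecr (vc x)) :=
      hSs.unique (CritV_congr hsys.hS e1)
    rw [eq_div_iff (by positivity)]
    linear_combination e2
  have hbval : b = ecr (vc x) ^ 2 / (1 + ecr (vc x)) := by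
    have e1 := (hcv (f := YS x (yc x) - PS x (yc x)) (fun n => by
      have := hsys.PY n
      simp only [Pi.sub_apply]
      linarith) hsys.Y0 (sY.sub hPs) sY)
    have e2 : b = (ecr (vc x) - b) * ecr (vc x) :=
      hPs.unique (CritV_congr hsys.hP e1)
    rw [eq_div_iff (by positivity)]
    linear_combination e2
  have hEf : Ef x (vc x) = ecr (vc x) := by
    have e3 := Ef_crit hv0 hv1
    rwa [hs] at e3
  have hR : HasSum (RS x (yc x)) (Rf x (vc x)) := by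
    have e1 := ((sY.sub sZ).sub hSs).sub hPs
    have e2 : ecr (vc x) - Yf x (vc x) - a - b = Rf x (vc x) := by
      unfold Rf
      rw [hEf, haval, hbval]
    rw [e2] at e1
    refine CritV_congr (fun n => ?_) e1
    have := hsys.hY n
    linarith
  rw [haval] at hSs
  rw [hbval] at hPs
  rw [hpsi'] at sA
  rw [hYf'] at sZ
  refine ⟨sA, sZ, sY, hSs, hPs, hR, ?_⟩
  have hc := Rg_crit hv0 hv1 (by rw [hs]; exact h1)
  rw [hs, Rg_series] at hc
  have e5 : (fun j => rhoS x j * ecr (vc x) ^ j) = fun j =>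
      (rc' (ENNReal.ofReal x) j * ENNReal.ofReal (ecr (vc x)) ^ j).toReal := by
    funext j
    unfold rhoS
    rw [ENNReal.toReal_mul, ENNReal.toReal_pow, ENNReal.toReal_ofReal he0.le]
  rw [e5]
  have hne : ∑' n, rc' (ENNReal.ofReal x) n * ENNReal.ofReal (ecr (vc x)) ^ n ≠ ⊤ := by
    rw [hc.2]
    exact ENNReal.ofReal_ne_top
  have e6 := ENNReal.hasSum_toReal hne
  rw [← ENNReal.tsum_toReal_eq (fun n => ENNReal.ne_top_of_tsum_ne_top hne n)] at e6
  rwa [hc.2, ENNReal.toReal_ofReal hc.1] at e6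

end Dia
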