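import Pool.Agent.DiaC.ExpH

/-!
# Module ExpM: exponential moments of the pole distance

`aT_step`: with `Q0 = (1 + D0)/2 = ∑ wt (qN ⊤) rho` (`dN_eq`, `dN_zero`, `qN_zero`), `A = aT θ n`:
`dT_step` summed over `k < n + 1`: `aT θ (n+1) ≤ (exp θ - 1) Q0 + Q0 B`, `B = ∑_{k < n+1} (wt (bT θ) - wt (bN ⊤))`
(the sum over `k < n + 1` of a convolution of nonnegative sequences is at most the product of the sums over `k < n + 1`),
`B ≤ R0 (2 D0 A + A²) + ∑_{k<n+1} wt (HcT θ) rho k` (`bT_le`; `rN 0 = 0`, so only the values of `dT` below `n` occur;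
`cv dT dT - cv dN dN = 2 cv dN δ + cv δ δ`), `HcT_sum`, `PL_series` with `y = A / D0`.
`exp_mom'`: by `contr_num` `Q0 (2 R0 D0 + RgE) ≤ 33/100`.  Claim `aT θ n ≤ 4 Q0 θ` for all `n` if `θ` is small: `aT θ 0 = 0`;
`exp θ - 1 ≤ 2 θ`; `2 Q0 θ + (33/100) 4 Q0 θ + K (4 Q0 θ)² ≤ 4 Q0 θ`.
Then the sums of `wt (dT θ) rho` are bounded by `D0 + 4 Q0 θ`.
-/

set_option linter.unusedSectionVars false

namespace Dia
open Finset PGr Pool.Agent.DiamP
open scoped ENNReal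

private theorem ExpM_rho : 0 ≤ rho := le_trans (by norm_num) rho_ge

private theorem ExpM_dN (k : ℕ) : 0 ≤ dN ⊤ k := (dN_pos k).le

private theorem ExpM_rN (k : ℕ) : 0 ≤ rN ⊤ k := by
  rcases Nat.eq_zero_or_pos k with h | h
  · rw [h, rN_zero]
  · exact (rN_pos k h).le

private theorem ExpM_qN (k : ℕ) : 0 ≤ qN ⊤ k := by
  rcases Nat.eq_zero_or_pos k with h | h
  · rw [h, qN_zero]
    exact zero_le_one
  · have h1 := dN_eq ⊤ (k := k) h
    have h2 := ExpM_dN k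
    linarith

private theorem ExpM_wt_nn {f : ℕ → ℝ} (h : ∀ k, 0 ≤ f k) (k : ℕ) : 0 ≤ wt f rho k :=
  mul_nonneg (h k) (pow_nonneg ExpM_rho k)

theorem sum_q : Summable (wt (qN ⊤) rho) ∧ ∑' k, wt (qN ⊤) rho k = (1 + D0) / 2 := by
  have h1 : HasSum (wt (dN ⊤) rho) D0 := sum_d.hasSum
  have h2 : HasSum (fun k : ℕ => if k = 0 then (1 / 2 : ℝ) else 0) (1 / 2) := hasSum_ite_eq 0 (1 / 2)
  have h3 := (h1.div_const 2).add h2
  have h4 : (fun k : ℕ => wt (dN ⊤) rho k / 2 + if k = 0 then (1 / 2 : ℝ) else 0) =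
      wt (qN ⊤) rho := by
    funext k
    unfold wt
    rcases Nat.eq_zero_or_pos k with h | h
    · subst h
      rw [if_pos rfl, dN_zero, qN_zero]
      norm_num
    · rw [if_neg (by omega), dN_eq ⊤ h]
      ring
  rw [h4] at h3
  refine ⟨h3.summable, ?_⟩
  rw [h3.tsum_eq]
  ring

/-- partial sums of a convolution -/
private theorem ExpM_part (f g : ℕ → ℝ) (n : ℕ) :
    ∑ k ∈ range n, cv f g k = ∑ i ∈ range n, f i * ∑ j ∈ range (n - i), g j := by
  induction n with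
  | zero => simp
  | succ n ih =>
    rw [sum_range_succ, ih, cv_eq_range]
    have h1 : ∑ i ∈ range (n + 1), f i * ∑ j ∈ range (n + 1 - i), g j =
        ∑ i ∈ range (n + 1), (f i * ∑ j ∈ range (n - i), g j + f i * g (n - i)) := by
      refine sum_congr rfl fun i hi => ?_
      have hi' : i ≤ n := Nat.lt_succ_iff.1 (mem_range.1 hi)
      rw [Nat.succ_sub hi', sum_range_succ, mul_add]
    rw [h1, sum_add_distrib]
    congr 1
    rw [sum_range_succ, Nat.sub_self, range_zero, sum_empty, mul_zero, add_zero]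

private theorem ExpM_cv {f g : ℕ → ℝ} (hf : ∀ k, 0 ≤ f k) (hg : ∀ k, 0 ≤ g k) (n : ℕ) :
    ∑ k ∈ range n, cv f g k ≤ (∑ k ∈ range n, f k) * ∑ k ∈ range n, g k := by
  rw [ExpM_part, sum_mul]
  refine sum_le_sum fun i _ => mul_le_mul_of_nonneg_left ?_ (hf i)
  exact sum_le_sum_of_subset_of_nonneg (range_subset_range.2 (Nat.sub_le n i)) fun j _ _ => hg j

private theorem ExpM_cv0 {f g : ℕ → ℝ} (hf : ∀ k, 0 ≤ f k) (hg : ∀ k, 0 ≤ g k) (h0 : f 0 = 0)
    (n : ℕ) :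
    ∑ k ∈ range (n + 1), cv f g k ≤ (∑ k ∈ range (n + 1), f k) * ∑ k ∈ range n, g k := by
  rw [ExpM_part, sum_mul]
  refine sum_le_sum fun i _ => ?_
  rcases Nat.eq_zero_or_pos i with hi | hi
  · subst hi
    rw [h0, zero_mul, zero_mul]
  · refine mul_le_mul_of_nonneg_left ?_ (hf i)
    exact sum_le_sum_of_subset_of_nonneg (range_subset_range.2 (by omega)) fun j _ _ => hg j

private theorem ExpM_sq (D δ : ℕ → ℝ) (k : ℕ) :
    cv (D + δ) (D + δ) k - cv D D k = 2 * cv D δ k + cv δ δ k := by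
  rw [cv_add, cv_comm (D + δ) D, cv_comm (D + δ) δ, cv_add, cv_add, cv_comm δ D]
  simp only [Pi.add_apply]
  ring

/-- the bound for the connected parts -/
private theorem ExpM_B {y0 K2 : ℝ} (hK2 : 0 < K2)
    (hPL : ∀ y : ℝ, 0 ≤ y → y ≤ y0 → ∑' v : ℕ, ∑' e : ℕ, ∑ m ∈ range (e + 1),
      ENNReal.ofReal (hP (PLm m) v e) * hw v e * ENNReal.ofReal ((1 + y) ^ m - 1) ≤
      ENNReal.ofReal (D0 * (RgE (ENNReal.ofReal R0) (ENNReal.ofReal D0)).toReal * y + K2 * y ^ 2))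
    {θ : ℝ} (hθ : 0 ≤ θ) (n : ℕ) (hn : aT θ n ≤ y0) :
    ∑ k ∈ range (n + 1), wt (fun j => bT θ j - bN ⊤ j) rho k ≤
      R0 * (2 * D0 * aT θ n + aT θ n ^ 2) +
      ((RgE (ENNReal.ofReal R0) (ENNReal.ofReal D0)).toReal * aT θ n + K2 * aT θ n ^ 2) := by
  have hA := aT_nonneg hθ n
  have hD1 : 1 ≤ D0 := D0_range.1
  have hD0 : 0 < D0 := lt_of_lt_of_le one_pos hD1
  have hRg0 : 0 ≤ (RgE (ENNReal.ofReal R0) (ENNReal.ofReal D0)).toReal := ENNReal.toReal_nonneg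
  have hR0 : 0 ≤ R0 := le_trans (by norm_num) R0_range.1
  have hdT : ∀ k, 0 ≤ dT θ k := fun k => (ExpM_dN k).trans (dT_ge hθ k)
  -- the increments
  set D : ℕ → ℝ := wt (dN ⊤) rho with hDdef
  set δ : ℕ → ℝ := fun k => wt (dT θ) rho k - wt (dN ⊤) rho k with hδdef
  have hDδ : wt (dT θ) rho = D + δ := by
    funext k
    simp [hDdef, hδdef]
  have hDn : ∀ k, 0 ≤ D k := ExpM_wt_nn ExpM_dN
  have hδn : ∀ k, 0 ≤ δ k := fun k => by
    have h := mul_le_mul_of_nonneg_right (dT_ge hθ k) (pow_nonneg ExpM_rho k)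
    exact sub_nonneg.2 h
  have hφ : ∀ k, wt (fun j => cv (dT θ) (dT θ) j - cv (dN ⊤) (dN ⊤) j) rho k =
      2 * cv D δ k + cv δ δ k := by
    intro k
    rw [← ExpM_sq D δ k, ← hDδ, hDdef, wt_cv, wt_cv]
    unfold wt
    ring
  have hφn : ∀ k, 0 ≤ wt (fun j => cv (dT θ) (dT θ) j - cv (dN ⊤) (dN ⊤) j) rho k := by
    intro k
    rw [hφ]
    have h1 := cv_nonneg hDn hδn k
    have h2 := cv_nonneg hδn hδn k
    linarith
  have hsD : ∑ k ∈ range n, D k ≤ D0 := sum_d.sum_le_tsum _ fun k _ => hDn k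
  have hsδ : ∑ k ∈ range n, δ k = aT θ n := rfl
  have hφs : ∑ k ∈ range n, wt (fun j => cv (dT θ) (dT θ) j - cv (dN ⊤) (dN ⊤) j) rho k ≤
      2 * D0 * aT θ n + aT θ n ^ 2 := by
    rw [sum_congr rfl fun k _ => hφ k, sum_add_distrib, ← mul_sum]
    have h1 := ExpM_cv hDn hδn n
    have h2 := ExpM_cv hδn hδn n
    rw [hsδ] at h1 h2
    have h3 := mul_le_mul_of_nonneg_right hsD hA
    nlinarith
  have hsr : ∑ k ∈ range (n + 1), wt (rN ⊤) rho k ≤ R0 :=
    sum_r.sum_le_tsum _ fun k _ => ExpM_wt_nn ExpM_rN k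
  have hr0 : wt (rN ⊤) rho 0 = 0 := by
    unfold wt
    rw [rN_zero, zero_mul]
  have h1 : ∑ k ∈ range (n + 1), cv (wt (rN ⊤) rho)
      (wt (fun j => cv (dT θ) (dT θ) j - cv (dN ⊤) (dN ⊤) j) rho) k ≤
      R0 * (2 * D0 * aT θ n + aT θ n ^ 2) := by
    refine (ExpM_cv0 (ExpM_wt_nn ExpM_rN) hφn hr0 n).trans ?_
    exact mul_le_mul hsr hφs (sum_nonneg fun k _ => hφn k) hR0
  -- the rigid part
  have h2 : ∑ k ∈ range (n + 1), wt (HcT θ) rho k ≤
      (RgE (ENNReal.ofReal R0) (ENNReal.ofReal D0)).toReal * aT θ n + K2 * aT θ n ^ 2 := by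
    have h3 := (HcT_sum hθ n).trans (hPL (aT θ n / D0) (div_nonneg hA hD0.le)
      ((div_le_self hA hD1).trans hn))
    have h4 : ENNReal.ofReal (∑ k ∈ range (n + 1), wt (HcT θ) rho k) ≤
        ∑ k ∈ range (n + 1), ENNReal.ofReal (wt (HcT θ) rho k) := by
      have h5 : ∑ k ∈ range (n + 1), ENNReal.ofReal (wt (HcT θ) rho k) =
          ∑ k ∈ range (n + 1), ENNReal.ofReal (max (wt (HcT θ) rho k) 0) :=
        sum_congr rfl fun k _ => by
          rcases le_total (wt (HcT θ) rho k) 0 with h | h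
          · rw [max_eq_right h, ENNReal.ofReal_of_nonpos h, ENNReal.ofReal_zero]
          · rw [max_eq_left h]
      rw [h5, ← ENNReal.ofReal_sum_of_nonneg fun k _ => le_max_right _ _]
      exact ENNReal.ofReal_le_ofReal (sum_le_sum fun k _ => le_max_left _ _)
    have h6 := h4.trans h3
    have h7 : 0 ≤ D0 * (RgE (ENNReal.ofReal R0) (ENNReal.ofReal D0)).toReal * (aT θ n / D0) +
        K2 * (aT θ n / D0) ^ 2 := by positivity
    rw [ENNReal.ofReal_le_ofReal_iff h7] at h6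
    refine h6.trans ?_
    have h8 : D0 * (RgE (ENNReal.ofReal R0) (ENNReal.ofReal D0)).toReal * (aT θ n / D0) =
        (RgE (ENNReal.ofReal R0) (ENNReal.ofReal D0)).toReal * aT θ n := by
      field_simp
    have h9 : (aT θ n / D0) ^ 2 ≤ aT θ n ^ 2 :=
      pow_le_pow_left₀ (div_nonneg hA hD0.le) (div_le_self hA hD1) 2
    rw [h8]
    have := mul_le_mul_of_nonneg_left h9 hK2.le
    linarith
  have h3 : ∀ k, wt (fun j => bT θ j - bN ⊤ j) rho k ≤ cv (wt (rN ⊤) rho)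
      (wt (fun j => cv (dT θ) (dT θ) j - cv (dN ⊤) (dN ⊤) j) rho) k + wt (HcT θ) rho k := by
    intro k
    rw [wt_cv]
    unfold wt
    rw [← add_mul]
    exact mul_le_mul_of_nonneg_right (bT_le hθ k) (pow_nonneg ExpM_rho k)
  refine (sum_le_sum fun k _ => h3 k).trans ?_
  rw [sum_add_distrib]
  exact add_le_add h1 h2

theorem aT_step : ∃ y0 K : ℝ, 0 < y0 ∧ 0 < K ∧ ∀ θ : ℝ, 0 ≤ θ → ∀ n : ℕ, aT θ n ≤ y0 →
    aT θ (n + 1) ≤ (Real.exp θ - 1) * ((1 + D0) / 2) +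
      (1 + D0) / 2 * (2 * R0 * D0 + (RgE (ENNReal.ofReal R0) (ENNReal.ofReal D0)).toReal) *
        aT θ n + K * aT θ n ^ 2 := by
  obtain ⟨y0, K2, hy0, hK2, hPL⟩ := PL_series
  have hD1 : 1 ≤ D0 := D0_range.1
  have hR0 : 0 < R0 := lt_of_lt_of_le (by norm_num) R0_range.1
  refine ⟨y0, (1 + D0) / 2 * (R0 + K2), hy0, by positivity, fun θ hθ n hn => ?_⟩
  have hB := ExpM_B hK2 hPL hθ n hn
  have hA := aT_nonneg hθ n
  have hbn : ∀ k, 0 ≤ wt (fun j => bT θ j - bN ⊤ j) rho k := fun k =>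
    ExpM_wt_nn (fun j => sub_nonneg.2 (bT_ge hθ j)) k
  have hqn := ExpM_wt_nn ExpM_qN
  have hexp : 0 ≤ Real.exp θ - 1 := by
    have := Real.add_one_le_exp θ
    linarith
  have hq : ∑ k ∈ range (n + 1), wt (qN ⊤) rho k ≤ (1 + D0) / 2 := by
    rw [← sum_q.2]
    exact sum_q.1.sum_le_tsum _ fun k _ => hqn k
  have h1 : ∀ k, wt (dT θ) rho k - wt (dN ⊤) rho k ≤
      (Real.exp θ - 1) * wt (qN ⊤) rho k +
        cv (wt (fun j => bT θ j - bN ⊤ j) rho) (wt (qN ⊤) rho) k := by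
    intro k
    rw [wt_cv]
    unfold wt
    have := mul_le_mul_of_nonneg_right (dT_step hθ k) (pow_nonneg ExpM_rho k)
    linarith
  have h2 : aT θ (n + 1) ≤ (Real.exp θ - 1) * ((1 + D0) / 2) +
      (∑ k ∈ range (n + 1), wt (fun j => bT θ j - bN ⊤ j) rho k) * ((1 + D0) / 2) := by
    unfold aT
    refine (sum_le_sum fun k _ => h1 k).trans ?_
    rw [sum_add_distrib, ← mul_sum]
    refine add_le_add (mul_le_mul_of_nonneg_left hq hexp) ?_
    exact (ExpM_cv hbn hqn (n + 1)).trans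
      (mul_le_mul_of_nonneg_left hq (sum_nonneg fun k _ => hbn k))
  have h3 := mul_le_mul_of_nonneg_right hB (show (0 : ℝ) ≤ (1 + D0) / 2 by positivity)
  refine h2.trans ?_
  have h4 : (R0 * (2 * D0 * aT θ n + aT θ n ^ 2) +
      ((RgE (ENNReal.ofReal R0) (ENNReal.ofReal D0)).toReal * aT θ n + K2 * aT θ n ^ 2)) *
      ((1 + D0) / 2) = (1 + D0) / 2 * (2 * R0 * D0 +
        (RgE (ENNReal.ofReal R0) (ENNReal.ofReal D0)).toReal) * aT θ n +
        (1 + D0) / 2 * (R0 + K2) * aT θ n ^ 2 := by ring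
  linarith

private theorem ExpM_exp {θ : ℝ} (h0 : 0 ≤ θ) (h1 : θ ≤ 1 / 2) : Real.exp θ - 1 ≤ 2 * θ := by
  have h2 := Real.add_one_le_exp (-θ)
  have h3 : Real.exp θ * Real.exp (-θ) = 1 := by
    rw [← Real.exp_add, add_neg_cancel, Real.exp_zero]
  have h4 := Real.exp_pos θ
  have h5 : Real.exp θ * (1 - θ) ≤ 1 := by
    have := mul_le_mul_of_nonneg_left h2 h4.le
    linarith
  nlinarith

theorem exp_mom' : ∃ θ Λ : ℝ, 0 < θ ∧ 1 ≤ Λ ∧ Summable (wt (dT θ) rho) ∧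
    ∑' k, wt (dT θ) rho k ≤ Λ * D0 := by
  obtain ⟨y0, K, hy0, hK, hstep⟩ := aT_step
  have hD1 : 1 ≤ D0 := D0_range.1
  have hc := contr_num.1
  set Q : ℝ := (1 + D0) / 2 with hQ
  have hQ1 : 1 ≤ Q := by rw [hQ]; linarith
  have hQ0 : 0 < Q := by linarith
  -- the choice of theta
  obtain ⟨θ, hθ0, hθ1, hθ2, hθ3⟩ : ∃ θ : ℝ, 0 < θ ∧ θ ≤ 1 / 2 ∧ 4 * Q * θ ≤ y0 ∧
      16 * K * Q * θ ≤ 1 / 2 := by
    refine ⟨min (1 / 2) (min (y0 / (4 * Q)) (1 / (32 * K * Q))), ?_, min_le_left _ _, ?_, ?_⟩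
    · exact lt_min (by norm_num) (lt_min (by positivity) (by positivity))
    · have h := (min_le_right (1 / 2) (min (y0 / (4 * Q)) (1 / (32 * K * Q)))).trans
        (min_le_left _ _)
      calc 4 * Q * _ ≤ 4 * Q * (y0 / (4 * Q)) := mul_le_mul_of_nonneg_left h (by positivity)
        _ = y0 := by field_simp
    · have h := (min_le_right (1 / 2) (min (y0 / (4 * Q)) (1 / (32 * K * Q)))).trans
        (min_le_right _ _)
      calc 16 * K * Q * _ ≤ 16 * K * Q * (1 / (32 * K * Q)) :=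
            mul_le_mul_of_nonneg_left h (by positivity)
        _ = 1 / 2 := by field_simp; norm_num
  have hb : ∀ n, aT θ n ≤ 4 * Q * θ := by
    intro n
    induction n with
    | zero =>
      unfold aT
      rw [range_zero, sum_empty]
      positivity
    | succ n ih =>
      have h1 := hstep θ hθ0.le n (ih.trans hθ2)
      have hA := aT_nonneg hθ0.le n
      have h2 := ExpM_exp hθ0.le hθ1
      have h3 : (Real.exp θ - 1) * Q ≤ 2 * θ * Q := mul_le_mul_of_nonneg_right h2 hQ0.le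
      have h4 : Q * (2 * R0 * D0 + (RgE (ENNReal.ofReal R0) (ENNReal.ofReal D0)).toReal) ≤
          33 / 100 := by
        rw [hQ]
        linarith
      have h5 : Q * (2 * R0 * D0 + (RgE (ENNReal.ofReal R0) (ENNReal.ofReal D0)).toReal) *
          aT θ n ≤ 33 / 100 * (4 * Q * θ) := by
        refine (mul_le_mul_of_nonneg_right h4 hA).trans ?_
        exact mul_le_mul_of_nonneg_left ih (by norm_num)
      have h6 : aT θ n ^ 2 ≤ (4 * Q * θ) ^ 2 := pow_le_pow_left₀ hA ih 2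
      have h7 : K * aT θ n ^ 2 ≤ Q * θ * (1 / 2) := by
        calc K * aT θ n ^ 2 ≤ K * (4 * Q * θ) ^ 2 := mul_le_mul_of_nonneg_left h6 hK.le
          _ = Q * θ * (16 * K * Q * θ) := by ring
          _ ≤ Q * θ * (1 / 2) := mul_le_mul_of_nonneg_left hθ3 (by positivity)
      have h8 : 0 < Q * θ := by positivity
      nlinarith
  have hdT : ∀ k, 0 ≤ wt (dT θ) rho k := fun k =>
    ExpM_wt_nn (fun j => (ExpM_dN j).trans (dT_ge hθ0.le j)) k
  have hs : ∀ n, ∑ k ∈ range n, wt (dT θ) rho k ≤ D0 + 4 * Q * θ := by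
    intro n
    have h1 : ∑ k ∈ range n, wt (dT θ) rho k = ∑ k ∈ range n, wt (dN ⊤) rho k + aT θ n := by
      unfold aT
      rw [sum_sub_distrib]
      ring
    have h2 : ∑ k ∈ range n, wt (dN ⊤) rho k ≤ D0 :=
      sum_d.sum_le_tsum _ fun k _ => ExpM_wt_nn ExpM_dN k
    rw [h1]
    exact add_le_add h2 (hb n)
  refine ⟨θ, 1 + 4 * Q * θ, hθ0, by linarith [show 0 < 4 * Q * θ by positivity],
    summable_of_sum_range_le hdT hs, ?_⟩
  refine (Real.tsum_le_of_sum_range_le hdT hs).trans ?_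
  have h1 : 0 < 4 * Q * θ := by positivity
  nlinarith

end Dia
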