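import Mathlib

/-!
# Module FarPar: parameters and the abstract recursion (real analysis)

`far_par`: `m = ⌈L^(97/100)⌉`, `D1 = ⌊L^(96/100)⌋`, `l = ⌈(5/θ) log L⌉`, `E1 = ⌊D1^(10/3)⌋` for `L` large:
`D1 l ≤ L^0.96 ((5/θ) log L + 1) ≤ L^0.97`; `E1 ≥ D1^(10/3) / 2 ≥ c L^(3.2)`, `E1^(-3/2) ≤ K L^(-4.8)`;
`exp (-θ l) ≤ L^(-5)`; `E1 exp (-(D1 - 1)^c0) ≤ L^4 exp (- c L^(0.96 c0)) ≤ K L^(-5)`.

`far_ind`: choose `L2 ≥ L1` such that for `L ≥ L2` `m = ⌈L^(97/100)⌉ < L` and `(1 - m/L)^(-24/5) ≤ (1 + κ)/(2 κ)` (if `κ = 0`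
replace it by `1/2`), and `G` with `G ≥ 2 K / (1 - κ)` and `U ≤ G L2^(-24/5)`.  Strong induction: `u L ≤ G L^(-24/5)` for
`L ≥ 1`: for `L < L2` from `u L ≤ U`; for `L ≥ L2`: `u L ≤ κ G (L - m)^(-24/5) + K L^(-24/5) ≤ G L^(-24/5) ((1 + κ)/2 + (1 - κ)/2)`.
-/

set_option linter.unusedSectionVars false

namespace Dia

open Filter in
private theorem FarPar_ev {θ c0 : ℝ} (hθ : 0 < θ) (hc : 0 < c0) (d0 : ℕ) :
    ∀ᶠ x : ℝ in atTop, 2 ≤ x ∧ 5 / θ * Real.log x + 1 ≤ x ^ (1 / 100 : ℝ) ∧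
      x ^ (97 / 100 : ℝ) ≤ x / 2 ∧ (d0 : ℝ) + 4 ≤ x ^ (96 / 100 : ℝ) ∧
      x ^ (9 / 10 : ℝ) ≤ x ^ (96 / 100 : ℝ) / 2 ∧
      8 * Real.log x ≤ x ^ (9 / 10 * c0 : ℝ) ∧ 2 < x := by
  have h1 : ∀ᶠ x : ℝ in atTop, 2 < x := eventually_gt_atTop 2
  have h2 : ∀ᶠ x : ℝ in atTop, 5 / θ * Real.log x + 1 ≤ x ^ (1 / 100 : ℝ) := by
    have a := (isLittleO_log_rpow_atTop (r := (1 / 100 : ℝ)) (by norm_num)).bound
      (c := θ / 10) (by positivity)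
    have b := (tendsto_rpow_atTop (y := (1 / 100 : ℝ)) (by norm_num)).eventually_ge_atTop 2
    filter_upwards [a, b, h1] with x ha hb hx
    rw [Real.norm_of_nonneg (Real.log_nonneg (by linarith)),
      Real.norm_of_nonneg (by positivity)] at ha
    have : 5 / θ * Real.log x ≤ 5 / θ * (θ / 10 * x ^ (1 / 100 : ℝ)) := by gcongr
    have e : 5 / θ * (θ / 10 * x ^ (1 / 100 : ℝ)) = x ^ (1 / 100 : ℝ) / 2 := by
      field_simp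
      ring
    linarith
  have h3 : ∀ᶠ x : ℝ in atTop, x ^ (97 / 100 : ℝ) ≤ x / 2 := by
    have b := (tendsto_rpow_atTop (y := (3 / 100 : ℝ)) (by norm_num)).eventually_ge_atTop 2
    filter_upwards [b, h1] with x hb hx
    have e : x = x ^ (97 / 100 : ℝ) * x ^ (3 / 100 : ℝ) := by
      rw [← Real.rpow_add (by linarith)]
      norm_num
    have : x ^ (97 / 100 : ℝ) * 2 ≤ x ^ (97 / 100 : ℝ) * x ^ (3 / 100 : ℝ) := by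
      have : 0 ≤ x := by linarith
      gcongr
    linarith
  have h4 : ∀ᶠ x : ℝ in atTop, (d0 : ℝ) + 4 ≤ x ^ (96 / 100 : ℝ) :=
    (tendsto_rpow_atTop (y := (96 / 100 : ℝ)) (by norm_num)).eventually_ge_atTop _
  have h5 : ∀ᶠ x : ℝ in atTop, x ^ (9 / 10 : ℝ) ≤ x ^ (96 / 100 : ℝ) / 2 := by
    have b := (tendsto_rpow_atTop (y := (6 / 100 : ℝ)) (by norm_num)).eventually_ge_atTop 2
    filter_upwards [b, h1] with x hb hx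
    have e : x ^ (96 / 100 : ℝ) = x ^ (9 / 10 : ℝ) * x ^ (6 / 100 : ℝ) := by
      rw [← Real.rpow_add (by linarith)]
      norm_num
    have : x ^ (9 / 10 : ℝ) * 2 ≤ x ^ (9 / 10 : ℝ) * x ^ (6 / 100 : ℝ) := by
      have : 0 ≤ x := by linarith
      gcongr
    linarith
  have h6 : ∀ᶠ x : ℝ in atTop, 8 * Real.log x ≤ x ^ (9 / 10 * c0 : ℝ) := by
    have a := (isLittleO_log_rpow_atTop (r := (9 / 10 * c0 : ℝ)) (by positivity)).bound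
      (c := 1 / 8) (by norm_num)
    filter_upwards [a, h1] with x ha hx
    rw [Real.norm_of_nonneg (Real.log_nonneg (by linarith)),
      Real.norm_of_nonneg (by positivity)] at ha
    linarith
  filter_upwards [h1, h2, h3, h4, h5, h6] with x a1 a2 a3 a4 a5 a6
  exact ⟨a1.le, a2, a3, a4, a5, a6, a1⟩

theorem far_par {θ c0 : ℝ} (hθ : 0 < θ) (hc : 0 < c0) (d0 : ℕ) : ∃ K : ℝ, 0 < K ∧ ∃ L1 : ℕ,
    1 ≤ L1 ∧ ∀ L : ℕ, L1 ≤ L → ∃ l D1 E1 : ℕ,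
      l < ⌈(L : ℝ) ^ (97 / 100 : ℝ)⌉₊ ∧ ⌈(L : ℝ) ^ (97 / 100 : ℝ)⌉₊ < L ∧
      D1 * l ≤ ⌈(L : ℝ) ^ (97 / 100 : ℝ)⌉₊ ∧ d0 ≤ D1 ∧ 1 ≤ E1 ∧
      (E1 : ℝ) ≤ (D1 : ℝ) ^ (10 / 3 : ℝ) ∧
      (E1 : ℝ) ^ (-(3 / 2) : ℝ) ≤ K * (L : ℝ) ^ (-(24 / 5) : ℝ) ∧
      Real.exp (-(θ * l)) ≤ K * (L : ℝ) ^ (-(24 / 5) : ℝ) ∧
      E1 * Real.exp (-((D1 : ℝ) - 1) ^ c0) ≤ K * (L : ℝ) ^ (-(24 / 5) : ℝ) := by
  obtain ⟨x0, hx0⟩ := Filter.eventually_atTop.1 (FarPar_ev hθ hc d0)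
  refine ⟨(2 : ℝ) ^ (13 / 2 : ℝ), by positivity, max 1 ⌈x0⌉₊, le_max_left _ _, fun L hL => ?_⟩
  have hLx : x0 ≤ (L : ℝ) := (Nat.le_ceil _).trans (Nat.cast_le.2 ((le_max_right _ _).trans hL))
  obtain ⟨a1, a2, a3, a4, a5, a6, -⟩ := hx0 L hLx
  set x : ℝ := (L : ℝ) with hx
  have xp : 0 < x := by linarith
  have x1 : 1 ≤ x := by linarith
  have hK1 : (1 : ℝ) ≤ (2 : ℝ) ^ (13 / 2 : ℝ) := Real.one_le_rpow (by norm_num) (by norm_num)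
  have hlog : 0 ≤ 5 / θ * Real.log x := by
    have := Real.log_nonneg x1
    positivity
  have hm : x ^ (97 / 100 : ℝ) ≤ (⌈x ^ (97 / 100 : ℝ)⌉₊ : ℝ) := Nat.le_ceil _
  have hl1 : (⌈5 / θ * Real.log x⌉₊ : ℝ) ≤ x ^ (1 / 100 : ℝ) :=
    (Nat.ceil_lt_add_one hlog).le.trans a2
  have hl2 : (⌈5 / θ * Real.log x⌉₊ : ℝ) < x ^ (1 / 100 : ℝ) :=
    (Nat.ceil_lt_add_one hlog).trans_le a2
  have hD1 : (⌊x ^ (96 / 100 : ℝ)⌋₊ : ℝ) ≤ x ^ (96 / 100 : ℝ) := Nat.floor_le (by positivity)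
  have hD2 : x ^ (96 / 100 : ℝ) - 1 < (⌊x ^ (96 / 100 : ℝ)⌋₊ : ℝ) := Nat.sub_one_lt_floor _
  have d0p : (0 : ℝ) ≤ d0 := Nat.cast_nonneg _
  have hD3 : x ^ (96 / 100 : ℝ) / 2 ≤ (⌊x ^ (96 / 100 : ℝ)⌋₊ : ℝ) := by linarith
  have hDp : (1 : ℝ) ≤ (⌊x ^ (96 / 100 : ℝ)⌋₊ : ℝ) := by linarith
  have hE0 : (1 : ℝ) ≤ (⌊x ^ (96 / 100 : ℝ)⌋₊ : ℝ) ^ (10 / 3 : ℝ) :=
    Real.one_le_rpow hDp (by norm_num)
  have hE1 : (⌊(⌊x ^ (96 / 100 : ℝ)⌋₊ : ℝ) ^ (10 / 3 : ℝ)⌋₊ : ℝ) ≤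
      (⌊x ^ (96 / 100 : ℝ)⌋₊ : ℝ) ^ (10 / 3 : ℝ) := Nat.floor_le (by positivity)
  have hE2 : (⌊x ^ (96 / 100 : ℝ)⌋₊ : ℝ) ^ (10 / 3 : ℝ) / 2 ≤
      (⌊(⌊x ^ (96 / 100 : ℝ)⌋₊ : ℝ) ^ (10 / 3 : ℝ)⌋₊ : ℝ) := by
    rcases le_or_gt 2 ((⌊x ^ (96 / 100 : ℝ)⌋₊ : ℝ) ^ (10 / 3 : ℝ)) with h | h
    · have := Nat.sub_one_lt_floor ((⌊x ^ (96 / 100 : ℝ)⌋₊ : ℝ) ^ (10 / 3 : ℝ))
      linarith
    · have : (1 : ℝ) ≤ (⌊(⌊x ^ (96 / 100 : ℝ)⌋₊ : ℝ) ^ (10 / 3 : ℝ)⌋₊ : ℝ) := by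
        exact_mod_cast Nat.le_floor (by exact_mod_cast hE0)
      linarith
  refine ⟨⌈5 / θ * Real.log x⌉₊, ⌊x ^ (96 / 100 : ℝ)⌋₊,
    ⌊(⌊x ^ (96 / 100 : ℝ)⌋₊ : ℝ) ^ (10 / 3 : ℝ)⌋₊, ?_, ?_, ?_, ?_, ?_, hE1, ?_, ?_, ?_⟩
  · have : (⌈5 / θ * Real.log x⌉₊ : ℝ) < (⌈x ^ (97 / 100 : ℝ)⌉₊ : ℝ) := by
      refine hl2.trans_le (le_trans ?_ hm)
      exact Real.rpow_le_rpow_of_exponent_le x1 (by norm_num)
    exact_mod_cast this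
  · have : (⌈x ^ (97 / 100 : ℝ)⌉₊ : ℝ) < x := by
      have := Nat.ceil_lt_add_one (a := x ^ (97 / 100 : ℝ)) (by positivity)
      linarith
    rw [hx] at this
    exact_mod_cast this
  · have : (⌊x ^ (96 / 100 : ℝ)⌋₊ : ℝ) * (⌈5 / θ * Real.log x⌉₊ : ℝ) ≤
        (⌈x ^ (97 / 100 : ℝ)⌉₊ : ℝ) := by
      refine (mul_le_mul hD1 hl1 (Nat.cast_nonneg _) (by positivity)).trans (le_trans ?_ hm)
      rw [← Real.rpow_add xp]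
      norm_num
    exact_mod_cast this
  · exact Nat.le_floor (by linarith)
  · exact Nat.le_floor (by exact_mod_cast hE0)
  · have c1 : x ^ (16 / 5 : ℝ) / 2 ^ (13 / 3 : ℝ) ≤
        (⌊(⌊x ^ (96 / 100 : ℝ)⌋₊ : ℝ) ^ (10 / 3 : ℝ)⌋₊ : ℝ) := by
      refine le_trans ?_ hE2
      have c2 : (x ^ (96 / 100 : ℝ) / 2) ^ (10 / 3 : ℝ) ≤
          (⌊x ^ (96 / 100 : ℝ)⌋₊ : ℝ) ^ (10 / 3 : ℝ) :=
        Real.rpow_le_rpow (by positivity) hD3 (by norm_num)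
      have c3 : (x ^ (96 / 100 : ℝ) / 2) ^ (10 / 3 : ℝ) = x ^ (16 / 5 : ℝ) / 2 ^ (10 / 3 : ℝ) := by
        rw [Real.div_rpow (by positivity) (by norm_num), ← Real.rpow_mul xp.le]
        norm_num
      have c4 : (2 : ℝ) ^ (13 / 3 : ℝ) = 2 ^ (10 / 3 : ℝ) * 2 := by
        rw [show (13 / 3 : ℝ) = 10 / 3 + 1 by norm_num, Real.rpow_add (by norm_num), Real.rpow_one]
      have c5 : x ^ (16 / 5 : ℝ) / 2 ^ (13 / 3 : ℝ) = x ^ (16 / 5 : ℝ) / 2 ^ (10 / 3 : ℝ) / 2 := by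
        rw [c4, div_div]
      rw [c5, ← c3]
      linarith
    have c6 : (⌊(⌊x ^ (96 / 100 : ℝ)⌋₊ : ℝ) ^ (10 / 3 : ℝ)⌋₊ : ℝ) ^ (-(3 / 2) : ℝ) ≤
        (x ^ (16 / 5 : ℝ) / 2 ^ (13 / 3 : ℝ)) ^ (-(3 / 2) : ℝ) :=
      Real.rpow_le_rpow_of_nonpos (by positivity) c1 (by norm_num)
    refine c6.trans (le_of_eq ?_)
    rw [Real.div_rpow (by positivity) (by positivity), ← Real.rpow_mul xp.le,
      ← Real.rpow_mul (by norm_num : (0 : ℝ) ≤ 2), div_eq_mul_inv,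
      ← Real.rpow_neg (by norm_num : (0 : ℝ) ≤ 2)]
    norm_num
    ring
  · have c1 : Real.exp (-(θ * ⌈5 / θ * Real.log x⌉₊)) ≤ Real.exp (-(5 * Real.log x)) := by
      apply Real.exp_le_exp.2
      have c2 : 5 / θ * Real.log x ≤ (⌈5 / θ * Real.log x⌉₊ : ℝ) := Nat.le_ceil _
      have c3 : θ * (5 / θ * Real.log x) ≤ θ * (⌈5 / θ * Real.log x⌉₊ : ℝ) := by gcongr
      have c4 : θ * (5 / θ * Real.log x) = 5 * Real.log x := by field_simp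
      linarith
    have c5 : Real.exp (-(5 * Real.log x)) = x ^ (-5 : ℝ) := by
      rw [Real.rpow_def_of_pos xp]
      ring_nf
    have c6 : x ^ (-5 : ℝ) ≤ x ^ (-(24 / 5) : ℝ) :=
      Real.rpow_le_rpow_of_exponent_le x1 (by norm_num)
    have c7 : 0 < x ^ (-(24 / 5) : ℝ) := by positivity
    calc _ ≤ x ^ (-(24 / 5) : ℝ) := c1.trans (c5.le.trans c6)
      _ ≤ _ := le_mul_of_one_le_left c7.le hK1
  · have c0' : x ^ (-8 : ℝ) = Real.exp (Real.log x * (-8)) := Real.rpow_def_of_pos xp _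
    have c1 : x ^ (9 / 10 : ℝ) ≤ (⌊x ^ (96 / 100 : ℝ)⌋₊ : ℝ) - 1 := by linarith
    have c2 : 8 * Real.log x ≤ ((⌊x ^ (96 / 100 : ℝ)⌋₊ : ℝ) - 1) ^ c0 := by
      refine a6.trans ?_
      rw [Real.rpow_mul xp.le]
      exact Real.rpow_le_rpow (by positivity) c1 hc.le
    have c3 : Real.exp (-((⌊x ^ (96 / 100 : ℝ)⌋₊ : ℝ) - 1) ^ c0) ≤ x ^ (-8 : ℝ) := by
      rw [c0']
      apply Real.exp_le_exp.2
      linarith
    have c4 : (⌊(⌊x ^ (96 / 100 : ℝ)⌋₊ : ℝ) ^ (10 / 3 : ℝ)⌋₊ : ℝ) ≤ x ^ (16 / 5 : ℝ) := by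
      refine hE1.trans ((Real.rpow_le_rpow (by positivity) hD1 (by norm_num)).trans (le_of_eq ?_))
      rw [← Real.rpow_mul xp.le]
      norm_num
    have c7 : 0 < x ^ (-(24 / 5) : ℝ) := by positivity
    calc _ ≤ x ^ (16 / 5 : ℝ) * x ^ (-8 : ℝ) :=
          mul_le_mul c4 c3 (Real.exp_pos _).le (by positivity)
      _ = x ^ (-(24 / 5) : ℝ) := by
          rw [← Real.rpow_add xp]
          norm_num
      _ ≤ _ := le_mul_of_one_le_left c7.le hK1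

open Filter in
private theorem FarPar_ev2 {q : ℝ} (hq : 1 < q) :
    ∀ᶠ x : ℝ in atTop, 2 < x ∧ x ^ (97 / 100 : ℝ) + 1 < x ∧
      (x - (x ^ (97 / 100 : ℝ) + 1)) ^ (-(24 / 5) : ℝ) ≤ q * x ^ (-(24 / 5) : ℝ) := by
  have h1 : ∀ᶠ x : ℝ in atTop, 2 < x := eventually_gt_atTop 2
  have h2 : Tendsto (fun x : ℝ => (1 - (x ^ (-(3 / 100) : ℝ) + x⁻¹)) ^ (-(24 / 5) : ℝ)) atTop
      (nhds ((1 - ((0 : ℝ) + 0)) ^ (-(24 / 5) : ℝ))) := by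
    apply Tendsto.rpow_const
    · apply tendsto_const_nhds.sub
      exact (tendsto_rpow_neg_atTop (by norm_num)).add tendsto_inv_atTop_zero
    · left
      norm_num
  have h3 : ∀ᶠ x : ℝ in atTop, (1 - (x ^ (-(3 / 100) : ℝ) + x⁻¹)) ^ (-(24 / 5) : ℝ) < q := by
    apply h2.eventually_lt_const
    simpa using hq
  have h4 : Tendsto (fun x : ℝ => x ^ (-(3 / 100) : ℝ) + x⁻¹) atTop (nhds ((0 : ℝ) + 0)) :=
    (tendsto_rpow_neg_atTop (by norm_num)).add tendsto_inv_atTop_zero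
  have h5 : ∀ᶠ x : ℝ in atTop, x ^ (-(3 / 100) : ℝ) + x⁻¹ < 1 := by
    apply h4.eventually_lt_const
    norm_num
  filter_upwards [h1, h3, h5] with x a1 a3 a5
  have xp : 0 < x := by linarith
  have e : x ^ (97 / 100 : ℝ) + 1 = x * (x ^ (-(3 / 100) : ℝ) + x⁻¹) := by
    rw [mul_add, mul_inv_cancel₀ xp.ne']
    congr 1
    conv_rhs => rw [← Real.rpow_one x, ← Real.rpow_mul xp.le, ← Real.rpow_add xp]
    norm_num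
  refine ⟨a1, ?_, ?_⟩
  · rw [e]
    nlinarith
  · rw [e, show x - x * (x ^ (-(3 / 100) : ℝ) + x⁻¹) = (1 - (x ^ (-(3 / 100) : ℝ) + x⁻¹)) * x by
      ring, Real.mul_rpow (by linarith) xp.le]
    gcongr

theorem far_ind {u : ℕ → ℝ} {κ K U : ℝ} (h0 : 0 ≤ κ) (h1 : κ < 1) (hK : 0 ≤ K)
    (hu0 : ∀ L, 0 ≤ u L) (hU : ∀ L, u L ≤ U) {L1 : ℕ} (h : ∀ L : ℕ, L1 ≤ L →
      u L ≤ κ * u (L - ⌈(L : ℝ) ^ (97 / 100 : ℝ)⌉₊) + K * (L : ℝ) ^ (-(24 / 5) : ℝ)) :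
    ∃ G : ℝ, 0 < G ∧ ∀ L : ℕ, 1 ≤ L → u L ≤ G * (L : ℝ) ^ (-(24 / 5) : ℝ) := by
  set k : ℝ := max κ (1 / 2) with hk
  have k0 : 1 / 2 ≤ k := le_max_right _ _
  have k1 : k < 1 := max_lt h1 (by norm_num)
  have kκ : κ ≤ k := le_max_left _ _
  have hq : 1 < (1 + k) / (2 * k) := by
    rw [lt_div_iff₀ (by linarith)]
    linarith
  obtain ⟨x0, hx0⟩ := Filter.eventually_atTop.1 (FarPar_ev2 hq)
  set L2 : ℕ := max (max 1 L1) ⌈x0⌉₊ with hL2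
  have L2p : (1 : ℝ) ≤ (L2 : ℝ) := by
    have : 1 ≤ L2 := (le_max_left _ _).trans (le_max_left _ _)
    exact_mod_cast this
  have U0 : 0 ≤ U := (hu0 0).trans (hU 0)
  have k2 : 0 < 1 - k := by linarith
  set G : ℝ := 2 * K / (1 - k) + U * (L2 : ℝ) ^ (24 / 5 : ℝ) + 1 with hG
  have g1 : 0 ≤ 2 * K / (1 - k) := by positivity
  have g2 : 0 ≤ U * (L2 : ℝ) ^ (24 / 5 : ℝ) := by positivity
  have Gp : 0 < G := by linarith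
  refine ⟨G, Gp, fun L => ?_⟩
  induction L using Nat.strong_induction_on with
  | _ L ih =>
    intro hL
    have xp : (0 : ℝ) < (L : ℝ) := by exact_mod_cast hL
    have hpow : 0 < (L : ℝ) ^ (-(24 / 5) : ℝ) := by positivity
    rcases lt_or_ge L L2 with hlt | hge
    · have e1 : (L : ℝ) ≤ (L2 : ℝ) := by exact_mod_cast hlt.le
      have e2 : (L2 : ℝ) ^ (-(24 / 5) : ℝ) ≤ (L : ℝ) ^ (-(24 / 5) : ℝ) :=
        Real.rpow_le_rpow_of_nonpos xp e1 (by norm_num)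
      have e3 : (L2 : ℝ) ^ (24 / 5 : ℝ) * (L2 : ℝ) ^ (-(24 / 5) : ℝ) = 1 := by
        rw [← Real.rpow_add (by linarith)]
        norm_num
      have e4 : U * (L2 : ℝ) ^ (24 / 5 : ℝ) ≤ G := by linarith
      calc u L ≤ U := hU L
        _ = U * (L2 : ℝ) ^ (24 / 5 : ℝ) * (L2 : ℝ) ^ (-(24 / 5) : ℝ) := by
            rw [mul_assoc, e3, mul_one]
        _ ≤ G * (L : ℝ) ^ (-(24 / 5) : ℝ) :=
            mul_le_mul e4 e2 (by positivity) Gp.le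
    · have hx : x0 ≤ (L : ℝ) := (Nat.le_ceil _).trans (Nat.cast_le.2 ((le_max_right _ _).trans hge))
      obtain ⟨a1, a2, a3⟩ := hx0 L hx
      have hL1 : L1 ≤ L := ((le_max_right _ _).trans (le_max_left _ _)).trans hge
      have b1 := h L hL1
      have b2 : (⌈(L : ℝ) ^ (97 / 100 : ℝ)⌉₊ : ℝ) < (L : ℝ) ^ (97 / 100 : ℝ) + 1 :=
        Nat.ceil_lt_add_one (by positivity)
      have b3 : ⌈(L : ℝ) ^ (97 / 100 : ℝ)⌉₊ < L := by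
        have : (⌈(L : ℝ) ^ (97 / 100 : ℝ)⌉₊ : ℝ) < (L : ℝ) := b2.trans a2
        exact_mod_cast this
      have b4 : 0 < ⌈(L : ℝ) ^ (97 / 100 : ℝ)⌉₊ := Nat.ceil_pos.2 (by positivity)
      have b5 := ih (L - ⌈(L : ℝ) ^ (97 / 100 : ℝ)⌉₊) (by omega) (by omega)
      rw [Nat.cast_sub b3.le] at b5
      have b6 : ((L : ℝ) - (⌈(L : ℝ) ^ (97 / 100 : ℝ)⌉₊ : ℝ)) ^ (-(24 / 5) : ℝ) ≤
          (1 + k) / (2 * k) * (L : ℝ) ^ (-(24 / 5) : ℝ) := by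
        refine le_trans ?_ a3
        exact Real.rpow_le_rpow_of_nonpos (by linarith) (by linarith) (by norm_num)
      have b7 : κ * u (L - ⌈(L : ℝ) ^ (97 / 100 : ℝ)⌉₊) ≤
          k * (G * ((1 + k) / (2 * k) * (L : ℝ) ^ (-(24 / 5) : ℝ))) := by
        have := hu0 (L - ⌈(L : ℝ) ^ (97 / 100 : ℝ)⌉₊)
        have b8 := b5.trans (mul_le_mul_of_nonneg_left b6 Gp.le)
        exact mul_le_mul kκ b8 this (by linarith)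
      have b9 : k * (G * ((1 + k) / (2 * k) * (L : ℝ) ^ (-(24 / 5) : ℝ))) =
          (1 + k) / 2 * G * (L : ℝ) ^ (-(24 / 5) : ℝ) := by
        field_simp
      have b10 : K ≤ (1 - k) / 2 * G := by
        have c : (1 - k) / 2 * (2 * K / (1 - k)) = K := by field_simp
        have c2 : (1 - k) / 2 * (2 * K / (1 - k)) ≤ (1 - k) / 2 * G :=
          mul_le_mul_of_nonneg_left (by linarith) (by linarith)
        linarith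
      have b11 : K * (L : ℝ) ^ (-(24 / 5) : ℝ) ≤ (1 - k) / 2 * G * (L : ℝ) ^ (-(24 / 5) : ℝ) :=
        mul_le_mul_of_nonneg_right b10 hpow.le
      calc u L ≤ (1 + k) / 2 * G * (L : ℝ) ^ (-(24 / 5) : ℝ) +
            (1 - k) / 2 * G * (L : ℝ) ^ (-(24 / 5) : ℝ) := by linarith
        _ = G * (L : ℝ) ^ (-(24 / 5) : ℝ) := by ring

end Dia
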