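import Pool.Agent.DiaC.FarS
import Pool.Agent.DiaC.FarPar

/-!
# Module FarE: few attachments with a far vertex

`b L = (fB L).toReal`, `r L = (fR L).toReal`, `u L = max (b L) (20 * r L)`.
Constants: `R0 ≤ .0476`, `D0 ≤ 1.111`, `Q0 = (1 + D0)/2 ≤ 1.0556`, `(RgS).toReal ≤ 4`, `2 Q0 (2 R0 D0 + RgE) ≤ 66/100` (`contr_num`).
`fB_le`, `fD_le`, `fQ_le`: `b L ≤ (D0² + RgS) r (L - m) + (2 R0 D0 + RgE) 2 Q0 b (L - m) + err`
`≤ (5.2344 / 20 + .66) u (L - m) + err ≤ .93 u (L - m) + err`.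
`fR_le`, `fP_le`, `fQ_le`: `20 r L ≤ 20 R0 (Q0 r (L-1) + R0 Q0 b (L-1)) ≤ (.0503 + .0479) u (L - 1) ≤ .93 u (L - m)` (`f_anti`,
`1 ≤ m`).  `err ≤ K L^(-24/5)` by `fPd_le`, `far_par` (`fPd l ^ 2 ≤ K fPd l`).  `far_ind`.
`dF`: `fD ≤ 2 Q0 fB`.  `enS_fin` for the summability.
-/

set_option linter.unusedSectionVars false

namespace Dia
open Finset PGr Pool.Agent.DiamP
open scoped ENNReal

private theorem es1_nn (P : ∀ A : Type, SimpleGraph (Option A) → Prop) (k : ℕ) : 0 ≤ es1 P k := by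
  unfold es1; positivity

private theorem es2_nn (P : ∀ A : Type, SimpleGraph (A ⊕ Bool) → Prop) (k : ℕ) : 0 ≤ es2 P k := by
  unfold es2; positivity

private theorem rho_nn : 0 ≤ rho := by
  have := rho_ge
  linarith

private theorem wt_rF_nn (L k : ℕ) : 0 ≤ wt (rF L) rho k := by
  unfold wt rF sh
  have := rho_nn
  split_ifs
  · simp
  · exact mul_nonneg (es1_nn _ _) (by positivity)

private theorem wt_dF_nn (L k : ℕ) : 0 ≤ wt (dF L) rho k :=
  mul_nonneg (es2_nn _ _) (pow_nonneg rho_nn _)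

/-- the step of the recursion in real numbers -/
private theorem step_b : ∃ K : ℝ, 0 ≤ K ∧ ∃ L1 : ℕ, ∀ L : ℕ, L1 ≤ L →
    (fB L).toReal ≤ (D0 ^ 2 + (RgS (ENNReal.ofReal R0) (ENNReal.ofReal D0)).toReal) *
        (fR (L - ⌈(L : ℝ) ^ (97 / 100 : ℝ)⌉₊)).toReal +
      (2 * R0 * D0 + (RgE (ENNReal.ofReal R0) (ENNReal.ofReal D0)).toReal) *
        ((1 + D0) * (fB (L - ⌈(L : ℝ) ^ (97 / 100 : ℝ)⌉₊)).toReal) +
      K * (L : ℝ) ^ (-(24 / 5) : ℝ) := by
  obtain ⟨hR1, hR2⟩ := R0_range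
  obtain ⟨hD1, hD2⟩ := D0_range
  have hR0 : 0 < R0 := by linarith
  have hD0 : 0 < D0 := by linarith
  obtain ⟨-, -, hE, hS⟩ := contr_num
  obtain ⟨θ, K1, hθ, hK1, hPd⟩ := fPd_le
  obtain ⟨c0, K2, hc0, hK2, d0, hB⟩ := fB_le
  obtain ⟨Kp, hKp, L1, hL1, hpar⟩ := far_par hθ hc0 d0
  set RS := (RgS (ENNReal.ofReal R0) (ENNReal.ofReal D0)).toReal with hRS
  set RE := (RgE (ENNReal.ofReal R0) (ENNReal.ofReal D0)).toReal with hRE
  have hRS0 : 0 ≤ RS := ENNReal.toReal_nonneg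
  have hRE0 : 0 ≤ RE := ENNReal.toReal_nonneg
  have eS : RgS (ENNReal.ofReal R0) (ENNReal.ofReal D0) = ENNReal.ofReal RS :=
    (ENNReal.ofReal_toReal hS).symm
  have eE : RgE (ENNReal.ofReal R0) (ENNReal.ofReal D0) = ENNReal.ofReal RE :=
    (ENNReal.ofReal_toReal hE).symm
  refine ⟨(R0 * K1 * K1 + RE * K1 + K2 + 1) * Kp, by positivity, L1, fun L hL => ?_⟩
  set m := ⌈(L : ℝ) ^ (97 / 100 : ℝ)⌉₊ with hm
  obtain ⟨l, D1, E1, p1, p2, p3, p4, p5, p6, p7, p8, p9⟩ := hpar L hL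
  have h1 := hB L m l D1 E1 p1 p2 p3 p4 p5 p6
  set ε : ℝ := (L : ℝ) ^ (-(24 / 5) : ℝ) with hε
  have hε0 : 0 ≤ ε := by positivity
  set b := (fB (L - m)).toReal with hb
  set r := (fR (L - m)).toReal with hr
  have hb0 : 0 ≤ b := ENNReal.toReal_nonneg
  have hr0 : 0 ≤ r := ENNReal.toReal_nonneg
  have eb : fB (L - m) = ENNReal.ofReal b := (ENNReal.ofReal_toReal (f_fin (L - m)).2.2.1).symm
  have er : fR (L - m) = ENNReal.ofReal r := (ENNReal.ofReal_toReal (f_fin (L - m)).1).symm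
  set P : ℝ := K1 * Real.exp (-(θ * l)) with hP
  have hP0 : 0 ≤ P := by positivity
  have hPK : P ≤ K1 := by
    have : Real.exp (-(θ * l)) ≤ 1 := Real.exp_le_one_iff.2 (by
      have : 0 ≤ θ * l := by positivity
      linarith)
    nlinarith
  have hD : fD (L - m) ≤ ENNReal.ofReal ((1 + D0) * b) := by
    refine (fD_le _).trans ((mul_le_mul_right (fQ_le _) _).trans (le_of_eq ?_))
    rw [eb, show (2 : ℝ≥0∞) = ENNReal.ofReal 2 by simp, ← ENNReal.ofReal_mul (by positivity),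
      ← ENNReal.ofReal_mul (by positivity)]
    congr 1
    ring
  have h2 : fB L ≤ ENNReal.ofReal ((D0 ^ 2 + RS) * r + (2 * R0 * D0 + RE) * ((1 + D0) * b) +
      R0 * P ^ 2 + RE * P + K2 * (E1 : ℝ) ^ (-(3 / 2) : ℝ) +
      E1 * Real.exp (-((D1 : ℝ) - 1) ^ c0)) := by
    refine h1.trans ?_
    rw [eS, eE, er, ← ENNReal.ofReal_add (by positivity) hRS0,
      ← ENNReal.ofReal_add (by positivity) hRE0, ← ENNReal.ofReal_mul (by positivity),
      ENNReal.ofReal_add (by positivity) (by positivity),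
      ENNReal.ofReal_add (by positivity) (by positivity),
      ENNReal.ofReal_add (by positivity) (by positivity),
      ENNReal.ofReal_add (by positivity) (by positivity),
      ENNReal.ofReal_add (by positivity) (by positivity)]
    gcongr
    · rw [← ENNReal.ofReal_add (by positivity) hRE0,
        ENNReal.ofReal_add (q := (2 * R0 * D0 + RE) * ((1 + D0) * b)) (by positivity)
          (by positivity), ENNReal.ofReal_mul (q := (1 + D0) * b) (by positivity)]
      gcongr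
    · rw [ENNReal.ofReal_mul hR0.le, ENNReal.ofReal_pow hP0]
      gcongr
      exact hPd l
    · rw [ENNReal.ofReal_mul hRE0]
      gcongr
      exact hPd l
  have h3 := ENNReal.toReal_mono ENNReal.ofReal_ne_top h2
  rw [ENNReal.toReal_ofReal (by positivity)] at h3
  refine h3.trans ?_
  have hPe : P ≤ K1 * (Kp * ε) := by rw [hP]; gcongr
  have h4 : R0 * P ^ 2 ≤ R0 * K1 * K1 * Kp * ε := by
    have : P ^ 2 ≤ K1 * (K1 * (Kp * ε)) := by
      rw [sq]; exact mul_le_mul hPK hPe hP0 hK1.le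
    calc R0 * P ^ 2 ≤ R0 * (K1 * (K1 * (Kp * ε))) := by gcongr
      _ = _ := by ring
  have h5 : RE * P ≤ RE * K1 * Kp * ε := by
    calc RE * P ≤ RE * (K1 * (Kp * ε)) := by gcongr
      _ = _ := by ring
  have h6 : K2 * (E1 : ℝ) ^ (-(3 / 2) : ℝ) ≤ K2 * Kp * ε := by
    calc K2 * (E1 : ℝ) ^ (-(3 / 2) : ℝ) ≤ K2 * (Kp * ε) := by gcongr
      _ = _ := by ring
  have h7 : (E1 : ℝ) * Real.exp (-((D1 : ℝ) - 1) ^ c0) ≤ Kp * ε := p9
  nlinarith

private theorem step_r (L : ℕ) (hL : 2 ≤ L) : (fR L).toReal ≤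
    R0 * ((1 + D0) / 2) * (fR (L - 1)).toReal + R0 ^ 2 * ((1 + D0) / 2) * (fB (L - 1)).toReal := by
  obtain ⟨hR1, hR2⟩ := R0_range
  obtain ⟨hD1, hD2⟩ := D0_range
  have hR0 : 0 < R0 := by linarith
  have hD0 : 0 < D0 := by linarith
  set b := (fB (L - 1)).toReal with hb
  set r := (fR (L - 1)).toReal with hr
  have hb0 : 0 ≤ b := ENNReal.toReal_nonneg
  have hr0 : 0 ≤ r := ENNReal.toReal_nonneg
  have eb : fB (L - 1) = ENNReal.ofReal b := (ENNReal.ofReal_toReal (f_fin (L - 1)).2.2.1).symm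
  have er : fR (L - 1) = ENNReal.ofReal r := (ENNReal.ofReal_toReal (f_fin (L - 1)).1).symm
  have h1 : fR L ≤ ENNReal.ofReal (R0 * ((1 + D0) / 2) * r + R0 ^ 2 * ((1 + D0) / 2) * b) := by
    refine (fR_le L).trans ?_
    have h2 : fP L ≤ ENNReal.ofReal ((1 + D0) / 2 * r + R0 * ((1 + D0) / 2 * b)) := by
      refine (fP_le L hL).trans ?_
      rw [er, ENNReal.ofReal_add (by positivity) (by positivity),
        ENNReal.ofReal_mul (by positivity), ENNReal.ofReal_mul hR0.le]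
      gcongr
      refine (fQ_le _).trans (le_of_eq ?_)
      rw [eb, ← ENNReal.ofReal_mul (by positivity)]
    calc fP L * ENNReal.ofReal R0 ≤
        ENNReal.ofReal ((1 + D0) / 2 * r + R0 * ((1 + D0) / 2 * b)) * ENNReal.ofReal R0 := by
          gcongr
      _ = _ := by
          rw [← ENNReal.ofReal_mul (by positivity)]
          congr 1
          ring
  have h3 := ENNReal.toReal_mono ENNReal.ofReal_ne_top h1
  rwa [ENNReal.toReal_ofReal (by positivity)] at h3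

theorem far_tot' : ∃ K : ℝ, 0 < K ∧ ∀ L : ℕ, 1 ≤ L →
    Summable (wt (rF L) rho) ∧ Summable (wt (dF L) rho) ∧
    ∑' k, wt (rF L) rho k ≤ K * (L : ℝ) ^ (-(24 / 5) : ℝ) ∧
    ∑' k, wt (dF L) rho k ≤ K * (L : ℝ) ^ (-(24 / 5) : ℝ) := by
  obtain ⟨hR1, hR2⟩ := R0_range
  obtain ⟨hD1, hD2⟩ := D0_range
  have hR0 : 0 < R0 := by linarith
  have hD0 : 0 < D0 := by linarith
  obtain ⟨hc1, hc2, -, -⟩ := contr_num
  obtain ⟨K, hK, L1, hstep⟩ := step_b
  set RS := (RgS (ENNReal.ofReal R0) (ENNReal.ofReal D0)).toReal with hRS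
  set RE := (RgE (ENNReal.ofReal R0) (ENNReal.ofReal D0)).toReal with hRE
  have hRS0 : 0 ≤ RS := ENNReal.toReal_nonneg
  have hRE0 : 0 ≤ RE := ENNReal.toReal_nonneg
  have hD02 : D0 ^ 2 ≤ 12344 / 10000 := by nlinarith
  set u : ℕ → ℝ := fun L => max (fB L).toReal (20 * (fR L).toReal) with hu
  have hu0 : ∀ L, 0 ≤ u L := fun L => le_max_of_le_left ENNReal.toReal_nonneg
  have hub : ∀ L, (fB L).toReal ≤ u L := fun L => le_max_left _ _
  have hur : ∀ L, 20 * (fR L).toReal ≤ u L := fun L => le_max_right _ _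
  have hanti : ∀ L L' : ℕ, L ≤ L' → u L' ≤ u L := by
    intro L L' h
    obtain ⟨a1, -, a3, -⟩ := f_anti h
    have b1 := ENNReal.toReal_mono (f_fin L).1 a1
    have b3 := ENNReal.toReal_mono (f_fin L).2.2.1 a3
    exact max_le_max b3 (by linarith)
  have hmain : ∀ L : ℕ, max L1 2 ≤ L →
      u L ≤ 93 / 100 * u (L - ⌈(L : ℝ) ^ (97 / 100 : ℝ)⌉₊) + K * (L : ℝ) ^ (-(24 / 5) : ℝ) := by
    intro L hL
    have hL1 : L1 ≤ L := (le_max_left _ _).trans hL
    have hL2 : 2 ≤ L := (le_max_right _ _).trans hL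
    set m := ⌈(L : ℝ) ^ (97 / 100 : ℝ)⌉₊ with hm
    have hm1 : 1 ≤ m := by
      rw [hm, Nat.one_le_ceil_iff]
      positivity
    set ε : ℝ := (L : ℝ) ^ (-(24 / 5) : ℝ) with hε
    have hε0 : 0 ≤ K * ε := by positivity
    refine max_le ?_ ?_
    · refine (hstep L hL1).trans ?_
      have h1 := hub (L - m)
      have h2 := hur (L - m)
      have h3 := hu0 (L - m)
      have h4 : 0 ≤ (fB (L - m)).toReal := ENNReal.toReal_nonneg
      have h5 : 0 ≤ (fR (L - m)).toReal := ENNReal.toReal_nonneg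
      have h6 : (D0 ^ 2 + RS) * (fR (L - m)).toReal ≤ 52344 / 10000 * (u (L - m) / 20) := by
        refine mul_le_mul (by linarith) (by linarith) h5 (by norm_num)
      have h7 : (2 * R0 * D0 + RE) * ((1 + D0) * (fB (L - m)).toReal) ≤
          66 / 100 * u (L - m) := by
        calc (2 * R0 * D0 + RE) * ((1 + D0) * (fB (L - m)).toReal) =
            (1 + D0) * (2 * R0 * D0 + RE) * (fB (L - m)).toReal := by ring
          _ ≤ 66 / 100 * u (L - m) := mul_le_mul hc1 h1 h4 (by norm_num)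
      linarith
    · have h1 := step_r L hL2
      have h2 : u (L - 1) ≤ u (L - m) := hanti _ _ (by omega)
      have h3 := hub (L - 1)
      have h4 := hur (L - 1)
      have h5 : 0 ≤ (fB (L - 1)).toReal := ENNReal.toReal_nonneg
      have h6 : 0 ≤ (fR (L - 1)).toReal := ENNReal.toReal_nonneg
      have h7 : R0 * ((1 + D0) / 2) ≤ 51 / 1000 := by nlinarith
      have h8 : R0 ^ 2 * ((1 + D0) / 2) ≤ 25 / 10000 := by
        have : R0 ^ 2 * ((1 + D0) / 2) = R0 * (R0 * ((1 + D0) / 2)) := by ring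
        rw [this]
        nlinarith
      have h9 : R0 * ((1 + D0) / 2) * (fR (L - 1)).toReal ≤ 51 / 1000 * (fR (L - 1)).toReal :=
        mul_le_mul_of_nonneg_right h7 h6
      have h10 : R0 ^ 2 * ((1 + D0) / 2) * (fB (L - 1)).toReal ≤
          25 / 10000 * (fB (L - 1)).toReal := mul_le_mul_of_nonneg_right h8 h5
      have h11 := hu0 (L - m)
      have h12 := hu0 (L - 1)
      linarith
  obtain ⟨G, hG, hfin⟩ := far_ind (u := u) (κ := 93 / 100) (U := u 0) (by norm_num) (by norm_num) hK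
    hu0 (fun L => hanti 0 L (Nat.zero_le _)) hmain
  refine ⟨(1 + D0) * G, by positivity, fun L hL => ?_⟩
  have h1 := hfin L hL
  obtain ⟨s1, s2⟩ := enS_fin (wt_rF_nn L) (f_fin L).1
  obtain ⟨s3, s4⟩ := enS_fin (wt_dF_nn L) (f_fin L).2.1
  set ε : ℝ := (L : ℝ) ^ (-(24 / 5) : ℝ) with hε
  have hε0 : 0 ≤ ε := by positivity
  refine ⟨s1, s3, ?_, ?_⟩
  · rw [s2]
    have h2 := hur L
    have h3 : (enS (wt (rF L) rho)).toReal = (fR L).toReal := rfl
    have h4 : 0 ≤ (fR L).toReal := ENNReal.toReal_nonneg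
    rw [h3]
    have h5 : G * ε ≤ (1 + D0) * G * ε := by
      have : 0 ≤ D0 * (G * ε) := by positivity
      nlinarith
    linarith
  · rw [s4]
    have h2 := hub L
    have h3 : (enS (wt (dF L) rho)).toReal = (fD L).toReal := rfl
    have h4 : 0 ≤ (fB L).toReal := ENNReal.toReal_nonneg
    have eb : fB L = ENNReal.ofReal (fB L).toReal := (ENNReal.ofReal_toReal (f_fin L).2.2.1).symm
    have hD : fD L ≤ ENNReal.ofReal ((1 + D0) * (fB L).toReal) := by
      refine (fD_le _).trans ((mul_le_mul_right (fQ_le _) _).trans (le_of_eq ?_))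
      rw [show (2 : ℝ≥0∞) = ENNReal.ofReal 2 by simp]
      conv_lhs => rw [eb]
      rw [← ENNReal.ofReal_mul (by positivity), ← ENNReal.ofReal_mul (by positivity)]
      congr 1
      ring
    have h5 := ENNReal.toReal_mono ENNReal.ofReal_ne_top hD
    rw [ENNReal.toReal_ofReal (by positivity)] at h5
    rw [h3]
    refine h5.trans ?_
    calc (1 + D0) * (fB L).toReal ≤ (1 + D0) * (G * ε) := by
          have := h2.trans h1
          gcongr
      _ = _ := by ring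

end Dia
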