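import Pool.Agent.DiaC.YLaw
import Pool.Agent.DiamP.Chap4
import Pool.Agent.DiamP.VGivenE

/-!
# Chapter 4 for the weights `tauS`

Windows of the rigid weights (upper and lower bound), number of vertices given the number of edges, in
terms of `tauS`, for `37/1000 ≤ x ≤ 476/10000`.
-/

set_option linter.unusedSectionVars false

namespace Dia
open Finset PGr
open scoped ENNReal Classical

variable {x : ℝ}

theorem rigid_gE {c : GC} (hR : Rigid c.rep.1) : 3 ≤ gE c := by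
  have h1 : 8 ≤ Fintype.card (c.rep.1.D ⊕ Bool) := hR.1
  rw [Fintype.card_sum, Fintype.card_bool] at h1
  unfold gE
  omega

theorem rc_small (s : ℝ≥0∞) {j : ℕ} (hj : j < 3) : rc' s j = 0 := by
  rw [rc', ENNReal.tsum_eq_zero]
  intro c
  rw [if_neg]
  rintro ⟨h1, h2⟩
  have := rigid_gE h1
  unfold gE at this
  omega

theorem rhoS_small (x : ℝ) {j : ℕ} (hj : j < 3) : rhoS x j = 0 := by
  rw [rhoS, rc_small _ hj, ENNReal.toReal_zero]

theorem rhoS_ofReal (h0 : 0 < x) (h1 : x < 1) (j : ℕ) :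
    ENNReal.ofReal (rhoS x j) = rc' (ENNReal.ofReal x) j :=
  ENNReal.ofReal_toReal (rc_ne_top h0 (yc_pos' h0 h1) (Ag_ne_top h0 h1) j)

theorem rhoS_nonneg (x : ℝ) (j : ℕ) : 0 ≤ rhoS x j := ENNReal.toReal_nonneg

/-- the system in the form of `DiamP` -/
theorem sys_bridge (h0 : 0 < x) (h1 : x < 1) :
    Pool.Agent.DiamP.Sys x (yc x) (rhoS x) (aS x (yc x)) (zS x (yc x)) (SS x (yc x)) (PS x (yc x))
      (RS x (yc x)) (YS x (yc x)) := by
  have hy := yc_pos' h0 h1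
  have h := sys h0 hy (Ag_ne_top h0 h1)
  have e1 : YS x (yc x) - SS x (yc x) = zS x (yc x) + PS x (yc x) + RS x (yc x) := by
    funext n
    simp only [Pi.sub_apply, Pi.add_apply]
    rw [h.hY n]
    ring
  have e2 : YS x (yc x) - PS x (yc x) = zS x (yc x) + SS x (yc x) + RS x (yc x) := by
    funext n
    simp only [Pi.sub_apply, Pi.add_apply]
    rw [h.hY n]
    ring
  refine ⟨h0, hy, h.ρ0, rhoS_small x (by norm_num), rhoS_small x (by norm_num), h.a0, h.z0, h.S0,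
    h.P0, h.R0, h.hY0, fun n => ?_, h.hz0, h.hz, h.hY, fun n => ?_, fun n => ?_, h.hR⟩
  · rw [h.ha n]
    congr 2
    unfold Pool.Agent.DiamP.cv
    simp only [Pi.add_apply, mul_add, Finset.sum_add_distrib]
    congr 1
    rw [Finset.sum_eq_single (n, 0)]
    · simp [Pool.Agent.DiamP.one0]
    · intro p hp hne
      rw [HasAntidiagonal.mem_antidiagonal] at hp
      have h2 : p.2 ≠ 0 := by
        intro h2
        apply hne
        ext
        · simp only; omega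
        · exact h2
      simp [Pool.Agent.DiamP.one0, h2]
    · intro hn
      exact absurd (by simp) hn
  · rw [h.hS n, e1]
  · rw [h.hP n, e2]

/-- the total weight of the rigid maps with `j` nonroot edges -/
theorem tauS_E (h0 : 0 < x) (h1 : x < 1) (j : ℕ) :
    tauS x (fun c => gE c = j) = ENNReal.ofReal (rhoS x j * ecr (vc x) ^ j) := by
  have hD := ecr_vc_pos h0 h1
  rw [ENNReal.ofReal_mul (rhoS_nonneg x j), rhoS_ofReal h0 h1, rc', tauS, ← ENNReal.tsum_mul_right]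
  refine tsum_congr fun c => ?_
  unfold gE
  by_cases h : Rigid c.rep.1 ∧ Fintype.card c.rep.1.D / 2 = j
  · rw [if_pos h, if_pos h, h.2, ENNReal.ofReal_mul (by positivity), ENNReal.ofReal_pow h0.le]
  · rw [if_neg h, if_neg h, zero_mul]

theorem tauS_mono {P Q : GC → Prop} (h : ∀ c, Rigid c.rep.1 → P c → Q c) : tauS x P ≤ tauS x Q := by
  refine ENNReal.tsum_le_tsum fun c => ?_
  by_cases hc : Rigid c.rep.1 ∧ P c
  · rw [if_pos hc, if_pos ⟨hc.1, h c hc.1 hc.2⟩]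
  · rw [if_neg hc]
    exact bot_le

theorem tauS_or (P Q : GC → Prop) : tauS x (fun c => P c ∨ Q c) ≤ tauS x P + tauS x Q := by
  unfold tauS
  rw [← ENNReal.tsum_add]
  refine ENNReal.tsum_le_tsum fun c => ?_
  by_cases hR : Rigid c.rep.1
  · by_cases hP : P c
    · rw [if_pos ⟨hR, Or.inl hP⟩, if_pos ⟨hR, hP⟩]
      exact le_self_add
    · by_cases hQ : Q c
      · rw [if_pos (⟨hR, Or.inr hQ⟩ : Rigid c.rep.1 ∧ (P c ∨ Q c)),
          if_pos (⟨hR, hQ⟩ : Rigid c.rep.1 ∧ Q c)]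
        exact le_add_self
      · rw [if_neg (by tauto)]
        exact bot_le
  · rw [if_neg (by tauto)]
    exact bot_le

theorem tauS_fin (J : Finset ℕ) (P : GC → Prop) :
    tauS x (fun c => gE c ∈ J ∧ P c) = ∑ j ∈ J, tauS x (fun c => gE c = j ∧ P c) := by
  unfold tauS
  rw [← Summable.tsum_finsetSum fun j _ => ENNReal.summable]
  refine tsum_congr fun c => ?_
  by_cases h : Rigid c.rep.1 ∧ (gE c ∈ J ∧ P c)
  · rw [if_pos h, Finset.sum_eq_single (gE c)]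
    · rw [if_pos ⟨h.1, rfl, h.2.2⟩]
    · intro j _ hj
      rw [if_neg (fun h' => hj h'.2.1.symm)]
    · intro hn
      exact absurd h.2.1 hn
  · rw [if_neg h]
    symm
    apply Finset.sum_eq_zero
    intro j hj
    rw [if_neg]
    rintro ⟨h2, h3, h4⟩
    exact h ⟨h2, h3 ▸ hj, h4⟩

theorem vc_range (h0 : 37 / 1000 ≤ x) (h1 : x ≤ 476 / 10000) :
    607 / 1000 ≤ vc x ∧ vc x ≤ 6295 / 10000 := by
  have hx0 : 0 < x := by linarith
  have hx1 : x < 1 := by linarith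
  have hv0 := vc_pos hx0 hx1
  have hv1 := vc_lt_one hx0 hx1
  have hs := scr_vc hx0 hx1
  constructor
  · by_contra hcon
    push Not at hcon
    have h2 := scr_strictAntiOn ⟨hv0, hv1⟩ (⟨by norm_num, by norm_num⟩ : (607 / 1000 : ℝ) ∈ Set.Ioo (0 : ℝ) 1) hcon
    rw [hs] at h2
    unfold scr at h2
    norm_num at h2
    linarith
  · by_contra hcon
    push Not at hcon
    have h2 := scr_strictAntiOn (⟨by norm_num, by norm_num⟩ : (6295 / 10000 : ℝ) ∈ Set.Ioo (0 : ℝ) 1) ⟨hv0, hv1⟩ hcon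
    rw [hs] at h2
    unfold scr at h2
    norm_num at h2
    linarith

theorem yLaw_nrm (h0 : 0 < x) (h1 : x ≤ 1 / 10) :
    Pool.Agent.DiamP.nrm (YS x (yc x)) = yLaw x := by
  have h := (crit_sums h0 h1 (Ag_ne_top h0 (by linarith))).2.2.1
  funext n
  unfold Pool.Agent.DiamP.nrm yLaw Pool.Agent.DiamP.tot
  rw [h.tsum_eq, Pi.smul_apply, smul_eq_mul]
  field_simp

/-- **Chapter 4**: masses and windows -/
theorem chap4 (h0 : 37 / 1000 ≤ x) (h1 : x ≤ 476 / 10000) :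
    ∃ A c' C : ℝ, 0 < A ∧ 0 < c' ∧ 0 < C ∧
      (∃ n0 : ℕ, ∀ n : ℕ, n0 ≤ n → c' * (n : ℝ) ^ (-(11 / 6) : ℝ) ≤
        ∑ j ∈ (range (n + 1)).filter (fun j : ℕ => |yMu x * j - n| ≤
          A * (n : ℝ) ^ (2 / 3 : ℝ)), rhoS x j * ecr (vc x) ^ j) ∧
      ∀ n : ℕ, 1 ≤ n → ∀ J : Finset ℕ, (∀ j ∈ J, n ≤ j ∧ (j : ℝ) ≤ n + (n : ℝ) ^ (2 / 3 : ℝ)) →
        ∑ j ∈ J, rhoS x j * ecr (vc x) ^ j ≤ C * (n : ℝ) ^ (-(11 / 6) : ℝ) := by
  have hx0 : 0 < x := by linarith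
  have hx1 : x < 1 := by linarith
  have hx2 : x ≤ 1 / 10 := by linarith
  obtain ⟨hv1, hv2⟩ := vc_range h0 h1
  have hs := scr_vc hx0 hx1
  have hb := sys_bridge hx0 hx1
  obtain ⟨ca, Ka, hca, hKa, hm⟩ := maps_bounds hx0 hx1
  obtain ⟨s1, s2, s3, s4, s5, -, -⟩ := crit_sums hx0 hx2 (Ag_ne_top hx0 hx1)
  have hu := (uf_vc hx0 hx1).2
  have hnu : Pool.Agent.DiamP.nu (vc x) = alc x := by rw [hu]; rfl
  rw [← hs] at hb
  have key := Pool.Agent.DiamP.windows hv1 hv2 (y := yc x) (by rw [hs] at hb ⊢; exact hb)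
    (fun j => by rw [hs]; rfl)
    (by
      have : Pool.Agent.DiamP.nA (vc x) = 1 + alc x + vc x - 3 * alc x * vc x := by
        unfold Pool.Agent.DiamP.nA
        rw [hnu]
      rw [this]
      exact s1)
    (by
      have : Pool.Agent.DiamP.nz (vc x) = vc x * (1 - alc x) ^ 2 := by
        unfold Pool.Agent.DiamP.nz
        rw [hnu]
      rw [this]
      exact s2)
    s3
    (by
      have : Pool.Agent.DiamP.nS (vc x) = x * ecr (vc x) ^ 2 / (1 + x * ecr (vc x)) := by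
        unfold Pool.Agent.DiamP.nS
        rw [Pool.Agent.DiamP.nx_eq, Pool.Agent.DiamP.nE_eq, hs]
      rw [this]
      exact s4)
    (by
      have : Pool.Agent.DiamP.nP (vc x) = ecr (vc x) ^ 2 / (1 + ecr (vc x)) := by
        unfold Pool.Agent.DiamP.nP
        rw [Pool.Agent.DiamP.nE_eq]
      rw [this]
      exact s5)
    hca
    (fun n hn => by rw [aS_am hx0 hx1]; exact (hm n hn).1)
    (fun n hn => by rw [aS_am hx0 hx1]; exact (hm n hn).2)
  obtain ⟨-, -, -, -, -, -, A, c', C, hA, hc', hC, hlow, hup⟩ := key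
  rw [yLaw_nrm hx0 hx2] at hlow
  exact ⟨A, c', C, hA, hc', hC, hlow, hup⟩

/-- windows, upper bound -/
theorem tau_up (h0 : 37 / 1000 ≤ x) (h1 : x ≤ 476 / 10000) : ∃ C : ℝ, 0 < C ∧ ∀ n : ℕ, 1 ≤ n →
    tauS x (fun c => n ≤ gE c ∧ (gE c : ℝ) ≤ n + (n : ℝ) ^ (2 / 3 : ℝ)) ≤
      ENNReal.ofReal (C * (n : ℝ) ^ (2 / 3 - 5 / 2 : ℝ)) := by
  have hx0 : 0 < x := by linarith
  have hx1 : x < 1 := by linarith
  have hD := ecr_vc_pos hx0 hx1
  obtain ⟨A, c', C, hA, hc', hC, -, hup⟩ := chap4 h0 h1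
  refine ⟨C, hC, fun n hn => ?_⟩
  set J : Finset ℕ := (range (2 * n + 1)).filter
    (fun j : ℕ => n ≤ j ∧ (j : ℝ) ≤ n + (n : ℝ) ^ (2 / 3 : ℝ)) with hJ
  have h2 : tauS x (fun c => n ≤ gE c ∧ (gE c : ℝ) ≤ n + (n : ℝ) ^ (2 / 3 : ℝ)) ≤
      tauS x (fun c => gE c ∈ J ∧ True) := by
    refine tauS_mono fun c _ hc => ⟨?_, trivial⟩
    rw [hJ, mem_filter, mem_range]
    refine ⟨?_, hc⟩
    have hn' : (1 : ℝ) ≤ n := by exact_mod_cast hn
    have h3 : (n : ℝ) ^ (2 / 3 : ℝ) ≤ n := by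
      have := Real.rpow_le_rpow_of_exponent_le hn' (show (2 / 3 : ℝ) ≤ 1 by norm_num)
      rwa [Real.rpow_one] at this
    have h4 : (gE c : ℝ) ≤ 2 * n := by linarith [hc.2]
    have h5 : gE c ≤ 2 * n := by exact_mod_cast h4
    omega
  refine h2.trans ?_
  rw [tauS_fin]
  have h3 : ∀ j ∈ J, tauS x (fun c => gE c = j ∧ True) =
      ENNReal.ofReal (rhoS x j * ecr (vc x) ^ j) := by
    intro j _
    rw [← tauS_E hx0 hx1 j]
    simp only [and_true]
  rw [Finset.sum_congr rfl h3, ← ENNReal.ofReal_sum_of_nonneg fun j _ =>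
    mul_nonneg (rhoS_nonneg x j) (by positivity)]
  refine ENNReal.ofReal_le_ofReal ?_
  rw [show (2 / 3 - 5 / 2 : ℝ) = -(11 / 6) by norm_num]
  exact hup n hn J fun j hj => by
    rw [hJ, mem_filter] at hj
    exact hj.2

/-- windows, lower bound -/
theorem tau_low (h0 : 37 / 1000 ≤ x) (h1 : x ≤ 476 / 10000) : ∃ A c' : ℝ, 0 < A ∧ 0 < c' ∧
    ∃ n0 : ℕ, ∀ n : ℕ, n0 ≤ n → ENNReal.ofReal (c' * (n : ℝ) ^ (2 / 3 - 5 / 2 : ℝ)) ≤
      tauS x (fun c => |yMu x * gE c - n| ≤ A * (n : ℝ) ^ (2 / 3 : ℝ)) := by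
  have hx0 : 0 < x := by linarith
  have hx1 : x < 1 := by linarith
  have hD := ecr_vc_pos hx0 hx1
  obtain ⟨A, c', C, hA, hc', hC, ⟨n0, hlow⟩, -⟩ := chap4 h0 h1
  refine ⟨A, c', hA, hc', n0, fun n hn => ?_⟩
  set J : Finset ℕ := (range (n + 1)).filter
    (fun j : ℕ => |yMu x * j - n| ≤ A * (n : ℝ) ^ (2 / 3 : ℝ)) with hJ
  have h2 : tauS x (fun c => gE c ∈ J ∧ True) ≤
      tauS x (fun c => |yMu x * gE c - n| ≤ A * (n : ℝ) ^ (2 / 3 : ℝ)) := by
    refine tauS_mono fun c _ hc => ?_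
    have h3 := hc.1
    rw [hJ, mem_filter] at h3
    exact h3.2
  refine le_trans ?_ h2
  rw [tauS_fin]
  have h3 : ∀ j ∈ J, tauS x (fun c => gE c = j ∧ True) =
      ENNReal.ofReal (rhoS x j * ecr (vc x) ^ j) := by
    intro j _
    rw [← tauS_E hx0 hx1 j]
    simp only [and_true]
  rw [Finset.sum_congr rfl h3, ← ENNReal.ofReal_sum_of_nonneg fun j _ =>
    mul_nonneg (rhoS_nonneg x j) (by positivity)]
  refine ENNReal.ofReal_le_ofReal ?_
  rw [show (2 / 3 - 5 / 2 : ℝ) = -(11 / 6) by norm_num]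
  exact hlow n hn

/-- number of vertices given the number of edges -/
theorem tau_V (h0 : 37 / 1000 ≤ x) (h1 : x ≤ 476 / 10000) :
    0 < Pool.Agent.DiamP.alpha (vc x) ∧ ∃ j0 : ℕ, ∀ j : ℕ, j0 ≤ j →
      tauS x (fun c => gE c = j ∧ (j : ℝ) ^ (3 / 5 : ℝ) ≤
        |(nV c.rep.1.s : ℝ) - Pool.Agent.DiamP.alpha (vc x) * j|) ≤
      ENNReal.ofReal (Real.exp (-(j : ℝ) ^ (1 / 10 : ℝ))) := by
  have hx0 : 0 < x := by linarith
  have hx1 : x < 1 := by linarith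
  have hD := ecr_vc_pos hx0 hx1
  obtain ⟨hv1, hv2⟩ := vc_range h0 h1
  obtain ⟨h2, j0, h3⟩ := Pool.Agent.DiamP.v_given_e (t := vc x) (by linarith) (by linarith)
  refine ⟨h2, j0, fun j hj => ?_⟩
  refine le_trans (le_of_eq ?_) (h3 j hj)
  rw [scr_vc hx0 hx1, Pool.Agent.DiamP.rcQ, tauS, ← ENNReal.tsum_mul_right]
  refine tsum_congr fun c => ?_
  unfold gE
  by_cases h : Rigid c.rep.1 ∧ Fintype.card c.rep.1.D / 2 = j ∧ (j : ℝ) ^ (3 / 5 : ℝ) ≤
      |(nV c.rep.1.s : ℝ) - Pool.Agent.DiamP.alpha (vc x) * j|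
  · rw [if_pos h, if_pos h, h.2.1, ENNReal.ofReal_mul (by positivity), ENNReal.ofReal_pow hx0.le,
      ENNReal.ofReal_pow hD.le]
  · rw [if_neg h, if_neg h, zero_mul]

end Dia
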