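import Pool.Agent.DiaC.CoreIneq

/-!
# Module DiamB: few rigid maps have a large diameter ((I5), upper bounds)

`ecc_big`: `ecc` of the vertex of `phM t` is at least `gdm c / 2`: for all `t'`: `dd_lower`, so it is at least the
eccentricity of the vertex of `t` in the core; `dm_le`, `core_dm`.

`diam_big`: `P c`: `gE c` in the window, `C n^(1/4) ≤ gdm c`; `Eg c`: the event of `sum_window` (`κ = 1/2`, `core_card_I`);
`Ψ N r = if N ∈ W ∧ C' n^(1/4) ≤ r then 1 else 0` with `W` of `window_sizes` (`∑ fsz ≥ j` by `fsz_pos`), `C = 2 C'`.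
`tau_ineq` and `tree_large` (with `δ'`): `x² y n/6 tauS P ≤ W.card δ' n^(-3/2) ≤ b δ' n^(2/3 - 3/2)`; divide by
`x² y n/6`; `δ' = δ x² y / (6 b)`.

`diam_huge`: `P c`: `gE c = j`, `j^0.3 ≤ gdm c`; `window_sizes` with `n = j`; for `N ∈ W`: `N ≤ b j`, so
`N^(1/4 + 0.04) ≤ (b j)^0.29 ≤ j^0.3 / 2 ≤ ecc` for large `j`; `tree_huge`; the factor `K j` is absorbed by a smaller
exponent `c0 = c/2`.
-/

set_option linter.unusedSectionVars false

namespace Dia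
open Equiv Finset PGr
open scoped ENNReal

variable {x : ℝ}

theorem ecc_big (c : GC) (g : (ESum.core c).I → FN) (t : (ESum.core c).toB.T) :
    gdm c ≤ 2 * (bigM c g).ecc ((bigM c g).vx (phM c g t)) := by
  have h1 := dm_le (bR_isMap (ESum.core_good c)) ((bR (ESum.core c).toB).vx t)
  rw [core_dm] at h1
  obtain ⟨t', ht'⟩ := exists_ecc (M := bR (ESum.core c).toB) t
  have h2 := dd_lower c g t t'
  have h3 := dd_le_ecc (M := bigM c g) (phM c g t) (phM c g t')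
  have h4 : (bR (ESum.core c).toB).dd t t' =
    (bR (ESum.core c).toB).ecc ((bR (ESum.core c).toB).vx t) := ht'
  omega

theorem DiamB_div {a b : ℝ} {T : ℝ≥0∞} (ha : 0 < a)
    (h : ENNReal.ofReal a * T ≤ ENNReal.ofReal b) : T ≤ ENNReal.ofReal (b / a) := by
  rw [ENNReal.ofReal_div_of_pos ha, ENNReal.le_div_iff_mul_le (Or.inl (by simpa using ha))
    (Or.inl ENNReal.ofReal_ne_top), mul_comm]
  exact h

/-- the sizes of a family -/
theorem DiamB_sum (c : GC) (g : (ESum.core c).I → FN) : gE c ≤ ∑ i, fsz (g i) := by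
  rw [← core_card_I, Fintype.card_eq_sum_ones]
  exact Finset.sum_le_sum fun i _ => fsz_pos (g i)

theorem diam_big (h0 : 0 < x) (h1 : x ≤ 1 / 10) (δ : ℝ) (hδ : 0 < δ) :
    ∃ C : ℝ, 0 < C ∧ ∀ n : ℕ, 1 ≤ n →
      tauS x (fun c => n ≤ gE c ∧ (gE c : ℝ) ≤ n + (n : ℝ) ^ (2 / 3 : ℝ) ∧
        C * (n : ℝ) ^ (1 / 4 : ℝ) ≤ gdm c) ≤
      ENNReal.ofReal (δ * (n : ℝ) ^ (2 / 3 - 5 / 2 : ℝ)) := by
  classical
  have hx1 : x < 1 := by linarith
  have hy := yc_pos' h0 hx1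
  obtain ⟨A, hA, hsum⟩ := sum_window h0 h1
  obtain ⟨b, hb, hwin⟩ := window_sizes (yMu_ge h0 h1) hA
  have hxy : 0 < x ^ 2 * yc x := by positivity
  obtain ⟨C', hC', htree⟩ := tree_large h0 hx1 (δ * (x ^ 2 * yc x) / (6 * b)) b (by positivity) hb
  refine ⟨2 * C', by positivity, fun n hn => ?_⟩
  obtain ⟨W, hW1, hW2, hW3⟩ := hwin n hn
  have hn0 : (0 : ℝ) < n := by exact_mod_cast hn
  have hti := tau_ineq h0 h1 (κ := 1 / 2) (by norm_num) hn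
    (fun c => n ≤ gE c ∧ (gE c : ℝ) ≤ n + (n : ℝ) ^ (2 / 3 : ℝ) ∧
        2 * C' * (n : ℝ) ^ (1 / 4 : ℝ) ≤ gdm c)
    (fun c g => |((∑ i, fsz (g i) : ℕ) : ℝ) - yMu x * (Fintype.card (ESum.core c).I : ℕ)| ≤
          A * ((Fintype.card (ESum.core c).I : ℕ) : ℝ) ^ (2 / 3 : ℝ))
    (fun N r => if N ∈ W ∧ C' * (n : ℝ) ^ (1 / 4 : ℝ) ≤ r then 1 else 0) ?_ ?_
  · have h2 := hti.trans (htree n hn W hW1)
    have h3 := DiamB_div (by positivity) h2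
    refine h3.trans (ENNReal.ofReal_le_ofReal ?_)
    have h4 : (n : ℝ) ^ (2 / 3 - 5 / 2 : ℝ) = (n : ℝ) ^ (2 / 3 : ℝ) * (n : ℝ) ^ (-(3 / 2) : ℝ) / n := by
      rw [← Real.rpow_add hn0, ← Real.rpow_sub_one hn0.ne']
      norm_num
    rw [h4]
    have h5 : (0 : ℝ) < (n : ℝ) ^ (-(3 / 2) : ℝ) := Real.rpow_pos_of_pos hn0 _
    calc (W.card : ℝ) * (δ * (x ^ 2 * yc x) / (6 * b) * (n : ℝ) ^ (-(3 / 2) : ℝ)) /
          (x ^ 2 * yc x * (1 / 2) * n / 3) ≤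
        (b * (n : ℝ) ^ (2 / 3 : ℝ)) * (δ * (x ^ 2 * yc x) / (6 * b) *
          (n : ℝ) ^ (-(3 / 2) : ℝ)) / (x ^ 2 * yc x * (1 / 2) * n / 3) := by gcongr
      _ = δ * ((n : ℝ) ^ (2 / 3 : ℝ) * (n : ℝ) ^ (-(3 / 2) : ℝ) / n) := by
          have hb0 : b ≠ 0 := by positivity
          have hxy0 : x ^ 2 * yc x ≠ 0 := hxy.ne'
          field_simp
          norm_num
  · rintro c hR ⟨hc1, hc2, hc3⟩
    refine ⟨hc1, ?_⟩
    have h2 := hsum (ESum.core c).I (by rw [core_card_I]; omega)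
    rw [show (1 / 2 : ℝ) * ecr (vc x) ^ gE c = ecr (vc x) ^ Fintype.card (ESum.core c).I / 2 by
      rw [core_card_I]; ring]
    exact h2
  · rintro c hR ⟨hc1, hc2, hc3⟩ g hg t
    have hg' : |((∑ i, fsz (g i) : ℕ) : ℝ) - yMu x * (gE c : ℕ)| ≤
        A * ((gE c : ℕ) : ℝ) ^ (2 / 3 : ℝ) := by
      rw [← core_card_I]; exact hg
    have hm := hW3 (gE c) (∑ i, fsz (g i)) hc1 hc2 (DiamB_sum c g) hg'
    have he := ecc_big c g t
    have he' : (gdm c : ℝ) ≤ 2 * ((bigM c g).ecc ((bigM c g).vx (phM c g t)) : ℝ) := by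
      exact_mod_cast he
    rw [if_pos ⟨hm, by linarith⟩]

theorem DiamB_asym (K : ℝ) {c : ℝ} (hc : 0 < c) :
    ∃ j0 : ℕ, ∀ j : ℕ, j0 ≤ j → K * Real.exp (-(j : ℝ) ^ c) ≤ Real.exp (-(j : ℝ) ^ (c / 2)) := by
  have h1 : Filter.Tendsto (fun j : ℕ => (j : ℝ) ^ (c / 2)) Filter.atTop Filter.atTop :=
    (tendsto_rpow_atTop (by positivity)).comp tendsto_natCast_atTop_atTop
  obtain ⟨j0, hj0⟩ := (Filter.tendsto_atTop.1 h1 (max K 2)).exists_forall_of_atTop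
  refine ⟨j0, fun j hj => ?_⟩
  have h2 := hj0 j hj
  have h3 : K ≤ (j : ℝ) ^ (c / 2) := le_trans (le_max_left _ _) h2
  have h4 : (2 : ℝ) ≤ (j : ℝ) ^ (c / 2) := le_trans (le_max_right _ _) h2
  have h5 : (j : ℝ) ^ c = (j : ℝ) ^ (c / 2) * (j : ℝ) ^ (c / 2) := by
    rw [← sq, ← Real.rpow_natCast, ← Real.rpow_mul (by positivity)]
    norm_num
  rw [h5]
  set u := (j : ℝ) ^ (c / 2)
  have h6 : K ≤ Real.exp (u * u - u) := by
    have h7 : u ≤ Real.exp (u * u - u) := by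
      have := Real.add_one_le_exp (u * u - u)
      nlinarith
    linarith
  calc K * Real.exp (-(u * u)) ≤ Real.exp (u * u - u) * Real.exp (-(u * u)) :=
        mul_le_mul_of_nonneg_right h6 (Real.exp_pos _).le
    _ = Real.exp (-u) := by rw [← Real.exp_add]; congr 1; ring

theorem diam_huge (h0 : 0 < x) (h1 : x ≤ 1 / 10) : ∃ c0 : ℝ, 0 < c0 ∧ ∃ j0 : ℕ,
    ∀ j : ℕ, j0 ≤ j →
      tauS x (fun c => gE c = j ∧ (j : ℝ) ^ (3 / 10 : ℝ) ≤ gdm c) ≤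
      ENNReal.ofReal (Real.exp (-(j : ℝ) ^ c0)) := by
  classical
  have hx1 : x < 1 := by linarith
  have hy := yc_pos' h0 hx1
  obtain ⟨A, hA, hsum⟩ := sum_window h0 h1
  obtain ⟨b, hb, hwin⟩ := window_sizes (yMu_ge h0 h1) hA
  have hxy : 0 < x ^ 2 * yc x := by positivity
  obtain ⟨e, he, n0, hn01, htree⟩ := tree_huge h0 hx1 (1 / 25) (by norm_num)
  obtain ⟨j1, hj1⟩ := DiamB_asym (6 * b / (x ^ 2 * yc x)) he
  obtain ⟨j2, hj2⟩ := exists_nat_ge ((2 * b ^ (29 / 100 : ℝ)) ^ 100)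
  refine ⟨e / 2, by positivity, max (max n0 j1) (max j2 1), fun j hj => ?_⟩
  have hjn : n0 ≤ j := le_trans (le_trans (le_max_left _ _) (le_max_left _ _)) hj
  have hjj1 : j1 ≤ j := le_trans (le_trans (le_max_right _ _) (le_max_left _ _)) hj
  have hjj2 : j2 ≤ j := le_trans (le_trans (le_max_left _ _) (le_max_right _ _)) hj
  have hj1' : 1 ≤ j := le_trans (le_trans (le_max_right _ _) (le_max_right _ _)) hj
  obtain ⟨W, hW1, hW2, hW3⟩ := hwin j hj1'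
  have hn0 : (0 : ℝ) < j := by exact_mod_cast hj1'
  have hn1 : (1 : ℝ) ≤ j := by exact_mod_cast hj1'
  -- `(b j)^0.29 ≤ j^0.3 / 2`
  have hkey : (b * j) ^ (29 / 100 : ℝ) ≤ (j : ℝ) ^ (3 / 10 : ℝ) / 2 := by
    have e1 : 2 * b ^ (29 / 100 : ℝ) ≤ (j : ℝ) ^ (1 / 100 : ℝ) := by
      have e2 : (2 * b ^ (29 / 100 : ℝ)) ^ 100 ≤ (j : ℝ) :=
        hj2.trans (by exact_mod_cast hjj2)
      have e3 : 0 ≤ 2 * b ^ (29 / 100 : ℝ) := by positivity
      calc 2 * b ^ (29 / 100 : ℝ) = ((2 * b ^ (29 / 100 : ℝ)) ^ 100) ^ (1 / 100 : ℝ) := by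
            rw [← Real.rpow_natCast, ← Real.rpow_mul e3]
            norm_num
        _ ≤ (j : ℝ) ^ (1 / 100 : ℝ) := Real.rpow_le_rpow (by positivity) e2 (by norm_num)
    rw [Real.mul_rpow (by positivity) hn0.le]
    have e4 : (j : ℝ) ^ (3 / 10 : ℝ) = (j : ℝ) ^ (1 / 100 : ℝ) * (j : ℝ) ^ (29 / 100 : ℝ) := by
      rw [← Real.rpow_add hn0]
      norm_num
    rw [e4]
    have e5 : 0 ≤ (j : ℝ) ^ (29 / 100 : ℝ) := by positivity
    nlinarith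
  have hti := tau_ineq h0 h1 (κ := 1 / 2) (by norm_num) hj1'
    (fun c => gE c = j ∧ (j : ℝ) ^ (3 / 10 : ℝ) ≤ gdm c)
    (fun c g => |((∑ i, fsz (g i) : ℕ) : ℝ) - yMu x * (Fintype.card (ESum.core c).I : ℕ)| ≤
          A * ((Fintype.card (ESum.core c).I : ℕ) : ℝ) ^ (2 / 3 : ℝ))
    (fun N r => if N ∈ W ∧ (N : ℝ) ^ (1 / 4 + 1 / 25 : ℝ) ≤ r then 1 else 0) ?_ ?_
  · have h2 := hti.trans (htree j hjn W fun N hN => (hW1 N hN).1)
    have h3 := DiamB_div (by positivity) h2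
    refine h3.trans (ENNReal.ofReal_le_ofReal ?_)
    refine le_trans ?_ (hj1 j hjj1)
    have h5 : (j : ℝ) ^ (2 / 3 : ℝ) ≤ j := by
      calc (j : ℝ) ^ (2 / 3 : ℝ) ≤ (j : ℝ) ^ (1 : ℝ) :=
            Real.rpow_le_rpow_of_exponent_le hn1 (by norm_num)
        _ = j := Real.rpow_one _
    calc (W.card : ℝ) * Real.exp (-(j : ℝ) ^ e) / (x ^ 2 * yc x * (1 / 2) * j / 3) ≤
        (b * j) * Real.exp (-(j : ℝ) ^ e) / (x ^ 2 * yc x * (1 / 2) * j / 3) := by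
          have : (W.card : ℝ) ≤ b * j := hW2.trans (by gcongr)
          gcongr
      _ = 6 * b / (x ^ 2 * yc x) * Real.exp (-(j : ℝ) ^ e) := by
          have hxy0 : x ^ 2 * yc x ≠ 0 := hxy.ne'
          field_simp
          ring
  · rintro c hR ⟨hc1, hc2⟩
    refine ⟨hc1.ge, ?_⟩
    have h2 := hsum (ESum.core c).I (by rw [core_card_I]; omega)
    rw [show (1 / 2 : ℝ) * ecr (vc x) ^ gE c = ecr (vc x) ^ Fintype.card (ESum.core c).I / 2 by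
      rw [core_card_I]; ring]
    exact h2
  · rintro c hR ⟨hc1, hc2⟩ g hg t
    have hg' : |((∑ i, fsz (g i) : ℕ) : ℝ) - yMu x * (gE c : ℕ)| ≤
        A * ((gE c : ℕ) : ℝ) ^ (2 / 3 : ℝ) := by
      rw [← core_card_I]; exact hg
    have hm := hW3 (gE c) (∑ i, fsz (g i)) hc1.ge (by
      rw [hc1]
      have : (0 : ℝ) ≤ (j : ℝ) ^ (2 / 3 : ℝ) := by positivity
      linarith) (DiamB_sum c g) hg'
    have he := ecc_big c g t
    have he' : (gdm c : ℝ) ≤ 2 * ((bigM c g).ecc ((bigM c g).vx (phM c g t)) : ℝ) := by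
      exact_mod_cast he
    have h5 : ((1 + ∑ i, fsz (g i) : ℕ) : ℝ) ^ (1 / 4 + 1 / 25 : ℝ) ≤
        (b * j) ^ (29 / 100 : ℝ) := by
      rw [show (1 / 4 + 1 / 25 : ℝ) = 29 / 100 by norm_num]
      exact Real.rpow_le_rpow (by positivity) (hW1 _ hm).2 (by norm_num)
    rw [if_pos ⟨hm, by linarith⟩]

end Dia
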