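import Pool.Agent.DiaC.ZDefs
import Pool.Agent.Dia.TAll
import Pool.Agent.Dia.Thm2A
import Pool.Agent.Dia.Thm2B
import Pool.Agent.Dia.Thm2C

/-!
# Module TreeZ: sums over trees with sizes in a finite set

`treeS_fin`: `tsum_size` (the sum over `LT` grouped by size); for `N ∉ W` all terms vanish; for `N ∈ W`, `N ≥ 1` (so the
trees are not `nil`), the sum over `LT.all N` is
`ofReal x * ofReal (ZN x false N (fun t => p N t.rng))` (definitions of `ZN`, `LT.w`).

`tree_large`, `tree_small`, `tree_huge`: `treeS_fin` with `rng_large`, `rng_small`, `rng_huge` (`up = false`).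
In `tree_large` and `tree_small` `n ≤ N` for `N ∈ W`, so `N^(-3/2) ≤ n^(-3/2)`; the number of
elements of `W` is at most `B`.
In `tree_large`: `r ≥ C N^(1/4)` follows from `r ≥ C' n^(1/4)` if `N ≤ b n`, `C' = C b^(1/4)`.
In `tree_small`: `r ≤ c N^(1/4)` follows from `r ≤ c n^(1/4)`, since `n ≤ N`.
In `tree_huge`: `N ≥ n ≥ N0`, so `exp(-N^c) ≤ exp(-n^c)`.
-/

set_option linter.unusedSectionVars false

namespace Dia
open Finset PGr
open scoped ENNReal Classical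

variable {x : ℝ}

theorem treeS_fin (h0 : 0 < x) (h1 : x < 1) (W : Finset ℕ) (hW : ∀ N ∈ W, 1 ≤ N)
    (p : ℕ → ℕ → Prop) :
    treeS (ENNReal.ofReal x) (ENNReal.ofReal (yc x)) (fun N r => if N ∈ W ∧ p N r then 1 else 0) =
      ∑ N ∈ W, ENNReal.ofReal (x * ZN x false N (fun t => p N t.rng)) := by
  have hy : 0 ≤ yc x := (yc_pos h0 h1).le
  unfold treeS
  rw [tsum_size, tsum_eq_sum (s := W)]
  · refine Finset.sum_congr rfl fun N hN => ?_
    have h2 : x * ZN x false N (fun t => p N t.rng) =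
        ∑ t ∈ LT.all N, x * ((if p N t.rng then t.w x false else 0) * yc x ^ N) := by
      unfold ZN
      rw [Finset.sum_mul, Finset.mul_sum]
    have h3 : ∀ t ∈ LT.all N, 0 ≤ x * ((if p N t.rng then t.w x false else 0) * yc x ^ N) := by
      intro t _
      have h4 : 0 ≤ t.w x false := pow_nonneg h0.le _
      split_ifs
      · positivity
      · simp
    rw [h2, ENNReal.ofReal_sum_of_nonneg h3]
    refine Finset.sum_congr rfl fun t ht => ?_
    have hsz : t.size = N := LT.mem_all.1 ht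
    have hnil : t ≠ LT.nil := by
      rintro rfl
      have h5 : (LT.nil).size = 0 := rfl
      have h6 := hW N hN
      omega
    rw [if_neg hnil, hsz]
    show ENNReal.ofReal x ^ (1 + t.nup false) * ENNReal.ofReal (yc x) ^ N *
      (if N ∈ W ∧ p N t.rng then 1 else 0) = _
    by_cases hp : p N t.rng
    · rw [if_pos ⟨hN, hp⟩, if_pos hp, mul_one, ← ENNReal.ofReal_pow h0.le,
        ← ENNReal.ofReal_pow hy, ← ENNReal.ofReal_mul (pow_nonneg h0.le _)]
      congr 1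
      unfold LT.w
      rw [pow_add, pow_one]
      ring
    · rw [if_neg (fun h => hp h.2), if_neg hp]
      simp
  · intro N hN
    refine Finset.sum_eq_zero fun t ht => ?_
    have hsz : t.size = N := LT.mem_all.1 ht
    by_cases hnil : t = LT.nil
    · rw [if_pos hnil]
    · rw [if_neg hnil, hsz]
      show ENNReal.ofReal x ^ (1 + t.nup false) * ENNReal.ofReal (yc x) ^ N *
        (if N ∈ W ∧ p N t.rng then 1 else 0) = _
      rw [if_neg (fun h => hN h.1), mul_zero]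

/-- the common step of the three bounds -/
theorem TreeZ_bound (h0 : 0 < x) (h1 : x < 1) (W : Finset ℕ) (hW : ∀ N ∈ W, 1 ≤ N)
    (p q : ℕ → ℕ → Prop) (hqp : ∀ N ∈ W, ∀ r, q N r → p N r) (B : ℝ) (hB : 0 ≤ B)
    (hle : ∀ N ∈ W, ZN x false N (fun t => p N t.rng) ≤ B) :
    treeS (ENNReal.ofReal x) (ENNReal.ofReal (yc x)) (fun N r => if N ∈ W ∧ q N r then 1 else 0) ≤
      ENNReal.ofReal (W.card * B) := by
  have h2 : treeS (ENNReal.ofReal x) (ENNReal.ofReal (yc x))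
      (fun N r => if N ∈ W ∧ q N r then 1 else 0) ≤
      treeS (ENNReal.ofReal x) (ENNReal.ofReal (yc x))
      (fun N r => if N ∈ W ∧ p N r then 1 else 0) := by
    unfold treeS
    refine ENNReal.tsum_le_tsum fun t => ?_
    by_cases ht : t = LT.nil
    · rw [if_pos ht, if_pos ht]
    · rw [if_neg ht, if_neg ht]
      refine mul_le_mul_right ?_ _
      show (if t.size ∈ W ∧ q t.size t.rng then (1 : ℝ≥0∞) else 0) ≤
        if t.size ∈ W ∧ p t.size t.rng then 1 else 0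
      by_cases h3 : t.size ∈ W ∧ q t.size t.rng
      · rw [if_pos h3, if_pos ⟨h3.1, hqp _ h3.1 _ h3.2⟩]
      · rw [if_neg h3]
        exact zero_le
  refine h2.trans ?_
  rw [treeS_fin h0 h1 W hW p]
  have h4 : ∀ N ∈ W, ENNReal.ofReal (x * ZN x false N (fun t => p N t.rng)) ≤
      ENNReal.ofReal B := by
    intro N hN
    apply ENNReal.ofReal_le_ofReal
    calc x * ZN x false N (fun t => p N t.rng) ≤ x * B :=
          mul_le_mul_of_nonneg_left (hle N hN) h0.le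
      _ ≤ 1 * B := mul_le_mul_of_nonneg_right h1.le hB
      _ = B := one_mul B
  refine (Finset.sum_le_sum h4).trans ?_
  rw [Finset.sum_const, nsmul_eq_mul, ENNReal.ofReal_mul (Nat.cast_nonneg _),
    ENNReal.ofReal_natCast]

theorem tree_large (h0 : 0 < x) (h1 : x < 1) (δ b : ℝ) (hδ : 0 < δ) (hb : 1 ≤ b) :
    ∃ C : ℝ, 0 < C ∧ ∀ n : ℕ, 1 ≤ n → ∀ W : Finset ℕ, (∀ N ∈ W, n ≤ N ∧ (N : ℝ) ≤ b * n) →
      treeS (ENNReal.ofReal x) (ENNReal.ofReal (yc x))
        (fun N r => if N ∈ W ∧ C * (n : ℝ) ^ (1 / 4 : ℝ) ≤ r then 1 else 0) ≤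
      ENNReal.ofReal (W.card * (δ * (n : ℝ) ^ (-(3 / 2) : ℝ))) := by
  obtain ⟨C', hC', H⟩ := rng_large h0 h1 false δ hδ
  have hb0 : (0 : ℝ) < b := by linarith
  refine ⟨C' * b ^ (1 / 4 : ℝ), mul_pos hC' (Real.rpow_pos_of_pos hb0 _), ?_⟩
  intro n hn W hW
  have hn0 : (0 : ℝ) < n := by exact_mod_cast hn
  refine TreeZ_bound h0 h1 W (fun N hN => hn.trans (hW N hN).1)
    (fun N r => C' * (N : ℝ) ^ (1 / 4 : ℝ) ≤ r)
    (fun N r => C' * b ^ (1 / 4 : ℝ) * (n : ℝ) ^ (1 / 4 : ℝ) ≤ r) ?_ _ (by positivity) ?_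
  · intro N hN r hr
    refine le_trans ?_ hr
    rw [mul_assoc, ← Real.mul_rpow hb0.le hn0.le]
    exact mul_le_mul_of_nonneg_left
      (Real.rpow_le_rpow (Nat.cast_nonneg _) (hW N hN).2 (by norm_num)) hC'.le
  · intro N hN
    refine (H N (hn.trans (hW N hN).1)).trans ?_
    refine mul_le_mul_of_nonneg_left ?_ hδ.le
    exact Real.rpow_le_rpow_of_nonpos hn0 (by exact_mod_cast (hW N hN).1) (by norm_num)

theorem tree_small (h0 : 0 < x) (h1 : x < 1) (δ : ℝ) (hδ : 0 < δ) :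
    ∃ c : ℝ, 0 < c ∧ ∃ n0 : ℕ, 1 ≤ n0 ∧ ∀ n : ℕ, n0 ≤ n → ∀ W : Finset ℕ, (∀ N ∈ W, n ≤ N) →
      treeS (ENNReal.ofReal x) (ENNReal.ofReal (yc x))
        (fun N r => if N ∈ W ∧ (r : ℝ) ≤ c * (n : ℝ) ^ (1 / 4 : ℝ) then 1 else 0) ≤
      ENNReal.ofReal (W.card * (δ * (n : ℝ) ^ (-(3 / 2) : ℝ))) := by
  obtain ⟨c, hc, N0, H⟩ := rng_small h0 h1 false δ hδ
  refine ⟨c, hc, max N0 1, le_max_right _ _, ?_⟩
  intro n hn W hW
  have hn1 : 1 ≤ n := (le_max_right _ _).trans hn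
  have hn0 : (0 : ℝ) < n := by exact_mod_cast hn1
  refine TreeZ_bound h0 h1 W (fun N hN => hn1.trans (hW N hN))
    (fun N r => (r : ℝ) ≤ c * (N : ℝ) ^ (1 / 4 : ℝ))
    (fun N r => (r : ℝ) ≤ c * (n : ℝ) ^ (1 / 4 : ℝ)) ?_ _ (by positivity) ?_
  · intro N hN r hr
    refine hr.trans ?_
    exact mul_le_mul_of_nonneg_left
      (Real.rpow_le_rpow hn0.le (by exact_mod_cast hW N hN) (by norm_num)) hc.le
  · intro N hN
    refine (H N (((le_max_left _ _).trans hn).trans (hW N hN))).trans ?_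
    refine mul_le_mul_of_nonneg_left ?_ hδ.le
    exact Real.rpow_le_rpow_of_nonpos hn0 (by exact_mod_cast hW N hN) (by norm_num)

theorem tree_huge (h0 : 0 < x) (h1 : x < 1) (e : ℝ) (he : 0 < e) :
    ∃ c : ℝ, 0 < c ∧ ∃ n0 : ℕ, 1 ≤ n0 ∧ ∀ n : ℕ, n0 ≤ n → ∀ W : Finset ℕ, (∀ N ∈ W, n ≤ N) →
      treeS (ENNReal.ofReal x) (ENNReal.ofReal (yc x))
        (fun N r => if N ∈ W ∧ (N : ℝ) ^ (1 / 4 + e) ≤ r then 1 else 0) ≤
      ENNReal.ofReal (W.card * Real.exp (-(n : ℝ) ^ c)) := by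
  obtain ⟨c, hc, N0, H⟩ := rng_huge h0 h1 false e he
  refine ⟨c, hc, max N0 1, le_max_right _ _, ?_⟩
  intro n hn W hW
  have hn1 : 1 ≤ n := (le_max_right _ _).trans hn
  have hn0 : (0 : ℝ) < n := by exact_mod_cast hn1
  refine TreeZ_bound h0 h1 W (fun N hN => hn1.trans (hW N hN))
    (fun N r => (N : ℝ) ^ (1 / 4 + e) ≤ r)
    (fun N r => (N : ℝ) ^ (1 / 4 + e) ≤ r) (fun _ _ _ h => h) _ (Real.exp_pos _).le ?_
  intro N hN
  refine (H N (((le_max_left _ _).trans hn).trans (hW N hN))).trans ?_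
  apply Real.exp_le_exp.2
  apply neg_le_neg
  exact Real.rpow_le_rpow hn0.le (by exact_mod_cast hW N hN) hc.le

end Dia
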