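import Pool.Agent.DiaC.RTail
import Pool.Agent.DiaC.TreeZ

/-!
# Module PartOk: all filled nets of a family of `j` have small diameter
-/

set_option linter.unusedSectionVars false

namespace Dia
open Equiv Finset PGr Filter Topology
open scoped ENNReal

variable {x : ℝ}

open Pool.Agent.DiamP in
theorem ZF_sz_tail (h0 : 0 < x) (h1 : x ≤ 1 / 10) : ∃ K : ℝ, 0 < K ∧ ∀ m : ℕ, 1 ≤ m →
    ZF (ENNReal.ofReal x) (ENNReal.ofReal (yc x)) (fun F => m ≤ fsz F) ≤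
      ENNReal.ofReal (K * (m : ℝ) ^ (-(3 / 2) : ℝ)) := by
  have h1' : x < 1 := by linarith
  have he0 : 0 < ecr (vc x) := ecr_pos (vc_pos h0 h1') (vc_lt_one h0 h1')
  obtain ⟨c, K, hc, hK, hH⟩ := yLaw_HLaw h0 h1
  have hlaw : IsLaw (yLaw x) := hH.law
  refine ⟨ecr (vc x) * (K + 1), by positivity, fun m hm => ?_⟩
  have e1 : ZF (ENNReal.ofReal x) (ENNReal.ofReal (yc x)) (fun F => m ≤ fsz F) ≤
      ∑' N : ℕ, ZF (ENNReal.ofReal x) (ENNReal.ofReal (yc x)) (fun F => fsz F = N + m) := by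
    classical
    have e2 : ∀ N : ℕ, ZF (ENNReal.ofReal x) (ENNReal.ofReal (yc x)) (fun F => fsz F = N + m) =
        ∑' F : FN, if fsz F = N + m then
          fwt (ENNReal.ofReal x) (ENNReal.ofReal (yc x)) F else 0 := by
      intro N
      rw [ZF]
      refine tsum_congr fun F => ?_
      by_cases h : fsz F = N + m
      · rw [if_pos h, if_pos h]
      · rw [if_neg h, if_neg h]
    rw [tsum_congr e2, ENNReal.tsum_comm, ZF]
    refine ENNReal.tsum_le_tsum fun F => ?_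
    by_cases h : m ≤ fsz F
    · rw [if_pos h]
      refine le_trans (le_of_eq ?_) (ENNReal.le_tsum (fsz F - m))
      rw [if_pos (by omega)]
    · rw [if_neg h]
      exact zero_le
  refine e1.trans ?_
  have hnn : ∀ N, 0 ≤ YS x (yc x) N := by
    intro N
    have h2 := hlaw.nonneg N
    have h3 : YS x (yc x) N = yLaw x N * ecr (vc x) := by
      unfold yLaw
      field_simp
    rw [h3]
    positivity
  have hYS : (fun N => YS x (yc x) (N + m)) = fun N => ecr (vc x) * yLaw x (N + m) := by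
    funext N
    unfold yLaw
    field_simp
  have hsum : Summable fun N => YS x (yc x) (N + m) := by
    rw [hYS]
    exact ((summable_nat_add_iff m).2 hlaw.summable).mul_left _
  have e3 : ∀ N : ℕ, ZF (ENNReal.ofReal x) (ENNReal.ofReal (yc x)) (fun F => fsz F = N + m) =
      ENNReal.ofReal (YS x (yc x) (N + m)) := fun N =>
    ZF_size h0 (yc_pos h0 h1') (Ag_ne_top h0 h1') (N + m)
  rw [tsum_congr e3, ← ENNReal.ofReal_tsum_of_nonneg (fun N => hnn _) hsum]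
  apply ENNReal.ofReal_le_ofReal
  rw [hYS, tsum_mul_left, mul_assoc]
  refine mul_le_mul_of_nonneg_left ?_ he0.le
  have h5 := hH.ht.tail m hm
  have h6 : 0 ≤ (m : ℝ) ^ (-(3 / 2) : ℝ) := by positivity
  unfold Pool.Agent.DiamP.tl at h5
  linarith

/-- asymptotics -/
private theorem PartOk_asym {c M : ℝ} (hc : 0 < c) (hM : 0 < M) : ∃ j0 : ℕ, ∀ j : ℕ, j0 ≤ j →
    M * (j : ℝ) ^ 2 * Real.exp (-((⌊(j : ℝ) ^ (21 / 100 : ℝ)⌋₊ : ℝ)) ^ c) ≤ 1 / 16 := by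
  obtain ⟨p, hp⟩ : ∃ p : ℝ, p = 200 / (21 * c) := ⟨_, rfl⟩
  have hp0 : 0 < p := by rw [hp]; positivity
  obtain ⟨Q, hQ⟩ : ∃ Q : ℝ, Q = (2 : ℝ) ^ (c * p) := ⟨_, rfl⟩
  have hQ0 : 0 < Q := by rw [hQ]; positivity
  have t1 : Tendsto (fun j : ℕ => (j : ℝ) ^ (21 / 100 : ℝ)) atTop atTop :=
    (tendsto_rpow_atTop (by norm_num : (0 : ℝ) < 21 / 100)).comp tendsto_natCast_atTop_atTop
  have t2 : Tendsto (fun j : ℕ => ((j : ℝ) ^ (21 / 100 : ℝ) / 2) ^ c) atTop atTop :=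
    (tendsto_rpow_atTop hc).comp (t1.atTop_div_const (by norm_num))
  have t3 := (tendsto_rpow_mul_exp_neg_mul_atTop_nhds_zero p 1 one_pos).comp t2
  have ev1 := t3.eventually (gt_mem_nhds (show (0 : ℝ) < 1 / (16 * (M * Q)) by positivity))
  have ev2 := t1.eventually (eventually_ge_atTop 2)
  obtain ⟨j0, hj0⟩ := eventually_atTop.1 (ev1.and ev2)
  refine ⟨j0, fun j hj => ?_⟩
  obtain ⟨h3, h4⟩ := hj0 j hj
  simp only [Function.comp] at h3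
  obtain ⟨s, hs⟩ : ∃ s : ℝ, s = (j : ℝ) ^ (21 / 100 : ℝ) := ⟨_, rfl⟩
  rw [← hs] at h3 h4 ⊢
  have hs0 : 0 < s := by linarith
  have hfl : s / 2 ≤ (⌊s⌋₊ : ℝ) := by
    have := Nat.lt_floor_add_one s
    linarith
  have hj2 : (j : ℝ) ^ 2 = Q * ((s / 2) ^ c) ^ p := by
    rw [← Real.rpow_mul (by positivity), hQ, ← Real.mul_rpow (by norm_num) (by positivity)]
    have e1 : 2 * (s / 2) = s := by ring
    rw [e1, hs, ← Real.rpow_mul (by positivity), hp, ← Real.rpow_natCast]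
    congr 1
    push_cast
    field_simp
    norm_num
  have hexp : Real.exp (-((⌊s⌋₊ : ℝ)) ^ c) ≤ Real.exp (-1 * (s / 2) ^ c) := by
    apply Real.exp_le_exp.2
    have := Real.rpow_le_rpow (by positivity) hfl hc.le
    linarith
  have h6 : 0 < ((s / 2) ^ c) ^ p := by positivity
  calc M * (j : ℝ) ^ 2 * Real.exp (-((⌊s⌋₊ : ℝ)) ^ c)
      ≤ M * (j : ℝ) ^ 2 * Real.exp (-1 * (s / 2) ^ c) :=
        mul_le_mul_of_nonneg_left hexp (by positivity)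
    _ = M * Q * (((s / 2) ^ c) ^ p * Real.exp (-1 * (s / 2) ^ c)) := by rw [hj2]; ring
    _ ≤ M * Q * (1 / (16 * (M * Q))) := mul_le_mul_of_nonneg_left h3.le (by positivity)
    _ = 1 / 16 := by field_simp

private theorem PartOk_asym1 {M : ℝ} (hM : 0 < M) : ∃ j0 : ℕ, 1 ≤ j0 ∧ ∀ j : ℕ, j0 ≤ j →
    M * ((j : ℝ) * ((j : ℝ) ^ (7 / 10 : ℝ)) ^ (-(3 / 2) : ℝ)) ≤ 1 / 16 := by
  have t1 : Tendsto (fun j : ℕ => (j : ℝ) ^ (-(1 / 20) : ℝ)) atTop (𝓝 0) :=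
    (tendsto_rpow_neg_atTop (by norm_num : (0 : ℝ) < 1 / 20)).comp tendsto_natCast_atTop_atTop
  have ev1 := t1.eventually (gt_mem_nhds (show (0 : ℝ) < 1 / (16 * M) by positivity))
  obtain ⟨j0, hj0⟩ := eventually_atTop.1 ev1
  refine ⟨j0 + 1, by omega, fun j hj => ?_⟩
  have h3 := hj0 j (by omega)
  have hj : (0 : ℝ) < (j : ℝ) := by
    have : 0 < j := by omega
    exact_mod_cast this
  have e1 : (j : ℝ) * ((j : ℝ) ^ (7 / 10 : ℝ)) ^ (-(3 / 2) : ℝ) = (j : ℝ) ^ (-(1 / 20) : ℝ) := by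
    rw [← Real.rpow_mul hj.le]
    nth_rewrite 1 [← Real.rpow_one (j : ℝ)]
    rw [← Real.rpow_add hj]
    norm_num
  rw [e1]
  calc M * (j : ℝ) ^ (-(1 / 20) : ℝ) ≤ M * (1 / (16 * M)) :=
        mul_le_mul_of_nonneg_left h3.le hM.le
    _ = 1 / 16 := by field_simp

private theorem PartOk_asym2 : ∃ j0 : ℕ, 1 ≤ j0 ∧ ∀ j : ℕ, j0 ≤ j → ∀ N : ℕ,
    (N : ℝ) ≤ 1 + (j : ℝ) ^ (7 / 10 : ℝ) →
    (N : ℝ) ^ (1 / 4 + 1 / 25 : ℝ) ≤ (j : ℝ) ^ (21 / 100 : ℝ) := by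
  have t1 : Tendsto (fun j : ℕ => (j : ℝ) ^ (7 / 1000 : ℝ)) atTop atTop :=
    (tendsto_rpow_atTop (by norm_num : (0 : ℝ) < 7 / 1000)).comp tendsto_natCast_atTop_atTop
  have ev1 := t1.eventually (eventually_ge_atTop 2)
  obtain ⟨j0, hj0⟩ := eventually_atTop.1 ev1
  refine ⟨j0 + 1, by omega, fun j hj N hN => ?_⟩
  have h3 := hj0 j (by omega)
  have hj1 : (1 : ℝ) ≤ (j : ℝ) := by
    have : 1 ≤ j := by omega
    exact_mod_cast this
  have hj0' : (0 : ℝ) < (j : ℝ) := by linarith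
  have h4 : (1 : ℝ) ≤ (j : ℝ) ^ (7 / 10 : ℝ) := Real.one_le_rpow hj1 (by norm_num)
  have h5 : (N : ℝ) ≤ 2 * (j : ℝ) ^ (7 / 10 : ℝ) := by linarith
  calc (N : ℝ) ^ (1 / 4 + 1 / 25 : ℝ) ≤ (2 * (j : ℝ) ^ (7 / 10 : ℝ)) ^ (1 / 4 + 1 / 25 : ℝ) :=
        Real.rpow_le_rpow (by positivity) h5 (by norm_num)
    _ = 2 ^ (1 / 4 + 1 / 25 : ℝ) * (j : ℝ) ^ (203 / 1000 : ℝ) := by
        rw [Real.mul_rpow (by norm_num) (by positivity), ← Real.rpow_mul hj0'.le]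
        norm_num
    _ ≤ (j : ℝ) ^ (7 / 1000 : ℝ) * (j : ℝ) ^ (203 / 1000 : ℝ) := by
        refine mul_le_mul_of_nonneg_right (le_trans ?_ h3) (by positivity)
        calc (2 : ℝ) ^ (1 / 4 + 1 / 25 : ℝ) ≤ 2 ^ (1 : ℝ) :=
              Real.rpow_le_rpow_of_exponent_le (by norm_num) (by norm_num)
          _ = 2 := Real.rpow_one 2
    _ = (j : ℝ) ^ (21 / 100 : ℝ) := by
        rw [← Real.rpow_add hj0']
        norm_num

theorem parts_ok (h0 : 0 < x) (h1 : x ≤ 1 / 10) : ∃ j0 : ℕ, ∀ (I : Type) [Fintype I],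
    j0 ≤ Fintype.card I →
    ZG (ENNReal.ofReal x) (ENNReal.ofReal (yc x)) (fun g : I → FN =>
      ∃ i, ((Fintype.card I : ℕ) : ℝ) ^ (21 / 100 : ℝ) < (fec (g i) : ℝ)) ≤
      ENNReal.ofReal (ecr (vc x) ^ Fintype.card I / 8) := by
  have h1' : x < 1 := by linarith
  have hD0 : 0 < ecr (vc x) := ecr_pos (vc_pos h0 h1') (vc_lt_one h0 h1')
  have hy := yc_pos h0 h1'
  obtain ⟨K, hK, hKt⟩ := ZF_sz_tail h0 h1
  obtain ⟨c, hc, n0, hn0, hT⟩ := tree_huge h0 h1' (1 / 25) (by norm_num)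
  obtain ⟨D, hD⟩ : ∃ D, D = ecr (vc x) := ⟨_, rfl⟩
  have hZD := ZF_D h0 h1
  rw [← hD] at hD0 hZD
  obtain ⟨j1, hj1, hJ1⟩ := PartOk_asym1 (M := K / D) (by positivity)
  obtain ⟨j2, hj2, hJ2⟩ := PartOk_asym2
  obtain ⟨j3, hJ3⟩ := PartOk_asym (c := c) (M := 3 / (x ^ 2 * yc x * D)) hc (by positivity)
  have t1 : Tendsto (fun j : ℕ => (j : ℝ) ^ (21 / 100 : ℝ)) atTop atTop :=
    (tendsto_rpow_atTop (by norm_num : (0 : ℝ) < 21 / 100)).comp tendsto_natCast_atTop_atTop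
  obtain ⟨j4, hJ4⟩ := eventually_atTop.1 (t1.eventually (eventually_ge_atTop (n0 : ℝ)))
  refine ⟨j1 + j2 + j3 + j4, ?_⟩
  intro I _ hI
  obtain ⟨j, hj⟩ : ∃ j, j = Fintype.card I := ⟨_, rfl⟩
  rw [← hD]
  have g1 := hJ1 j (by omega)
  have g2 := hJ2 j (by omega)
  have g3 := hJ3 j (by omega)
  have g4 := hJ4 j (by omega)
  have hjpos : 1 ≤ j := by omega
  have hj1' : (1 : ℝ) ≤ (j : ℝ) := by exact_mod_cast hjpos
  have hj0' : (0 : ℝ) < (j : ℝ) := by linarith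
  have hDj : D ^ (j - 1) = D ^ j / D := by
    rw [eq_div_iff hD0.ne', ← pow_succ]
    congr 1
    omega
  -- the two events
  have hsplit : ZG (ENNReal.ofReal x) (ENNReal.ofReal (yc x)) (fun g : I → FN =>
      ∃ i, (j : ℝ) ^ (21 / 100 : ℝ) < (fec (g i) : ℝ)) ≤
      ZG (ENNReal.ofReal x) (ENNReal.ofReal (yc x)) (fun g : I → FN =>
        ∃ i, ⌊(j : ℝ) ^ (7 / 10 : ℝ)⌋₊ + 1 ≤ fsz (g i)) +
      ZG (ENNReal.ofReal x) (ENNReal.ofReal (yc x)) (fun g : I → FN =>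
        ∃ i, (fsz (g i) : ℝ) ≤ (j : ℝ) ^ (7 / 10 : ℝ) ∧
          (j : ℝ) ^ (21 / 100 : ℝ) < (fec (g i) : ℝ)) := by
    refine le_trans (ZG_mono fun g hg => ?_) (ZG_or _ _)
    obtain ⟨i, hi⟩ := hg
    by_cases h : (fsz (g i) : ℝ) ≤ (j : ℝ) ^ (7 / 10 : ℝ)
    · exact Or.inr ⟨i, h, hi⟩
    · push Not at h
      refine Or.inl ⟨i, ?_⟩
      have := (Nat.floor_lt (by positivity)).2 h
      omega
  have hA : ZG (ENNReal.ofReal x) (ENNReal.ofReal (yc x)) (fun g : I → FN =>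
        ∃ i, ⌊(j : ℝ) ^ (7 / 10 : ℝ)⌋₊ + 1 ≤ fsz (g i)) ≤ ENNReal.ofReal (D ^ j / 16) := by
    refine (ZG_exists (I := I)
      (fun F : FN => ⌊(j : ℝ) ^ (7 / 10 : ℝ)⌋₊ + 1 ≤ fsz F)).trans ?_
    rw [← hj, hZD]
    have e1 : ZF (ENNReal.ofReal x) (ENNReal.ofReal (yc x))
        (fun F => ⌊(j : ℝ) ^ (7 / 10 : ℝ)⌋₊ + 1 ≤ fsz F) ≤
        ENNReal.ofReal (K * ((j : ℝ) ^ (7 / 10 : ℝ)) ^ (-(3 / 2) : ℝ)) := by
      refine (hKt _ (by omega)).trans (ENNReal.ofReal_le_ofReal ?_)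
      refine mul_le_mul_of_nonneg_left ?_ hK.le
      refine Real.rpow_le_rpow_of_nonpos (by positivity) ?_ (by norm_num)
      push_cast
      exact (Nat.lt_floor_add_one _).le
    calc (j : ℝ≥0∞) * (ZF (ENNReal.ofReal x) (ENNReal.ofReal (yc x))
          (fun F => ⌊(j : ℝ) ^ (7 / 10 : ℝ)⌋₊ + 1 ≤ fsz F) * ENNReal.ofReal D ^ (j - 1))
        ≤ (j : ℝ≥0∞) * (ENNReal.ofReal (K * ((j : ℝ) ^ (7 / 10 : ℝ)) ^ (-(3 / 2) : ℝ)) *
          ENNReal.ofReal D ^ (j - 1)) := by gcongr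
      _ = ENNReal.ofReal ((j : ℝ) * (K * ((j : ℝ) ^ (7 / 10 : ℝ)) ^ (-(3 / 2) : ℝ) *
          D ^ (j - 1))) := by
        rw [ENNReal.ofReal_mul hj0'.le, ENNReal.ofReal_natCast,
          ENNReal.ofReal_mul (by positivity : (0 : ℝ) ≤
            K * ((j : ℝ) ^ (7 / 10 : ℝ)) ^ (-(3 / 2) : ℝ)), ENNReal.ofReal_pow hD0.le]
      _ ≤ ENNReal.ofReal (D ^ j / 16) := by
        apply ENNReal.ofReal_le_ofReal
        rw [hDj]
        calc (j : ℝ) * (K * ((j : ℝ) ^ (7 / 10 : ℝ)) ^ (-(3 / 2) : ℝ) * (D ^ j / D))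
            = (K / D * ((j : ℝ) * ((j : ℝ) ^ (7 / 10 : ℝ)) ^ (-(3 / 2) : ℝ))) * D ^ j := by ring
          _ ≤ 1 / 16 * D ^ j := mul_le_mul_of_nonneg_right g1 (by positivity)
          _ = D ^ j / 16 := by ring
  have hB : ZG (ENNReal.ofReal x) (ENNReal.ofReal (yc x)) (fun g : I → FN =>
        ∃ i, (fsz (g i) : ℝ) ≤ (j : ℝ) ^ (7 / 10 : ℝ) ∧
          (j : ℝ) ^ (21 / 100 : ℝ) < (fec (g i) : ℝ)) ≤ ENNReal.ofReal (D ^ j / 16) := by
    refine (ZG_exists (I := I) (fun F : FN => (fsz F : ℝ) ≤ (j : ℝ) ^ (7 / 10 : ℝ) ∧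
      (j : ℝ) ^ (21 / 100 : ℝ) < (fec F : ℝ))).trans ?_
    rw [← hj, hZD]
    obtain ⟨n, hn⟩ : ∃ n, n = ⌊(j : ℝ) ^ (21 / 100 : ℝ)⌋₊ := ⟨_, rfl⟩
    rw [← hn] at g3
    have hnn0 : n0 ≤ n := by
      rw [hn]
      exact Nat.le_floor g4
    obtain ⟨W, hW⟩ : ∃ W : Finset ℕ, W = Finset.Icc n (1 + ⌊(j : ℝ) ^ (7 / 10 : ℝ)⌋₊) := ⟨_, rfl⟩
    have hTW := hT n hnn0 W (fun N hN => by
      rw [hW, Finset.mem_Icc] at hN
      exact hN.1)
    have hcard : (W.card : ℝ) ≤ 3 * j := by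
      have h2 : W.card ≤ 2 + ⌊(j : ℝ) ^ (7 / 10 : ℝ)⌋₊ := by
        rw [hW, Nat.card_Icc]
        omega
      have h3 : ((⌊(j : ℝ) ^ (7 / 10 : ℝ)⌋₊ : ℕ) : ℝ) ≤ (j : ℝ) ^ (7 / 10 : ℝ) :=
        Nat.floor_le (by positivity)
      have h4 : (j : ℝ) ^ (7 / 10 : ℝ) ≤ (j : ℝ) ^ (1 : ℝ) :=
        Real.rpow_le_rpow_of_exponent_le hj1' (by norm_num)
      rw [Real.rpow_one] at h4
      have h5 : (W.card : ℝ) ≤ 2 + ((⌊(j : ℝ) ^ (7 / 10 : ℝ)⌋₊ : ℕ) : ℝ) := by exact_mod_cast h2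
      linarith
    have hfs := fmap_sum (ENNReal.ofReal x) (ENNReal.ofReal (yc x))
      (fun N r => if N ∈ W ∧ (N : ℝ) ^ (1 / 4 + 1 / 25 : ℝ) ≤ (r : ℝ) then 1 else 0)
    have hZ : ENNReal.ofReal (x ^ 2 * yc x) * ZF (ENNReal.ofReal x) (ENNReal.ofReal (yc x))
        (fun F : FN => (fsz F : ℝ) ≤ (j : ℝ) ^ (7 / 10 : ℝ) ∧
          (j : ℝ) ^ (21 / 100 : ℝ) < (fec F : ℝ)) ≤
        ENNReal.ofReal (3 * j * Real.exp (-(n : ℝ) ^ c)) := by
      have e1 : ENNReal.ofReal (x ^ 2 * yc x) = ENNReal.ofReal x ^ 2 * ENNReal.ofReal (yc x) := by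
        rw [ENNReal.ofReal_mul (by positivity), ENNReal.ofReal_pow h0.le]
      rw [e1]
      refine le_trans (mul_le_mul_right ?_ _) (hfs.trans (hTW.trans ?_))
      · rw [ZF]
        refine ENNReal.tsum_le_tsum fun F => ?_
        by_cases hF : (fsz F : ℝ) ≤ (j : ℝ) ^ (7 / 10 : ℝ) ∧
          (j : ℝ) ^ (21 / 100 : ℝ) < (fec F : ℝ)
        · rw [if_pos hF]
          obtain ⟨hF1, hF2⟩ := hF
          have hE : fec F ≤ 1 + fsz F := by
            rw [← fmap_E]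
            exact ecc_le_E (fmap_ok F).1 _
          have hE' : (fec F : ℝ) ≤ ((1 + fsz F : ℕ) : ℝ) := by exact_mod_cast hE
          have hmem : 1 + fsz F ∈ W := by
            rw [hW, Finset.mem_Icc]
            constructor
            · rw [hn]
              have h3 : (j : ℝ) ^ (21 / 100 : ℝ) ≤ ((1 + fsz F : ℕ) : ℝ) := by linarith
              exact Nat.floor_le_of_le h3
            · have := Nat.le_floor hF1
              omega
          have hpow : ((1 + fsz F : ℕ) : ℝ) ^ (1 / 4 + 1 / 25 : ℝ) ≤ (fec F : ℝ) := by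
            refine le_trans (g2 (1 + fsz F) ?_) hF2.le
            push_cast
            linarith
          rw [if_pos ⟨hmem, hpow⟩, mul_one]
        · rw [if_neg hF]
          exact zero_le
      · apply ENNReal.ofReal_le_ofReal
        exact mul_le_mul_of_nonneg_right hcard (Real.exp_pos _).le
    have hZ' : ZF (ENNReal.ofReal x) (ENNReal.ofReal (yc x))
        (fun F : FN => (fsz F : ℝ) ≤ (j : ℝ) ^ (7 / 10 : ℝ) ∧
          (j : ℝ) ^ (21 / 100 : ℝ) < (fec F : ℝ)) ≤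
        ENNReal.ofReal (3 * j * Real.exp (-(n : ℝ) ^ c) / (x ^ 2 * yc x)) := by
      rw [ENNReal.ofReal_div_of_pos (by positivity), ENNReal.le_div_iff_mul_le, mul_comm]
      · exact hZ
      · left
        rw [Ne, ENNReal.ofReal_eq_zero, not_le]
        positivity
      · left
        exact ENNReal.ofReal_ne_top
    calc (j : ℝ≥0∞) * (ZF (ENNReal.ofReal x) (ENNReal.ofReal (yc x))
          (fun F : FN => (fsz F : ℝ) ≤ (j : ℝ) ^ (7 / 10 : ℝ) ∧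
          (j : ℝ) ^ (21 / 100 : ℝ) < (fec F : ℝ)) * ENNReal.ofReal D ^ (j - 1))
        ≤ (j : ℝ≥0∞) * (ENNReal.ofReal (3 * j * Real.exp (-(n : ℝ) ^ c) / (x ^ 2 * yc x)) *
          ENNReal.ofReal D ^ (j - 1)) := by gcongr
      _ = ENNReal.ofReal ((j : ℝ) * (3 * j * Real.exp (-(n : ℝ) ^ c) / (x ^ 2 * yc x) *
          D ^ (j - 1))) := by
        rw [ENNReal.ofReal_mul hj0'.le, ENNReal.ofReal_natCast,
          ENNReal.ofReal_mul (by positivity : (0 : ℝ) ≤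
            3 * j * Real.exp (-(n : ℝ) ^ c) / (x ^ 2 * yc x)), ENNReal.ofReal_pow hD0.le]
      _ ≤ ENNReal.ofReal (D ^ j / 16) := by
        apply ENNReal.ofReal_le_ofReal
        rw [hDj]
        calc (j : ℝ) * (3 * j * Real.exp (-(n : ℝ) ^ c) / (x ^ 2 * yc x) * (D ^ j / D))
            = (3 / (x ^ 2 * yc x * D) * (j : ℝ) ^ 2 * Real.exp (-(n : ℝ) ^ c)) * D ^ j := by
              field_simp
          _ ≤ 1 / 16 * D ^ j := mul_le_mul_of_nonneg_right g3 (by positivity)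
          _ = D ^ j / 16 := by ring
  rw [← hj]
  refine hsplit.trans ((add_le_add hA hB).trans (le_of_eq ?_))
  rw [← ENNReal.ofReal_add (by positivity) (by positivity)]
  congr 1
  ring

end Dia
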