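import Pool.Agent.DiaC.RTail

/-!
# Module PathOk: distances in the composite are at most `C1` times the distances in the core

`X = ofReal x`, `Y = ofReal (yc x)`, `D = ecr (vc x)`, `j = gE c = card I` (`core_card_I`), `d = gdm c`
`= (bR core).dm` (`core_dm`), `L = log (j + 1) ≥ log 2 > 1/2`.
For every pair `t, t'` of darts of the core take `S` of `dd_path` (`S.card ≤ dd t t' ≤ d`), `S'` = the elements `i` with
`some i ∈ S` (`Finset.eraseNone`), `S'.card ≤ d`; the distance in the composite is at most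
`1 + ∑_{i ∈ S'} fpd (g i)`.  If it is `> C1 (d + L)` then `a ≤ ∑_{i ∈ S'} fpd (g i)` with
`a = ⌈(C1 - 2)(d + L)⌉` (`1 ≤ 2 (d + L)`), so by `ZG_chern` (`q`, `K` of `fpd_exp`, `q > 1`, `K ≥ 1`) the weight is at most
`q^(-(C1 - 2)(d + L)) K^d D^j` (`(K D)^k D^(j-k) ≤ K^d D^j`, `k ≤ min d j`).
Union over the `(2j + 2)^2 ≤ 4 exp (2 L)` pairs (`ZG_union`; the darts of the core are the darts of a map with
`j + 1` edges): total `≤ 4 exp(2L) q^(-(C1-2)(d+L)) K^d D^j ≤ D^j / 8` if `q^(C1 - 2) ≥ K exp(2) 32^2`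
(`(d + L) ≥ 1/2`, `32^(-2 (d+L)) ≤ 1/32`).
-/

set_option linter.unusedSectionVars false

namespace Dia
open Equiv Finset PGr
open scoped ENNReal

variable {x : ℝ}

private theorem sum_option_le {I : Type} (S : Finset (Option I)) (f : I → ℕ) :
    ∑ o ∈ S, o.elim 1 f ≤ 1 + ∑ i ∈ Finset.eraseNone S, f i := by
  classical
  have h1 : ∑ o ∈ S, o.elim 1 f ≤ ∑ o ∈ insert none S, o.elim 1 f :=
    Finset.sum_le_sum_of_subset (Finset.subset_insert _ _)
  refine h1.trans (le_of_eq ?_)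
  rw [← Finset.insertNone_eraseNone, Finset.sum_insertNone]
  rfl

private theorem num_bound {q K C1 d L D : ℝ} {a : ℕ} (hq : 1 < q) (hK : 1 ≤ K) (hd : 0 ≤ d)
    (hL : 1 / 2 ≤ L) (hD : 0 < D) (hC : C1 = 2 + Real.log (K * Real.exp 2 * 32 ^ 2) / Real.log q)
    (ha : (C1 - 2) * (d + L) ≤ a) :
    K ^ d * D / q ^ a ≤ D * Real.exp (-(2 * L)) / 32 := by
  have hlq : 0 < Real.log q := Real.log_pos hq
  have hK0 : 0 < K := by linarith
  have hM : 0 < K * Real.exp 2 * 32 ^ 2 := by positivity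
  have h1 : q ^ ((C1 - 2) * (d + L)) ≤ q ^ a := by
    rw [← Real.rpow_natCast q a]
    exact Real.rpow_le_rpow_of_exponent_le hq.le ha
  have h2 : q ^ ((C1 - 2) * (d + L)) = (K * Real.exp 2 * 32 ^ 2) ^ (d + L) := by
    rw [Real.rpow_mul (by linarith)]
    congr 1
    rw [hC, add_sub_cancel_left, Real.rpow_def_of_pos (by linarith),
      mul_div_cancel₀ _ hlq.ne', Real.exp_log hM]
  have h3 : K ^ d * Real.exp (2 * L) * 32 ≤ (K * Real.exp 2 * 32 ^ 2) ^ (d + L) := by
    rw [Real.mul_rpow (by positivity) (by positivity), Real.mul_rpow hK0.le (Real.exp_pos _).le]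
    have e1 : K ^ d ≤ K ^ (d + L) := Real.rpow_le_rpow_of_exponent_le hK (by linarith)
    have e2 : Real.exp (2 * L) ≤ Real.exp 2 ^ (d + L) := by
      rw [← Real.exp_mul]
      exact Real.exp_le_exp.2 (by linarith)
    have e3 : (32 : ℝ) ≤ (32 ^ 2) ^ (d + L) := by
      have : (32 : ℝ) = (32 ^ 2) ^ (1 / 2 : ℝ) := by
        rw [← Real.sqrt_eq_rpow, Real.sqrt_sq (by norm_num)]
      calc (32 : ℝ) = (32 ^ 2) ^ (1 / 2 : ℝ) := this
        _ ≤ (32 ^ 2) ^ (d + L) :=
          Real.rpow_le_rpow_of_exponent_le (by norm_num) (by linarith)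
    exact mul_le_mul (mul_le_mul e1 e2 (Real.exp_pos _).le (by positivity)) e3 (by norm_num)
      (by positivity)
  have h4 : K ^ d * Real.exp (2 * L) * 32 ≤ q ^ a := h3.trans (h2 ▸ h1)
  have hqa : 0 < q ^ a := by positivity
  rw [div_le_iff₀ hqa, Real.exp_neg]
  have h5 : 0 < Real.exp (2 * L) := Real.exp_pos _
  have h6 : D * (Real.exp (2 * L))⁻¹ / 32 * (K ^ d * Real.exp (2 * L) * 32) = K ^ d * D := by
    field_simp
  rw [← h6]
  exact mul_le_mul_of_nonneg_left h4 (by positivity)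

theorem path_ok (h0 : 0 < x) (h1 : x ≤ 1 / 10) : ∃ C1 : ℝ, 0 < C1 ∧ ∀ c : GC, 1 ≤ gE c →
    ZG (ENNReal.ofReal x) (ENNReal.ofReal (yc x)) (fun g : (ESum.core c).I → FN =>
      ∃ t t', C1 * ((gdm c : ℝ) + Real.log ((gE c : ℝ) + 1)) <
        ((bigM c g).dd (phM c g t) (phM c g t') : ℝ)) ≤
      ENNReal.ofReal (ecr (vc x) ^ gE c / 8) := by
  classical
  have hx1 : x < 1 := by linarith
  have hD := ecr_vc_pos h0 hx1
  obtain ⟨q, K, hq, hK, hE⟩ := fpd_exp h0 h1
  have hK0 : 0 < K := by linarith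
  have hM : 1 ≤ K * Real.exp 2 * 32 ^ 2 := by
    have h3 : 1 ≤ Real.exp 2 := Real.one_le_exp (by norm_num)
    nlinarith
  set C1 : ℝ := 2 + Real.log (K * Real.exp 2 * 32 ^ 2) / Real.log q with hC1
  have hC2 : 0 ≤ C1 - 2 := by
    rw [hC1, add_sub_cancel_left]
    exact div_nonneg (Real.log_nonneg hM) (Real.log_pos hq).le
  refine ⟨C1, by linarith, fun c hc => ?_⟩
  set L : ℝ := Real.log ((gE c : ℝ) + 1) with hL
  have hc' : (1 : ℝ) ≤ gE c := by exact_mod_cast hc
  have hL2 : 1 / 2 ≤ L := by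
    have h3 : Real.log 2 ≤ L := Real.log_le_log (by norm_num) (by linarith)
    have := Real.log_two_gt_d9
    linarith
  have heL : Real.exp L = (gE c : ℝ) + 1 := Real.exp_log (by linarith)
  set d : ℝ := (gdm c : ℝ) with hd
  have hd0 : 0 ≤ d := Nat.cast_nonneg _
  set a : ℕ := ⌈(C1 - 2) * (d + L)⌉₊ with ha
  have ha1 : (C1 - 2) * (d + L) ≤ a := Nat.le_ceil _
  -- one pair
  have key : ∀ p : (ESum.core c).toB.T × (ESum.core c).toB.T,
      ZG (ENNReal.ofReal x) (ENNReal.ofReal (yc x)) (fun g : (ESum.core c).I → FN =>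
        C1 * (d + L) < ((bigM c g).dd (phM c g p.1) (phM c g p.2) : ℝ)) ≤
      ENNReal.ofReal (ecr (vc x) ^ gE c * Real.exp (-(2 * L)) / 32) := by
    intro p
    obtain ⟨S, hS1, hS2⟩ := dd_path c p.1 p.2
    have hS3 : S.card ≤ gdm c := by
      refine hS1.trans ?_
      rw [← core_dm]
      exact (dd_le_ecc (M := bR (ESum.core c).toB) p.1 p.2).trans (ecc_le_dm _)
    set S' := Finset.eraseNone S with hS'
    have hS4 : S'.card ≤ gdm c := (Finset.card_eraseNone_le S).trans hS3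
    have hS5 : S'.card ≤ Fintype.card (ESum.core c).I := Finset.card_le_univ _
    rw [core_card_I] at hS5
    have hmono : ZG (ENNReal.ofReal x) (ENNReal.ofReal (yc x)) (fun g : (ESum.core c).I → FN =>
        C1 * (d + L) < ((bigM c g).dd (phM c g p.1) (phM c g p.2) : ℝ)) ≤
        ZG (ENNReal.ofReal x) (ENNReal.ofReal (yc x)) (fun g : (ESum.core c).I → FN =>
          a ≤ ∑ i ∈ S', fpd (g i)) := by
      refine ZG_mono fun g hg => ?_
      have h3 := (hS2 g).trans (sum_option_le S fun i => fpd (g i))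
      have h4 : ((bigM c g).dd (phM c g p.1) (phM c g p.2) : ℝ) ≤
          1 + ((∑ i ∈ S', fpd (g i) : ℕ) : ℝ) := by exact_mod_cast h3
      rw [ha, Nat.ceil_le]
      nlinarith
    refine hmono.trans ?_
    have hq1 : (1 : ℝ≥0∞) ≤ ENNReal.ofReal q := by
      rw [← ENNReal.ofReal_one]
      exact ENNReal.ofReal_le_ofReal hq.le
    have hch := ZG_chern (x := ENNReal.ofReal x) (y := ENNReal.ofReal (yc x)) hq1 S' fpd a
    rw [core_card_I, ZF_D h0 h1] at hch
    have h5 : (∑' F : FN, fwt (ENNReal.ofReal x) (ENNReal.ofReal (yc x)) F *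
        ENNReal.ofReal q ^ fpd F) ^ S'.card * ENNReal.ofReal (ecr (vc x)) ^ (gE c - S'.card) ≤
        ENNReal.ofReal (K ^ (d : ℝ) * ecr (vc x) ^ gE c) := by
      calc _ ≤ ENNReal.ofReal (K * ecr (vc x)) ^ S'.card *
            ENNReal.ofReal (ecr (vc x)) ^ (gE c - S'.card) := by gcongr
        _ = ENNReal.ofReal (K ^ S'.card * ecr (vc x) ^ gE c) := by
            rw [← ENNReal.ofReal_pow (by positivity), ← ENNReal.ofReal_pow hD.le,
              ← ENNReal.ofReal_mul (by positivity)]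
            congr 1
            rw [mul_pow, mul_assoc, ← pow_add, Nat.add_sub_cancel' hS5]
        _ ≤ _ := by
            refine ENNReal.ofReal_le_ofReal (mul_le_mul_of_nonneg_right ?_ (by positivity))
            rw [← Real.rpow_natCast K S'.card]
            exact Real.rpow_le_rpow_of_exponent_le hK (by rw [hd]; exact_mod_cast hS4)
    have h6 := hch.trans h5
    have hqa : 0 < q ^ a := by positivity
    rw [← ENNReal.ofReal_pow (by linarith)] at h6
    have h7 : ZG (ENNReal.ofReal x) (ENNReal.ofReal (yc x)) (fun g : (ESum.core c).I → FN =>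
        a ≤ ∑ i ∈ S', fpd (g i)) ≤
        ENNReal.ofReal (K ^ (d : ℝ) * ecr (vc x) ^ gE c / q ^ a) := by
      rw [ENNReal.ofReal_div_of_pos hqa, ENNReal.le_div_iff_mul_le
        (Or.inl (by simpa using hqa)) (Or.inl ENNReal.ofReal_ne_top), mul_comm]
      exact h6
    refine h7.trans (ENNReal.ofReal_le_ofReal ?_)
    exact num_bound hq hK hd0 hL2 (by positivity) hC1 ha1
  calc ZG (ENNReal.ofReal x) (ENNReal.ofReal (yc x)) (fun g : (ESum.core c).I → FN =>
      ∃ t t', C1 * (d + L) < ((bigM c g).dd (phM c g t) (phM c g t') : ℝ))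
      ≤ ZG (ENNReal.ofReal x) (ENNReal.ofReal (yc x)) (fun g : (ESum.core c).I → FN =>
        ∃ p ∈ (univ : Finset ((ESum.core c).toB.T × (ESum.core c).toB.T)),
          C1 * (d + L) < ((bigM c g).dd (phM c g p.1) (phM c g p.2) : ℝ)) := by
        refine ZG_mono fun g => ?_
        rintro ⟨t, t', h⟩
        exact ⟨(t, t'), mem_univ _, h⟩
    _ ≤ ∑ p ∈ (univ : Finset ((ESum.core c).toB.T × (ESum.core c).toB.T)),
        ZG (ENNReal.ofReal x) (ENNReal.ofReal (yc x)) (fun g : (ESum.core c).I → FN =>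
          C1 * (d + L) < ((bigM c g).dd (phM c g p.1) (phM c g p.2) : ℝ)) :=
        ZG_union _ _
    _ ≤ ∑ p ∈ (univ : Finset ((ESum.core c).toB.T × (ESum.core c).toB.T)),
        ENNReal.ofReal (ecr (vc x) ^ gE c * Real.exp (-(2 * L)) / 32) :=
        Finset.sum_le_sum fun p _ => key p
    _ = ENNReal.ofReal (ecr (vc x) ^ gE c / 8) := by
        rw [Finset.sum_const, Finset.card_univ, nsmul_eq_mul, ← ENNReal.ofReal_natCast,
          ← ENNReal.ofReal_mul (Nat.cast_nonneg _)]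
        congr 1
        have h8 : Fintype.card (ESum.core c).toB.T = 2 * (gE c + 1) := by
          show Fintype.card (((ESum.core c).I × Bool) ⊕ Bool) = _
          rw [Fintype.card_sum, Fintype.card_prod, Fintype.card_bool, core_card_I]
          ring
        rw [Fintype.card_prod, h8]
        push_cast
        rw [← heL, Real.exp_neg, show (2 : ℝ) * L = L + L by ring, Real.exp_add]
        have := Real.exp_pos L
        field_simp
        ring

end Dia
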