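import Pool.Agent.DiaC.CoreIneq
import Pool.Agent.DiaC.PathOk
import Pool.Agent.DiaC.PartOk

/-!
# Module DiamS: few rigid maps have a small diameter ((I5), lower bound)

`diam_small`: `P c`: `gE c` in the window, `gdm c ≤ c0 n^(1/4)`; `Eg c`: the event of `sum_window`, and not the event of
`path_ok`, and not the event of `parts_ok`; its weight is at least `D^j (1/2 - 1/8 - 1/8) = D^j / 4` (`ZG_compl`, `ZG_or`;
all weights are finite; it is convenient to write `ZG A ≤ ZG (A ∧ ¬B ∧ ¬C) + ZG B + ZG C`).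
On this event by `big_ecc` with `B = ⌊C1 (d + log (j+1))⌋`, `H = ⌊j^0.21⌋`:
`ecc ≤ C1 (c0 n^(1/4) + log (2n + 1)) + (2n)^0.21 ≤ 2 C1 c0 n^(1/4) ≤ c n^(1/4)` for `n ≥ n0(c0)`, with `c` of
`tree_small`, `c0 = c / (2 C1)`.
`Ψ N r = if N ∈ W ∧ r ≤ c n^(1/4) then 1 else 0`, `window_sizes`, `tau_ineq` (`κ = 1/4`).
-/

set_option linter.unusedSectionVars false

namespace Dia
open Equiv Finset PGr
open scoped ENNReal

variable {x : ℝ}

/-- removing two bad events -/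
theorem DiamS_ZG_le {x y : ℝ≥0∞} {I : Type} [Fintype I] (A B C : (I → FN) → Prop) :
    ZG x y A ≤ ZG x y (fun g => A g ∧ ¬ B g ∧ ¬ C g) + (ZG x y B + ZG x y C) := by
  classical
  rw [ZG, ZG, ZG, ZG, ← ENNReal.tsum_add, ← ENNReal.tsum_add]
  refine ENNReal.tsum_le_tsum fun g => ?_
  by_cases hA : A g
  · by_cases hB : B g
    · rw [if_pos hA, if_pos hB]
      exact le_trans le_self_add le_add_self
    · by_cases hC : C g
      · rw [if_pos hA, if_pos hC]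
        exact le_trans le_add_self le_add_self
      · rw [if_pos hA, if_pos ⟨hA, hB, hC⟩]
        exact le_self_add
  · rw [if_neg hA]
    exact bot_le

theorem DiamS_asym {C1 c : ℝ} (hC : 0 < C1) (hc : 0 < c) : ∃ n0 : ℕ, ∀ n : ℕ, n0 ≤ n → 1 ≤ n →
    C1 * Real.log (2 * n + 1) + (2 * n : ℝ) ^ (21 / 100 : ℝ) ≤ c * (n : ℝ) ^ (1 / 4 : ℝ) := by
  set K : ℝ := 15 * C1 + 2 with hK
  have hK0 : 0 < K := by positivity
  obtain ⟨n0, hn0⟩ := exists_nat_ge ((K / c) ^ 25)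
  refine ⟨n0, fun n hn hn1 => ?_⟩
  have hn1' : (1 : ℝ) ≤ n := by exact_mod_cast hn1
  have hnp : (0 : ℝ) < n := by linarith
  have e1 : K / c ≤ (n : ℝ) ^ (1 / 25 : ℝ) := by
    have e2 : (K / c) ^ 25 ≤ (n : ℝ) := hn0.trans (by exact_mod_cast hn)
    have e3 : 0 ≤ K / c := by positivity
    calc K / c = ((K / c) ^ 25) ^ (1 / 25 : ℝ) := by
          rw [← Real.rpow_natCast, ← Real.rpow_mul e3]
          norm_num
      _ ≤ (n : ℝ) ^ (1 / 25 : ℝ) := Real.rpow_le_rpow (by positivity) e2 (by norm_num)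
  have e4 : K ≤ c * (n : ℝ) ^ (1 / 25 : ℝ) := by
    rwa [div_le_iff₀ hc, mul_comm] at e1
  set u : ℝ := (n : ℝ) ^ (21 / 100 : ℝ) with hu
  have hu0 : 0 < u := Real.rpow_pos_of_pos hnp _
  have e5 : (n : ℝ) ^ (1 / 4 : ℝ) = (n : ℝ) ^ (1 / 25 : ℝ) * u := by
    rw [hu, ← Real.rpow_add hnp]
    norm_num
  have e6 : Real.log (2 * n + 1) ≤ 15 * u := by
    have f1 := Real.log_le_rpow_div (x := 2 * (n : ℝ) + 1) (by positivity)
      (show (0 : ℝ) < 1 / 5 by norm_num)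
    have f2 : (2 * (n : ℝ) + 1) ^ (1 / 5 : ℝ) ≤ 3 * u := by
      calc (2 * (n : ℝ) + 1) ^ (1 / 5 : ℝ) ≤ (3 * n) ^ (1 / 5 : ℝ) :=
            Real.rpow_le_rpow (by positivity) (by linarith) (by norm_num)
        _ = 3 ^ (1 / 5 : ℝ) * (n : ℝ) ^ (1 / 5 : ℝ) := Real.mul_rpow (by norm_num) hnp.le
        _ ≤ 3 * u := by
          have g1 : (3 : ℝ) ^ (1 / 5 : ℝ) ≤ 3 := by
            have := Real.rpow_le_rpow_of_exponent_le (show (1 : ℝ) ≤ 3 by norm_num)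
              (show (1 / 5 : ℝ) ≤ 1 by norm_num)
            rwa [Real.rpow_one] at this
          have g2 : (n : ℝ) ^ (1 / 5 : ℝ) ≤ u :=
            Real.rpow_le_rpow_of_exponent_le hn1' (by norm_num)
          have g3 : 0 ≤ (n : ℝ) ^ (1 / 5 : ℝ) := by positivity
          exact mul_le_mul g1 g2 g3 (by norm_num)
    have f3 : (2 * (n : ℝ) + 1) ^ (1 / 5 : ℝ) / (1 / 5 : ℝ) =
        5 * (2 * (n : ℝ) + 1) ^ (1 / 5 : ℝ) := by ring
    rw [f3] at f1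
    linarith
  have e7 : (2 * n : ℝ) ^ (21 / 100 : ℝ) ≤ 2 * u := by
    rw [Real.mul_rpow (by norm_num) hnp.le]
    have := Real.rpow_le_rpow_of_exponent_le (show (1 : ℝ) ≤ 2 by norm_num)
      (show (21 / 100 : ℝ) ≤ 1 by norm_num)
    rw [Real.rpow_one] at this
    gcongr
  calc C1 * Real.log (2 * n + 1) + (2 * n : ℝ) ^ (21 / 100 : ℝ) ≤ C1 * (15 * u) + 2 * u := by
        gcongr
    _ = K * u := by rw [hK]; ring
    _ ≤ c * (n : ℝ) ^ (1 / 25 : ℝ) * u := by gcongr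
    _ = c * (n : ℝ) ^ (1 / 4 : ℝ) := by rw [e5]; ring

theorem DiamS_div {a b : ℝ} {T : ℝ≥0∞} (ha : 0 < a)
    (h : ENNReal.ofReal a * T ≤ ENNReal.ofReal b) : T ≤ ENNReal.ofReal (b / a) := by
  rw [ENNReal.ofReal_div_of_pos ha, ENNReal.le_div_iff_mul_le (Or.inl (by simpa using ha))
    (Or.inl ENNReal.ofReal_ne_top), mul_comm]
  exact h

/-- the sizes of a family -/
theorem DiamS_sum (c : GC) (g : (ESum.core c).I → FN) : gE c ≤ ∑ i, fsz (g i) := by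
  rw [← core_card_I, Fintype.card_eq_sum_ones]
  exact Finset.sum_le_sum fun i _ => fsz_pos (g i)

theorem diam_small (h0 : 0 < x) (h1 : x ≤ 1 / 10) (δ : ℝ) (hδ : 0 < δ) :
    ∃ c0 : ℝ, 0 < c0 ∧ ∃ n0 : ℕ, ∀ n : ℕ, n0 ≤ n →
      tauS x (fun c => n ≤ gE c ∧ (gE c : ℝ) ≤ n + (n : ℝ) ^ (2 / 3 : ℝ) ∧
        (gdm c : ℝ) ≤ c0 * (n : ℝ) ^ (1 / 4 : ℝ)) ≤
      ENNReal.ofReal (δ * (n : ℝ) ^ (2 / 3 - 5 / 2 : ℝ)) := by
  classical
  have hx1 : x < 1 := by linarith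
  have hy := yc_pos' h0 hx1
  have hD := ecr_vc_pos h0 hx1
  obtain ⟨A, hA, hsum⟩ := sum_window h0 h1
  obtain ⟨b, hb, hwin⟩ := window_sizes (yMu_ge h0 h1) hA
  obtain ⟨C1, hC1, hpath⟩ := path_ok h0 h1
  obtain ⟨j0, hparts⟩ := parts_ok h0 h1
  have hxy : 0 < x ^ 2 * yc x := by positivity
  obtain ⟨k, hk, n1, hn1, htree⟩ := tree_small h0 hx1 (δ * (x ^ 2 * yc x) / (12 * b))
    (by positivity)
  obtain ⟨n2, hn2⟩ := DiamS_asym hC1 (show 0 < k / 2 by positivity)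
  refine ⟨k / (2 * C1), by positivity, max (max n1 j0) (max n2 1), fun n hn => ?_⟩
  have hnn1 : n1 ≤ n := le_trans (le_trans (le_max_left _ _) (le_max_left _ _)) hn
  have hnj0 : j0 ≤ n := le_trans (le_trans (le_max_right _ _) (le_max_left _ _)) hn
  have hnn2 : n2 ≤ n := le_trans (le_trans (le_max_left _ _) (le_max_right _ _)) hn
  have hn1' : 1 ≤ n := le_trans (le_trans (le_max_right _ _) (le_max_right _ _)) hn
  obtain ⟨W, hW1, hW2, hW3⟩ := hwin n hn1'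
  have hn0 : (0 : ℝ) < n := by exact_mod_cast hn1'
  have hn1r : (1 : ℝ) ≤ n := by exact_mod_cast hn1'
  have hm : (n : ℝ) ^ (2 / 3 : ℝ) ≤ n := by
    have := Real.rpow_le_rpow_of_exponent_le hn1r (show (2 / 3 : ℝ) ≤ 1 by norm_num)
    rwa [Real.rpow_one] at this
  have hti := tau_ineq h0 h1 (κ := 1 / 4) (by norm_num) hn1'
    (fun c => n ≤ gE c ∧ (gE c : ℝ) ≤ n + (n : ℝ) ^ (2 / 3 : ℝ) ∧
        (gdm c : ℝ) ≤ k / (2 * C1) * (n : ℝ) ^ (1 / 4 : ℝ))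
    (fun c g => |((∑ i, fsz (g i) : ℕ) : ℝ) - yMu x * (Fintype.card (ESum.core c).I : ℕ)| ≤
          A * ((Fintype.card (ESum.core c).I : ℕ) : ℝ) ^ (2 / 3 : ℝ) ∧
        ¬ (∃ t t', C1 * ((gdm c : ℝ) + Real.log ((gE c : ℝ) + 1)) <
          ((bigM c g).dd (phM c g t) (phM c g t') : ℝ)) ∧
        ¬ (∃ i, ((Fintype.card (ESum.core c).I : ℕ) : ℝ) ^ (21 / 100 : ℝ) < (fec (g i) : ℝ)))
    (fun N r => if N ∈ W ∧ (r : ℝ) ≤ k * (n : ℝ) ^ (1 / 4 : ℝ) then 1 else 0) ?_ ?_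
  · have h2 := hti.trans (htree n hnn1 W fun N hN => (hW1 N hN).1)
    have h3 := DiamS_div (by positivity) h2
    refine h3.trans (ENNReal.ofReal_le_ofReal ?_)
    have h4 : (n : ℝ) ^ (2 / 3 - 5 / 2 : ℝ) = (n : ℝ) ^ (2 / 3 : ℝ) * (n : ℝ) ^ (-(3 / 2) : ℝ) / n := by
      rw [← Real.rpow_add hn0, ← Real.rpow_sub_one hn0.ne']
      norm_num
    rw [h4]
    have h5 : (0 : ℝ) < (n : ℝ) ^ (-(3 / 2) : ℝ) := Real.rpow_pos_of_pos hn0 _
    calc (W.card : ℝ) * (δ * (x ^ 2 * yc x) / (12 * b) * (n : ℝ) ^ (-(3 / 2) : ℝ)) /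
          (x ^ 2 * yc x * (1 / 4) * n / 3) ≤
        (b * (n : ℝ) ^ (2 / 3 : ℝ)) * (δ * (x ^ 2 * yc x) / (12 * b) *
          (n : ℝ) ^ (-(3 / 2) : ℝ)) / (x ^ 2 * yc x * (1 / 4) * n / 3) := by gcongr
      _ = δ * ((n : ℝ) ^ (2 / 3 : ℝ) * (n : ℝ) ^ (-(3 / 2) : ℝ) / n) := by
          have hb0 : b ≠ 0 := by positivity
          have hxy0 : x ^ 2 * yc x ≠ 0 := hxy.ne'
          field_simp
          norm_num
  · rintro c hR ⟨hc1, hc2, hc3⟩
    refine ⟨hc1, ?_⟩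
    have hj1 : 1 ≤ gE c := hn1'.trans hc1
    have hcard : Fintype.card (ESum.core c).I = gE c := core_card_I c
    have s1 := hsum (ESum.core c).I (by omega)
    have s2 := hpath c hj1
    have s3 := hparts (ESum.core c).I (by omega)
    have s4 := DiamS_ZG_le (x := ENNReal.ofReal x) (y := ENNReal.ofReal (yc x))
      (fun g : (ESum.core c).I → FN =>
        |((∑ i, fsz (g i) : ℕ) : ℝ) - yMu x * (Fintype.card (ESum.core c).I : ℕ)| ≤
          A * ((Fintype.card (ESum.core c).I : ℕ) : ℝ) ^ (2 / 3 : ℝ))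
      (fun g => ∃ t t', C1 * ((gdm c : ℝ) + Real.log ((gE c : ℝ) + 1)) <
          ((bigM c g).dd (phM c g t) (phM c g t') : ℝ))
      (fun g => ∃ i, ((Fintype.card (ESum.core c).I : ℕ) : ℝ) ^ (21 / 100 : ℝ) <
          (fec (g i) : ℝ))
    have s5 := (s1.trans s4).trans (add_le_add_right (add_le_add s2 s3) _)
    rw [core_card_I] at s5
    have hp : 0 ≤ ecr (vc x) ^ gE c := by positivity
    have s6 : ENNReal.ofReal (ecr (vc x) ^ gE c / 2) = ENNReal.ofReal (1 / 4 * ecr (vc x) ^ gE c) +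
        (ENNReal.ofReal (ecr (vc x) ^ gE c / 8) + ENNReal.ofReal (ecr (vc x) ^ gE c / 8)) := by
      rw [← ENNReal.ofReal_add (by positivity) (by positivity),
        ← ENNReal.ofReal_add (by positivity) (by positivity)]
      congr 1
      ring
    rw [s6] at s5
    have s7 := (ENNReal.add_le_add_iff_right (ENNReal.add_ne_top.2
      ⟨ENNReal.ofReal_ne_top, ENNReal.ofReal_ne_top⟩)).1 s5
    rw [core_card_I]
    exact s7
  · rintro c hR ⟨hc1, hc2, hc3⟩ g ⟨hg1, hg2, hg3⟩ t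
    have hj1 : 1 ≤ gE c := hn1'.trans hc1
    have hj1' : (1 : ℝ) ≤ gE c := by exact_mod_cast hj1
    have hj2 : (gE c : ℝ) ≤ 2 * n := by linarith
    rw [core_card_I] at hg1 hg3
    push Not at hg2 hg3
    have hmem := hW3 (gE c) (∑ i, fsz (g i)) hc1 hc2 (DiamS_sum c g) hg1
    have hL : 0 ≤ Real.log ((gE c : ℝ) + 1) := Real.log_nonneg (by linarith)
    have he := big_ecc c g (H := ⌊((gE c : ℕ) : ℝ) ^ (21 / 100 : ℝ)⌋₊)
      (B := ⌊C1 * ((gdm c : ℝ) + Real.log ((gE c : ℝ) + 1))⌋₊)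
      (fun i => Nat.le_floor (hg3 i)) (fun t t' => Nat.le_floor (hg2 t t')) t
    have he' : ((bigM c g).ecc ((bigM c g).vx (phM c g t)) : ℝ) ≤
        (⌊C1 * ((gdm c : ℝ) + Real.log ((gE c : ℝ) + 1))⌋₊ : ℝ) +
          (⌊((gE c : ℕ) : ℝ) ^ (21 / 100 : ℝ)⌋₊ : ℝ) := by exact_mod_cast he
    have hB : (⌊C1 * ((gdm c : ℝ) + Real.log ((gE c : ℝ) + 1))⌋₊ : ℝ) ≤
        C1 * ((gdm c : ℝ) + Real.log ((gE c : ℝ) + 1)) := Nat.floor_le (by positivity)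
    have hH : (⌊((gE c : ℕ) : ℝ) ^ (21 / 100 : ℝ)⌋₊ : ℝ) ≤ ((gE c : ℕ) : ℝ) ^ (21 / 100 : ℝ) :=
      Nat.floor_le (by positivity)
    have hl : Real.log ((gE c : ℝ) + 1) ≤ Real.log (2 * n + 1) :=
      Real.log_le_log (by linarith) (by linarith)
    have hr : ((gE c : ℕ) : ℝ) ^ (21 / 100 : ℝ) ≤ (2 * n : ℝ) ^ (21 / 100 : ℝ) :=
      Real.rpow_le_rpow (by positivity) hj2 (by norm_num)
    have hs := hn2 n hnn2 hn1'
    have hq : C1 * (gdm c : ℝ) ≤ k / 2 * (n : ℝ) ^ (1 / 4 : ℝ) := by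
      calc C1 * (gdm c : ℝ) ≤ C1 * (k / (2 * C1) * (n : ℝ) ^ (1 / 4 : ℝ)) := by gcongr
        _ = k / 2 * (n : ℝ) ^ (1 / 4 : ℝ) := by
            have : C1 ≠ 0 := hC1.ne'
            field_simp
    have hl' : C1 * Real.log ((gE c : ℝ) + 1) ≤ C1 * Real.log (2 * n + 1) :=
      mul_le_mul_of_nonneg_left hl hC1.le
    rw [if_pos ⟨hmem, by nlinarith⟩]

end Dia
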