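import Pool.Agent.DiaC.HerDefs

/-!
# Module ParC: the parallel composition as a composite

`parC`: cycles `inr true → inl (true, true) → inl (false, true) → inr true` and
`inr false → inl (false, false) → inl (true, false) → inr false` (first check these six values by `decide`).
`parC_good`: as `tri_good` in `PGr/TriProps.lean` (finite checks; `Pl` for `parC`: `parC.toB` is the dual of
`tri.toB` up to the identification below, `Good.dual`, or directly).

`par_comp`: `parMap N₁ N₂ = (serMap N₁.dual N₂.dual).dual` has the darts `Σ i, (N_i).D`, `i : Bool`, as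
`comp parC (serNets N₁ N₂)`; the identity is an isomorphism.  With `M.dual.s = aa * s`, `fstD N.dual b = a (fstD N b)`
(`fstD_spec`): in `parMap`: `s (inr b) = inl ⟨b, fstD (N_b) b⟩`; for a dart `d` of `N_i` with
`s (inl d) = inl d'`: `s (inl ⟨i, d⟩) = inl ⟨i, d'⟩`; with `s (inl d) = inr b`: `aa (jump (tri.s (inl (i, !b))))`, i.e.
`(i, b) = (true, true)`: `inl ⟨false, fstD N₂ true⟩`; `(true, false)`: `inr false`; `(false, true)`: `inr true`;
`(false, false)`: `inl ⟨true, fstD N₁ false⟩`.  The same values as in `comp parC`.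
-/

set_option linter.unusedSectionVars false

namespace Dia
open Equiv Finset PGr

private theorem ParC_pl : Pl parC.toB.aa parC.toB.s := by
  intro p q H
  have e1 : p (Sum.inr true) + q (Sum.inr false) =
      p (Sum.inl (true, true)) + q (Sum.inl (true, true)) := H (Sum.inr true)
  have e2 : p (Sum.inl (true, true)) + q (Sum.inl (true, false)) =
      p (Sum.inl (false, true)) + q (Sum.inl (false, true)) := H (Sum.inl (true, true))
  have e3 : p (Sum.inl (false, true)) + q (Sum.inl (false, false)) =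
      p (Sum.inr true) + q (Sum.inr true) := H (Sum.inl (false, true))
  have e4 : p (Sum.inr false) + q (Sum.inr true) =
      p (Sum.inl (false, false)) + q (Sum.inl (false, false)) := H (Sum.inr false)
  have e5 : p (Sum.inl (false, false)) + q (Sum.inl (false, true)) =
      p (Sum.inl (true, false)) + q (Sum.inl (true, false)) := H (Sum.inl (false, false))
  have e6 : p (Sum.inl (true, false)) + q (Sum.inl (true, true)) =
      p (Sum.inr false) + q (Sum.inr false) := H (Sum.inl (true, false))
  have h2 : (2 : ZMod 2) = 0 := by decide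
  refine ⟨fun t => match t with
    | Sum.inl (true, _) => p (Sum.inr true) + p (Sum.inl (true, true))
    | Sum.inl (false, _) => p (Sum.inr true) + p (Sum.inl (false, true))
    | Sum.inr _ => 0, ?_, ?_⟩
  · rintro (⟨(_ | _), (_ | _)⟩ | (_ | _)) <;> rfl
  · rintro (⟨(_ | _), (_ | _)⟩ | (_ | _))
    · show (p (Sum.inr true) + p (Sum.inl (false, true))) +
        (p (Sum.inr true) + p (Sum.inl (true, true))) =
        p (Sum.inl (false, false)) + p (Sum.inl (true, false))
      linear_combination e2 - e5 + (p (Sum.inr true) + p (Sum.inl (false, true)) -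
        p (Sum.inl (true, false)) + q (Sum.inl (false, true)) - q (Sum.inl (true, false))) * h2
    · show (p (Sum.inr true) + p (Sum.inl (false, true))) + 0 =
        p (Sum.inl (false, true)) + p (Sum.inr true)
      ring
    · show (p (Sum.inr true) + p (Sum.inl (true, true))) + 0 =
        p (Sum.inl (true, false)) + p (Sum.inr false)
      linear_combination e1 + e6 + (p (Sum.inl (true, true)) - p (Sum.inl (true, false))) * h2
    · show (p (Sum.inr true) + p (Sum.inl (true, true))) +
        (p (Sum.inr true) + p (Sum.inl (false, true))) =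
        p (Sum.inl (true, true)) + p (Sum.inl (false, true))
      linear_combination (p (Sum.inr true)) * h2
    · show (0 : ZMod 2) + (p (Sum.inr true) + p (Sum.inl (false, true))) =
        p (Sum.inr false) + p (Sum.inl (false, false))
      linear_combination e3 + e4 + (p (Sum.inr true) - p (Sum.inr false)) * h2
    · show (0 : ZMod 2) + (p (Sum.inr true) + p (Sum.inl (true, true))) =
        p (Sum.inr true) + p (Sum.inl (true, true))
      ring

private def ParC_a : Perm ((Bool × Bool) ⊕ Bool) :=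
  ext (Equiv.prodCongr (Equiv.refl Bool) Equiv.boolNot)

private def ParC_s : Perm ((Bool × Bool) ⊕ Bool) :=
  (swap (Sum.inr true) (Sum.inl (true, true)) * swap (Sum.inl (true, true)) (Sum.inl (false, true))) *
      (swap (Sum.inr false) (Sum.inl (false, false)) * swap (Sum.inl (false, false)) (Sum.inl (true, false)))

private theorem ParC_ns : ∀ A : Finset ((Bool × Bool) ⊕ Bool),
    (∀ t, ParC_a t ∈ A ↔ t ∈ A) → A.Nonempty → A ≠ univ →
    4 ≤ (univ.filter fun t => ¬ (t ∈ A ↔ ParC_s t ∈ A)).card := by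
  decide +kernel

theorem parC_good : parC.toB.IsGood where
  inv := by
    have : ∀ t : (Bool × Bool) ⊕ Bool, ParC_a (ParC_a t) = t := by decide
    exact this
  fpf := by
    have : ∀ t : (Bool × Bool) ⊕ Bool, ParC_a t ≠ t := by decide
    exact this
  ns := ParC_ns
  pl := ParC_pl
  big := by
    show 4 ≤ Fintype.card ((Bool × Bool) ⊕ Bool)
    decide

/-- the vertex of a dart -/
private def ParC_v : (Bool × Bool) ⊕ Bool → Bool
  | Sum.inl (_, b) => b
  | Sum.inr b => b

private theorem ParC_same (t t' : (Bool × Bool) ⊕ Bool) :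
    ParC_s.SameCycle t t' ↔ ParC_v t = ParC_v t' := by
  have h1 : ∀ t t' : (Bool × Bool) ⊕ Bool, ParC_v t = ParC_v t' →
      t' = t ∨ t' = ParC_s t ∨ t' = ParC_s (ParC_s t) := by decide
  have h2 : ∀ t : (Bool × Bool) ⊕ Bool, ParC_v (ParC_s t) = ParC_v t := by decide
  constructor
  · rintro ⟨i, rfl⟩
    induction i using Int.induction_on generalizing t with
    | zero => simp
    | succ n ih =>
      rw [zpow_add_one, Perm.mul_apply, ← ih (ParC_s t), h2]
    | pred n ih =>
      rw [zpow_sub_one, Perm.mul_apply, ← ih (ParC_s⁻¹ t)]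
      have := h2 (ParC_s⁻¹ t)
      rw [TriProps_app] at this
      exact this
  · intro h
    rcases h1 t t' h with h | h | h
    · rw [h]
    · rw [h]
      exact ⟨1, by simp⟩
    · rw [h]
      exact ⟨2, by simp [pow_two]⟩

theorem parC_nV : nV parC.s = 2 := by
  have e : Quotient (Perm.SameCycle.setoid ParC_s) ≃ Bool := by
    refine Equiv.ofBijective (Quotient.lift ParC_v fun t t' h => (ParC_same t t').mp h)
      ⟨?_, ?_⟩
    · intro x y
      induction x using Quotient.inductionOn with | _ x => ?_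
      induction y using Quotient.inductionOn with | _ y => ?_
      intro h
      exact Quotient.sound ((ParC_same x y).mpr h)
    · intro b
      exact ⟨Quotient.mk _ (Sum.inr b), rfl⟩
  show Nat.card (Quotient (Perm.SameCycle.setoid ParC_s)) = 2
  rw [Nat.card_congr e]
  simp

private def ParC_psi : (Bool × Bool) ⊕ Bool → (Bool × Bool) ⊕ Bool
  | Sum.inl (i, b) => Sum.inl (i, !b)
  | Sum.inr b => Sum.inr b

private def ParC_phi : (Bool × Bool) ⊕ Bool → (Bool × Bool) ⊕ Bool
  | Sum.inl x => Sum.inl x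
  | Sum.inr b => Sum.inr (!b)

private theorem ParC_st0 : ∀ y : (Bool × Bool) ⊕ Bool,
    ParC_s y = ParC_phi (TriProps_s (ParC_psi y)) := by
  decide

private theorem ParC_st (y : (Bool × Bool) ⊕ Bool) :
    parC.s y = ParC_phi (tri.s (ParC_psi y)) := ParC_st0 y

private theorem ParC_fst (N : GB) (b : Bool) : N.1.a (fstD N.dual b) = fstD N b := by
  have h1 := fstD_spec N.dual b
  have h2 : N.dual.1.s (Sum.inr b) = N.1.aa (N.1.s (Sum.inr b)) := rfl
  rw [h2, fstD_spec N b] at h1
  have h3 : N.1.a (fstD N b) = fstD N.dual b := Sum.inl_injective h1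
  rw [← h3]
  have h4 := N.2.inv (Sum.inl (fstD N b))
  exact Sum.inl_injective h4

/-- identification of the darts -/
private noncomputable def ParC_e (N₁ N₂ : GB) :
    (Σ i, ((serNets N₁.dual N₂.dual) i).1.D) ≃ (Σ i, ((serNets N₁ N₂) i).1.D) :=
  Equiv.sigmaCongrRight fun i => match i with
    | true => Equiv.refl _
    | false => Equiv.refl _

private noncomputable def ParC_E (N₁ N₂ : GB) : (parMap N₁ N₂).T ≃ (comp parC (serNets N₁ N₂)).T :=
  Equiv.sumCongr (ParC_e N₁ N₂) (Equiv.refl Bool)

private theorem ParC_jump (N₁ N₂ : GB) (y : (Bool × Bool) ⊕ Bool) :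
    ParC_E N₁ N₂ ((serMap N₁.dual N₂.dual).aa (jump tri (serNets N₁.dual N₂.dual) y)) =
      jump parC (serNets N₁ N₂) (ParC_phi y) := by
  rcases y with ⟨(_ | _), b⟩ | b
  · exact congrArg (fun x => (Sum.inl (⟨false, x⟩ : Σ i, ((serNets N₁ N₂) i).1.D) :
      (comp parC (serNets N₁ N₂)).T)) (ParC_fst N₂ b)
  · exact congrArg (fun x => (Sum.inl (⟨true, x⟩ : Σ i, ((serNets N₁ N₂) i).1.D) :
      (comp parC (serNets N₁ N₂)).T)) (ParC_fst N₁ b)
  · rfl

private theorem ParC_step (N₁ N₂ : GB) (t u : (serMap N₁.dual N₂.dual).T)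
    (v : (comp parC (serNets N₁ N₂)).T)
    (h4 : (serMap N₁.dual N₂.dual).s t = u)
    (h6 : ParC_E N₁ N₂ ((serMap N₁.dual N₂.dual).aa u) = v)
    (h3 : (comp parC (serNets N₁ N₂)).s (ParC_E N₁ N₂ t) = v) :
    ParC_E N₁ N₂ ((serMap N₁.dual N₂.dual).aa ((serMap N₁.dual N₂.dual).s t)) =
      (comp parC (serNets N₁ N₂)).s (ParC_E N₁ N₂ t) := by
  rw [h4, h6, h3]

theorem par_comp (N₁ N₂ : GB) : BIso (parMap N₁ N₂) (comp parC (serNets N₁ N₂)) := by
  refine ⟨ParC_E N₁ N₂, ?_, ?_, rfl⟩
  · rintro (⟨(_ | _), d⟩ | b) <;> rfl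
  · intro t
    show ParC_E N₁ N₂ ((serMap N₁.dual N₂.dual).aa ((serMap N₁.dual N₂.dual).s t)) =
      (comp parC (serNets N₁ N₂)).s (ParC_E N₁ N₂ t)
    rcases t with ⟨(_ | _), d⟩ | b
    · have h0 : ((serNets N₁.dual N₂.dual) false).1.s (Sum.inl d) = N₂.1.aa (N₂.1.s (Sum.inl d)) := rfl
      rcases h : N₂.1.s (Sum.inl d) with d' | b
      · have h1 : ((serNets N₁.dual N₂.dual) false).1.s (Sum.inl d) = Sum.inl (N₂.1.a d') := by
          rw [h0, h]; rfl
        have h2 := comp_s_in tri (serNets N₁.dual N₂.dual) h1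
        have h3 := comp_s_in parC (serNets N₁ N₂) (i := false) h
        have h6 : N₂.1.a (N₂.1.a d') = d' := Sum.inl_injective (N₂.2.inv (Sum.inl d'))
        exact ParC_step N₁ N₂ (Sum.inl ⟨false, d⟩) (Sum.inl ⟨false, N₂.1.a d'⟩)
          (Sum.inl ⟨false, d'⟩) h2
          (congrArg (fun x => (Sum.inl (⟨false, x⟩ : Σ i, ((serNets N₁ N₂) i).1.D) :
            (comp parC (serNets N₁ N₂)).T)) h6) h3
      · have h1 : ((serNets N₁.dual N₂.dual) false).1.s (Sum.inl d) = Sum.inr (!b) := by
          rw [h0, h]; rfl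
        have h2 := comp_s_out tri (serNets N₁.dual N₂.dual) h1
        have h3 := comp_s_out parC (serNets N₁ N₂) (i := false) h
        have h7 := ParC_st (Sum.inl (false, b))
        exact ParC_step N₁ N₂ (Sum.inl ⟨false, d⟩) _ _ h2
          (ParC_jump N₁ N₂ (tri.s (Sum.inl (false, !b))))
          (h3.trans (congrArg (jump parC (serNets N₁ N₂)) h7))
    · have h0 : ((serNets N₁.dual N₂.dual) true).1.s (Sum.inl d) = N₁.1.aa (N₁.1.s (Sum.inl d)) := rfl
      rcases h : N₁.1.s (Sum.inl d) with d' | b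
      · have h1 : ((serNets N₁.dual N₂.dual) true).1.s (Sum.inl d) = Sum.inl (N₁.1.a d') := by
          rw [h0, h]; rfl
        have h2 := comp_s_in tri (serNets N₁.dual N₂.dual) h1
        have h3 := comp_s_in parC (serNets N₁ N₂) (i := true) h
        have h6 : N₁.1.a (N₁.1.a d') = d' := Sum.inl_injective (N₁.2.inv (Sum.inl d'))
        exact ParC_step N₁ N₂ (Sum.inl ⟨true, d⟩) (Sum.inl ⟨true, N₁.1.a d'⟩)
          (Sum.inl ⟨true, d'⟩) h2
          (congrArg (fun x => (Sum.inl (⟨true, x⟩ : Σ i, ((serNets N₁ N₂) i).1.D) :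
            (comp parC (serNets N₁ N₂)).T)) h6) h3
      · have h1 : ((serNets N₁.dual N₂.dual) true).1.s (Sum.inl d) = Sum.inr (!b) := by
          rw [h0, h]; rfl
        have h2 := comp_s_out tri (serNets N₁.dual N₂.dual) h1
        have h3 := comp_s_out parC (serNets N₁ N₂) (i := true) h
        have h7 := ParC_st (Sum.inl (true, b))
        exact ParC_step N₁ N₂ (Sum.inl ⟨true, d⟩) _ _ h2
          (ParC_jump N₁ N₂ (tri.s (Sum.inl (true, !b))))
          (h3.trans (congrArg (jump parC (serNets N₁ N₂)) h7))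
    · exact ParC_step N₁ N₂ (Sum.inr b) _ _ rfl
        (ParC_jump N₁ N₂ (tri.s (Sum.inr b)))
        (congrArg (jump parC (serNets N₁ N₂)) (ParC_st (Sum.inr b)))

end Dia
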