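import Pool.Agent.DiaC.BigC
import Pool.Agent.DiaC.ParC
import Pool.Agent.PGr.SerSurj
import Pool.Agent.PGc.SerEq

/-!
# Module HerS: series and parallel nets of bounded diameter

`her_two` (`C` a good core with `C.I = Bool`): if every `F` with `P F.1.rep.1` has a decomposition
`BIso (comp C N) F.1.rep.1` with `Q (N true)` (`Q` invariant under `BIso`), then the coefficient sum over `F` with
`P`, diameter `≤ L`, size `N` is at most `x^(nV C.s - 2)` times the convolution.  Proof: the sum on the right is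
the sum over pairs `(F1, F2)` with `Q F1.1.rep.1`, both diameters `≤ L`, `fsz F1 + fsz F2 = N` of
`x^(fnv F1 + fnv F2)` (`ENNReal` sums: exchange, for every pair exactly one element of the antidiagonal); choose
for every `F` (with `P`) a `g` by `refill`; `F ↦ (g true, g false)` is injective (`bigC_inj`: `g` is determined by its two
values) and `refill_stat`; `tsum_le_tsum_of_injOn` (`PGr.SumLib`).
`Q` for `g true`: `(g true).1 = cl (N true)`, `rep_iso`.

`her_ser`: `C = tri` (`serMap N₁ N₂ = comp tri (serNets N₁ N₂)`, `tri_nV = 3`), `exists_serMap`.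
`her_par`: `C = parC`, `exists_parMap`, `par_comp`.
-/

set_option linter.unusedSectionVars false

namespace Dia
open Equiv Finset PGr
open scoped ENNReal Classical

/-- a convolution of two coefficient sums is a sum over pairs -/
private theorem HerS_conv {α β : Type*} (P : α → Prop) (Q : β → Prop) (sa : α → ℕ) (sb : β → ℕ)
    (wa : α → ℝ≥0∞) (wb : β → ℝ≥0∞) (N : ℕ) [∀ a N, Decidable (P a ∧ sa a = N)]
    [∀ b N, Decidable (Q b ∧ sb b = N)]
    [∀ q : α × β, Decidable ((P q.1 ∧ Q q.2) ∧ sa q.1 + sb q.2 = N)] :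
    ∑ p ∈ antidiagonal N, (∑' a, if P a ∧ sa a = p.1 then wa a else 0) *
      (∑' b, if Q b ∧ sb b = p.2 then wb b else 0) =
    ∑' q : α × β, if (P q.1 ∧ Q q.2) ∧ sa q.1 + sb q.2 = N then wa q.1 * wb q.2 else 0 := by
  have h1 : ∀ p ∈ antidiagonal N, (∑' a, if P a ∧ sa a = p.1 then wa a else 0) *
      (∑' b, if Q b ∧ sb b = p.2 then wb b else 0) = ∑' q : α × β,
      (if P q.1 ∧ sa q.1 = p.1 then wa q.1 else 0) * (if Q q.2 ∧ sb q.2 = p.2 then wb q.2 else 0) :=
    fun p _ => tsum_prod_mul _ _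
  rw [Finset.sum_congr rfl h1, ← Summable.tsum_finsetSum fun _ _ => ENNReal.summable]
  refine tsum_congr fun q => ?_
  by_cases hq : (P q.1 ∧ Q q.2) ∧ sa q.1 + sb q.2 = N
  · rw [if_pos hq, Finset.sum_eq_single_of_mem (sa q.1, sb q.2) (mem_antidiagonal.2 hq.2)]
    · rw [if_pos ⟨hq.1.1, rfl⟩, if_pos ⟨hq.1.2, rfl⟩]
    · intro p _ hp
      by_cases h2 : sa q.1 = p.1
      · by_cases h3 : sb q.2 = p.2
        · exact absurd (Prod.ext h2.symm h3.symm) hp
        · rw [if_neg (c := Q q.2 ∧ sb q.2 = p.2) fun h => h3 h.2, mul_zero]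
      · rw [if_neg fun h => h2 h.2, zero_mul]
  · rw [if_neg hq]
    refine Finset.sum_eq_zero fun p hp => ?_
    by_cases h2 : P q.1 ∧ sa q.1 = p.1
    · by_cases h3 : Q q.2 ∧ sb q.2 = p.2
      · exact absurd ⟨⟨h2.1, h3.1⟩, by rw [h2.2, h3.2]; exact mem_antidiagonal.1 hp⟩ hq
      · rw [if_neg h3, mul_zero]
    · rw [if_neg h2, zero_mul]

private theorem HerS_fLE (x : ℝ≥0∞) (L : ℕ) (P : BMap → Prop) (N : ℕ) : fLE x L P N =
    ∑' F : FN, if (P F.1.rep.1 ∧ (fmap F).dm ≤ L) ∧ fsz F = N then x ^ fnv F else 0 := by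
  unfold fLE
  refine tsum_congr fun F => ?_
  by_cases h : P F.1.rep.1 ∧ (fmap F).dm ≤ L ∧ fsz F = N
  · rw [if_pos h, if_pos ⟨⟨h.1, h.2.1⟩, h.2.2⟩]
  · rw [if_neg h, if_neg fun h' => h ⟨h'.1.1, h'.1.2, h'.2⟩]

/-- nets decomposed over a core with two edges -/
private theorem HerS_two (x : ℝ≥0∞) (L N : ℕ) {C : Core} (hC : C.toB.IsGood) (P Q : BMap → Prop)
    (i₁ i₂ : C.I) (hcov : ∀ i, i = i₁ ∨ i = i₂)
    (hsum : ∀ f : C.I → ℕ, ∑ i, f i = f i₁ + f i₂)
    (h : ∀ c : GC, P c.rep.1 → ∃ N : C.I → GB, Q (ESum.cl (N i₁)).rep.1 ∧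
      BIso (comp C N) c.rep.1) :
    fLE x L P N ≤ x ^ (nV C.s - 2) *
      ∑ p ∈ antidiagonal N, fLE x L Q p.1 * fLE x L (fun _ => True) p.2 := by
  have h1 : ∀ F : FN, ∃ g : C.I → FN, P F.1.rep.1 →
      Q (g i₁).1.rep.1 ∧ RMIso (fmap F) (bigC C g) := by
    intro F
    by_cases hP : P F.1.rep.1
    · obtain ⟨N, hQ, hB⟩ := h F.1 hP
      obtain ⟨g, hg, hI⟩ := refill hC hB
      refine ⟨g, fun _ => ⟨?_, hI⟩⟩
      rw [hg i₁]
      exact hQ
    · exact ⟨fun _ => F, fun h => absurd h hP⟩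
  choose g hg using h1
  have h2 : ∑ p ∈ antidiagonal N, fLE x L Q p.1 * fLE x L (fun _ => True) p.2 =
      ∑' q : FN × FN, if ((Q q.1.1.rep.1 ∧ (fmap q.1).dm ≤ L) ∧ (True ∧ (fmap q.2).dm ≤ L)) ∧
        fsz q.1 + fsz q.2 = N then x ^ fnv q.1 * x ^ fnv q.2 else 0 := by
    rw [← HerS_conv (fun F : FN => Q F.1.rep.1 ∧ (fmap F).dm ≤ L)
      (fun F : FN => True ∧ (fmap F).dm ≤ L) fsz fsz (fun F => x ^ fnv F) (fun F => x ^ fnv F)]
    refine Finset.sum_congr rfl fun p _ => ?_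
    rw [HerS_fLE, HerS_fLE]
    congr!
  rw [h2, HerS_fLE, ← ENNReal.tsum_mul_left]
  have hne : ∀ F : FN, (if (P F.1.rep.1 ∧ (fmap F).dm ≤ L) ∧ fsz F = N then x ^ fnv F else 0) ≠ 0 →
      (P F.1.rep.1 ∧ (fmap F).dm ≤ L) ∧ fsz F = N := by
    intro F hF
    by_contra h3
    rw [if_neg h3] at hF
    exact hF rfl
  refine tsum_le_tsum_of_injOn (fun F => (g F i₁, g F i₂)) ?_ ?_
  · intro F F' hF hF' he
    have hI := (hg F (hne F hF).1.1).2
    have hI' := (hg F' (hne F' hF').1.1).2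
    have he1 : g F i₁ = g F' i₁ := congrArg Prod.fst he
    have he2 : g F i₂ = g F' i₂ := congrArg Prod.snd he
    have hgg : g F = g F' := by
      funext i
      rcases hcov i with rfl | rfl
      · exact he1
      · exact he2
    rw [← hgg] at hI'
    exact bigC_inj hI hI'
  · intro F hF
    obtain ⟨⟨hP, hL⟩, hN⟩ := hne F hF
    obtain ⟨hQ, hI⟩ := hg F hP
    obtain ⟨h3, h4, -, h5⟩ := refill_stat hC hI
    rw [hsum fun i => fsz (g F i)] at h3
    rw [hsum fun i => fnv (g F i)] at h4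
    rw [if_pos ⟨⟨hP, hL⟩, hN⟩, if_pos ⟨⟨⟨hQ, (h5 i₁).trans hL⟩, trivial, (h5 i₂).trans hL⟩,
      h3.symm.trans hN⟩, h4, pow_add, pow_add]

theorem her_ser (x : ℝ≥0∞) (L N : ℕ) : fLE x L IsSer N ≤
    x * ∑ p ∈ antidiagonal N, fLE x L (fun M => ¬ IsSer M) p.1 * fLE x L (fun _ => True) p.2 := by
  have h := HerS_two x L N tri_good IsSer (fun M => ¬ IsSer M) (true : Bool) (false : Bool)
    (fun i => by
      have h : ∀ i : Bool, i = true ∨ i = false := by decide
      exact h i)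
    (fun f => Fintype.sum_bool f)
    (fun c hc => by
      obtain ⟨N₁, N₂, h1, h2⟩ := exists_serMap c.rep.2 hc
      refine ⟨serNets N₁ N₂, ?_, BIso.symm h2⟩
      intro h3
      exact h1 ((ESum.rep_iso N₁).ser h3))
  rw [tri_nV] at h
  simpa using h

theorem her_par (x : ℝ≥0∞) (L N : ℕ) : fLE x L IsPar N ≤
    ∑ p ∈ antidiagonal N, fLE x L (fun M => ¬ IsPar M) p.1 * fLE x L (fun _ => True) p.2 := by
  have h := HerS_two x L N parC_good IsPar (fun M => ¬ IsPar M) (true : Bool) (false : Bool)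
    (fun i => by
      have h : ∀ i : Bool, i = true ∨ i = false := by decide
      exact h i)
    (fun f => Fintype.sum_bool f)
    (fun c hc => by
      obtain ⟨N₁, N₂, h1, h2⟩ := exists_parMap c.rep.2 hc
      refine ⟨serNets N₁ N₂, ?_, (BIso.symm (par_comp N₁ N₂)).trans (BIso.symm h2)⟩
      intro h3
      exact h1 ((ESum.rep_iso N₁).par h3))
  rw [parC_nV] at h
  simpa using h

end Dia
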