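import Pool.Agent.DiaC.SysE
import Pool.Agent.DiamP.Conv

/-!
# Module SysR: the real sequences

`0 < x`, `0 < y`, `Ag (ofReal x) (ofReal y) ≠ ⊤`.  `Fin F` below: all coefficients of `F` are finite.  All power
series of the system have finite values at `ofReal y` (`ev_AP`, `ev_ZP`, `ev_YP`, `Es_ne_top`,
`Esel ≤ Es`), so finite coefficients (`coeff_ne_top`), and `cfR F y n = (coeff n F * (ofReal y)^n).toReal`.

`cfR_mul`: `coeff_mul`, `ENNReal.toReal_sum`, `pow_add` on the antidiagonal.  `cfR_pow`: induction, `cvL` of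
`List.replicate`.  `cfR_hasSum`: `ENNReal.summable_toReal`, `ENNReal.tsum_toReal_eq`.
`rc_ne_top`: `rc' x j * Es^j ≤ Rg x Es ≤ Es < ∞` and `Es > 0` (there is a good map: the single term
of `E_eq` is `Es x z ≥ z > 0`).
`sys`: the equations of `SysE` transported by `cfR`.  `hR`: in `∑' j` only the terms `j ≤ n` are nonzero because
`coeff 0 (YP) = 0` (`coeff n (F^j) = 0` for `j > n`; `PowerSeries.coeff_of_lt_order` or induction).
-/

set_option linter.unusedSectionVars false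

namespace Dia
open Finset PGr PowerSeries Pool.Agent.DiamP
open scoped ENNReal

variable {x y : ℝ}

theorem cfR_add {F G : ℝ≥0∞⟦X⟧} (hF : ∀ n, coeff n F ≠ ⊤) (hG : ∀ n, coeff n G ≠ ⊤) (n : ℕ) :
    cfR (F + G) y n = cfR F y n + cfR G y n := by
  unfold cfR
  rw [map_add, ENNReal.toReal_add (hF n) (hG n), add_mul]

theorem SysR_mul_ne_top {F G : ℝ≥0∞⟦X⟧} (hF : ∀ n, coeff n F ≠ ⊤) (hG : ∀ n, coeff n G ≠ ⊤)
    (n : ℕ) : coeff n (F * G) ≠ ⊤ := by
  rw [coeff_mul]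
  exact ENNReal.sum_ne_top.2 fun p _ => ENNReal.mul_ne_top (hF _) (hG _)

theorem SysR_add_ne_top {F G : ℝ≥0∞⟦X⟧} (hF : ∀ n, coeff n F ≠ ⊤) (hG : ∀ n, coeff n G ≠ ⊤)
    (n : ℕ) : coeff n (F + G) ≠ ⊤ := by
  rw [map_add]
  exact ENNReal.add_ne_top.2 ⟨hF n, hG n⟩

theorem SysR_one_ne_top (n : ℕ) : coeff n (1 : ℝ≥0∞⟦X⟧) ≠ ⊤ := by
  rw [coeff_one]
  split_ifs <;> simp

theorem SysR_pow_ne_top {F : ℝ≥0∞⟦X⟧} (hF : ∀ n, coeff n F ≠ ⊤) (j : ℕ) :
    ∀ n, coeff n (F ^ j) ≠ ⊤ := by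
  induction j with
  | zero => intro n; rw [pow_zero]; exact SysR_one_ne_top n
  | succ j ih => intro n; rw [pow_succ]; exact SysR_mul_ne_top ih hF n

theorem cfR_mul {F G : ℝ≥0∞⟦X⟧} (hF : ∀ n, coeff n F ≠ ⊤) (hG : ∀ n, coeff n G ≠ ⊤) :
    cfR (F * G) y = cv (cfR F y) (cfR G y) := by
  funext n
  unfold cfR cv
  rw [coeff_mul, ENNReal.toReal_sum fun p _ => ENNReal.mul_ne_top (hF _) (hG _), Finset.sum_mul]
  refine Finset.sum_congr rfl fun p hp => ?_
  rw [ENNReal.toReal_mul, ← HasAntidiagonal.mem_antidiagonal.1 hp, pow_add]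
  ring

theorem SysR_one : cfR (1 : ℝ≥0∞⟦X⟧) y = one0 := by
  funext n
  unfold cfR one0
  rw [coeff_one]
  by_cases h : n = 0
  · rw [if_pos h, if_pos h, h, pow_zero, mul_one, ENNReal.toReal_one]
  · rw [if_neg h, if_neg h, ENNReal.toReal_zero, zero_mul]

theorem cfR_pow {F : ℝ≥0∞⟦X⟧} (hF : ∀ n, coeff n F ≠ ⊤) (j : ℕ) :
    cfR (F ^ j) y = cvL (List.replicate j (cfR F y)) := by
  induction j with
  | zero => rw [pow_zero, SysR_one, List.replicate_zero, cvL_nil]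
  | succ j ih =>
    rw [pow_succ', cfR_mul hF (SysR_pow_ne_top hF j), ih, List.replicate_succ, cvL_cons]

theorem cfR_hasSum {F : ℝ≥0∞⟦X⟧} (hy : 0 < y) (h : ev F (ENNReal.ofReal y) ≠ ⊤) :
    HasSum (cfR F y) (ev F (ENNReal.ofReal y)).toReal := by
  have h1 : ∀ n, (coeff n F * ENNReal.ofReal y ^ n).toReal = cfR F y n := by
    intro n
    unfold cfR
    rw [ENNReal.toReal_mul, ENNReal.toReal_pow, ENNReal.toReal_ofReal hy.le]
  have h2 : ∑' n, coeff n F * ENNReal.ofReal y ^ n ≠ ⊤ := h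
  have h3 := ENNReal.hasSum_toReal h2
  rw [← ENNReal.tsum_toReal_eq (fun n => ENNReal.ne_top_of_tsum_ne_top h2 n)] at h3
  simp only [h1] at h3
  exact h3

theorem SysR_ofReal_ne {t : ℝ} (h : 0 < t) : ENNReal.ofReal t ≠ 0 := by
  rw [Ne, ENNReal.ofReal_eq_zero, not_le]
  exact h

theorem SysR_Ag_ne_zero (x y : ℝ≥0∞) : Ag x y ≠ 0 := by
  intro h0
  have := SysE_one_le x y
  rw [h0] at this
  exact absurd this (by simp)

theorem rc_ne_top (hx : 0 < x) (hy : 0 < y) (h : Ag (ENNReal.ofReal x) (ENNReal.ofReal y) ≠ ⊤)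
    (j : ℕ) : rc' (ENNReal.ofReal x) j ≠ ⊤ := by
  have h1 := Es_ne_top (SysR_ofReal_ne hx) (SysR_ofReal_ne hy) h
  have hz : ENNReal.ofReal y * Ag (ENNReal.ofReal x) (ENNReal.ofReal y) ^ 2 ≠ 0 :=
    mul_ne_zero (SysR_ofReal_ne hy) (pow_ne_zero 2 (SysR_Ag_ne_zero _ _))
  set z := ENNReal.ofReal y * Ag (ENNReal.ofReal x) (ENNReal.ofReal y) ^ 2 with hzdef
  have h2 : z ≤ Es (ENNReal.ofReal x) z := by
    rw [E_eq, add_assoc, add_assoc]
    exact le_self_add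
  have h3 : Rg (ENNReal.ofReal x) (Es (ENNReal.ofReal x) z) ≤ Es (ENNReal.ofReal x) z := by
    conv_rhs => rw [E_eq]
    exact le_add_self
  have h4 : rc' (ENNReal.ofReal x) j * Es (ENNReal.ofReal x) z ^ j ≠ ⊤ := by
    refine ne_top_of_le_ne_top (ne_top_of_le_ne_top h1 h3) ?_
    rw [Rg_series]
    exact ENNReal.le_tsum j
  have h5 : Es (ENNReal.ofReal x) z ≠ 0 := by
    intro h0
    rw [h0] at h2
    exact hz (le_antisymm h2 bot_le)
  intro h6
  apply h4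
  rw [h6, ENNReal.top_mul (pow_ne_zero j h5)]

theorem SysR_C_mul (c : ℝ≥0∞) (F : ℝ≥0∞⟦X⟧) (n : ℕ) :
    cfR (C c * F) y n = c.toReal * cfR F y n := by
  unfold cfR
  rw [coeff_C_mul, ENNReal.toReal_mul, mul_assoc]

theorem SysR_nonneg (hy : 0 < y) (F : ℝ≥0∞⟦X⟧) (n : ℕ) : 0 ≤ cfR F y n :=
  mul_nonneg ENNReal.toReal_nonneg (pow_nonneg hy.le n)

theorem SysR_coeff_pow_zero {F : ℝ≥0∞⟦X⟧} (hF : coeff 0 F = 0) (j : ℕ) :
    ∀ n, n < j → coeff n (F ^ j) = 0 := by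
  induction j with
  | zero => intro n hn; exact absurd hn (Nat.not_lt_zero n)
  | succ j ih =>
    intro n hn
    rw [pow_succ, coeff_mul]
    refine Finset.sum_eq_zero fun p hp => ?_
    have hp' := HasAntidiagonal.mem_antidiagonal.1 hp
    by_cases h1 : p.1 < j
    · rw [ih p.1 h1, zero_mul]
    · have h2 : p.2 = 0 := by omega
      rw [h2, hF, mul_zero]

section
variable (hx : 0 < x) (hy : 0 < y) (h : Ag (ENNReal.ofReal x) (ENNReal.ofReal y) ≠ ⊤)
include hx hy h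

theorem SysR_A_fin (n : ℕ) : coeff n (AP (ENNReal.ofReal x)) ≠ ⊤ :=
  coeff_ne_top (SysR_ofReal_ne hy) (by rw [ev_AP]; exact h) n

theorem SysR_Z_ev : ev (ZP (ENNReal.ofReal x)) (ENNReal.ofReal y) ≠ ⊤ := by
  rw [ev_ZP]
  exact ENNReal.mul_ne_top ENNReal.ofReal_ne_top (ENNReal.pow_ne_top h)

theorem SysR_Z_fin (n : ℕ) : coeff n (ZP (ENNReal.ofReal x)) ≠ ⊤ :=
  coeff_ne_top (SysR_ofReal_ne hy) (SysR_Z_ev hx hy h) n

theorem SysR_Y_ev (P : BMap → Prop) : ev (YP (ENNReal.ofReal x) P) (ENNReal.ofReal y) ≠ ⊤ :=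
  SysE_ev_ne_top (SysR_ofReal_ne hx) (SysR_ofReal_ne hy) h P

theorem SysR_Y_fin (P : BMap → Prop) (n : ℕ) : coeff n (YP (ENNReal.ofReal x) P) ≠ ⊤ :=
  coeff_ne_top (SysR_ofReal_ne hy) (SysR_Y_ev hx hy h P) n

theorem SysR_R_ev : ev (sbs (rc' (ENNReal.ofReal x)) (YP (ENNReal.ofReal x) fun _ => True))
    (ENNReal.ofReal y) ≠ ⊤ := by
  have h1 := SysR_Y_ev hx hy h (fun _ => True)
  rw [YP_eq (SysR_ofReal_ne hx) (SysR_ofReal_ne hy) h, ev_add] at h1
  exact ne_top_of_le_ne_top h1 le_add_self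

theorem SysR_R_fin (n : ℕ) :
    coeff n (sbs (rc' (ENNReal.ofReal x)) (YP (ENNReal.ofReal x) fun _ => True)) ≠ ⊤ :=
  coeff_ne_top (SysR_ofReal_ne hy) (SysR_R_ev hx hy h) n

theorem SysR_split (P : BMap → Prop) (n : ℕ) :
    YS x y n = cfR (YP (ENNReal.ofReal x) P) y n +
      cfR (YP (ENNReal.ofReal x) (fun M => ¬ P M)) y n := by
  unfold YS
  rw [YP_split _ P, cfR_add (SysR_Y_fin hx hy h _) (SysR_Y_fin hx hy h _)]

theorem SysR_sub (P : BMap → Prop) :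
    YS x y - cfR (YP (ENNReal.ofReal x) P) y =
      cfR (YP (ENNReal.ofReal x) (fun M => ¬ P M)) y := by
  funext n
  rw [Pi.sub_apply, SysR_split hx hy h P n]
  ring

theorem SysR_ha (n : ℕ) : aS x y n = one0 n + zS x y n + x * cv (zS x y) (one0 + YS x y) n := by
  have hZ := SysR_Z_fin hx hy h
  have hY := SysR_Y_fin hx hy h (fun _ => True)
  have h1 : cfR (1 + YP (ENNReal.ofReal x) fun _ => True) y = one0 + YS x y := by
    funext n
    rw [cfR_add SysR_one_ne_top hY, SysR_one]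
    rfl
  unfold aS
  rw [AP_eq (SysR_ofReal_ne hx) (SysR_ofReal_ne hy) h, cfR_add, cfR_add SysR_one_ne_top hZ,
    SysR_one, SysR_C_mul, cfR_mul hZ (SysR_add_ne_top SysR_one_ne_top hY), h1,
    ENNReal.toReal_ofReal hx.le]
  · rfl
  · exact SysR_add_ne_top SysR_one_ne_top hZ
  · intro n
    rw [coeff_C_mul]
    exact ENNReal.mul_ne_top ENNReal.ofReal_ne_top
      (SysR_mul_ne_top hZ (SysR_add_ne_top SysR_one_ne_top hY) n)

theorem SysR_hz (n : ℕ) : zS x y (n + 1) = y * cv (aS x y) (aS x y) n := by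
  have hA := SysR_A_fin hx hy h
  have h1 : zS x y (n + 1) = y * cfR (AP (ENNReal.ofReal x) ^ 2) y n := by
    unfold zS cfR ZP
    rw [coeff_succ_X_mul, pow_succ y n]
    ring
  rw [h1, sq, cfR_mul hA hA]
  rfl

theorem SysR_hY (n : ℕ) : YS x y n = zS x y n + SS x y n + PS x y n + RS x y n := by
  have hZ := SysR_Z_fin hx hy h
  have hS := SysR_Y_fin hx hy h IsSer
  have hP := SysR_Y_fin hx hy h IsPar
  have hR := SysR_R_fin hx hy h
  have h1 : YS x y n = cfR (ZP (ENNReal.ofReal x) + YP (ENNReal.ofReal x) IsSer +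
      YP (ENNReal.ofReal x) IsPar +
      sbs (rc' (ENNReal.ofReal x)) (YP (ENNReal.ofReal x) fun _ => True)) y n := by
    rw [← YP_eq (SysR_ofReal_ne hx) (SysR_ofReal_ne hy) h]
    rfl
  rw [h1, cfR_add (SysR_add_ne_top (SysR_add_ne_top hZ hS) hP) hR,
    cfR_add (SysR_add_ne_top hZ hS) hP, cfR_add hZ hS]
  rfl

theorem SysR_hS (n : ℕ) : SS x y n = x * cv (YS x y - SS x y) (YS x y) n := by
  have h1 : YS x y - SS x y = cfR (YP (ENNReal.ofReal x) (fun M => ¬ IsSer M)) y :=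
    SysR_sub hx hy h IsSer
  have h2 : SS x y n = cfR (C (ENNReal.ofReal x) *
      (YP (ENNReal.ofReal x) (fun M => ¬ IsSer M) * YP (ENNReal.ofReal x) (fun _ => True))) y n := by
    rw [← YP_ser (SysR_ofReal_ne hx) (SysR_ofReal_ne hy) h]
    rfl
  rw [h1, h2, SysR_C_mul, ENNReal.toReal_ofReal hx.le,
    cfR_mul (SysR_Y_fin hx hy h _) (SysR_Y_fin hx hy h _)]
  rfl

theorem SysR_hP (n : ℕ) : PS x y n = cv (YS x y - PS x y) (YS x y) n := by
  have h1 : YS x y - PS x y = cfR (YP (ENNReal.ofReal x) (fun M => ¬ IsPar M)) y :=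
    SysR_sub hx hy h IsPar
  have h2 : PS x y n = cfR
      (YP (ENNReal.ofReal x) (fun M => ¬ IsPar M) * YP (ENNReal.ofReal x) (fun _ => True)) y n := by
    rw [← YP_par (SysR_ofReal_ne hx) (SysR_ofReal_ne hy) h]
    rfl
  rw [h1, h2, cfR_mul (SysR_Y_fin hx hy h _) (SysR_Y_fin hx hy h _)]
  rfl

theorem SysR_hR (n : ℕ) : RS x y n =
    ∑ j ∈ range (n + 1), rhoS x j * cvL (List.replicate j (YS x y)) n := by
  have hY := SysR_Y_fin hx hy h (fun _ => True)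
  have h0 := coeff_zero_YP (ENNReal.ofReal x) (fun _ => True)
  unfold RS cfR sbs
  rw [coeff_mk, tsum_eq_sum (s := range (n + 1)), ENNReal.toReal_sum, Finset.sum_mul]
  · refine Finset.sum_congr rfl fun j _ => ?_
    rw [ENNReal.toReal_mul, mul_assoc]
    have h2 := congrFun (cfR_pow (y := y) hY j) n
    have h3 : cfR (YP (ENNReal.ofReal x) fun _ => True) y = YS x y := rfl
    rw [h3] at h2
    rw [← h2]
    rfl
  · intro j _
    exact ENNReal.mul_ne_top (rc_ne_top hx hy h j) (SysR_pow_ne_top hY j n)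
  · intro j hj
    rw [SysR_coeff_pow_zero h0 j n (by simpa [Finset.mem_range] using hj), mul_zero]

end

theorem sys (hx : 0 < x) (hy : 0 < y) (h : Ag (ENNReal.ofReal x) (ENNReal.ofReal y) ≠ ⊤) :
    Sys x y (rhoS x) (aS x y) (zS x y) (SS x y) (PS x y) (RS x y) (YS x y) where
  ρ0 := fun _ => ENNReal.toReal_nonneg
  a0 := SysR_nonneg hy _
  z0 := SysR_nonneg hy _
  S0 := SysR_nonneg hy _
  P0 := SysR_nonneg hy _
  R0 := SysR_nonneg hy _
  Y0 := SysR_nonneg hy _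
  SY := fun n => by
    rw [SysR_split hx hy h IsSer n]
    exact le_add_of_nonneg_right (SysR_nonneg hy _ n)
  PY := fun n => by
    rw [SysR_split hx hy h IsPar n]
    exact le_add_of_nonneg_right (SysR_nonneg hy _ n)
  ha := SysR_ha hx hy h
  hz0 := by
    unfold zS cfR
    rw [coeff_zero_ZP, ENNReal.toReal_zero, zero_mul]
  hz := SysR_hz hx hy h
  hY := SysR_hY hx hy h
  hY0 := by
    unfold YS cfR
    rw [coeff_zero_YP, ENNReal.toReal_zero, zero_mul]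
  hS := SysR_hS hx hy h
  hP := SysR_hP hx hy h
  hR := SysR_hR hx hy h

theorem sys_sums (hx : 0 < x) (hy : 0 < y)
    (h : Ag (ENNReal.ofReal x) (ENNReal.ofReal y) ≠ ⊤) :
    HasSum (aS x y) (Ag (ENNReal.ofReal x) (ENNReal.ofReal y)).toReal ∧
    HasSum (zS x y) (y * (Ag (ENNReal.ofReal x) (ENNReal.ofReal y)).toReal ^ 2) ∧
    HasSum (YS x y) (Es (ENNReal.ofReal x)
      (ENNReal.ofReal y * Ag (ENNReal.ofReal x) (ENNReal.ofReal y) ^ 2)).toReal ∧
    Summable (SS x y) ∧ Summable (PS x y) ∧ Summable (RS x y) := by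
  have h1 := cfR_hasSum hy (F := AP (ENNReal.ofReal x)) (by rw [ev_AP]; exact h)
  have h2 := cfR_hasSum hy (SysR_Z_ev hx hy h)
  have h3 := cfR_hasSum hy (SysR_Y_ev hx hy h (fun _ => True))
  have h4 := cfR_hasSum hy (SysR_Y_ev hx hy h IsSer)
  have h5 := cfR_hasSum hy (SysR_Y_ev hx hy h IsPar)
  have h6 := cfR_hasSum hy (SysR_R_ev hx hy h)
  rw [ev_AP] at h1
  rw [ev_ZP, ENNReal.toReal_mul, ENNReal.toReal_ofReal hy.le, ENNReal.toReal_pow] at h2
  rw [ev_YP] at h3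
  exact ⟨h1, h2, h3, h4.summable, h5.summable, h6.summable⟩

open Classical in
/-- the coefficient sequence of the general maps -/
theorem aS_eq (x y : ℝ) (N : ℕ) (hN : 1 ≤ N) :
    aS x y N = (∑' m : RMC, if m.out.1.E = N then
      ENNReal.ofReal x ^ (nV m.out.1.s - 1) else 0).toReal * y ^ N := by
  unfold aS cfR AP aE
  rw [coeff_mk, if_neg (by omega)]

theorem aS_zero (x y : ℝ) : aS x y 0 = 1 := by
  unfold aS cfR AP aE
  rw [coeff_mk, if_pos rfl, pow_zero, ENNReal.toReal_one, mul_one]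

end Dia
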