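import Pool.Agent.DiaC.ZFam
import Pool.Agent.DiaC.SysR

/-!
# Module ZSize: sizes of filled nets and the power series `YP`

`ZF_eq`: `F = ⟨c, X⟩`; `fwt x y F = x^(nV - 2) y^(card D / 2) ∏ d, x^onv (X d) y^oE (X d)`; the sum over
`X : D → Option RMC` is `(Ag x y)^(card D)` (`prod_tsum`, `Ag_eq_o`), `card D = 2 * (card D / 2)` is even; compare
`W s z M = s^(nV-2) z^(card D/2)` in `Esel`.  `ENNReal.tsum_sigma`.

`fz_coeff`: let `G = mk (fun N => ∑' F, if P ∧ fsz F = N then x^fnv F else 0)`.  For all `y`: `ev G y = ZF x y P`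
(exchange the sums) `= Esel x (y Ag²) P = ev (YP x P) y` (`ev_YP`).  `ev_inj` at `y0` (`Esel ≤ Es < ∞`,
`Es_ne_top`).
`fz_pow_coeff`: the same with `(YP x P)^(card I)` (`ev_pow`) and families: `ZG` of families with all members in `P`
is `(ZF P)^card I` (`prod_tsum`).
`ZF_size`, `ZG_size`: multiply by `y^N` (`∏ fwt = x^(∑ fnv) y^(∑ fsz)`); `cfR_pow` (finite coefficients:
`coeff_ne_top`), `ENNReal.ofReal_toReal`.
`ZG_fin`: sum over a finite set of sizes.
-/

set_option linter.unusedSectionVars false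

namespace Dia
open Equiv Finset PGr PowerSeries Pool.Agent.DiamP
open scoped ENNReal Classical

private theorem ZSize_even (c : GC) :
    Fintype.card c.rep.1.D = 2 * (Fintype.card c.rep.1.D / 2) := by
  have h : Good c.rep.1.aa c.rep.1.s := c.rep.2
  have h1 : ∑ x : c.rep.1.T, (1 : ZMod 2) = 0 := by
    refine Finset.sum_involution (fun x _ => c.rep.1.aa x) ?_ ?_ ?_ ?_
    · intro x _
      decide
    · intro x _ _
      exact h.fpf x
    · intro x _
      exact Finset.mem_univ _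
    · intro x _
      exact h.inv x
  have h2 : ((Fintype.card c.rep.1.T : ℕ) : ZMod 2) = 0 := by
    rw [← h1, Finset.sum_const, Finset.card_univ]
    simp
  have h3 : 2 ∣ Fintype.card c.rep.1.T := (ZMod.natCast_eq_zero_iff _ _).1 h2
  have h4 : Fintype.card c.rep.1.T = Fintype.card c.rep.1.D + 2 := by
    rw [Fintype.card_sum, Fintype.card_bool]
  omega

theorem ZF_eq (x y : ℝ≥0∞) (P : BMap → Prop) :
    ZF x y (fun F => P F.1.rep.1) = Esel x (y * Ag x y ^ 2) P := by
  rw [ESum.Esel_eq, ZF, ENNReal.tsum_sigma']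
  refine tsum_congr fun c => ?_
  by_cases hP : P c.rep.1
  · rw [if_pos hP]
    have h1 : ∀ X : c.rep.1.D → Option RMC, (if P c.rep.1 then fwt x y ⟨c, X⟩ else 0) =
        x ^ (nV c.rep.1.s - 2) * y ^ (Fintype.card c.rep.1.D / 2) *
          ∏ d, (x ^ onv (X d) * y ^ oE (X d)) := by
      intro X
      rw [if_pos hP]
      unfold fwt fnv fsz
      rw [pow_add, pow_add, Finset.prod_mul_distrib, Finset.prod_pow_eq_pow_sum,
        Finset.prod_pow_eq_pow_sum]
      ring
    rw [tsum_congr h1, ENNReal.tsum_mul_left, ← prod_tsum (fun (_ : c.rep.1.D) (o : Option RMC) =>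
      x ^ onv o * y ^ oE o), ← Ag_eq_o, Finset.prod_const, Finset.card_univ]
    unfold W
    conv_lhs => rw [ZSize_even c, pow_mul (Ag x y)]
    rw [Nat.mul_div_cancel_left _ two_pos, mul_pow, mul_assoc]
  · rw [if_neg hP, ENNReal.tsum_eq_zero]
    exact fun X => if_neg hP

theorem ZF_true (x y : ℝ≥0∞) : ZF x y (fun _ => True) = Es x (y * Ag x y ^ 2) :=
  ZF_eq x y (fun _ => True)

private theorem ZSize_ev {α : Type*} (P : α → Prop) (sz : α → ℕ) (w : α → ℝ≥0∞) (y : ℝ≥0∞)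
    [∀ N a, Decidable (P a ∧ sz a = N)] [∀ a, Decidable (P a)] :
    ev (mk fun N => ∑' a, if P a ∧ sz a = N then w a else 0) y =
      ∑' a, if P a then w a * y ^ sz a else 0 := by
  rw [ev_mk]
  have h1 : ∀ N, (∑' a, if P a ∧ sz a = N then w a else 0) * y ^ N =
      ∑' a, (if P a ∧ sz a = N then w a * y ^ N else 0) := by
    intro N
    rw [← ENNReal.tsum_mul_right]
    refine tsum_congr fun a => ?_
    split_ifs
    · rfl
    · rw [zero_mul]
  rw [tsum_congr h1, ENNReal.tsum_comm]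
  refine tsum_congr fun a => ?_
  rw [tsum_eq_single (sz a)]
  · by_cases hP : P a
    · rw [if_pos ⟨hP, rfl⟩, if_pos hP]
    · rw [if_neg (fun h => hP h.1), if_neg hP]
  · intro N hN
    rw [if_neg fun h => hN h.2.symm]

theorem fz_coeff {x y0 : ℝ≥0∞} (hx0 : x ≠ 0) (hy0 : y0 ≠ 0) (h : Ag x y0 ≠ ⊤) (P : BMap → Prop)
    (N : ℕ) : coeff N (YP x P) =
      ∑' F : FN, if P F.1.rep.1 ∧ fsz F = N then x ^ fnv F else 0 := by
  have h1 : YP x P = mk fun N => ∑' F : FN, if P F.1.rep.1 ∧ fsz F = N then x ^ fnv F else 0 := by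
    refine ev_inj (fun y => ?_) hy0 (SysE_ev_ne_top hx0 hy0 h P)
    rw [ev_YP, ← ZF_eq, ZSize_ev (fun F : FN => P F.1.rep.1) fsz (fun F => x ^ fnv F)]
    rfl
  rw [h1, coeff_mk]

theorem fz_pow_coeff {x y0 : ℝ≥0∞} (hx0 : x ≠ 0) (hy0 : y0 ≠ 0) (h : Ag x y0 ≠ ⊤)
    {I : Type} [Fintype I] (N : ℕ) : coeff N ((YP x fun _ => True) ^ Fintype.card I) =
      ∑' g : I → FN, if ∑ i, fsz (g i) = N then x ^ (∑ i, fnv (g i)) else 0 := by
  have h1 : (YP x fun _ => True) ^ Fintype.card I = mk fun N => ∑' g : I → FN,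
      if True ∧ ∑ i, fsz (g i) = N then x ^ (∑ i, fnv (g i)) else 0 := by
    refine ev_inj (fun y => ?_) hy0 ?_
    · rw [ev_pow, ev_YP, ← ZF_eq x y (fun _ => True),
        ZSize_ev (fun _ : I → FN => True) (fun g => ∑ i, fsz (g i)) (fun g => x ^ (∑ i, fnv (g i)))]
      have h2 : ZF x y (fun _ => True) ^ Fintype.card I = ∏ _i : I, ∑' F : FN, fwt x y F := by
        rw [Finset.prod_const, Finset.card_univ]
        congr 1
        exact tsum_congr fun F => if_pos trivial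
      rw [h2, prod_tsum (fun (_ : I) (F : FN) => fwt x y F)]
      refine tsum_congr fun g => ?_
      rw [if_pos trivial]
      unfold fwt
      rw [Finset.prod_mul_distrib, Finset.prod_pow_eq_pow_sum, Finset.prod_pow_eq_pow_sum]
    · rw [ev_pow]
      exact ENNReal.pow_ne_top (SysE_ev_ne_top hx0 hy0 h _)
  rw [h1, coeff_mk]
  refine tsum_congr fun g => ?_
  simp only [true_and]

section
variable {x y : ℝ}

private theorem ZSize_mul (F : ℝ≥0∞⟦X⟧) (hy : 0 < y) (N : ℕ) (hF : coeff N F ≠ ⊤) :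
    coeff N F * ENNReal.ofReal y ^ N = ENNReal.ofReal (cfR F y N) := by
  unfold cfR
  rw [ENNReal.ofReal_mul ENNReal.toReal_nonneg, ENNReal.ofReal_toReal hF,
    ENNReal.ofReal_pow hy.le]

theorem ZF_size (hx : 0 < x) (hy : 0 < y) (h : Ag (ENNReal.ofReal x) (ENNReal.ofReal y) ≠ ⊤)
    (N : ℕ) : ZF (ENNReal.ofReal x) (ENNReal.ofReal y) (fun F => fsz F = N) =
      ENNReal.ofReal (YS x y N) := by
  have h1 := fz_coeff (SysR_ofReal_ne hx) (SysR_ofReal_ne hy) h (fun _ => True) N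
  have h2 : ZF (ENNReal.ofReal x) (ENNReal.ofReal y) (fun F => fsz F = N) =
      coeff N (YP (ENNReal.ofReal x) fun _ => True) * ENNReal.ofReal y ^ N := by
    rw [h1, ZF, ← ENNReal.tsum_mul_right]
    refine tsum_congr fun F => ?_
    by_cases hF : fsz F = N
    · rw [if_pos hF, if_pos ⟨trivial, hF⟩, fwt, hF]
    · rw [if_neg hF, if_neg (fun h => hF h.2), zero_mul]
  rw [h2, ZSize_mul _ hy N (SysR_Y_fin hx hy h _ N)]
  rfl

theorem ZG_size (hx : 0 < x) (hy : 0 < y) (h : Ag (ENNReal.ofReal x) (ENNReal.ofReal y) ≠ ⊤)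
    {I : Type} [Fintype I] (N : ℕ) :
    ZG (ENNReal.ofReal x) (ENNReal.ofReal y) (fun g : I → FN => ∑ i, fsz (g i) = N) =
      ENNReal.ofReal (cvL (List.replicate (Fintype.card I) (YS x y)) N) := by
  have h1 := fz_pow_coeff (I := I) (SysR_ofReal_ne hx) (SysR_ofReal_ne hy) h N
  have h2 : ZG (ENNReal.ofReal x) (ENNReal.ofReal y) (fun g : I → FN => ∑ i, fsz (g i) = N) =
      coeff N ((YP (ENNReal.ofReal x) fun _ => True) ^ Fintype.card I) *
        ENNReal.ofReal y ^ N := by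
    rw [h1, ZG, ← ENNReal.tsum_mul_right]
    refine tsum_congr fun g => ?_
    by_cases hF : ∑ i, fsz (g i) = N
    · rw [if_pos hF, if_pos hF]
      unfold fwt
      rw [Finset.prod_mul_distrib, Finset.prod_pow_eq_pow_sum, Finset.prod_pow_eq_pow_sum, hF]
    · rw [if_neg hF, if_neg hF, zero_mul]
  have hfin := SysR_Y_fin hx hy h (fun _ => True)
  rw [h2, ZSize_mul _ hy N (SysR_pow_ne_top hfin _ N), cfR_pow hfin]
  rfl

theorem ZG_fin (hx : 0 < x) (hy : 0 < y) (h : Ag (ENNReal.ofReal x) (ENNReal.ofReal y) ≠ ⊤)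
    {I : Type} [Fintype I] (W : Finset ℕ) :
    ZG (ENNReal.ofReal x) (ENNReal.ofReal y) (fun g : I → FN => ∑ i, fsz (g i) ∈ W) =
      ∑ N ∈ W, ENNReal.ofReal (cvL (List.replicate (Fintype.card I) (YS x y)) N) := by
  have h1 : ∀ N ∈ W, ENNReal.ofReal (cvL (List.replicate (Fintype.card I) (YS x y)) N) =
      ZG (ENNReal.ofReal x) (ENNReal.ofReal y) (fun g : I → FN => ∑ i, fsz (g i) = N) :=
    fun N _ => (ZG_size hx hy h N).symm
  rw [Finset.sum_congr rfl h1]
  unfold ZG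
  rw [← Summable.tsum_finsetSum fun _ _ => ENNReal.summable]
  refine tsum_congr fun g => ?_
  by_cases hW : ∑ i, fsz (g i) ∈ W
  · rw [if_pos hW, Finset.sum_eq_single_of_mem _ hW]
    · exact (if_pos rfl).symm
    · intro N _ hN
      exact if_neg fun h => hN h.symm
  · rw [if_neg hW]
    refine (Finset.sum_eq_zero fun N hN => if_neg ?_).symm
    intro h
    exact hW (h ▸ hN)

end

end Dia
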