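import Pool.Agent.DiaC.HerA
import Pool.Agent.DiaC.HerS
import Pool.Agent.DiaC.ZSize

/-!
# Module HerSys: the real sequences for bounded diameter

`0 < x`, `0 < y`, `Ag (ofReal x) (ofReal y) ≠ ⊤`.  All coefficients are at most those of the full series:
`aLE ≤ aE`, `fLE x L P N ≤ coeff N (YP x P)` (`fz_coeff`), `rLE ≤ rc'`, so they are finite, and `toReal` is monotone.
`R' ≤ R`: `her_rig`, then `rLE ≤ rc'`, `FL ≤ YP` coefficientwise (also for powers), definition of `RS`.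
`hY`: `fLE True = fLE (card < 4) + fLE (4 ≤ card) ≤ fLE (card < 4) + fLE IsSer + fLE IsPar + fLE IsRg`, `her_dig`.
`hS`: `her_ser` and `fLE (¬ IsSer) ≤ fLE (card < 4) + fLE IsPar + fLE IsRg`.  `hP`: the same.
`hR`: `her_rig`; only `j ≤ n` contribute (`coeff 0 (FL) = 0`: `fsz_pos`).
`ha`: `her_A`.  `cfR_add`, `cfR_mul`, `cfR_pow` (`SysR.lean`).
-/

set_option linter.unusedSectionVars false

namespace Dia
open Finset PGr PowerSeries Pool.Agent.DiamP
open scoped ENNReal Classical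

variable {x y : ℝ}

/-! ### coefficientwise comparison -/

private theorem HerSys_mul_le {F G F' G' : ℝ≥0∞⟦X⟧} (h1 : ∀ n, coeff n F ≤ coeff n F')
    (h2 : ∀ n, coeff n G ≤ coeff n G') (n : ℕ) : coeff n (F * G) ≤ coeff n (F' * G') := by
  rw [coeff_mul, coeff_mul]
  exact Finset.sum_le_sum fun p _ => mul_le_mul' (h1 _) (h2 _)

private theorem HerSys_pow_le {F F' : ℝ≥0∞⟦X⟧} (h1 : ∀ n, coeff n F ≤ coeff n F') (j : ℕ) :
    ∀ n, coeff n (F ^ j) ≤ coeff n (F' ^ j) := by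
  induction j with
  | zero => intro n; rw [pow_zero, pow_zero]
  | succ j ih => intro n; rw [pow_succ, pow_succ]; exact HerSys_mul_le ih h1 n

private theorem HerSys_cfR_mono {F G : ℝ≥0∞⟦X⟧} (hy : 0 < y) (n : ℕ) (h1 : coeff n F ≤ coeff n G)
    (h2 : coeff n G ≠ ⊤) : cfR F y n ≤ cfR G y n :=
  mul_le_mul_of_nonneg_right (ENNReal.toReal_mono h2 h1) (pow_nonneg hy.le n)

private theorem HerSys_aLE_le (x : ℝ≥0∞) (L n : ℕ) : aLE x L n ≤ aE x n := by
  unfold aLE aE
  by_cases hn : n = 0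
  · rw [if_pos hn, if_pos hn]
  · rw [if_neg hn, if_neg hn]
    refine ENNReal.tsum_le_tsum fun m => ?_
    by_cases h : m.out.1.E = n
    · rw [if_pos h]
      split_ifs
      · exact le_rfl
      · exact bot_le
    · rw [if_neg h, if_neg (fun h' => h h'.1)]

private theorem HerSys_A_le (x : ℝ≥0∞) (L n : ℕ) : coeff n (AL x L) ≤ coeff n (AP x) := by
  unfold AL AP
  rw [coeff_mk, coeff_mk]
  exact HerSys_aLE_le x L n

private theorem HerSys_Z_le (x : ℝ≥0∞) (L n : ℕ) : coeff n (ZL x L) ≤ coeff n (ZP x) := by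
  unfold ZL ZP
  exact HerSys_mul_le (fun _ => le_rfl) (HerSys_pow_le (HerSys_A_le x L) 2) n

private theorem HerSys_r_le (x : ℝ≥0∞) (L j : ℕ) : rLE x L j ≤ rc' x j := by
  unfold rLE rc' gE
  refine ENNReal.tsum_le_tsum fun c => ?_
  by_cases h : Rigid c.rep.1 ∧ Fintype.card c.rep.1.D / 2 = j
  · rw [if_pos h]
    split_ifs
    · exact le_rfl
    · exact bot_le
  · rw [if_neg h, if_neg (fun h' => h ⟨h'.1, h'.2.2⟩)]

/-- the sums over filled nets: monotone in the property -/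
private theorem HerSys_f_mono (x : ℝ≥0∞) (L : ℕ) {P Q : BMap → Prop} (h : ∀ M, P M → Q M)
    (n : ℕ) : fLE x L P n ≤ fLE x L Q n := by
  unfold fLE
  refine ENNReal.tsum_le_tsum fun F => ?_
  by_cases hF : P F.1.rep.1 ∧ (fmap F).dm ≤ L ∧ fsz F = n
  · rw [if_pos hF, if_pos ⟨h _ hF.1, hF.2⟩]
  · rw [if_neg hF]
    exact bot_le

private theorem HerSys_f_or (x : ℝ≥0∞) (L : ℕ) (P Q : BMap → Prop) (n : ℕ) :
    fLE x L (fun M => P M ∨ Q M) n ≤ fLE x L P n + fLE x L Q n := by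
  unfold fLE
  rw [← ENNReal.tsum_add]
  refine ENNReal.tsum_le_tsum fun F => ?_
  by_cases hF : (fmap F).dm ≤ L ∧ fsz F = n
  · by_cases hP : P F.1.rep.1
    · rw [if_pos ⟨Or.inl hP, hF⟩, if_pos ⟨hP, hF⟩]
      exact le_self_add
    · by_cases hQ : Q F.1.rep.1
      · rw [if_pos (⟨Or.inr hQ, hF⟩ : (P F.1.rep.1 ∨ Q F.1.rep.1) ∧ (fmap F).dm ≤ L ∧ fsz F = n),
          if_pos (⟨hQ, hF⟩ : Q F.1.rep.1 ∧ (fmap F).dm ≤ L ∧ fsz F = n)]
        exact le_add_self
      · rw [if_neg (fun h => by rcases h.1 with h | h; exacts [hP h, hQ h])]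
        exact bot_le
  · rw [if_neg (fun h => hF h.2)]
    exact bot_le

section
variable (hx : 0 < x) (hy : 0 < y) (h : Ag (ENNReal.ofReal x) (ENNReal.ofReal y) ≠ ⊤)
include hx hy h

private theorem HerSys_F_le (L : ℕ) (P : BMap → Prop) (n : ℕ) :
    coeff n (FL (ENNReal.ofReal x) L P) ≤ coeff n (YP (ENNReal.ofReal x) P) := by
  rw [fz_coeff (SysR_ofReal_ne hx) (SysR_ofReal_ne hy) h P n, FL, coeff_mk]
  unfold fLE
  refine ENNReal.tsum_le_tsum fun F => ?_
  by_cases hF : P F.1.rep.1 ∧ fsz F = n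
  · rw [if_pos hF]
    split_ifs
    · exact le_rfl
    · exact bot_le
  · rw [if_neg hF, if_neg (fun h' => hF ⟨h'.1, h'.2.2⟩)]

private theorem HerSys_A_fin (L n : ℕ) : coeff n (AL (ENNReal.ofReal x) L) ≠ ⊤ :=
  ne_top_of_le_ne_top (SysR_A_fin hx hy h n) (HerSys_A_le _ L n)

private theorem HerSys_Z_fin (L n : ℕ) : coeff n (ZL (ENNReal.ofReal x) L) ≠ ⊤ :=
  ne_top_of_le_ne_top (SysR_Z_fin hx hy h n) (HerSys_Z_le _ L n)

private theorem HerSys_F_fin (L : ℕ) (P : BMap → Prop) (n : ℕ) :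
    coeff n (FL (ENNReal.ofReal x) L P) ≠ ⊤ :=
  ne_top_of_le_ne_top (SysR_Y_fin hx hy h P n) (HerSys_F_le hx hy h L P n)

private theorem HerSys_r_fin (L j : ℕ) : rLE (ENNReal.ofReal x) L j ≠ ⊤ :=
  ne_top_of_le_ne_top (rc_ne_top hx hy h j) (HerSys_r_le _ L j)

private theorem HerSys_R_le (L n : ℕ) : coeff n (FL (ENNReal.ofReal x) L IsRg) ≤
    coeff n (sbs (rc' (ENNReal.ofReal x)) (YP (ENNReal.ofReal x) fun _ => True)) := by
  rw [FL, coeff_mk, sbs, coeff_mk]
  refine (her_rig _ L n).trans (ENNReal.tsum_le_tsum fun j => ?_)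
  exact mul_le_mul' (HerSys_r_le _ L j) (HerSys_pow_le (HerSys_F_le hx hy h L _) j n)

private theorem HerSys_ha (L n : ℕ) : aLS x y L n ≤
    one0 n + zLS x y L n + x * (zLS x y L n + cv (zLS x y L) (YLS x y L) n) := by
  have hZ := HerSys_Z_fin hx hy h L
  have hF := HerSys_F_fin hx hy h L (fun _ => True)
  have hZF := SysR_mul_ne_top hZ hF
  have hC : ∀ n, coeff n (C (ENNReal.ofReal x) * (ZL (ENNReal.ofReal x) L +
      ZL (ENNReal.ofReal x) L * FL (ENNReal.ofReal x) L fun _ => True)) ≠ ⊤ := by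
    intro n
    rw [coeff_C_mul]
    exact ENNReal.mul_ne_top ENNReal.ofReal_ne_top (SysR_add_ne_top hZ hZF n)
  have h1 := her_A (ENNReal.ofReal x) L n
  rw [mul_add, mul_one] at h1
  have h2 : cfR (1 + ZL (ENNReal.ofReal x) L + C (ENNReal.ofReal x) * (ZL (ENNReal.ofReal x) L +
      ZL (ENNReal.ofReal x) L * FL (ENNReal.ofReal x) L fun _ => True)) y n =
      one0 n + zLS x y L n + x * (zLS x y L n + cv (zLS x y L) (YLS x y L) n) := by
    rw [cfR_add (SysR_add_ne_top SysR_one_ne_top hZ) hC, cfR_add SysR_one_ne_top hZ, SysR_one,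
      SysR_C_mul, cfR_add hZ hZF, cfR_mul hZ hF, ENNReal.toReal_ofReal hx.le]
    rfl
  rw [← h2]
  exact HerSys_cfR_mono hy n h1
    (SysR_add_ne_top (SysR_add_ne_top SysR_one_ne_top hZ) hC n)

private theorem HerSys_hz (L n : ℕ) :
    zLS x y L (n + 1) = y * cv (aLS x y L) (aLS x y L) n := by
  have hA := HerSys_A_fin hx hy h L
  have h1 : zLS x y L (n + 1) = y * cfR (AL (ENNReal.ofReal x) L ^ 2) y n := by
    unfold zLS cfR ZL
    rw [coeff_succ_X_mul, pow_succ y n]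
    ring
  rw [h1, sq, cfR_mul hA hA]
  rfl

/-- a sum of three classes -/
private theorem HerSys_three (L : ℕ) {P Q1 Q2 : BMap → Prop}
    (hP : ∀ M, P M → Fintype.card M.D < 4 ∨ (Q1 M ∨ Q2 M)) (n : ℕ) :
    cfR (FL (ENNReal.ofReal x) L P) y n ≤ zLS x y L n +
      cfR (FL (ENNReal.ofReal x) L Q1) y n + cfR (FL (ENNReal.ofReal x) L Q2) y n := by
  have hZ := HerSys_Z_fin hx hy h L
  have h1 := HerSys_F_fin hx hy h L Q1
  have h2 := HerSys_F_fin hx hy h L Q2
  have h3 : coeff n (FL (ENNReal.ofReal x) L P) ≤ coeff n (ZL (ENNReal.ofReal x) L +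
      FL (ENNReal.ofReal x) L Q1 + FL (ENNReal.ofReal x) L Q2) := by
    rw [map_add, map_add, add_assoc]
    simp only [FL, coeff_mk]
    refine (HerSys_f_mono _ L hP n).trans ((HerSys_f_or _ L _ _ n).trans ?_)
    exact add_le_add (her_dig _ L n) (HerSys_f_or _ L _ _ n)
  have h4 := HerSys_cfR_mono hy n h3 (SysR_add_ne_top (SysR_add_ne_top hZ h1) h2 n)
  rw [cfR_add (SysR_add_ne_top hZ h1) h2, cfR_add hZ h1] at h4
  exact h4

private theorem HerSys_hY (L n : ℕ) :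
    YLS x y L n ≤ zLS x y L n + SLS x y L n + PLS x y L n + RLS x y L n := by
  have hZ := HerSys_Z_fin hx hy h L
  have h1 := HerSys_F_fin hx hy h L IsSer
  have h2 := HerSys_F_fin hx hy h L IsPar
  have h5 := HerSys_F_fin hx hy h L IsRg
  have h3 : coeff n (FL (ENNReal.ofReal x) L fun _ => True) ≤ coeff n (ZL (ENNReal.ofReal x) L +
      FL (ENNReal.ofReal x) L IsSer + FL (ENNReal.ofReal x) L IsPar +
      FL (ENNReal.ofReal x) L IsRg) := by
    rw [map_add, map_add, map_add, add_assoc, add_assoc]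
    simp only [FL, coeff_mk]
    have hP : ∀ M : BMap, True → Fintype.card M.D < 4 ∨ (IsSer M ∨ (IsPar M ∨ IsRg M)) := by
      intro M _
      unfold IsRg
      by_cases h1 : Fintype.card M.D < 4
      · exact Or.inl h1
      · by_cases h2 : IsSer M
        · exact Or.inr (Or.inl h2)
        · by_cases h3 : IsPar M
          · exact Or.inr (Or.inr (Or.inl h3))
          · exact Or.inr (Or.inr (Or.inr ⟨h2, h3, not_lt.1 h1⟩))
    refine (HerSys_f_mono _ L hP n).trans ((HerSys_f_or _ L _ _ n).trans ?_)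
    refine add_le_add (her_dig _ L n) ((HerSys_f_or _ L _ _ n).trans ?_)
    exact add_le_add le_rfl (HerSys_f_or _ L _ _ n)
  have h4 := HerSys_cfR_mono hy n h3
    (SysR_add_ne_top (SysR_add_ne_top (SysR_add_ne_top hZ h1) h2) h5 n)
  rw [cfR_add (SysR_add_ne_top (SysR_add_ne_top hZ h1) h2) h5,
    cfR_add (SysR_add_ne_top hZ h1) h2, cfR_add hZ h1] at h4
  exact h4

private theorem HerSys_coeff_zero (L : ℕ) (P : BMap → Prop) :
    coeff 0 (FL (ENNReal.ofReal x) L P) = 0 := by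
  rw [FL, coeff_mk, fLE, ENNReal.tsum_eq_zero]
  intro F
  rw [if_neg]
  rintro ⟨-, -, h2⟩
  have := fsz_pos F
  omega

private theorem HerSys_hS (L n : ℕ) :
    SLS x y L n ≤ x * cv (zLS x y L + PLS x y L + RLS x y L) (YLS x y L) n := by
  have h1 := HerSys_F_fin hx hy h L (fun M => ¬ IsSer M)
  have h2 := HerSys_F_fin hx hy h L (fun _ => True)
  have h3 : coeff n (FL (ENNReal.ofReal x) L IsSer) ≤ coeff n (C (ENNReal.ofReal x) *
      (FL (ENNReal.ofReal x) L (fun M => ¬ IsSer M) * FL (ENNReal.ofReal x) L fun _ => True)) := by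
    rw [coeff_C_mul, coeff_mul]
    simp only [FL, coeff_mk]
    exact her_ser _ L n
  have h4 := HerSys_cfR_mono hy n h3 (by
    rw [coeff_C_mul]
    exact ENNReal.mul_ne_top ENNReal.ofReal_ne_top (SysR_mul_ne_top h1 h2 n))
  rw [SysR_C_mul, cfR_mul h1 h2, ENNReal.toReal_ofReal hx.le] at h4
  refine h4.trans (mul_le_mul_of_nonneg_left ?_ hx.le)
  unfold cv
  refine Finset.sum_le_sum fun p _ => ?_
  refine mul_le_mul_of_nonneg_right ?_ (SysR_nonneg hy _ _)
  refine HerSys_three hx hy h L (Q1 := IsPar) (Q2 := IsRg) ?_ p.1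
  intro M hM
  unfold IsRg
  by_cases h1 : Fintype.card M.D < 4
  · exact Or.inl h1
  · by_cases h3 : IsPar M
    · exact Or.inr (Or.inl h3)
    · exact Or.inr (Or.inr ⟨hM, h3, not_lt.1 h1⟩)

private theorem HerSys_hP (L n : ℕ) :
    PLS x y L n ≤ cv (zLS x y L + SLS x y L + RLS x y L) (YLS x y L) n := by
  have h1 := HerSys_F_fin hx hy h L (fun M => ¬ IsPar M)
  have h2 := HerSys_F_fin hx hy h L (fun _ => True)
  have h3 : coeff n (FL (ENNReal.ofReal x) L IsPar) ≤ coeff n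
      (FL (ENNReal.ofReal x) L (fun M => ¬ IsPar M) * FL (ENNReal.ofReal x) L fun _ => True) := by
    rw [coeff_mul]
    simp only [FL, coeff_mk]
    exact her_par _ L n
  have h4 := HerSys_cfR_mono hy n h3 (SysR_mul_ne_top h1 h2 n)
  rw [cfR_mul h1 h2] at h4
  refine h4.trans ?_
  unfold cv
  refine Finset.sum_le_sum fun p _ => ?_
  refine mul_le_mul_of_nonneg_right ?_ (SysR_nonneg hy _ _)
  refine HerSys_three hx hy h L (Q1 := IsSer) (Q2 := IsRg) ?_ p.1
  intro M hM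
  unfold IsRg
  by_cases h1 : Fintype.card M.D < 4
  · exact Or.inl h1
  · by_cases h3 : IsSer M
    · exact Or.inr (Or.inl h3)
    · exact Or.inr (Or.inr ⟨h3, hM, not_lt.1 h1⟩)

private theorem HerSys_hR (L n : ℕ) : RLS x y L n ≤
    ∑ j ∈ range (n + 1), rhoLS x L j * cvL (List.replicate j (YLS x y L)) n := by
  have hF := HerSys_F_fin hx hy h L (fun _ => True)
  have h0 := HerSys_coeff_zero hx hy h L (fun _ => True)
  have h1 := her_rig (ENNReal.ofReal x) L n
  rw [tsum_eq_sum (s := range (n + 1)) (fun j hj => by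
    rw [SysR_coeff_pow_zero h0 j n (by simpa [Finset.mem_range] using hj), mul_zero])] at h1
  have hfin : ∀ j ∈ range (n + 1), rLE (ENNReal.ofReal x) L j *
      coeff n (FL (ENNReal.ofReal x) L (fun _ => True) ^ j) ≠ ⊤ := fun j _ =>
    ENNReal.mul_ne_top (HerSys_r_fin hx hy h L j) (SysR_pow_ne_top hF j n)
  have h2 := ENNReal.toReal_mono (ENNReal.sum_ne_top.2 hfin) h1
  rw [ENNReal.toReal_sum hfin] at h2
  have h3 := mul_le_mul_of_nonneg_right h2 (pow_nonneg hy.le n)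
  have h4 : RLS x y L n = (fLE (ENNReal.ofReal x) L IsRg n).toReal * y ^ n := by
    unfold RLS cfR FL
    rw [coeff_mk]
  rw [h4]
  refine h3.trans (le_of_eq ?_)
  rw [Finset.sum_mul]
  refine Finset.sum_congr rfl fun j _ => ?_
  rw [ENNReal.toReal_mul, mul_assoc]
  have h5 := congrFun (cfR_pow (y := y) hF j) n
  have h6 : cfR (FL (ENNReal.ofReal x) L fun _ => True) y = YLS x y L := rfl
  rw [h6] at h5
  rw [← h5]
  rfl

end

theorem subsys (hx : 0 < x) (hy : 0 < y) (h : Ag (ENNReal.ofReal x) (ENNReal.ofReal y) ≠ ⊤)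
    (L : ℕ) : SubSys x y (rhoS x) (aS x y) (zS x y) (SS x y) (PS x y) (RS x y) (YS x y)
      (rhoLS x L) (aLS x y L) (zLS x y L) (SLS x y L) (PLS x y L) (RLS x y L) (YLS x y L) where
  ρ0 := fun _ => ENNReal.toReal_nonneg
  a0 := SysR_nonneg hy _
  z0 := SysR_nonneg hy _
  S0 := SysR_nonneg hy _
  P0 := SysR_nonneg hy _
  R0 := SysR_nonneg hy _
  Y0 := SysR_nonneg hy _
  ρle := fun n => ENNReal.toReal_mono (rc_ne_top hx hy h n) (HerSys_r_le _ L n)
  ale := fun n => HerSys_cfR_mono hy n (HerSys_A_le _ L n) (SysR_A_fin hx hy h n)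
  zle := fun n => HerSys_cfR_mono hy n (HerSys_Z_le _ L n) (SysR_Z_fin hx hy h n)
  Sle := fun n => HerSys_cfR_mono hy n (HerSys_F_le hx hy h L _ n) (SysR_Y_fin hx hy h _ n)
  Ple := fun n => HerSys_cfR_mono hy n (HerSys_F_le hx hy h L _ n) (SysR_Y_fin hx hy h _ n)
  Rle := fun n => HerSys_cfR_mono hy n (HerSys_R_le hx hy h L n) (SysR_R_fin hx hy h n)
  Yle := fun n => HerSys_cfR_mono hy n (HerSys_F_le hx hy h L _ n) (SysR_Y_fin hx hy h _ n)
  ha := HerSys_ha hx hy h L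
  hz0 := by
    unfold zLS cfR ZL
    rw [coeff_zero_X_mul, ENNReal.toReal_zero, zero_mul]
  hz := HerSys_hz hx hy h L
  hY := HerSys_hY hx hy h L
  hY0 := by
    unfold YLS cfR
    rw [HerSys_coeff_zero hx hy h L, ENNReal.toReal_zero, zero_mul]
  hS := HerSys_hS hx hy h L
  hP := HerSys_hP hx hy h L
  hR := HerSys_hR hx hy h L

end Dia
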