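import Pool.Agent.DiaC.HerDefs
import Pool.Agent.DiaC.Bridge

/-!
# Module HerTree: trees of small range give maps of small diameter; rigid maps

`tree_aL`: `maps_pointed` (`Dia/TMaps.lean`) with `F e = if 2 * e ≤ L then 1 else 0`: the sum over the maps with `N`
edges of `x^V * #{v : 2 ecc v ≤ L}` is `x * (trees with 2 rng ≤ L)`.  If some vertex has `2 ecc v ≤ L` then
`dm ≤ 2 ecc v ≤ L` (`dm_le`); the number of vertices is at most `N + 1` (`RM.Ok.nV_le`).  Divide by `x`, multiply by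
`yc x ^ N` (`ZN`, `aLS`, `cfR`).
`rhoLS_tau`: as `tauS_E` in `Bridge.lean`.
-/

set_option linter.unusedSectionVars false

namespace Dia
open Finset PGr
open scoped ENNReal Classical

variable {x : ℝ}

private theorem HerTree_aLE_ne_top (h0 : 0 < x) (h1 : x < 1) (L N : ℕ) (hN : 1 ≤ N) :
    aLE (ENNReal.ofReal x) L N ≠ ⊤ := by
  refine ne_top_of_le_ne_top (mapsum_ne_top h0 h1 N) ?_
  unfold aLE mapsum
  rw [if_neg (by omega)]
  refine ENNReal.tsum_le_tsum fun m => ?_
  by_cases h : m.out.1.E = N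
  · rw [if_pos h, ENNReal.ofReal_pow h0.le]
    split_ifs
    · exact le_rfl
    · exact bot_le
  · rw [if_neg h, if_neg (fun h' => h h'.1)]

private theorem HerTree_key (h0 : 0 < x) (L N : ℕ) (hN : 1 ≤ N) :
    ∑ t ∈ LT.all N, ENNReal.ofReal (t.w x false) * (if 2 * t.rng ≤ L then 1 else 0) ≤
      ((N : ℝ≥0∞) + 1) * aLE (ENNReal.ofReal x) L N := by
  have hx : ENNReal.ofReal x ≠ 0 := (ENNReal.ofReal_pos.2 h0).ne'
  have h1 := maps_pointed h0 N hN fun e => if 2 * e ≤ L then 1 else 0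
  have h2 : (∑' m : RMC, if m.out.1.E = N then ENNReal.ofReal (x ^ nV m.out.1.s) *
      ∑ v : m.out.1.V, (if 2 * m.out.1.ecc v ≤ L then (1 : ℝ≥0∞) else 0) else 0) ≤
      ENNReal.ofReal x * (((N : ℝ≥0∞) + 1) * aLE (ENNReal.ofReal x) L N) := by
    unfold aLE
    rw [if_neg (by omega), ← ENNReal.tsum_mul_left, ← ENNReal.tsum_mul_left]
    refine ENNReal.tsum_le_tsum fun m => ?_
    by_cases h : m.out.1.E = N
    · rw [if_pos h]
      by_cases hd : m.out.1.dm ≤ L
      · rw [if_pos ⟨h, hd⟩]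
        obtain ⟨-, h3, h4, -, h5⟩ := m.out.2.nV_le
        have h6 : ∑ v : m.out.1.V, (if 2 * m.out.1.ecc v ≤ L then (1 : ℝ≥0∞) else 0) ≤
            (N : ℝ≥0∞) + 1 := by
          calc ∑ v : m.out.1.V, (if 2 * m.out.1.ecc v ≤ L then (1 : ℝ≥0∞) else 0)
              ≤ ∑ v : m.out.1.V, (1 : ℝ≥0∞) := by
                refine Finset.sum_le_sum fun v _ => ?_
                split_ifs
                · exact le_rfl
                · exact bot_le
            _ = (nV m.out.1.s : ℝ≥0∞) := by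
                rw [Finset.sum_const, Finset.card_univ, h5, nsmul_eq_mul, mul_one]
            _ ≤ (N : ℝ≥0∞) + 1 := by
                rw [← h]
                exact_mod_cast h4
        calc ENNReal.ofReal (x ^ nV m.out.1.s) *
              ∑ v : m.out.1.V, (if 2 * m.out.1.ecc v ≤ L then (1 : ℝ≥0∞) else 0)
            ≤ ENNReal.ofReal (x ^ nV m.out.1.s) * ((N : ℝ≥0∞) + 1) := mul_le_mul_right h6 _
          _ = ENNReal.ofReal x * (((N : ℝ≥0∞) + 1) * ENNReal.ofReal x ^ (nV m.out.1.s - 1)) := by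
              rw [ENNReal.ofReal_pow h0.le]
              have h7 : nV m.out.1.s = (nV m.out.1.s - 1) + 1 := by omega
              conv_lhs => rw [h7, pow_succ]
              ring
      · rw [if_neg (fun h' => hd h'.2)]
        have h6 : ∑ v : m.out.1.V, (if 2 * m.out.1.ecc v ≤ L then (1 : ℝ≥0∞) else 0) = 0 := by
          refine Finset.sum_eq_zero fun v _ => ?_
          rw [if_neg]
          intro hv
          exact hd ((dm_le m.out.2.toIsMap v).trans hv)
        rw [h6]
        simp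
    · rw [if_neg h]
      exact bot_le
  rw [h1] at h2
  exact (ENNReal.mul_le_mul_iff_right hx ENNReal.ofReal_ne_top).1 h2

theorem tree_aL (h0 : 0 < x) (h1 : x < 1) (L N : ℕ) (hN : 1 ≤ N) :
    ZN x false N (fun t => 2 * t.rng ≤ L) ≤ (N + 1) * aLS x (yc x) L N := by
  have hfin := HerTree_aLE_ne_top h0 h1 L N hN
  have hy := yc_pos' h0 h1
  have hw : ∀ t : LT, 0 ≤ t.w x false := fun t => by
    unfold LT.w
    positivity
  have h2 : ∑ t ∈ LT.all N, (if 2 * t.rng ≤ L then t.w x false else 0) ≤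
      (N + 1) * (aLE (ENNReal.ofReal x) L N).toReal := by
    have h3 := HerTree_key h0 L N hN
    have h4 : ∑ t ∈ LT.all N, ENNReal.ofReal (t.w x false) * (if 2 * t.rng ≤ L then 1 else 0) =
        ENNReal.ofReal (∑ t ∈ LT.all N, (if 2 * t.rng ≤ L then t.w x false else 0)) := by
      rw [ENNReal.ofReal_sum_of_nonneg]
      · refine Finset.sum_congr rfl fun t _ => ?_
        split_ifs
        · rw [mul_one]
        · rw [mul_zero, ENNReal.ofReal_zero]
      · intro t _
        split_ifs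
        · exact hw t
        · exact le_rfl
    rw [h4] at h3
    have h5 : ((N : ℝ≥0∞) + 1) * aLE (ENNReal.ofReal x) L N ≠ ⊤ :=
      ENNReal.mul_ne_top (by simp) hfin
    have h6 := ENNReal.toReal_mono h5 h3
    rw [ENNReal.toReal_ofReal, ENNReal.toReal_mul, ENNReal.toReal_add (by simp) (by simp),
      ENNReal.toReal_natCast, ENNReal.toReal_one] at h6
    · exact h6
    · refine Finset.sum_nonneg fun t _ => ?_
      split_ifs
      · exact hw t
      · exact le_rfl
  have h7 : aLS x (yc x) L N = (aLE (ENNReal.ofReal x) L N).toReal * yc x ^ N := by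
    unfold aLS cfR AL
    rw [PowerSeries.coeff_mk]
  rw [h7, ← mul_assoc]
  unfold ZN
  refine mul_le_mul_of_nonneg_right (le_trans (le_of_eq ?_) h2) (pow_nonneg hy.le N)
  refine Finset.sum_congr rfl fun t _ => ?_
  by_cases ht : 2 * t.rng ≤ L
  · rw [if_pos ht, if_pos ht]
  · rw [if_neg ht, if_neg ht]

theorem rhoLS_tau (h0 : 0 < x) (h1 : x < 1) (L j : ℕ) :
    tauS x (fun c => gE c = j ∧ gdm c ≤ L) = ENNReal.ofReal (rhoLS x L j * ecr (vc x) ^ j) := by
  have hD := ecr_vc_pos h0 h1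
  have hle : rLE (ENNReal.ofReal x) L j ≤ rc' (ENNReal.ofReal x) j := by
    unfold rLE rc' gE
    refine ENNReal.tsum_le_tsum fun c => ?_
    by_cases h : Rigid c.rep.1 ∧ Fintype.card c.rep.1.D / 2 = j
    · rw [if_pos h]
      split_ifs
      · exact le_rfl
      · exact bot_le
    · rw [if_neg h, if_neg (fun h' => h ⟨h'.1, h'.2.2⟩)]
  have hfin : rLE (ENNReal.ofReal x) L j ≠ ⊤ :=
    ne_top_of_le_ne_top (rc_ne_top h0 (yc_pos' h0 h1) (Ag_ne_top h0 h1) j) hle
  unfold rhoLS
  rw [ENNReal.ofReal_mul ENNReal.toReal_nonneg, ENNReal.ofReal_toReal hfin, rLE, tauS,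
    ← ENNReal.tsum_mul_right]
  refine tsum_congr fun c => ?_
  by_cases h : Rigid c.rep.1 ∧ gE c = j ∧ gdm c ≤ L
  · rw [if_pos h, if_pos ⟨h.1, h.2.2, h.2.1⟩, h.2.1, ENNReal.ofReal_mul (by positivity),
      ENNReal.ofReal_pow h0.le]
  · rw [if_neg h, if_neg (fun h' => h ⟨h'.1, h'.2.2, h'.2.1⟩), zero_mul]

end Dia
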