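import Pool.Agent.DiaC.BigOk
import Pool.Agent.PGr.CompInj

/-!
# Module BigInj: the composite with insertions determines its data

`fmap_inj`: `ins_iso_inv` (the core of `fmap F` is `bR (rep)`, `bR_rns`) gives an isomorphism `e` of the rooted maps
`bR F.1.rep`, `bR F'.1.rep`, i.e. a `BIso`, so `F.1 = F'.1` (`ESum.eq_of_iso`); after
substitution `e` is an automorphism fixing the root, so the identity (`iso_unique`); then
`CMIso (ocm (F.2 d)) (ocm (F'.2 d))`, `ocm_inj`.

`big_inj`: `ins_iso_inv` gives a `BIso` of the composites; `comp_inj_core`: the cores are isomorphic, so `c = c'`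
(`ESum.core_iso`, `ESum.eq_of_iso`); `comp_inj_nets`: the nets are isomorphic, so `(g i).1 = (g' i).1`
for all `i`.  Write `g = fun i => ⟨n i, X i⟩`, `g' = fun i => ⟨n i, X' i⟩` (`funext` and `Sigma.ext`; it is
convenient to prove the statement first for `g, g'` of this form).  Then the isomorphism of the composite
is an automorphism, so the identity (`iso_unique`), and `ocm_inj` gives `X i d = X' i d`.
-/

set_option linter.unusedSectionVars false

namespace Dia
open Equiv Finset PGr

private theorem BigInj_isC {D : Type} (X : D → Option RMC) (t : D ⊕ Bool) :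
    (rless (fun d => ocm (X d)) t).IsC :=
  (rless_ok (fun d => ocm_ok (X d)) t).toIsC

/-- insertions in a good map: an isomorphism is the identity on the good map -/
private theorem BigInj_id {M : BMap} (hM : M.IsGood) (X X' : M.D → Option RMC)
    (e : (bR M).T ≃ (bR M).T) (ha : ∀ t, e ((bR M).a t) = (bR M).a (e t))
    (hs : ∀ t, e ((bR M).s t) = (bR M).s (e t)) (hr : e (bR M).r = (bR M).r)
    (hX : ∀ t, CMIso (rless (D := M.D) (fun d => ocm (X d)) t)
      (rless (D := M.D) (fun d => ocm (X' d)) (e t))) : X = X' := by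
  have he : e = Equiv.refl _ :=
    iso_unique (a := M.aa) (s := M.s) (a' := M.aa) (s' := M.s) hM (Sum.inr true) e (Equiv.refl _)
      ha hs (fun _ => rfl) (fun _ => rfl) hr
  funext d
  have h := hX (Sum.inl d)
  rw [he] at h
  exact ocm_inj h

theorem fmap_inj {F F' : FN} (h : RMIso (fmap F) (fmap F')) : F = F' := by
  obtain ⟨n, X⟩ := F
  obtain ⟨n', X'⟩ := F'
  obtain ⟨e, ha, hs, hr, hX⟩ := ins_iso_inv (C := bR n.rep.1) (C' := bR n'.rep.1)
    (X := rless fun d => ocm (X d)) (X' := rless fun d => ocm (X' d))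
    (bR_rns n.rep.2) (BigInj_isC X) (bR_rns n'.rep.2) (BigInj_isC X') h
  have hn : n = n' := ESum.eq_of_iso ⟨e, ha, hs, hr⟩
  subst hn
  have hXX : X = X' := BigInj_id n.rep.2 X X' e ha hs hr hX
  rw [hXX]

theorem big_inj {c c' : GC} {g : (ESum.core c).I → FN} {g' : (ESum.core c').I → FN}
    (hR : Rigid c.rep.1) (hR' : Rigid c'.rep.1) (h : RMIso (bigM c g) (bigM c' g')) :
    (⟨c, g⟩ : Σ c : GC, ((ESum.core c).I → FN)) = ⟨c', g'⟩ := by
  obtain ⟨e, ha, hs, hr, hX⟩ := ins_iso_inv (C := bR (bigB c g)) (C' := bR (bigB c' g'))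
    (X := rless (D := (bigB c g).D) fun d => ocm ((g d.1).2 d.2))
    (X' := rless (D := (bigB c' g').D) fun d => ocm ((g' d.1).2 d.2))
    (bR_rns (bigB_good c g)) (BigInj_isC (D := (bigB c g).D) fun d => (g d.1).2 d.2)
    (bR_rns (bigB_good c' g')) (BigInj_isC (D := (bigB c' g').D) fun d => (g' d.1).2 d.2) h
  have h1 : BIso (comp (ESum.core c) (netsOf c g)) (comp (ESum.core c') (netsOf c' g')) :=
    ⟨e, ha, hs, hr⟩
  have hc : c = c' := by
    have h2 := comp_inj_core _ _ _ _ (ESum.core_good c) ((ESum.core_iso c).symm.rigid hR)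
      (ESum.core_good c') ((ESum.core_iso c').symm.rigid hR') h1
    exact ESum.eq_of_iso ((ESum.core_iso c).symm.trans (h2.trans (ESum.core_iso c')))
  subst hc
  have h3 : ∀ i, (g i).1 = (g' i).1 := fun i => ESum.eq_of_iso
    (comp_inj_nets _ _ _ (ESum.core_good c) ((ESum.core_iso c).symm.rigid hR) h1 i)
  clear h h1 hR'
  obtain ⟨n, X, rfl⟩ : ∃ (n : (ESum.core c).I → GC) (X : ∀ i, (n i).rep.1.D → Option RMC),
      g = fun i => ⟨n i, X i⟩ := ⟨fun i => (g i).1, fun i => (g i).2, rfl⟩
  obtain ⟨n', X', rfl⟩ : ∃ (n : (ESum.core c).I → GC) (X : ∀ i, (n i).rep.1.D → Option RMC),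
      g' = fun i => ⟨n i, X i⟩ := ⟨fun i => (g' i).1, fun i => (g' i).2, rfl⟩
  have hn : n = n' := funext h3
  subst hn
  have h4 := BigInj_id (M := bigB c fun i => ⟨n i, X i⟩) (bigB_good c _)
    (fun d => X d.1 d.2) (fun d => X' d.1 d.2) e ha hs hr hX
  have h5 : X = X' := by
    funext i d
    exact congrFun h4 ⟨i, d⟩
  rw [h5]

end Dia
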