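import Pool.Agent.DiaC.CoreIns
import Pool.Agent.PGr.CompNS
import Pool.Agent.PGr.CutIso
import Pool.Agent.PGr.NoPinch

/-!
# Module KCl: classification of the rooted nonseparable maps

`KC.rns`: loop, link: two darts, there is no closed set except the empty set and everything; `Pl` for two darts: for
`linkR` (`s = 1`): `p t + q (a t) = p t + q t`, so `q (a t) = q t`, take `h = 0`; for `loopR` (`s = a`):
`p t + q (a t) = p (a t) + q (a t)`, so `p (a t) = p t`, take `h = 0`.  `good c`: `c.rep.2 : Good`.

`KC.inj`: `loopR`, `linkR` and good maps are not isomorphic (numbers of darts 2 and `≥ 4`; `s = 1` or not);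
two good maps: `RMIso (bR M) (bR N)` is `BIso M N` by definition, so the classes are equal.

`KC.surj`: let `M` be `RNS`.  If `card = 2`: the darts are `r`, `a r`; `s r = r` (link) or `s r = a r` (loop).
Otherwise `card ≥ 4` (even number).  Let `D` be the type of the darts different from `r`, `a r`,
`f : M.T ≃ D ⊕ Bool` with `f r = inr true`, `f (a r) = inr false`.  The `BMap` with `D`, the
restriction of `a`, and `s` conjugated by `f`, is good and `bR` of it is isomorphic to `M`.

`kc_nV`, `kc_E`: number of vertices and edges.  A good map has at least two vertices (see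
`Good.two_le_nV` in `PGr`).
-/

set_option linter.unusedSectionVars false

namespace Dia
open Equiv Finset PGr

private theorem KCl_two (x y : ZMod 2) (h : x = y) : x + y = 0 := by
  rw [h]; exact CharTwo.add_self_eq_zero y

theorem KC.rns (k : KC) : k.map.RNS := by
  rcases k with _ | _ | c
  · refine ⟨fun t => Bool.not_not t, fun t => Bool.not_ne_self t, ?_, ?_⟩
    · intro A hA hne hu
      exfalso
      apply hu
      obtain ⟨t, ht⟩ := hne
      have h1 : (!t) ∈ A := (hA t).2 ht
      rw [eq_univ_iff_forall]
      intro x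
      rcases Bool.eq_or_eq_not x t with h | h
      · rw [h]; exact ht
      · rw [h]; exact h1
    · intro p q h
      refine ⟨fun _ => 0, fun _ => rfl, fun t => ?_⟩
      have h1 : p t + q (!t) = p (!t) + q (!t) := h t
      have h2 : p t = p (!t) := add_right_cancel h1
      change (0 : ZMod 2) + 0 = p t + p (!t)
      exact ((congrArg (fun z => z + p (!t)) h2).trans (CharTwo.add_self_eq_zero _)).symm
  · refine ⟨fun t => Bool.not_not t, fun t => Bool.not_ne_self t, ?_, ?_⟩
    · intro A hA hne hu
      exfalso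
      apply hu
      obtain ⟨t, ht⟩ := hne
      have h1 : (!t) ∈ A := (hA t).2 ht
      rw [eq_univ_iff_forall]
      intro x
      rcases Bool.eq_or_eq_not x t with h | h
      · rw [h]; exact ht
      · rw [h]; exact h1
    · intro p q h
      refine ⟨fun _ => 0, fun _ => rfl, fun t => ?_⟩
      exact (CharTwo.add_self_eq_zero (p t)).symm
  · exact ⟨c.rep.2.inv, c.rep.2.fpf, c.rep.2.ns, c.rep.2.pl⟩

private theorem KCl_card (c : GC) : 4 ≤ Fintype.card (KC.good c).map.T := c.rep.2.big

private theorem KCl_card_loop : Fintype.card KC.loop.map.T = 2 := Fintype.card_bool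

private theorem KCl_card_link : Fintype.card KC.link.map.T = 2 := Fintype.card_bool

theorem KC.inj {k k' : KC} (h : RMIso k.map k'.map) : k = k' := by
  obtain ⟨e, h1, h2, h3⟩ := id h
  have hc := Fintype.card_congr e
  rcases k with _ | _ | c <;> rcases k' with _ | _ | c'
  · rfl
  · exfalso
    have h4 : e (!true) = e true := h2 true
    have h5 := e.injective h4
    exact Bool.not_ne_self true h5
  · have := KCl_card c'
    rw [← hc, KCl_card_loop] at this
    omega
  · exfalso
    have h4 : e true = !(e true) := h2 true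
    exact Bool.not_ne_self (e true) h4.symm
  · rfl
  · have := KCl_card c'
    rw [← hc, KCl_card_link] at this
    omega
  · have := KCl_card c
    rw [hc, KCl_card_loop] at this
    omega
  · have := KCl_card c
    rw [hc, KCl_card_link] at this
    omega
  · have h4 : BIso c.rep.1 c'.rep.1 := h
    have h5 : (Quotient.mk _ c.rep : GC) = Quotient.mk _ c'.rep := Quotient.sound h4
    rw [show (Quotient.mk _ c.rep : GC) = c from Quotient.out_eq c,
      show (Quotient.mk _ c'.rep : GC) = c' from Quotient.out_eq c'] at h5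
    rw [h5]

section surj
variable {M : RM}

private theorem KCl_cl2 (h : M.RNS) (hc : Fintype.card M.T = 2) (t : M.T) :
    t = M.r ∨ t = M.a M.r := by
  have h1 : ({M.r, M.a M.r} : Finset M.T) = univ := by
    rw [← Finset.card_eq_iff_eq_univ, hc, card_pair (h.fpf M.r).symm]
  have h2 : t ∈ ({M.r, M.a M.r} : Finset M.T) := by rw [h1]; exact mem_univ _
  simpa using h2

private def KCl_f (M : RM) : Bool → M.T
  | true => M.r
  | false => M.a M.r

private theorem KCl_fbij (h : M.RNS) (hc : Fintype.card M.T = 2) :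
    Function.Bijective (KCl_f M) := by
  constructor
  · intro x y hxy
    cases x <;> cases y
    · rfl
    · exact absurd hxy (h.fpf M.r)
    · exact absurd hxy.symm (h.fpf M.r)
    · rfl
  · intro t
    rcases KCl_cl2 h hc t with rfl | rfl
    · exact ⟨true, rfl⟩
    · exact ⟨false, rfl⟩

private theorem KCl_two_case (h : M.RNS) (hc : Fintype.card M.T = 2) : ∃ k : KC, RMIso k.map M := by
  have hfa : ∀ b, KCl_f M (!b) = M.a (KCl_f M b) := by
    intro b
    cases b
    · exact (h.inv M.r).symm
    · rfl
  rcases KCl_cl2 h hc (M.s M.r) with hs | hs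
  · refine ⟨KC.link, Equiv.ofBijective _ (KCl_fbij h hc), hfa, ?_, rfl⟩
    intro b
    change KCl_f M b = M.s (KCl_f M b)
    cases b
    · change M.a M.r = M.s (M.a M.r)
      rcases KCl_cl2 h hc (M.s (M.a M.r)) with h1 | h1
      · exact absurd (M.s.injective (h1.trans hs.symm)) (h.fpf M.r)
      · exact h1.symm
    · exact hs.symm
  · refine ⟨KC.loop, Equiv.ofBijective _ (KCl_fbij h hc), hfa, ?_, rfl⟩
    intro b
    change KCl_f M (!b) = M.s (KCl_f M b)
    cases b
    · change M.r = M.s (M.a M.r)
      rcases KCl_cl2 h hc (M.s (M.a M.r)) with h1 | h1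
      · exact h1.symm
      · exact absurd (M.s.injective (h1.trans hs.symm)) (h.fpf M.r)
    · exact hs.symm

/-- the darts different from the darts of the root edge -/
private abbrev KCl_D (M : RM) : Type := {t : M.T // t ≠ M.r ∧ t ≠ M.a M.r}

private def KCl_g (M : RM) : KCl_D M ⊕ Bool → M.T
  | Sum.inl d => d.1
  | Sum.inr true => M.r
  | Sum.inr false => M.a M.r

private theorem KCl_gbij (h : M.RNS) : Function.Bijective (KCl_g M) := by
  constructor
  · rintro (x | x) (y | y) hxy
    · exact congrArg Sum.inl (Subtype.ext hxy)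
    · exfalso
      cases y
      · exact x.2.2 hxy
      · exact x.2.1 hxy
    · exfalso
      cases x
      · exact y.2.2 hxy.symm
      · exact y.2.1 hxy.symm
    · cases x <;> cases y
      · rfl
      · exact absurd hxy (h.fpf M.r)
      · exact absurd hxy.symm (h.fpf M.r)
      · rfl
  · intro t
    by_cases h1 : t = M.r
    · exact ⟨Sum.inr true, h1.symm⟩
    · by_cases h2 : t = M.a M.r
      · exact ⟨Sum.inr false, h2.symm⟩
      · exact ⟨Sum.inl ⟨t, h1, h2⟩, rfl⟩

private theorem KCl_pa (h : M.RNS) (t : M.T) :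
    (M.a t ≠ M.r ∧ M.a t ≠ M.a M.r) ↔ (t ≠ M.r ∧ t ≠ M.a M.r) := by
  have h1 : M.a t = M.r ↔ t = M.a M.r := by
    constructor
    · intro h2; rw [← h2, h.inv]
    · intro h2; rw [h2, h.inv]
  have h2 : M.a t = M.a M.r ↔ t = M.r := M.a.injective.eq_iff
  rw [Ne, Ne, h1, h2]
  exact and_comm

private theorem KCl_big (h : M.RNS) (hc : Fintype.card M.T ≠ 2) : 4 ≤ Fintype.card M.T := by
  have h1 := even_card h.inv h.fpf
  have h2 : 0 < Fintype.card M.T := Fintype.card_pos_iff.2 ⟨M.r⟩
  omega

private theorem KCl_big_case (h : M.RNS) (hc : Fintype.card M.T ≠ 2) :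
    ∃ k : KC, RMIso k.map M := by
  let g : KCl_D M ⊕ Bool ≃ M.T := Equiv.ofBijective _ (KCl_gbij h)
  let B : BMap :=
    { D := KCl_D M
      a := M.a.subtypePerm (KCl_pa h)
      s := (g.trans M.s).trans g.symm }
  have hga : ∀ t, g (B.aa t) = M.a (g t) := by
    rintro (x | x)
    · rfl
    · cases x
      · exact (h.inv M.r).symm
      · rfl
  have hgs : ∀ t, g (B.s t) = M.s (g t) := by
    intro t
    exact Equiv.apply_symm_apply g _
  have hM : Good M.a M.s := ⟨h.inv, h.fpf, h.ns, h.pl, KCl_big h hc⟩
  have hB : B.IsGood := by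
    refine Good_iso g.symm ?_ ?_ hM
    · intro t
      rw [Equiv.symm_apply_eq, hga, Equiv.apply_symm_apply]
    · intro t
      rw [Equiv.symm_apply_eq, hgs, Equiv.apply_symm_apply]
  have h1 : RMIso (bR B) M := ⟨g, hga, hgs, rfl⟩
  refine ⟨KC.good (Quotient.mk _ (⟨B, hB⟩ : GB)), ?_⟩
  have h2 : BIso (GC.rep (Quotient.mk _ (⟨B, hB⟩ : GB))).1 B :=
    Quotient.mk_out (s := bSetoid) (⟨B, hB⟩ : GB)
  have h3 : RMIso (bR (GC.rep (Quotient.mk _ (⟨B, hB⟩ : GB))).1) (bR B) := h2
  exact h3.trans h1

end surj

theorem KC.surj {M : RM} (h : M.RNS) : ∃ k : KC, RMIso k.map M := by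
  by_cases hc : Fintype.card M.T = 2
  · exact KCl_two_case h hc
  · exact KCl_big_case h hc

theorem kc_loop : nV loopR.s = 1 ∧ loopR.E = 1 ∧ Fintype.card loopR.T = 2 := by
  have hc : Fintype.card loopR.T = 2 := Fintype.card_bool
  refine ⟨?_, ?_, hc⟩
  · unfold nV
    rw [Nat.card_eq_one_iff_unique]
    refine ⟨⟨fun x y => ?_⟩, ⟨Quotient.mk _ loopR.r⟩⟩
    induction x using Quotient.inductionOn with
    | h x =>
      induction y using Quotient.inductionOn with
      | h y =>
        apply Quotient.sound
        change Perm.SameCycle loopR.s x y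
        rcases Bool.eq_or_eq_not y x with h | h
        · rw [h]
        · exact ⟨1, by rw [zpow_one]; exact h.symm⟩
  · unfold RM.E
    rw [hc]

theorem kc_link : nV linkR.s = 2 ∧ linkR.E = 1 ∧ Fintype.card linkR.T = 2 := by
  have hc : Fintype.card linkR.T = 2 := Fintype.card_bool
  refine ⟨?_, ?_, hc⟩
  · have key : ∀ x y : linkR.T, Perm.SameCycle linkR.s x y ↔ x = y := by
      intro x y
      constructor
      · rintro ⟨i, hi⟩
        have h1 : (linkR.s ^ i) = 1 := by
          change ((1 : Perm Bool) ^ i) = 1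
          exact one_zpow i
        rw [h1] at hi
        exact hi
      · rintro rfl
        exact Perm.SameCycle.refl _ _
    have h2 : nV linkR.s = Nat.card linkR.T := by
      unfold nV
      symm
      refine Nat.card_congr (Equiv.ofBijective (fun x => Quotient.mk _ x) ⟨?_, ?_⟩)
      · intro x y hxy
        exact (key x y).1 (Quotient.exact hxy)
      · intro x
        induction x using Quotient.inductionOn with
        | h x => exact ⟨x, rfl⟩
    rw [h2, Nat.card_eq_fintype_card, hc]
  · unfold RM.E
    rw [hc]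

theorem kc_good (c : GC) : nV (bR c.rep.1).s = (nV c.rep.1.s - 2) + 2 ∧
    (bR c.rep.1).E = Fintype.card c.rep.1.D / 2 + 1 ∧
    Fintype.card (bR c.rep.1).T = 2 * (Fintype.card c.rep.1.D / 2 + 1) := by
  have h1 : 2 ≤ nV c.rep.1.s := Good.two_le_nV c.rep.2
  have h2 : Fintype.card (bR c.rep.1).T = Fintype.card c.rep.1.D + 2 := by
    change Fintype.card (c.rep.1.D ⊕ Bool) = _
    rw [Fintype.card_sum, Fintype.card_bool]
  have h3 : 2 * (Fintype.card (bR c.rep.1).T / 2) = Fintype.card (bR c.rep.1).T :=
    even_card (T := (bR c.rep.1).T) (a := (bR c.rep.1).a) c.rep.2.inv c.rep.2.fpf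
  refine ⟨?_, ?_, ?_⟩
  · change nV c.rep.1.s = _
    omega
  · unfold RM.E
    rw [h2]
    omega
  · rw [h2] at h3 ⊢
    omega

end Dia
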