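import Pool.Agent.DiaC.DdLib
import Pool.Agent.DiaC.KCl
import Pool.Agent.PGr.CompV
import Pool.Agent.PGr.CompPl
import Pool.Agent.PGr.SerRl

/-!
# Module CompD: distances in a composite `comp C N`

`bR M` is the `BMap` `M` as a rooted map.  `jump C N y` is a dart of the composite at the vertex of the dart `y` of the
core.  Library: `PGr/CompV.lean` (namespace `CompVAux`): `jump_sc`, `core_sc`, `inner_pow`, the
function `F : (comp C N).T → Cyc C.s ⊕ Σ i, Cyc (N i).1.s` with `F_jump`, `F_core`, `F_inner`, `F_s`, `F_sc`;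
`PGr/SerRl.lean`: the root face (`iter_inl`, `iter_rl`, `exists_d`).

`compD_lower`: fix `y0`.  Let `f t` be: if `F t = inl q`: the distance (in the core) of `y0` to the vertex `q`; if
`F t = inr ⟨i, _⟩`: the minimum over `b` of `dd y0 (inl (i, b))`.  `f (s t) = f t` by `F_s`.  Along an edge
`inl ⟨i, d⟩`, `inl ⟨i, a d⟩` both values are among `dd y0 (inl (i, true))`, `dd y0 (inl (i, false))` and their
minimum, which differ by at most one (the darts `inl (i, true)`, `inl (i, false)` are an edge of the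
core); the same for the root edge.  `lip`, `F_jump`.

`compD_edge`: let `r = (N i).1.rl`, `t_k = (aa * s)^k (inr true)` in the net, `t_r = inr true`; for `0 < k < r`
`t_k = inl (d k)` (`SerRl`).  In the composite: `s (jump (inl (i, true)))`... the vertex of `t_k` and of `t_(k+1)` are
joined by the edge of the dart `s t_k`, which is a nonroot dart for `k + 1 < r`; so in the composite the
distance of the vertex of `inr true` (that is `jump (inl (i, true))`) and the vertex of `t_(r-1)` is at
most `r - 1`; and `s t_(r-1) = inr false`, so `t_(r-1)` is at the vertex of `inr false`, in the composite the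
vertex of `jump (inl (i, false))` (`core_sc`).

`compD_path`: induction on `n = dd y y'`: `S` with at most `n` elements.  `n = 0`: `jump_sc`, `S = ∅`.  `n + 1`:
`dd_pred`: `u` in the vertex of `y'` with `dd y (a u) = n`; `S' = insert (edge of u) S`.  Then
`dd (jump y) (jump y') ≤ ∑_S + (length of the edge of u)`.  To have the sum over the SET `S'` one needs that
the edge of `u` is not in `S`: strengthen the induction: all edges in `S` are edges `o` with both ends at
distance `≤ n` from `y`, whereas the edge of `u` has the end `y'` at distance `n + 1`.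
-/

set_option linter.unusedSectionVars false

namespace Dia
open Equiv Finset PGr

theorem bR_rns {M : BMap} (h : M.IsGood) : (bR M).RNS := ⟨h.inv, h.fpf, h.ns, h.pl⟩

theorem bR_isMap {M : BMap} (h : M.IsGood) : (bR M).IsMap := (bR_rns h).isMap

variable {C : Core}

/-- the edge of a dart of a core -/
def cedge (C : Core) : (bR C.toB).T → Option C.I := C.edge

theorem comp_isGood (N : C.I → GB) (hC : C.toB.IsGood) : (comp C N).IsGood := comp_good C N hC

/-- distance to a vertex of the core -/
noncomputable def CompD_q (C : Core) (y0 : (bR C.toB).T) (q : CompVAux.Cyc C.s) : ℤ :=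
  Quotient.lift (s := Perm.SameCycle.setoid C.s) (fun y : (bR C.toB).T => ((bR C.toB).dd y0 y : ℤ))
    (fun _ _ h => congrArg Int.ofNat (dd_congr (M := bR C.toB) (Perm.SameCycle.refl _ y0) h)) q

/-- the test function -/
noncomputable def CompD_f (C : Core) (N : C.I → GB) (y0 : (bR C.toB).T) (t : (comp C N).T) : ℤ :=
  match CompVAux.F C N t with
  | Sum.inl q => CompD_q C y0 q
  | Sum.inr q => min ((bR C.toB).dd y0 (Sum.inl (q.1, true)) : ℤ)
      ((bR C.toB).dd y0 (Sum.inl (q.1, false)) : ℤ)

theorem CompD_f_inl (N : C.I → GB) (y0 : (bR C.toB).T) {t : (comp C N).T} {y : (bR C.toB).T}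
    (h : CompVAux.F C N t = Sum.inl (CompVAux.cyc C.s y)) :
    CompD_f C N y0 t = ((bR C.toB).dd y0 y : ℤ) := by
  unfold CompD_f
  rw [h]
  rfl

theorem CompD_f_inr (N : C.I → GB) (y0 : (bR C.toB).T) {t : (comp C N).T}
    {q : Σ i, CompVAux.Cyc (N i).1.s} (h : CompVAux.F C N t = Sum.inr q) :
    CompD_f C N y0 t = min ((bR C.toB).dd y0 (Sum.inl (q.1, true)) : ℤ)
      ((bR C.toB).dd y0 (Sum.inl (q.1, false)) : ℤ) := by
  unfold CompD_f
  rw [h]

theorem CompD_f_jump (N : C.I → GB) (y0 y : (bR C.toB).T) :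
    CompD_f C N y0 (jump C N y) = ((bR C.toB).dd y0 y : ℤ) :=
  CompD_f_inl N y0 (CompVAux.F_jump C N y)

theorem CompD_step (hC : C.toB.IsGood) (y0 t : (bR C.toB).T) :
    (bR C.toB).dd y0 ((bR C.toB).a t) ≤ (bR C.toB).dd y0 t + 1 := by
  have h1 := dd_triangle (bR_isMap hC) y0 t ((bR C.toB).a t)
  have h2 := dd_a (bR_isMap hC) t
  omega

theorem CompD_f_between (N : C.I → GB) (y0 : (bR C.toB).T) (i : C.I) (d : (N i).1.D) :
    min ((bR C.toB).dd y0 (Sum.inl (i, true)) : ℤ) ((bR C.toB).dd y0 (Sum.inl (i, false)) : ℤ) ≤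
      CompD_f C N y0 (Sum.inl ⟨i, d⟩) ∧
    CompD_f C N y0 (Sum.inl ⟨i, d⟩) ≤
      max ((bR C.toB).dd y0 (Sum.inl (i, true)) : ℤ)
        ((bR C.toB).dd y0 (Sum.inl (i, false)) : ℤ) := by
  by_cases h : ∃ b, (N i).1.s.SameCycle (Sum.inl d) (Sum.inr b)
  · obtain ⟨b, hb⟩ := h
    rw [CompD_f_inl N y0 (CompVAux.F_core C N hb)]
    cases b
    · exact ⟨min_le_right _ _, le_max_right _ _⟩
    · exact ⟨min_le_left _ _, le_max_left _ _⟩
  · rw [CompD_f_inr N y0 (CompVAux.F_inner C N h)]
    exact ⟨le_refl _, min_le_max⟩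

theorem compD_lower (hC : C.toB.IsGood) (N : C.I → GB) (y y' : C.toB.T) :
    (bR C.toB).dd y y' ≤ (bR (comp C N)).dd (jump C N y) (jump C N y') := by
  have hs : ∀ t, CompD_f C N y ((bR (comp C N)).s t) = CompD_f C N y t := by
    intro t
    have h : CompVAux.F C N ((comp C N).s t) = CompVAux.F C N t := CompVAux.F_s C N t
    show CompD_f C N y ((comp C N).s t) = CompD_f C N y t
    unfold CompD_f
    rw [h]
  have ha : ∀ t, CompD_f C N y ((bR (comp C N)).a t) ≤ CompD_f C N y t + 1 := by
    intro t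
    rcases t with ⟨i, d⟩ | b
    · have h1 := (CompD_f_between N y i d).1
      have h2 := (CompD_f_between N y i ((N i).1.a d)).2
      have h3 : (bR C.toB).dd y (Sum.inl (i, false)) ≤ (bR C.toB).dd y (Sum.inl (i, true)) + 1 :=
        CompD_step hC y (Sum.inl (i, true))
      have h4 : (bR C.toB).dd y (Sum.inl (i, true)) ≤ (bR C.toB).dd y (Sum.inl (i, false)) + 1 :=
        CompD_step hC y (Sum.inl (i, false))
      show CompD_f C N y (Sum.inl ⟨i, (N i).1.a d⟩) ≤ CompD_f C N y (Sum.inl ⟨i, d⟩) + 1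
      revert h1 h2 h3 h4
      generalize (bR C.toB).dd y (Sum.inl (i, false)) = p
      generalize (bR C.toB).dd y (Sum.inl (i, true)) = q
      intro h1 h2 h3 h4
      omega
    · have h3 := CompD_step hC y (Sum.inr b)
      have h1 : CompD_f C N y (Sum.inr b) = _ := CompD_f_jump N y (Sum.inr b)
      have h2 : CompD_f C N y (Sum.inr (!b)) = _ := CompD_f_jump N y (Sum.inr (!b))
      show CompD_f C N y (Sum.inr (!b)) ≤ CompD_f C N y (Sum.inr b) + 1
      rw [h1, h2]
      have h4 : (bR C.toB).a (Sum.inr b) = Sum.inr (!b) := rfl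
      rw [h4] at h3
      exact_mod_cast h3
  have h := lip (bR_isMap (comp_isGood N hC)) (CompD_f C N y) hs ha (jump C N y) (jump C N y')
  rw [CompD_f_jump, CompD_f_jump, dd_self] at h
  have h' : ((bR C.toB).dd y y' : ℤ) ≤ (bR (comp C N)).dd (jump C N y) (jump C N y') := by
    simpa using h
  exact_mod_cast h'

/-- length of an edge of the core in the composite -/
noncomputable def elen (N : C.I → GB) (o : Option C.I) : ℕ := o.elim 1 fun i => (N i).1.rl - 1

theorem CompD_edge_true (hC : C.toB.IsGood) (N : C.I → GB) (i : C.I) :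
    (bR (comp C N)).dd (jump C N (Sum.inl (i, true))) (jump C N (Sum.inl (i, false))) ≤
      (N i).1.rl - 1 := by
  have hM := bR_isMap (comp_isGood N hC)
  obtain ⟨d, hd⟩ := SerRl.exists_d (N i)
  have h2 := SerRl.two_le (N i)
  have key : ∀ j, j + 1 < (N i).1.rl →
      (bR (comp C N)).dd (jump C N (Sum.inl (i, true))) (Sum.inl ⟨i, d (j + 1)⟩) ≤ j + 1 := by
    intro j
    induction j with
    | zero =>
      intro _
      have h := dd_a hM (jump C N (Sum.inl (i, true)))
      have h1 : (bR (comp C N)).a (jump C N (Sum.inl (i, true))) = Sum.inl ⟨i, d 1⟩ :=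
        SerRl.first C N i d hd
      rw [h1] at h
      exact h
    | succ j ih =>
      intro hj
      have h3 := ih (by omega)
      have h4 := SerRl.run C N i d hd (j + 1) hj
      rw [Function.iterate_succ_apply', SerRl.run C N i d hd j (by omega)] at h4
      have h5 : (bR (comp C N)).a ((bR (comp C N)).s (Sum.inl ⟨i, d (j + 1)⟩)) =
          Sum.inl ⟨i, d (j + 1 + 1)⟩ := h4
      have h6 := dd_a hM ((bR (comp C N)).s (Sum.inl ⟨i, d (j + 1)⟩))
      rw [h5] at h6
      have h7 := dd_sc (M := bR (comp C N))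
        (CompVAux.sc_apply (bR (comp C N)).s (Sum.inl ⟨i, d (j + 1)⟩))
      have h8 := dd_triangle hM (jump C N (Sum.inl (i, true))) (Sum.inl ⟨i, d (j + 1)⟩)
        ((bR (comp C N)).s (Sum.inl ⟨i, d (j + 1)⟩))
      have h9 := dd_triangle hM (jump C N (Sum.inl (i, true)))
        ((bR (comp C N)).s (Sum.inl ⟨i, d (j + 1)⟩)) (Sum.inl ⟨i, d (j + 1 + 1)⟩)
      omega
  have h3 := key ((N i).1.rl - 2) (by omega)
  have h4 := SerRl.last C N i d hd
  have e : (N i).1.rl - 2 + 1 = (N i).1.rl - 1 := by omega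
  rw [e] at h3
  have h5 : (comp C N).s (Sum.inl ⟨i, d ((N i).1.rl - 1)⟩) =
      jump C N (C.s (Sum.inl (i, false))) := (comp C N).aa.injective h4
  have h6 : (comp C N).s.SameCycle (Sum.inl ⟨i, d ((N i).1.rl - 1)⟩)
      (jump C N (Sum.inl (i, false))) := by
    have h7 := CompVAux.sc_apply (comp C N).s (Sum.inl ⟨i, d ((N i).1.rl - 1)⟩)
    rw [h5] at h7
    exact h7.trans (CompVAux.jump_step C N (Sum.inl (i, false))).symm
  have h8 := dd_congr (M := bR (comp C N))
    (Perm.SameCycle.refl _ (jump C N (Sum.inl (i, true)))) h6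
  rw [← h8]
  exact h3

theorem compD_edge (hC : C.toB.IsGood) (N : C.I → GB) (y : C.toB.T) :
    (bR (comp C N)).dd (jump C N y) (jump C N (C.toB.aa y)) ≤ elen N (C.edge y) := by
  rcases y with ⟨i, b⟩ | b
  · have h := CompD_edge_true hC N i
    cases b
    · rw [dd_comm]
      exact h
    · exact h
  · exact dd_a (bR_isMap (comp_isGood N hC)) (Sum.inr b)

theorem CompD_edge_aa (u : C.toB.T) : C.edge (C.toB.aa u) = C.edge u := by
  rcases u with ⟨i, b⟩ | b <;> rfl

theorem CompD_edge_eq {u u' : C.toB.T} (h : C.edge u' = C.edge u) :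
    u' = u ∨ u' = C.toB.aa u := by
  rcases u with ⟨i, b⟩ | b <;> rcases u' with ⟨i', b'⟩ | b'
  · have h1 : i' = i := Option.some.inj h
    subst h1
    cases b <;> cases b'
    · exact Or.inl rfl
    · exact Or.inr rfl
    · exact Or.inr rfl
    · exact Or.inl rfl
  · cases h
  · cases h
  · cases b <;> cases b'
    · exact Or.inl rfl
    · exact Or.inr rfl
    · exact Or.inr rfl
    · exact Or.inl rfl

theorem CompD_path (hC : C.toB.IsGood) (y : C.toB.T) : ∀ (n : ℕ) (y' : C.toB.T),
    (bR C.toB).dd y y' = n →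
    ∃ S : Finset (Option C.I), S.card ≤ n ∧
      (∀ u : C.toB.T, C.edge u ∈ S → (bR C.toB).dd y u ≤ n) ∧ ∀ N : C.I → GB,
      (bR (comp C N)).dd (jump C N y) (jump C N y') ≤ ∑ o ∈ S, elen N o := by
  have hM : (bR C.toB).IsMap := bR_isMap hC
  intro n
  induction n with
  | zero =>
    intro y' h
    refine ⟨∅, by simp, by simp, fun N => ?_⟩
    have h1 : C.s.SameCycle y y' := dd_eq_zero hM h
    rw [dd_sc (M := bR (comp C N)) (CompVAux.jump_sc C N h1)]
    exact Nat.zero_le _
  | succ n ih =>
    intro y' h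
    obtain ⟨u, hu, hn⟩ := dd_pred hM h
    obtain ⟨S, hS1, hS2, hS3⟩ := ih (C.toB.aa u) hn
    have hyu : (bR C.toB).dd y u = n + 1 := by
      rw [← h]
      exact (dd_congr (M := bR C.toB) (Perm.SameCycle.refl _ y) hu).symm
    have hnot : C.edge u ∉ S := by
      intro hc
      have := hS2 u hc
      omega
    refine ⟨insert (C.edge u) S, ?_, ?_, fun N => ?_⟩
    · exact (card_insert_le _ _).trans (by omega)
    · intro u' hu'
      rcases mem_insert.1 hu' with h1 | h1
      · rcases CompD_edge_eq h1 with h2 | h2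
        · rw [h2, hyu]
        · have h3 : (bR C.toB).dd y (C.toB.aa u) = n := hn
          rw [h2, h3]
          omega
      · have := hS2 u' h1
        omega
    · rw [sum_insert hnot]
      have h1 := hS3 N
      have h2 := compD_edge hC N (C.toB.aa u)
      have h3 : C.toB.aa (C.toB.aa u) = u := hC.inv u
      rw [h3, CompD_edge_aa] at h2
      have h4 := dd_triangle (bR_isMap (comp_isGood N hC)) (jump C N y) (jump C N (C.toB.aa u))
        (jump C N u)
      have h5 := dd_congr (M := bR (comp C N)) (Perm.SameCycle.refl _ (jump C N y))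
        (CompVAux.jump_sc C N hu)
      rw [h5]
      omega

theorem compD_path (hC : C.toB.IsGood) (y y' : C.toB.T) :
    ∃ S : Finset (Option C.I), S.card ≤ (bR C.toB).dd y y' ∧ ∀ N : C.I → GB,
      (bR (comp C N)).dd (jump C N y) (jump C N y') ≤ ∑ o ∈ S, elen N o := by
  obtain ⟨S, h1, _, h3⟩ := CompD_path hC y _ y' rfl
  exact ⟨S, h1, h3⟩

end Dia
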