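import Pool.Agent.DiaC.HerDefs
import Pool.Agent.DiaC.CompD

/-!
# Module NetD: the distances in a net (with its root edge) are at most the distances in the composite

Fix the net `i` and a dart `t0` of the net.  Let `d b = dd t0 (inr b)` in `bR (N i)`; `|d true - d false| ≤ 1` (root
edge, `dd_a`).  Define `f` on the darts `t` of the composite with the function `F` of `PGr/CompV.lean`
(namespace `CompVAux`; see `CompD_f` in `CompD.lean` for the same kind of argument):
 `F t = inr ⟨i, q⟩` (`q` a cycle of the net `i`): the distance of `t0` to the vertex `q` in `bR (N i)`;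
 `F t = inl q` (`q` a cycle of the core): `d false` if `q` is the cycle of `inl (i, false)`, otherwise `d true`;
 otherwise: `d true`.
(The cycles of `inl (i, true)`, `inl (i, false)` in the core are different: `C.toB` is good, `noLoop`.)
`f (s t) = f t` by `F_s`; `f` changes by at most one along edges: nonroot edges `inl ⟨j, e⟩`, `inl ⟨j, a e⟩` of another net
`j ≠ i` and the root edge: both values are in `{d true, d false}`; edges of the net `i`: both values are distances of `t0` to
the two vertices of the edge in `bR (N i)`.  Then `lip`, `f (nemb t) = dd t0 t` (`F_core`, `F_inner`, `F_jump`).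
-/

set_option linter.unusedSectionVars false

namespace Dia
open Equiv Finset PGr

variable {C : Core}

/-- the test function on the cycle types -/
private noncomputable def NetD_g (C : Core) (N : C.I → GB) (i : C.I) (t0 : (N i).1.T) :
    CompVAux.Cyc C.s ⊕ (Σ i, CompVAux.Cyc (N i).1.s) → ℤ
  | Sum.inl q =>
    open Classical in
    if q = CompVAux.cyc C.s (Sum.inl (i, false)) then ((bR (N i).1).dd t0 (Sum.inr false) : ℤ)
    else ((bR (N i).1).dd t0 (Sum.inr true) : ℤ)
  | Sum.inr q =>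
    open Classical in
    if h : q.1 = i then ((bR (N i).1).G.dist ((bR (N i).1).vx t0) (h ▸ q.2) : ℤ)
    else ((bR (N i).1).dd t0 (Sum.inr true) : ℤ)

private theorem NetD_g_core (hC : C.toB.IsGood) (N : C.I → GB) (i : C.I) (t0 : (N i).1.T)
    (b : Bool) : NetD_g C N i t0 (Sum.inl (CompVAux.cyc C.s (Sum.inl (i, b)))) =
      ((bR (N i).1).dd t0 (Sum.inr b) : ℤ) := by
  cases b
  · exact if_pos rfl
  · refine if_neg ?_
    intro h
    exact Good.noLoop hC (Sum.inl (i, true)) (CompVAux.cyc_eq.1 h)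

private theorem NetD_g_inner (N : C.I → GB) (i : C.I) (t0 t : (N i).1.T) :
    NetD_g C N i t0 (Sum.inr ⟨i, CompVAux.cyc (N i).1.s t⟩) =
      ((bR (N i).1).dd t0 t : ℤ) := dif_pos rfl

private theorem NetD_g_off (N : C.I → GB) (i j : C.I) (hj : j ≠ i) (t0 : (N i).1.T)
    (q : CompVAux.Cyc (N j).1.s) :
    NetD_g C N i t0 (Sum.inr ⟨j, q⟩) = ((bR (N i).1).dd t0 (Sum.inr true) : ℤ) := dif_neg hj

private theorem NetD_g_inl (N : C.I → GB) (i : C.I) (t0 : (N i).1.T) (q : CompVAux.Cyc C.s) :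
    NetD_g C N i t0 (Sum.inl q) = ((bR (N i).1).dd t0 (Sum.inr false) : ℤ) ∨
      NetD_g C N i t0 (Sum.inl q) = ((bR (N i).1).dd t0 (Sum.inr true) : ℤ) := by
  by_cases h : q = CompVAux.cyc C.s (Sum.inl (i, false))
  · exact Or.inl (if_pos h)
  · exact Or.inr (if_neg h)

private theorem NetD_in (hC : C.toB.IsGood) (N : C.I → GB) (i : C.I) (t0 : (N i).1.T)
    (e : (N i).1.D) : NetD_g C N i t0 (CompVAux.F C N (Sum.inl ⟨i, e⟩)) =
      ((bR (N i).1).dd t0 (Sum.inl e) : ℤ) := by
  by_cases hb : ∃ b, (N i).1.s.SameCycle (Sum.inl e) (Sum.inr b)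
  · obtain ⟨b, hb⟩ := hb
    rw [CompVAux.F_core C N hb, NetD_g_core hC]
    have h1 : (bR (N i).1).dd t0 (Sum.inr b) = (bR (N i).1).dd t0 (Sum.inl e) :=
      dd_congr (M := bR (N i).1) (Perm.SameCycle.refl _ t0) hb.symm
    rw [h1]
  · rw [CompVAux.F_inner C N hb, NetD_g_inner]

private theorem NetD_out (N : C.I → GB) (i j : C.I) (hj : j ≠ i) (t0 : (N i).1.T)
    (e : (N j).1.D) :
    NetD_g C N i t0 (CompVAux.F C N (Sum.inl ⟨j, e⟩)) = ((bR (N i).1).dd t0 (Sum.inr false) : ℤ) ∨
    NetD_g C N i t0 (CompVAux.F C N (Sum.inl ⟨j, e⟩)) = ((bR (N i).1).dd t0 (Sum.inr true) : ℤ) := by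
  by_cases hb : ∃ b, (N j).1.s.SameCycle (Sum.inl e) (Sum.inr b)
  · obtain ⟨b, hb⟩ := hb
    rw [CompVAux.F_core C N hb]
    exact NetD_g_inl N i t0 _
  · rw [CompVAux.F_inner C N hb]
    exact Or.inr (NetD_g_off N i j hj t0 _)

theorem net_dd (hC : C.toB.IsGood) (N : C.I → GB) (i : C.I) (t t' : (N i).1.T) :
    (bR (N i).1).dd t t' ≤ (bR (comp C N)).dd (nemb C N i t) (nemb C N i t') := by
  have hN := bR_isMap (N i).2
  have hst : ∀ u, (bR (N i).1).dd t ((bR (N i).1).a u) ≤ (bR (N i).1).dd t u + 1 :=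
    fun u => hN.dist_a ((bR (N i).1).vx t) u
  have h12 : (bR (N i).1).dd t (Sum.inr true) ≤ (bR (N i).1).dd t (Sum.inr false) + 1 :=
    hst (Sum.inr false)
  have h21 : (bR (N i).1).dd t (Sum.inr false) ≤ (bR (N i).1).dd t (Sum.inr true) + 1 :=
    hst (Sum.inr true)
  -- values at the darts of the net
  have hval : ∀ u : (N i).1.T, NetD_g C N i t (CompVAux.F C N (nemb C N i u)) =
      ((bR (N i).1).dd t u : ℤ) := by
    rintro (e | b)
    · exact NetD_in hC N i t e
    · show NetD_g C N i t (CompVAux.F C N (jump C N (Sum.inl (i, b)))) = _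
      rw [CompVAux.F_jump]
      exact NetD_g_core hC N i t b
  have h := lip (bR_isMap (comp_isGood N hC)) (fun u => NetD_g C N i t (CompVAux.F C N u))
    ?_ ?_ (nemb C N i t) (nemb C N i t')
  · have h1 : NetD_g C N i t (CompVAux.F C N (nemb C N i t')) ≤
        NetD_g C N i t (CompVAux.F C N (nemb C N i t)) +
          ((bR (comp C N)).dd (nemb C N i t) (nemb C N i t') : ℤ) := h
    rw [hval, hval, dd_self] at h1
    have h3 : ((0 : ℕ) : ℤ) = 0 := rfl
    omega
  · intro u
    show NetD_g C N i t (CompVAux.F C N ((comp C N).s u)) = NetD_g C N i t (CompVAux.F C N u)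
    rw [CompVAux.F_s]
  · intro u
    show NetD_g C N i t (CompVAux.F C N ((bR (comp C N)).a u)) ≤
      NetD_g C N i t (CompVAux.F C N u) + 1
    rcases u with ⟨j, e⟩ | b
    · show NetD_g C N i t (CompVAux.F C N (Sum.inl ⟨j, (N j).1.a e⟩)) ≤
        NetD_g C N i t (CompVAux.F C N (Sum.inl ⟨j, e⟩)) + 1
      by_cases hj : j = i
      · subst hj
        rw [NetD_in hC, NetD_in hC]
        exact_mod_cast hst (Sum.inl e)
      · have h1 := NetD_out N i j hj t e
        have h2 := NetD_out N i j hj t ((N j).1.a e)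
        rcases h1 with h1 | h1 <;> rcases h2 with h2 | h2 <;> rw [h1, h2] <;> omega
    · show NetD_g C N i t (CompVAux.F C N (Sum.inr (!b))) ≤
        NetD_g C N i t (CompVAux.F C N (Sum.inr b)) + 1
      have h1 := NetD_g_inl N i t (CompVAux.cyc C.s (Sum.inr b))
      have h2 := NetD_g_inl N i t (CompVAux.cyc C.s (Sum.inr (!b)))
      have h3 : CompVAux.F C N (Sum.inr b) = Sum.inl (CompVAux.cyc C.s (Sum.inr b)) := rfl
      have h4 : CompVAux.F C N (Sum.inr (!b)) = Sum.inl (CompVAux.cyc C.s (Sum.inr (!b))) := rfl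
      rw [h3, h4]
      rcases h1 with h1 | h1 <;> rcases h2 with h2 | h2 <;> rw [h1, h2] <;> omega

end Dia
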