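import Pool.Agent.DiaC.InsDD
import Pool.Agent.DiaC.NetD
import Pool.Agent.DiaC.BigInj

/-!
# Module BigC: filled nets on the edges of an arbitrary core

`bigC_ok`, `bigC_E`, `bigC_nV`: the proofs of `big_ok`, `big_E`, `big_nV` (`BigOk.lean`) for a general core
(`bigM c g = bigC (ESum.core c) g`).
`bigC_core_dm`: `dd_il`, `compD_lower`.
`bigC_net_dm`: `ins_dm_le` with `φ = nemb` (`net_dd`): corners with insertions are `inl d`, `nemb (inl d) = inl ⟨i, d⟩`.
`refill`: `N' i = (cl (N i)).rep`; `comp_iso` (`ESum.rep_iso`) gives an isomorphism `E` of `comp C N'` and `F.1.rep`,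
which maps nonroot darts to nonroot darts; `g i = ⟨cl (N i), fun d => F.2 (E ⟨i, d⟩)⟩`; `ins_iso`.
`bigC_inj`: isomorphic composites with insertions over the same core with the same `g` ... : if `RMIso (fmap F) (bigC C g)`
and `RMIso (fmap F') (bigC C g)` then `F = F'` (`fmap_inj`).
`fmap_root_dm`: `ins_dm_le` with the identity.
-/

set_option linter.unusedSectionVars false

namespace Dia
open Equiv Finset PGr

theorem RMIso_symm {M N : RM} (h : RMIso M N) : RMIso N M := by
  exact h.symm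

theorem RMIso_trans {M N K : RM} (h : RMIso M N) (h' : RMIso N K) : RMIso M K := by
  exact h.trans h'

private theorem BigC_isC {D : Type} (X : D → Option RMC) (t : D ⊕ Bool) :
    (rless (fun d => ocm (X d)) t).IsC :=
  (rless_ok (fun d => ocm_ok (X d)) t).toIsC

theorem bigC_ok {C : Core} (hC : C.toB.IsGood) (g : C.I → FN) : (bigC C g).Ok := by
  exact ins_ok (bR_rns (comp_isGood (fun i => (g i).1.rep) hC)).ok (rless_ok fun d => ocm_ok _)

theorem bigC_E {C : Core} (hC : C.toB.IsGood) (g : C.I → FN) :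
    (bigC C g).E = 1 + ∑ i, fsz (g i) := by
  have h := ins_E (C := bR (comp C fun i => (g i).1.rep))
    (X := rless (D := (comp C fun i => (g i).1.rep).D) fun d => ocm ((g d.1).2 d.2))
    (bR_isMap (comp_isGood _ hC)) (BigC_isC (D := (comp C fun i => (g i).1.rep).D) fun d => (g d.1).2 d.2)
  have h2 := BigOk_ne (D := (comp C fun i => (g i).1.rep).D) (fun d => (g d.1).2 d.2)
  have h3 : ∑ t : (bR (comp C fun i => (g i).1.rep)).T, (rless (D := (comp C fun i => (g i).1.rep).D)
      (fun d => ocm ((g d.1).2 d.2)) t).ne =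
      ∑ d : (comp C fun i => (g i).1.rep).D, oE ((g d.1).2 d.2) := h2
  have h4 : ∑ d : (comp C fun i => (g i).1.rep).D, oE ((g d.1).2 d.2) =
      ∑ i, ∑ d : (g i).1.rep.1.D, oE ((g i).2 d) :=
    Fintype.sum_sigma (fun d : (Σ i, (g i).1.rep.1.D) => oE ((g d.1).2 d.2))
  have h5 : Fintype.card (comp C fun i => (g i).1.rep).D = ∑ i, Fintype.card (g i).1.rep.1.D :=
    Fintype.card_sigma
  have h6 : Fintype.card (comp C fun i => (g i).1.rep).D / 2 =
      ∑ i, Fintype.card (g i).1.rep.1.D / 2 := by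
    have h7 : ∀ i, Fintype.card (g i).1.rep.1.D = 2 * (Fintype.card (g i).1.rep.1.D / 2) := by
      intro i
      obtain ⟨k, -, hk⟩ := card_D_even (g i).1.rep.2
      omega
    rw [h5, Finset.sum_congr rfl (fun i _ => h7 i), ← Finset.mul_sum]
    omega
  show (ins (bR (comp C fun i => (g i).1.rep))
    (rless (D := (comp C fun i => (g i).1.rep).D) fun d => ocm ((g d.1).2 d.2))).E = _
  rw [h, h3, h4, BigOk_E, h6]
  unfold fsz
  rw [Finset.sum_add_distrib]
  ring

theorem bigC_nV {C : Core} (hC : C.toB.IsGood) (g : C.I → FN) :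
    nV (bigC C g).s = (nV C.s - 2) + ∑ i, fnv (g i) + 2 := by
  have h := ins_nV (C := bR (comp C fun i => (g i).1.rep))
    (X := rless (D := (comp C fun i => (g i).1.rep).D) fun d => ocm ((g d.1).2 d.2))
    (BigC_isC (D := (comp C fun i => (g i).1.rep).D) fun d => (g d.1).2 d.2)
  have h2 := BigOk_nv (D := (comp C fun i => (g i).1.rep).D) (fun d => (g d.1).2 d.2)
  have h3 : ∑ t : (bR (comp C fun i => (g i).1.rep)).T, (rless (D := (comp C fun i => (g i).1.rep).D)
      (fun d => ocm ((g d.1).2 d.2)) t).nv =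
      ∑ d : (comp C fun i => (g i).1.rep).D, onv ((g d.1).2 d.2) := h2
  have h4 : ∑ d : (comp C fun i => (g i).1.rep).D, onv ((g d.1).2 d.2) =
      ∑ i, ∑ d : (g i).1.rep.1.D, onv ((g i).2 d) :=
    Fintype.sum_sigma (fun d : (Σ i, (g i).1.rep.1.D) => onv ((g d.1).2 d.2))
  have h5 : nV (bR (comp C fun i => (g i).1.rep)).s + 2 * Fintype.card C.I =
      nV C.s + ∑ i, nV (g i).1.rep.1.s :=
    nV_comp C (fun i => (g i).1.rep) hC
  have h6 : ∑ i, nV (g i).1.rep.1.s = ∑ i, (nV (g i).1.rep.1.s - 2) +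
      2 * Fintype.card C.I := by
    have h7 : ∀ i, nV (g i).1.rep.1.s = (nV (g i).1.rep.1.s - 2) + 2 := by
      intro i
      have : 2 ≤ nV (g i).1.rep.1.s := Good.two_le_nV (g i).1.rep.2
      omega
    rw [Finset.sum_congr rfl (fun i _ => h7 i), Finset.sum_add_distrib]
    simp [mul_comm]
  show nV (ins (bR (comp C fun i => (g i).1.rep))
    (rless (D := (comp C fun i => (g i).1.rep).D) fun d => ocm ((g d.1).2 d.2))).s = _
  rw [h, h3, h4]
  unfold fnv
  rw [Finset.sum_add_distrib]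
  have h8 : 2 ≤ nV C.s := Good.two_le_nV hC
  omega

theorem bigC_core_dm {C : Core} (hC : C.toB.IsGood) (g : C.I → FN) :
    (bR C.toB).dm ≤ (bigC C g).dm := by
  obtain ⟨t, t', ht⟩ := exists_dm (bR C.toB)
  have h1 := compD_lower hC (fun i => (g i).1.rep) t t'
  have h2 : (bigC C g).dd (phC C g t) (phC C g t') =
      (bR (comp C fun i => (g i).1.rep)).dd (jump C (fun i => (g i).1.rep) t)
        (jump C (fun i => (g i).1.rep) t') :=
    dd_il (C := bR (comp C fun i => (g i).1.rep))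
      (X := rless (D := (comp C fun i => (g i).1.rep).D) fun d => ocm ((g d.1).2 d.2))
      (bR_isMap (comp_isGood _ hC))
      (BigC_isC (D := (comp C fun i => (g i).1.rep).D) fun d => (g d.1).2 d.2) _ _
  rw [← ht]
  refine h1.trans ?_
  rw [← h2]
  exact (dd_le_ecc _ _).trans (ecc_le_dm _)

theorem bigC_net_dm {C : Core} (hC : C.toB.IsGood) (g : C.I → FN) (i : C.I) :
    (fmap (g i)).dm ≤ (bigC C g).dm := by
  refine ins_dm_le (C := bR (g i).1.rep.1) (C' := bR (comp C fun i => (g i).1.rep))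
    (X := rless fun d => ocm ((g i).2 d))
    (X' := rless (D := (comp C fun i => (g i).1.rep).D) fun d => ocm ((g d.1).2 d.2))
    (bR_isMap (g i).1.rep.2) (BigC_isC _) (bR_isMap (comp_isGood _ hC))
    (BigC_isC (D := (comp C fun i => (g i).1.rep).D) fun d => (g d.1).2 d.2)
    (nemb C (fun i => (g i).1.rep) i) (net_dd hC (fun i => (g i).1.rep) i) ?_ ?_
  · rintro (d | b) (d' | b') h1 h2 h3
    · have h4 : (Sum.inl ⟨i, d⟩ : (comp C fun i => (g i).1.rep).T) = Sum.inl ⟨i, d'⟩ := h3
      have h5 := Sum.inl_injective h4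
      have h6 : d = d' := eq_of_heq (Sigma.mk.inj_iff.1 h5).2
      rw [h6]
    · exact absurd rfl h2
    · exact absurd rfl h1
    · exact absurd rfl h1
  · rintro (d | b) h1
    · exact CMIso.refl _
    · exact absurd rfl h1

theorem refill {C : Core} (hC : C.toB.IsGood) {F : FN} {N : C.I → GB}
    (h : BIso (comp C N) F.1.rep.1) :
    ∃ g : C.I → FN, (∀ i, (g i).1 = ESum.cl (N i)) ∧ RMIso (fmap F) (bigC C g) := by
  have h1 : BIso (comp C fun i => (ESum.cl (N i)).rep) F.1.rep.1 :=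
    (comp_iso C (fun i => (ESum.cl (N i)).rep) N fun i => ESum.rep_iso (N i)).trans h
  obtain ⟨f, hfa, hfs⟩ := CompIso.exists_f h1
  refine ⟨fun i => ⟨ESum.cl (N i), fun d => F.2 (f ⟨i, d⟩)⟩, fun _ => rfl, ?_⟩
  refine RMIso_symm ?_
  refine ins_iso (C := bR (comp C fun i => (ESum.cl (N i)).rep)) (C' := bR F.1.rep.1)
    (X := rless (D := (comp C fun i => (ESum.cl (N i)).rep).D) fun d => ocm (F.2 (f ⟨d.1, d.2⟩)))
    (X' := rless fun d => ocm (F.2 d))
    (Equiv.sumCongr f (Equiv.refl Bool)) ?_ ?_ rfl ?_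
  · rintro (d | b)
    · exact congrArg Sum.inl (hfa d)
    · rfl
  · intro t
    exact (hfs t).symm
  · rintro (d | b)
    · exact CMIso.refl _
    · exact CMIso.refl _

theorem bigC_inj {C : Core} {F F' : FN} {g : C.I → FN} (h : RMIso (fmap F) (bigC C g))
    (h' : RMIso (fmap F') (bigC C g)) : F = F' := by
  exact fmap_inj (RMIso_trans h (RMIso_symm h'))

/-- size, number of vertices and diameters for an isomorphism -/
theorem refill_stat {C : Core} (hC : C.toB.IsGood) {F : FN} {g : C.I → FN}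
    (h : RMIso (fmap F) (bigC C g)) : fsz F = ∑ i, fsz (g i) ∧
      fnv F = (nV C.s - 2) + ∑ i, fnv (g i) ∧ (bR C.toB).dm ≤ (fmap F).dm ∧
      ∀ i, (fmap (g i)).dm ≤ (fmap F).dm := by
  have hd : (bigC C g).dm = (fmap F).dm := dm_iso (fmap_ok F).toIsMap (bigC_ok hC g).toIsMap h
  have hE : (fmap F).E = (bigC C g).E := by
    obtain ⟨e, -, -, -⟩ := h
    show Fintype.card (fmap F).T / 2 = Fintype.card (bigC C g).T / 2
    rw [Fintype.card_congr e]
  have hV : nV (fmap F).s = nV (bigC C g).s := by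
    obtain ⟨e, -, hs, -⟩ := h
    exact nV_iso e hs
  rw [fmap_E, bigC_E hC] at hE
  rw [fmap_nV, bigC_nV hC] at hV
  refine ⟨by omega, by omega, ?_, ?_⟩
  · rw [← hd]
    exact bigC_core_dm hC g
  · intro i
    rw [← hd]
    exact bigC_net_dm hC g i

/-- removing the insertions at the root darts -/
theorem fmap_root_dm (c : GC) (Z : (bR c.rep.1).T → Option RMC) :
    (fmap ⟨c, fun d => Z (Sum.inl d)⟩).dm ≤ (ins (bR c.rep.1) fun t => ocm (Z t)).dm := by
  refine ins_dm_le (C := bR c.rep.1) (C' := bR c.rep.1)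
    (X := rless fun d => ocm (Z (Sum.inl d)))
    (X' := fun t => ocm (Z t))
    (bR_isMap c.rep.2) (BigC_isC _) (bR_isMap c.rep.2)
    (fun t => (ocm_ok (Z t)).toIsC)
    (fun t => t) (fun _ _ => le_rfl) (fun _ _ _ _ h => h) ?_
  rintro (d | b) h1
  · exact CMIso.refl _
  · exact absurd rfl h1

end Dia
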