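import Pool.Agent.DiaC.CIDefs
import Pool.Agent.DiamP.Basic
import Pool.Agent.PGc.RgSer

/-!
# The system of equations for the coefficient sequences: definitions

`x` = weight of a vertex, `y` = weight of an edge.  All sequences are indexed by the number of edges of
the corresponding general maps.
-/

set_option linter.unusedSectionVars false

namespace Dia
open Finset PGr Pool.Agent.DiamP
open scoped ENNReal

/-- The system: `a` rooted planar maps, `z = y a^2`, `Y` networks (good maps with the root edge deleted, filled),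
`S`, `P`, `R` the series, parallel and rigid ones, `ρ j` the weight of the rigid maps with `j` nonroot
edges. -/
structure Sys (x y : ℝ) (ρ a z S P R Y : ℕ → ℝ) : Prop where
  ρ0 : ∀ n, 0 ≤ ρ n
  a0 : ∀ n, 0 ≤ a n
  z0 : ∀ n, 0 ≤ z n
  S0 : ∀ n, 0 ≤ S n
  P0 : ∀ n, 0 ≤ P n
  R0 : ∀ n, 0 ≤ R n
  Y0 : ∀ n, 0 ≤ Y n
  SY : ∀ n, S n ≤ Y n
  PY : ∀ n, P n ≤ Y n
  ha : ∀ n, a n = one0 n + z n + x * cv z (one0 + Y) n
  hz0 : z 0 = 0
  hz : ∀ n, z (n + 1) = y * cv a a n
  hY : ∀ n, Y n = z n + S n + P n + R n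
  hY0 : Y 0 = 0
  hS : ∀ n, S n = x * cv (Y - S) Y n
  hP : ∀ n, P n = cv (Y - P) Y n
  hR : ∀ n, R n = ∑ j ∈ range (n + 1), ρ j * cvL (List.replicate j Y) n

open PowerSeries in
/-- value of a power series with coefficients in `[0, ∞]` -/
noncomputable def ev (F : ℝ≥0∞⟦X⟧) (y : ℝ≥0∞) : ℝ≥0∞ := ∑' n, coeff n F * y ^ n

open PowerSeries in
/-- `∑ j, c j Z^j` -/
noncomputable def sbs (c : ℕ → ℝ≥0∞) (Z : ℝ≥0∞⟦X⟧) : ℝ≥0∞⟦X⟧ :=
  mk fun n => ∑' j, c j * coeff n (Z ^ j)

section
variable (x : ℝ≥0∞)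

open Classical in
/-- weight of the rooted planar maps with `N` edges -/
noncomputable def aE (N : ℕ) : ℝ≥0∞ :=
  if N = 0 then 1 else ∑' m : RMC, if m.out.1.E = N then x ^ (nV m.out.1.s - 1) else 0

open Classical in
/-- weight of the good maps with `m` nonroot edges and the property `P` -/
noncomputable def selE (P : BMap → Prop) (m : ℕ) : ℝ≥0∞ :=
  ∑' c : GC, if P c.rep.1 ∧ Fintype.card c.rep.1.D / 2 = m then x ^ (nV c.rep.1.s - 2) else 0

noncomputable def AP : PowerSeries ℝ≥0∞ := PowerSeries.mk (aE x)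

noncomputable def ZP : PowerSeries ℝ≥0∞ := PowerSeries.X * AP x ^ 2

noncomputable def YP (P : BMap → Prop) : PowerSeries ℝ≥0∞ := sbs (selE x P) (ZP x)

end

/-- real coefficients of a power series, with weight `y` per unit of size -/
noncomputable def cfR (F : PowerSeries ℝ≥0∞) (y : ℝ) (n : ℕ) : ℝ :=
  (PowerSeries.coeff n F).toReal * y ^ n

section
variable (x y : ℝ)

noncomputable def aS : ℕ → ℝ := cfR (AP (ENNReal.ofReal x)) y
noncomputable def zS : ℕ → ℝ := cfR (ZP (ENNReal.ofReal x)) y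
noncomputable def YS : ℕ → ℝ := cfR (YP (ENNReal.ofReal x) fun _ => True) y
noncomputable def SS : ℕ → ℝ := cfR (YP (ENNReal.ofReal x) IsSer) y
noncomputable def PS : ℕ → ℝ := cfR (YP (ENNReal.ofReal x) IsPar) y
noncomputable def RS : ℕ → ℝ := cfR (sbs (rc' (ENNReal.ofReal x)) (YP (ENNReal.ofReal x) fun _ => True)) y
noncomputable def rhoS (j : ℕ) : ℝ := (rc' (ENNReal.ofReal x) j).toReal

end

/-- the total weight of all maps as a function of the parameter `v` -/
noncomputable def psiV (x v : ℝ) : ℝ := 1 + uf x v + v - 3 * uf x v * v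

/-- the edge weight as a function of the parameter -/
noncomputable def tV (x v : ℝ) : ℝ := Yf x v / psiV x v ^ 2

end Dia
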