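import Pool.Agent.DiaC.InsSum
import Pool.Agent.DiaC.SysDefs
import Pool.Agent.Dia.DistM
import Pool.Agent.PGr.ESum

/-!
# Rigid maps with filled nets on their edges: definitions
-/

set_option linter.unusedSectionVars false

namespace Dia
open Equiv Finset PGr
open scoped ENNReal

/-- distance of the vertices of two darts -/
noncomputable def RM.dd (M : RM) (t t' : M.T) : ℕ := M.G.dist (M.vx t) (M.vx t')

/-- largest distance of two vertices -/
noncomputable def RM.dm (M : RM) : ℕ := univ.sup fun v => M.ecc v

/-- a filled net: a good map (class) with rooted maps inserted in the corners of the nonroot darts -/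
abbrev FN : Type 1 := Σ n : GC, (n.rep.1.D → Option RMC)

/-- number of nonroot edges of a filled net -/
noncomputable def fsz (F : FN) : ℕ := Fintype.card F.1.rep.1.D / 2 + ∑ d, oE (F.2 d)

/-- number of vertices of a filled net different from the poles -/
noncomputable def fnv (F : FN) : ℕ := (nV F.1.rep.1.s - 2) + ∑ d, onv (F.2 d)

/-- weight of a filled net -/
noncomputable def fwt (x y : ℝ≥0∞) (F : FN) : ℝ≥0∞ := x ^ fnv F * y ^ fsz F

/-- insertions, nothing at the corners after the root darts -/
def rless {D : Type} (X : D → CM) : D ⊕ Bool → CM
  | Sum.inl d => X d
  | Sum.inr _ => CM.nil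

/-- the filled net as a rooted map -/
noncomputable def fmap (F : FN) : RM := ins (bR F.1.rep.1) (rless fun d => ocm (F.2 d))

section big
variable (c : GC) (g : (ESum.core c).I → FN)

/-- the nets -/
noncomputable def netsOf (i : (ESum.core c).I) : GB := (g i).1.rep

/-- the composite of a good map with the nets -/
noncomputable def bigB : BMap := comp (ESum.core c) (netsOf c g)

/-- the composite with all insertions -/
noncomputable def bigM : RM :=
  ins (bR (bigB c g)) (rless (D := (bigB c g).D) fun d => ocm ((g d.1).2 d.2))

/-- the darts of the core in the composite (the vertex of a dart of the core) -/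
noncomputable def phB (t : (ESum.core c).toB.T) : (bR (bigB c g)).T :=
  jump (ESum.core c) (netsOf c g) t

noncomputable def phM (t : (ESum.core c).toB.T) : (bigM c g).T := il _ _ (phB c g t)

end big

/-- length of the path around the root face, without the root edge -/
noncomputable def fpd (F : FN) : ℕ := F.1.rep.1.rl - 1

/-- eccentricity of the root vertex of the filled net -/
noncomputable def fec (F : FN) : ℕ := (fmap F).ecc ((fmap F).vx (fmap F).r)

/-- number of nonroot edges of a good map -/
noncomputable def gE (c : GC) : ℕ := Fintype.card c.rep.1.D / 2

/-- diameter of a good map -/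
noncomputable def gdm (c : GC) : ℕ := (bR c.rep.1).dm

end Dia
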