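import Pool.Agent.DiaC.CIDefs

/-!
# Module InsA: the map with insertions is connected

`side`: let `A` be closed under `a` and `s` and contain `il c`.  If `(X c).r = none` then `(X c).D` is empty
and `s (il c) = il (C.s c)`.  If `(X c).r = some r`: `s (il c) = ir c r`, so the set
`B = {d | ir c d ∈ A}` contains `r`; it is closed under `(X c).a`, and under `(X c).s` (let `d ∈ B`: if
`(X c).s d = r` it is `r ∈ B`, otherwise `s (ir c d) = ir c ((X c).s d)`).  So `B = univ` by connectedness of
`X c`, and for `d = (X c).s⁻¹ r`: `s (ir c d) = il (C.s c) ∈ A`.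

`ins_conn`: let `A` be nonempty, closed under `a`, `s`.  The complement is closed under `a`, `s`, too
(finite set: `A.image s = A` by cardinality).  If `ir c d ∈ A` then `il c ∈ A` (otherwise
apply `side` to the complement).  So some `il c ∈ A`; the set `{c | il c ∈ A}` is closed under `C.a`
and `C.s` (`side`), so it is everything, and then all `ir c d ∈ A` by `side`.
-/

set_option linter.unusedSectionVars false

namespace Dia
open Equiv Finset PGr

/-- the complement of a closed set is closed -/
theorem InsA_compl {T : Type} [Fintype T] [DecidableEq T] (s : Perm T) {A : Finset T}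
    (hs : ∀ t, t ∈ A → s t ∈ A) : ∀ t, t ∈ Aᶜ → s t ∈ Aᶜ := by
  have h1 : A.map s.toEmbedding = A := by
    apply eq_of_subset_of_card_le
    · intro t ht
      rw [mem_map] at ht
      obtain ⟨u, hu, rfl⟩ := ht
      exact hs u hu
    · rw [card_map]
  intro t ht
  rw [mem_compl] at ht ⊢
  intro h2
  rw [← h1, mem_map] at h2
  obtain ⟨u, hu, hut⟩ := h2
  exact ht (s.injective hut ▸ hu)

theorem side {C : RM} {X : C.T → CM} (hX : ∀ c, (X c).IsC) {A : Finset (ins C X).T}
    (ha : ∀ t, t ∈ A → (ins C X).a t ∈ A) (hs : ∀ t, t ∈ A → (ins C X).s t ∈ A) {c : C.T}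
    (hc : il C X c ∈ A) : (∀ d, ir X c d ∈ A) ∧ il C X (C.s c) ∈ A := by
  classical
  rcases hr : (X c).r with _ | r
  · have h1 := (hX c).root hr
    refine ⟨fun d => (h1.false d).elim, ?_⟩
    rw [← ins_s_il_none C X hr]
    exact hs _ hc
  · have hrA : ir X c r ∈ A := by
      rw [← ins_s_il_some C X hr]
      exact hs _ hc
    have hall : (univ.filter fun d => ir X c d ∈ A) = univ := by
      refine (hX c).conn _ ?_ ?_ ⟨r, by simpa using hrA⟩
      · intro d hd
        simp only [mem_filter, mem_univ, true_and] at hd ⊢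
        exact ha _ hd
      · intro d hd
        simp only [mem_filter, mem_univ, true_and] at hd ⊢
        by_cases h2 : (X c).r = some ((X c).s d)
        · rw [hr] at h2
          rw [← Option.some.inj h2]
          exact hrA
        · rw [← ins_s_ir_ne C X h2]
          exact hs _ hd
    have hall' : ∀ d, ir X c d ∈ A := by
      intro d
      have h2 := mem_univ d
      rw [← hall] at h2
      exact (mem_filter.1 h2).2
    refine ⟨hall', ?_⟩
    have h3 : (X c).r = some ((X c).s ((X c).s.symm r)) := by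
      rw [hr, Equiv.apply_symm_apply]
    rw [← ins_s_ir_eq C X h3]
    exact hs _ (hall' _)

theorem ins_conn {C : RM} {X : C.T → CM} (hC : Conn C.a C.s) (hX : ∀ c, (X c).IsC) :
    Conn (ins C X).a (ins C X).s := by
  classical
  intro A ha hs hne
  have hca : ∀ t, t ∈ Aᶜ → (ins C X).a t ∈ Aᶜ := InsA_compl _ ha
  have hcs : ∀ t, t ∈ Aᶜ → (ins C X).s t ∈ Aᶜ := InsA_compl _ hs
  have h1 : ∀ c d, ir X c d ∈ A → il C X c ∈ A := by
    intro c d hd
    by_contra hcon
    have h2 := (side hX hca hcs (mem_compl.2 hcon)).1 d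
    exact (mem_compl.1 h2) hd
  have h2 : ∃ c, il C X c ∈ A := by
    obtain ⟨t, ht⟩ := hne
    rcases ins_cases C X t with ⟨c, rfl⟩ | ⟨c, d, rfl⟩
    · exact ⟨c, ht⟩
    · exact ⟨c, h1 c d ht⟩
  obtain ⟨c0, hc0⟩ := h2
  have h3 : (univ.filter fun c => il C X c ∈ A) = univ := by
    refine hC _ ?_ ?_ ⟨c0, by simpa using hc0⟩
    · intro c hc
      simp only [mem_filter, mem_univ, true_and] at hc ⊢
      exact ha _ hc
    · intro c hc
      simp only [mem_filter, mem_univ, true_and] at hc ⊢
      exact (side hX ha hs hc).2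
  have h4 : ∀ c, il C X c ∈ A := by
    intro c
    have h5 := mem_univ c
    rw [← h3] at h5
    exact (mem_filter.1 h5).2
  rw [eq_univ_iff_forall]
  intro t
  rcases ins_cases C X t with ⟨c, rfl⟩ | ⟨c, d, rfl⟩
  · exact h4 c
  · exact (side hX ha hs (h4 c)).1 d

theorem ins_isMap {C : RM} {X : C.T → CM} (hC : C.IsMap) (hX : ∀ c, (X c).IsC) :
    (ins C X).IsMap := by
  refine ⟨fun t => ?_, fun t => ?_, ins_conn hC.conn hX⟩
  · rcases ins_cases C X t with ⟨c, rfl⟩ | ⟨c, d, rfl⟩
    · rw [ins_a_il, ins_a_il, hC.inv]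
    · rw [ins_a_ir, ins_a_ir, (hX c).inv]
  · rcases ins_cases C X t with ⟨c, rfl⟩ | ⟨c, d, rfl⟩
    · rw [ins_a_il]
      intro h
      exact hC.fpf c (il_inj C X h)
    · rw [ins_a_ir]
      intro h
      exact (hX c).fpf d (ir_inj C X h)

end Dia
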