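import Pool.Agent.DiaC.CIDefs
import Pool.Agent.PGr.RetLib

/-!
# Module InsRet: the rotation of the map with insertions, return maps and vertices

`ilS` = the darts of `C`, `irS c` = the darts of `X c`.

`ins_run`: starting at `il c` the rotation runs through the root vertex of `X c` and then reaches
`il (C.s c)`.  If `(X c).r = none`: `k = 1`.  If `(X c).r = some r`: let `k` be the
minimal period of `r` under `(X c).s`; `(s ^ (i + 1)) (il c) = ir c (((X c).s ^ i) r)` for `i < k`
(induction on `i`: `((X c).s ^ (i + 1)) r ≠ r` for `i + 1 < k`), and `((X c).s ^ (k - 1)) r` is the dart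
before `r`, so `(s ^ (k + 1)) (il c) = il (C.s c)`.

`ret_il`: `ret_spec` with `ins_run`.
`ret_ir`: let `(X c).r = some r` (there is a dart `d`).  If `(X c).s d ≠ r`: `ret_of_mem`.  If `(X c).s d = r`:
`s (ir c d) = il (C.s c)`; from there the rotation reaches `il c` through darts outside `irS c`:
the next dart of `irS c` on the cycle must have a predecessor outside of `irS c`, and the only dart outside
`irS c` with `s t ∈ irS c` is `il c`, with `s (il c) = ir c r`.  (Use `exists_ret`: the return is `s ^ k` with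
all intermediate powers outside; consider the power `k - 1`.)

`sc_il`, `sc_ir`: `sameCycle_ret` transported by `ret_il`, `ret_ir` (the injections `il`, `ir c`
conjugate `C.s`, `(X c).s` to the return maps; powers: induction).
`sc_root`: one step.  `sc_off`: if `d` is not in the cycle of the root then `s` maps
`ir c d'` to `ir c ((X c).s d')` for all `d'` in the cycle of `d`.
-/

set_option linter.unusedSectionVars false

namespace Dia
open Equiv Finset PGr

section
variable (C : RM) (X : C.T → CM)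

/-- the darts of `C` -/
noncomputable def ilS : Finset (ins C X).T := univ.image (il C X)

/-- the darts of `X c` -/
noncomputable def irS (c : C.T) : Finset (ins C X).T := univ.image (ir X c)

theorem mem_ilS (c : C.T) : il C X c ∈ ilS C X := mem_image_of_mem _ (mem_univ _)

theorem mem_irS (c : C.T) (d : (X c).D) : ir X c d ∈ irS C X c :=
  mem_image_of_mem _ (mem_univ _)

end

variable {C : RM} {X : C.T → CM}

theorem mem_ilS_iff {t : (ins C X).T} : t ∈ ilS C X ↔ ∃ c, t = il C X c := by
  simp only [ilS, mem_image, mem_univ, true_and]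
  exact ⟨fun ⟨c, h⟩ => ⟨c, h.symm⟩, fun ⟨c, h⟩ => ⟨c, h.symm⟩⟩

theorem mem_irS_iff {c : C.T} {t : (ins C X).T} : t ∈ irS C X c ↔ ∃ d, t = ir X c d := by
  simp only [irS, mem_image, mem_univ, true_and]
  exact ⟨fun ⟨c, h⟩ => ⟨c, h.symm⟩, fun ⟨c, h⟩ => ⟨c, h.symm⟩⟩

theorem InsRet_il_notMem {c c' : C.T} : il C X c' ∉ irS C X c := by
  intro h
  obtain ⟨d, h⟩ := mem_irS_iff.1 h
  exact il_ne_ir _ _ h

theorem InsRet_ir_notMem {c : C.T} {d : (X c).D} : ir X c d ∉ ilS C X := by
  intro h
  obtain ⟨d, h⟩ := mem_ilS_iff.1 h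
  exact il_ne_ir _ _ h.symm

theorem InsRet_ir_mem {c c' : C.T} {d : (X c').D} (h : ir X c' d ∈ irS C X c) : c' = c := by
  obtain ⟨e, h⟩ := mem_irS_iff.1 h
  exact ir_inj1 _ _ h

theorem cl_ilS : Cl (ins C X).a (ilS C X) := by
  intro t
  rcases ins_cases C X t with ⟨c, rfl⟩ | ⟨c, d, rfl⟩
  · rw [ins_a_il]
    exact ⟨fun _ => mem_ilS C X c, fun _ => mem_ilS C X _⟩
  · rw [ins_a_ir]
    exact ⟨fun h => absurd h InsRet_ir_notMem, fun h => absurd h InsRet_ir_notMem⟩

theorem cl_irS (c : C.T) : Cl (ins C X).a (irS C X c) := by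
  intro t
  rcases ins_cases C X t with ⟨c', rfl⟩ | ⟨c', d, rfl⟩
  · rw [ins_a_il]
    exact ⟨fun h => absurd h InsRet_il_notMem, fun h => absurd h InsRet_il_notMem⟩
  · rw [ins_a_ir]
    constructor
    · intro h
      obtain rfl := InsRet_ir_mem h
      exact mem_irS C X _ _
    · intro h
      obtain rfl := InsRet_ir_mem h
      exact mem_irS C X _ _

/-- an element of a finite type comes back under a permutation, first time -/
theorem InsRet_period {D : Type} [Fintype D] [DecidableEq D] (s : Perm D) (r : D) :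
    ∃ n, (s ^ (n + 1)) r = r ∧ ∀ i, i < n → (s ^ (i + 1)) r ≠ r := by
  have hex : ∃ n, (s ^ (n + 1)) r = r := by
    refine ⟨orderOf s - 1, ?_⟩
    have h := orderOf_pos s
    rw [Nat.sub_add_cancel h, pow_orderOf_eq_one]
    rfl
  exact ⟨Nat.find hex, Nat.find_spec hex, fun i hi => Nat.find_min hex hi⟩

theorem ins_run (hX : ∀ c, (X c).IsC) (c : C.T) : ∃ k, 0 < k ∧
    ((ins C X).s ^ k) (il C X c) = il C X (C.s c) ∧
    ∀ i, 0 < i → i < k → ((ins C X).s ^ i) (il C X c) ∈ irS C X c := by
  rcases hr : (X c).r with _ | r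
  · refine ⟨1, one_pos, ?_, fun i h0 h1 => by omega⟩
    rw [pow_one]
    exact ins_s_il_none C X hr
  · obtain ⟨n, hn, hmin⟩ := InsRet_period (X c).s r
    have key : ∀ i, i ≤ n → ((ins C X).s ^ (i + 1)) (il C X c) = ir X c (((X c).s ^ i) r) := by
      intro i
      induction i with
      | zero =>
        intro _
        rw [zero_add, pow_one, pow_zero]
        exact ins_s_il_some C X hr
      | succ i ih =>
        intro hi
        rw [pow_succ', Perm.mul_apply, ih (by omega)]
        rw [pow_succ' (X c).s i, Perm.mul_apply]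
        apply ins_s_ir_ne C X
        intro h
        rw [hr] at h
        have h' := Option.some.inj h
        rw [← Perm.mul_apply, ← pow_succ'] at h'
        exact hmin i (by omega) h'.symm
    refine ⟨n + 2, by omega, ?_, ?_⟩
    · rw [show n + 2 = (n + 1) + 1 by ring, pow_succ', Perm.mul_apply, key n le_rfl]
      apply ins_s_ir_eq C X
      rw [hr, ← Perm.mul_apply, ← pow_succ', hn]
    · intro i h0 h1
      obtain ⟨j, rfl⟩ : ∃ j, i = j + 1 := ⟨i - 1, by omega⟩
      rw [key j (by omega)]
      exact mem_irS C X c _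

theorem ret_il (hX : ∀ c, (X c).IsC) (c : C.T) :
    ret (ins C X).s (ilS C X) ⟨il C X c, mem_ilS C X c⟩ =
      ⟨il C X (C.s c), mem_ilS C X (C.s c)⟩ := by
  obtain ⟨k, hk, h1, h2⟩ := ins_run hX c
  have h3 : ((ins C X).s ^ k) (il C X c) ∈ ilS C X := by
    rw [h1]
    exact mem_ilS C X _
  rw [ret_spec (ins C X).s (ilS C X) ⟨il C X c, mem_ilS C X c⟩ hk h3]
  · exact Subtype.ext h1
  · intro i hi hik h
    obtain ⟨d, hd⟩ := mem_irS_iff.1 (h2 i hi hik)
    change ((ins C X).s ^ i) (il C X c) ∈ ilS C X at h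
    rw [hd] at h
    exact InsRet_ir_notMem h

theorem ret_ir (hX : ∀ c, (X c).IsC) (c : C.T) (d : (X c).D) :
    ret (ins C X).s (irS C X c) ⟨ir X c d, mem_irS C X c d⟩ =
      ⟨ir X c ((X c).s d), mem_irS C X c ((X c).s d)⟩ := by
  obtain ⟨r, hr⟩ : ∃ r, (X c).r = some r := by
    rcases h : (X c).r with _ | r
    · exact ((hX c).root h).elim d
    · exact ⟨r, rfl⟩
  by_cases hd : (X c).s d = r
  · apply Subtype.ext
    obtain ⟨k, hk, h1, h2⟩ := exists_ret (ins C X).s (irS C X c) ⟨ir X c d, mem_irS C X c d⟩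
    have hmem := (ret (ins C X).s (irS C X c) ⟨ir X c d, mem_irS C X c d⟩).2
    rw [← h1] at hmem ⊢
    change ((ins C X).s ^ k) (ir X c d) ∈ irS C X c at hmem
    change ((ins C X).s ^ k) (ir X c d) = ir X c ((X c).s d)
    have hs1 : (ins C X).s (ir X c d) = il C X (C.s c) := ins_s_ir_eq C X (by rw [hr, hd])
    have hk1 : k ≠ 1 := by
      rintro rfl
      rw [pow_one, hs1] at hmem
      exact InsRet_il_notMem hmem
    have h3 := h2 (k - 1) (by omega) (by omega)
    change ((ins C X).s ^ (k - 1)) (ir X c d) ∉ irS C X c at h3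
    have h4 : ((ins C X).s ^ k) (ir X c d) = (ins C X).s (((ins C X).s ^ (k - 1)) (ir X c d)) := by
      rw [← Perm.mul_apply, ← pow_succ', Nat.sub_add_cancel hk]
    rw [h4] at hmem ⊢
    rcases ins_cases C X (((ins C X).s ^ (k - 1)) (ir X c d)) with ⟨c', hc⟩ | ⟨c', d', hc⟩
    · rw [hc] at hmem ⊢
      rcases hr' : (X c').r with _ | r'
      · rw [ins_s_il_none C X hr'] at hmem
        exact absurd hmem InsRet_il_notMem
      · rw [ins_s_il_some C X hr'] at hmem ⊢
        obtain rfl := InsRet_ir_mem hmem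
        rw [hd]
        rw [hr] at hr'
        rw [Option.some.inj hr']
    · rw [hc] at hmem h3
      by_cases hd' : (X c').r = some ((X c').s d')
      · rw [ins_s_ir_eq C X hd'] at hmem
        exact absurd hmem InsRet_il_notMem
      · rw [ins_s_ir_ne C X hd'] at hmem
        obtain rfl := InsRet_ir_mem hmem
        exact absurd (mem_irS C X _ _) h3
  · have hs : (ins C X).s (ir X c d) = ir X c ((X c).s d) := by
      apply ins_s_ir_ne C X
      rw [hr]
      intro h
      exact hd (Option.some.inj h).symm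
    have hm : (ins C X).s (ir X c d) ∈ irS C X c := by
      rw [hs]
      exact mem_irS C X _ _
    rw [ret_of_mem (ins C X).s (irS C X c) ⟨ir X c d, mem_irS C X c d⟩ hm]
    exact Subtype.ext hs

/-- an injection which conjugates two permutations preserves and reflects cycles -/
theorem InsRet_sc {A B : Type} [Fintype A] [Fintype B] [DecidableEq A] [DecidableEq B]
    (g : Perm B) (h : Perm A) (f : A → B) (hf : Function.Injective f)
    (hc : ∀ x, g (f x) = f (h x)) (x y : A) : g.SameCycle (f x) (f y) ↔ h.SameCycle x y := by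
  have hp : ∀ (n : ℕ) (x : A), (g ^ n) (f x) = f ((h ^ n) x) := by
    intro n
    induction n with
    | zero => intro x; rfl
    | succ n ih =>
      intro x
      rw [pow_succ', pow_succ', Perm.mul_apply, Perm.mul_apply, ih, hc]
  constructor
  · intro H
    obtain ⟨i, _, hi⟩ := H.exists_pow_eq'
    rw [hp] at hi
    exact ⟨(i : ℤ), by rw [zpow_natCast]; exact hf hi⟩
  · intro H
    obtain ⟨i, _, hi⟩ := H.exists_pow_eq'
    refine ⟨(i : ℤ), ?_⟩
    rw [zpow_natCast, hp, hi]

theorem sc_il (hX : ∀ c, (X c).IsC) {c c' : C.T} :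
    (ins C X).s.SameCycle (il C X c) (il C X c') ↔ C.s.SameCycle c c' := by
  rw [← sameCycle_ret (ins C X).s (ilS C X) ⟨il C X c, mem_ilS C X c⟩ ⟨il C X c', mem_ilS C X c'⟩]
  exact InsRet_sc (ret (ins C X).s (ilS C X)) C.s
    (fun c => (⟨il C X c, mem_ilS C X c⟩ : {x // x ∈ ilS C X}))
    (fun c c' h => il_inj C X (congrArg Subtype.val h)) (fun c => ret_il hX c) c c'

theorem sc_ir (hX : ∀ c, (X c).IsC) {c : C.T} {d d' : (X c).D} :
    (ins C X).s.SameCycle (ir X c d) (ir X c d') ↔ (X c).s.SameCycle d d' := by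
  rw [← sameCycle_ret (ins C X).s (irS C X c) ⟨ir X c d, mem_irS C X c d⟩
    ⟨ir X c d', mem_irS C X c d'⟩]
  exact InsRet_sc (ret (ins C X).s (irS C X c)) (X c).s
    (fun d => (⟨ir X c d, mem_irS C X c d⟩ : {x // x ∈ irS C X c}))
    (fun d d' h => ir_inj C X (congrArg Subtype.val h)) (fun d => ret_ir hX c d) d d'

theorem sc_root {c : C.T} {r : (X c).D} (hr : (X c).r = some r) :
    (ins C X).s.SameCycle (il C X c) (ir X c r) := by
  refine ⟨1, ?_⟩
  rw [zpow_one]
  exact ins_s_il_some C X hr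

theorem sc_off {c : C.T} {r d : (X c).D} (hr : (X c).r = some r)
    (hd : ¬ (X c).s.SameCycle r d) {t : (ins C X).T} (ht : (ins C X).s.SameCycle (ir X c d) t) :
    ∃ d', t = ir X c d' ∧ (X c).s.SameCycle d d' := by
  have hp : ∀ n : ℕ, ((ins C X).s ^ n) (ir X c d) = ir X c (((X c).s ^ n) d) := by
    intro n
    induction n with
    | zero => rfl
    | succ n ih =>
      rw [pow_succ', Perm.mul_apply, ih, pow_succ' (X c).s n, Perm.mul_apply]
      apply ins_s_ir_ne C X
      rw [hr]
      intro h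
      apply hd
      have h' := Option.some.inj h
      rw [← Perm.mul_apply, ← pow_succ'] at h'
      refine (show (X c).s.SameCycle d r from ⟨((n + 1 : ℕ) : ℤ), ?_⟩).symm
      rw [zpow_natCast]
      exact h'.symm
  obtain ⟨i, _, hi⟩ := ht.exists_pow_eq'
  refine ⟨((X c).s ^ i) d, ?_, ⟨(i : ℤ), by rw [zpow_natCast]⟩⟩
  rw [← hi, hp]

end Dia
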