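import Pool.Agent.DiaC.DdLib
import Pool.Agent.DiaC.InsA
import Pool.Agent.DiaC.InsRet

/-!
# Module InsD: distances in a map with insertions

`dd_il`: `≥`: for fixed `c0` the function `f (il c) = f (ir c d) = C.dd c0 c` is constant on vertices
(`s (il c)` is `ir c _` or `il (C.s c)`; `s (ir c d)` is `ir c _` or `il (C.s c)`) and changes by at most one along
edges: `lip`.  `≤`: induction on `C.dd c c'`: if it is `0`, `sc_il`; otherwise `dd_pred`: `u` in the vertex of
`c'` with `C.dd c (C.a u)` smaller, `dd_a` for `il u`, `sc_il`.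
-/

set_option linter.unusedSectionVars false

namespace Dia
open Equiv Finset PGr

variable {C : RM} {X : C.T → CM}

private def InsD_cc : (ins C X).T → C.T := Sum.elim id fun p => p.1

private theorem InsD_il (c : C.T) : InsD_cc (il C X c) = c := rfl

private theorem InsD_ir (c : C.T) (d : (X c).D) : InsD_cc (ir X c d) = c := rfl

private theorem InsD_le (hC : C.IsMap) (hX : ∀ c, (X c).IsC) (c0 : C.T) (t : (ins C X).T) :
    C.dd c0 (InsD_cc t) ≤ (ins C X).dd (il C X c0) t := by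
  have hs : ∀ c, C.dd c0 (C.s c) = C.dd c0 c := fun c =>
    dd_congr (Perm.SameCycle.refl _ _) (Perm.sameCycle_apply_left.2 (Perm.SameCycle.refl _ _))
  have h1 := lip (ins_isMap hC hX) (fun t => (C.dd c0 (InsD_cc t) : ℤ)) ?_ ?_ (il C X c0) t
  · have h2 : (C.dd c0 (InsD_cc t) : ℤ) ≤ (C.dd c0 c0 : ℤ) + (ins C X).dd (il C X c0) t := h1
    rw [dd_self] at h2
    have h3 : ((0 : ℕ) : ℤ) = 0 := rfl
    omega
  · intro t
    show (C.dd c0 (InsD_cc ((ins C X).s t)) : ℤ) = C.dd c0 (InsD_cc t)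
    rcases ins_cases C X t with ⟨c, rfl⟩ | ⟨c, d, rfl⟩
    · rcases hr : (X c).r with _ | r
      · rw [ins_s_il_none C X hr, InsD_il, InsD_il, hs]
      · rw [ins_s_il_some C X hr, InsD_il, InsD_ir]
    · by_cases hd : (X c).r = some ((X c).s d)
      · rw [ins_s_ir_eq C X hd, InsD_il, InsD_ir, hs]
      · rw [ins_s_ir_ne C X hd, InsD_ir, InsD_ir]
  · intro t
    show (C.dd c0 (InsD_cc ((ins C X).a t)) : ℤ) ≤ C.dd c0 (InsD_cc t) + 1
    rcases ins_cases C X t with ⟨c, rfl⟩ | ⟨c, d, rfl⟩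
    · rw [ins_a_il, InsD_il, InsD_il]
      exact_mod_cast hC.dist_a (C.vx c0) c
    · rw [ins_a_ir, InsD_ir, InsD_ir]
      omega

theorem dd_il (hC : C.IsMap) (hX : ∀ c, (X c).IsC) (c c' : C.T) :
    (ins C X).dd (il C X c) (il C X c') = C.dd c c' := by
  refine le_antisymm ?_ (InsD_le hC hX c (il C X c'))
  obtain ⟨n, hn⟩ : ∃ n, C.dd c c' = n := ⟨_, rfl⟩
  rw [hn]
  induction n generalizing c' with
  | zero => exact (dd_sc ((sc_il hX).2 (dd_eq_zero hC hn))).le
  | succ n ih =>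
    obtain ⟨u, hu, hu'⟩ := dd_pred hC hn
    have h1 := ih _ hu'
    have h2 : (ins C X).dd (il C X c) ((ins C X).a (il C X (C.a u))) ≤
        (ins C X).dd (il C X c) (il C X (C.a u)) + 1 :=
      (ins_isMap hC hX).dist_a ((ins C X).vx (il C X c)) (il C X (C.a u))
    rw [ins_a_il, hC.inv] at h2
    rw [dd_congr (Perm.SameCycle.refl _ _) ((sc_il hX).2 hu)]
    omega

/-- the retraction to the core decreases distances -/
theorem dd_ret (hC : C.IsMap) (hX : ∀ c, (X c).IsC) (c0 c : C.T) (d : (X c).D) :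
    C.dd c0 c ≤ (ins C X).dd (il C X c0) (ir X c d) :=
  InsD_le hC hX c0 (ir X c d)

end Dia
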