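import Pool.Agent.DiaC.InsRet
import Pool.Agent.Dia.EulerM

/-!
# Module InsV: numbers of vertices and edges of the map with insertions

`ins_card`: `Fintype.card_sum`, `Fintype.card_sigma`.

`ins_nV`: `nV s` is the number of classes of `SameCycle.setoid s`.  The map
`V(C) ⊕ Σ c, {v : V(X c) // v is not the class of the root} → V(ins)`, given by `il` and `ir`, is a bijection:
well defined and injective by `sc_il`, `sc_ir`, `sc_off` (a class of `ir c d` off the root vertex contains
only darts of `X c`), surjective by `sc_root`.  If `(X c).r = some r` the number of vertices of `X c` is one more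
than the number of the vertices different from the root vertex; if `(X c).r = none` there are no
darts and both are `0`.  (`CM.nv X = nV X.s - 1`.)

`ins_E`, `ins_nV1`: arithmetic; the numbers of darts of `C` and of `X c` are even (fixed point free
involutions, `even_card` of module EulerM).
-/

set_option linter.unusedSectionVars false

namespace Dia
open Equiv Finset PGr

variable {C : RM} {X : C.T → CM}

theorem ins_card : Fintype.card (ins C X).T = Fintype.card C.T + ∑ c, Fintype.card (X c).D := by
  rw [← Fintype.card_sigma, ← Fintype.card_sum]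
  rfl

/-- the vertices of an inserted map which are not its root vertex -/
def InsV_P (Y : CM) (v : Quotient (Perm.SameCycle.setoid Y.s)) : Prop :=
  ∀ r, Y.r = some r → v ≠ Quotient.mk _ r

theorem InsV_card {Y : CM} (hY : Y.IsC) :
    Nat.card {v : Quotient (Perm.SameCycle.setoid Y.s) // InsV_P Y v} = Y.nv := by
  unfold CM.nv nV
  rcases hr : Y.r with _ | r
  · have := hY.root hr
    have : IsEmpty (Quotient (Perm.SameCycle.setoid Y.s)) :=
      ⟨fun q => Quotient.inductionOn q fun d => IsEmpty.false d⟩
    rw [Nat.card_of_isEmpty, Nat.card_of_isEmpty]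
  · have e : {v : Quotient (Perm.SameCycle.setoid Y.s) // InsV_P Y v} ≃
        {v : Quotient (Perm.SameCycle.setoid Y.s) // v ≠ Quotient.mk _ r} :=
      Equiv.subtypeEquivRight fun v => by
        unfold InsV_P
        constructor
        · intro h
          exact h r hr
        · intro h r' hr'
          rw [hr] at hr'
          rw [← Option.some.inj hr']
          exact h
    rw [Nat.card_congr e]
    classical
    have h1 := Nat.card_congr (Equiv.optionSubtypeNe
      (Quotient.mk (Perm.SameCycle.setoid Y.s) r))
    rw [Finite.card_option] at h1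
    omega

/-- the vertices of the map with insertions -/
noncomputable def InsV_F (hX : ∀ c, (X c).IsC) :
    (Quotient (Perm.SameCycle.setoid C.s)) ⊕
      (Σ c : C.T, {v : Quotient (Perm.SameCycle.setoid (X c).s) // InsV_P (X c) v}) →
    Quotient (Perm.SameCycle.setoid (ins C X).s)
  | Sum.inl v => Quotient.map' (s₁ := Perm.SameCycle.setoid C.s)
      (s₂ := Perm.SameCycle.setoid (ins C X).s) (il C X) (fun _ _ h => (sc_il hX).2 h) v
  | Sum.inr ⟨c, v⟩ => Quotient.map' (s₁ := Perm.SameCycle.setoid (X c).s)
      (s₂ := Perm.SameCycle.setoid (ins C X).s) (ir X c) (fun _ _ h => (sc_ir hX).2 h) v.1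

theorem InsV_bij (hX : ∀ c, (X c).IsC) : Function.Bijective (InsV_F (C := C) (X := X) hX) := by
  constructor
  · rintro (v | ⟨c, v, hv⟩) (w | ⟨c', w, hw⟩) h
    · induction v using Quotient.inductionOn with | _ v =>
      induction w using Quotient.inductionOn with | _ w =>
      have h' : (ins C X).s.SameCycle (il C X v) (il C X w) := Quotient.exact h
      exact congrArg Sum.inl (Quotient.sound ((sc_il hX).1 h'))
    · induction v using Quotient.inductionOn with | _ v =>
      induction w using Quotient.inductionOn with | _ w =>
      have h' : (ins C X).s.SameCycle (il C X v) (ir X c' w) := Quotient.exact h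
      obtain ⟨r, hr⟩ : ∃ r, (X c').r = some r := by
        rcases h : (X c').r with _ | r
        · exact ((hX c').root h).elim w
        · exact ⟨r, rfl⟩
      have hn : ¬ (X c').s.SameCycle r w := fun H => hw r hr (Quotient.sound H.symm)
      obtain ⟨d, hd, _⟩ := sc_off hr hn h'.symm
      exact absurd hd (il_ne_ir C X)
    · induction v using Quotient.inductionOn with | _ v =>
      induction w using Quotient.inductionOn with | _ w =>
      have h' : (ins C X).s.SameCycle (ir X c v) (il C X w) := Quotient.exact h
      obtain ⟨r, hr⟩ : ∃ r, (X c).r = some r := by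
        rcases h : (X c).r with _ | r
        · exact ((hX c).root h).elim v
        · exact ⟨r, rfl⟩
      have hn : ¬ (X c).s.SameCycle r v := fun H => hv r hr (Quotient.sound H.symm)
      obtain ⟨d, hd, _⟩ := sc_off hr hn h'
      exact absurd hd (il_ne_ir C X)
    · induction v using Quotient.inductionOn with | _ v =>
      induction w using Quotient.inductionOn with | _ w =>
      have h' : (ins C X).s.SameCycle (ir X c v) (ir X c' w) := Quotient.exact h
      obtain ⟨r, hr⟩ : ∃ r, (X c).r = some r := by
        rcases h : (X c).r with _ | r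
        · exact ((hX c).root h).elim v
        · exact ⟨r, rfl⟩
      have hn : ¬ (X c).s.SameCycle r v := fun H => hv r hr (Quotient.sound H.symm)
      obtain ⟨d, hd, hvd⟩ := sc_off hr hn h'
      obtain rfl := ir_inj1 C X hd
      obtain rfl := ir_inj C X hd
      have e : (Quotient.mk (Perm.SameCycle.setoid (X c').s) v) = Quotient.mk _ w :=
        Quotient.sound hvd
      simp only [Sum.inr.injEq, Sigma.mk.injEq, heq_eq_eq, true_and]
      exact Subtype.ext e
  · intro t
    induction t using Quotient.inductionOn with | _ t =>
    rcases ins_cases C X t with ⟨c, rfl⟩ | ⟨c, d, rfl⟩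
    · exact ⟨Sum.inl (Quotient.mk _ c), rfl⟩
    · obtain ⟨r, hr⟩ : ∃ r, (X c).r = some r := by
        rcases h : (X c).r with _ | r
        · exact ((hX c).root h).elim d
        · exact ⟨r, rfl⟩
      by_cases hd : (X c).s.SameCycle r d
      · refine ⟨Sum.inl (Quotient.mk _ c), ?_⟩
        exact Quotient.sound ((sc_root hr).trans ((sc_ir hX).2 hd))
      · refine ⟨Sum.inr ⟨c, Quotient.mk _ d, ?_⟩, rfl⟩
        intro r' hr' h
        rw [hr] at hr'
        obtain rfl := Option.some.inj hr'
        exact hd (show (X c).s.SameCycle d r from Quotient.exact h).symm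

theorem ins_nV (hX : ∀ c, (X c).IsC) :
    nV (ins C X).s = nV C.s + ∑ c, (X c).nv := by
  have h := Nat.card_congr (Equiv.ofBijective _ (InsV_bij (C := C) (X := X) hX))
  rw [Nat.card_sum, Nat.card_sigma] at h
  unfold nV
  rw [← h]
  congr 1
  exact Finset.sum_congr rfl fun c _ => InsV_card (hX c)

theorem ins_E (hC : C.IsMap) (hX : ∀ c, (X c).IsC) :
    (ins C X).E = C.E + ∑ c, (X c).ne := by
  unfold RM.E CM.ne
  rw [ins_card]
  have hm := even_card hC.inv hC.fpf
  have h1 : ∀ c, Fintype.card (X c).D = 2 * (Fintype.card (X c).D / 2) := by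
    intro c
    exact (even_card (hX c).inv (hX c).fpf).symm
  have h2 : ∑ c, Fintype.card (X c).D = 2 * ∑ c, (Fintype.card (X c).D / 2) := by
    rw [Finset.mul_sum]
    exact Finset.sum_congr rfl fun c _ => h1 c
  rw [h2]
  omega

theorem nV_pos (M : RM) : 0 < nV M.s := by
  unfold nV
  have : Nonempty (Quotient (Perm.SameCycle.setoid M.s)) := ⟨Quotient.mk _ M.r⟩
  exact Nat.card_pos

theorem ins_nV1 (hX : ∀ c, (X c).IsC) :
    nV (ins C X).s - 1 = (nV C.s - 1) + ∑ c, (X c).nv := by
  have h1 := ins_nV (C := C) hX
  have h2 := nV_pos C
  omega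

end Dia
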