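import Pool.Agent.DiaC.CompD
import Pool.Agent.DiaC.InsD
import Pool.Agent.DiaC.InsV
import Pool.Agent.PGc.Rig1
import Pool.Agent.PGr.Digon
import Pool.Agent.PGr.Euler

/-!
# Module BigOk: the composite with insertions is a planar map; numbers of edges and vertices

`rless_isC`, `rless_ok`: by cases (`ocm_ok`; `CM.nil` is `ocm none`).
`fmap_ok`, `big_ok`: `ins_ok` with `(bR _).Ok` (`bR_rns`, `RNS.ok`).
`fmap_E`: `ins_E`; `card ((bR M).T) = card D + 2`; the sum over `D ⊕ Bool` (`Fintype.sum_sum_type`) is the sum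
over `D` since `CM.nil` has no edges; `(ocm o).ne = oE o`, `(ocm o).nv = onv o` (by cases, `card Empty = 0`,
`nV (1 : Perm Empty) = 0`).
`fmap_nV`, `fmap_two`: `ins_nV`, `Good.two_le_nV`.
`big_E`: the number of nonroot edges of the composite is `∑ i` of the numbers of the nets (`Fintype.card_sigma`,
all even: `card_D_even`).  `big_nV`: `nV_comp`, as in `ESum.W_comp`.
`dd_phM`: `dd_il`, `compD_lower`.  `phM_sc`: `sc_il`, `jump_sc`, and `F_jump`, `F_sc` for the converse.
-/

set_option linter.unusedSectionVars false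

namespace Dia
open Equiv Finset PGr

theorem rless_ok {D : Type} {X : D → CM} (hX : ∀ d, (X d).Ok) (t : D ⊕ Bool) :
    (rless X t).Ok := by
  rcases t with d | b
  · exact hX d
  · exact ocm_ok none

theorem ocm_ne (o : Option RMC) : (ocm o).ne = oE o := by
  rcases o with _ | m
  · show Fintype.card Empty / 2 = 0
    simp
  · rfl

theorem ocm_nv (o : Option RMC) : (ocm o).nv = onv o := by
  rcases o with _ | m
  · show nV (1 : Perm Empty) - 1 = 0
    unfold nV
    have : IsEmpty (Quotient (Perm.SameCycle.setoid (1 : Perm Empty))) :=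
      ⟨fun q => Quotient.inductionOn q fun d => d.elim⟩
    simp
  · rfl

theorem BigOk_nil_ne : CM.nil.ne = 0 := ocm_ne none
theorem BigOk_nil_nv : CM.nil.nv = 0 := ocm_nv none

theorem BigOk_ne {D : Type} [Fintype D] (X : D → Option RMC) :
    ∑ t : D ⊕ Bool, (rless (fun d => ocm (X d)) t).ne = ∑ d, oE (X d) := by
  rw [Fintype.sum_sum_type]
  have h1 : ∑ b : Bool, (rless (fun d => ocm (X d)) (Sum.inr b)).ne = 0 := by
    refine Finset.sum_eq_zero fun b _ => BigOk_nil_ne
  rw [h1, add_zero]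
  exact Finset.sum_congr rfl fun d _ => ocm_ne (X d)

theorem BigOk_nv {D : Type} [Fintype D] (X : D → Option RMC) :
    ∑ t : D ⊕ Bool, (rless (fun d => ocm (X d)) t).nv = ∑ d, onv (X d) := by
  rw [Fintype.sum_sum_type]
  have h1 : ∑ b : Bool, (rless (fun d => ocm (X d)) (Sum.inr b)).nv = 0 := by
    refine Finset.sum_eq_zero fun b _ => BigOk_nil_nv
  rw [h1, add_zero]
  exact Finset.sum_congr rfl fun d _ => ocm_nv (X d)

theorem BigOk_E (M : BMap) : (bR M).E = Fintype.card M.D / 2 + 1 := by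
  show Fintype.card (M.D ⊕ Bool) / 2 = _
  rw [Fintype.card_sum, Fintype.card_bool]
  omega

theorem fmap_ok (F : FN) : (fmap F).Ok :=
  ins_ok (bR_rns F.1.rep.2).ok (rless_ok fun d => ocm_ok _)

theorem fmap_E (F : FN) : (fmap F).E = 1 + fsz F := by
  have h := ins_E (C := bR F.1.rep.1) (X := rless fun d => ocm (F.2 d))
    (bR_isMap F.1.rep.2) (fun t => (rless_ok (fun d => ocm_ok _) t).toIsC)
  have h2 := BigOk_ne F.2
  show (ins (bR F.1.rep.1) (rless fun d => ocm (F.2 d))).E = _
  rw [h, BigOk_E]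
  unfold fsz
  have h3 : ∑ c : (bR F.1.rep.1).T, (rless (fun d => ocm (F.2 d)) c).ne = ∑ d, oE (F.2 d) := h2
  rw [h3]
  ring

theorem fmap_nV (F : FN) : nV (fmap F).s = fnv F + 2 := by
  have h := ins_nV (C := bR F.1.rep.1) (X := rless fun d => ocm (F.2 d))
    (fun t => (rless_ok (fun d => ocm_ok _) t).toIsC)
  have h2 := BigOk_nv F.2
  show nV (ins (bR F.1.rep.1) (rless fun d => ocm (F.2 d))).s = _
  have h3 : ∑ c : (bR F.1.rep.1).T, (rless (fun d => ocm (F.2 d)) c).nv = ∑ d, onv (F.2 d) := h2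
  rw [h, h3]
  unfold fnv
  have h4 : 2 ≤ nV F.1.rep.1.s := Good.two_le_nV F.1.rep.2
  have h5 : nV (bR F.1.rep.1).s = nV F.1.rep.1.s := rfl
  omega

theorem fsz_pos (F : FN) : 0 < fsz F := by
  obtain ⟨k, hk, h⟩ := card_D_even F.1.rep.2
  unfold fsz
  omega

section
variable (c : GC) (g : (ESum.core c).I → FN)

theorem bigB_good : (bigB c g).IsGood := comp_isGood _ (ESum.core_good c)

theorem BigOk_isC (t : (bigB c g).D ⊕ Bool) :
    (rless (D := (bigB c g).D) (fun d => ocm ((g d.1).2 d.2)) t).IsC :=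
  (rless_ok (fun d => ocm_ok _) t).toIsC

theorem big_ok : (bigM c g).Ok :=
  ins_ok (bR_rns (bigB_good c g)).ok (rless_ok fun d => ocm_ok _)

theorem big_E : (bigM c g).E = 1 + ∑ i, fsz (g i) := by
  have h := ins_E (C := bR (bigB c g)) (X := rless (D := (bigB c g).D) fun d => ocm ((g d.1).2 d.2))
    (bR_isMap (bigB_good c g)) (BigOk_isC c g)
  have h2 := BigOk_ne (D := (bigB c g).D) (fun d => (g d.1).2 d.2)
  have h3 : ∑ t : (bR (bigB c g)).T, (rless (D := (bigB c g).D)
      (fun d => ocm ((g d.1).2 d.2)) t).ne = ∑ d : (bigB c g).D, oE ((g d.1).2 d.2) := h2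
  have h4 : ∑ d : (bigB c g).D, oE ((g d.1).2 d.2) =
      ∑ i, ∑ d : (g i).1.rep.1.D, oE ((g i).2 d) :=
    Fintype.sum_sigma (fun d : (Σ i, (g i).1.rep.1.D) => oE ((g d.1).2 d.2))
  have h5 : Fintype.card (bigB c g).D = ∑ i, Fintype.card (g i).1.rep.1.D :=
    Fintype.card_sigma
  have h6 : Fintype.card (bigB c g).D / 2 = ∑ i, Fintype.card (g i).1.rep.1.D / 2 := by
    have h7 : ∀ i, Fintype.card (g i).1.rep.1.D = 2 * (Fintype.card (g i).1.rep.1.D / 2) := by
      intro i
      obtain ⟨k, -, hk⟩ := card_D_even (g i).1.rep.2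
      omega
    rw [h5, Finset.sum_congr rfl (fun i _ => h7 i), ← Finset.mul_sum]
    omega
  show (ins (bR (bigB c g)) (rless (D := (bigB c g).D) fun d => ocm ((g d.1).2 d.2))).E = _
  rw [h, h3, h4, BigOk_E, h6]
  unfold fsz
  rw [Finset.sum_add_distrib]
  ring

theorem BigOk_core_nV : nV (ESum.core c).s = nV c.rep.1.s := (ESum.core_iso c).nV_eq

theorem big_nV : nV (bigM c g).s = (nV c.rep.1.s - 2) + ∑ i, fnv (g i) + 2 := by
  have h := ins_nV (C := bR (bigB c g)) (X := rless (D := (bigB c g).D) fun d => ocm ((g d.1).2 d.2))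
    (BigOk_isC c g)
  have h2 := BigOk_nv (D := (bigB c g).D) (fun d => (g d.1).2 d.2)
  have h3 : ∑ t : (bR (bigB c g)).T, (rless (D := (bigB c g).D)
      (fun d => ocm ((g d.1).2 d.2)) t).nv = ∑ d : (bigB c g).D, onv ((g d.1).2 d.2) := h2
  have h4 : ∑ d : (bigB c g).D, onv ((g d.1).2 d.2) =
      ∑ i, ∑ d : (g i).1.rep.1.D, onv ((g i).2 d) :=
    Fintype.sum_sigma (fun d : (Σ i, (g i).1.rep.1.D) => onv ((g d.1).2 d.2))
  have h5 : nV (bR (bigB c g)).s + 2 * Fintype.card (ESum.core c).I =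
      nV (ESum.core c).s + ∑ i, nV (g i).1.rep.1.s :=
    nV_comp (ESum.core c) (netsOf c g) (ESum.core_good c)
  have h6 : ∑ i, nV (g i).1.rep.1.s = ∑ i, (nV (g i).1.rep.1.s - 2) +
      2 * Fintype.card (ESum.core c).I := by
    have h7 : ∀ i, nV (g i).1.rep.1.s = (nV (g i).1.rep.1.s - 2) + 2 := by
      intro i
      have : 2 ≤ nV (g i).1.rep.1.s := Good.two_le_nV (g i).1.rep.2
      omega
    rw [Finset.sum_congr rfl (fun i _ => h7 i), Finset.sum_add_distrib]
    simp [mul_comm]
  show nV (ins (bR (bigB c g)) (rless (D := (bigB c g).D) fun d => ocm ((g d.1).2 d.2))).s = _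
  rw [h, h3, h4]
  unfold fnv
  rw [Finset.sum_add_distrib]
  have h8 : 2 ≤ nV c.rep.1.s := Good.two_le_nV c.rep.2
  have h9 := BigOk_core_nV c
  omega

theorem phM_sc (t t' : (ESum.core c).toB.T) :
    (bigM c g).s.SameCycle (phM c g t) (phM c g t') ↔ (ESum.core c).s.SameCycle t t' := by
  have h := sc_il (C := bR (bigB c g))
    (X := rless (D := (bigB c g).D) fun d => ocm ((g d.1).2 d.2)) (BigOk_isC c g)
    (c := phB c g t) (c' := phB c g t')
  refine h.trans ?_
  constructor
  · intro h1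
    have h2 := CompVAux.F_sc (ESum.core c) (netsOf c g) h1
    have h3 := CompVAux.F_jump (ESum.core c) (netsOf c g) t
    have h4 := CompVAux.F_jump (ESum.core c) (netsOf c g) t'
    have h5 := (h3.symm.trans h2).trans h4
    exact CompVAux.cyc_eq.1 (Sum.inl.inj h5)
  · intro h1
    exact CompVAux.jump_sc (ESum.core c) (netsOf c g) h1

theorem dd_phM (t t' : (ESum.core c).toB.T) :
    (bigM c g).dd (phM c g t) (phM c g t') = (bR (bigB c g)).dd (phB c g t) (phB c g t') :=
  dd_il (C := bR (bigB c g)) (X := rless (D := (bigB c g).D) fun d => ocm ((g d.1).2 d.2))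
    (bR_isMap (bigB_good c g)) (BigOk_isC c g) (phB c g t) (phB c g t')

theorem dd_lower (t t' : (ESum.core c).toB.T) :
    (bR (ESum.core c).toB).dd t t' ≤ (bigM c g).dd (phM c g t) (phM c g t') := by
  rw [dd_phM]
  exact compD_lower (ESum.core_good c) (netsOf c g) t t'

end

/-- for every pair of darts a set of edges of the core which carries a path -/
theorem dd_path (c : GC) (t t' : (ESum.core c).toB.T) :
    ∃ S : Finset (Option (ESum.core c).I), S.card ≤ (bR (ESum.core c).toB).dd t t' ∧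
      ∀ g : (ESum.core c).I → FN, (bigM c g).dd (phM c g t) (phM c g t') ≤
        ∑ o ∈ S, o.elim 1 fun i => fpd (g i) := by
  obtain ⟨S, hS, h⟩ := compD_path (ESum.core_good c) t t'
  refine ⟨S, hS, fun g => ?_⟩
  rw [dd_phM]
  exact h (netsOf c g)

/-- the diameter of the class -/
theorem core_dm (c : GC) : (bR (ESum.core c).toB).dm = gdm c := by
  obtain ⟨e, h1, h2, h3⟩ := (ESum.core_iso c).symm
  exact dm_iso (bR_isMap c.rep.2) (bR_isMap (ESum.core_good c)) ⟨e, h1, h2, h3⟩

theorem core_card_I (c : GC) : Fintype.card (ESum.core c).I = gE c := (ESum.core_card c).symm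

/-- vertices of the core: at least a third of the edges (rigid maps: every face has at least
three edges; `Rg3.card_ge` for the dual map and Euler's formula), and at most `gE c + 1` -/
theorem core_nV (c : GC) (hR : Rigid c.rep.1) :
    gE c ≤ 3 * nV c.rep.1.s ∧ nV c.rep.1.s ≤ gE c + 1 := by
  have hg : Good c.rep.1.aa c.rep.1.s := c.rep.2
  have h1 := Good.euler hg
  have h2 := Rg3.card_ge (Good.dual hg) (Rg3.dual hg ((rigid_iff c.rep.1).1 hR))
  have h3 := Good.two_le_nV (Good.dual hg)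
  have h4 := Good.two_le_nV hg
  have hT : Fintype.card c.rep.1.T = Fintype.card c.rep.1.D + 2 := by
    rw [Fintype.card_sum, Fintype.card_bool]
  obtain ⟨k, hk0, hk⟩ := card_D_even c.rep.2
  unfold gE
  rw [hT] at h1 h2
  omega

end Dia
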