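import Pool.Agent.DiaC.BigOk

/-!
# Module PartD: distances from the parts to the core

`iota c g i` maps the darts of the filled net `fmap (g i)` to darts of the composite: nonroot darts to themselves, the
root darts `inr b` to the dart `phM (inl (i, b))` (at the vertex of the pole `b`).  Write `P = fmap (g i)`.

`iota_sc`: vertices are mapped into vertices.  In `P = ins (bR net) (..)`: every dart `ir (inl d) e` with `e`
in the cycle of the root of the inserted map is in the vertex of `il (inl d)` (`sc_root`, `sc_ir`), other darts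
`ir (inl d) e` have vertices inside the inserted map (`sc_off`), which are the same in the
composite.  For `il (inl d)`, `il (inl d')`: `sc_il` in both maps and: nonroot darts of a net in the
same cycle are in the same cycle of the composite: if the cycle contains a root dart `inr b` both are in the cycle of
`jump (inl (i, b))` (`core_sc`), otherwise `inner_pow`.  For `il (inr b)`: `core_sc`.
`iota_a`: clear for nonroot darts.

`part_dist`: let `f t = min (P.dd (il (inr true)) t) (P.dd (il (inr false)) t)`.  By strong induction on `f t`: there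
is `b` with `dd (phM (inl (i, b))) (iota t) ≤ f t`.  If `f t = 0`: `t` is in the vertex of some
`il (inr b)`, `iota_sc`.  If `f t = k + 1` is attained at `b`: `dd_pred`: `u` in the vertex of `t` with
`P.dd (il (inr b)) (a u) = k`; `u` is not a root dart (else `f t = 0`), so
`iota (a u) = a (iota u)`; induction for `a u`, `dd_a`, `iota_sc`.  And `f t ≤ P.dd (il (inr true)) t ≤ fec`.

`big_ecc`: every dart is `iota c g i t` for some `i, t`, or `phM (inr b)`; triangle inequality.
-/

set_option linter.unusedSectionVars false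

namespace Dia
open Equiv Finset PGr

section
variable (c : GC) (g : (ESum.core c).I → FN)

/-- the darts of the filled net `i` in the composite; root darts go to the vertices of the poles -/
noncomputable def iota (i : (ESum.core c).I) :
    ((g i).1.rep.1.D ⊕ Bool) ⊕
      (Σ t, (rless (fun d => ocm ((g i).2 d)) t).D) → (bigM c g).T
  | Sum.inl (Sum.inl d) => il _ _ (Sum.inl ⟨i, d⟩)
  | Sum.inl (Sum.inr b) => phM c g (Sum.inl (i, b))
  | Sum.inr ⟨Sum.inl d, e⟩ => Sum.inr ⟨Sum.inl ⟨i, d⟩, e⟩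
  | Sum.inr ⟨Sum.inr _, e⟩ => nomatch e

theorem PartD_core (i : (ESum.core c).I) (d : (g i).1.rep.1.D) :
    (bigM c g).s.SameCycle (il _ _ (Sum.inl ⟨i, d⟩))
      (iota c g i (Sum.inl ((g i).1.rep.1.s (Sum.inl d)))) := by
  have hX : ∀ t, (rless (D := (bigB c g).D) (fun d => ocm ((g d.1).2 d.2)) t).IsC := fun t =>
    (rless_ok (fun d => ocm_ok _) t).toIsC
  rcases h : (g i).1.rep.1.s (Sum.inl d) with d' | b
  · have h1 : (bigB c g).s (Sum.inl ⟨i, d⟩) = Sum.inl ⟨i, d'⟩ :=
      comp_s_in (ESum.core c) (netsOf c g) h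
    refine (sc_il (C := bR (bigB c g)) hX).2 ?_
    have h2 := CompVAux.sc_apply (bigB c g).s (Sum.inl ⟨i, d⟩)
    rw [h1] at h2
    exact h2
  · refine (sc_il (C := bR (bigB c g)) hX).2 ?_
    have h2 := CompVAux.sc_apply (g i).1.rep.1.s (Sum.inl d)
    rw [h] at h2
    exact (CompVAux.core_sc (ESum.core c) (netsOf c g) (i := i) h2).symm

theorem PartD_step (i : (ESum.core c).I) (t : (fmap (g i)).T) :
    (bigM c g).s.SameCycle (iota c g i t) (iota c g i ((fmap (g i)).s t)) := by
  rcases t with (d | b) | ⟨d | b, e⟩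
  · rcases hr : (ocm ((g i).2 d)).r with _ | r
    · have h1 : (fmap (g i)).s (Sum.inl (Sum.inl d)) =
          Sum.inl ((g i).1.rep.1.s (Sum.inl d)) :=
        ins_s_il_none (bR (g i).1.rep.1) (rless fun d => ocm ((g i).2 d)) hr
      rw [h1]
      exact PartD_core c g i d
    · have h1 : (fmap (g i)).s (Sum.inl (Sum.inl d)) = Sum.inr ⟨Sum.inl d, r⟩ :=
        ins_s_il_some (bR (g i).1.rep.1) (rless fun d => ocm ((g i).2 d)) hr
      have h2 : (bigM c g).s (Sum.inl (Sum.inl ⟨i, d⟩)) = Sum.inr ⟨Sum.inl ⟨i, d⟩, r⟩ :=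
        ins_s_il_some (bR (bigB c g)) (rless (D := (bigB c g).D) fun d => ocm ((g d.1).2 d.2))
          (c := Sum.inl ⟨i, d⟩) hr
      rw [h1]
      have h3 := CompVAux.sc_apply (bigM c g).s (Sum.inl (Sum.inl ⟨i, d⟩))
      rw [h2] at h3
      exact h3
  · have h1 : (fmap (g i)).s (Sum.inl (Sum.inr b)) =
          Sum.inl ((g i).1.rep.1.s (Sum.inr b)) :=
        ins_s_il_none (bR (g i).1.rep.1) (rless fun d => ocm ((g i).2 d)) (c := Sum.inr b) rfl
    rw [h1, fstD_spec]
    exact Perm.SameCycle.refl _ _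
  · by_cases hr : (ocm ((g i).2 d)).r = some ((ocm ((g i).2 d)).s e)
    · have h1 : (fmap (g i)).s (Sum.inr ⟨Sum.inl d, e⟩) =
          Sum.inl ((g i).1.rep.1.s (Sum.inl d)) :=
        ins_s_ir_eq (bR (g i).1.rep.1) (rless fun d => ocm ((g i).2 d)) hr
      have h2 : (bigM c g).s (Sum.inr ⟨Sum.inl ⟨i, d⟩, e⟩) =
          Sum.inl ((bigB c g).s (Sum.inl ⟨i, d⟩)) :=
        ins_s_ir_eq (bR (bigB c g)) (rless (D := (bigB c g).D) fun d => ocm ((g d.1).2 d.2))
          (c := Sum.inl ⟨i, d⟩) hr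
      rw [h1]
      have h3 := CompVAux.sc_apply (bigM c g).s (Sum.inr ⟨Sum.inl ⟨i, d⟩, e⟩)
      rw [h2] at h3
      have hX : ∀ t, (rless (D := (bigB c g).D) (fun d => ocm ((g d.1).2 d.2)) t).IsC :=
        fun t => (rless_ok (fun d => ocm_ok _) t).toIsC
      have h4 : (bigM c g).s.SameCycle (Sum.inl ((bigB c g).s (Sum.inl ⟨i, d⟩)))
          (Sum.inl (Sum.inl ⟨i, d⟩)) :=
        (sc_il (C := bR (bigB c g)) hX).2
          (CompVAux.sc_apply (bigB c g).s (Sum.inl ⟨i, d⟩)).symm
      exact (h3.trans h4).trans (PartD_core c g i d)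
    · have h1 : (fmap (g i)).s (Sum.inr ⟨Sum.inl d, e⟩) =
          Sum.inr ⟨Sum.inl d, (ocm ((g i).2 d)).s e⟩ :=
        ins_s_ir_ne (bR (g i).1.rep.1) (rless fun d => ocm ((g i).2 d)) hr
      have h2 : (bigM c g).s (Sum.inr ⟨Sum.inl ⟨i, d⟩, e⟩) =
          Sum.inr ⟨Sum.inl ⟨i, d⟩, (ocm ((g i).2 d)).s e⟩ :=
        ins_s_ir_ne (bR (bigB c g)) (rless (D := (bigB c g).D) fun d => ocm ((g d.1).2 d.2))
          (c := Sum.inl ⟨i, d⟩) hr
      rw [h1]
      have h3 := CompVAux.sc_apply (bigM c g).s (Sum.inr ⟨Sum.inl ⟨i, d⟩, e⟩)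
      rw [h2] at h3
      exact h3
  · exact nomatch e

theorem iota_sc (i : (ESum.core c).I) {t t' : (fmap (g i)).T}
    (h : (fmap (g i)).s.SameCycle t t') :
    (bigM c g).s.SameCycle (iota c g i t) (iota c g i t') := by
  obtain ⟨n, hn⟩ := CompVAux.exists_nat_pow h
  clear h
  subst hn
  induction n with
  | zero => exact Perm.SameCycle.refl _ _
  | succ n ih =>
    rw [pow_succ', Perm.mul_apply]
    exact ih.trans (PartD_step c g i _)

theorem iota_a (i : (ESum.core c).I) {t : (fmap (g i)).T}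
    (h : ∀ b, t ≠ Sum.inl (Sum.inr b)) :
    iota c g i ((fmap (g i)).a t) = (bigM c g).a (iota c g i t) := by
  rcases t with (d | b) | ⟨d | b, e⟩
  · rfl
  · exact absurd rfl (h b)
  · rfl
  · exact nomatch e

theorem PartD_dist (i : (ESum.core c).I) : ∀ (n : ℕ) (t : (fmap (g i)).T),
    (∃ b, (fmap (g i)).dd (Sum.inl (Sum.inr b)) t ≤ n) →
    ∃ b, (bigM c g).dd (phM c g (Sum.inl (i, b))) (iota c g i t) ≤ n := by
  have hP : (fmap (g i)).IsMap := (fmap_ok (g i)).toIsMap
  have hM : (bigM c g).IsMap := (big_ok c g).toIsMap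
  have h0 : ∀ (b : Bool) (t : (fmap (g i)).T),
      (fmap (g i)).s.SameCycle (Sum.inl (Sum.inr b)) t →
      (bigM c g).dd (phM c g (Sum.inl (i, b))) (iota c g i t) = 0 := by
    intro b t h
    exact dd_sc (iota_sc c g i h)
  intro n
  induction n with
  | zero =>
    rintro t ⟨b, hb⟩
    exact ⟨b, (h0 b t (dd_eq_zero hP (Nat.le_zero.1 hb))).le⟩
  | succ n ih =>
    rintro t ⟨b, hb⟩
    by_cases hn : (fmap (g i)).dd (Sum.inl (Sum.inr b)) t ≤ n
    · obtain ⟨b', hb'⟩ := ih t ⟨b, hn⟩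
      exact ⟨b', hb'.trans (Nat.le_succ n)⟩
    · have hn' : (fmap (g i)).dd (Sum.inl (Sum.inr b)) t = n + 1 := by omega
      obtain ⟨u, hu, hun⟩ := dd_pred hP hn'
      by_cases hr : ∃ b', u = Sum.inl (Sum.inr b')
      · obtain ⟨b', rfl⟩ := hr
        exact ⟨b', (h0 b' t hu.symm).le.trans (Nat.zero_le _)⟩
      · have h1 := iota_a c g i (t := u) (fun b' hb' => hr ⟨b', hb'⟩)
        obtain ⟨b', hb'⟩ := ih _ ⟨b, hun.le⟩
        refine ⟨b', ?_⟩
        rw [h1] at hb'
        have h2 := dd_a hM (iota c g i u)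
        rw [dd_comm] at h2
        have h3 := dd_triangle hM (phM c g (Sum.inl (i, b'))) ((bigM c g).a (iota c g i u))
          (iota c g i u)
        have h4 := dd_congr (Perm.SameCycle.refl (bigM c g).s (phM c g (Sum.inl (i, b'))))
          (iota_sc c g i hu)
        rw [h4]
        omega

theorem part_dist (i : (ESum.core c).I) (t : (fmap (g i)).T) :
    ∃ b, (bigM c g).dd (phM c g (Sum.inl (i, b))) (iota c g i t) ≤ fec (g i) := by
  refine PartD_dist c g i _ t ⟨true, ?_⟩
  exact dd_le_ecc (M := fmap (g i)) (Sum.inl (Sum.inr true)) t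

theorem big_cover (z : (bigM c g).T) :
    (∃ i t, z = iota c g i t) ∨ ∃ b, z = phM c g (Sum.inr b) := by
  rcases z with (⟨i, d⟩ | b) | ⟨⟨i, d⟩ | b, e⟩
  · exact Or.inl ⟨i, Sum.inl (Sum.inl d), rfl⟩
  · exact Or.inr ⟨b, rfl⟩
  · exact Or.inl ⟨i, Sum.inr ⟨Sum.inl d, e⟩, rfl⟩
  · exact nomatch e

theorem big_ecc {H B : ℕ} (hH : ∀ i, fec (g i) ≤ H)
    (hB : ∀ t t', (bigM c g).dd (phM c g t) (phM c g t') ≤ B) (t : (ESum.core c).toB.T) :
    (bigM c g).ecc ((bigM c g).vx (phM c g t)) ≤ B + H := by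
  have hM : (bigM c g).IsMap := (big_ok c g).toIsMap
  refine ecc_le fun z => ?_
  rcases big_cover c g z with ⟨i, u, rfl⟩ | ⟨b, rfl⟩
  · obtain ⟨b, hb⟩ := part_dist c g i u
    have h1 := hB t (Sum.inl (i, b))
    have h2 := hH i
    have h3 := dd_triangle hM (phM c g t) (phM c g (Sum.inl (i, b))) (iota c g i u)
    omega
  · exact (hB t (Sum.inr b)).trans (Nat.le_add_right _ _)

end

end Dia
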