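import Pool.Agent.DiaC.BigInj
import Pool.Agent.DiaC.PartD
import Pool.Agent.Dia.Main1
import Pool.Agent.PGr.CutIso

/-!
# Module BigSum: sums over composites are bounded by sums over maps with a marked vertex

`iso_sum`: the sum over the vertices of a function of the eccentricity is invariant under isomorphism
(`ecc_iso`, bijection of the vertices).

`big_sum`: the class of `bigM c g` determines `(c, g)` (`big_inj`), so the sum over all `(c, g)`, `c` rigid, of a
function of the class is at most the sum over all classes `m` (`ENNReal.tsum_comp_le_tsum_of_injective`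
or `tsum_le_tsum_comp`-type lemma).  For each `(c, g)`: the map `v ↦` vertex of `phM` of a dart of `v`
is injective (`phM_sc`), so the sum over the vertices of the core is at most the sum over the
vertices of `bigM c g`, which is the sum for the representative of the class (`iso_sum`).  Weights:
`x^2 y * x^(nV c - 2) ∏ fwt = x^(nV big) y^(E big)` (`big_nV`, `big_E`).
`map_tree_sum` (module `Dia.Main1`) rewrites the sum over maps as a sum over trees.

`fmap_sum`: the same for the filled nets, with the root vertex only (one of the vertices).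
-/

set_option linter.unusedSectionVars false

namespace Dia
open Equiv Finset PGr
open scoped ENNReal Classical

/-- a dart of a vertex of the core -/
noncomputable def cdart (c : GC) (v : (bR (ESum.core c).toB).V) : (ESum.core c).toB.T :=
  Quotient.out v

/-- sum over the trees with marked statistics -/
noncomputable def treeS (x y : ℝ≥0∞) (Ψ : ℕ → ℕ → ℝ≥0∞) : ℝ≥0∞ :=
  ∑' t : LT, if t = LT.nil then 0 else x ^ (1 + t.nup false) * y ^ t.size * Ψ t.size t.rng

/-- the vertices of isomorphic maps -/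
theorem BigSum_iso {M N : RM} (hM : M.IsMap) (hN : N.IsMap) (e : M.T ≃ N.T)
    (ha : ∀ t, e (M.a t) = N.a (e t)) (hs : ∀ t, e (M.s t) = N.s (e t)) (f : ℕ → ℝ≥0∞) :
    ∑ v : N.V, f (N.ecc v) = ∑ v : M.V, f (M.ecc v) := by
  let E : M.V ≃ N.V := Quotient.congr e (fun t t' => by
    have h := PtSum_vx e hs (t := t) (t' := t')
    rw [vx_eq, vx_eq] at h
    exact h.symm)
  rw [← Equiv.sum_comp E (fun v => f (N.ecc v))]
  refine Finset.sum_congr rfl fun v _ => ?_
  induction v using Quotient.inductionOn with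
  | _ t =>
    have h1 := ecc_iso hM hN e ha hs t
    exact congrArg f h1

/-- the summand of a class -/
noncomputable def BigSum_H (x y : ℝ≥0∞) (Ψ : ℕ → ℕ → ℝ≥0∞) (m : RMC) : ℝ≥0∞ :=
  ∑ v : m.out.1.V, x ^ nV m.out.1.s * y ^ m.out.1.E * Ψ m.out.1.E (m.out.1.ecc v)

theorem BigSum_tree (x y : ℝ≥0∞) (Ψ : ℕ → ℕ → ℝ≥0∞) :
    ∑' m : RMC, BigSum_H x y Ψ m = treeS x y Ψ :=
  map_tree_sum (fun n k e => x ^ k * y ^ n * Ψ n e)

theorem BigSum_mk (x y : ℝ≥0∞) (Ψ : ℕ → ℕ → ℝ≥0∞) {M : RM} (hM : M.Ok) :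
    BigSum_H x y Ψ (Quotient.mk rmSetoid ⟨M, hM⟩) =
      x ^ nV M.s * y ^ M.E * ∑ v : M.V, Ψ M.E (M.ecc v) := by
  set m : RMC := Quotient.mk rmSetoid ⟨M, hM⟩ with hm
  have h : RMIso m.out.1 M :=
    (show rmSetoid.r m.out ⟨M, hM⟩ from Quotient.exact (Quotient.out_eq m))
  obtain ⟨e, ha, hs, hr⟩ := h
  have h1 : nV m.out.1.s = nV M.s := nV_iso e hs
  have h2 : m.out.1.E = M.E := by
    unfold RM.E
    rw [Fintype.card_congr e]
  unfold BigSum_H
  rw [h1, h2, ← Finset.mul_sum, BigSum_iso m.out.2.toIsMap hM.toIsMap e ha hs (Ψ M.E)]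

theorem big_sum (x y : ℝ≥0∞) (Ψ : ℕ → ℕ → ℝ≥0∞) :
    x ^ 2 * y * ∑' c : GC, (if Rigid c.rep.1 then ∑' g : (ESum.core c).I → FN,
      x ^ (nV c.rep.1.s - 2) * (∏ i, fwt x y (g i)) *
        ∑ v : (bR (ESum.core c).toB).V, Ψ (1 + ∑ i, fsz (g i))
          ((bigM c g).ecc ((bigM c g).vx (phM c g (cdart c v)))) else 0) ≤ treeS x y Ψ := by
  let P := Σ c : GC, ((ESum.core c).I → FN)
  let G : {p : P // Rigid p.1.rep.1} → RMC := fun p =>
    Quotient.mk rmSetoid ⟨bigM p.1.1 p.1.2, big_ok p.1.1 p.1.2⟩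
  have hG : Function.Injective G := by
    rintro ⟨⟨c, g⟩, hR⟩ ⟨⟨c', g'⟩, hR'⟩ h
    have h1 : RMIso (bigM c g) (bigM c' g') := Quotient.exact h
    exact Subtype.ext (big_inj hR hR' h1)
  rw [← BigSum_tree]
  refine le_trans ?_ (ENNReal.tsum_comp_le_tsum_of_injective hG (BigSum_H x y Ψ))
  have hterm : ∀ p : P, x ^ 2 * y * (x ^ (nV p.1.rep.1.s - 2) * (∏ i, fwt x y (p.2 i)) *
        ∑ v : (bR (ESum.core p.1).toB).V, Ψ (1 + ∑ i, fsz (p.2 i))
          ((bigM p.1 p.2).ecc ((bigM p.1 p.2).vx (phM p.1 p.2 (cdart p.1 v))))) ≤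
      BigSum_H x y Ψ (Quotient.mk rmSetoid ⟨bigM p.1 p.2, big_ok p.1 p.2⟩) := by
    rintro ⟨c, g⟩
    rw [BigSum_mk, big_nV, big_E]
    have h1 : x ^ ((nV c.rep.1.s - 2) + ∑ i, fnv (g i) + 2) * y ^ (1 + ∑ i, fsz (g i)) =
        x ^ 2 * y * (x ^ (nV c.rep.1.s - 2) * (∏ i, fwt x y (g i))) := by
      unfold fwt
      rw [Finset.prod_mul_distrib, Finset.prod_pow_eq_pow_sum, Finset.prod_pow_eq_pow_sum]
      ring
    rw [h1, ← mul_assoc]
    refine mul_le_mul_right ?_ _
    have hinj : Function.Injective (fun v : (bR (ESum.core c).toB).V =>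
        (bigM c g).vx (phM c g (cdart c v))) := by
      intro v v' h
      have h2 := (phM_sc c g _ _).1 (vx_eq.1 h)
      rw [← Quotient.out_eq v, ← Quotient.out_eq v']
      exact Quotient.sound h2
    have h3 := Finset.sum_map univ ⟨_, hinj⟩
      (fun u => Ψ (1 + ∑ i, fsz (g i)) ((bigM c g).ecc u))
    refine le_trans (le_of_eq h3.symm) ?_
    exact Finset.sum_le_sum_of_subset (Finset.subset_univ _)
  have h2 : x ^ 2 * y * ∑' c : GC, (if Rigid c.rep.1 then ∑' g : (ESum.core c).I → FN,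
      x ^ (nV c.rep.1.s - 2) * (∏ i, fwt x y (g i)) *
        ∑ v : (bR (ESum.core c).toB).V, Ψ (1 + ∑ i, fsz (g i))
          ((bigM c g).ecc ((bigM c g).vx (phM c g (cdart c v)))) else 0) =
      ∑' p : P, if Rigid p.1.rep.1 then x ^ 2 * y * (x ^ (nV p.1.rep.1.s - 2) *
        (∏ i, fwt x y (p.2 i)) *
        ∑ v : (bR (ESum.core p.1).toB).V, Ψ (1 + ∑ i, fsz (p.2 i))
          ((bigM p.1 p.2).ecc ((bigM p.1 p.2).vx (phM p.1 p.2 (cdart p.1 v))))) else 0 := by
    rw [ENNReal.tsum_sigma', ← ENNReal.tsum_mul_left]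
    refine tsum_congr fun c => ?_
    by_cases hc : Rigid c.rep.1
    · simp only [if_pos hc]
      rw [ENNReal.tsum_mul_left]
    · simp only [if_neg hc]
      simp
  rw [h2]
  have h3 := _root_.tsum_subtype {p : P | Rigid p.1.rep.1} (fun p => x ^ 2 * y *
    (x ^ (nV p.1.rep.1.s - 2) * (∏ i, fwt x y (p.2 i)) *
        ∑ v : (bR (ESum.core p.1).toB).V, Ψ (1 + ∑ i, fsz (p.2 i))
          ((bigM p.1 p.2).ecc ((bigM p.1 p.2).vx (phM p.1 p.2 (cdart p.1 v))))))
  refine le_trans (le_of_eq ?_) (le_trans (le_of_eq h3.symm) ?_)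
  · refine tsum_congr fun p => ?_
    by_cases hp : Rigid p.1.rep.1
    · rw [if_pos hp, Set.indicator_of_mem (show p ∈ {p : P | Rigid p.1.rep.1} from hp)]
    · rw [if_neg hp, Set.indicator_of_notMem (show p ∉ {p : P | Rigid p.1.rep.1} from hp)]
  · exact ENNReal.tsum_le_tsum fun p => hterm p.1

theorem fmap_sum (x y : ℝ≥0∞) (Ψ : ℕ → ℕ → ℝ≥0∞) :
    x ^ 2 * y * ∑' F : FN, fwt x y F * Ψ (1 + fsz F) (fec F) ≤ treeS x y Ψ := by
  let G : FN → RMC := fun F => Quotient.mk rmSetoid ⟨fmap F, fmap_ok F⟩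
  have hG : Function.Injective G := fun F F' h => fmap_inj (Quotient.exact h)
  rw [← BigSum_tree, ← ENNReal.tsum_mul_left]
  refine le_trans (ENNReal.tsum_le_tsum fun F => ?_)
    (ENNReal.tsum_comp_le_tsum_of_injective hG (BigSum_H x y Ψ))
  show _ ≤ BigSum_H x y Ψ (Quotient.mk rmSetoid ⟨fmap F, fmap_ok F⟩)
  rw [BigSum_mk, fmap_nV, fmap_E]
  have h1 : x ^ 2 * y * (fwt x y F * Ψ (1 + fsz F) (fec F)) =
      x ^ (fnv F + 2) * y ^ (1 + fsz F) * Ψ (1 + fsz F) (fec F) := by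
    unfold fwt
    ring
  rw [h1]
  refine mul_le_mul_right ?_ _
  exact Finset.single_le_sum (f := fun v => Ψ (1 + fsz F) ((fmap F).ecc v)) (fun _ _ => zero_le)
    (mem_univ ((fmap F).vx (fmap F).r))

end Dia
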