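import Pool.Agent.Dia.LMDefs
import Pool.Agent.PGr.SumDefs

/-!
# Insertion of rooted maps in the corners of a rooted map: definitions

The corner `c` of a map lies between the dart `c` and the dart `s c`.
-/

set_option linter.unusedSectionVars false

namespace Dia
open Equiv Finset PGr
open scoped ENNReal

/-- a map to be inserted in a corner: nothing (`r = none`), or a rooted map -/
structure CM where
  D : Type
  [fD : Fintype D]
  [dD : DecidableEq D]
  a : Perm D
  s : Perm D
  r : Option D

attribute [instance] CM.fD CM.dD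

/-- nothing -/
def CM.nil : CM := { D := Empty, a := 1, s := 1, r := none }

/-- a rooted map, to be inserted in a corner -/
def RM.cm (M : RM) : CM := { D := M.T, a := M.a, s := M.s, r := some M.r }

/-- nothing, or a connected map -/
structure CM.IsC (X : CM) : Prop where
  inv : ∀ d, X.a (X.a d) = d
  fpf : ∀ d, X.a d ≠ d
  conn : Conn X.a X.s
  root : X.r = none → IsEmpty X.D

/-- nothing, or a connected planar map -/
structure CM.Ok (X : CM) : Prop extends X.IsC where
  pl : Pl X.a X.s

/-- isomorphism -/
def CMIso (X Y : CM) : Prop :=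
  ∃ e : X.D ≃ Y.D, (∀ t, e (X.a t) = Y.a (e t)) ∧ (∀ t, e (X.s t) = Y.s (e t)) ∧
    X.r.map e = Y.r

theorem CMIso.refl (X : CM) : CMIso X X :=
  ⟨Equiv.refl _, fun _ => rfl, fun _ => rfl, by simp⟩

theorem CMIso.symm {X Y : CM} (h : CMIso X Y) : CMIso Y X := by
  obtain ⟨e, h1, h2, h3⟩ := h
  refine ⟨e.symm, fun t => ?_, fun t => ?_, ?_⟩
  · rw [Equiv.symm_apply_eq, h1, Equiv.apply_symm_apply]
  · rw [Equiv.symm_apply_eq, h2, Equiv.apply_symm_apply]
  · rw [← h3, Option.map_map]
    simp

theorem CMIso.trans {X Y Z : CM} (h : CMIso X Y) (h' : CMIso Y Z) : CMIso X Z := by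
  obtain ⟨e, h1, h2, h3⟩ := h
  obtain ⟨e', h1', h2', h3'⟩ := h'
  refine ⟨e.trans e', fun t => by simp [h1, h1'], fun t => by simp [h2, h2'], ?_⟩
  rw [← h3', ← h3, Option.map_map]
  rfl

/-- the inserted map of an optional class -/
noncomputable def ocm : Option RMC → CM
  | none => CM.nil
  | some m => m.out.1.cm

section ins
variable (C : RM) (X : C.T → CM)

/-- the rotation of the map with insertions, as a function -/
def insFun : C.T ⊕ (Σ c, (X c).D) → C.T ⊕ (Σ c, (X c).D)
  | Sum.inl c =>
    match (X c).r with
    | some d => Sum.inr ⟨c, d⟩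
    | none => Sum.inl (C.s c)
  | Sum.inr ⟨c, d⟩ =>
    if (X c).r = some ((X c).s d) then Sum.inl (C.s c) else Sum.inr ⟨c, (X c).s d⟩

theorem insFun_inl_some {c : C.T} {d : (X c).D} (h : (X c).r = some d) :
    insFun C X (Sum.inl c) = Sum.inr ⟨c, d⟩ := by
  simp only [insFun, h]

theorem insFun_inl_none {c : C.T} (h : (X c).r = none) :
    insFun C X (Sum.inl c) = Sum.inl (C.s c) := by
  simp only [insFun, h]

theorem insFun_inr_eq {c : C.T} {d : (X c).D} (h : (X c).r = some ((X c).s d)) :
    insFun C X (Sum.inr ⟨c, d⟩) = Sum.inl (C.s c) := by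
  simp only [insFun, if_pos h]

theorem insFun_inr_ne {c : C.T} {d : (X c).D} (h : (X c).r ≠ some ((X c).s d)) :
    insFun C X (Sum.inr ⟨c, d⟩) = Sum.inr ⟨c, (X c).s d⟩ := by
  simp only [insFun, if_neg h]

theorem insFun_inj : Function.Injective (insFun C X) := by
  rintro (c | ⟨c, d⟩) (c' | ⟨c', d'⟩) h
  · rcases hr : (X c).r with _ | r <;> rcases hr' : (X c').r with _ | r'
    · rw [insFun_inl_none C X hr, insFun_inl_none C X hr'] at h
      rw [C.s.injective (Sum.inl.inj h)]
    · rw [insFun_inl_none C X hr, insFun_inl_some C X hr'] at h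
      cases h
    · rw [insFun_inl_some C X hr, insFun_inl_none C X hr'] at h
      cases h
    · rw [insFun_inl_some C X hr, insFun_inl_some C X hr'] at h
      simp only [Sum.inr.injEq, Sigma.mk.inj_iff] at h
      rw [h.1]
  · by_cases hd : (X c').r = some ((X c').s d')
    · rw [insFun_inr_eq C X hd] at h
      rcases hr : (X c).r with _ | r
      · rw [insFun_inl_none C X hr] at h
        have h1 := C.s.injective (Sum.inl.inj h)
        subst h1
        rw [hr] at hd
        cases hd
      · rw [insFun_inl_some C X hr] at h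
        cases h
    · rw [insFun_inr_ne C X hd] at h
      rcases hr : (X c).r with _ | r
      · rw [insFun_inl_none C X hr] at h
        cases h
      · rw [insFun_inl_some C X hr] at h
        simp only [Sum.inr.injEq, Sigma.mk.inj_iff] at h
        obtain ⟨rfl, h⟩ := h
        rw [hr, eq_of_heq h] at hd
        exact absurd rfl hd
  · by_cases hd : (X c).r = some ((X c).s d)
    · rw [insFun_inr_eq C X hd] at h
      rcases hr : (X c').r with _ | r
      · rw [insFun_inl_none C X hr] at h
        have h1 := C.s.injective (Sum.inl.inj h)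
        subst h1
        rw [hr] at hd
        cases hd
      · rw [insFun_inl_some C X hr] at h
        cases h
    · rw [insFun_inr_ne C X hd] at h
      rcases hr : (X c').r with _ | r
      · rw [insFun_inl_none C X hr] at h
        cases h
      · rw [insFun_inl_some C X hr] at h
        simp only [Sum.inr.injEq, Sigma.mk.inj_iff] at h
        obtain ⟨rfl, h⟩ := h
        rw [hr, eq_of_heq h] at hd
        exact absurd rfl hd
  · by_cases hd : (X c).r = some ((X c).s d) <;> by_cases hd' : (X c').r = some ((X c').s d')
    · rw [insFun_inr_eq C X hd, insFun_inr_eq C X hd'] at h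
      have h1 := C.s.injective (Sum.inl.inj h)
      subst h1
      rw [hd] at hd'
      rw [(X c).s.injective (Option.some.inj hd')]
    · rw [insFun_inr_eq C X hd, insFun_inr_ne C X hd'] at h
      cases h
    · rw [insFun_inr_ne C X hd, insFun_inr_eq C X hd'] at h
      cases h
    · rw [insFun_inr_ne C X hd, insFun_inr_ne C X hd'] at h
      simp only [Sum.inr.injEq, Sigma.mk.inj_iff] at h
      obtain ⟨rfl, h⟩ := h
      rw [(X c).s.injective (eq_of_heq h)]

/-- the map `C` with `X c` inserted in the corner `c` (between `c` and `s c`), for every `c` -/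
noncomputable def ins : RM where
  T := C.T ⊕ (Σ c, (X c).D)
  a := Perm.sumCongr C.a (Equiv.sigmaCongrRight fun c => (X c).a)
  s := Equiv.ofBijective (insFun C X) (Finite.injective_iff_bijective.mp (insFun_inj C X))
  r := Sum.inl C.r

/-- darts of `C` in the map with insertions -/
def il (c : C.T) : (ins C X).T := Sum.inl c

variable {C} in
/-- inserted darts -/
def ir (c : C.T) (d : (X c).D) : (ins C X).T := Sum.inr ⟨c, d⟩

theorem il_inj {c c' : C.T} (h : il C X c = il C X c') : c = c' := Sum.inl.inj h

theorem ir_inj {c : C.T} {d d' : (X c).D} (h : ir X c d = ir X c d') : d = d' :=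
  eq_of_heq (Sigma.mk.inj_iff.1 (Sum.inr.inj h)).2

theorem ir_inj1 {c c' : C.T} {d : (X c).D} {d' : (X c').D} (h : ir X c d = ir X c' d') :
    c = c' := (Sigma.mk.inj_iff.1 (Sum.inr.inj h)).1

theorem il_ne_ir {c c' : C.T} {d : (X c').D} : il C X c ≠ ir X c' d := by
  intro h; cases h

theorem ins_cases (t : (ins C X).T) : (∃ c, t = il C X c) ∨ ∃ c d, t = ir X c d := by
  rcases t with c | ⟨c, d⟩
  · exact Or.inl ⟨c, rfl⟩
  · exact Or.inr ⟨c, d, rfl⟩

@[simp] theorem ins_a_il (c : C.T) : (ins C X).a (il C X c) = il C X (C.a c) := rfl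
@[simp] theorem ins_a_ir (c : C.T) (d : (X c).D) :
    (ins C X).a (ir X c d) = ir X c ((X c).a d) := rfl

theorem ins_s_il_some {c : C.T} {d : (X c).D} (h : (X c).r = some d) :
    (ins C X).s (il C X c) = ir X c d := insFun_inl_some C X h

theorem ins_s_il_none {c : C.T} (h : (X c).r = none) :
    (ins C X).s (il C X c) = il C X (C.s c) := insFun_inl_none C X h

theorem ins_s_ir_eq {c : C.T} {d : (X c).D} (h : (X c).r = some ((X c).s d)) :
    (ins C X).s (ir X c d) = il C X (C.s c) := insFun_inr_eq C X h

theorem ins_s_ir_ne {c : C.T} {d : (X c).D} (h : (X c).r ≠ some ((X c).s d)) :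
    (ins C X).s (ir X c d) = ir X c ((X c).s d) := insFun_inr_ne C X h

@[simp] theorem ins_r : (ins C X).r = il C X C.r := rfl

end ins

/-- number of vertices of an inserted map, without its root vertex -/
noncomputable def CM.nv (X : CM) : ℕ := nV X.s - 1

/-- number of edges -/
def CM.ne (X : CM) : ℕ := Fintype.card X.D / 2

/-! ### The core -/

/-- a hanging part: a set of edges without the root, attached at one corner -/
structure RM.Hg (M : RM) (A : Finset M.T) : Prop where
  cl : Cl M.a A
  root : M.r ∉ A
  cut2 : cut M.s A = 2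

/-- the darts in hanging parts -/
noncomputable def RM.hang (M : RM) : Finset M.T := by
  classical exact univ.filter fun t => ∃ A, M.Hg A ∧ t ∈ A

/-- the darts of the core -/
noncomputable def RM.core (M : RM) : Finset M.T := M.hangᶜ

/-- union of the hanging parts which contain `t` -/
noncomputable def RM.mx (M : RM) (t : M.T) : Finset M.T := by
  classical exact univ.filter fun u => ∃ A, M.Hg A ∧ t ∈ A ∧ u ∈ A

/-- rooted nonseparable planar maps (at least one edge) -/
structure RM.RNS (M : RM) : Prop where
  inv : ∀ t, M.a (M.a t) = t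
  fpf : ∀ t, M.a t ≠ t
  ns : NS M.a M.s
  pl : Pl M.a M.s

/-- a rooted map with explicit root edge, as a rooted map -/
def bR (M : BMap) : RM := { T := M.T, a := M.aa, s := M.s, r := Sum.inr true }

/-- the loop -/
def loopR : RM := { T := Bool, a := Equiv.boolNot, s := Equiv.boolNot, r := true }

/-- the link -/
def linkR : RM := { T := Bool, a := Equiv.boolNot, s := 1, r := true }

/-- the rooted nonseparable maps up to isomorphism -/
inductive KC where
  | loop : KC
  | link : KC
  | good : GC → KC

noncomputable def KC.map : KC → RM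
  | .loop => loopR
  | .link => linkR
  | .good c => bR c.rep.1

/-- generating function of the rooted planar maps: `x` per vertex different from the root
vertex, `y` per edge -/
noncomputable def Ag (x y : ℝ≥0∞) : ℝ≥0∞ :=
  1 + ∑' m : RMC, x ^ (nV m.out.1.s - 1) * y ^ m.out.1.E

end Dia
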