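import Pool.Agent.DiaC.SWin
import Pool.Agent.DiaC.TreeZ

/-!
# Module CoreIneq: from trees to rigid maps

`core_ineq`: `big_sum` for `Ψ`: for `c` rigid with `P c` the sum over the families `g` and the vertices of the core of
`∏ fwt * Ψ` is at least `ZG (Eg c)` times the number of vertices of the core, which is
`Fintype.card (bR core).V = nV (core).s = nV c.rep.1.s` (`RM.Ok.nV_le` for `bR _` (`bR_rns`, `RNS.ok`), `core_iso` and the
invariance of `nV` under `BIso`).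

`tau_ineq`: the case where `ZG (Eg c) ≥ κ D^(gE c)` and `gE c ≥ n`: `nV ≥ gE c / 3 ≥ n / 3` (`core_nV`).

`window_sizes`: if `n ≤ j ≤ n + n^(2/3)` and `|S - mu j| ≤ A j^(2/3)`, `j ≤ S`, then `N = 1 + S` satisfies `n ≤ N` and
`|N - mu n| ≤ 1 + mu n^(2/3) + A (2n)^(2/3) ≤ (1 + mu + 2A) n^(2/3)`; the number of such `N` is at most
`2 (1 + mu + 2A) n^(2/3) + 1`, and `N ≤ b n`.  (`j ≤ 2n`.)
-/

set_option linter.unusedSectionVars false

namespace Dia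
open Equiv Finset PGr
open scoped ENNReal Classical

theorem core_card_V (c : GC) :
    Fintype.card (bR (ESum.core c).toB).V = nV c.rep.1.s := by
  have h1 : (bR (ESum.core c).toB).Ok := (bR_rns (ESum.core_good c)).ok
  have h2 := h1.nV_le.2.2.2.2
  rw [h2]
  exact BIso.nV_eq (ESum.core_iso c)

theorem core_ineq (x y : ℝ≥0∞) (P : GC → Prop) (Eg : ∀ c : GC, ((ESum.core c).I → FN) → Prop)
    (Ψ : ℕ → ℕ → ℝ≥0∞)
    (hΨ : ∀ c, Rigid c.rep.1 → P c → ∀ g, Eg c g → ∀ t,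
      1 ≤ Ψ (1 + ∑ i, fsz (g i)) ((bigM c g).ecc ((bigM c g).vx (phM c g t)))) :
    x ^ 2 * y * ∑' c : GC, (if Rigid c.rep.1 ∧ P c then
      x ^ (nV c.rep.1.s - 2) * (ZG x y (Eg c) * (nV c.rep.1.s : ℝ≥0∞)) else 0) ≤ treeS x y Ψ := by
  refine le_trans ?_ (big_sum x y Ψ)
  refine mul_le_mul_right (ENNReal.tsum_le_tsum fun c => ?_) _
  by_cases h : Rigid c.rep.1 ∧ P c
  · rw [if_pos h, if_pos h.1, ZG, ← ENNReal.tsum_mul_right, ← ENNReal.tsum_mul_left]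
    refine ENNReal.tsum_le_tsum fun g => ?_
    by_cases hg : Eg c g
    · rw [if_pos hg, ← mul_assoc]
      refine mul_le_mul_right ?_ _
      rw [← core_card_V c]
      have h3 : ((Fintype.card (bR (ESum.core c).toB).V : ℕ) : ℝ≥0∞) =
          ∑ v : (bR (ESum.core c).toB).V, 1 := by
        rw [Finset.sum_const, Finset.card_univ, nsmul_eq_mul, mul_one]
      rw [h3]
      exact Finset.sum_le_sum fun v _ => hΨ c h.1 h.2 g hg (cdart c v)
    · rw [if_neg hg, zero_mul, mul_zero]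
      exact bot_le
  · rw [if_neg h]
    exact bot_le

theorem tau_ineq {x : ℝ} (h0 : 0 < x) (h1 : x ≤ 1 / 10) {κ : ℝ} (hκ : 0 < κ) {n : ℕ} (hn : 1 ≤ n)
    (P : GC → Prop) (Eg : ∀ c : GC, ((ESum.core c).I → FN) → Prop) (Ψ : ℕ → ℕ → ℝ≥0∞)
    (hP : ∀ c, Rigid c.rep.1 → P c → n ≤ gE c ∧ ENNReal.ofReal (κ * ecr (vc x) ^ gE c) ≤
      ZG (ENNReal.ofReal x) (ENNReal.ofReal (yc x)) (Eg c))
    (hΨ : ∀ c, Rigid c.rep.1 → P c → ∀ g, Eg c g → ∀ t,
      1 ≤ Ψ (1 + ∑ i, fsz (g i)) ((bigM c g).ecc ((bigM c g).vx (phM c g t)))) :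
    ENNReal.ofReal (x ^ 2 * yc x * κ * n / 3) * tauS x P ≤
      treeS (ENNReal.ofReal x) (ENNReal.ofReal (yc x)) Ψ := by
  have hx1 : x < 1 := by linarith
  have hy := yc_pos' h0 hx1
  have hD := ecr_vc_pos h0 hx1
  refine le_trans ?_ (core_ineq (ENNReal.ofReal x) (ENNReal.ofReal (yc x)) P Eg Ψ hΨ)
  rw [tauS]
  have e1 : ENNReal.ofReal (x ^ 2 * yc x * κ * n / 3) =
      ENNReal.ofReal x ^ 2 * ENNReal.ofReal (yc x) * ENNReal.ofReal (κ * (n / 3)) := by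
    rw [← ENNReal.ofReal_pow h0.le, ← ENNReal.ofReal_mul (by positivity),
      ← ENNReal.ofReal_mul (by positivity)]
    congr 1
    ring
  rw [e1, mul_assoc]
  refine mul_le_mul_right ?_ _
  rw [← ENNReal.tsum_mul_left]
  refine ENNReal.tsum_le_tsum fun c => ?_
  by_cases h : Rigid c.rep.1 ∧ P c
  · rw [if_pos h, if_pos h]
    obtain ⟨h2, h3⟩ := hP c h.1 h.2
    have h4 : (n : ℝ) / 3 ≤ nV c.rep.1.s := by
      have h5 := (core_nV c h.1).1
      have h6 : n ≤ 3 * nV c.rep.1.s := h2.trans h5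
      have h7 : (n : ℝ) ≤ 3 * nV c.rep.1.s := by exact_mod_cast h6
      linarith
    have e2 : ENNReal.ofReal (κ * (n / 3)) *
        ENNReal.ofReal (x ^ (nV c.rep.1.s - 2) * ecr (vc x) ^ gE c) =
        ENNReal.ofReal x ^ (nV c.rep.1.s - 2) *
          (ENNReal.ofReal (κ * ecr (vc x) ^ gE c) * ENNReal.ofReal (n / 3)) := by
      rw [← ENNReal.ofReal_pow h0.le, ← ENNReal.ofReal_mul (by positivity),
        ← ENNReal.ofReal_mul (by positivity), ← ENNReal.ofReal_mul (by positivity)]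
      congr 1
      ring
    rw [e2]
    refine mul_le_mul_right (mul_le_mul' h3 ?_) _
    rw [← ENNReal.ofReal_natCast]
    exact ENNReal.ofReal_le_ofReal h4
  · rw [if_neg h, if_neg h, mul_zero]

/-- the sizes which can occur -/
theorem window_sizes {mu A : ℝ} (hmu : 1 ≤ mu) (hA : 0 < A) : ∃ b : ℝ, 1 ≤ b ∧ ∀ n : ℕ, 1 ≤ n →
    ∃ W : Finset ℕ, (∀ N ∈ W, n ≤ N ∧ (N : ℝ) ≤ b * n) ∧
      (W.card : ℝ) ≤ b * (n : ℝ) ^ (2 / 3 : ℝ) ∧
      ∀ j S : ℕ, n ≤ j → (j : ℝ) ≤ n + (n : ℝ) ^ (2 / 3 : ℝ) → j ≤ S →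
        |(S : ℝ) - mu * j| ≤ A * (j : ℝ) ^ (2 / 3 : ℝ) → 1 + S ∈ W := by
  refine ⟨mu + 2 * (1 + mu + 2 * A) + 1, by linarith, fun n hn => ?_⟩
  have hn' : (1 : ℝ) ≤ n := by exact_mod_cast hn
  set m : ℝ := (n : ℝ) ^ (2 / 3 : ℝ) with hm
  have hm1 : 1 ≤ m := Real.one_le_rpow hn' (by norm_num)
  have hmn : m ≤ n := by
    have := Real.rpow_le_rpow_of_exponent_le hn' (show (2 / 3 : ℝ) ≤ 1 by norm_num)
    rwa [Real.rpow_one] at this
  set B : ℝ := 1 + mu + 2 * A with hB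
  have hB0 : 0 < B := by linarith
  have hp : 0 ≤ mu * n + B * m := by positivity
  refine ⟨(Finset.Icc ⌈mu * n - B * m⌉₊ ⌊mu * n + B * m⌋₊).filter fun N => n ≤ N, ?_, ?_, ?_⟩
  · intro N hN
    rw [mem_filter, mem_Icc] at hN
    refine ⟨hN.2, ?_⟩
    have h1 : (N : ℝ) ≤ mu * n + B * m := (Nat.le_floor_iff hp).1 hN.1.2
    nlinarith
  · have h1 : (((Finset.Icc ⌈mu * n - B * m⌉₊ ⌊mu * n + B * m⌋₊).filter fun N => n ≤ N).card : ℝ) ≤
        (⌊mu * n + B * m⌋₊ + 1 - ⌈mu * n - B * m⌉₊ : ℕ) := by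
      have := card_filter_le (Finset.Icc ⌈mu * n - B * m⌉₊ ⌊mu * n + B * m⌋₊) fun N => n ≤ N
      rw [Nat.card_Icc] at this
      exact_mod_cast this
    refine h1.trans ?_
    have h2 : (⌊mu * n + B * m⌋₊ : ℝ) ≤ mu * n + B * m := Nat.floor_le hp
    have h3 : mu * n - B * m ≤ (⌈mu * n - B * m⌉₊ : ℝ) := Nat.le_ceil _
    rcases Nat.lt_or_ge (⌊mu * n + B * m⌋₊ + 1) ⌈mu * n - B * m⌉₊ with h | h
    · rw [Nat.sub_eq_zero_of_le h.le, Nat.cast_zero]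
      positivity
    · rw [Nat.cast_sub h]
      push_cast
      nlinarith
  · intro j S hj1 hj2 hS1 hS2
    have hj1' : (n : ℝ) ≤ j := by exact_mod_cast hj1
    have hj3 : (j : ℝ) ≤ 2 * n := by linarith
    have h4 : (j : ℝ) ^ (2 / 3 : ℝ) ≤ 2 * m := by
      calc (j : ℝ) ^ (2 / 3 : ℝ) ≤ (2 * n : ℝ) ^ (2 / 3 : ℝ) :=
            Real.rpow_le_rpow (by positivity) hj3 (by norm_num)
        _ = 2 ^ (2 / 3 : ℝ) * m := Real.mul_rpow (by norm_num) (by positivity)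
        _ ≤ 2 * m := by
            have := Real.rpow_le_rpow_of_exponent_le (show (1 : ℝ) ≤ 2 by norm_num)
              (show (2 / 3 : ℝ) ≤ 1 by norm_num)
            rw [Real.rpow_one] at this
            gcongr
    have h5 := abs_le.1 hS2
    have h6 : A * (j : ℝ) ^ (2 / 3 : ℝ) ≤ 2 * A * m := by nlinarith
    have h7 : mu * j ≤ mu * n + mu * m := by nlinarith
    have h8 : mu * n ≤ mu * j := by nlinarith
    rw [mem_filter, mem_Icc]
    refine ⟨⟨?_, ?_⟩, by omega⟩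
    · rw [Nat.ceil_le]
      push_cast
      nlinarith
    · rw [Nat.le_floor_iff hp]
      push_cast
      nlinarith

end Dia
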