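import Pool.Agent.DiaC.CoreNS
import Pool.Agent.DiaC.InsA
import Pool.Agent.Dia.EulerM

/-!
# Module CoreIns: the core of a map with insertions; uniqueness

`C` nonseparable: every nonempty set of edges of `C` different from `univ` has `cut ≥ 4`.

`hang_il`: let `A` be hanging in `ins C X`, `il c ∈ A`.  Then `trc A` is a nonempty set of edges of `C` without the
root, so `4 ≤ cut C.s (trc A) ≤ cut A = 2` (`cut_trace`), contradiction.
`hang_ir`: `irS c` is hanging (`cl_irS`, `cut_irS`; `r = some _` because there is a dart, by `IsC.root`).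
`mx_ir`: `irS c ⊆ mx (ir c d)`.  Let `A` be hanging, `ir c d ∈ A`, `ir c' d' ∈ A`, `c' ≠ c`.  By `RM.Hg.union`
`A' = A ∪ irS c ∪ irS c'` is hanging; it does not contain `il c`, `il c'` (`hang_il`), but
`s (il c) ∈ irS c`, `s (il c') ∈ irS c'`: two entering darts (`enter_unique`), contradiction.

`ins_iso_inv`: let `e : ins C X ≃ ins C' X'` be an isomorphism.  It maps the core to the core (`hang_map`), so
there is `e0 : C.T ≃ C'.T` with `e (il c) = il (e0 c)`; it commutes with `a`, with `s` (`ret_il`: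
`C.s` is the return map of the core: the first dart of the core among `s (il c)`, `s (s (il c))`, ..; powers are
preserved by `e`), and preserves the root.  `e` maps `irS c` to `irS (e0 c)`: if `(X c).r = some r`, then
`s (il c) = ir c r` is in `hang`, so `s (il (e0 c)) = e (ir c r)` is in `hang`, hence
`(X' (e0 c)).r = some r'` and `e (ir c r) = ir (e0 c) r'`; by `mx_map` and `mx_ir` the part `irS c = mx (ir c r)` is mapped
onto `mx (ir (e0 c) r') = irS (e0 c)`.  If `(X c).r = none` then `s (il c) = il (C.s c)`, so `(X' (e0 c)).r = none`, and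
both are empty.  The bijection of the darts commutes with `a` and `s` (`ret_ir`).

`ins_iso`: the bijection `Equiv.sumCongr e (Equiv.sigmaCongr e (..))`.
-/

set_option linter.unusedSectionVars false

namespace Dia
open Equiv Finset PGr

variable {C C' : RM} {X : C.T → CM} {X' : C'.T → CM}

theorem RM.RNS.isMap {M : RM} (h : M.RNS) : M.IsMap := by
  refine ⟨h.inv, h.fpf, ?_⟩
  intro A ha hs hne
  by_contra hu
  have hcl : Cl M.a A := by
    intro t
    refine ⟨fun h1 => ?_, ha t⟩
    have := ha _ h1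
    rwa [h.inv] at this
  have h4 := h.ns A hcl hne hu
  have h2 := cut_eq_two_mul M.s A
  have h0 : (univ.filter fun t => t ∈ A ∧ M.s t ∉ A) = ∅ := by
    rw [Finset.filter_eq_empty_iff]
    rintro t - ⟨h1, h3⟩
    exact h3 (hs t h1)
  rw [h0, card_empty] at h2
  omega

theorem RM.RNS.ok {M : RM} (h : M.RNS) : M.Ok :=
  { h.isMap with eu := (pl_iff_eu M h.isMap).1 h.pl }

theorem hang_il (hC : C.RNS) (hX : ∀ c, (X c).IsC) (c : C.T) : il C X c ∉ (ins C X).hang := by
  intro h
  obtain ⟨A, hA, hc⟩ := RM.mem_hang.1 h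
  have h1 : trc C X A ≠ univ := by
    intro h0
    have h2 : C.r ∈ trc C X A := by rw [h0]; exact mem_univ _
    exact hA.root (by rw [ins_r]; exact mem_trc.1 h2)
  have h4 := hC.ns (trc C X A) (cl_trc hA.cl) ⟨c, mem_trc.2 hc⟩ h1
  have h5 := cut_trace hX A
  have h6 := hA.cut2
  omega

private theorem CoreIns_some (hX : ∀ c, (X c).IsC) (c : C.T) (d : (X c).D) :
    ∃ r, (X c).r = some r := by
  rcases hr : (X c).r with _ | r
  · exact ((hX c).root hr).elim d
  · exact ⟨r, rfl⟩

private theorem CoreIns_hg (hX : ∀ c, (X c).IsC) (c : C.T) (d : (X c).D) :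
    (ins C X).Hg (irS C X c) := by
  obtain ⟨r, hr⟩ := CoreIns_some hX c d
  refine ⟨cl_irS c, ?_, cut_irS hr⟩
  rw [ins_r]
  intro h
  obtain ⟨d', h'⟩ := mem_irS_iff.1 h
  exact il_ne_ir _ _ h'

theorem hang_ir (hX : ∀ c, (X c).IsC) (c : C.T) (d : (X c).D) :
    ir X c d ∈ (ins C X).hang :=
  RM.mem_hang.2 ⟨_, CoreIns_hg hX c d, mem_irS C X c d⟩

theorem mx_ir (hC : C.RNS) (hX : ∀ c, (X c).IsC) (c : C.T) (d : (X c).D) :
    (ins C X).mx (ir X c d) = irS C X c := by
  apply Finset.Subset.antisymm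
  · intro u hu
    obtain ⟨A, hA, hd, huA⟩ := RM.mem_mx.1 hu
    rcases ins_cases C X u with ⟨c', rfl⟩ | ⟨c', d', rfl⟩
    · exact absurd (RM.mem_hang.2 ⟨A, hA, huA⟩) (hang_il hC hX c')
    · by_cases hcc : c' = c
      · subst hcc
        exact mem_irS C X c' d'
      · exfalso
        have hM : (ins C X).IsMap := ins_isMap hC.isMap hX
        have h1 := hA.union hM (CoreIns_hg hX c d) ⟨ir X c d, mem_inter.2 ⟨hd, mem_irS C X c d⟩⟩
        have h2 := h1.union hM (CoreIns_hg hX c' d')
          ⟨ir X c' d', mem_inter.2 ⟨mem_union_left _ huA, mem_irS C X c' d'⟩⟩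
        obtain ⟨r, hr⟩ := CoreIns_some hX c d
        obtain ⟨r', hr'⟩ := CoreIns_some hX c' d'
        have h3 : ∀ c0, il C X c0 ∉ A ∪ irS C X c ∪ irS C X c' := fun c0 h0 =>
          hang_il hC hX c0 (RM.mem_hang.2 ⟨_, h2, h0⟩)
        have h4 : (ins C X).s (il C X c) ∈ A ∪ irS C X c ∪ irS C X c' := by
          rw [ins_s_il_some C X hr]
          exact mem_union_left _ (mem_union_right _ (mem_irS C X c r))
        have h5 : (ins C X).s (il C X c') ∈ A ∪ irS C X c ∪ irS C X c' := by
          rw [ins_s_il_some C X hr']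
          exact mem_union_right _ (mem_irS C X c' r')
        exact hcc (il_inj C X (h2.enter_unique (h3 c') h5 (h3 c) h4))
  · intro u hu
    exact RM.mem_mx.2 ⟨_, CoreIns_hg hX c d, mem_irS C X c d, hu⟩

section inv
variable (e : (ins C X).T ≃ (ins C' X').T)

private theorem CoreIns_il (hC : C.RNS) (hX : ∀ c, (X c).IsC)
    (hX' : ∀ c, (X' c).IsC)
    (ha : ∀ t, e ((ins C X).a t) = (ins C' X').a (e t))
    (hs : ∀ t, e ((ins C X).s t) = (ins C' X').s (e t))
    (hr : e (ins C X).r = (ins C' X').r) (c : C.T) :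
    ∃ c', e (il C X c) = il C' X' c' := by
  rcases ins_cases C' X' (e (il C X c)) with ⟨c', h⟩ | ⟨c', d', h⟩
  · exact ⟨c', h⟩
  · exfalso
    have h1 := hang_ir hX' c' d'
    rw [← h, hang_map e ha hs hr] at h1
    exact hang_il hC hX c h1

private theorem CoreIns_A
    (hC' : C'.RNS) (hX : ∀ c, (X c).IsC) (hX' : ∀ c, (X' c).IsC)
    (ha : ∀ t, e ((ins C X).a t) = (ins C' X').a (e t))
    (hs : ∀ t, e ((ins C X).s t) = (ins C' X').s (e t))
    (hr : e (ins C X).r = (ins C' X').r) {c : C.T} {c' : C'.T}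
    (hcc : e (il C X c) = il C' X' c') {r : (X c).D} (hrr : (X c).r = some r) :
    ∃ r', (X' c').r = some r' ∧ e (ir X c r) = ir X' c' r' := by
  have h1 : e (ir X c r) = (ins C' X').s (il C' X' c') := by
    rw [← ins_s_il_some C X hrr, hs, hcc]
  rcases hr' : (X' c').r with _ | r'
  · exfalso
    rw [ins_s_il_none C' X' hr'] at h1
    have h2 := hang_ir hX c r
    rw [← hang_map e ha hs hr, h1] at h2
    exact hang_il hC' hX' _ h2
  · refine ⟨r', rfl, ?_⟩
    rw [h1, ins_s_il_some C' X' hr']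

private theorem CoreIns_B (hC : C.RNS)
    (hC' : C'.RNS) (hX : ∀ c, (X c).IsC) (hX' : ∀ c, (X' c).IsC)
    (ha : ∀ t, e ((ins C X).a t) = (ins C' X').a (e t))
    (hs : ∀ t, e ((ins C X).s t) = (ins C' X').s (e t))
    (hr : e (ins C X).r = (ins C' X').r) {c : C.T} {c' : C'.T}
    (hcc : e (il C X c) = il C' X' c') (d : (X c).D) :
    ∃ d', e (ir X c d) = ir X' c' d' := by
  obtain ⟨r, hrr⟩ := CoreIns_some hX c d
  obtain ⟨r', hr', h1⟩ := CoreIns_A e hC' hX hX' ha hs hr hcc hrr
  have h2 : ir X c d ∈ (ins C X).mx (ir X c r) := by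
    rw [mx_ir hC hX]; exact mem_irS C X c d
  rw [← mx_map e ha hs hr, h1, mx_ir hC' hX'] at h2
  exact mem_irS_iff.1 h2

private theorem CoreIns_symm_a
    (ha : ∀ t, e ((ins C X).a t) = (ins C' X').a (e t)) :
    ∀ t, e.symm ((ins C' X').a t) = (ins C X).a (e.symm t) := by
  intro t
  rw [Equiv.symm_apply_eq, ha, Equiv.apply_symm_apply]

private theorem CoreIns_symm_s
    (hs : ∀ t, e ((ins C X).s t) = (ins C' X').s (e t)) :
    ∀ t, e.symm ((ins C' X').s t) = (ins C X).s (e.symm t) := by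
  intro t
  rw [Equiv.symm_apply_eq, hs, Equiv.apply_symm_apply]

private theorem CoreIns_C (hC : C.RNS)
    (hC' : C'.RNS) (hX : ∀ c, (X c).IsC) (hX' : ∀ c, (X' c).IsC)
    (ha : ∀ t, e ((ins C X).a t) = (ins C' X').a (e t))
    (hs : ∀ t, e ((ins C X).s t) = (ins C' X').s (e t))
    (hr : e (ins C X).r = (ins C' X').r) {c : C.T} {c' : C'.T}
    (hcc : e (il C X c) = il C' X' c') : CMIso (X c) (X' c') := by
  have hB := CoreIns_B e hC hC' hX hX' ha hs hr hcc
  choose g hg using hB
  have hcc' : e.symm (il C' X' c') = il C X c := by rw [Equiv.symm_apply_eq, hcc]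
  have hrs : e.symm (ins C' X').r = (ins C X).r := by rw [Equiv.symm_apply_eq, hr]
  have hB' := CoreIns_B e.symm hC' hC hX' hX (CoreIns_symm_a e ha) (CoreIns_symm_s e hs) hrs hcc'
  have hinj : Function.Injective g := by
    intro d1 d2 h
    have h1 : e (ir X c d1) = e (ir X c d2) := by rw [hg, hg, h]
    exact ir_inj C X (e.injective h1)
  have hsurj : Function.Surjective g := by
    intro d'
    obtain ⟨d, hd⟩ := hB' d'
    refine ⟨d, ?_⟩
    rw [Equiv.symm_apply_eq, hg] at hd
    exact (ir_inj C' X' hd).symm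
  have hroot : ∀ r, (X c).r = some r → (X' c').r = some (g r) := by
    intro r hrr
    obtain ⟨r', h1, h2⟩ := CoreIns_A e hC' hX hX' ha hs hr hcc hrr
    rw [hg] at h2
    rw [h1, ir_inj C' X' h2]
  refine ⟨Equiv.ofBijective g ⟨hinj, hsurj⟩, ?_, ?_, ?_⟩
  · intro d
    change g ((X c).a d) = (X' c').a (g d)
    apply ir_inj C' X'
    rw [← hg, ← ins_a_ir, ← ins_a_ir, ha, hg]
  · intro d
    change g ((X c).s d) = (X' c').s (g d)
    obtain ⟨r, hrr⟩ := CoreIns_some hX c d
    have h1 := hroot r hrr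
    by_cases hd : (X c).s d = r
    · have h2 : (X c).r = some ((X c).s d) := by rw [hd]; exact hrr
      have h3 : (ins C' X').s (ir X' c' (g d)) = e (il C X (C.s c)) := by
        rw [← hg, ← hs, ins_s_ir_eq C X h2]
      by_cases h4 : (X' c').r = some ((X' c').s (g d))
      · rw [hd]
        rw [h1] at h4
        exact Option.some.inj h4
      · exfalso
        rw [ins_s_ir_ne C' X' h4] at h3
        obtain ⟨c0, hc0⟩ := CoreIns_il e hC hX hX' ha hs hr (C.s c)
        rw [hc0] at h3
        exact il_ne_ir _ _ h3.symm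
    · have h2 : (X c).r ≠ some ((X c).s d) := by
        rw [hrr]
        exact fun h => hd (Option.some.inj h).symm
      have h3 : (ins C' X').s (ir X' c' (g d)) = ir X' c' (g ((X c).s d)) := by
        rw [← hg, ← hs, ins_s_ir_ne C X h2, hg]
      by_cases h4 : (X' c').r = some ((X' c').s (g d))
      · exfalso
        rw [ins_s_ir_eq C' X' h4] at h3
        exact il_ne_ir _ _ h3
      · rw [ins_s_ir_ne C' X' h4] at h3
        exact (ir_inj C' X' h3).symm
  · change Option.map g (X c).r = (X' c').r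
    rcases hrr : (X c).r with _ | r
    · rcases hr' : (X' c').r with _ | r'
      · rfl
      · exfalso
        obtain ⟨d, -⟩ := hB' r'
        exact ((hX c).root hrr).elim d
    · rw [hroot r hrr]
      rfl

end inv

theorem ins_iso_inv (hC : C.RNS) (hX : ∀ c, (X c).IsC) (hC' : C'.RNS)
    (hX' : ∀ c, (X' c).IsC) (h : RMIso (ins C X) (ins C' X')) :
    ∃ e : C.T ≃ C'.T, (∀ t, e (C.a t) = C'.a (e t)) ∧ (∀ t, e (C.s t) = C'.s (e t)) ∧
      e C.r = C'.r ∧ ∀ c, CMIso (X c) (X' (e c)) := by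
  obtain ⟨e, ha, hs, hr⟩ := h
  have hrs : e.symm (ins C' X').r = (ins C X).r := by rw [Equiv.symm_apply_eq, hr]
  have h1 := CoreIns_il e hC hX hX' ha hs hr
  choose f hf using h1
  have h2 := CoreIns_il e.symm hC' hX' hX (CoreIns_symm_a e ha) (CoreIns_symm_s e hs) hrs
  have hinj : Function.Injective f := by
    intro c1 c2 h
    have h3 : e (il C X c1) = e (il C X c2) := by rw [hf, hf, h]
    exact il_inj C X (e.injective h3)
  have hsurj : Function.Surjective f := by
    intro c'
    obtain ⟨c, hc⟩ := h2 c'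
    refine ⟨c, ?_⟩
    rw [Equiv.symm_apply_eq, hf] at hc
    exact (il_inj C' X' hc).symm
  refine ⟨Equiv.ofBijective f ⟨hinj, hsurj⟩, ?_, ?_, ?_, ?_⟩
  · intro t
    change f (C.a t) = C'.a (f t)
    apply il_inj C' X'
    rw [← hf, ← ins_a_il, ← ins_a_il, ha, hf]
  · intro t
    change f (C.s t) = C'.s (f t)
    apply il_inj C' X'
    obtain ⟨k, hk, hk1, hk2⟩ := ins_run (C := C) (X := X) hX t
    obtain ⟨k', hk', hk1', hk2'⟩ := ins_run (C := C') (X := X') hX' (f t)
    have hpow : ∀ (i : ℕ) (u : (ins C X).T), e (((ins C X).s ^ i) u) = ((ins C' X').s ^ i) (e u) := by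
      intro i
      induction i with
      | zero => intro u; rfl
      | succ i ih =>
        intro u
        rw [pow_succ', pow_succ', Perm.mul_apply, Perm.mul_apply, hs, ih]
    have e1 : ((ins C' X').s ^ k) (il C' X' (f t)) = il C' X' (f (C.s t)) := by
      rw [← hf t, ← hpow, hk1, hf]
    rcases lt_trichotomy k k' with hlt | heq | hgt
    · exfalso
      have h3 := hk2' k hk hlt
      rw [e1] at h3
      obtain ⟨d, hd⟩ := mem_irS_iff.1 h3
      exact il_ne_ir _ _ hd
    · subst heq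
      rw [← e1, hk1']
    · exfalso
      have h3 := hk2 k' hk' hgt
      obtain ⟨d, hd⟩ := mem_irS_iff.1 h3
      have h4 : e (ir X t d) = il C' X' (C'.s (f t)) := by
        rw [← hd, hpow, hf, hk1']
      have h5 := hang_ir hX t d
      rw [← hang_map e ha hs hr, h4] at h5
      exact hang_il hC' hX' _ h5
  · change f C.r = C'.r
    apply il_inj C' X'
    rw [← hf, ← ins_r, hr, ins_r]
  · intro c
    exact CoreIns_C e hC hC' hX hX' ha hs hr (hf c)

theorem ins_iso (e : C.T ≃ C'.T) (ha : ∀ t, e (C.a t) = C'.a (e t))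
    (hs : ∀ t, e (C.s t) = C'.s (e t)) (hr : e C.r = C'.r)
    (hX : ∀ c, CMIso (X c) (X' (e c))) : RMIso (ins C X) (ins C' X') := by
  choose g hga hgs hgr using hX
  let F : (ins C X).T ≃ (ins C' X').T :=
    Equiv.sumCongr e (Equiv.sigmaCongr e g)
  have hl : ∀ c, F (il C X c) = il C' X' (e c) := fun _ => rfl
  have hir : ∀ c d, F (ir X c d) = ir X' (e c) (g c d) := fun _ _ => rfl
  refine ⟨F, ?_, ?_, ?_⟩
  · intro t
    rcases ins_cases C X t with ⟨c, rfl⟩ | ⟨c, d, rfl⟩
    · rw [ins_a_il, hl, hl, ins_a_il, ha]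
    · rw [ins_a_ir, hir, hir, ins_a_ir, hga]
  · intro t
    rcases ins_cases C X t with ⟨c, rfl⟩ | ⟨c, d, rfl⟩
    · rcases hrr : (X c).r with _ | r
      · have h1 : (X' (e c)).r = none := by rw [← hgr c, hrr]; rfl
        rw [ins_s_il_none C X hrr, hl, hl, ins_s_il_none C' X' h1, hs]
      · have h1 : (X' (e c)).r = some (g c r) := by rw [← hgr c, hrr]; rfl
        rw [ins_s_il_some C X hrr, hl, hir, ins_s_il_some C' X' h1]
    · by_cases h1 : (X c).r = some ((X c).s d)
      · have h2 : (X' (e c)).r = some ((X' (e c)).s (g c d)) := by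
          rw [← hgr c, h1, ← hgs]; rfl
        rw [ins_s_ir_eq C X h1, hl, hir, ins_s_ir_eq C' X' h2, hs]
      · have h2 : (X' (e c)).r ≠ some ((X' (e c)).s (g c d)) := by
          rw [← hgr c, ← hgs]
          intro h3
          obtain ⟨r, hrr, h4⟩ := Option.map_eq_some_iff.1 h3
          exact h1 (by rw [hrr, (g c).injective h4])
        rw [ins_s_ir_ne C X h1, hir, hir, ins_s_ir_ne C' X' h2, hgs]
  · rw [ins_r, hl, hr, ins_r]

end Dia
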