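import Pool.Agent.DiaC.InsRet
import Pool.Agent.PGr.Cut

/-!
# Module InsCut: cuts of the map with insertions

`bd s A` = the darts `t` such that exactly one of `t`, `s t` is in `A`; `cut s A` its number of elements.

`lft B` = `il c` for `c ∈ B` and all `ir c d` with `c ∈ B`.

`cut_lft`: for every `c` the only dart among `il c`, `ir c d` which can be in `bd (lft B)` is `il c` if
`(X c).r = none`, and `ir c ((X c).s⁻¹ r)` if `(X c).r = some r`; its image under `s` is `il (C.s c)`, so it is in
`bd (lft B)` iff `c ∈ bd C.s B`.  So there is a bijection `bd C.s B → bd (lft B)`.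

`cut_irS`: the boundary darts of `irS c` are `il c` and `ir c ((X c).s⁻¹ r)`.

`cut_trace`: let `A0 = {c | il c ∈ A}`.  For `c ∈ bd C.s A0` the run of `ins_run` from `il c` to
`il (C.s c)` starts and ends on different sides of `A`, so it contains a dart
`u ∈ bd A` with `u = il c` or `u ∈ irS c`.  Choose it; it determines `c`.  So `card (bd A0) ≤ card (bd A)`.
-/

set_option linter.unusedSectionVars false

namespace Dia
open Equiv Finset PGr

section
variable (C : RM) (X : C.T → CM)

/-- a set of darts of `C` with everything inserted at its corners -/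
noncomputable def lft (B : Finset C.T) : Finset (ins C X).T := by
  classical exact univ.filter fun t => (∃ c ∈ B, t = il C X c) ∨ ∃ c ∈ B, ∃ d, t = ir X c d

/-- the darts of `C` in a set -/
noncomputable def trc (A : Finset (ins C X).T) : Finset C.T := univ.filter fun c => il C X c ∈ A

end

variable {C : RM} {X : C.T → CM}

theorem il_mem_lft {B : Finset C.T} {c : C.T} : il C X c ∈ lft C X B ↔ c ∈ B := by
  simp only [lft, mem_filter, mem_univ, true_and]
  constructor
  · rintro (⟨c', h, e⟩ | ⟨c', _, d, e⟩)
    · rw [il_inj C X e]; exact h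
    · exact absurd e (il_ne_ir C X)
  · intro h
    exact Or.inl ⟨c, h, rfl⟩

theorem ir_mem_lft {B : Finset C.T} {c : C.T} {d : (X c).D} : ir X c d ∈ lft C X B ↔ c ∈ B := by
  simp only [lft, mem_filter, mem_univ, true_and]
  constructor
  · rintro (⟨c', _, e⟩ | ⟨c', h, d', e⟩)
    · exact absurd e.symm (il_ne_ir C X)
    · rw [ir_inj1 (C := C) X e]; exact h
  · intro h
    exact Or.inr ⟨c, h, d, rfl⟩

theorem mem_trc {A : Finset (ins C X).T} {c : C.T} : c ∈ trc C X A ↔ il C X c ∈ A := by
  simp [trc]

theorem cl_lft {B : Finset C.T} (hB : Cl C.a B) : Cl (ins C X).a (lft C X B) := by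
  intro t
  rcases ins_cases C X t with ⟨c, rfl⟩ | ⟨c, d, rfl⟩
  · rw [ins_a_il, il_mem_lft, il_mem_lft]
    exact hB c
  · rw [ins_a_ir, ir_mem_lft, ir_mem_lft]

theorem cl_trc {A : Finset (ins C X).T} (hA : Cl (ins C X).a A) : Cl C.a (trc C X A) := by
  intro c
  rw [mem_trc, mem_trc, ← ins_a_il]
  exact hA _

/-- the last dart before `il (C.s c)` -/
private noncomputable def InsCut_last (C : RM) (X : C.T → CM) (c : C.T) : (ins C X).T :=
  (ins C X).s.symm (il C X (C.s c))

private theorem InsCut_last_none {c : C.T} (h : (X c).r = none) :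
    InsCut_last C X c = il C X c := by
  rw [InsCut_last, Equiv.symm_apply_eq, ins_s_il_none C X h]

private theorem InsCut_last_some {c : C.T} {r : (X c).D} (h : (X c).r = some r) :
    InsCut_last C X c = ir X c ((X c).s.symm r) := by
  rw [InsCut_last, Equiv.symm_apply_eq, ins_s_ir_eq C X]
  rw [h, Equiv.apply_symm_apply]

private theorem InsCut_last_inj : Function.Injective (InsCut_last C X) := by
  intro c c' h
  exact C.s.injective (il_inj C X ((ins C X).s.symm.injective h))

private theorem InsCut_last_mem {B : Finset C.T} {c : C.T} :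
    InsCut_last C X c ∈ lft C X B ↔ c ∈ B := by
  rcases h : (X c).r with _ | r
  · rw [InsCut_last_none h, il_mem_lft]
  · rw [InsCut_last_some h, ir_mem_lft]

theorem cut_lft (B : Finset C.T) : cut (ins C X).s (lft C X B) = cut C.s B := by
  classical
  rw [cut, cut, ← card_image_of_injective (bd C.s B) (InsCut_last_inj (C := C) (X := X))]
  congr 1
  ext t
  rw [mem_bd, mem_image]
  constructor
  · intro h
    rcases ins_cases C X t with ⟨c, rfl⟩ | ⟨c, d, rfl⟩
    · rcases hr : (X c).r with _ | r
      · refine ⟨c, ?_, InsCut_last_none hr⟩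
        rw [ins_s_il_none C X hr, il_mem_lft, il_mem_lft] at h
        rwa [mem_bd]
      · rw [ins_s_il_some C X hr, il_mem_lft, ir_mem_lft] at h
        exact absurd Iff.rfl h
    · by_cases hr : (X c).r = some ((X c).s d)
      · refine ⟨c, ?_, ?_⟩
        · rw [ins_s_ir_eq C X hr, il_mem_lft, ir_mem_lft] at h
          rwa [mem_bd]
        · rw [InsCut_last_some hr, Equiv.symm_apply_apply]
      · rw [ins_s_ir_ne C X hr, ir_mem_lft, ir_mem_lft] at h
        exact absurd Iff.rfl h
  · rintro ⟨c, hc, rfl⟩
    rw [mem_bd] at hc
    rw [InsCut_last_mem, InsCut_last, Equiv.apply_symm_apply, il_mem_lft]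
    exact hc

theorem cut_irS {c : C.T} {r : (X c).D} (hr : (X c).r = some r) :
    cut (ins C X).s (irS C X c) = 2 := by
  classical
  have hm : ∀ c' (d : (X c').D), ir X c' d ∈ irS C X c ↔ c' = c := by
    intro c' d
    constructor
    · intro h
      obtain ⟨d', e⟩ := mem_irS_iff.1 h
      exact ir_inj1 (C := C) X e
    · rintro rfl
      exact mem_irS C X c' d
  have hl : ∀ c', il C X c' ∉ irS C X c := by
    intro c' h
    obtain ⟨d', e⟩ := mem_irS_iff.1 h
    exact il_ne_ir C X e
  have hb : bd (ins C X).s (irS C X c) = {il C X c, ir X c ((X c).s.symm r)} := by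
    ext t
    rw [mem_bd, mem_insert, mem_singleton]
    rcases ins_cases C X t with ⟨c', rfl⟩ | ⟨c', d, rfl⟩
    · rcases hr' : (X c').r with _ | r'
      · rw [ins_s_il_none C X hr']
        have h1 : c' ≠ c := by
          rintro rfl
          rw [hr] at hr'
          cases hr'
        constructor
        · intro h
          exact absurd (iff_of_false (hl _) (hl _)) h
        · rintro (h | h)
          · exact absurd (il_inj C X h) h1
          · exact absurd h (il_ne_ir C X)
      · rw [ins_s_il_some C X hr', hm]
        constructor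
        · intro h
          left
          have h1 : c' = c := by
            by_contra h2
            exact h (iff_of_false (hl _) h2)
          rw [h1]
        · rintro (h | h)
          · intro h2
            exact hl _ (h2.2 (il_inj C X h))
          · exact absurd h (il_ne_ir C X)
    · by_cases hr' : (X c').r = some ((X c').s d)
      · rw [ins_s_ir_eq C X hr', hm]
        constructor
        · intro h
          right
          have h1 : c' = c := by
            by_contra h2
            exact h (iff_of_false h2 (hl _))
          subst h1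
          rw [hr] at hr'
          rw [Option.some.inj hr', Equiv.symm_apply_apply]
        · rintro (h | h)
          · exact absurd h.symm (il_ne_ir C X)
          · intro h2
            exact hl _ (h2.1 (ir_inj1 (C := C) X h))
      · rw [ins_s_ir_ne C X hr', hm, hm]
        constructor
        · intro h
          exact absurd Iff.rfl h
        · rintro (h | h)
          · exact absurd h.symm (il_ne_ir C X)
          · exfalso
            have h1 := ir_inj1 (C := C) X h
            subst h1
            have h2 := ir_inj (C := C) X h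
            rw [h2, Equiv.apply_symm_apply] at hr'
            exact hr' hr
  rw [cut, hb, card_pair]
  exact il_ne_ir C X

/-- the corner of a dart -/
private def InsCut_cor (C : RM) (X : C.T → CM) : (ins C X).T → C.T
  | Sum.inl c => c
  | Sum.inr p => p.1

theorem cut_trace (hX : ∀ c, (X c).IsC) (A : Finset (ins C X).T) :
    cut C.s (trc C X A) ≤ cut (ins C X).s A := by
  classical
  rw [cut, cut]
  refine (card_le_card (t := (bd (ins C X).s A).image (InsCut_cor C X)) ?_).trans card_image_le
  intro c hc
  rw [mem_bd, mem_trc, mem_trc] at hc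
  obtain ⟨k, hk, h1, h2⟩ := ins_run hX c
  have h3 : ∃ i, i < k ∧ ¬ (((ins C X).s ^ i) (il C X c) ∈ A ↔
      ((ins C X).s ^ (i + 1)) (il C X c) ∈ A) := by
    by_contra h3
    push Not at h3
    have h4 : ∀ i, i ≤ k → (il C X c ∈ A ↔ ((ins C X).s ^ i) (il C X c) ∈ A) := by
      intro i
      induction i with
      | zero => intro _; simp
      | succ i ih => intro hi; exact (ih (by omega)).trans (h3 i (by omega))
    apply hc
    rw [← h1]
    exact h4 k le_rfl
  obtain ⟨i, hi, h4⟩ := h3
  rw [mem_image]
  refine ⟨((ins C X).s ^ i) (il C X c), ?_, ?_⟩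
  · rw [mem_bd]
    rw [pow_succ'] at h4
    exact h4
  · rcases Nat.eq_zero_or_pos i with h0 | h0
    · subst h0
      rfl
    · obtain ⟨d, hd⟩ := mem_irS_iff.1 (h2 i h0 hi)
      rw [hd]
      rfl

end Dia
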