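import Pool.Agent.DiaC.DecC
import Pool.Agent.DiaC.InsCut

/-!
# Module CoreNS: the core is nonseparable

`hg_map`: hanging parts are mapped to hanging parts by isomorphisms.

`coreM_ns`: let `B` be a set of edges of `coreM`, nonempty, not everything, with `cut < 4`.  The cut is
even (`PGr.cut_eq_two_mul`), so `0` or `2`; replacing `B` by its complement (`PGr.cut_compl`) we may assume that
the root is not in `B`.  Let `e : ins coreM part ≃ M` be `dec_iso` and let `A` be the image of `lft B` under `e`.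
`A` is closed under `a`, does not contain the root, `cut M.s A = cut B` (`cut_lft`, invariance of the
cut under isomorphism).  `cut = 0` contradicts `two_le_cut`.  `cut = 2`: `A` is hanging, so for `c ∈ B` the
dart `e (il c)` is in `M.hang`.  Then, `il c ∈ (ins ..).hang`.  Contradiction: use the explicit form of `e`
on the core: `e (il c) = c.1 ∈ M.core`.  (State and prove the explicit form of the isomorphism here or in
`DecC`: `dec_iso'`.)
-/

set_option linter.unusedSectionVars false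

namespace Dia
open Equiv Finset PGr

variable {M N : RM}

theorem cut_map (e : M.T ≃ N.T) (hs : ∀ t, e (M.s t) = N.s (e t)) (A : Finset M.T) :
    cut N.s (A.map e.toEmbedding) = cut M.s A := by
  unfold cut
  have h : bd N.s (A.map e.toEmbedding) = (bd M.s A).map e.toEmbedding := by
    ext t
    have h1 : e.symm (N.s t) = M.s (e.symm t) := by
      rw [Equiv.symm_apply_eq, hs, Equiv.apply_symm_apply]
    simp only [mem_bd, Finset.mem_map_equiv, h1]
  rw [h, card_map]

private theorem CoreNS_sub (e : M.T ≃ N.T) (ha : ∀ t, e (M.a t) = N.a (e t))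
    {A : Finset M.T} (hA : Cl M.a A) : Cl N.a (A.map e.toEmbedding) := by
  intro t
  have h1 : e.symm (N.a t) = M.a (e.symm t) := by
    rw [Equiv.symm_apply_eq, ha, Equiv.apply_symm_apply]
  simp only [Finset.mem_map_equiv, h1]
  exact hA _

theorem hg_map (e : M.T ≃ N.T) (ha : ∀ t, e (M.a t) = N.a (e t))
    (hs : ∀ t, e (M.s t) = N.s (e t)) (hr : e M.r = N.r) {A : Finset M.T} (hA : M.Hg A) :
    N.Hg (A.map e.toEmbedding) := by
  refine ⟨CoreNS_sub e ha hA.cl, ?_, ?_⟩
  · rw [Finset.mem_map_equiv, ← hr, Equiv.symm_apply_apply]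
    exact hA.root
  · rw [cut_map e hs]
    exact hA.cut2

private theorem CoreNS_inv (e : M.T ≃ N.T) (ha : ∀ t, e (M.a t) = N.a (e t)) :
    ∀ t, e.symm (N.a t) = M.a (e.symm t) := by
  intro t
  rw [Equiv.symm_apply_eq, ha, Equiv.apply_symm_apply]

private theorem CoreNS_invs (e : M.T ≃ N.T) (hs : ∀ t, e (M.s t) = N.s (e t)) :
    ∀ t, e.symm (N.s t) = M.s (e.symm t) := by
  intro t
  rw [Equiv.symm_apply_eq, hs, Equiv.apply_symm_apply]

private theorem CoreNS_invr (e : M.T ≃ N.T) (hr : e M.r = N.r) : e.symm N.r = M.r := by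
  rw [Equiv.symm_apply_eq, hr]

private theorem CoreNS_mx (e : M.T ≃ N.T) (ha : ∀ t, e (M.a t) = N.a (e t))
    (hs : ∀ t, e (M.s t) = N.s (e t)) (hr : e M.r = N.r) (t u : M.T) (h : u ∈ M.mx t) :
    e u ∈ N.mx (e t) := by
  rw [RM.mem_mx] at h ⊢
  obtain ⟨A, hA, ht, hu⟩ := h
  refine ⟨A.map e.toEmbedding, hg_map e ha hs hr hA, ?_, ?_⟩
  · rw [Finset.mem_map_equiv, Equiv.symm_apply_apply]; exact ht
  · rw [Finset.mem_map_equiv, Equiv.symm_apply_apply]; exact hu

theorem hang_map (e : M.T ≃ N.T) (ha : ∀ t, e (M.a t) = N.a (e t))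
    (hs : ∀ t, e (M.s t) = N.s (e t)) (hr : e M.r = N.r) (t : M.T) :
    e t ∈ N.hang ↔ t ∈ M.hang := by
  rw [← RM.mem_mx_self, ← RM.mem_mx_self]
  constructor
  · intro h
    have := CoreNS_mx e.symm (CoreNS_inv e ha) (CoreNS_invs e hs) (CoreNS_invr e hr) _ _ h
    simpa using this
  · intro h
    exact CoreNS_mx e ha hs hr _ _ h

theorem mx_map (e : M.T ≃ N.T) (ha : ∀ t, e (M.a t) = N.a (e t))
    (hs : ∀ t, e (M.s t) = N.s (e t)) (hr : e M.r = N.r) (t u : M.T) :
    e u ∈ N.mx (e t) ↔ u ∈ M.mx t := by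
  constructor
  · intro h
    have := CoreNS_mx e.symm (CoreNS_inv e ha) (CoreNS_invs e hs) (CoreNS_invr e hr) _ _ h
    simpa using this
  · intro h
    exact CoreNS_mx e ha hs hr _ _ h

private theorem CoreNS_root (c : M.coreM.T) (d : (M.part c).D) : M.s c.1 ∈ M.mx (M.s c.1) := by
  have hd : d.1 ∈ M.mx (M.s c.1) := d.2
  rw [RM.mem_mx] at hd
  obtain ⟨A, hA, h1, h2⟩ := hd
  exact RM.mem_mx.2 ⟨A, hA, h1, h1⟩

private def CoreNS_f (M : RM) : (ins M.coreM M.part).T → M.T
  | Sum.inl c => c.1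
  | Sum.inr ⟨_, d⟩ => d.1

private theorem CoreNS_bij (h : M.IsMap) : Function.Bijective (CoreNS_f M) := by
  constructor
  · rintro (c | ⟨c, d⟩) (c' | ⟨c', d'⟩) he
    · exact congrArg Sum.inl (Subtype.ext he)
    · exfalso
      have h1 : c.1 = d'.1 := he
      have h2 : d'.1 ∈ M.hang := RM.mx_sub_hang _ d'.2
      exact RM.mem_core.1 c.2 (h1 ▸ h2)
    · exfalso
      have h1 : d.1 = c'.1 := he
      have h2 : d.1 ∈ M.hang := RM.mx_sub_hang _ d.2
      exact RM.mem_core.1 c'.2 (h1 ▸ h2)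
    · have h1 : d.1 = d'.1 := he
      have hd : M.mx d.1 = M.mx (M.s c.1) := h.mx_eq d.2
      have hd' : M.mx d'.1 = M.mx (M.s c'.1) := h.mx_eq d'.2
      have h2 : M.s c.1 ∈ M.mx d.1 := by rw [hd]; exact CoreNS_root c d
      have h3 : M.s c'.1 ∈ M.mx d.1 := by rw [h1, hd']; exact CoreNS_root c' d'
      have h4 : c = c' := Subtype.ext (h.corner_unique c.2 h2 c'.2 h3)
      subst h4
      have h5 : d = d' := Subtype.ext h1
      rw [h5]
  · intro t
    by_cases ht : t ∈ M.core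
    · exact ⟨Sum.inl ⟨t, ht⟩, rfl⟩
    · have ht' : t ∈ M.hang := by
        by_contra h0
        exact ht (RM.mem_core.2 h0)
      obtain ⟨c, hc, hs⟩ := h.exists_corner ht'
      have h1 : M.mx (M.s c) = M.mx t := h.mx_eq hs
      have h2 : t ∈ M.mx (M.s c) := by rw [h1]; exact RM.mem_mx_self.2 ht'
      exact ⟨Sum.inr ⟨⟨c, hc⟩, ⟨t, h2⟩⟩, rfl⟩

private theorem CoreNS_r_some (c : M.coreM.T) (h : M.s c.1 ∈ M.mx (M.s c.1)) :
    (M.part c).r = some ⟨M.s c.1, h⟩ := by
  unfold RM.part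
  exact dif_pos h

private theorem CoreNS_r_none (c : M.coreM.T) (h : M.s c.1 ∉ M.mx (M.s c.1)) :
    (M.part c).r = none := by
  unfold RM.part
  exact dif_neg h

/-- the explicit isomorphism -/
theorem dec_iso' (h : M.IsMap) : ∃ e : (ins M.coreM M.part).T ≃ M.T,
    (∀ t, e ((ins M.coreM M.part).a t) = M.a (e t)) ∧
    (∀ t, e ((ins M.coreM M.part).s t) = M.s (e t)) ∧
    e (ins M.coreM M.part).r = M.r ∧ (∀ c, e (il M.coreM M.part c) = c.1) ∧
    ∀ c d, e (ir M.part c d) = d.1 := by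
  have hl : ∀ c, CoreNS_f M (il M.coreM M.part c) = c.1 := fun _ => rfl
  have hr : ∀ c d, CoreNS_f M (ir M.part c d) = d.1 := fun _ _ => rfl
  refine ⟨Equiv.ofBijective _ (CoreNS_bij h), ?_, ?_, rfl, hl, hr⟩
  · intro t
    change CoreNS_f M _ = M.a (CoreNS_f M t)
    rcases ins_cases M.coreM M.part t with ⟨c, rfl⟩ | ⟨c, d, rfl⟩
    · rw [ins_a_il, hl, hl]; rfl
    · rw [ins_a_ir, hr, hr]; rfl
  · intro t
    change CoreNS_f M _ = M.s (CoreNS_f M t)
    rcases ins_cases M.coreM M.part t with ⟨c, rfl⟩ | ⟨c, d, rfl⟩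
    · by_cases hm : M.s c.1 ∈ M.mx (M.s c.1)
      · exact congrArg (CoreNS_f M) (ins_s_il_some _ _ (CoreNS_r_some c hm))
      · rw [ins_s_il_none _ _ (CoreNS_r_none c hm), hl, hl]
        have h1 : M.s c.1 ∈ M.core := by
          rw [RM.mem_core, ← RM.mem_mx_self]; exact hm
        exact RM.IsMap.ret_core_in c.2 h1
    · have hm := CoreNS_root c d
      have hh : M.s c.1 ∈ M.hang := RM.mem_mx_self.1 hm
      by_cases hd : M.s d.1 ∈ M.mx (M.s c.1)
      · have h1 : ((M.part c).s d).1 = M.s d.1 := RM.ret_mx_in d.2 hd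
        have h2 : (M.part c).r ≠ some ((M.part c).s d) := by
          rw [CoreNS_r_some c hm]
          intro h3
          have h4 := congrArg Subtype.val (Option.some.inj h3)
          rw [h1] at h4
          have h5 : c.1 = d.1 := M.s.injective h4
          exact RM.mem_core.1 c.2 (h5 ▸ RM.mx_sub_hang _ d.2)
        rw [ins_s_ir_ne _ _ h2, hr, hr, h1]
      · have h1 : ((M.part c).s d).1 = M.s c.1 := h.ret_mx_out c.2 hh d.2 hd
        have h2 : (M.part c).r = some ((M.part c).s d) := by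
          rw [CoreNS_r_some c hm]
          exact congrArg some (Subtype.ext h1.symm)
        rw [ins_s_ir_eq _ _ h2, hl, hr]
        exact h.ret_core_out c.2 hh d.2 hd

private theorem CoreNS_main (h : M.IsMap) (B : Finset M.coreM.T) (hB : Cl M.coreM.a B)
    (hne : B.Nonempty) (hr : M.coreM.r ∉ B) : 4 ≤ cut M.coreM.s B := by
  obtain ⟨e, ha, hs, he, hl, -⟩ := dec_iso' h
  have hA : Cl M.a ((lft M.coreM M.part B).map e.toEmbedding) := CoreNS_sub e ha (cl_lft hB)
  have hcut : cut M.s ((lft M.coreM M.part B).map e.toEmbedding) = cut M.coreM.s B := by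
    rw [cut_map e hs, cut_lft]
  obtain ⟨c, hc⟩ := hne
  have hmem : c.1 ∈ (lft M.coreM M.part B).map e.toEmbedding := by
    rw [Finset.mem_map_equiv, ← hl c, Equiv.symm_apply_apply]
    exact il_mem_lft.2 hc
  have hroot : M.r ∉ (lft M.coreM M.part B).map e.toEmbedding := by
    rw [Finset.mem_map_equiv, ← he, Equiv.symm_apply_apply, ins_r]
    exact fun h0 => hr (il_mem_lft.1 h0)
  have h2 : 2 ≤ cut M.s ((lft M.coreM M.part B).map e.toEmbedding) := by
    refine h.two_le_cut hA ⟨_, hmem⟩ fun h0 => hroot ?_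
    rw [h0]; exact mem_univ _
  have h3 : cut M.s ((lft M.coreM M.part B).map e.toEmbedding) ≠ 2 := by
    intro h0
    have : M.Hg ((lft M.coreM M.part B).map e.toEmbedding) := ⟨hA, hroot, h0⟩
    exact RM.mem_core.1 c.2 (RM.mem_hang.2 ⟨_, this, hmem⟩)
  have h4 := cut_eq_two_mul M.s ((lft M.coreM M.part B).map e.toEmbedding)
  rw [← hcut]
  omega

theorem coreM_ns (h : M.IsMap) : NS M.coreM.a M.coreM.s := by
  intro B hB hne hu
  by_cases hr : M.coreM.r ∈ B
  · rw [← cut_compl]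
    refine CoreNS_main h Bᶜ hB.compl ?_ (by rw [mem_compl, not_not]; exact hr)
    rw [nonempty_iff_ne_empty]
    intro h0
    exact hu (by rw [← compl_compl B, h0, compl_empty])
  · exact CoreNS_main h B hB hne hr

theorem coreM_rns (h : M.IsMap) (hp : Pl M.a M.s) : M.coreM.RNS :=
  ⟨(coreM_isMap h).inv, (coreM_isMap h).fpf, coreM_ns h, coreM_pl h hp⟩

end Dia
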