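import Pool.Agent.DiaC.BigDefs
import Pool.Agent.Dia.PtSum

/-!
# Module DdLib: distances between darts

`M.dd t t'` = distance of the vertices of `t`, `t'` in the vertex graph `M.G`; `M.ecc v` = largest distance to `v`;
`M.dm` = diameter.  See `Dia/DistM.lean` (`G_conn`, `dist_a`, `exists_closer`, `DistM_adj`, `DistM_exists_vx`)
and `Dia/PtSum.lean` (`PtSum_dist`: isomorphisms preserve distances).

`lip`: along a shortest walk from `vx t` to `vx t'` the function changes by at most one per step (`ha` for the dart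
and for its partner `a t`, `a (a t) = t`), and it is constant on vertices.
`dd_pred`: `exists_closer`.  `dm_le`: triangle inequality.
`ecc_iso`, `dm_iso`: suprema over corresponding finite sets (`PtSum_vx`).
-/

set_option linter.unusedSectionVars false

namespace Dia
open Equiv Finset PGr

variable {M N : RM}

theorem vx_eq {t t' : M.T} : M.vx t = M.vx t' ↔ M.s.SameCycle t t' :=
  ⟨fun h => Quotient.exact h, fun h => Quotient.sound h⟩

private theorem DdLib_vx (v : M.V) : ∃ t, M.vx t = v := Quotient.exists_rep v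

theorem dd_self (t : M.T) : M.dd t t = 0 := SimpleGraph.dist_self

theorem dd_comm (t t' : M.T) : M.dd t t' = M.dd t' t := SimpleGraph.dist_comm

theorem dd_triangle (h : M.IsMap) (t t' t'' : M.T) : M.dd t t'' ≤ M.dd t t' + M.dd t' t'' :=
  h.G_conn.dist_triangle

private theorem DdLib_step (h : M.IsMap) (t t' : M.T) : M.dd t (M.a t') ≤ M.dd t t' + 1 :=
  h.dist_a (M.vx t) t'

theorem dd_a (h : M.IsMap) (t : M.T) : M.dd t (M.a t) ≤ 1 := by
  have h1 := DdLib_step h t t
  rwa [dd_self, zero_add] at h1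

theorem dd_sc {t t' : M.T} (h : M.s.SameCycle t t') : M.dd t t' = 0 := by
  unfold RM.dd
  rw [vx_eq.2 h]
  exact SimpleGraph.dist_self

theorem dd_eq_zero (h : M.IsMap) {t t' : M.T} (h0 : M.dd t t' = 0) : M.s.SameCycle t t' :=
  vx_eq.1 (h.G_conn.dist_eq_zero_iff.1 h0)

theorem dd_congr {t t' u u' : M.T} (h : M.s.SameCycle t u) (h' : M.s.SameCycle t' u') :
    M.dd t t' = M.dd u u' := by
  unfold RM.dd
  rw [vx_eq.2 h, vx_eq.2 h']

theorem dd_le_ecc (t t' : M.T) : M.dd t t' ≤ M.ecc (M.vx t) :=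
  Finset.le_sup (f := fun u => M.G.dist (M.vx t) u) (mem_univ (M.vx t'))

theorem exists_ecc (t : M.T) : ∃ t', M.dd t t' = M.ecc (M.vx t) := by
  obtain ⟨u, -, hu⟩ := Finset.exists_mem_eq_sup (univ : Finset M.V) ⟨M.vx t, mem_univ _⟩
    (fun u => M.G.dist (M.vx t) u)
  obtain ⟨t', rfl⟩ := DdLib_vx u
  exact ⟨t', hu.symm⟩

theorem ecc_le {t : M.T} {n : ℕ} (h : ∀ t', M.dd t t' ≤ n) : M.ecc (M.vx t) ≤ n := by
  obtain ⟨t', ht'⟩ := exists_ecc t
  rw [← ht']
  exact h t'

theorem ecc_le_dm (v : M.V) : M.ecc v ≤ M.dm :=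
  Finset.le_sup (f := fun v => M.ecc v) (mem_univ v)

theorem exists_dm (M : RM) : ∃ t t', M.dd t t' = M.dm := by
  obtain ⟨v, -, hv⟩ := Finset.exists_mem_eq_sup (univ : Finset M.V) ⟨M.vx M.r, mem_univ _⟩
    (fun v => M.ecc v)
  obtain ⟨t, rfl⟩ := DdLib_vx v
  obtain ⟨t', ht'⟩ := exists_ecc t
  exact ⟨t, t', ht'.trans hv.symm⟩

theorem dm_le (h : M.IsMap) (v : M.V) : M.dm ≤ 2 * M.ecc v := by
  obtain ⟨t, t', ht⟩ := exists_dm M
  obtain ⟨u, rfl⟩ := DdLib_vx v
  have h1 := dd_triangle h t u t'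
  have h2 := dd_le_ecc u t
  have h3 := dd_le_ecc u t'
  rw [dd_comm] at h2
  omega

private theorem DdLib_pred (h : M.IsMap) {t t' : M.T} {n : ℕ} (hn : M.dd t t' = n + 1) :
    ∃ u, M.s.SameCycle t' u ∧ M.dd t (M.a u) = n := by
  have hne : M.vx t' ≠ M.vx t := by
    intro h1
    have h2 := dd_sc (vx_eq.1 h1.symm)
    omega
  obtain ⟨u, hu, hu'⟩ := h.exists_closer (M.vx t) (M.vx t') hne
  refine ⟨u, (vx_eq.1 hu).symm, ?_⟩
  have h1 : M.dd t (M.a u) + 1 = M.dd t t' := hu'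
  omega

private theorem DdLib_sc (f : M.T → ℤ) (hs : ∀ t, f (M.s t) = f t) {u u' : M.T}
    (huu : M.s.SameCycle u u') : f u = f u' := by
  obtain ⟨i, hi⟩ := huu.exists_nat_pow_eq
  rw [← hi]
  clear hi huu
  induction i with
  | zero => rfl
  | succ i ih => rw [pow_succ', Perm.mul_apply, hs, ih]

theorem lip (h : M.IsMap) (f : M.T → ℤ) (hs : ∀ t, f (M.s t) = f t)
    (ha : ∀ t, f (M.a t) ≤ f t + 1) (t t' : M.T) : f t' ≤ f t + M.dd t t' := by
  obtain ⟨n, hn⟩ : ∃ n, M.dd t t' = n := ⟨_, rfl⟩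
  rw [hn]
  induction n generalizing t' with
  | zero =>
    rw [DdLib_sc f hs (dd_eq_zero h hn)]
    simp
  | succ n ih =>
    obtain ⟨u, hu, hu'⟩ := DdLib_pred h hn
    have h1 := ih _ hu'
    have h2 := ha (M.a u)
    rw [h.inv] at h2
    rw [DdLib_sc f hs hu]
    push_cast
    linarith

theorem dd_pred (h : M.IsMap) {t t' : M.T} {n : ℕ} (hn : M.dd t t' = n + 1) :
    ∃ u, M.s.SameCycle t' u ∧ M.dd t (M.a u) = n := DdLib_pred h hn

private theorem DdLib_s (t u : M.T) : M.dd t (M.s u) = M.dd t u :=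
  dd_congr (Perm.SameCycle.refl _ _) (Perm.sameCycle_apply_left.2 (Perm.SameCycle.refl _ _))

private theorem DdLib_iso_le (hM : M.IsMap) (hN : N.IsMap) (e : M.T ≃ N.T)
    (ha : ∀ t, e (M.a t) = N.a (e t)) (hs : ∀ t, e (M.s t) = N.s (e t)) (t t' : M.T) :
    N.dd (e t) (e t') ≤ M.dd t t' := by
  have h1 := lip hM (fun u => (N.dd (e t) (e u) : ℤ))
    (fun u => by
      show (N.dd (e t) (e (M.s u)) : ℤ) = N.dd (e t) (e u)
      rw [hs, DdLib_s])
    (fun u => by
      show (N.dd (e t) (e (M.a u)) : ℤ) ≤ N.dd (e t) (e u) + 1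
      rw [ha]
      exact_mod_cast DdLib_step hN (e t) (e u)) t t'
  have h2 : (N.dd (e t) (e t') : ℤ) ≤ (N.dd (e t) (e t) : ℤ) + M.dd t t' := h1
  rw [dd_self] at h2
  have h3 : ((0 : ℕ) : ℤ) = 0 := rfl
  omega

theorem dd_iso (hM : M.IsMap) (hN : N.IsMap) (e : M.T ≃ N.T)
    (ha : ∀ t, e (M.a t) = N.a (e t)) (hs : ∀ t, e (M.s t) = N.s (e t)) (t t' : M.T) :
    N.dd (e t) (e t') = M.dd t t' := by
  refine le_antisymm (DdLib_iso_le hM hN e ha hs t t') ?_
  have h1 := DdLib_iso_le hN hM e.symm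
    (fun t => by rw [Equiv.symm_apply_eq, ha, Equiv.apply_symm_apply])
    (fun t => by rw [Equiv.symm_apply_eq, hs, Equiv.apply_symm_apply]) (e t) (e t')
  rwa [Equiv.symm_apply_apply, Equiv.symm_apply_apply] at h1

theorem ecc_iso (hM : M.IsMap) (hN : N.IsMap) (e : M.T ≃ N.T)
    (ha : ∀ t, e (M.a t) = N.a (e t)) (hs : ∀ t, e (M.s t) = N.s (e t)) (t : M.T) :
    N.ecc (N.vx (e t)) = M.ecc (M.vx t) := by
  have h := dd_iso hM hN e ha hs
  refine le_antisymm (ecc_le fun t' => ?_) (ecc_le fun t' => ?_)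
  · rw [← e.apply_symm_apply t', h]
    exact dd_le_ecc _ _
  · rw [← h]
    exact dd_le_ecc _ _

theorem dm_iso (hM : M.IsMap) (hN : N.IsMap) (h : RMIso M N) : N.dm = M.dm := by
  obtain ⟨e, ha, hs, -⟩ := h
  have h := dd_iso hM hN e ha hs
  refine le_antisymm ?_ ?_
  · obtain ⟨t, t', ht⟩ := exists_dm N
    rw [← ht, ← e.apply_symm_apply t, ← e.apply_symm_apply t', h]
    exact (dd_le_ecc _ _).trans (ecc_le_dm _)
  · obtain ⟨t, t', ht⟩ := exists_dm M
    rw [← ht, ← h]
    exact (dd_le_ecc _ _).trans (ecc_le_dm _)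

/-- the diameter is at most the number of edges -/
theorem ecc_le_E (h : M.IsMap) (v : M.V) : M.ecc v ≤ M.E := by
  obtain ⟨t, rfl⟩ := DdLib_vx v
  obtain ⟨t', ht'⟩ := exists_ecc t
  set n := M.ecc (M.vx t) with hn
  have h1 : ∀ j, j ≤ n → ∃ u, M.dd t u = n - j := by
    intro j
    induction j with
    | zero => exact fun _ => ⟨t', by simpa using ht'⟩
    | succ j ih =>
      intro hj
      obtain ⟨u, hu⟩ := ih (by omega)
      obtain ⟨w, -, hw⟩ := dd_pred h (t := t) (t' := u) (n := n - (j + 1)) (by omega)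
      exact ⟨_, hw⟩
  have h2 : ∀ k : Fin n, ∃ u, M.dd t u = k.1 + 1 ∧ M.dd t (M.a u) = k.1 := by
    intro k
    obtain ⟨u, hu⟩ := h1 (n - (k.1 + 1)) (Nat.sub_le _ _)
    have hk := k.2
    obtain ⟨w, hw, hw'⟩ := dd_pred h (t := t) (t' := u) (n := k.1) (by omega)
    refine ⟨w, ?_, hw'⟩
    rw [← dd_congr (Perm.SameCycle.refl _ t) hw]
    omega
  choose U hU hU' using h2
  have h3 : Function.Injective fun p : Fin n × Bool => if p.2 then U p.1 else M.a (U p.1) := by
    rintro ⟨k, b⟩ ⟨k', b'⟩ hkk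
    rcases b <;> rcases b' <;> simp only [if_true, if_false, Bool.false_eq_true] at hkk
    · have h4 := M.a.injective hkk
      have h5 := hU k
      have h6 := hU k'
      rw [h4] at h5
      have : k = k' := Fin.ext (by omega)
      rw [this]
    · exfalso
      have h4 := hU' k
      have h5 := hU k
      have h6 := hU k'
      have h7 := hU' k'
      rw [hkk] at h4
      rw [← hkk, h.inv] at h7
      omega
    · exfalso
      have h4 := hU' k
      have h5 := hU k
      have h6 := hU k'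
      have h7 := hU' k'
      rw [hkk] at h5
      rw [hkk, h.inv] at h4
      omega
    · have h5 := hU k
      have h6 := hU k'
      rw [hkk] at h5
      have : k = k' := Fin.ext (by omega)
      rw [this]
  have h4 := Fintype.card_le_of_injective _ h3
  rw [Fintype.card_prod, Fintype.card_fin, Fintype.card_bool] at h4
  unfold RM.E
  omega

end Dia
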