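import Pool.Agent.DiaC.InsA
import Pool.Agent.Dia.EulerM

/-!
# Module InsPl: the map with insertions is planar

`Pl a s` (homological planarity, `PGr.Defs`).  Let `p, q` be functions on the darts of `ins C X` with
`p t + q (a t) = p (s t) + q (s t)` for all `t`.  Write `p0 c = p (il c)`, `pc d = p (ir c d)`, same for `q`.

(1) Let `(X c).r = some r`, `z = (X c).s⁻¹ r`.  For `d ≠ z`: `pc d + qc (a d) = pc (s d) + qc (s d)` (here
`s d ≠ r`).  The sum over all `d` of `pc d + qc (a d) + pc (s d) + qc (s d)` is `0` in `ZMod 2`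
(`Equiv.sum_comp` for `a` and `s`), so the equation holds for `d = z`, too.
(2) So for every `c`: `p0 c + q0 (C.a c) = p0 (C.s c) + q0 (C.s c)`: clear if `(X c).r = none`; otherwise
`p0 c + q0 (C.a c) = pc r + qc r` (the dart `il c`), `pc z + qc (a z) = p0 (C.s c) + q0 (C.s c)` (the dart
`ir c z`), and (1) for `d = z`.
(3) Planarity of `C` gives `h0`, planarity of `X c` gives `hc` with `hc d + hc (s d) = pc d + pc (s d)`.
Put `h (il c) = h0 c`, `h (ir c d) = hc d + (hc r + pc r + h0 c + p0 c)`.  Then
`h t + h (s t) = p t + p (s t)` for the three kinds of darts.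

`ins_ok`: `pl_iff_eu` (module EulerM) and `ins_isMap`.
-/

set_option linter.unusedSectionVars false

namespace Dia
open Equiv Finset PGr

private theorem InsPl_two : (2 : ZMod 2) = 0 := by decide

/-- the equations for the inserted maps -/
private theorem InsPl_eqX {C : RM} {X : C.T → CM} {p q : (ins C X).T → ZMod 2}
    (h : ∀ t, p t + q ((ins C X).a t) = p ((ins C X).s t) + q ((ins C X).s t)) {c : C.T}
    {r : (X c).D} (hr : (X c).r = some r) (d : (X c).D) :
    p (ir X c d) + q (ir X c ((X c).a d)) =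
      p (ir X c ((X c).s d)) + q (ir X c ((X c).s d)) := by
  classical
  have h1 : ∀ d, (X c).s d ≠ r → p (ir X c d) + q (ir X c ((X c).a d)) =
      p (ir X c ((X c).s d)) + q (ir X c ((X c).s d)) := by
    intro d hd
    have h2 := h (ir X c d)
    have h3 : (X c).r ≠ some ((X c).s d) := by
      rw [hr]
      intro h4
      exact hd (Option.some.inj h4).symm
    rwa [ins_a_ir, ins_s_ir_ne C X h3] at h2
  by_cases hd : (X c).s d = r
  · -- the sum over all darts
    set f : (X c).D → ZMod 2 := fun e => p (ir X c e) + q (ir X c ((X c).a e)) +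
      (p (ir X c ((X c).s e)) + q (ir X c ((X c).s e))) with hf
    have h2 : ∑ e, f e = 0 := by
      rw [hf, Finset.sum_add_distrib, Finset.sum_add_distrib, Finset.sum_add_distrib,
        Equiv.sum_comp (X c).a (fun e => q (ir X c e)),
        Equiv.sum_comp (X c).s (fun e => p (ir X c e)),
        Equiv.sum_comp (X c).s (fun e => q (ir X c e))]
      linear_combination (∑ e, p (ir X c e) + ∑ e, q (ir X c e)) * InsPl_two
    have h3 : ∀ e, e ≠ d → f e = 0 := by
      intro e he
      have h4 : (X c).s e ≠ r := by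
        intro h5
        exact he ((X c).s.injective (h5.trans hd.symm))
      have h5 := h1 e h4
      show p (ir X c e) + q (ir X c ((X c).a e)) +
        (p (ir X c ((X c).s e)) + q (ir X c ((X c).s e))) = 0
      rw [h5]
      linear_combination (p (ir X c ((X c).s e)) + q (ir X c ((X c).s e))) * InsPl_two
    have h4 : f d = 0 := by
      rw [← h2]
      exact (Fintype.sum_eq_single d h3).symm
    have h5 : p (ir X c d) + q (ir X c ((X c).a d)) +
      (p (ir X c ((X c).s d)) + q (ir X c ((X c).s d))) = 0 := h4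
    linear_combination h5 - (p (ir X c ((X c).s d)) + q (ir X c ((X c).s d))) * InsPl_two
  · exact h1 d hd

/-- the equations for the core -/
private theorem InsPl_eqC {C : RM} {X : C.T → CM} {p q : (ins C X).T → ZMod 2}
    (h : ∀ t, p t + q ((ins C X).a t) = p ((ins C X).s t) + q ((ins C X).s t)) (c : C.T) :
    p (il C X c) + q (il C X (C.a c)) = p (il C X (C.s c)) + q (il C X (C.s c)) := by
  have h1 := h (il C X c)
  rw [ins_a_il] at h1
  rcases hr : (X c).r with _ | r
  · rwa [ins_s_il_none C X hr] at h1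
  · rw [ins_s_il_some C X hr] at h1
    have hz : (X c).r = some ((X c).s ((X c).s.symm r)) := by
      rw [Equiv.apply_symm_apply]
      exact hr
    have h2 := h (ir X c ((X c).s.symm r))
    rw [ins_a_ir, ins_s_ir_eq C X hz] at h2
    have h3 := InsPl_eqX h hr ((X c).s.symm r)
    rw [Equiv.apply_symm_apply] at h3
    rw [h1, ← h3, h2]

theorem ins_pl {C : RM} {X : C.T → CM} (hC : Pl C.a C.s)
    (hX : ∀ c, (X c).IsC) (hp : ∀ c, Pl (X c).a (X c).s) : Pl (ins C X).a (ins C X).s := by
  intro p q h
  obtain ⟨h0, ha0, hs0⟩ := hC (fun c => p (il C X c)) (fun c => q (il C X c)) (InsPl_eqC h)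
  have hx : ∀ c, ∃ g : (X c).D → ZMod 2, (∀ d, g ((X c).a d) = g d) ∧
      ∀ d, g d + g ((X c).s d) = p (ir X c d) + p (ir X c ((X c).s d)) := by
    intro c
    rcases hr : (X c).r with _ | r
    · have := (hX c).root hr
      exact ⟨fun _ => 0, fun _ => rfl, fun d => (this.false d).elim⟩
    · exact hp c (fun d => p (ir X c d)) (fun d => q (ir X c d)) (InsPl_eqX h hr)
  choose g hga hgs using hx
  let k : C.T → ZMod 2 := fun c => (X c).r.elim 0 fun r => g c r + p (ir X c r) + h0 c + p (il C X c)
  have hk : ∀ c r, (X c).r = some r → k c = g c r + p (ir X c r) + h0 c + p (il C X c) := by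
    intro c r hr
    show (X c).r.elim 0 (fun r => g c r + p (ir X c r) + h0 c + p (il C X c)) = _
    rw [hr]
    rfl
  let H : (ins C X).T → ZMod 2 := fun t => Sum.elim (fun c => h0 c) (fun d : (Σ c, (X c).D) =>
    g d.1 d.2 + k d.1) t
  have Hl : ∀ c, H (il C X c) = h0 c := fun _ => rfl
  have Hr : ∀ c d, H (ir X c d) = g c d + k c := fun _ _ => rfl
  refine ⟨H, fun t => ?_, fun t => ?_⟩
  · rcases ins_cases C X t with ⟨c, rfl⟩ | ⟨c, d, rfl⟩
    · rw [ins_a_il, Hl, Hl, ha0]
    · rw [ins_a_ir, Hr, Hr, hga]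
  · rcases ins_cases C X t with ⟨c, rfl⟩ | ⟨c, d, rfl⟩
    · rcases hr : (X c).r with _ | r
      · rw [ins_s_il_none C X hr, Hl, Hl]
        exact hs0 c
      · rw [ins_s_il_some C X hr, Hl, Hr, hk c r hr]
        linear_combination (h0 c + g c r) * InsPl_two
    · by_cases hd : (X c).r = some ((X c).s d)
      · rw [ins_s_ir_eq C X hd, Hl, Hr, hk c _ hd]
        have h1 := hgs c d
        have h2 := hs0 c
        linear_combination h1 + h2 + (p (ir X c ((X c).s d)) + p (il C X c)) * InsPl_two
      · rw [ins_s_ir_ne C X hd, Hr, Hr]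
        have h1 := hgs c d
        linear_combination h1 + k c * InsPl_two

theorem RM.Ok.pl {M : RM} (h : M.Ok) : Pl M.a M.s := (pl_iff_eu M h.toIsMap).2 h.eu

theorem RM.Ok.cm_ok {M : RM} (h : M.Ok) : M.cm.Ok where
  inv := h.inv
  fpf := h.fpf
  conn := h.conn
  root := fun hr => by
    have h1 : (some M.r : Option M.T) = none := hr
    cases h1
  pl := h.pl

theorem ocm_ok (o : Option RMC) : (ocm o).Ok := by
  rcases o with _ | m
  · exact {
      inv := fun d => d.elim
      fpf := fun d => d.elim
      conn := fun A _ _ hA => by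
        obtain ⟨d, -⟩ := hA
        exact d.elim
      root := fun _ => inferInstanceAs (IsEmpty Empty)
      pl := fun _ _ _ => ⟨fun _ => 0, fun d => d.elim, fun d => d.elim⟩ }
  · exact m.out.2.cm_ok

theorem ins_ok {C : RM} {X : C.T → CM} (hC : C.Ok) (hX : ∀ c, (X c).Ok) : (ins C X).Ok := by
  have h1 : (ins C X).IsMap := ins_isMap hC.toIsMap fun c => (hX c).toIsC
  exact { toIsMap := h1
          eu := (pl_iff_eu _ h1).1 (ins_pl hC.pl (fun c => (hX c).toIsC) fun c => (hX c).pl) }

end Dia
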