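import Pool.Agent.DiaC.HangB
import Pool.Agent.DiaC.InsPl
import Pool.Agent.DiaC.InsA
import Pool.Agent.PGr.PlRestrict

/-!
# Module DecC: a rooted map is its core with the hanging parts inserted

`coreM M`: the core with the return rotation.  `part c`: the hanging part attached at the corner `c` (empty if
`s c` is in the core: then no hanging part contains `s c` and `mx (s c)` is empty).

`dec_iso`: the map `il c ↦ c`, `ir c d ↦ d` is a bijection: injective since the sets `mx (s c)`, `c` in the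
core, are disjoint from the core and from each other (`mx_eq`, `corner_unique`), surjective by
`exists_corner`, `mx_eq`.  It commutes with `a`.  Rotation: `il c` with `s c ∈ core`: `part c` has
`r = none`, `ret_core_in`.  `il c` with `s c ∈ hang`: `s (il c) = ir c (root)`, and the root of `part c` is `s c`.
`ir c d` with `s d ∈ mx (s c)`: `ret_mx_in`, and `s d ≠ s c` because `d ≠ c` (`c` is in the core); with
`s d ∉ mx (s c)`: `ret_mx_out` gives the root `s c`, so `s (ir c d) = il (coreM.s c)`, which is `s d` by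
`ret_core_out`.

`part_isC`: `inv`, `fpf` clear; `root`: if `r = none` then `s c ∉ hang` and `mx (s c)` is empty.
`conn`: let `B` be a nonempty set of darts of `part c`, closed under `a` and the return map, `B ≠ univ`.
`B` and its complement are both closed (finite sets); one of them, `B'`, does not contain the root `s c`.
Then `B'` does not contain the leaving dart (its return is `s c`), so `B'` is closed under `M.s`:
as a set of darts of `M` it is closed under `a`, `s`, nonempty and does not contain `M.r`: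
contradiction to the connectedness of `M`.
`part_ok`: `Pl.restrict` (`PGr.PlRestrict`).
`coreM_conn`: if `B` is a set of core darts closed under `a`, `coreM.s`, use `dec_iso` and `lft`,
or directly: `{t | t ∈ B, or t ∈ mx (s c) with c ∈ B}` is closed under `a`, `s`.  `coreM_isMap`.
-/

set_option linter.unusedSectionVars false

namespace Dia
open Equiv Finset PGr

/-- the core as a rooted map -/
noncomputable def RM.coreM (M : RM) : RM where
  T := {t // t ∈ M.core}
  a := subA M.a M.core M.cl_core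
  s := ret M.s M.core
  r := ⟨M.r, M.root_core⟩

/-- the hanging part at the corner `c` of the core -/
noncomputable def RM.part (M : RM) (c : M.coreM.T) : CM where
  D := {t // t ∈ M.mx (M.s c.1)}
  a := subA M.a (M.mx (M.s c.1)) (M.cl_mx _)
  s := ret M.s (M.mx (M.s c.1))
  r := if h : M.s c.1 ∈ M.mx (M.s c.1) then some ⟨M.s c.1, h⟩ else none

variable {M : RM}

private theorem DecC_not_core {t : M.T} (ht : t ∉ M.core) : t ∈ M.hang := by
  by_contra h1
  exact ht (RM.mem_core.2 h1)

private theorem DecC_core {t c : M.T} (hc : c ∈ M.core) : c ∉ M.mx t := fun h1 =>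
  (RM.mem_core.1 hc) (RM.mx_sub_hang t h1)

private theorem DecC_hang {t u : M.T} (hu : u ∈ M.mx t) : t ∈ M.hang := by
  obtain ⟨A, hA, h1, -⟩ := RM.mem_mx.1 hu
  exact RM.mem_hang.2 ⟨A, hA, h1⟩

private theorem DecC_some {c : M.coreM.T} (h : M.s c.1 ∈ M.mx (M.s c.1)) :
    (M.part c).r = some ⟨M.s c.1, h⟩ := dif_pos h

private theorem DecC_none {c : M.coreM.T} (h : M.s c.1 ∉ M.mx (M.s c.1)) :
    (M.part c).r = none := dif_neg h

theorem dec_iso (h : M.IsMap) : RMIso (ins M.coreM M.part) M := by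
  let e : M.coreM.T ⊕ (Σ c, (M.part c).D) → M.T := Sum.elim (fun c => c.1) (fun p => p.2.1)
  have he : Function.Bijective e := by
    constructor
    · rintro (c | ⟨c, d⟩) (c' | ⟨c', d'⟩) hcc
      · have h1 : c.1 = c'.1 := hcc
        rw [Subtype.ext h1]
      · have h1 : c.1 = d'.1 := hcc
        exact absurd d'.2 (by rw [← h1]; exact DecC_core c.2)
      · have h1 : d.1 = c'.1 := hcc
        exact absurd d.2 (by rw [h1]; exact DecC_core c'.2)
      · have h1 : d.1 = d'.1 := hcc
        have h2 : M.mx (M.s c.1) = M.mx (M.s c'.1) := by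
          rw [← h.mx_eq d.2, ← h.mx_eq d'.2, h1]
        have h3 : M.s c.1 ∈ M.mx (M.s c.1) := RM.mem_mx_self.2 (DecC_hang d.2)
        have h4 : M.s c'.1 ∈ M.mx (M.s c'.1) := RM.mem_mx_self.2 (DecC_hang d'.2)
        rw [← h2] at h4
        have h5 : c = c' := Subtype.ext (h.corner_unique c.2 h3 c'.2 h4)
        subst h5
        rw [Subtype.ext h1]
    · intro t
      by_cases ht : t ∈ M.core
      · exact ⟨Sum.inl ⟨t, ht⟩, rfl⟩
      · have h1 := DecC_not_core ht
        obtain ⟨c, hc, hs⟩ := h.exists_corner h1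
        refine ⟨Sum.inr ⟨⟨c, hc⟩, ⟨t, ?_⟩⟩, rfl⟩
        show t ∈ M.mx (M.s c)
        rw [h.mx_eq hs]
        exact RM.mem_mx_self.2 h1
  have hil : ∀ c, e (il M.coreM M.part c) = c.1 := fun c => rfl
  have hir : ∀ c d, e (ir M.part c d) = d.1 := fun c d => rfl
  refine ⟨Equiv.ofBijective e he, fun t => ?_, fun t => ?_, rfl⟩
  · show e _ = M.a (e t)
    rcases ins_cases M.coreM M.part t with ⟨c, rfl⟩ | ⟨c, d, rfl⟩
    · rw [ins_a_il, hil, hil]
      rfl
    · rw [ins_a_ir, hir, hir]
      rfl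
  · show e _ = M.s (e t)
    rcases ins_cases M.coreM M.part t with ⟨c, rfl⟩ | ⟨c, d, rfl⟩
    · by_cases h1 : M.s c.1 ∈ M.mx (M.s c.1)
      · rw [ins_s_il_some M.coreM M.part (DecC_some h1), hil, hir]
      · rw [ins_s_il_none M.coreM M.part (DecC_none h1), hil, hil]
        have h2 : M.s c.1 ∈ M.core := by
          rw [RM.mem_core]
          intro h3
          exact h1 (RM.mem_mx_self.2 h3)
        exact RM.IsMap.ret_core_in c.2 h2
    · have h0 : M.s c.1 ∈ M.hang := DecC_hang d.2
      have h1 : M.s c.1 ∈ M.mx (M.s c.1) := RM.mem_mx_self.2 h0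
      by_cases h2 : M.s d.1 ∈ M.mx (M.s c.1)
      · have h3 : ((M.part c).s d).1 = M.s d.1 := RM.ret_mx_in d.2 h2
        have h4 : (M.part c).r ≠ some ((M.part c).s d) := by
          intro h5
          rw [DecC_some h1] at h5
          have h6 : M.s c.1 = ((M.part c).s d).1 := congrArg Subtype.val (Option.some_injective _ h5)
          rw [h3] at h6
          have h7 := M.s.injective h6
          exact absurd d.2 (by rw [← h7]; exact DecC_core c.2)
        rw [ins_s_ir_ne M.coreM M.part h4, hir, hir]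
        exact h3
      · have h3 : ((M.part c).s d).1 = M.s c.1 := h.ret_mx_out c.2 h0 d.2 h2
        have h4 : (M.part c).r = some ((M.part c).s d) := by
          rw [DecC_some h1]
          exact congrArg some (Subtype.ext h3.symm)
        rw [ins_s_ir_eq M.coreM M.part h4, hil, hir]
        exact h.ret_core_out c.2 h0 d.2 h2

theorem part_isC (h : M.IsMap) (c : M.coreM.T) : (M.part c).IsC := by
  classical
  refine ⟨fun d => Subtype.ext (h.inv d.1), fun d hd => h.fpf d.1 (congrArg Subtype.val hd),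
    ?_, ?_⟩
  · intro B hBa hBs hBne
    by_contra hBu
    obtain ⟨d0, hd0⟩ := hBne
    have h0 : M.s c.1 ∈ M.hang := DecC_hang d0.2
    have h1 : M.s c.1 ∈ M.mx (M.s c.1) := RM.mem_mx_self.2 h0
    have key : ∀ B' : Finset (M.part c).D, (∀ t, t ∈ B' → (M.part c).a t ∈ B') →
        (∀ t, t ∈ B' → (M.part c).s t ∈ B') → B'.Nonempty →
        (⟨M.s c.1, h1⟩ : {t // t ∈ M.mx (M.s c.1)}) ∉ B' → False := by
      intro B' ha hs hne hr
      have h2 : ∀ t, t ∈ B'.map ⟨Subtype.val, Subtype.val_injective⟩ ↔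
          ∃ d ∈ B', d.1 = t := by
        intro t
        simp only [mem_map, Function.Embedding.coeFn_mk]
        exact Iff.rfl
      have h3 := h.conn (B'.map ⟨Subtype.val, Subtype.val_injective⟩) ?_ ?_ ?_
      · have h4 : M.r ∈ B'.map ⟨Subtype.val, Subtype.val_injective⟩ := by
          rw [h3]
          exact mem_univ _
        obtain ⟨d, -, hd⟩ := (h2 _).1 h4
        exact absurd d.2 (by rw [hd]; exact DecC_core M.root_core)
      · intro t ht
        obtain ⟨d, hd, rfl⟩ := (h2 _).1 ht
        exact (h2 _).2 ⟨(M.part c).a d, ha d hd, rfl⟩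
      · intro t ht
        obtain ⟨d, hd, rfl⟩ := (h2 _).1 ht
        by_cases h5 : M.s d.1 ∈ M.mx (M.s c.1)
        · exact (h2 _).2 ⟨(M.part c).s d, hs d hd, RM.ret_mx_in d.2 h5⟩
        · exfalso
          apply hr
          have h6 : ((M.part c).s d).1 = M.s c.1 := h.ret_mx_out c.2 h0 d.2 h5
          have h7 : (M.part c).s d = (⟨M.s c.1, h1⟩ : {t // t ∈ M.mx (M.s c.1)}) :=
            Subtype.ext h6
          rw [← h7]
          exact hs d hd
      · obtain ⟨d, hd⟩ := hne
        exact ⟨d.1, (h2 _).2 ⟨d, hd, rfl⟩⟩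
    by_cases hr : (⟨M.s c.1, h1⟩ : {t // t ∈ M.mx (M.s c.1)}) ∈ B
    · refine key Bᶜ (InsA_compl _ hBa) (InsA_compl _ hBs) ?_ (fun h2 => (mem_compl.1 h2) hr)
      by_contra hne
      rw [not_nonempty_iff_eq_empty, compl_eq_empty_iff] at hne
      exact hBu hne
    · exact key B hBa hBs ⟨d0, hd0⟩ hr
  · intro hr
    refine ⟨fun d => ?_⟩
    have h1 : M.s c.1 ∈ M.mx (M.s c.1) := RM.mem_mx_self.2 (DecC_hang d.2)
    rw [DecC_some h1] at hr
    exact absurd hr (by simp)

theorem part_ok (h : M.IsMap) (hp : Pl M.a M.s) (c : M.coreM.T) : (M.part c).Ok :=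
  ⟨part_isC h c, hp.restrict h.inv (M.mx (M.s c.1)) (M.cl_mx _)⟩

theorem coreM_isMap (h : M.IsMap) : M.coreM.IsMap := by
  classical
  refine ⟨fun d => Subtype.ext (h.inv d.1), fun d hd => h.fpf d.1 (congrArg Subtype.val hd), ?_⟩
  intro B hBa hBs hBne
  set A : Finset M.T := univ.filter fun t =>
    (∃ ht : t ∈ M.core, (⟨t, ht⟩ : {t // t ∈ M.core}) ∈ B) ∨ ∃ c ∈ B, t ∈ M.mx (M.s c.1) with hA
  have hmem : ∀ t, t ∈ A ↔ (∃ ht : t ∈ M.core, (⟨t, ht⟩ : {t // t ∈ M.core}) ∈ B) ∨
      ∃ c ∈ B, t ∈ M.mx (M.s c.1) := by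
    intro t
    rw [hA, mem_filter]
    exact ⟨fun h1 => h1.2, fun h1 => ⟨mem_univ _, h1⟩⟩
  have hu : A = univ := by
    apply h.conn
    · intro t ht
      rw [hmem] at ht ⊢
      rcases ht with ⟨ht, hb⟩ | ⟨c, hc, ht⟩
      · exact Or.inl ⟨(M.cl_core t).2 ht, hBa _ hb⟩
      · exact Or.inr ⟨c, hc, (M.cl_mx _ t).2 ht⟩
    · intro t ht
      rw [hmem] at ht ⊢
      rcases ht with ⟨ht, hb⟩ | ⟨c, hc, ht⟩
      · by_cases h1 : M.s t ∈ M.core
        · left
          refine ⟨h1, ?_⟩
          have h2 : (M.coreM.s ⟨t, ht⟩) = (⟨M.s t, h1⟩ : {t // t ∈ M.core}) :=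
            Subtype.ext (RM.IsMap.ret_core_in ht h1)
          rw [← h2]
          exact hBs _ hb
        · right
          exact ⟨⟨t, ht⟩, hb, RM.mem_mx_self.2 (DecC_not_core h1)⟩
      · by_cases h1 : M.s t ∈ M.mx (M.s c.1)
        · exact Or.inr ⟨c, hc, h1⟩
        · left
          have h2 := h.leave_core ht h1
          refine ⟨h2, ?_⟩
          have h3 : M.coreM.s c = (⟨M.s t, h2⟩ : {t // t ∈ M.core}) :=
            Subtype.ext (h.ret_core_out c.2 (DecC_hang ht) ht h1)
          rw [← h3]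
          exact hBs _ hc
    · obtain ⟨c, hc⟩ := hBne
      exact ⟨c.1, (hmem _).2 (Or.inl ⟨c.2, hc⟩)⟩
  rw [eq_univ_iff_forall]
  intro c
  have h1 : c.1 ∈ A := by
    rw [hu]
    exact mem_univ _
  rw [hmem] at h1
  rcases h1 with ⟨ht, hb⟩ | ⟨c', hc', ht⟩
  · exact hb
  · exact absurd ht (DecC_core c.2)

theorem coreM_pl (h : M.IsMap) (hp : Pl M.a M.s) : Pl M.coreM.a M.coreM.s :=
  hp.restrict h.inv M.core M.cl_core

end Dia
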