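import Pool.Agent.DiaC.SysDefs

/-!
# Module EvPS: power series with coefficients in `[0, ∞]`

`ev_mul`: `ENNReal.tsum_mul_tsum_eq_tsum_sum_antidiagonal`-type statement (if it is not in Mathlib: the sum
over `ℕ × ℕ` of `coeff i F y^i * (coeff j G y^j)` in two orders: `ENNReal.tsum_mul_left/right`,
`ENNReal.tsum_prod`, and the equivalence `Finset.HasAntidiagonal.sigmaAntidiagonalEquivProd`).
`ev_sbs`: `ENNReal.tsum_comm`, `ev_pow`.

`ev_inj`: the coefficients are finite (`coeff n F * y0^n ≤ ev F y0`, `y0 ≠ 0`; same for `G`).  We may assume that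
`y0 < ∞` (if `y0 = ∞` use `y0 = 1`: `ev` is monotone).  Strong induction on `n`: if the coefficients
of index `< n` agree, cancel the finite sum of these terms: for `0 < y ≤ y0`
`coeff n F y^n ≤ ∑_{k ≥ n} coeff k F y^k = ∑_{k ≥ n} coeff k G y^k ≤ coeff n G y^n + (y/y0)^(n+1) ev G y0`,
divide by `y^n` and let `y → 0`: `coeff n F ≤ coeff n G`; by symmetry equality.
-/

set_option linter.unusedSectionVars false

namespace Dia
open Finset PowerSeries
open scoped ENNReal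

theorem ev_mono (F : ℝ≥0∞⟦X⟧) {y y' : ℝ≥0∞} (h : y ≤ y') : ev F y ≤ ev F y' := by
  unfold ev
  exact ENNReal.tsum_le_tsum fun n => mul_le_mul_right (pow_le_pow_left₀ zero_le h n) _

theorem ev_add (F G : ℝ≥0∞⟦X⟧) (y : ℝ≥0∞) : ev (F + G) y = ev F y + ev G y := by
  unfold ev
  rw [← ENNReal.tsum_add]
  exact tsum_congr fun n => by rw [map_add, add_mul]

theorem ev_mul (F G : ℝ≥0∞⟦X⟧) (y : ℝ≥0∞) : ev (F * G) y = ev F y * ev G y := by
  unfold ev
  have h1 : ∀ n, coeff n (F * G) * y ^ n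
      = ∑' p : Finset.HasAntidiagonal.antidiagonal n, (coeff p.1.1 F * y ^ p.1.1) * (coeff p.1.2 G * y ^ p.1.2) := by
    intro n
    rw [coeff_mul, Finset.sum_mul, tsum_fintype,
      ← Finset.sum_coe_sort (Finset.HasAntidiagonal.antidiagonal n)]
    refine Finset.sum_congr rfl fun p _ => ?_
    have h2 : p.1.1 + p.1.2 = n := Finset.HasAntidiagonal.mem_antidiagonal.1 p.2
    have h3 : y ^ n = y ^ p.1.1 * y ^ p.1.2 := by rw [← pow_add, h2]
    rw [h3]
    ring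
  rw [tsum_congr h1, ← ENNReal.tsum_mul_right]
  simp_rw [← ENNReal.tsum_mul_left]
  rw [← ENNReal.tsum_prod (f := fun i j => coeff i F * y ^ i * (coeff j G * y ^ j)),
    ← (Finset.HasAntidiagonal.sigmaAntidiagonalEquivProd (A := ℕ)).tsum_eq, ENNReal.tsum_sigma']
  rfl

theorem ev_C (c : ℝ≥0∞) (y : ℝ≥0∞) : ev (C c) y = c := by
  unfold ev
  rw [tsum_eq_single 0]
  · simp
  · intro n hn
    simp [coeff_C, hn]

theorem ev_one (y : ℝ≥0∞) : ev 1 y = 1 := by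
  have h := ev_C 1 y
  simpa using h

theorem ev_X (y : ℝ≥0∞) : ev X y = y := by
  unfold ev
  rw [tsum_eq_single 1]
  · simp
  · intro n hn
    simp [coeff_X, hn]

theorem ev_pow (F : ℝ≥0∞⟦X⟧) (k : ℕ) (y : ℝ≥0∞) : ev (F ^ k) y = ev F y ^ k := by
  induction k with
  | zero => simp [ev_one]
  | succ k ih => rw [pow_succ, ev_mul, ih, pow_succ]

theorem ev_mk (f : ℕ → ℝ≥0∞) (y : ℝ≥0∞) : ev (mk f) y = ∑' n, f n * y ^ n := by
  unfold ev
  simp

theorem ev_sbs (c : ℕ → ℝ≥0∞) (Z : ℝ≥0∞⟦X⟧) (y : ℝ≥0∞) :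
    ev (sbs c Z) y = ∑' j, c j * ev Z y ^ j := by
  unfold sbs
  rw [ev_mk]
  simp_rw [← ENNReal.tsum_mul_right]
  rw [ENNReal.tsum_comm]
  refine tsum_congr fun j => ?_
  rw [← ev_pow]
  unfold ev
  rw [← ENNReal.tsum_mul_left]
  exact tsum_congr fun n => by rw [mul_assoc]

theorem coeff_ne_top {F : ℝ≥0∞⟦X⟧} {y : ℝ≥0∞} (hy : y ≠ 0) (h : ev F y ≠ ⊤) (n : ℕ) :
    coeff n F ≠ ⊤ := by
  intro hn
  apply h
  have h1 : coeff n F * y ^ n ≤ ev F y := ENNReal.le_tsum n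
  rw [hn, ENNReal.top_mul (pow_ne_zero n hy)] at h1
  exact top_le_iff.1 h1

/-- tail bound -/
theorem EvPS.tail {G : ℝ≥0∞⟦X⟧} {y0 : ℝ≥0∞} (h0 : y0 ≠ 0) (ht : y0 ≠ ⊤) (n : ℕ) {r : ℝ≥0∞} (hr : r ≤ 1) :
    ∑' k, coeff (k + (n + 1)) G * (r * y0) ^ (k + (n + 1)) ≤ r ^ (n + 1) * ev G y0 := by
  have h1 : ∀ k, coeff (k + (n + 1)) G * (r * y0) ^ (k + (n + 1))
      ≤ r ^ (n + 1) * (coeff (k + (n + 1)) G * y0 ^ (k + (n + 1))) := by
    intro k
    rw [mul_pow, pow_add r]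
    have h2 : r ^ k ≤ 1 := pow_le_one' hr k
    calc coeff (k + (n + 1)) G * (r ^ k * r ^ (n + 1) * y0 ^ (k + (n + 1)))
        = r ^ k * (r ^ (n + 1) * (coeff (k + (n + 1)) G * y0 ^ (k + (n + 1)))) := by ring
      _ ≤ 1 * (r ^ (n + 1) * (coeff (k + (n + 1)) G * y0 ^ (k + (n + 1)))) := by gcongr
      _ = _ := one_mul _
  refine (ENNReal.tsum_le_tsum h1).trans ?_
  rw [ENNReal.tsum_mul_left]
  gcongr
  unfold ev
  exact ENNReal.tsum_comp_le_tsum_of_injective (add_left_injective (n + 1)) (fun k => coeff k G * y0 ^ k)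

theorem EvPS.split (F : ℝ≥0∞⟦X⟧) (y : ℝ≥0∞) (n : ℕ) :
    ev F y = ∑ k ∈ range n, coeff k F * y ^ k + ∑' k, coeff (k + n) F * y ^ (k + n) := by
  unfold ev
  exact (Summable.sum_add_tsum_nat_add' (f := fun k => coeff k F * y ^ k) (k := n) ENNReal.summable).symm

/-- key inequality for `ev_inj` -/
theorem EvPS.key {F G : ℝ≥0∞⟦X⟧} (h : ∀ y, ev F y = ev G y) {y0 : ℝ≥0∞} (h0 : y0 ≠ 0) (ht : y0 ≠ ⊤)
    (hf : ev F y0 ≠ ⊤) (n : ℕ) (hn : ∀ k < n, coeff k F = coeff k G) : coeff n F ≤ coeff n G := by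
  have hg : ev G y0 ≠ ⊤ := by rw [← h y0]; exact hf
  have hyn : y0 ^ n ≠ 0 := pow_ne_zero n h0
  have hynt : y0 ^ n ≠ ⊤ := ENNReal.pow_ne_top ht
  -- for every r in (0,1]: coeff n F * y0^n ≤ coeff n G * y0^n + r * ev G y0
  have h1 : ∀ r : ℝ≥0∞, r ≠ 0 → r ≤ 1 → coeff n F * y0 ^ n ≤ coeff n G * y0 ^ n + r * ev G y0 := by
    intro r hr0 hr1
    have hrt : r ≠ ⊤ := ne_top_of_le_ne_top ENNReal.one_ne_top hr1
    have h2 := h (r * y0)
    rw [EvPS.split F _ n, EvPS.split G _ n] at h2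
    have h3 : ∑ k ∈ range n, coeff k F * (r * y0) ^ k = ∑ k ∈ range n, coeff k G * (r * y0) ^ k :=
      Finset.sum_congr rfl fun k hk => by rw [hn k (Finset.mem_range.1 hk)]
    have h4 : ∑ k ∈ range n, coeff k G * (r * y0) ^ k ≠ ⊤ := by
      refine ENNReal.sum_ne_top.2 fun k _ => ?_
      exact ENNReal.mul_ne_top (coeff_ne_top h0 hg k) (ENNReal.pow_ne_top (ENNReal.mul_ne_top hrt ht))
    rw [h3] at h2
    have h5 := (ENNReal.add_right_inj h4).1 h2
    have h6 : coeff n F * (r * y0) ^ n ≤ ∑' k, coeff (k + n) F * (r * y0) ^ (k + n) := by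
      have := ENNReal.le_tsum (f := fun k => coeff (k + n) F * (r * y0) ^ (k + n)) 0
      simpa using this
    have h7 : ∑' k, coeff (k + n) G * (r * y0) ^ (k + n)
        = coeff n G * (r * y0) ^ n + ∑' k, coeff (k + (n + 1)) G * (r * y0) ^ (k + (n + 1)) := by
      have h8 := Summable.sum_add_tsum_nat_add' (f := fun k => coeff (k + n) G * (r * y0) ^ (k + n)) (k := 1) ENNReal.summable
      rw [← h8]
      simp only [Finset.range_one, Finset.sum_singleton, zero_add]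
      congr 1
      refine tsum_congr fun k => ?_
      rw [add_assoc, add_comm 1 n]
    rw [h5, h7] at h6
    have h9 := h6.trans (add_le_add_right (EvPS.tail (G := G) h0 ht n hr1) _)
    have h10 : r ^ n * (coeff n F * y0 ^ n) ≤ r ^ n * (coeff n G * y0 ^ n + r * ev G y0) := by
      calc r ^ n * (coeff n F * y0 ^ n) = coeff n F * (r * y0) ^ n := by rw [mul_pow]; ring
        _ ≤ _ := h9
        _ = _ := by rw [mul_pow, pow_succ]; ring
    exact (ENNReal.mul_le_mul_iff_right (pow_ne_zero n hr0) (ENNReal.pow_ne_top hrt)).1 h10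
  have h2 : coeff n F * y0 ^ n ≤ coeff n G * y0 ^ n := by
    refine le_of_forall_pos_le_add ?_
    intro ε hε
    by_cases hG : ev G y0 = 0
    · have := h1 1 one_ne_zero le_rfl
      rw [hG, mul_zero, add_zero] at this
      exact this.trans le_self_add
    · by_cases hεt : ε = ⊤
      · rw [hεt]; simp
      · have hr0 : min 1 (ε / ev G y0) ≠ 0 := by
          have h3 : 0 < ε / ev G y0 := ENNReal.div_pos hε.ne' hg
          exact (lt_min one_pos h3).ne'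
        have := h1 (min 1 (ε / ev G y0)) hr0 (min_le_left _ _)
        refine this.trans (add_le_add_right ?_ _)
        calc min 1 (ε / ev G y0) * ev G y0 ≤ ε / ev G y0 * ev G y0 := by gcongr; exact min_le_right _ _
          _ = ε := ENNReal.div_mul_cancel hG hg
  exact (ENNReal.mul_le_mul_iff_left hyn hynt).1 h2

theorem ev_inj {F G : ℝ≥0∞⟦X⟧} (h : ∀ y, ev F y = ev G y) {y0 : ℝ≥0∞} (hy0 : y0 ≠ 0)
    (hf : ev F y0 ≠ ⊤) : F = G := by
  obtain ⟨y1, h0, ht, hf1⟩ : ∃ y1 : ℝ≥0∞, y1 ≠ 0 ∧ y1 ≠ ⊤ ∧ ev F y1 ≠ ⊤ := by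
    by_cases hc : y0 = ⊤
    · refine ⟨1, one_ne_zero, ENNReal.one_ne_top, ?_⟩
      exact ne_top_of_le_ne_top hf (ev_mono F (by rw [hc]; exact le_top))
    · exact ⟨y0, hy0, hc, hf⟩
  have hg1 : ev G y1 ≠ ⊤ := by rw [← h y1]; exact hf1
  ext n
  induction n using Nat.strong_induction_on with
  | _ n ih =>
    exact le_antisymm (EvPS.key h h0 ht hf1 n ih)
      (EvPS.key (fun y => (h y).symm) h0 ht hg1 n fun k hk => (ih k hk).symm)

end Dia
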