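import Pool.Agent.Dia.PSysP
import Pool.Agent.Dia.RigF

/-!
# Module ExpB: inequalities for the exponential moments of the pole distance

`dT_ge`, `bT_ge`, `qT_ge`: `exp (θ pd) ≥ 1`; `dN ⊤ k = (∑ G, if DD G then 1 else 0) / k!` (`coreLt_top`).
`bT_le`: the sum over the graphs in `BB` of `exp (θ pd G) - 1`, split into graphs with and without separating vertex:
`s_T`, `rig_T`.
`dT_step`: `k = 0`: `dT_le`, `qN_zero`, `dN_zero`; `k ≥ 1`: `dT_le`, `dN_eq`, `qT_le`.
-/

set_option linter.unusedSectionVars false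

namespace Dia
open Finset PGr Pool.Agent.DiamP

private theorem ExpB_one_le {θ : ℝ} (hθ : 0 ≤ θ) (n : ℕ) : 1 ≤ Real.exp (θ * n) :=
  Real.one_le_exp (mul_nonneg hθ (Nat.cast_nonneg _))

open Classical in
private theorem ExpB_es2 (P : ∀ A : Type, SimpleGraph (A ⊕ Bool) → Prop) (k : ℕ) :
    es2 P k = (∑ G : SimpleGraph (Fin k ⊕ Bool), if P _ G then (1 : ℝ) else 0) / k.factorial := by
  unfold es2
  rw [Nat.card_eq_fintype_card, Fintype.card_subtype, Finset.sum_boole]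

open Classical in
private theorem ExpB_dN (k : ℕ) :
    dN ⊤ k = (∑ G : SimpleGraph (Fin k ⊕ Bool), if DD G then (1 : ℝ) else 0) / k.factorial := by
  unfold dN
  rw [ExpB_es2]
  congr 1
  refine Finset.sum_congr rfl fun G _ => ?_
  have : (DD G ∧ CoreLt ⊤ (addp G)) ↔ DD G := ⟨fun h => h.1, fun h => ⟨h, coreLt_top _⟩⟩
  simp only [this]

open Classical in
private theorem ExpB_bN (k : ℕ) :
    bN ⊤ k = (∑ G : SimpleGraph (Fin k ⊕ Bool), if BB G then (1 : ℝ) else 0) / k.factorial := by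
  unfold bN
  rw [ExpB_es2]
  congr 1
  refine Finset.sum_congr rfl fun G _ => ?_
  have : (BB G ∧ CoreLt ⊤ (addp G)) ↔ BB G := ⟨fun h => h.1, fun h => ⟨h, coreLt_top _⟩⟩
  simp only [this]

theorem dT_ge {θ : ℝ} (hθ : 0 ≤ θ) (k : ℕ) : dN ⊤ k ≤ dT θ k := by
  classical
  rw [ExpB_dN]
  unfold dT
  apply div_le_div_of_nonneg_right _ (Nat.cast_nonneg _)
  refine Finset.sum_le_sum fun G _ => ?_
  split_ifs
  · exact ExpB_one_le hθ _
  · exact le_refl _

theorem bT_ge {θ : ℝ} (hθ : 0 ≤ θ) (k : ℕ) : bN ⊤ k ≤ bT θ k := by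
  classical
  rw [ExpB_bN]
  unfold bT
  apply div_le_div_of_nonneg_right _ (Nat.cast_nonneg _)
  refine Finset.sum_le_sum fun G _ => ?_
  split_ifs
  · exact ExpB_one_le hθ _
  · exact le_refl _

theorem bT_le {θ : ℝ} (hθ : 0 ≤ θ) (k : ℕ) : bT θ k - bN ⊤ k ≤
    cv (rN ⊤) (fun j => cv (dT θ) (dT θ) j - cv (dN ⊤) (dN ⊤) j) k + HcT θ k := by
  classical
  have h1 := s_T hθ k
  have h2 := rig_T hθ k
  have h3 : bT θ k - bN ⊤ k =
      (∑ G : SimpleGraph (Fin k ⊕ Bool),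
        if BB G ∧ ∃ w, Sep G w then Real.exp (θ * pd G) - 1 else 0) / k.factorial +
      (∑ G : SimpleGraph (Fin k ⊕ Bool),
        if BB G ∧ ¬ ∃ w, Sep G w then Real.exp (θ * pd G) - 1 else 0) / k.factorial := by
    rw [ExpB_bN]
    unfold bT
    rw [← sub_div, ← add_div, ← Finset.sum_sub_distrib, ← Finset.sum_add_distrib]
    congr 1
    refine Finset.sum_congr rfl fun G _ => ?_
    by_cases hB : BB G
    · by_cases hS : ∃ w, Sep G w
      · rw [if_pos hB, if_pos hB, if_pos ⟨hB, hS⟩, if_neg (fun h => h.2 hS)]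
        ring
      · rw [if_pos hB, if_pos hB, if_neg (fun h => hS h.2), if_pos ⟨hB, hS⟩]
        ring
    · rw [if_neg hB, if_neg hB, if_neg (fun h => hB h.1), if_neg (fun h => hB h.1)]
      ring
  rw [h3]
  exact add_le_add h1 h2

theorem bT_zero (θ : ℝ) : bT θ 0 = 0 := by
  classical
  unfold bT
  rw [Finset.sum_eq_zero, zero_div]
  intro G _
  rw [if_neg]
  intro hB
  obtain ⟨a⟩ := hB.2.1.nonempty
  exact isEmptyElim a

theorem dT_step {θ : ℝ} (hθ : 0 ≤ θ) (k : ℕ) : dT θ k - dN ⊤ k ≤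
    (Real.exp θ - 1) * qN ⊤ k + cv (fun j => bT θ j - bN ⊤ j) (qN ⊤) k := by
  have h1 := dT_le hθ k
  rcases Nat.eq_zero_or_pos k with rfl | hk
  · rw [if_pos rfl, add_zero, qN_zero, mul_one] at h1
    have h2 : cv (fun j => bT θ j - bN ⊤ j) (qN ⊤) 0 = 0 := by
      rw [cv_eq_range]
      simp [bT_zero, bN_zero]
    rw [h2, dN_zero, qN_zero]
    linarith
  · rw [if_neg (by omega)] at h1
    have h2 := qT_le hθ hk
    rw [dN_eq ⊤ hk]
    linarith

/-- tail of the pole distance -/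
theorem dP_le {θ : ℝ} (hθ : 0 ≤ θ) (l k : ℕ) : dP l k ≤ Real.exp (-(θ * l)) * dT θ k := by
  classical
  unfold dP dT
  rw [ExpB_es2, ← mul_div_assoc]
  apply div_le_div_of_nonneg_right _ (Nat.cast_nonneg _)
  rw [Finset.mul_sum]
  refine Finset.sum_le_sum fun G _ => ?_
  by_cases hD : DD G
  · rw [if_pos hD]
    by_cases hl : l < pd G
    · rw [if_pos ⟨hD, hl⟩, ← Real.exp_add]
      apply Real.one_le_exp
      have h3 : (l : ℝ) ≤ (pd G : ℝ) := by exact_mod_cast hl.le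
      nlinarith
    · rw [if_neg (fun h => hl h.2)]
      positivity
  · rw [if_neg hD, if_neg (fun h => hD h.1), mul_zero]

end Dia
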