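import Pool.Agent.DiaC.RTail
import Pool.Agent.PGc.RigLe

/-!
# Module RigTail: the root face of a rigid map has an exponential tail

`comp_rl`: the root face of a composite is at least as long as the root face of the core.  `rl` is the length of the
cycle of `inr true` under `ps = aa * s` (`PGr/SerRl.lean`).  For a dart `z` of the core let `u z = aa (jump z)` (in the
composite); `u` is injective (`jump_inj`).  Claim: `u z` and `u (s (aa z))` are in the same cycle of `ps` of the
composite.  `z = inr b`: `ps (u z) = aa (s (inr !b)) = aa (jump (s (inr !b)))` (`comp_s_root`).  `z = inl (i, b)`: in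
the net `N i` follow the cycle of `ps` of `inr b`: `SerRl.run`, `SerRl.first`, `SerRl.last` for `b = true`; the same
proofs for `b = false` (the cycle of `inr b` does not contain `inr !b`: `(Good.dual _).noLoop`).  So the cycle of `inr false`
under `s * aa` in the core (conjugate by `aa` to the cycle of `inr true` under `aa * s`, length `rl`) is mapped by
`u` injectively into the cycle of `u (inr false) = inr true` of the composite.

`rig_face_le`: the composites of different `(c, N)`, `c` rigid, are different (`comp_inj`), with weight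
`s^(nV c - 2) ∏ W (N i)`; compare the proof of `ESum.rig_ge`.
`rig_tail`: `Es = ecr (vc x)`, `rig_face_le`, and `ZF_eq` with `P M = (l + 1 ≤ M.rl)`, `fpd_tail` (`l ≥ 1`).
-/

set_option linter.unusedSectionVars false

namespace Dia
open Equiv Finset PGr
open scoped ENNReal Classical

variable {x : ℝ}

private theorem RigTail_run (C : Core) (N : C.I → GB) (i : C.I) (b : Bool) (j : ℕ)
    (hj : j + 1 < Function.minimalPeriod (fun t => ((N i).1.aa * (N i).1.s) t) (Sum.inr b)) :
    ∃ d, (fun t => ((N i).1.aa * (N i).1.s) t)^[j + 1] (Sum.inr b) = Sum.inl d ∧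
      ((comp C N).aa * (comp C N).s).SameCycle
        (Sum.inl ⟨i, (N i).1.a (fstD (N i) b)⟩) (Sum.inl ⟨i, d⟩) := by
  induction j with
  | zero =>
    refine ⟨(N i).1.a (fstD (N i) b), ?_, Perm.SameCycle.refl _ _⟩
    show (N i).1.aa ((N i).1.s (Sum.inr b)) = _
    rw [fstD_spec]
    rfl
  | succ j ih =>
    obtain ⟨d, hd, hc⟩ := ih (by omega)
    rw [Function.iterate_succ_apply', hd]
    rcases h4 : (N i).1.s (Sum.inl d) with e | c
    · refine ⟨(N i).1.a e, ?_, hc.trans ⟨1, ?_⟩⟩
      · show (N i).1.aa ((N i).1.s (Sum.inl d)) = _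
        rw [h4]
        rfl
      · rw [zpow_one]
        show (comp C N).aa ((comp C N).s (Sum.inl ⟨i, d⟩)) = _
        rw [comp_s_in C N h4]
        rfl
    · exfalso
      have h5 : (fun t => ((N i).1.aa * (N i).1.s) t)^[j + 1 + 1] (Sum.inr b) = Sum.inr (!c) := by
        rw [Function.iterate_succ_apply', hd]
        show (N i).1.aa ((N i).1.s (Sum.inl d)) = _
        rw [h4]
        rfl
      by_cases hcb : (!c) = b
      · rw [hcb] at h5
        have h6 : Function.IsPeriodicPt (fun t => ((N i).1.aa * (N i).1.s) t) (j + 1 + 1)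
            (Sum.inr b) := h5
        have h7 := h6.minimalPeriod_le (by omega)
        omega
      · have h8 : (!c) = !b := by
          have h10 : ∀ p q : Bool, (!p) ≠ q → (!p) = !q := by decide
          exact h10 c b hcb
        refine (Good.dual (N i).2).noLoop (Sum.inr b) ?_
        refine ⟨((j + 1 + 1 : ℕ) : ℤ), ?_⟩
        rw [zpow_natCast]
        have h9 : ∀ (n : ℕ) (t : (N i).1.T), (fun t => ((N i).1.aa * (N i).1.s) t)^[n] t =
            (((N i).1.aa * (N i).1.s) ^ n) t := by
          intro n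
          induction n with
          | zero => intro t; rfl
          | succ n ihn =>
            intro t
            rw [Function.iterate_succ_apply, ihn, pow_succ]
            rfl
        rw [← h9, h5, h8]
        rfl

private theorem RigTail_step (C : Core) (N : C.I → GB) (w : (C.I × Bool) ⊕ Bool) :
    ((comp C N).aa * (comp C N).s).SameCycle
      ((comp C N).aa (jump C N (C.toB.aa w))) ((comp C N).aa (jump C N (C.s w))) := by
  rcases w with ⟨i, b⟩ | b
  · show ((comp C N).aa * (comp C N).s).SameCycle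
        (Sum.inl ⟨i, (N i).1.a (fstD (N i) (!b))⟩) ((comp C N).aa (jump C N (C.s (Sum.inl (i, b)))))
    set k := Function.minimalPeriod (fun t => ((N i).1.aa * (N i).1.s) t) (Sum.inr (!b)) with hk
    have hper : (fun t => ((N i).1.aa * (N i).1.s) t)^[k] (Sum.inr (!b)) = Sum.inr (!b) :=
      Function.isPeriodicPt_minimalPeriod _ _
    have hkpos : 0 < k := by
      rw [hk, minimalPeriod_eq_card, card_pos]
      exact ⟨Sum.inr (!b), by simp only [mem_filter, mem_univ, true_and]; exact Perm.SameCycle.refl _ _⟩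
    have hk2 : 2 ≤ k := by
      by_contra hcon
      have h1 : k = 1 := by omega
      rw [h1] at hper
      have h3 : (N i).1.aa ((N i).1.s (Sum.inr (!b))) = Sum.inr (!b) := hper
      rw [fstD_spec] at h3
      exact absurd h3 (by simp [BMap.aa])
    obtain ⟨d, hd, hc⟩ := RigTail_run C N i (!b) (k - 2) (by omega)
    have he : k = k - 2 + 1 + 1 := by omega
    rw [he, Function.iterate_succ_apply', hd] at hper
    have h3 : (N i).1.aa ((N i).1.s (Sum.inl d)) = Sum.inr (!b) := hper
    refine hc.trans ⟨1, ?_⟩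
    rw [zpow_one]
    show (comp C N).aa ((comp C N).s (Sum.inl ⟨i, d⟩)) = _
    rcases h4 : (N i).1.s (Sum.inl d) with e | c
    · rw [h4] at h3
      exact absurd h3 (by simp [BMap.aa])
    · rw [h4] at h3
      have h5 : (!c) = !b := Sum.inr_injective h3
      have h6 : c = b := by
        have h7 : ∀ p q : Bool, (!p) = (!q) → p = q := by decide
        exact h7 c b h5
      rw [comp_s_out C N h4, h6]
  · refine ⟨1, ?_⟩
    rw [zpow_one]
    show (comp C N).aa ((comp C N).s ((comp C N).aa (jump C N (C.toB.aa (Sum.inr b))))) = _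
    have h1 : (comp C N).aa (jump C N (C.toB.aa (Sum.inr b))) = Sum.inr b := by
      show (Sum.inr (!(!b)) : (Σ i, (N i).1.D) ⊕ Bool) = Sum.inr b
      rw [Bool.not_not]
    rw [h1, comp_s_root]

theorem comp_rl (C : Core) (hC : C.toB.IsGood) (N : C.I → GB) : C.toB.rl ≤ (comp C N).rl := by
  have hinv : ∀ w : (C.I × Bool) ⊕ Bool, C.toB.aa (C.toB.aa w) = w := hC.inv
  have hcyc : ∀ (n : ℕ) (w : (C.I × Bool) ⊕ Bool),
      ((comp C N).aa * (comp C N).s).SameCycle ((comp C N).aa (jump C N (C.toB.aa w)))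
        ((comp C N).aa (jump C N (C.toB.aa (((C.toB.aa * C.toB.s) ^ n) w)))) := by
    intro n
    induction n with
    | zero => intro w; exact Perm.SameCycle.refl _ _
    | succ n ih =>
      intro w
      have h1 := RigTail_step C N w
      have h2 := ih ((C.toB.aa * C.toB.s) w)
      have h3 : C.toB.aa ((C.toB.aa * C.toB.s) w) = C.s w := hinv (C.s w)
      rw [h3] at h2
      refine h1.trans ?_
      rw [pow_succ]
      exact h2
  unfold BMap.rl
  rw [minimalPeriod_eq_card, minimalPeriod_eq_card]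
  refine Finset.card_le_card_of_injOn
    (fun w => (comp C N).aa (jump C N (C.toB.aa w))) ?_ ?_
  · intro w hw
    simp only [mem_coe, mem_filter, mem_univ, true_and] at hw ⊢
    obtain ⟨n, hn⟩ := hw.exists_nat_pow_eq
    subst hn
    exact hcyc n (Sum.inr true)
  · intro w _ w' _ h
    have h1 := jump_inj C N ((comp C N).aa.injective h)
    exact C.toB.aa.injective h1

theorem rig_face_le (s y : ℝ≥0∞) (l : ℕ) :
    ∑' c : GC, (if Rigid c.rep.1 ∧ l + 1 ≤ c.rep.1.rl then
      s ^ (nV c.rep.1.s - 2) * Es s y ^ (Fintype.card c.rep.1.D / 2) else 0) ≤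
    Esel s y (fun M => l + 1 ≤ M.rl) := by
  have e1 : ∑' c : GC, (if Rigid c.rep.1 ∧ l + 1 ≤ c.rep.1.rl then
      s ^ (nV c.rep.1.s - 2) * Es s y ^ (Fintype.card c.rep.1.D / 2) else 0) =
      ∑' p : Σ c : GC, ((ESum.core c).I → GC),
      if Rigid p.1.rep.1 ∧ l + 1 ≤ p.1.rep.1.rl then
        s ^ (nV p.1.rep.1.s - 2) * ∏ i, W s y (p.2 i).rep.1 else 0 := by
    rw [← tsum_sigma_eq (fun (c : GC) (g : (ESum.core c).I → GC) =>
      if Rigid c.rep.1 ∧ l + 1 ≤ c.rep.1.rl then
        s ^ (nV c.rep.1.s - 2) * ∏ i, W s y (g i).rep.1 else 0)]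
    refine tsum_congr fun c => ?_
    by_cases h : Rigid c.rep.1 ∧ l + 1 ≤ c.rep.1.rl
    · simp only [if_pos h]
      rw [ENNReal.tsum_mul_left, ESum.core_card, ← Finset.card_univ, ← Finset.prod_const]
      congr 1
      rw [← prod_tsum (fun (_ : (ESum.core c).I) (x : GC) => W s y x.rep.1)]
      refine Finset.prod_congr rfl fun i _ => ?_
      unfold Es Esel
      exact tsum_congr fun c => if_pos trivial
    · simp only [if_neg h]
      simp
  rw [e1]
  unfold Esel
  have hgood : ∀ p : Σ c : GC, ((ESum.core c).I → GC),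
      (comp (ESum.core p.1) (fun i => (p.2 i).rep)).IsGood :=
    fun p => comp_good _ _ (ESum.core_good p.1)
  refine tsum_le_tsum_of_injOn
    (fun p : Σ c : GC, ((ESum.core c).I → GC) =>
      ESum.cl ⟨comp (ESum.core p.1) (fun i => (p.2 i).rep), hgood p⟩) ?_ ?_
  · rintro ⟨c, g⟩ ⟨c', g'⟩ h1 h2 h
    have hc : Rigid c.rep.1 := by
      by_contra h3
      apply h1
      rw [if_neg (fun h4 => h3 h4.1)]
    have hc' : Rigid c'.rep.1 := by
      by_contra h3
      apply h2
      rw [if_neg (fun h4 => h3 h4.1)]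
    have hR := (ESum.core_iso c).symm.rigid hc
    have hR' := (ESum.core_iso c').symm.rigid hc'
    have h3 : BIso (comp (ESum.core c) (fun i => (g i).rep))
        (comp (ESum.core c') (fun i => (g' i).rep)) := ESum.iso_of_mk h
    have h4 := comp_inj_core _ _ _ _ (ESum.core_good c) hR (ESum.core_good c') hR' h3
    have h5 : c = c' :=
      ESum.eq_of_iso (((ESum.core_iso c).symm.trans h4).trans (ESum.core_iso c'))
    subst h5
    have h6 : g = g' := by
      funext i
      exact ESum.eq_of_iso (comp_inj_nets _ _ _ (ESum.core_good c) hR h3 i)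
    rw [h6]
  · rintro ⟨c, g⟩ h1
    have hc : Rigid c.rep.1 ∧ l + 1 ≤ c.rep.1.rl := by
      by_contra h3
      apply h1
      rw [if_neg h3]
    have hi := ESum.rep_iso ⟨comp (ESum.core c) (fun i => (g i).rep), hgood ⟨c, g⟩⟩
    have hW := ESum.W_comp s y (ESum.core c) (fun i => (g i).rep) (ESum.core_good c)
    have hnV : nV (ESum.core c).s = nV c.rep.1.s := (ESum.core_iso c).nV_eq
    have hrl : l + 1 ≤ (GC.rep (ESum.cl ⟨comp (ESum.core c) (fun i => (g i).rep),
        hgood ⟨c, g⟩⟩)).1.rl := by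
      rw [hi.rl_eq]
      have h2 := comp_rl (ESum.core c) (ESum.core_good c) (fun i => (g i).rep)
      have h3 : (ESum.core c).toB.rl = c.rep.1.rl := (ESum.core_iso c).rl_eq
      have h4 := hc.2
      rw [← h3] at h4
      exact h4.trans h2
    show (if Rigid c.rep.1 ∧ l + 1 ≤ c.rep.1.rl then
      s ^ (nV c.rep.1.s - 2) * ∏ i, W s y (g i).rep.1 else 0) ≤ _
    rw [if_pos hc, if_pos hrl, hi.W_eq, hW, hnV]

theorem rig_tail (h0 : 0 < x) (h1 : x ≤ 1 / 10) : ∃ ζ K : ℝ, 0 < ζ ∧ ζ < 1 ∧ 0 < K ∧ ∀ l : ℕ,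
    tauS x (fun c => l + 1 ≤ c.rep.1.rl) ≤ ENNReal.ofReal (K * ζ ^ l) := by
  obtain ⟨ζ, hζ0, hζ1, H⟩ := fpd_tail h0 h1
  set E := max (ecr (vc x)) 1 with hE
  have hE1 : 1 ≤ E := le_max_right _ _
  have hEe : ecr (vc x) ≤ E := le_max_left _ _
  refine ⟨ζ, E / ζ, hζ0, hζ1, by positivity, fun l => ?_⟩
  set X := ENNReal.ofReal x with hX
  set Y := ENNReal.ofReal (yc x) with hY
  set z := Y * Ag X Y ^ 2 with hz
  have hEs : Es X z = ENNReal.ofReal (ecr (vc x)) := by
    rw [hz, ← ZF_true, ZF_D h0 h1]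
  -- the sum over the rigid maps
  have h2 : tauS x (fun c => l + 1 ≤ c.rep.1.rl) ≤ Esel X z (fun M => l + 1 ≤ M.rl) := by
    refine le_trans ?_ (rig_face_le X z l)
    unfold tauS
    refine ENNReal.tsum_le_tsum fun c => ?_
    by_cases hc : Rigid c.rep.1 ∧ l + 1 ≤ c.rep.1.rl
    · rw [if_pos hc, if_pos hc, hEs, hX]
      rw [ENNReal.ofReal_mul (pow_nonneg h0.le _), ENNReal.ofReal_pow h0.le]
      refine mul_le_mul_right ?_ _
      unfold gE
      generalize Fintype.card c.rep.1.D / 2 = m
      have he : 0 ≤ ecr (vc x) :=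
        (ecr_pos (vc_pos h0 (by linarith)) (vc_lt_one h0 (by linarith))).le
      rw [ENNReal.ofReal_pow he]
    · rw [if_neg hc]
      exact zero_le
  refine h2.trans ?_
  rw [hz, ← ZF_eq X Y (fun M => l + 1 ≤ M.rl)]
  rcases Nat.eq_zero_or_pos l with hl | hl
  · subst hl
    have h3 : ZF X Y (fun F => 0 + 1 ≤ F.1.rep.1.rl) ≤ ZF X Y (fun _ => True) := by
      unfold ZF
      refine ENNReal.tsum_le_tsum fun F => ?_
      rw [if_pos trivial]
      by_cases h4 : 0 + 1 ≤ F.1.rep.1.rl
      · rw [if_pos h4]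
      · rw [if_neg h4]
        exact zero_le
    refine h3.trans ?_
    rw [ZF_D h0 h1]
    apply ENNReal.ofReal_le_ofReal
    rw [pow_zero, mul_one, le_div_iff₀ hζ0]
    nlinarith
  · have h3 : ZF X Y (fun F => l + 1 ≤ F.1.rep.1.rl) ≤ ZF X Y (fun F => (l - 1) + 1 ≤ fpd F) := by
      unfold ZF
      refine ENNReal.tsum_le_tsum fun F => ?_
      by_cases h4 : l + 1 ≤ F.1.rep.1.rl
      · have h5 : (l - 1) + 1 ≤ fpd F := by
          unfold fpd
          omega
        rw [if_pos h4, if_pos h5]
      · rw [if_neg h4]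
        exact zero_le
    refine h3.trans ((H (l - 1)).trans ?_)
    apply ENNReal.ofReal_le_ofReal
    have h6 : ζ ^ l = ζ ^ (l - 1) * ζ := by
      rw [← pow_succ]
      congr 1
      omega
    rw [h6]
    have h7 : E / ζ * (ζ ^ (l - 1) * ζ) = ζ ^ (l - 1) * E := by
      field_simp
    rw [h7]
    exact mul_le_mul_of_nonneg_left hEe (by positivity)

end Dia
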