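import Pool.Agent.DiaC.Bridge
import Pool.Agent.DiamP.Tail

/-!
# Module TauTail: tail of the weights of the rigid maps

`tau_up`: window weights `w n := tauS x (n ≤ gE ≤ n + n^(2/3)) ≤ C n^(-11/6)`.
Let `j = gE c ≥ E ≥ 1`.  The numbers `n` with `j - j^(2/3)/2 ≤ n ≤ j` satisfy `n ≥ j/2 ≥ E/2`, `n^(2/3) ≥ (j/2)^(2/3) ≥ j^(2/3)/2`, so
`c` is in the window at `n`; their number is `⌊j^(2/3)/2⌋ + 1 ≥ j^(2/3)/2`, and `4 n^(-2/3) ≥ 4 j^(-2/3)`.  So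
`tauS (E ≤ gE) ≤ ∑' n, if E ≤ 2 n then ofReal (4 n^(-2/3)) * w n else 0 ≤ ∑_{n ≥ E/2} 4 C n^(-5/2) ≤ K E^(-3/2)`.
-/

set_option linter.unusedSectionVars false

namespace Dia
open Finset PGr
open scoped ENNReal

private theorem TauTail_half {j : ℕ} (hj : 1 ≤ j) {i : ℕ} (hi : (i : ℝ) ≤ (j : ℝ) ^ (2 / 3 : ℝ) / 2) :
    i ≤ j ∧ (j : ℝ) / 2 ≤ (j - i : ℕ) ∧ (j : ℝ) ≤ (j - i : ℕ) + ((j - i : ℕ) : ℝ) ^ (2 / 3 : ℝ) := by
  have hj' : (1 : ℝ) ≤ j := by exact_mod_cast hj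
  have h1 : (j : ℝ) ^ (2 / 3 : ℝ) ≤ j := by
    have := Real.rpow_le_rpow_of_exponent_le hj' (show (2 / 3 : ℝ) ≤ 1 by norm_num)
    rwa [Real.rpow_one] at this
  have h2 : (i : ℝ) ≤ j := by linarith
  have h3 : i ≤ j := by exact_mod_cast h2
  have h4 : ((j - i : ℕ) : ℝ) = j - i := by push_cast [h3]; ring
  have h5 : (j : ℝ) / 2 ≤ (j - i : ℕ) := by rw [h4]; linarith
  refine ⟨h3, h5, ?_⟩
  have h6 : ((j : ℝ) / 2) ^ (2 / 3 : ℝ) ≤ ((j - i : ℕ) : ℝ) ^ (2 / 3 : ℝ) :=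
    Real.rpow_le_rpow (by positivity) h5 (by norm_num)
  have h7 : (j : ℝ) ^ (2 / 3 : ℝ) / 2 ≤ ((j : ℝ) / 2) ^ (2 / 3 : ℝ) := by
    rw [Real.div_rpow (by positivity) (by norm_num)]
    have h8 : (2 : ℝ) ^ (2 / 3 : ℝ) ≤ 2 := by
      have := Real.rpow_le_rpow_of_exponent_le (show (1 : ℝ) ≤ 2 by norm_num)
        (show (2 / 3 : ℝ) ≤ 1 by norm_num)
      rwa [Real.rpow_one] at this
    exact div_le_div_of_nonneg_left (by positivity) (by positivity) h8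
  rw [h4] at h6 ⊢
  linarith

/-- one class is in many windows -/
private theorem TauTail_cls {E j s : ℕ} (hE : 1 ≤ E) (hs : s = (E + 1) / 2) (hj : E ≤ j)
    (w : ℝ≥0∞) :
    w ≤ ∑' m : ℕ, ENNReal.ofReal (4 * ((m + s : ℕ) : ℝ) ^ (-(2 / 3) : ℝ)) *
      (if m + s ≤ j ∧ (j : ℝ) ≤ (m + s : ℕ) + ((m + s : ℕ) : ℝ) ^ (2 / 3 : ℝ) then w else 0) := by
  classical
  have hj1 : 1 ≤ j := hE.trans hj
  have hj' : (1 : ℝ) ≤ j := by exact_mod_cast hj1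
  have hj0 : (0 : ℝ) < j := by linarith
  set k := ⌊(j : ℝ) ^ (2 / 3 : ℝ) / 2⌋₊ with hk
  have hk1 : (k : ℝ) ≤ (j : ℝ) ^ (2 / 3 : ℝ) / 2 := Nat.floor_le (by positivity)
  have hk2 : (j : ℝ) ^ (2 / 3 : ℝ) / 2 < k + 1 := Nat.lt_floor_add_one _
  have hik : ∀ i ∈ range (k + 1), (i : ℝ) ≤ (j : ℝ) ^ (2 / 3 : ℝ) / 2 := by
    intro i hi
    have h1 : i ≤ k := by rw [mem_range] at hi; omega
    have h2 : (i : ℝ) ≤ k := by exact_mod_cast h1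
    linarith
  have his : ∀ i ∈ range (k + 1), i ≤ j ∧ s ≤ j - i := by
    intro i hi
    obtain ⟨h1, h2, -⟩ := TauTail_half hj1 (hik i hi)
    refine ⟨h1, ?_⟩
    have h3 : (j : ℝ) ≤ ((2 * (j - i) : ℕ) : ℝ) := by push_cast; linarith
    have h4 : j ≤ 2 * (j - i) := by exact_mod_cast h3
    omega
  have hinj : Set.InjOn (fun i => j - i - s) (range (k + 1) : Finset ℕ) := by
    intro a ha b hb hab
    have h1 := his a ha
    have h2 := his b hb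
    simp only at hab
    omega
  refine le_trans ?_ (ENNReal.sum_le_tsum ((range (k + 1)).image fun i => j - i - s))
  rw [sum_image hinj]
  have h1 : ∀ i ∈ range (k + 1), ENNReal.ofReal (4 * (j : ℝ) ^ (-(2 / 3) : ℝ)) * w ≤
      ENNReal.ofReal (4 * ((j - i - s + s : ℕ) : ℝ) ^ (-(2 / 3) : ℝ)) *
      (if j - i - s + s ≤ j ∧ (j : ℝ) ≤ (j - i - s + s : ℕ) +
        ((j - i - s + s : ℕ) : ℝ) ^ (2 / 3 : ℝ) then w else 0) := by
    intro i hi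
    obtain ⟨h1, h2, h3⟩ := TauTail_half hj1 (hik i hi)
    have h4 : j - i - s + s = j - i := Nat.sub_add_cancel (his i hi).2
    rw [h4, if_pos ⟨Nat.sub_le _ _, h3⟩]
    refine mul_le_mul_left ?_ _
    refine ENNReal.ofReal_le_ofReal ?_
    have h5 : (0 : ℝ) < ((j - i : ℕ) : ℝ) := by linarith
    have h6 : ((j - i : ℕ) : ℝ) ≤ j := by
      have : j - i ≤ j := Nat.sub_le _ _
      exact_mod_cast this
    have h7 := Real.rpow_le_rpow_of_nonpos h5 h6 (show (-(2 / 3) : ℝ) ≤ 0 by norm_num)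
    linarith
  refine le_trans ?_ (sum_le_sum h1)
  rw [sum_const, card_range, nsmul_eq_mul, ← mul_assoc]
  refine le_mul_of_one_le_left bot_le ?_
  have h2 : ((k + 1 : ℕ) : ℝ≥0∞) = ENNReal.ofReal ((k : ℝ) + 1) := by
    rw [show ((k : ℝ) + 1) = ((k + 1 : ℕ) : ℝ) by push_cast; ring, ENNReal.ofReal_natCast]
  rw [h2, ← ENNReal.ofReal_mul (by positivity), ← ENNReal.ofReal_one]
  refine ENNReal.ofReal_le_ofReal ?_
  have h3 : (j : ℝ) ^ (-(2 / 3) : ℝ) * (j : ℝ) ^ (2 / 3 : ℝ) = 1 := by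
    rw [← Real.rpow_add hj0]
    norm_num
  have h4 : (0 : ℝ) < (j : ℝ) ^ (-(2 / 3) : ℝ) := by positivity
  nlinarith

theorem tau_tail {x : ℝ} (h0 : 37 / 1000 ≤ x) (h1 : x ≤ 476 / 10000) :
    ∃ K : ℝ, 0 < K ∧ ∀ E : ℕ, 1 ≤ E →
      tauS x (fun c => E ≤ gE c) ≤ ENNReal.ofReal (K * (E : ℝ) ^ (-(3 / 2) : ℝ)) := by
  classical
  obtain ⟨C, hC, hup⟩ := tau_up h0 h1
  have hpc := Pool.Agent.DiamP.pc_pos (γ := 3 / 2) (by norm_num)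
  refine ⟨4 * C * Pool.Agent.DiamP.pc (3 / 2) * 2 ^ (3 / 2 : ℝ), by positivity, fun E hE => ?_⟩
  obtain ⟨s, hs⟩ : ∃ s, s = (E + 1) / 2 := ⟨_, rfl⟩
  have hs1 : 1 ≤ s := by omega
  have hsE : (E : ℝ) / 2 ≤ s := by
    have h2 : E ≤ 2 * s := by omega
    have h3 : (E : ℝ) ≤ 2 * s := by exact_mod_cast h2
    linarith
  have hE0 : (0 : ℝ) < E := by exact_mod_cast hE
  have hs0 : (0 : ℝ) < s := by exact_mod_cast hs1
  have step1 : tauS x (fun c => E ≤ gE c) ≤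
      ∑' m : ℕ, ENNReal.ofReal (4 * ((m + s : ℕ) : ℝ) ^ (-(2 / 3) : ℝ)) *
        tauS x (fun c => m + s ≤ gE c ∧
          (gE c : ℝ) ≤ (m + s : ℕ) + ((m + s : ℕ) : ℝ) ^ (2 / 3 : ℝ)) := by
    unfold tauS
    simp_rw [← ENNReal.tsum_mul_left]
    rw [ENNReal.tsum_comm]
    refine ENNReal.tsum_le_tsum fun c => ?_
    by_cases hR : Rigid c.rep.1
    · by_cases hj : E ≤ gE c
      · rw [if_pos ⟨hR, hj⟩]
        refine (TauTail_cls hE hs hj _).trans (le_of_eq (tsum_congr fun m => ?_))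
        congr 1
        by_cases hw : m + s ≤ gE c ∧ (gE c : ℝ) ≤ (m + s : ℕ) + ((m + s : ℕ) : ℝ) ^ (2 / 3 : ℝ)
        · rw [if_pos hw, if_pos ⟨hR, hw⟩]
        · rw [if_neg hw, if_neg fun h => hw h.2]
      · rw [if_neg fun h => hj h.2]
        exact bot_le
    · rw [if_neg fun h => hR h.1]
      exact bot_le
  refine step1.trans ?_
  have step2 : ∀ m : ℕ, ENNReal.ofReal (4 * ((m + s : ℕ) : ℝ) ^ (-(2 / 3) : ℝ)) *
        tauS x (fun c => m + s ≤ gE c ∧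
          (gE c : ℝ) ≤ (m + s : ℕ) + ((m + s : ℕ) : ℝ) ^ (2 / 3 : ℝ)) ≤
      ENNReal.ofReal (4 * C * ((m + s : ℕ) : ℝ) ^ (-(1 + 3 / 2) : ℝ)) := by
    intro m
    have hm1 : 1 ≤ m + s := by omega
    have hm0 : (0 : ℝ) < ((m + s : ℕ) : ℝ) := by exact_mod_cast hm1
    refine (mul_le_mul_right (hup (m + s) hm1) _).trans (le_of_eq ?_)
    rw [← ENNReal.ofReal_mul (by positivity)]
    congr 1
    have h2 : ((m + s : ℕ) : ℝ) ^ (-(1 + 3 / 2) : ℝ) =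
        ((m + s : ℕ) : ℝ) ^ (-(2 / 3) : ℝ) * ((m + s : ℕ) : ℝ) ^ (2 / 3 - 5 / 2 : ℝ) := by
      rw [← Real.rpow_add hm0]
      norm_num
    rw [h2]
    ring
  refine (ENNReal.tsum_le_tsum step2).trans ?_
  have hsum := (Pool.Agent.DiamP.summable_pow (γ := 3 / 2) (by norm_num) hs1).mul_left (4 * C)
  rw [← ENNReal.ofReal_tsum_of_nonneg (fun m => by positivity) hsum, tsum_mul_left]
  refine ENNReal.ofReal_le_ofReal ?_
  have h3 := Pool.Agent.DiamP.tsum_pow_le (γ := 3 / 2) (by norm_num) hs1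
  have h4 : (s : ℝ) ^ (-(3 / 2) : ℝ) ≤ 2 ^ (3 / 2 : ℝ) * (E : ℝ) ^ (-(3 / 2) : ℝ) := by
    have h5 := Real.rpow_le_rpow_of_nonpos (by positivity) hsE (show (-(3 / 2) : ℝ) ≤ 0 by norm_num)
    refine h5.trans (le_of_eq ?_)
    rw [Real.div_rpow hE0.le (by norm_num), Real.rpow_neg (by norm_num : (0 : ℝ) ≤ 2), div_inv_eq_mul,
      mul_comm]
  calc 4 * C * ∑' m : ℕ, ((m + s : ℕ) : ℝ) ^ (-(1 + 3 / 2) : ℝ)
      ≤ 4 * C * (Pool.Agent.DiamP.pc (3 / 2) * (s : ℝ) ^ (-(3 / 2) : ℝ)) :=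
        mul_le_mul_of_nonneg_left h3 (by positivity)
    _ ≤ 4 * C * (Pool.Agent.DiamP.pc (3 / 2) * (2 ^ (3 / 2 : ℝ) * (E : ℝ) ^ (-(3 / 2) : ℝ))) :=
        mul_le_mul_of_nonneg_left (mul_le_mul_of_nonneg_left h4 hpc.le) (by positivity)
    _ = _ := by ring

end Dia
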