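import Pool.Agent.DiaC.MapG
import Pool.Agent.DiaC.TauTail
import Pool.Agent.DiaC.RigTail
import Pool.Agent.DiaC.DiamB
import Pool.Agent.Dia.Crit
import Pool.Agent.Dia.RotF

/-!
# Module RigW: sums over the numbers `hP` at the critical point

`h_sum_le`: `h_le_g`, `g_sum`, termwise implication.
`hw F`: `F v e = ofReal (R0^v D0^e)`: the right side of `h_sum_le` is `tauS R0 Q` (`crit_point`: `ecr (vc R0) = D0`).
`hw_PL`: `PL_rl`, `rig_tail` (`R0 ≤ 1/10`).  `hw_tail`: `tau_tail` (`R0_range`).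
`hw_diam`: `Q c`: `gE c < E1 ∧ D1 ≤ gdm c` (`PD_gdm`); `gdm_le`: `D1 ≤ gE c + 1`; so `j = gE c` is between `D1 - 1` and `E1`, and
`D1 ≥ E1^(3/10) ≥ j^(3/10)`: `diam_huge` for every such `j` (`j ≥ j0` if `D1 ≥ d0 = j0 + 1`), `exp(-j^c0) ≤ exp(-(D1 - 1)^c0)`, at
most `E1` values of `j` (`tauS_fin`).
`hw_E`, `hw_S`: `hN_eq`, `h_le_g`, `RgE_gP`, `RgS_gP`.
-/

set_option linter.unusedSectionVars false

namespace Dia
open Finset PGr
open scoped ENNReal Classical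

theorem h_sum_le {P : PG2} (hP' : InvP P) (Q : GC → Prop)
    (hQ : ∀ c : GC, Rigid c.rep.1 → P _ (vG c.rep.1.aa c.rep.1.s) (vx c.rep.1.s (Sum.inr false))
      (vx c.rep.1.s (Sum.inr true)) → Q c) (F : ℕ → ℕ → ℝ≥0∞) :
    ∑' v : ℕ, ∑' e : ℕ, ENNReal.ofReal (hP P v e) * F v e ≤
      ∑' c : GC, if Rigid c.rep.1 ∧ Q c then F (nV c.rep.1.s - 2) (gE c) else 0 := by
  have h1 : ∑' v : ℕ, ∑' e : ℕ, ENNReal.ofReal (hP P v e) * F v e ≤
      ∑' v : ℕ, ∑' e : ℕ, ENNReal.ofReal (gP P v e) * F v e := by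
    refine ENNReal.tsum_le_tsum fun v => ENNReal.tsum_le_tsum fun e => ?_
    exact mul_le_mul_left (ENNReal.ofReal_le_ofReal (h_le_g hP' v e)) _
  refine h1.trans ((g_sum P F).symm.le.trans ?_)
  refine ENNReal.tsum_le_tsum fun c => ?_
  by_cases h : Rigid c.rep.1 ∧ P _ (vG c.rep.1.aa c.rep.1.s) (vx c.rep.1.s (Sum.inr false))
      (vx c.rep.1.s (Sum.inr true))
  · rw [if_pos h, if_pos ⟨h.1, hQ c h.1 h.2⟩]
    exact le_rfl
  · rw [if_neg h]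
    exact bot_le

/-- weight of a pair `(v, e)` -/
noncomputable def hw (v e : ℕ) : ℝ≥0∞ := ENNReal.ofReal (R0 ^ v * D0 ^ e)

private theorem RigW_R0 : 0 < R0 := by
  have := R0_range.1
  linarith

private theorem RigW_R1 : R0 ≤ 1 / 10 := by
  have := R0_range.2
  linarith

private theorem RigW_D0 : 0 ≤ D0 := by
  have := D0_range.1
  linarith

private theorem RigW_tau (Q : GC → Prop) :
    tauS R0 Q = ∑' c : GC, if Rigid c.rep.1 ∧ Q c then hw (nV c.rep.1.s - 2) (gE c) else 0 := by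
  unfold tauS hw
  rw [crit_point.2.2.2]

private theorem RigW_PGT : InvP PGT := fun _ _ _ _ _ _ _ _ => trivial

theorem hw_PL : ∃ ζ K : ℝ, 0 < ζ ∧ ζ < 1 ∧ 0 < K ∧ ∀ m : ℕ,
    ∑' v : ℕ, ∑' e : ℕ, ENNReal.ofReal (hP (PLm m) v e) * hw v e ≤
      ENNReal.ofReal (K * ζ ^ m) := by
  obtain ⟨ζ, K, h1, h2, h3, h4⟩ := rig_tail RigW_R0 RigW_R1
  refine ⟨ζ, K, h1, h2, h3, fun m => ?_⟩
  refine le_trans ?_ (h4 m)
  rw [RigW_tau]
  exact h_sum_le (invP_PLm m) (fun c => m + 1 ≤ c.rep.1.rl) (fun c hR h => PL_rl hR h) hw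

theorem hw_tail : ∃ K : ℝ, 0 < K ∧ ∀ E : ℕ, 1 ≤ E →
    ∑' v : ℕ, ∑' e : ℕ, ENNReal.ofReal (hN v e) * (if E ≤ e then hw v e else 0) ≤
      ENNReal.ofReal (K * (E : ℝ) ^ (-(3 / 2) : ℝ)) := by
  obtain ⟨K, h1, h2⟩ := tau_tail R0_range.1 R0_range.2
  refine ⟨K, h1, fun E hE => ?_⟩
  refine le_trans ?_ (h2 E hE)
  rw [RigW_tau]
  simp_rw [hN_eq]
  refine (h_sum_le RigW_PGT (fun _ => True) (fun _ _ _ => trivial)
    (fun v e => if E ≤ e then hw v e else 0)).trans (le_of_eq (tsum_congr fun c => ?_))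
  by_cases hR : Rigid c.rep.1
  · rw [if_pos ⟨hR, trivial⟩]
    by_cases h : E ≤ gE c
    · rw [if_pos h, if_pos ⟨hR, h⟩]
    · rw [if_neg h, if_neg fun h' => h h'.2]
  · rw [if_neg fun h' => hR h'.1, if_neg fun h' => hR h'.1]

theorem hw_diam : ∃ c0 : ℝ, 0 < c0 ∧ ∃ d0 : ℕ, ∀ D1 E1 : ℕ, d0 ≤ D1 →
    (E1 : ℝ) ≤ (D1 : ℝ) ^ (10 / 3 : ℝ) →
    ∑' v : ℕ, ∑' e : ℕ, ENNReal.ofReal (hP (PDm D1).two v e) * (if e < E1 then hw v e else 0) ≤
      ENNReal.ofReal (E1 * Real.exp (-((D1 : ℝ) - 1) ^ c0)) := by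
  obtain ⟨c0, hc0, j0, hj0⟩ := diam_huge RigW_R0 RigW_R1
  refine ⟨c0, hc0, j0 + 1, fun D1 E1 hD hE => ?_⟩
  have step1 : ∑' v : ℕ, ∑' e : ℕ, ENNReal.ofReal (hP (PDm D1).two v e) *
      (if e < E1 then hw v e else 0) ≤
      tauS R0 (fun c => gE c ∈ Finset.Ico (D1 - 1) E1 ∧
        ((gE c : ℕ) : ℝ) ^ (3 / 10 : ℝ) ≤ gdm c) := by
    rw [RigW_tau]
    refine (h_sum_le (invP_PDm D1) (fun c => D1 ≤ gdm c) (fun c _ h => PD_gdm h)
      (fun v e => if e < E1 then hw v e else 0)).trans (ENNReal.tsum_le_tsum fun c => ?_)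
    by_cases hR : Rigid c.rep.1 ∧ D1 ≤ gdm c
    · rw [if_pos hR]
      by_cases h : gE c < E1
      · rw [if_pos h, if_pos]
        refine ⟨hR.1, ?_, ?_⟩
        · rw [Finset.mem_Ico]
          have := gdm_le_gE c
          have := hR.2
          omega
        · have h1 : (gE c : ℝ) ≤ (D1 : ℝ) ^ (10 / 3 : ℝ) := by
            have : (gE c : ℝ) ≤ E1 := by exact_mod_cast h.le
            exact this.trans hE
          have h2 := Real.rpow_le_rpow (Nat.cast_nonneg _) h1 (show (0 : ℝ) ≤ 3 / 10 by norm_num)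
          rw [← Real.rpow_mul (Nat.cast_nonneg _)] at h2
          norm_num at h2
          have h3 : (D1 : ℝ) ≤ gdm c := by exact_mod_cast hR.2
          exact h2.trans h3
      · rw [if_neg h]
        exact bot_le
    · rw [if_neg hR]
      exact bot_le
  refine step1.trans ?_
  rw [tauS_fin]
  have step2 : ∀ j ∈ Finset.Ico (D1 - 1) E1,
      tauS R0 (fun c => gE c = j ∧ ((gE c : ℕ) : ℝ) ^ (3 / 10 : ℝ) ≤ gdm c) ≤
        ENNReal.ofReal (Real.exp (-((D1 : ℝ) - 1) ^ c0)) := by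
    intro j hj
    rw [Finset.mem_Ico] at hj
    have h1 : tauS R0 (fun c => gE c = j ∧ ((gE c : ℕ) : ℝ) ^ (3 / 10 : ℝ) ≤ gdm c) ≤
        tauS R0 (fun c => gE c = j ∧ (j : ℝ) ^ (3 / 10 : ℝ) ≤ gdm c) := by
      refine tauS_mono fun c _ h => ⟨h.1, ?_⟩
      have h2 := h.2
      rw [h.1] at h2
      exact h2
    refine h1.trans ((hj0 j (by omega)).trans (ENNReal.ofReal_le_ofReal ?_))
    rw [Real.exp_le_exp]
    have h3 : (0 : ℝ) ≤ (D1 : ℝ) - 1 := by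
      have : (1 : ℝ) ≤ D1 := by
        have : 1 ≤ D1 := by omega
        exact_mod_cast this
      linarith
    have h4 : (D1 : ℝ) - 1 ≤ j := by
      have : D1 ≤ j + 1 := by omega
      have : (D1 : ℝ) ≤ j + 1 := by exact_mod_cast this
      linarith
    have h5 := Real.rpow_le_rpow h3 h4 hc0.le
    linarith
  refine (Finset.sum_le_sum step2).trans ?_
  rw [Finset.sum_const, nsmul_eq_mul, Nat.card_Ico, ENNReal.ofReal_mul (Nat.cast_nonneg _),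
    ENNReal.ofReal_natCast]
  refine mul_le_mul_left ?_ _
  exact_mod_cast Nat.sub_le _ _

theorem hw_E : ∑' v : ℕ, ∑' e : ℕ, ENNReal.ofReal (hN v e) *
      ENNReal.ofReal (R0 ^ v * (e * D0 ^ (e - 1))) ≤
    RgE (ENNReal.ofReal R0) (ENNReal.ofReal D0) := by
  rw [RgE_gP]
  refine ENNReal.tsum_le_tsum fun v => ENNReal.tsum_le_tsum fun e => ?_
  rw [hN_eq, ENNReal.ofReal_mul (pow_nonneg RigW_R0.le _), ENNReal.ofReal_mul (Nat.cast_nonneg _),
    ENNReal.ofReal_pow RigW_R0.le, ENNReal.ofReal_pow RigW_D0, ENNReal.ofReal_natCast]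
  exact mul_le_mul_left (ENNReal.ofReal_le_ofReal (h_le_g RigW_PGT v e)) _

theorem hw_S : ∑' v : ℕ, ∑' e : ℕ, ENNReal.ofReal (hN v e) *
      ENNReal.ofReal (v * R0 ^ (v - 1) * D0 ^ e) ≤
    RgS (ENNReal.ofReal R0) (ENNReal.ofReal D0) := by
  rw [RgS_gP]
  refine ENNReal.tsum_le_tsum fun v => ENNReal.tsum_le_tsum fun e => ?_
  rw [hN_eq, ENNReal.ofReal_mul (mul_nonneg (Nat.cast_nonneg _) (pow_nonneg RigW_R0.le _)),
    ENNReal.ofReal_mul (Nat.cast_nonneg _),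
    ENNReal.ofReal_pow RigW_R0.le, ENNReal.ofReal_pow RigW_D0, ENNReal.ofReal_natCast]
  exact mul_le_mul_left (ENNReal.ofReal_le_ofReal (h_le_g RigW_PGT v e)) _

end Dia
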