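import Pool.Agent.DiaC.SumL
import Pool.Agent.DiaC.ExpB
import Pool.Agent.DiaC.RigW

/-!
# Module ExpH: the rigid part of the exponential moments

`dAg θ n` agrees with `dT θ` below `n` and with `dN ⊤` from `n` on; its weighted sum is `D0 + A`, `A = aT θ n`.
For `k ≤ n` `HcT θ k ≤ ∑ v, ∑ e, ∑ m ∈ range (e + 1), hP (PLm m) v e * (cvL (r^v, dN^(e-m), dAg^m) k - cvL (r^v, dN^e) k)`
(`hP_zero`: `v ≥ 2`; `cvL_congr`).  Multiply by `rho^k` (`wt_cvL`), sum over `k < n + 1`: every difference is nonnegative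
(`cvL_mono'`), its sum over all `k` is `R0^v D0^(e-m) ((D0 + A)^m - D0^m) = R0^v D0^e ((1 + A/D0)^m - 1)` (`hasSum_cvL`).
Sum over `v, e, m` in `[0, ∞]`.
`PL_series`: for `0 ≤ y ≤ y0`: `(1 + y)^m - 1 ≤ m y + m^2 y^2 (1 + y)^m` (induction or binomial), `∑_m m t_m ≤ D0 RgE`
(`∑_{m ≤ e} m hP (PLm m) v e ≤ e hN v e` by `sum_PL_le`, `hw_E`; the sum over `m ∈ range (e + 1)`), and `t_m ≤ K ζ^m`
(`hw_PL`), so `∑ m^2 (1 + y)^m t_m ≤ K ∑ m^2 ((1 + y0) ζ)^m < ∞` if `(1 + y0) ζ < 1`.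
-/

set_option linter.unusedSectionVars false

namespace Dia
open Finset PGr Pool.Agent.DiamP
open scoped ENNReal

/-- truncated increment of the sequence `d` -/
noncomputable def aT (θ : ℝ) (n : ℕ) : ℝ :=
  ∑ k ∈ range n, (wt (dT θ) rho k - wt (dN ⊤) rho k)

private theorem ExpH_rho : 0 ≤ rho := le_trans (by norm_num) rho_ge

private theorem ExpH_R0 : 0 ≤ R0 := le_trans (by norm_num) R0_range.1

private theorem ExpH_D0 : 0 < D0 := lt_of_lt_of_le one_pos D0_range.1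

private theorem ExpH_wt_nn {f : ℕ → ℝ} (h : ∀ k, 0 ≤ f k) (k : ℕ) : 0 ≤ wt f rho k :=
  mul_nonneg (h k) (pow_nonneg ExpH_rho k)

private theorem ExpH_dN (k : ℕ) : 0 ≤ dN ⊤ k := (dN_pos k).le

private theorem ExpH_rN (k : ℕ) : 0 ≤ rN ⊤ k := by
  rcases Nat.eq_zero_or_pos k with h | h
  · rw [h, rN_zero]
  · exact (rN_pos k h).le

theorem aT_nonneg {θ : ℝ} (hθ : 0 ≤ θ) (n : ℕ) : 0 ≤ aT θ n := by
  refine sum_nonneg fun k _ => ?_
  have h := dT_ge hθ k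
  unfold wt
  rw [← sub_mul]
  exact mul_nonneg (sub_nonneg.2 h) (pow_nonneg ExpH_rho k)

private theorem ExpH_pow1 {y : ℝ} (hy : 0 ≤ y) (m : ℕ) : (1 + y) ^ m - 1 ≤ m * y * (1 + y) ^ m := by
  induction m with
  | zero => simp
  | succ m ih =>
    have h1 : 1 ≤ (1 + y) ^ m := one_le_pow₀ (by linarith)
    have h2 : (0 : ℝ) ≤ m * y := by positivity
    rw [pow_succ]
    push_cast
    have h3 : 0 ≤ (m * y * (1 + y) ^ m - ((1 + y) ^ m - 1)) * (1 + y) :=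
      mul_nonneg (by linarith) (by linarith)
    have h4 : 0 ≤ y * (1 + y) ^ m * y := by positivity
    nlinarith [mul_nonneg hy (sub_nonneg.2 h1)]

private theorem ExpH_pow2 {y : ℝ} (hy : 0 ≤ y) (m : ℕ) :
    (1 + y) ^ m - 1 ≤ m * y + m ^ 2 * y ^ 2 * (1 + y) ^ m := by
  induction m with
  | zero => simp
  | succ m ih =>
    have h1 : 1 ≤ (1 + y) ^ m := one_le_pow₀ (by linarith)
    have h2 := ExpH_pow1 hy m
    have h0 : (0 : ℝ) ≤ (1 + y) ^ m := by positivity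
    have h5 : (0 : ℝ) ≤ m := Nat.cast_nonneg m
    rw [pow_succ]
    push_cast
    have h3 : y * ((1 + y) ^ m - 1) ≤ y * (m * y * (1 + y) ^ m) := mul_le_mul_of_nonneg_left h2 hy
    have h4 : (1 + y) ^ m * (1 + y) - 1 ≤
        m * y + m ^ 2 * y ^ 2 * (1 + y) ^ m + y + y * (m * y * (1 + y) ^ m) := by nlinarith
    refine h4.trans ?_
    have h6 : 0 ≤ y ^ 2 * (1 + y) ^ m := by positivity
    have h7 : 0 ≤ (m : ℝ) * (y ^ 2 * (1 + y) ^ m) := by positivity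
    have h8 : 0 ≤ ((m : ℝ) + 1) ^ 2 * (y ^ 2 * (1 + y) ^ m) * y := by positivity
    nlinarith

theorem PL_series : ∃ y0 K2 : ℝ, 0 < y0 ∧ 0 < K2 ∧ ∀ y : ℝ, 0 ≤ y → y ≤ y0 →
    ∑' v : ℕ, ∑' e : ℕ, ∑ m ∈ range (e + 1),
      ENNReal.ofReal (hP (PLm m) v e) * hw v e * ENNReal.ofReal ((1 + y) ^ m - 1) ≤
    ENNReal.ofReal (D0 * (RgE (ENNReal.ofReal R0) (ENNReal.ofReal D0)).toReal * y + K2 * y ^ 2) := by
  obtain ⟨ζ, K, hζ0, hζ1, hK, hζ⟩ := hw_PL
  have hy0 : 0 < (1 - ζ) / (2 * ζ) := div_pos (by linarith) (by linarith)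
  set q : ℝ := (1 + (1 - ζ) / (2 * ζ)) * ζ with hq
  have hq' : q = (1 + ζ) / 2 := by
    rw [hq]
    field_simp
    ring
  have hq0 : 0 < q := by rw [hq']; linarith
  have hq1 : q < 1 := by rw [hq']; linarith
  have hsum : Summable fun m : ℕ => (m : ℝ) ^ 2 * q ^ m :=
    summable_pow_mul_geometric_of_norm_lt_one 2 (by
      rw [Real.norm_eq_abs, abs_of_pos hq0]; exact hq1)
  set S : ℝ := ∑' m : ℕ, (m : ℝ) ^ 2 * q ^ m with hS
  have hS0 : 0 ≤ S := tsum_nonneg fun m => by positivity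
  refine ⟨(1 - ζ) / (2 * ζ), K * S + 1, hy0, by positivity, fun y hy hyy => ?_⟩
  have hfin := contr_num.2.2.1
  have hRg0 : 0 ≤ (RgE (ENNReal.ofReal R0) (ENNReal.ofReal D0)).toReal := ENNReal.toReal_nonneg
  have hD := ExpH_D0
  -- the two terms
  have hA : ∀ v e m : ℕ, ENNReal.ofReal (hP (PLm m) v e) * hw v e * ENNReal.ofReal ((1 + y) ^ m - 1) ≤
      ENNReal.ofReal (hP (PLm m) v e) * hw v e * ENNReal.ofReal (m * y) +
      ENNReal.ofReal (hP (PLm m) v e) * hw v e * ENNReal.ofReal (m ^ 2 * y ^ 2 * (1 + y) ^ m) := by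
    intro v e m
    rw [← mul_add]
    refine mul_le_mul' le_rfl ?_
    rw [← ENNReal.ofReal_add (by positivity) (by positivity)]
    exact ENNReal.ofReal_le_ofReal (ExpH_pow2 hy m)
  have h1 : ∀ v e : ℕ, ∑ m ∈ range (e + 1),
      ENNReal.ofReal (hP (PLm m) v e) * hw v e * ENNReal.ofReal (m * y) ≤
      ENNReal.ofReal (hN v e) * ENNReal.ofReal (R0 ^ v * (e * D0 ^ (e - 1))) *
        ENNReal.ofReal (D0 * y) := by
    intro v e
    have h2 : ∀ m ∈ range (e + 1), ENNReal.ofReal (hP (PLm m) v e) * hw v e * ENNReal.ofReal (m * y) ≤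
        ENNReal.ofReal (hP (PLm m) v e) * (hw v e * ENNReal.ofReal (e * y)) := by
      intro m hm
      rw [mul_assoc]
      refine mul_le_mul' le_rfl (mul_le_mul' le_rfl (ENNReal.ofReal_le_ofReal ?_))
      have : (m : ℝ) ≤ e := by exact_mod_cast Nat.lt_succ_iff.1 (mem_range.1 hm)
      exact mul_le_mul_of_nonneg_right this hy
    refine (sum_le_sum h2).trans ?_
    rw [← sum_mul, ← ENNReal.ofReal_sum_of_nonneg fun m _ => hP_nonneg _ _ _]
    refine (mul_le_mul' (ENNReal.ofReal_le_ofReal (sum_PL_le v e (e + 1))) le_rfl).trans ?_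
    rw [mul_assoc]
    refine mul_le_mul' le_rfl (le_of_eq ?_)
    unfold hw
    rw [← ENNReal.ofReal_mul (mul_nonneg (pow_nonneg ExpH_R0 _) (pow_nonneg hD.le _)),
      ← ENNReal.ofReal_mul (mul_nonneg (pow_nonneg ExpH_R0 _)
        (mul_nonneg (Nat.cast_nonneg _) (pow_nonneg hD.le _)))]
    congr 1
    rcases Nat.eq_zero_or_pos e with he | he
    · subst he
      simp
    · obtain ⟨e', rfl⟩ : ∃ e', e = e' + 1 := ⟨e - 1, by omega⟩
      rw [Nat.add_sub_cancel, pow_succ]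
      ring
  have h3 : ∑' v : ℕ, ∑' e : ℕ, ∑ m ∈ range (e + 1),
      ENNReal.ofReal (hP (PLm m) v e) * hw v e * ENNReal.ofReal (m * y) ≤
      ENNReal.ofReal (D0 * (RgE (ENNReal.ofReal R0) (ENNReal.ofReal D0)).toReal * y) := by
    refine (ENNReal.tsum_le_tsum fun v => ENNReal.tsum_le_tsum fun e => h1 v e).trans ?_
    simp only [ENNReal.tsum_mul_right]
    refine (mul_le_mul' hw_E le_rfl).trans (le_of_eq ?_)
    rw [← ENNReal.ofReal_toReal hfin, ← ENNReal.ofReal_mul hRg0]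
    · congr 1
      rw [ENNReal.toReal_ofReal hRg0]
      ring
  have h4 : ∑' v : ℕ, ∑' e : ℕ, ∑ m ∈ range (e + 1),
      ENNReal.ofReal (hP (PLm m) v e) * hw v e * ENNReal.ofReal (m ^ 2 * y ^ 2 * (1 + y) ^ m) ≤
      ENNReal.ofReal ((K * S + 1) * y ^ 2) := by
    have h5 : ∑' v : ℕ, ∑' e : ℕ, ∑ m ∈ range (e + 1),
        ENNReal.ofReal (hP (PLm m) v e) * hw v e * ENNReal.ofReal (m ^ 2 * y ^ 2 * (1 + y) ^ m) ≤
        ∑' v : ℕ, ∑' e : ℕ, ∑' m : ℕ,
        ENNReal.ofReal (hP (PLm m) v e) * hw v e * ENNReal.ofReal (m ^ 2 * y ^ 2 * (1 + y) ^ m) :=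
      ENNReal.tsum_le_tsum fun v => ENNReal.tsum_le_tsum fun e => ENNReal.sum_le_tsum _
    refine h5.trans ?_
    have h6 : ∑' v : ℕ, ∑' e : ℕ, ∑' m : ℕ,
        ENNReal.ofReal (hP (PLm m) v e) * hw v e * ENNReal.ofReal (m ^ 2 * y ^ 2 * (1 + y) ^ m) =
        ∑' m : ℕ, (∑' v : ℕ, ∑' e : ℕ, ENNReal.ofReal (hP (PLm m) v e) * hw v e) *
          ENNReal.ofReal (m ^ 2 * y ^ 2 * (1 + y) ^ m) := by
      have h7 : ∀ v : ℕ, ∑' e : ℕ, ∑' m : ℕ,
          ENNReal.ofReal (hP (PLm m) v e) * hw v e * ENNReal.ofReal (m ^ 2 * y ^ 2 * (1 + y) ^ m) =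
          ∑' m : ℕ, ∑' e : ℕ, ENNReal.ofReal (hP (PLm m) v e) * hw v e *
            ENNReal.ofReal (m ^ 2 * y ^ 2 * (1 + y) ^ m) := fun v => ENNReal.tsum_comm
      simp only [h7]
      rw [ENNReal.tsum_comm]
      simp only [ENNReal.tsum_mul_right]
    rw [h6]
    have h8 : ∀ m : ℕ, (∑' v : ℕ, ∑' e : ℕ, ENNReal.ofReal (hP (PLm m) v e) * hw v e) *
          ENNReal.ofReal (m ^ 2 * y ^ 2 * (1 + y) ^ m) ≤
        ENNReal.ofReal (K * y ^ 2 * (m ^ 2 * q ^ m)) := by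
      intro m
      refine (mul_le_mul' (hζ m) le_rfl).trans ?_
      rw [← ENNReal.ofReal_mul (by positivity)]
      refine ENNReal.ofReal_le_ofReal ?_
      have h9 : ζ ^ m * (1 + y) ^ m ≤ q ^ m := by
        rw [← mul_pow, hq, mul_comm ζ (1 + y)]
        refine pow_le_pow_left₀ (by positivity) ?_ m
        exact mul_le_mul_of_nonneg_right (by linarith) hζ0.le
      calc K * ζ ^ m * (m ^ 2 * y ^ 2 * (1 + y) ^ m)
          = K * y ^ 2 * m ^ 2 * (ζ ^ m * (1 + y) ^ m) := by ring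
        _ ≤ K * y ^ 2 * m ^ 2 * q ^ m := mul_le_mul_of_nonneg_left h9 (by positivity)
        _ = K * y ^ 2 * (m ^ 2 * q ^ m) := by ring
    refine (ENNReal.tsum_le_tsum h8).trans ?_
    rw [← ENNReal.ofReal_tsum_of_nonneg (fun m => by positivity) (hsum.mul_left _), tsum_mul_left,
      ← hS]
    refine ENNReal.ofReal_le_ofReal ?_
    nlinarith [sq_nonneg y]
  calc ∑' v : ℕ, ∑' e : ℕ, ∑ m ∈ range (e + 1),
      ENNReal.ofReal (hP (PLm m) v e) * hw v e * ENNReal.ofReal ((1 + y) ^ m - 1)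
      ≤ ∑' v : ℕ, ∑' e : ℕ, ((∑ m ∈ range (e + 1),
          ENNReal.ofReal (hP (PLm m) v e) * hw v e * ENNReal.ofReal (m * y)) +
        ∑ m ∈ range (e + 1),
          ENNReal.ofReal (hP (PLm m) v e) * hw v e * ENNReal.ofReal (m ^ 2 * y ^ 2 * (1 + y) ^ m)) := by
        refine ENNReal.tsum_le_tsum fun v => ENNReal.tsum_le_tsum fun e => ?_
        rw [← sum_add_distrib]
        exact sum_le_sum fun m _ => hA v e m
    _ = (∑' v : ℕ, ∑' e : ℕ, ∑ m ∈ range (e + 1),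
          ENNReal.ofReal (hP (PLm m) v e) * hw v e * ENNReal.ofReal (m * y)) +
        ∑' v : ℕ, ∑' e : ℕ, ∑ m ∈ range (e + 1),
          ENNReal.ofReal (hP (PLm m) v e) * hw v e *
            ENNReal.ofReal (m ^ 2 * y ^ 2 * (1 + y) ^ m) := by
        simp only [ENNReal.tsum_add]
    _ ≤ ENNReal.ofReal (D0 * (RgE (ENNReal.ofReal R0) (ENNReal.ofReal D0)).toReal * y) +
        ENNReal.ofReal ((K * S + 1) * y ^ 2) := add_le_add h3 h4
    _ = _ := by
        rw [← ENNReal.ofReal_add (by positivity) (by positivity)]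

/-- the mixed sequence -/
private noncomputable def ExpH_dA (θ : ℝ) (n k : ℕ) : ℝ := if k < n then dT θ k else dN ⊤ k

private theorem ExpH_dA_ge {θ : ℝ} (hθ : 0 ≤ θ) (n k : ℕ) : dN ⊤ k ≤ ExpH_dA θ n k := by
  unfold ExpH_dA
  split_ifs
  · exact dT_ge hθ k
  · exact le_rfl

private theorem ExpH_dA_sum (θ : ℝ) (n : ℕ) :
    HasSum (wt (ExpH_dA θ n) rho) (D0 + aT θ n) := by
  have h1 : HasSum (wt (dN ⊤) rho) D0 := sum_d.hasSum
  have h2 : HasSum (fun k => if k < n then wt (dT θ) rho k - wt (dN ⊤) rho k else 0) (aT θ n) := by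
    have h3 : HasSum (fun k => if k < n then wt (dT θ) rho k - wt (dN ⊤) rho k else 0)
        (∑ k ∈ range n, (if k < n then wt (dT θ) rho k - wt (dN ⊤) rho k else 0)) :=
      hasSum_sum_of_ne_finset_zero fun k hk => by
        rw [mem_range] at hk
        rw [if_neg hk]
    have h4 : ∑ k ∈ range n, (if k < n then wt (dT θ) rho k - wt (dN ⊤) rho k else 0) = aT θ n := by
      unfold aT
      refine sum_congr rfl fun k hk => ?_
      rw [if_pos (mem_range.1 hk)]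
    rw [h4] at h3
    exact h3
  have h5 := h1.add h2
  have h6 : wt (ExpH_dA θ n) rho = fun k =>
      wt (dN ⊤) rho k + (if k < n then wt (dT θ) rho k - wt (dN ⊤) rho k else 0) := by
    funext k
    unfold wt ExpH_dA
    split_ifs <;> ring
  rw [h6]
  exact h5

/-- the differences -/
private noncomputable def ExpH_df (θ : ℝ) (n v e m k : ℕ) : ℝ :=
  cvL (List.replicate v (wt (rN ⊤) rho) ++ (List.replicate (e - m) (wt (dN ⊤) rho) ++
    List.replicate m (wt (ExpH_dA θ n) rho))) k -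
  cvL (List.replicate v (wt (rN ⊤) rho) ++ List.replicate e (wt (dN ⊤) rho)) k

private theorem ExpH_rep {α β : Type*} {R : α → β → Prop} {a : α} {b : β} (h : R a b) (n : ℕ) :
    List.Forall₂ R (List.replicate n a) (List.replicate n b) := by
  induction n with
  | zero => exact List.Forall₂.nil
  | succ n ih => exact List.Forall₂.cons h ih

private theorem ExpH_app {α β : Type*} {R : α → β → Prop} {l1 l2 : List α} {l1' l2' : List β}
    (h1 : List.Forall₂ R l1 l1') (h2 : List.Forall₂ R l2 l2') :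
    List.Forall₂ R (l1 ++ l2) (l1' ++ l2') := by
  induction h1 with
  | nil => exact h2
  | cons h _ ih => exact List.Forall₂.cons h ih

private theorem ExpH_df_nn {θ : ℝ} (hθ : 0 ≤ θ) (n v : ℕ) {e m : ℕ} (hm : m ≤ e) (k : ℕ) :
    0 ≤ ExpH_df θ n v e m k := by
  unfold ExpH_df
  rw [sub_nonneg]
  have h1 : List.replicate e (wt (dN ⊤) rho) =
      List.replicate (e - m) (wt (dN ⊤) rho) ++ List.replicate m (wt (dN ⊤) rho) := by
    rw [List.replicate_append_replicate, Nat.sub_add_cancel hm]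
  rw [h1]
  refine cvL_mono' ?_ k
  refine ExpH_app (ExpH_rep (fun j => ⟨ExpH_wt_nn ExpH_rN j, le_rfl⟩) v)
    (ExpH_app (ExpH_rep (fun j => ⟨ExpH_wt_nn ExpH_dN j, le_rfl⟩) _)
      (ExpH_rep (fun j => ⟨ExpH_wt_nn ExpH_dN j, ?_⟩) m))
  exact mul_le_mul_of_nonneg_right (ExpH_dA_ge hθ n j) (pow_nonneg ExpH_rho j)

private theorem ExpH_dA_nn {θ : ℝ} (hθ : 0 ≤ θ) (n k : ℕ) : 0 ≤ ExpH_dA θ n k :=
  (ExpH_dN k).trans (ExpH_dA_ge hθ n k)

private theorem ExpH_df_sum {θ : ℝ} (hθ : 0 ≤ θ) (n v : ℕ) {e m : ℕ} (hm : m ≤ e) :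
    HasSum (ExpH_df θ n v e m) (R0 ^ v * D0 ^ e * ((1 + aT θ n / D0) ^ m - 1)) := by
  have hr : (∀ k, 0 ≤ wt (rN ⊤) rho k) ∧ Summable (wt (rN ⊤) rho) := ⟨ExpH_wt_nn ExpH_rN, sum_r⟩
  have hd : (∀ k, 0 ≤ wt (dN ⊤) rho k) ∧ Summable (wt (dN ⊤) rho) := ⟨ExpH_wt_nn ExpH_dN, sum_d⟩
  have ha : (∀ k, 0 ≤ wt (ExpH_dA θ n) rho k) ∧ Summable (wt (ExpH_dA θ n) rho) :=
    ⟨ExpH_wt_nn (ExpH_dA_nn hθ n), (ExpH_dA_sum θ n).summable⟩
  have h1 := hasSum_cvL (l := List.replicate v (wt (rN ⊤) rho) ++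
    (List.replicate (e - m) (wt (dN ⊤) rho) ++ List.replicate m (wt (ExpH_dA θ n) rho))) (by
      intro f hf
      simp only [List.mem_append, List.mem_replicate] at hf
      rcases hf with ⟨-, rfl⟩ | ⟨-, rfl⟩ | ⟨-, rfl⟩
      · exact hr
      · exact hd
      · exact ha)
  have h2 := hasSum_cvL (l := List.replicate v (wt (rN ⊤) rho) ++
    List.replicate e (wt (dN ⊤) rho)) (by
      intro f hf
      simp only [List.mem_append, List.mem_replicate] at hf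
      rcases hf with ⟨-, rfl⟩ | ⟨-, rfl⟩
      · exact hr
      · exact hd)
  have h3 := h1.sub h2
  simp only [List.map_append, List.map_replicate, List.prod_append, List.prod_replicate,
    (ExpH_dA_sum θ n).tsum_eq] at h3
  have hD := ExpH_D0
  have h4 : (∑' k, wt (rN ⊤) rho k) ^ v * ((∑' k, wt (dN ⊤) rho k) ^ (e - m) *
      (D0 + aT θ n) ^ m) - (∑' k, wt (rN ⊤) rho k) ^ v * (∑' k, wt (dN ⊤) rho k) ^ e =
      R0 ^ v * D0 ^ e * ((1 + aT θ n / D0) ^ m - 1) := by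
    change R0 ^ v * (D0 ^ (e - m) * (D0 + aT θ n) ^ m) - R0 ^ v * D0 ^ e = _
    have h5 : D0 + aT θ n = D0 * (1 + aT θ n / D0) := by
      field_simp
    have h6 : D0 ^ e = D0 ^ (e - m) * D0 ^ m := by
      rw [← pow_add, Nat.sub_add_cancel hm]
    rw [h5, mul_pow, h6]
    ring
  rw [h4] at h3
  exact h3

private theorem ExpH_wt_eq (l : List (ℕ → ℝ)) (k : ℕ) :
    cvL l k * rho ^ k = cvL (l.map fun f => wt f rho) k := by
  rw [wt_cvL]
  rfl

private theorem ExpH_term (θ : ℝ) {n k : ℕ} (hk : k ≤ n) (v e m : ℕ) :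
    hP (PLm m) v e *
    (cvL (List.replicate v (rN ⊤) ++ (List.replicate (e - m) (dN ⊤) ++ List.replicate m (dT θ))) k -
      cvL (List.replicate v (rN ⊤) ++ List.replicate e (dN ⊤)) k) * rho ^ k =
    hP (PLm m) v e * ExpH_df θ n v e m k := by
  by_cases h : hP (PLm m) v e = 0
  · rw [h]
    simp
  · have hv := (hP_zero (invP_PLm m) h).1
    have h1 := cvL_congr (r := rN ⊤) (rN_zero ⊤) (v := v) (by omega) (n := n)
      (l := List.replicate (e - m) (dN ⊤) ++ List.replicate m (dT θ))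
      (l' := List.replicate (e - m) (dN ⊤) ++ List.replicate m (ExpH_dA θ n)) (by
        refine ExpH_app (ExpH_rep (fun j _ => rfl) _) (ExpH_rep (fun j hj => ?_) _)
        unfold ExpH_dA
        rw [if_pos hj]) k hk
    rw [h1, mul_assoc, sub_mul, ExpH_wt_eq, ExpH_wt_eq]
    unfold ExpH_df
    simp only [List.map_append, List.map_replicate]

private theorem ExpH_HcT {θ : ℝ} (hθ : 0 ≤ θ) {n k : ℕ} (hk : k ≤ n) :
    ENNReal.ofReal (wt (HcT θ) rho k) ≤ ∑' v : ℕ, ∑' e : ℕ, ∑ m ∈ range (e + 1),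
      ENNReal.ofReal (hP (PLm m) v e) * ENNReal.ofReal (ExpH_df θ n v e m k) := by
  have h1 : wt (HcT θ) rho k = ∑ v ∈ range (k + 1), ∑ e ∈ range ((k + 2) ^ 2),
      ∑ m ∈ range (e + 1), hP (PLm m) v e * ExpH_df θ n v e m k := by
    unfold wt HcT
    simp only [sum_mul]
    exact sum_congr rfl fun v _ => sum_congr rfl fun e _ => sum_congr rfl fun m _ =>
      ExpH_term θ hk v e m
  have h0 : ∀ v e m : ℕ, m ∈ range (e + 1) → 0 ≤ hP (PLm m) v e * ExpH_df θ n v e m k :=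
    fun v e m hm => mul_nonneg (hP_nonneg _ _ _)
      (ExpH_df_nn hθ n v (Nat.lt_succ_iff.1 (mem_range.1 hm)) k)
  rw [h1, ENNReal.ofReal_sum_of_nonneg (fun v _ => sum_nonneg fun e _ => sum_nonneg (h0 v e))]
  refine (sum_le_sum fun v _ => ?_).trans (ENNReal.sum_le_tsum _)
  rw [ENNReal.ofReal_sum_of_nonneg (fun e _ => sum_nonneg (h0 v e))]
  refine (sum_le_sum fun e _ => ?_).trans (ENNReal.sum_le_tsum _)
  rw [ENNReal.ofReal_sum_of_nonneg (h0 v e)]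
  exact sum_le_sum fun m _ => (ENNReal.ofReal_mul (hP_nonneg _ _ _)).le

theorem HcT_sum {θ : ℝ} (hθ : 0 ≤ θ) (n : ℕ) :
    ∑ k ∈ range (n + 1), ENNReal.ofReal (wt (HcT θ) rho k) ≤
      ∑' v : ℕ, ∑' e : ℕ, ∑ m ∈ range (e + 1),
        ENNReal.ofReal (hP (PLm m) v e) * hw v e *
          ENNReal.ofReal ((1 + aT θ n / D0) ^ m - 1) := by
  refine (sum_le_sum fun k hk => ExpH_HcT hθ (Nat.lt_succ_iff.1 (mem_range.1 hk))).trans ?_
  rw [← Summable.tsum_finsetSum fun _ _ => ENNReal.summable]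
  refine ENNReal.tsum_le_tsum fun v => ?_
  rw [← Summable.tsum_finsetSum fun _ _ => ENNReal.summable]
  refine ENNReal.tsum_le_tsum fun e => ?_
  rw [sum_comm]
  refine sum_le_sum fun m hm => ?_
  have hm' : m ≤ e := Nat.lt_succ_iff.1 (mem_range.1 hm)
  rw [← mul_sum, mul_assoc]
  refine mul_le_mul' le_rfl ?_
  have h1 := ExpH_df_sum hθ n v hm'
  have h2 : ∑ k ∈ range (n + 1), ExpH_df θ n v e m k ≤
      R0 ^ v * D0 ^ e * ((1 + aT θ n / D0) ^ m - 1) :=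
    sum_le_hasSum _ (fun k _ => ExpH_df_nn hθ n v hm' k) h1
  rw [← ENNReal.ofReal_sum_of_nonneg fun k _ => ExpH_df_nn hθ n v hm' k]
  unfold hw
  rw [← ENNReal.ofReal_mul (mul_nonneg (pow_nonneg ExpH_R0 _) (pow_nonneg ExpH_D0.le _))]
  exact ENNReal.ofReal_le_ofReal h2

end Dia
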