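import Pool.Agent.DiaC.ExpM

/-!
# Module FarS: recursive inequalities for the weights of the graphs with far vertices

All sums in `[0, ∞]`: `fR L = enS (wt (rF L) rho)` etc.  `wt_cv`, `enS_cv`, `enS_cvL` (all sequences are nonnegative),
`enS (wt (rN ⊤) rho) = ofReal R0` (`enS_sum`, `sum_r`), the same for `dN`, `qN` (`sum_q`).

`fR_le`: `rF L = sh (rFE L)`, `rFE L ≤ cv (pF L) (rE ⊤)` (`r_far`), `sh (cv f g) = cv f (sh g)`, `rN ⊤ = sh (rE ⊤)`.
`fP_le`: `p_far`.  `fQ_le`: `q_far`.  `fD_le`: `dF_le`.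
`fB_le`: `bF L k` = with separating vertex + without (compare `bN_split`); `s_far`, `rig_far`; monotonicity in `L` of
`fR`, `fD` (`l < m`).  `enS (wt (HcF ..) rho)`: exchange the sums: at most the sum over all `v`, `e` of
 `hN v e (v R0^(v-1) D0^e) fR (L - m)`, `hN v e (e R0^v D0^(e-1)) fD (L - m)` (`hw_S`, `hw_E`), for `e ≥ E1`: `hw_tail`; for `e < E1`:
`hw_diam` and `hN v e (e R0^v D0^(e-1)) fPd l` (`hw_E`).  (`v - 1`, `e - 1` for `v = 0`, `e = 0`: the factor `v`, `e` is `0`.)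
-/

set_option linter.unusedSectionVars false

namespace Dia
open Finset PGr Pool.Agent.DiamP
open scoped ENNReal

noncomputable def fR (L : ℕ) : ℝ≥0∞ := enS (wt (rF L) rho)
noncomputable def fP (L : ℕ) : ℝ≥0∞ := enS (wt (pF L) rho)
noncomputable def fQ (L : ℕ) : ℝ≥0∞ := enS (wt (qF L) rho)
noncomputable def fD (L : ℕ) : ℝ≥0∞ := enS (wt (dF L) rho)
noncomputable def fB (L : ℕ) : ℝ≥0∞ := enS (wt (bF L) rho)
/-- pole distance larger than `l` -/
noncomputable def fPd (l : ℕ) : ℝ≥0∞ := enS (wt (dP l) rho)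

/-! ### nonnegativity -/

private theorem FarS_es1 (P : ∀ A : Type, SimpleGraph (Option A) → Prop) (k : ℕ) :
    0 ≤ es1 P k := by
  unfold es1
  positivity

private theorem FarS_es2 (P : ∀ A : Type, SimpleGraph (A ⊕ Bool) → Prop) (k : ℕ) :
    0 ≤ es2 P k := by
  unfold es2
  positivity

private theorem FarS_sh {f : ℕ → ℝ} (h : ∀ k, 0 ≤ f k) (k : ℕ) : 0 ≤ sh f k := by
  unfold sh
  split_ifs
  · exact le_refl _
  · exact h _

private theorem FarS_sh_mono {f g : ℕ → ℝ} (h : ∀ k, f k ≤ g k) (k : ℕ) : sh f k ≤ sh g k := by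
  unfold sh
  split_ifs
  · exact le_refl _
  · exact h _

private theorem FarS_rho : 0 < rho := lt_of_lt_of_le (by norm_num) rho_ge

private theorem FarS_wt {f : ℕ → ℝ} (h : ∀ k, 0 ≤ f k) (k : ℕ) : 0 ≤ wt f rho k :=
  mul_nonneg (h k) (pow_nonneg FarS_rho.le k)

private theorem FarS_wt_mono {f g : ℕ → ℝ} (h : ∀ k, f k ≤ g k) (k : ℕ) :
    wt f rho k ≤ wt g rho k :=
  mul_le_mul_of_nonneg_right (h k) (pow_nonneg FarS_rho.le k)

private theorem FarS_mono {f g : ℕ → ℝ} (h : ∀ k, f k ≤ g k) :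
    enS (wt f rho) ≤ enS (wt g rho) := enS_mono (FarS_wt_mono h)

private theorem rN_nn (M : ℕ∞) (k : ℕ) : 0 ≤ rN M k := FarS_sh (FarS_es1 _) k
private theorem rE_nn (M : ℕ∞) (k : ℕ) : 0 ≤ rE M k := FarS_es1 _ k
private theorem qN_nn (M : ℕ∞) (k : ℕ) : 0 ≤ qN M k := FarS_es2 _ k
private theorem dN_nn (M : ℕ∞) (k : ℕ) : 0 ≤ dN M k := FarS_es2 _ k
private theorem rF_nn (L : ℕ) (k : ℕ) : 0 ≤ rF L k := FarS_sh (FarS_es1 _) k
private theorem rFE_nn (L : ℕ) (k : ℕ) : 0 ≤ rFE L k := FarS_es1 _ k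
private theorem pF_nn (L : ℕ) (k : ℕ) : 0 ≤ pF L k := FarS_es1 _ k
private theorem qF_nn (L : ℕ) (k : ℕ) : 0 ≤ qF L k := FarS_es2 _ k
private theorem dF_nn (L : ℕ) (k : ℕ) : 0 ≤ dF L k := FarS_es2 _ k
private theorem bF_nn (L : ℕ) (k : ℕ) : 0 ≤ bF L k := FarS_es2 _ k
private theorem dP_nn (l : ℕ) (k : ℕ) : 0 ≤ dP l k := FarS_es2 _ k
private theorem hN_nn (v e : ℕ) : 0 ≤ hN v e := by
  unfold hN
  positivity
private theorem hP_nn (P : PG2) (v e : ℕ) : 0 ≤ hP P v e := by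
  unfold hP
  positivity

/-! ### sums -/

private theorem S_cv {f g : ℕ → ℝ} (hf : ∀ k, 0 ≤ f k) (hg : ∀ k, 0 ≤ g k) :
    enS (wt (cv f g) rho) = enS (wt f rho) * enS (wt g rho) := by
  rw [← wt_cv, enS_cv (FarS_wt hf) (FarS_wt hg)]

private theorem S_rN : enS (wt (rN ⊤) rho) = ENNReal.ofReal R0 :=
  enS_sum (FarS_wt (rN_nn ⊤)) sum_r

private theorem S_dN : enS (wt (dN ⊤) rho) = ENNReal.ofReal D0 :=
  enS_sum (FarS_wt (dN_nn ⊤)) sum_d

private theorem S_qN : enS (wt (qN ⊤) rho) = ENNReal.ofReal ((1 + D0) / 2) := by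
  rw [enS_sum (FarS_wt (qN_nn ⊤)) sum_q.1, sum_q.2]

private theorem S_add_le (f g : ℕ → ℝ) :
    enS (wt (fun k => f k + g k) rho) ≤ enS (wt f rho) + enS (wt g rho) := by
  have h : wt (fun k => f k + g k) rho = fun k => wt f rho k + wt g rho k := by
    funext k
    simp only [wt]
    ring
  rw [h]
  exact enS_add_le _ _

private theorem S_mul {c : ℝ} (hc : 0 ≤ c) (f : ℕ → ℝ) :
    enS (wt (fun k => c * f k) rho) = ENNReal.ofReal c * enS (wt f rho) := by
  have h : wt (fun k => c * f k) rho = fun k => c * wt f rho k := by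
    funext k
    simp only [wt]
    ring
  rw [h, enS_mul hc]

private theorem S_cvL {l : List (ℕ → ℝ)} (h : ∀ f ∈ l, ∀ k, 0 ≤ f k) :
    enS (wt (cvL l) rho) = (l.map fun f => enS (wt f rho)).prod := by
  rw [← wt_cvL, enS_cvL, List.map_map]
  · rfl
  · intro f hf k
    obtain ⟨g, hg, rfl⟩ := List.mem_map.1 hf
    exact FarS_wt (h g hg) k

theorem f_anti {L L' : ℕ} (h : L ≤ L') : fR L' ≤ fR L ∧ fD L' ≤ fD L ∧ fB L' ≤ fB L ∧
    fQ L' ≤ fQ L := by
  have h1 : ∀ {A : Type} {G : SimpleGraph (Option A)}, Far1 L' G → Far1 L G :=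
    fun ⟨a, ha⟩ => ⟨a, h.trans ha⟩
  have h2 : ∀ {A : Type} {G : SimpleGraph (A ⊕ Bool)}, Far2 L' G → Far2 L G :=
    fun ⟨a, ha⟩ => ⟨a, fun b => h.trans (ha b)⟩
  refine ⟨FarS_mono fun k => FarS_sh_mono (fun k => DecD_es1_mono k fun G hG => ⟨hG.1, h1 hG.2⟩) k,
    FarS_mono fun k => DecD_es2_mono k fun G hG => ⟨hG.1, h2 hG.2⟩,
    FarS_mono fun k => DecD_es2_mono k fun G hG => ⟨hG.1, h2 hG.2⟩,
    FarS_mono fun k => DecD_es2_mono k fun G hG => ⟨hG.1, h2 hG.2⟩⟩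

private theorem bN_nn (M : ℕ∞) (k : ℕ) : 0 ≤ bN M k := FarS_es2 _ k

theorem f_fin (L : ℕ) : fR L ≠ ⊤ ∧ fD L ≠ ⊤ ∧ fB L ≠ ⊤ ∧ fQ L ≠ ⊤ := by
  have hr : fR L ≤ enS (wt (rN ⊤) rho) := FarS_mono fun k =>
    FarS_sh_mono (fun k => DecD_es1_mono k fun G hG => ⟨hG.1, coreLt_top _⟩) k
  have hd : fD L ≤ enS (wt (dN ⊤) rho) := FarS_mono fun k =>
    DecD_es2_mono k fun G hG => ⟨hG.1, coreLt_top _⟩
  have hb : fB L ≤ enS (wt (bN ⊤) rho) := FarS_mono fun k =>
    DecD_es2_mono k fun G hG => ⟨hG.1, coreLt_top _⟩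
  have hq : fQ L ≤ enS (wt (qN ⊤) rho) := FarS_mono fun k =>
    DecD_es2_mono k fun G hG => ⟨hG.1, coreLt_top _⟩
  rw [S_rN] at hr
  rw [S_dN] at hd
  rw [enS_sum (FarS_wt (bN_nn ⊤)) sum_b] at hb
  rw [S_qN] at hq
  exact ⟨ne_top_of_le_ne_top ENNReal.ofReal_ne_top hr, ne_top_of_le_ne_top ENNReal.ofReal_ne_top hd,
    ne_top_of_le_ne_top ENNReal.ofReal_ne_top hb, ne_top_of_le_ne_top ENNReal.ofReal_ne_top hq⟩

theorem fR_le (L : ℕ) : fR L ≤ fP L * ENNReal.ofReal R0 := by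
  have h1 : ∀ k, rF L k ≤ cv (pF L) (rN ⊤) k := by
    intro k
    have h2 : cv (pF L) (rN ⊤) = sh (cv (pF L) (rE ⊤)) := by
      change cv (pF L) (sh (rE ⊤)) = _
      rw [← cv_one, ← cv_one, cv_left_comm]
    rw [h2]
    exact FarS_sh_mono (fun k => r_far L k) k
  unfold fR fP
  refine (FarS_mono h1).trans ?_
  rw [S_cv (pF_nn L) (rN_nn ⊤), S_rN]

theorem fP_le (L : ℕ) (hL : 2 ≤ L) : fP L ≤ ENNReal.ofReal ((1 + D0) / 2) * fR (L - 1) +
    ENNReal.ofReal R0 * fQ (L - 1) := by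
  unfold fP fR fQ
  refine (FarS_mono fun k => p_far L hL k).trans ?_
  refine (S_add_le _ _).trans ?_
  rw [S_cv (rF_nn _) (qN_nn ⊤), S_cv (rN_nn ⊤) (qF_nn _), S_qN, S_rN, mul_comm]

theorem fQ_le (L : ℕ) : fQ L ≤ ENNReal.ofReal ((1 + D0) / 2) * fB L := by
  unfold fQ fB
  refine (FarS_mono fun k => q_far L k).trans ?_
  rw [S_cv (bF_nn _) (qN_nn ⊤), S_qN, mul_comm]

theorem fD_le (L : ℕ) : fD L ≤ 2 * fQ L := by
  unfold fD fQ
  refine (FarS_mono fun k => dF_le L k).trans ?_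
  rw [S_mul (by norm_num)]
  simp

theorem fPd_le : ∃ θ K : ℝ, 0 < θ ∧ 0 < K ∧ ∀ l : ℕ,
    fPd l ≤ ENNReal.ofReal (K * Real.exp (-(θ * l))) := by
  obtain ⟨θ, Λ, h1, h2, h3, h4⟩ := exp_mom'
  have hD : 0 < D0 := lt_of_lt_of_le one_pos D0_range.1
  refine ⟨θ, Λ * D0, h1, by positivity, fun l => ?_⟩
  have hnn : ∀ k, 0 ≤ dT θ k := fun k => (dN_nn ⊤ k).trans (dT_ge h1.le k)
  have h5 : fPd l ≤ ENNReal.ofReal (Real.exp (-(θ * l))) * enS (wt (dT θ) rho) := by
    unfold fPd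
    refine (FarS_mono fun k => dP_le h1.le l k).trans ?_
    rw [S_mul (Real.exp_nonneg _)]
  refine h5.trans ?_
  rw [enS_sum (FarS_wt hnn) h3, ← ENNReal.ofReal_mul (Real.exp_nonneg _)]
  apply ENNReal.ofReal_le_ofReal
  rw [mul_comm]
  exact mul_le_mul_of_nonneg_right h4 (Real.exp_nonneg _)

/-! ### the class BB -/

private theorem S_rep (f : ℕ → ℝ) (n : ℕ) :
    ((List.replicate n f).map fun f => enS (wt f rho)).prod = enS (wt f rho) ^ n := by
  rw [List.map_replicate, List.prod_replicate]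

/-- the sum of a convolution with `a` copies of `rN` and `b` copies of `dN` and one further sequence -/
private theorem S_one {f : ℕ → ℝ} (hf : ∀ k, 0 ≤ f k) (a b : ℕ) :
    enS (wt (cvL (f :: (List.replicate a (rN ⊤) ++ List.replicate b (dN ⊤)))) rho) =
      enS (wt f rho) * ENNReal.ofReal (R0 ^ a * D0 ^ b) := by
  have hR : 0 ≤ R0 := le_trans (by norm_num) R0_range.1
  have hD : 0 ≤ D0 := le_trans (by norm_num) D0_range.1
  rw [S_cvL, List.map_cons, List.prod_cons, List.map_append, List.prod_append, S_rep, S_rep, S_rN,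
    S_dN, ENNReal.ofReal_mul (pow_nonneg hR a), ENNReal.ofReal_pow hR, ENNReal.ofReal_pow hD]
  intro g hg k
  rcases List.mem_cons.1 hg with rfl | hg
  · exact hf k
  rcases List.mem_append.1 hg with hg | hg
  · rw [List.eq_of_mem_replicate hg]
    exact rN_nn ⊤ k
  · rw [List.eq_of_mem_replicate hg]
    exact dN_nn ⊤ k

private theorem S_zero (a b : ℕ) :
    enS (wt (cvL (List.replicate a (rN ⊤) ++ List.replicate b (dN ⊤))) rho) =
      ENNReal.ofReal (R0 ^ a * D0 ^ b) := by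
  have hR : 0 ≤ R0 := le_trans (by norm_num) R0_range.1
  have hD : 0 ≤ D0 := le_trans (by norm_num) D0_range.1
  rw [S_cvL, List.map_append, List.prod_append, S_rep, S_rep, S_rN,
    S_dN, ENNReal.ofReal_mul (pow_nonneg hR a), ENNReal.ofReal_pow hR, ENNReal.ofReal_pow hD]
  intro g hg k
  rcases List.mem_append.1 hg with hg | hg
  · rw [List.eq_of_mem_replicate hg]
    exact rN_nn ⊤ k
  · rw [List.eq_of_mem_replicate hg]
    exact dN_nn ⊤ k

private theorem cvL_one_nn {f : ℕ → ℝ} (hf : ∀ k, 0 ≤ f k) (a b k : ℕ) :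
    0 ≤ cvL (f :: (List.replicate a (rN ⊤) ++ List.replicate b (dN ⊤))) k := by
  apply cvL_nn
  intro g hg k
  rcases List.mem_cons.1 hg with rfl | hg
  · exact hf k
  rcases List.mem_append.1 hg with hg | hg
  · rw [List.eq_of_mem_replicate hg]
    exact rN_nn ⊤ k
  · rw [List.eq_of_mem_replicate hg]
    exact dN_nn ⊤ k

private theorem cvL_zero_nn (a b k : ℕ) :
    0 ≤ cvL (List.replicate a (rN ⊤) ++ List.replicate b (dN ⊤)) k := by
  apply cvL_nn
  intro g hg k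
  rcases List.mem_append.1 hg with hg | hg
  · rw [List.eq_of_mem_replicate hg]
    exact rN_nn ⊤ k
  · rw [List.eq_of_mem_replicate hg]
    exact dN_nn ⊤ k

/-- exchange of sums -/
private theorem S_double (T : ℕ → ℕ → ℕ → ℝ) (a b : ℕ → ℕ) :
    enS (wt (fun k => ∑ v ∈ range (a k), ∑ e ∈ range (b k), T v e k) rho) ≤
      ∑' v : ℕ, ∑' e : ℕ, enS (wt (T v e) rho) := by
  have h1 : ∀ k, ENNReal.ofReal (wt (fun k => ∑ v ∈ range (a k), ∑ e ∈ range (b k), T v e k) rho k) ≤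
      ∑' v : ℕ, ∑' e : ℕ, ENNReal.ofReal (wt (T v e) rho k) := by
    intro k
    have h2 : wt (fun k => ∑ v ∈ range (a k), ∑ e ∈ range (b k), T v e k) rho k =
        ∑ v ∈ range (a k), ∑ e ∈ range (b k), wt (T v e) rho k := by
      simp only [wt, Finset.sum_mul]
    rw [h2]
    have h3 : ∀ (s : Finset ℕ) (g : ℕ → ℝ),
        ENNReal.ofReal (∑ i ∈ s, g i) ≤ ∑ i ∈ s, ENNReal.ofReal (g i) := by
      intro s g
      classical
      induction s using Finset.induction_on with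
      | empty => simp
      | insert i s hi ih =>
        rw [Finset.sum_insert hi, Finset.sum_insert hi]
        exact ENNReal.ofReal_add_le.trans (add_le_add (le_refl _) ih)
    refine (h3 _ _).trans ?_
    refine (Finset.sum_le_sum fun v _ => (h3 _ _).trans (ENNReal.sum_le_tsum _)).trans ?_
    exact ENNReal.sum_le_tsum _
  unfold enS
  refine (ENNReal.tsum_le_tsum h1).trans ?_
  rw [ENNReal.tsum_comm]
  refine ENNReal.tsum_le_tsum fun v => ?_
  rw [ENNReal.tsum_comm]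

/-- the rigid part -/
private theorem fRig_le : ∃ c0 K : ℝ, 0 < c0 ∧ 0 < K ∧ ∃ d0 : ℕ, ∀ L m l D1 E1 : ℕ,
    d0 ≤ D1 → 1 ≤ E1 → (E1 : ℝ) ≤ (D1 : ℝ) ^ (10 / 3 : ℝ) →
    enS (wt (HcF L m l D1 E1) rho) ≤
      RgS (ENNReal.ofReal R0) (ENNReal.ofReal D0) * fR (L - m) +
      RgE (ENNReal.ofReal R0) (ENNReal.ofReal D0) * fD (L - m) +
      (ENNReal.ofReal (K * (E1 : ℝ) ^ (-(3 / 2) : ℝ)) +
      (ENNReal.ofReal (E1 * Real.exp (-((D1 : ℝ) - 1) ^ c0)) +
      RgE (ENNReal.ofReal R0) (ENNReal.ofReal D0) * fPd l)) := by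
  obtain ⟨K, hK, hT⟩ := hw_tail
  obtain ⟨c0, hc0, d0, hDm⟩ := hw_diam
  have hR : 0 ≤ R0 := le_trans (by norm_num) R0_range.1
  have hD : 0 ≤ D0 := le_trans (by norm_num) D0_range.1
  refine ⟨c0, K, hc0, hK, d0, fun L m l D1 E1 hd hE1 hE => ?_⟩
  have hS := hw_S
  have hEE := hw_E
  set A : ℕ → ℕ → ℕ → ℝ := fun v e k => hN v e * (v * cvL (rF (L - m) ::
    (List.replicate (v - 1) (rN ⊤) ++ List.replicate e (dN ⊤))) k) with hA
  set B : ℕ → ℕ → ℕ → ℝ := fun v e k => hN v e * (e * cvL (dF (L - m) ::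
    (List.replicate v (rN ⊤) ++ List.replicate (e - 1) (dN ⊤))) k) with hB
  set C1 : ℕ → ℕ → ℕ → ℝ := fun v e k => (if E1 ≤ e then hN v e else 0) *
    cvL (List.replicate v (rN ⊤) ++ List.replicate e (dN ⊤)) k with hC1
  set C2 : ℕ → ℕ → ℕ → ℝ := fun v e k => (if e < E1 then hP (PDm D1).two v e else 0) *
    cvL (List.replicate v (rN ⊤) ++ List.replicate e (dN ⊤)) k with hC2
  set C3 : ℕ → ℕ → ℕ → ℝ := fun v e k => hN v e * (e * cvL (dP l :: (List.replicate v (rN ⊤) ++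
    List.replicate (e - 1) (dN ⊤))) k) with hC3
  have h0 : ∀ k, HcF L m l D1 E1 k ≤ ∑ v ∈ range (k + 1), ∑ e ∈ range ((k + 2) ^ 2),
      (A v e k + (B v e k + (C1 v e k + (C2 v e k + C3 v e k)))) := by
    intro k
    unfold HcF
    refine Finset.sum_le_sum fun v _ => Finset.sum_le_sum fun e _ => ?_
    have hz : 0 ≤ cvL (List.replicate v (rN ⊤) ++ List.replicate e (dN ⊤)) k := cvL_zero_nn v e k
    have hp : 0 ≤ C3 v e k := by
      rw [hC3]
      exact mul_nonneg (hN_nn v e) (mul_nonneg (Nat.cast_nonneg _) (cvL_one_nn (dP_nn l) _ _ k))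
    by_cases he : E1 ≤ e
    · have e1 : C1 v e k = hN v e * cvL (List.replicate v (rN ⊤) ++ List.replicate e (dN ⊤)) k := by
        simp only [hC1, if_pos he]
      have e2 : C2 v e k = 0 := by
        simp only [hC2, if_neg (not_lt.2 he), zero_mul]
      rw [if_pos he, e1, e2]
      simp only [hA, hB]
      linarith
    · have e1 : C1 v e k = 0 := by
        simp only [hC1, if_neg he, zero_mul]
      have e2 : C2 v e k = hP (PDm D1).two v e *
          cvL (List.replicate v (rN ⊤) ++ List.replicate e (dN ⊤)) k := by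
        simp only [hC2, if_pos (not_le.1 he)]
      rw [if_neg he, e1, e2]
      simp only [hA, hB, hC3]
      linarith
  refine (FarS_mono h0).trans ((S_double _ _ _).trans ?_)
  have h1 : ∀ v e : ℕ, enS (wt (fun k => A v e k + (B v e k + (C1 v e k + (C2 v e k + C3 v e k))))
      rho) ≤ enS (wt (A v e) rho) + (enS (wt (B v e) rho) + (enS (wt (C1 v e) rho) +
        (enS (wt (C2 v e) rho) + enS (wt (C3 v e) rho)))) := by
    intro v e
    refine (S_add_le (A v e) _).trans (add_le_add (le_refl _) ?_)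
    refine (S_add_le (B v e) _).trans (add_le_add (le_refl _) ?_)
    refine (S_add_le (C1 v e) _).trans (add_le_add (le_refl _) ?_)
    exact S_add_le (C2 v e) _
  refine (ENNReal.tsum_le_tsum fun v => ENNReal.tsum_le_tsum fun e => h1 v e).trans ?_
  have h2 : ∀ f g : ℕ → ℕ → ℝ≥0∞, ∑' v, ∑' e, (f v e + g v e) =
      ∑' v, ∑' e, f v e + ∑' v, ∑' e, g v e := by
    intro f g
    rw [← ENNReal.tsum_add]
    refine tsum_congr fun v => ?_
    rw [ENNReal.tsum_add]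
  rw [h2, h2, h2, h2]
  -- the five sums
  have hsA : ∑' v, ∑' e, enS (wt (A v e) rho) ≤
      RgS (ENNReal.ofReal R0) (ENNReal.ofReal D0) * fR (L - m) := by
    refine le_trans (le_of_eq ?_) (mul_le_mul_left hS (fR (L - m)))
    rw [← ENNReal.tsum_mul_right]
    refine tsum_congr fun v => ?_
    rw [← ENNReal.tsum_mul_right]
    refine tsum_congr fun e => ?_
    rw [hA]
    rw [S_mul (hN_nn v e), S_mul (Nat.cast_nonneg v), S_one (rF_nn _), ENNReal.ofReal_mul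
      (mul_nonneg (Nat.cast_nonneg v) (pow_nonneg hR _)), ENNReal.ofReal_mul (Nat.cast_nonneg v),
      ENNReal.ofReal_mul (pow_nonneg hR _)]
    unfold fR
    ring
  have hsB : ∑' v, ∑' e, enS (wt (B v e) rho) ≤
      RgE (ENNReal.ofReal R0) (ENNReal.ofReal D0) * fD (L - m) := by
    refine le_trans (le_of_eq ?_) (mul_le_mul_left hEE (fD (L - m)))
    rw [← ENNReal.tsum_mul_right]
    refine tsum_congr fun v => ?_
    rw [← ENNReal.tsum_mul_right]
    refine tsum_congr fun e => ?_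
    rw [hB]
    rw [S_mul (hN_nn v e), S_mul (Nat.cast_nonneg e), S_one (dF_nn _), ENNReal.ofReal_mul
      (pow_nonneg hR _), ENNReal.ofReal_mul (pow_nonneg hR _), ENNReal.ofReal_mul (Nat.cast_nonneg e)]
    unfold fD
    ring
  have hsC3 : ∑' v, ∑' e, enS (wt (C3 v e) rho) ≤
      RgE (ENNReal.ofReal R0) (ENNReal.ofReal D0) * fPd l := by
    refine le_trans (le_of_eq ?_) (mul_le_mul_left hEE (fPd l))
    rw [← ENNReal.tsum_mul_right]
    refine tsum_congr fun v => ?_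
    rw [← ENNReal.tsum_mul_right]
    refine tsum_congr fun e => ?_
    rw [hC3]
    rw [S_mul (hN_nn v e), S_mul (Nat.cast_nonneg e), S_one (dP_nn _), ENNReal.ofReal_mul
      (pow_nonneg hR _), ENNReal.ofReal_mul (pow_nonneg hR _), ENNReal.ofReal_mul (Nat.cast_nonneg e)]
    unfold fPd
    ring
  have hsC1 : ∑' v, ∑' e, enS (wt (C1 v e) rho) ≤
      ENNReal.ofReal (K * (E1 : ℝ) ^ (-(3 / 2) : ℝ)) := by
    refine le_trans (le_of_eq ?_) (hT E1 hE1)
    refine tsum_congr fun v => tsum_congr fun e => ?_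
    rw [hC1]
    by_cases he : E1 ≤ e
    · simp only [if_pos he]
      rw [S_mul (hN_nn v e), S_zero]
      rfl
    · simp only [if_neg he]
      rw [S_mul (le_refl _)]
      simp
  have hsC2 : ∑' v, ∑' e, enS (wt (C2 v e) rho) ≤
      ENNReal.ofReal (E1 * Real.exp (-((D1 : ℝ) - 1) ^ c0)) := by
    refine le_trans (le_of_eq ?_) (hDm D1 E1 hd hE)
    refine tsum_congr fun v => tsum_congr fun e => ?_
    rw [hC2]
    by_cases he : e < E1
    · simp only [if_pos he]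
      rw [S_mul (hP_nn _ v e), S_zero]
      rfl
    · simp only [if_neg he]
      rw [S_mul (le_refl _)]
      simp
  calc _ ≤ _ := add_le_add hsA (add_le_add hsB (add_le_add hsC1 (add_le_add hsC2 hsC3)))
    _ = _ := by rw [add_assoc]

/-- the graphs with a separating vertex -/
private theorem fSep_le {L m l : ℕ} (hlm : l < m) (hmL : m < L) :
    enS (wt (es2 fun A G => BB G ∧ Far2 L G ∧ ∃ w : A, Sep G w) rho) ≤
      ENNReal.ofReal (D0 ^ 2) * fR (L - m) + ENNReal.ofReal (2 * R0 * D0) * fD (L - m) +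
      ENNReal.ofReal R0 * fPd l ^ 2 := by
  have hR : 0 ≤ R0 := le_trans (by norm_num) R0_range.1
  have hD : 0 ≤ D0 := le_trans (by norm_num) D0_range.1
  have h1 := FarS_mono (fun k => s_far L l (hlm.trans hmL) k)
  refine h1.trans ?_
  refine (S_add_le (fun k => cv (rF (L - l)) (cv (dN ⊤) (dN ⊤)) k +
    2 * cv (rN ⊤) (cv (dF (L - l)) (dN ⊤)) k) _).trans (add_le_add ?_ ?_)
  · refine (S_add_le _ _).trans (add_le_add ?_ ?_)
    · rw [S_cv (rF_nn _) (cv_nonneg (dN_nn ⊤) (dN_nn ⊤)), S_cv (dN_nn ⊤) (dN_nn ⊤), S_dN,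
        ENNReal.ofReal_pow hD, mul_comm, ← sq]
      exact mul_le_mul_right (f_anti (by omega)).1 _
    · rw [S_mul (by norm_num), S_cv (rN_nn ⊤) (cv_nonneg (dF_nn _) (dN_nn ⊤)),
        S_cv (dF_nn _) (dN_nn ⊤), S_dN, S_rN, mul_assoc, ENNReal.ofReal_mul (by norm_num),
        ENNReal.ofReal_mul hR]
      have h2 : ENNReal.ofReal 2 * (ENNReal.ofReal R0 * (enS (wt (dF (L - l)) rho) *
          ENNReal.ofReal D0)) = ENNReal.ofReal 2 * (ENNReal.ofReal R0 * ENNReal.ofReal D0) *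
          fD (L - l) := by
        unfold fD
        ring
      rw [h2]
      exact mul_le_mul_right (f_anti (by omega)).2.1 _
  · rw [S_cv (rN_nn ⊤) (cv_nonneg (dP_nn l) (dP_nn l)), S_cv (dP_nn l) (dP_nn l), S_rN, ← sq]
    exact le_refl _

theorem fB_le : ∃ c0 K : ℝ, 0 < c0 ∧ 0 < K ∧ ∃ d0 : ℕ, ∀ L m l D1 E1 : ℕ, l < m → m < L →
    D1 * l ≤ m → d0 ≤ D1 → 1 ≤ E1 → (E1 : ℝ) ≤ (D1 : ℝ) ^ (10 / 3 : ℝ) →
    fB L ≤ (ENNReal.ofReal (D0 ^ 2) + RgS (ENNReal.ofReal R0) (ENNReal.ofReal D0)) * fR (L - m) +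
      (ENNReal.ofReal (2 * R0 * D0) + RgE (ENNReal.ofReal R0) (ENNReal.ofReal D0)) * fD (L - m) +
      ENNReal.ofReal R0 * fPd l ^ 2 +
      RgE (ENNReal.ofReal R0) (ENNReal.ofReal D0) * fPd l +
      ENNReal.ofReal (K * (E1 : ℝ) ^ (-(3 / 2) : ℝ)) +
      ENNReal.ofReal (E1 * Real.exp (-((D1 : ℝ) - 1) ^ c0)) := by
  obtain ⟨c0, K, hc0, hK, d0, h⟩ := fRig_le
  refine ⟨c0, K, hc0, hK, d0, fun L m l D1 E1 hlm hmL hDl hd hE1 hE => ?_⟩
  have h1 := h L m l D1 E1 hd hE1 hE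
  have h2 := fSep_le hlm hmL
  have h3 : ∀ k, bF L k = es2 (fun A G => BB G ∧ Far2 L G ∧ ∃ w : A, Sep G w) k +
      es2 (fun A G => BB G ∧ Far2 L G ∧ ¬ ∃ w : A, Sep G w) k := by
    intro k
    classical
    unfold bF es2
    rw [← add_div]
    congr 1
    rw [Nat.card_eq_fintype_card, Nat.card_eq_fintype_card, Nat.card_eq_fintype_card,
      Fintype.card_subtype, Fintype.card_subtype, Fintype.card_subtype, ← Nat.cast_add]
    congr 1
    rw [← Finset.card_filter_add_card_filter_not (s := Finset.univ.filter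
      fun G : SimpleGraph (Fin k ⊕ Bool) => BB G ∧ Far2 L G) (fun G => ∃ w, Sep G w),
      Finset.filter_filter, Finset.filter_filter]
    simp only [and_assoc]
  have h4 : fB L ≤ enS (wt (es2 fun A G => BB G ∧ Far2 L G ∧ ∃ w : A, Sep G w) rho) +
      enS (wt (HcF L m l D1 E1) rho) := by
    have h5 : fB L = enS (wt (fun k => es2 (fun A G => BB G ∧ Far2 L G ∧ ∃ w : A, Sep G w) k +
        es2 (fun A G => BB G ∧ Far2 L G ∧ ¬ ∃ w : A, Sep G w) k) rho) := by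
      unfold fB
      rw [funext h3]
    rw [h5]
    refine (S_add_le _ _).trans (add_le_add (le_refl _) ?_)
    exact FarS_mono fun k => rig_far L m l D1 E1 hmL hDl k
  refine (h4.trans (add_le_add h2 h1)).trans (le_of_eq ?_)
  ring

end Dia
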