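import Pool.Agent.DiaC.CIDefs
import Pool.Agent.PGr.Cut

/-!
# Module HangA: hanging parts

`cut s A` is even (`PGr.cut_eq_two_mul`).  `cut = 0` means: closed under `s`.  So in a connected map a set of
edges which is neither empty nor everything has `cut ≥ 2`.

`union`: `cut (A ∩ B) + cut (A ∪ B) ≤ 4` (`PGr.cut_inter_union`), both are `≥ 2`
(`A ∩ B` nonempty, `A ∪ B ≠ univ` because of the root).
`union'`: `bd (A ∪ B) ⊆ bd A ∪ bd B` without `t`; `t ∈ bd A ∩ bd B`; so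
`cut (A ∪ B) ≤ 2 + 2 - 1 - 1 = 2`.
`mx_hg`: take a hanging part `A` with `t ∈ A` of maximal cardinality; every hanging part `B` with `t ∈ B` has
`A ∪ B` hanging, so `B ⊆ A`; hence `mx t = A`.
`mx_eq`: `mx t` is hanging and contains `u`, so `mx t ⊆ mx u`; then `t ∈ mx u`, so `mx u ⊆ mx t`.
`mx_s`: if `M.s t ∈ mx t`: `mx_eq`.  Otherwise `mx t` and `mx (s t)` are disjoint (`mx_eq`), `union'` gives a
hanging part containing both, so `s t ∈ mx t`, contradiction.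
-/

set_option linter.unusedSectionVars false

namespace Dia
open Equiv Finset PGr

variable {M : RM} {A B : Finset M.T}

theorem RM.mem_hang {t : M.T} : t ∈ M.hang ↔ ∃ A, M.Hg A ∧ t ∈ A := by
  simp [RM.hang]

theorem RM.mem_core {t : M.T} : t ∈ M.core ↔ t ∉ M.hang := by
  simp [RM.core]

theorem RM.mem_mx {t u : M.T} : u ∈ M.mx t ↔ ∃ A, M.Hg A ∧ t ∈ A ∧ u ∈ A := by
  simp [RM.mx]

theorem RM.cl_hang : Cl M.a M.hang := by
  intro t
  rw [RM.mem_hang, RM.mem_hang]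
  constructor
  · rintro ⟨A, hA, h⟩
    exact ⟨A, hA, (hA.cl t).1 h⟩
  · rintro ⟨A, hA, h⟩
    exact ⟨A, hA, (hA.cl t).2 h⟩

theorem RM.cl_core : Cl M.a M.core := by
  intro t
  rw [RM.mem_core, RM.mem_core, RM.cl_hang t]

theorem RM.cl_mx (t : M.T) : Cl M.a (M.mx t) := by
  intro u
  rw [RM.mem_mx, RM.mem_mx]
  constructor
  · rintro ⟨A, hA, h, h'⟩
    exact ⟨A, hA, h, (hA.cl u).1 h'⟩
  · rintro ⟨A, hA, h, h'⟩
    exact ⟨A, hA, h, (hA.cl u).2 h'⟩

theorem RM.root_core : M.r ∈ M.core := by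
  rw [RM.mem_core, RM.mem_hang]
  rintro ⟨A, hA, h⟩
  exact hA.root h

theorem RM.mem_mx_self {t : M.T} : t ∈ M.mx t ↔ t ∈ M.hang := by
  rw [RM.mem_mx, RM.mem_hang]
  constructor
  · rintro ⟨A, hA, h, _⟩
    exact ⟨A, hA, h⟩
  · rintro ⟨A, hA, h⟩
    exact ⟨A, hA, h, h⟩

theorem RM.mx_sub_hang (t : M.T) : M.mx t ⊆ M.hang := by
  intro u hu
  rw [RM.mem_mx] at hu
  obtain ⟨A, hA, _, h⟩ := hu
  exact RM.mem_hang.2 ⟨A, hA, h⟩

theorem RM.Hg.sub_mx (hA : M.Hg A) {t : M.T} (ht : t ∈ A) : A ⊆ M.mx t :=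
  fun _ hu => RM.mem_mx.2 ⟨A, hA, ht, hu⟩

theorem RM.IsMap.two_le_cut (h : M.IsMap) (hA : Cl M.a A) (hne : A.Nonempty) (hu : A ≠ univ) :
    2 ≤ cut M.s A := by
  by_contra hlt
  have h1 := cut_eq_two_mul M.s A
  have h0 : cut M.s A = 0 := by omega
  apply hu
  refine h.conn A (fun t ht => (hA t).2 ht) (fun t ht => ?_) hne
  have h2 : bd M.s A = ∅ := by
    rw [cut, card_eq_zero] at h0
    exact h0
  by_contra hst
  have h3 : t ∈ bd M.s A := by
    rw [mem_bd]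
    intro h4
    exact hst (h4.1 ht)
  rw [h2] at h3
  exact absurd h3 (notMem_empty t)

theorem HangA_ne (hA : M.Hg A) : A ≠ univ := by
  intro h
  exact hA.root (h ▸ mem_univ _)

theorem RM.Hg.union (h : M.IsMap) (hA : M.Hg A) (hB : M.Hg B) (hi : (A ∩ B).Nonempty) :
    M.Hg (A ∪ B) := by
  have hroot : M.r ∉ A ∪ B := by
    rw [mem_union]
    rintro (h1 | h1)
    · exact hA.root h1
    · exact hB.root h1
  refine ⟨hA.cl.union hB.cl, hroot, ?_⟩
  have h1 : 2 ≤ cut M.s (A ∩ B) := by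
    refine h.two_le_cut (hA.cl.inter hB.cl) hi fun h2 => ?_
    have h3 := mem_univ M.r
    rw [← h2] at h3
    exact hA.root (mem_inter.1 h3).1
  have h2 : 2 ≤ cut M.s (A ∪ B) := by
    refine h.two_le_cut (hA.cl.union hB.cl) ?_ fun h2 => ?_
    · obtain ⟨x, hx⟩ := hi
      exact ⟨x, mem_union_left _ (mem_inter.1 hx).1⟩
    · exact hroot (h2 ▸ mem_univ _)
  have h3 := cut_inter_union M.s A B
  have h4 := hA.cut2
  have h5 := hB.cut2
  omega

theorem RM.Hg.union' (h : M.IsMap) (hA : M.Hg A) (hB : M.Hg B) (hd : Disjoint A B) {t : M.T}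
    (ht : t ∈ A) (hs : M.s t ∈ B) : M.Hg (A ∪ B) := by
  have hroot : M.r ∉ A ∪ B := by
    rw [mem_union]
    rintro (h1 | h1)
    · exact hA.root h1
    · exact hB.root h1
  refine ⟨hA.cl.union hB.cl, hroot, ?_⟩
  have h2 : 2 ≤ cut M.s (A ∪ B) :=
    h.two_le_cut (hA.cl.union hB.cl) ⟨t, mem_union_left _ ht⟩ fun h2 => hroot (h2 ▸ mem_univ _)
  have hsA : M.s t ∉ A := fun h3 => (disjoint_left.1 hd) h3 hs
  have htB : t ∉ B := fun h3 => (disjoint_left.1 hd) ht h3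
  have h3 : bd M.s (A ∪ B) ⊆ (bd M.s A ∪ (bd M.s B).erase t).erase t := by
    intro u hu
    rw [mem_bd] at hu
    rw [mem_erase, mem_union, mem_erase, mem_bd, mem_bd]
    have hut : u ≠ t := by
      rintro rfl
      apply hu
      exact ⟨fun _ => mem_union_right _ hs, fun _ => mem_union_left _ ht⟩
    refine ⟨hut, ?_⟩
    by_contra hcon
    push Not at hcon
    obtain ⟨h4, h5⟩ := hcon
    apply hu
    rw [mem_union, mem_union, h4, h5 hut]
  have h4 : (bd M.s A ∪ (bd M.s B).erase t).card ≤ 3 := by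
    refine (card_union_le _ _).trans ?_
    have h5 : t ∈ bd M.s B := by
      rw [mem_bd]
      intro h6
      exact htB (h6.2 hs)
    rw [card_erase_of_mem h5]
    have h6 := hA.cut2
    have h7 := hB.cut2
    rw [cut] at h6 h7
    omega
  have h5 : ((bd M.s A ∪ (bd M.s B).erase t).erase t).card ≤ 2 := by
    have h6 : t ∈ bd M.s A ∪ (bd M.s B).erase t := by
      apply mem_union_left
      rw [mem_bd]
      intro h7
      exact hsA (h7.1 ht)
    rw [card_erase_of_mem h6]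
    omega
  have h6 : cut M.s (A ∪ B) ≤ 2 := (card_le_card h3).trans h5
  omega

theorem RM.IsMap.mx_hg (h : M.IsMap) {t : M.T} (ht : t ∈ M.hang) : M.Hg (M.mx t) := by
  classical
  have hne : (univ.filter fun A : Finset M.T => M.Hg A ∧ t ∈ A).Nonempty := by
    obtain ⟨A, hA, h1⟩ := RM.mem_hang.1 ht
    exact ⟨A, by simp [hA, h1]⟩
  obtain ⟨A, hA, hmax⟩ := exists_max_image _ card hne
  rw [mem_filter] at hA
  obtain ⟨-, hA, htA⟩ := hA
  have h1 : M.mx t = A := by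
    apply Subset.antisymm
    · intro u hu
      obtain ⟨B, hB, htB, huB⟩ := RM.mem_mx.1 hu
      have h2 := RM.Hg.union h hA hB ⟨t, mem_inter.2 ⟨htA, htB⟩⟩
      have h3 := hmax (A ∪ B) (by
        rw [mem_filter]
        exact ⟨mem_univ _, h2, mem_union_left _ htA⟩)
      have h4 : A = A ∪ B := eq_of_subset_of_card_le subset_union_left h3
      rw [h4]
      exact mem_union_right _ huB
    · exact hA.sub_mx htA
  rw [h1]
  exact hA

theorem RM.IsMap.mx_eq (h : M.IsMap) {t u : M.T} (hu : u ∈ M.mx t) : M.mx u = M.mx t := by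
  obtain ⟨A, hA, htA, huA⟩ := RM.mem_mx.1 hu
  have ht : t ∈ M.hang := RM.mem_hang.2 ⟨A, hA, htA⟩
  have hu' : u ∈ M.hang := RM.mem_hang.2 ⟨A, hA, huA⟩
  have h1 : M.mx t ⊆ M.mx u := (h.mx_hg ht).sub_mx hu
  have h2 : t ∈ M.mx u := h1 (RM.mem_mx_self.2 ht)
  exact Subset.antisymm ((h.mx_hg hu').sub_mx h2) h1

theorem RM.IsMap.mx_s (h : M.IsMap) {t : M.T} (ht : t ∈ M.hang) (hs : M.s t ∈ M.hang) :
    M.mx (M.s t) = M.mx t := by
  by_cases h1 : M.s t ∈ M.mx t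
  · exact h.mx_eq h1
  · exfalso
    have h2 : Disjoint (M.mx t) (M.mx (M.s t)) := by
      rw [disjoint_left]
      intro u hu hu'
      apply h1
      rw [← h.mx_eq hu, h.mx_eq hu']
      exact RM.mem_mx_self.2 hs
    have h3 := RM.Hg.union' h (h.mx_hg ht) (h.mx_hg hs) h2 (RM.mem_mx_self.2 ht)
      (RM.mem_mx_self.2 hs)
    have h4 : t ∈ M.mx t ∪ M.mx (M.s t) := mem_union_left _ (RM.mem_mx_self.2 ht)
    exact h1 (h3.sub_mx h4 (mem_union_right _ (RM.mem_mx_self.2 hs)))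

end Dia
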