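import Pool.Agent.DiaC.HangA
import Pool.Agent.PGr.RetLib

/-!
# Module HangB: the corner at which a hanging part is attached

A set with `cut = 2` has exactly one leaving dart (`t ∈ A`, `s t ∉ A`: `PGr.cut_eq_two_mul`) and exactly one
entering dart (`t ∉ A`, `s t ∈ A`; apply the same to the complement, or count `bd`).

`exists_corner`: the entering dart `c` of `mx t`.  If `c ∈ hang` then `mx (s c) = mx c` (`mx_s`), and
`s c ∈ mx t`, so `mx c = mx t` and `c ∈ mx t`, contradiction.  So `c ∈ core`.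
`leave_core`: the same for the leaving dart.

`ret_core_in`, `ret_core_out`: the return map of `s` on the core.  If `s c ∈ core`: one step.  If
`s c ∈ hang`: let `k` be the return time; all `s^i c` with `0 < i < k` are in `hang`, hence
in `mx (s c)` by `mx_s` (induction), so `s^(k-1) c` is the leaving dart `z` of `mx (s c)`, and the return is `s z`.
`ret_mx_in`, `ret_mx_out`: the return map on `P = mx (s c)`: if `s d ∈ P` one step; if `s d ∉ P`: the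
return is `s^k d` with `s^i d ∉ P` for `0 < i < k`, `k > 1`, so `s^(k-1) d` is the entering dart `c`
and the return is `s c`.
-/

set_option linter.unusedSectionVars false

namespace Dia
open Equiv Finset PGr

variable {M : RM} {A : Finset M.T}

private theorem HangB_leave (hA : M.Hg A) :
    ∃ z, ∀ t, (t ∈ A ∧ M.s t ∉ A) ↔ t = z := by
  have h1 := cut_eq_two_mul M.s A
  rw [hA.cut2] at h1
  have h2 : (univ.filter fun t => t ∈ A ∧ M.s t ∉ A).card = 1 := by omega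
  obtain ⟨z, hz⟩ := card_eq_one.1 h2
  refine ⟨z, fun t => ?_⟩
  rw [← mem_singleton, ← hz]
  simp

private theorem HangB_enter (hA : M.Hg A) :
    ∃ z, ∀ t, (t ∉ A ∧ M.s t ∈ A) ↔ t = z := by
  have h1 := cut_eq_two_mul M.s Aᶜ
  rw [cut_compl, hA.cut2] at h1
  have h2 : (univ.filter fun t => t ∈ Aᶜ ∧ M.s t ∉ Aᶜ).card = 1 := by omega
  obtain ⟨z, hz⟩ := card_eq_one.1 h2
  refine ⟨z, fun t => ?_⟩
  rw [← mem_singleton, ← hz]
  simp

theorem RM.Hg.exists_enter (hA : M.Hg A) : ∃ t, t ∉ A ∧ M.s t ∈ A := by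
  obtain ⟨z, hz⟩ := HangB_enter hA
  exact ⟨z, (hz z).2 rfl⟩

theorem RM.Hg.enter_unique (hA : M.Hg A) {t t' : M.T} (ht : t ∉ A) (hs : M.s t ∈ A)
    (ht' : t' ∉ A) (hs' : M.s t' ∈ A) : t = t' := by
  obtain ⟨z, hz⟩ := HangB_enter hA
  rw [(hz t).1 ⟨ht, hs⟩, (hz t').1 ⟨ht', hs'⟩]

theorem RM.Hg.exists_leave (hA : M.Hg A) : ∃ t, t ∈ A ∧ M.s t ∉ A := by
  obtain ⟨z, hz⟩ := HangB_leave hA
  exact ⟨z, (hz z).2 rfl⟩

theorem RM.Hg.leave_unique (hA : M.Hg A) {t t' : M.T} (ht : t ∈ A) (hs : M.s t ∉ A)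
    (ht' : t' ∈ A) (hs' : M.s t' ∉ A) : t = t' := by
  obtain ⟨z, hz⟩ := HangB_leave hA
  rw [(hz t).1 ⟨ht, hs⟩, (hz t').1 ⟨ht', hs'⟩]

private theorem HangB_core {t c : M.T} (hc : c ∈ M.core) : c ∉ M.mx t := fun h1 =>
  (RM.mem_core.1 hc) (RM.mx_sub_hang t h1)

private theorem HangB_hang {t u : M.T} (hu : u ∈ M.mx t) : t ∈ M.hang := by
  obtain ⟨A, hA, h1, -⟩ := RM.mem_mx.1 hu
  exact RM.mem_hang.2 ⟨A, hA, h1⟩

private theorem HangB_not_core {t : M.T} (ht : t ∉ M.core) : t ∈ M.hang := by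
  by_contra h1
  exact ht (RM.mem_core.2 h1)

theorem RM.IsMap.exists_corner (h : M.IsMap) {t : M.T} (ht : t ∈ M.hang) :
    ∃ c, c ∈ M.core ∧ M.s c ∈ M.mx t := by
  obtain ⟨c, hc, hs⟩ := (h.mx_hg ht).exists_enter
  refine ⟨c, ?_, hs⟩
  rw [RM.mem_core]
  intro hch
  have h1 := h.mx_s hch (RM.mx_sub_hang t hs)
  rw [h.mx_eq hs] at h1
  apply hc
  rw [h1]
  exact RM.mem_mx_self.2 hch

theorem RM.IsMap.corner_unique (h : M.IsMap) {t c c' : M.T} (hc : c ∈ M.core)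
    (hs : M.s c ∈ M.mx t) (hc' : c' ∈ M.core) (hs' : M.s c' ∈ M.mx t) : c = c' :=
  (h.mx_hg (HangB_hang hs)).enter_unique (HangB_core hc) hs (HangB_core hc') hs'

theorem RM.IsMap.leave_core (h : M.IsMap) {t d : M.T} (hd : d ∈ M.mx t) (hs : M.s d ∉ M.mx t) :
    M.s d ∈ M.core := by
  rw [RM.mem_core]
  intro hsh
  have h1 := h.mx_s (RM.mx_sub_hang t hd) hsh
  rw [h.mx_eq hd] at h1
  apply hs
  rw [← h1]
  exact RM.mem_mx_self.2 hsh

theorem RM.IsMap.ret_core_in {c : M.T} (hc : c ∈ M.core) (hs : M.s c ∈ M.core) :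
    (ret M.s M.core ⟨c, hc⟩).1 = M.s c := by
  rw [ret_of_mem M.s M.core ⟨c, hc⟩ hs]

theorem RM.IsMap.ret_core_out (h : M.IsMap) {c z : M.T} (hc : c ∈ M.core)
    (hs : M.s c ∈ M.hang) (hz : z ∈ M.mx (M.s c)) (hz' : M.s z ∉ M.mx (M.s c)) :
    (ret M.s M.core ⟨c, hc⟩).1 = M.s z := by
  obtain ⟨k, hk, hk1, hk2⟩ := exists_ret M.s M.core ⟨c, hc⟩
  have hscore : M.s c ∉ M.core := fun h1 => (RM.mem_core.1 h1) hs
  have hkne : k ≠ 1 := by
    rintro rfl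
    apply hscore
    have h1 := (ret M.s M.core ⟨c, hc⟩).2
    rw [← hk1] at h1
    simpa using h1
  have key : ∀ i, i + 1 < k → (M.s ^ (i + 1)) c ∈ M.mx (M.s c) := by
    intro i
    induction i with
    | zero =>
      intro _
      simpa using RM.mem_mx_self.2 hs
    | succ i ih =>
      intro hi
      have h1 := ih (by omega)
      have h2 : (M.s ^ (i + 1 + 1)) c ∈ M.hang := HangB_not_core (hk2 _ (by omega) hi)
      rw [pow_succ', Perm.mul_apply] at h2 ⊢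
      have h3 := h.mx_s (RM.mx_sub_hang _ h1) h2
      rw [h.mx_eq h1] at h3
      rw [← h3]
      exact RM.mem_mx_self.2 h2
  obtain ⟨j, rfl⟩ : ∃ j, k = j + 1 + 1 := ⟨k - 2, by omega⟩
  have h1 := key j (by omega)
  have h2 : M.s ((M.s ^ (j + 1)) c) = (ret M.s M.core ⟨c, hc⟩).1 := by
    rw [← hk1, pow_succ' M.s (j + 1), Perm.mul_apply]
  have h3 : M.s ((M.s ^ (j + 1)) c) ∉ M.mx (M.s c) := by
    rw [h2]
    exact HangB_core (ret M.s M.core ⟨c, hc⟩).2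
  have h4 := (h.mx_hg hs).leave_unique h1 h3 hz hz'
  rw [← h2, h4]

theorem RM.ret_mx_in {t d : M.T} (hd : d ∈ M.mx t) (hs : M.s d ∈ M.mx t) :
    (ret M.s (M.mx t) ⟨d, hd⟩).1 = M.s d := by
  rw [ret_of_mem M.s (M.mx t) ⟨d, hd⟩ hs]

theorem RM.IsMap.ret_mx_out (h : M.IsMap) {c d : M.T} (hc : c ∈ M.core)
    (hs : M.s c ∈ M.hang) (hd : d ∈ M.mx (M.s c)) (hd' : M.s d ∉ M.mx (M.s c)) :
    (ret M.s (M.mx (M.s c)) ⟨d, hd⟩).1 = M.s c := by
  obtain ⟨k, hk, hk1, hk2⟩ := exists_ret M.s (M.mx (M.s c)) ⟨d, hd⟩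
  have hkne : k ≠ 1 := by
    rintro rfl
    apply hd'
    have h1 := (ret M.s (M.mx (M.s c)) ⟨d, hd⟩).2
    rw [← hk1] at h1
    simpa using h1
  obtain ⟨j, rfl⟩ : ∃ j, k = j + 1 + 1 := ⟨k - 2, by omega⟩
  have h1 := hk2 (j + 1) (by omega) (by omega)
  have h2 : M.s ((M.s ^ (j + 1)) d) = (ret M.s (M.mx (M.s c)) ⟨d, hd⟩).1 := by
    rw [← hk1, pow_succ' M.s (j + 1), Perm.mul_apply]
  have h3 : M.s ((M.s ^ (j + 1)) d) ∈ M.mx (M.s c) := by
    rw [h2]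
    exact (ret M.s (M.mx (M.s c)) ⟨d, hd⟩).2
  have h4 := (h.mx_hg hs).enter_unique h1 h3 (HangB_core hc) (RM.mem_mx_self.2 hs)
  rw [← h2, h4]

end Dia
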