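import Pool.Agent.DiaC.HerR

/-!
# Module HerA: general maps of bounded diameter

`insC_bij`: every class `m` is `insC (k, Z)`, `Z : k.map.T → Option RMC`, i.e. `m.out.1` is isomorphic to
`ins k.map (fun c => ocm (Z c))` (so `dm` is equal: `dm_iso`).  If `dm ≤ L` all the inserted maps have `dm ≤ L` (`ocm_dm_le`).
`k = loop`, `link` (two corners): the sum over `Z` is the coefficient of `X * AL^2`, times `x^0`, `x^1` (`insC_nV`, `insC_E`;
`kc_loop`, `kc_link`).  `k = good c`: the darts are `D ⊕ Bool`; `Z` = (two optional classes at the root darts,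
`F = ⟨c, Z ∘ inl⟩ : FN`), `(fmap F).dm ≤ L` by `fmap_root_dm`; weight `x^(nV - 1 ..) = x * x^(fnv F) * ..`
(`nV - 1 = 1 + (nV - 2)`), size `1 + fsz F + oE + oE` (`X * AL^2 * FL`).
Compare the proof of `Ag_eq` in `InsSum.lean`.
-/

set_option linter.unusedSectionVars false

namespace Dia
open Equiv Finset PGr PowerSeries
open scoped ENNReal Classical

private theorem HerA_iso (p : Σ k : KC, (k.map.T → Option RMC)) :
    RMIso (insC p).out.1 (ins p.1.map (fun c => ocm (p.2 c))) :=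
  Quotient.mk_out (s := rmSetoid) ⟨ins p.1.map (fun c => ocm (p.2 c)),
    ins_ok p.1.rns.ok fun c => ocm_ok (p.2 c)⟩

private theorem HerA_dm (p : Σ k : KC, (k.map.T → Option RMC)) :
    (insC p).out.1.dm = (ins p.1.map (fun c => ocm (p.2 c))).dm :=
  (dm_iso (insC p).out.2.toIsMap (ins_ok p.1.rns.ok fun c => ocm_ok (p.2 c)).toIsMap
    (HerA_iso p)).symm

private theorem HerA_part (p : Σ k : KC, (k.map.T → Option RMC)) {L : ℕ}
    (h : (insC p).out.1.dm ≤ L) (c : p.1.map.T) (m : RMC) (hm : p.2 c = some m) :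
    m.out.1.dm ≤ L := by
  rw [HerA_dm] at h
  exact (ocm_dm_le p.1.rns.isMap p.2 hm).trans h

/-- the sum over the rooted nonseparable maps -/
private theorem HerA_KC (F : KC → ℝ≥0∞) :
    ∑' k, F k = F .loop + (F .link + ∑' c, F (.good c)) := by
  let e : Option (Option GC) ≃ KC :=
    { toFun := fun o => match o with
        | none => .loop
        | some none => .link
        | some (some c) => .good c
      invFun := fun k => match k with
        | .loop => none
        | .link => some none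
        | .good c => some (some c)
      left_inv := by
        rintro (_ | _ | c) <;> rfl
      right_inv := by
        rintro (_ | _ | c) <;> rfl }
  rw [← e.tsum_eq, HerR_opt, HerR_opt]
  rfl

/-- the summand -/
private noncomputable def HerA_G (x : ℝ≥0∞) (L N : ℕ) (m : RMC) : ℝ≥0∞ :=
  if m.out.1.E = N ∧ m.out.1.dm ≤ L then x ^ (nV m.out.1.s - 1) else 0

private theorem HerA_two (x : ℝ≥0∞) (L n : ℕ) (k : KC) (hE : k.map.E = 1)
    (hc : Fintype.card k.map.T = 2) :
    ∑' Z : k.map.T → Option RMC, HerA_G x L (n + 1) (insC ⟨k, Z⟩) ≤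
      x ^ (nV k.map.s - 1) * coeff n (AL x L ^ 2) := by
  rw [← hc, HerR_AL_pow, ← ENNReal.tsum_mul_left]
  refine ENNReal.tsum_le_tsum fun Z => ?_
  unfold HerA_G
  by_cases h : (insC ⟨k, Z⟩).out.1.E = n + 1 ∧ (insC ⟨k, Z⟩).out.1.dm ≤ L
  · rw [if_pos h]
    have h1 := insC_E ⟨k, Z⟩
    have h2 := insC_nV ⟨k, Z⟩
    simp only at h1 h2
    rw [if_pos, h2, pow_add]
    refine ⟨fun c m hm => HerA_part ⟨k, Z⟩ h.2 c m hm, ?_⟩
    have h3 := h.1
    rw [h1, hE] at h3
    omega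
  · rw [if_neg h]
    exact zero_le

/-- a convolution of two coefficient sums is a sum over pairs -/
private theorem HerA_conv {α β : Type*} (P : α → Prop) (Q : β → Prop) (sa : α → ℕ) (sb : β → ℕ)
    (wa : α → ℝ≥0∞) (wb : β → ℝ≥0∞) (N : ℕ) [∀ a N, Decidable (P a ∧ sa a = N)]
    [∀ b N, Decidable (Q b ∧ sb b = N)]
    [∀ q : α × β, Decidable ((P q.1 ∧ Q q.2) ∧ sa q.1 + sb q.2 = N)] :
    ∑ p ∈ antidiagonal N, (∑' a, if P a ∧ sa a = p.1 then wa a else 0) *
      (∑' b, if Q b ∧ sb b = p.2 then wb b else 0) =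
    ∑' q : α × β, if (P q.1 ∧ Q q.2) ∧ sa q.1 + sb q.2 = N then wa q.1 * wb q.2 else 0 := by
  have h1 : ∀ p ∈ antidiagonal N, (∑' a, if P a ∧ sa a = p.1 then wa a else 0) *
      (∑' b, if Q b ∧ sb b = p.2 then wb b else 0) = ∑' q : α × β,
      (if P q.1 ∧ sa q.1 = p.1 then wa q.1 else 0) * (if Q q.2 ∧ sb q.2 = p.2 then wb q.2 else 0) :=
    fun p _ => tsum_prod_mul _ _
  rw [Finset.sum_congr rfl h1, ← Summable.tsum_finsetSum fun _ _ => ENNReal.summable]
  refine tsum_congr fun q => ?_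
  by_cases hq : (P q.1 ∧ Q q.2) ∧ sa q.1 + sb q.2 = N
  · rw [if_pos hq, Finset.sum_eq_single_of_mem (sa q.1, sb q.2) (mem_antidiagonal.2 hq.2)]
    · rw [if_pos ⟨hq.1.1, rfl⟩, if_pos ⟨hq.1.2, rfl⟩]
    · intro p _ hp
      by_cases h2 : sa q.1 = p.1
      · by_cases h3 : sb q.2 = p.2
        · exact absurd (Prod.ext h2.symm h3.symm) hp
        · rw [if_neg (c := Q q.2 ∧ sb q.2 = p.2) fun h => h3 h.2, mul_zero]
      · rw [if_neg fun h => h2 h.2, zero_mul]
  · rw [if_neg hq]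
    refine Finset.sum_eq_zero fun p hp => ?_
    by_cases h2 : P q.1 ∧ sa q.1 = p.1
    · by_cases h3 : Q q.2 ∧ sb q.2 = p.2
      · exact absurd ⟨⟨h2.1, h3.1⟩, by rw [h2.2, h3.2]; exact mem_antidiagonal.1 hp⟩ hq
      · rw [if_neg h3, mul_zero]
    · rw [if_neg h2, zero_mul]

private theorem HerA_prod (x : ℝ≥0∞) (L n : ℕ) :
    coeff n (AL x L ^ 2 * FL x L fun _ => True) =
      ∑' q : (Bool → Option RMC) × FN, if ((∀ i m, q.1 i = some m → m.out.1.dm ≤ L) ∧
        (fmap q.2).dm ≤ L) ∧ ∑ i, oE (q.1 i) + fsz q.2 = n then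
          x ^ (∑ i, onv (q.1 i)) * x ^ fnv q.2 else 0 := by
  rw [coeff_mul, ← HerA_conv (fun X : Bool → Option RMC => ∀ i m, X i = some m → m.out.1.dm ≤ L)
    (fun F : FN => (fmap F).dm ≤ L) (fun X => ∑ i, oE (X i)) fsz (fun X => x ^ (∑ i, onv (X i)))
    (fun F => x ^ fnv F)]
  refine Finset.sum_congr rfl fun p _ => ?_
  have h1 := HerR_AL_pow x L (I := Bool) p.1
  rw [Fintype.card_bool] at h1
  rw [h1, HerR_FL, coeff_mk]
  congr!

private theorem HerA_good (x : ℝ≥0∞) (L n : ℕ) :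
    ∑' c : GC, ∑' Z : (KC.good c).map.T → Option RMC, HerA_G x L (n + 1) (insC ⟨.good c, Z⟩) ≤
      x * coeff n (AL x L ^ 2 * FL x L fun _ => True) := by
  rw [HerA_prod, ← ENNReal.tsum_mul_left,
    tsum_sigma_eq (fun (c : GC) (Z : (KC.good c).map.T → Option RMC) =>
      HerA_G x L (n + 1) (insC ⟨.good c, Z⟩))]
  let φ : (Σ c : GC, ((KC.good c).map.T → Option RMC)) → (Bool → Option RMC) × FN := fun p =>
    (fun b => p.2 (Sum.inr b), ⟨p.1, fun d => p.2 (Sum.inl d)⟩)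
  have hφ : Function.Injective φ := by
    rintro ⟨c, Z⟩ ⟨c', Z'⟩ h
    have h1 : (fun b => Z (Sum.inr b)) = fun b => Z' (Sum.inr b) := congrArg Prod.fst h
    have h2 : (⟨c, fun d => Z (Sum.inl d)⟩ : FN) = ⟨c', fun d => Z' (Sum.inl d)⟩ :=
      congrArg Prod.snd h
    obtain ⟨h3, h4⟩ := Sigma.mk.inj h2
    subst h3
    have h5 := eq_of_heq h4
    have h6 : Z = Z' := by
      funext t
      rcases t with d | b
      · exact congrFun h5 d
      · exact congrFun h1 b
    rw [h6]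
  refine tsum_le_tsum_of_inj φ hφ ?_
  rintro ⟨c, Z⟩
  unfold HerA_G
  by_cases h : (insC ⟨.good c, Z⟩).out.1.E = n + 1 ∧ (insC ⟨.good c, Z⟩).out.1.dm ≤ L
  · have hs : ∀ f : (bR c.rep.1).T → ℕ, ∑ t, f t = ∑ d, f (Sum.inl d) + ∑ b, f (Sum.inr b) :=
      fun f => Fintype.sum_sum_type f
    have h1 := insC_E ⟨.good c, Z⟩
    have h2 := insC_nV ⟨.good c, Z⟩
    have h1' : (insC ⟨.good c, Z⟩).out.1.E = (bR c.rep.1).E +
      (∑ d, oE (Z (Sum.inl d)) + ∑ b, oE (Z (Sum.inr b))) := by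
      rw [h1]
      congr 1
      exact hs fun t => oE (Z t)
    have h2' : nV (insC ⟨.good c, Z⟩).out.1.s - 1 = (nV (bR c.rep.1).s - 1) +
      (∑ d, onv (Z (Sum.inl d)) + ∑ b, onv (Z (Sum.inr b))) := by
      rw [h2]
      congr 1
      exact hs fun t => onv (Z t)
    rw [(kc_good c).2.1] at h1'
    rw [(kc_good c).1] at h2'
    have hd := HerA_dm ⟨.good c, Z⟩
    have hr := fmap_root_dm c Z
    have hdm : (fmap ⟨c, fun d => Z (Sum.inl d)⟩).dm ≤ L := by
      refine hr.trans ?_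
      rw [hd] at h
      exact h.2
    have hfs : fsz ⟨c, fun d => Z (Sum.inl d)⟩ = Fintype.card c.rep.1.D / 2 +
      ∑ d, oE (Z (Sum.inl d)) := rfl
    have hfn : fnv ⟨c, fun d => Z (Sum.inl d)⟩ = (nV c.rep.1.s - 2) +
      ∑ d, onv (Z (Sum.inl d)) := rfl
    have h3 := h.1
    rw [if_pos h]
    show _ ≤ x * (if ((∀ (i : Bool) m, Z (Sum.inr i) = some m → m.out.1.dm ≤ L) ∧
        (fmap ⟨c, fun d => Z (Sum.inl d)⟩).dm ≤ L) ∧
        ∑ i : Bool, oE (Z (Sum.inr i)) + fsz ⟨c, fun d => Z (Sum.inl d)⟩ = n then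
          x ^ (∑ i : Bool, onv (Z (Sum.inr i))) * x ^ fnv ⟨c, fun d => Z (Sum.inl d)⟩ else 0)
    rw [if_pos, h2', hfn, ← pow_add, ← pow_succ']
    · refine le_of_eq (congrArg (fun k => x ^ k) ?_)
      omega
    · refine ⟨⟨fun i m hm => HerA_part ⟨.good c, Z⟩ h.2 (Sum.inr i) m hm, hdm⟩, ?_⟩
      rw [hfs]
      omega
  · rw [if_neg h]
    exact zero_le

theorem her_A (x : ℝ≥0∞) (L N : ℕ) : coeff N (AL x L) ≤
    coeff N (1 + ZL x L + C x * (ZL x L * (1 + FL x L fun _ => True))) := by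
  rcases N with _ | n
  · have h1 : coeff 0 (AL x L) = 1 := by
      unfold AL
      rw [coeff_mk]
      unfold aLE
      rw [if_pos rfl]
    rw [h1, map_add, map_add, coeff_one, if_pos rfl, add_assoc]
    exact le_self_add
  · have h1 : coeff (n + 1) (AL x L) = ∑' m : RMC, HerA_G x L (n + 1) m := by
      unfold AL
      rw [coeff_mk]
      unfold aLE
      rw [if_neg (Nat.succ_ne_zero n)]
      rfl
    have h2 : ∑' m : RMC, HerA_G x L (n + 1) m =
        ∑' k : KC, ∑' Z : k.map.T → Option RMC, HerA_G x L (n + 1) (insC ⟨k, Z⟩) := by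
      rw [tsum_sigma_eq (fun (k : KC) (Z : k.map.T → Option RMC) =>
        HerA_G x L (n + 1) (insC ⟨k, Z⟩))]
      exact ((Equiv.ofBijective insC insC_bij).tsum_eq (HerA_G x L (n + 1))).symm
    have h3 : coeff (n + 1) (1 + ZL x L + C x * (ZL x L * (1 + FL x L fun _ => True))) =
        coeff n (AL x L ^ 2) + (x * coeff n (AL x L ^ 2) +
          x * coeff n (AL x L ^ 2 * FL x L fun _ => True)) := by
      rw [map_add, map_add, coeff_one, if_neg (Nat.succ_ne_zero n), zero_add, coeff_C_mul, mul_add,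
        mul_one, map_add]
      unfold ZL
      rw [mul_assoc X, coeff_succ_X_mul, coeff_succ_X_mul, mul_add]
    rw [h1, h2, HerA_KC, h3]
    have h4 := HerA_two x L n .loop kc_loop.2.1 kc_loop.2.2
    have h5 := HerA_two x L n .link kc_link.2.1 kc_link.2.2
    have h6 : nV (KC.map .loop).s - 1 = 0 := by
      show nV loopR.s - 1 = 0
      rw [kc_loop.1]
    have h7 : nV (KC.map .link).s - 1 = 1 := by
      show nV linkR.s - 1 = 1
      rw [kc_link.1]
    rw [h6, pow_zero, one_mul] at h4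
    rw [h7, pow_one] at h5
    exact add_le_add h4 (add_le_add h5 (HerA_good x L n))

end Dia
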