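import Pool.Agent.DiaC.BigSum
import Pool.Agent.DiaC.SysR
import Pool.Agent.PGc.RigLe

/-!
# Maps and nets of bounded diameter: definitions

`L` = bound for the diameter.  A filled net is measured WITH its root edge (diameter of `fmap F`).
-/

set_option linter.unusedSectionVars false

namespace Dia
open Equiv Finset PGr Pool.Agent.DiamP
open scoped ENNReal Classical

/-- an inserted map with the root dart `r` -/
def CM.rm (X : CM) (r : X.D) : RM := { T := X.D, a := X.a, s := X.s, r := r }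

/-- the core of the parallel composition: three parallel edges -/
def parC : Core :=
  { I := Bool
    s := (swap (Sum.inr true) (Sum.inl (true, true)) * swap (Sum.inl (true, true)) (Sum.inl (false, true))) *
      (swap (Sum.inr false) (Sum.inl (false, false)) * swap (Sum.inl (false, false)) (Sum.inl (true, false))) }

/-- filled nets on the nonroot edges of a core -/
noncomputable def bigC (C : Core) (g : C.I → FN) : RM :=
  ins (bR (comp C fun i => (g i).1.rep))
    (rless (D := (comp C fun i => (g i).1.rep).D) fun d => ocm ((g d.1).2 d.2))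

/-- darts of the core in the composite -/
noncomputable def phC (C : Core) (g : C.I → FN) (t : C.toB.T) : (bigC C g).T :=
  il _ _ (jump C (fun i => (g i).1.rep) t)

/-- darts of the net `i` in the composite of nets -/
noncomputable def nemb (C : Core) (N : C.I → GB) (i : C.I) : (N i).1.T → (comp C N).T
  | Sum.inl d => Sum.inl ⟨i, d⟩
  | Sum.inr b => jump C N (Sum.inl (i, b))

section
variable (x : ℝ≥0∞) (L : ℕ)

/-- rooted maps with `N` edges and diameter at most `L` -/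
noncomputable def aLE (N : ℕ) : ℝ≥0∞ :=
  if N = 0 then 1 else
    ∑' m : RMC, if m.out.1.E = N ∧ m.out.1.dm ≤ L then x ^ (nV m.out.1.s - 1) else 0

/-- filled nets of size `N` and diameter at most `L` -/
noncomputable def fLE (P : BMap → Prop) (N : ℕ) : ℝ≥0∞ :=
  ∑' F : FN, if P F.1.rep.1 ∧ (fmap F).dm ≤ L ∧ fsz F = N then x ^ fnv F else 0

/-- rigid maps with `j` nonroot edges and diameter at most `L` -/
noncomputable def rLE (j : ℕ) : ℝ≥0∞ :=
  ∑' c : GC, if Rigid c.rep.1 ∧ gdm c ≤ L ∧ gE c = j then x ^ (nV c.rep.1.s - 2) else 0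

noncomputable def AL : PowerSeries ℝ≥0∞ := PowerSeries.mk (aLE x L)

noncomputable def ZL : PowerSeries ℝ≥0∞ := PowerSeries.X * AL x L ^ 2

noncomputable def FL (P : BMap → Prop) : PowerSeries ℝ≥0∞ := PowerSeries.mk (fLE x L P)

end

/-- neither series nor parallel, at least two nonroot edges -/
def IsRg (M : BMap) : Prop := ¬ IsSer M ∧ ¬ IsPar M ∧ 4 ≤ Fintype.card M.D

section
variable (x y : ℝ) (L : ℕ)

noncomputable def aLS : ℕ → ℝ := cfR (AL (ENNReal.ofReal x) L) y
noncomputable def zLS : ℕ → ℝ := cfR (ZL (ENNReal.ofReal x) L) y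
noncomputable def YLS : ℕ → ℝ := cfR (FL (ENNReal.ofReal x) L fun _ => True) y
noncomputable def SLS : ℕ → ℝ := cfR (FL (ENNReal.ofReal x) L IsSer) y
noncomputable def PLS : ℕ → ℝ := cfR (FL (ENNReal.ofReal x) L IsPar) y
noncomputable def RLS : ℕ → ℝ := cfR (FL (ENNReal.ofReal x) L IsRg) y
noncomputable def rhoLS (j : ℕ) : ℝ := (rLE (ENNReal.ofReal x) L j).toReal

end

/-- a system with inequalities, below the full system -/
structure SubSys (x y : ℝ) (ρ a z S P R Y ρ' a' z' S' P' R' Y' : ℕ → ℝ) : Prop where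
  ρ0 : ∀ n, 0 ≤ ρ' n
  a0 : ∀ n, 0 ≤ a' n
  z0 : ∀ n, 0 ≤ z' n
  S0 : ∀ n, 0 ≤ S' n
  P0 : ∀ n, 0 ≤ P' n
  R0 : ∀ n, 0 ≤ R' n
  Y0 : ∀ n, 0 ≤ Y' n
  ρle : ∀ n, ρ' n ≤ ρ n
  ale : ∀ n, a' n ≤ a n
  zle : ∀ n, z' n ≤ z n
  Sle : ∀ n, S' n ≤ S n
  Ple : ∀ n, P' n ≤ P n
  Rle : ∀ n, R' n ≤ R n
  Yle : ∀ n, Y' n ≤ Y n
  ha : ∀ n, a' n ≤ one0 n + z' n + x * (z' n + cv z' Y' n)
  hz0 : z' 0 = 0
  hz : ∀ n, z' (n + 1) = y * cv a' a' n
  hY : ∀ n, Y' n ≤ z' n + S' n + P' n + R' n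
  hY0 : Y' 0 = 0
  hS : ∀ n, S' n ≤ x * cv (z' + P' + R') Y' n
  hP : ∀ n, P' n ≤ cv (z' + S' + R') Y' n
  hR : ∀ n, R' n ≤ ∑ j ∈ range (n + 1), ρ' j * cvL (List.replicate j Y') n

end Dia
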