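import Pool.Agent.DiaC.BigC
import Pool.Agent.PGr.Digon

/-!
# Module HerR: rigid nets and the digon

`fL_pow`: `coeff N (FL x L True ^ card I)` is the sum over the families `g : I → FN` with all diameters `≤ L` and
`∑ fsz = N` of `x^(∑ fnv)`: as `fz_pow_coeff` in `ZSize.lean`, but without `ev_inj`: induction on the cardinality, or: for
every `y` both power series have the same value; or directly `Finset.prod_pow`-type expansion.  (Another
way: prove it for `Fin k` by induction on `k` with `Fin.consEquiv`, `PowerSeries.coeff_mul`, and transport by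
`Fintype.equivFin`.)

`her_rig`: `RigLe.exists_ix` (`PGc/RigLe.lean`) gives for `F` with `IsRg` a class `c` with `Rigid c.rep.1` and nets `N` with
`BIso F.1.rep.1 (comp (ESum.core c) N)`; `refill` with `C = ESum.core c` gives `g`; `F ↦ ⟨c, g⟩` is injective
(`bigC_inj`), `refill_stat`, `core_dm`, `core_card_I`; the right side is
`∑' c, ∑' g, [Rigid, gdm c ≤ L, all (fmap (g i)).dm ≤ L, ∑ fsz = N] x^(nV c - 2 + ∑ fnv)` (group `rLE` by `j = gE c`).

`her_dig`: if `card F.1.rep.1.D < 4` then `F.1 = cl digon` (`eq_digon`), `D` has two elements, `fsz F = 1 + oE + oE`,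
`fnv F = onv + onv`, and both inserted maps have diameter `≤ (fmap F).dm` (`ocm_dm_le` or `ins_part_dm`);
`coeff N (X * AL^2)` is the sum over pairs of `Option RMC` (`none` of size `0`, `some m` with `dm ≤ L`).
-/

set_option linter.unusedSectionVars false

namespace Dia
open Equiv Finset PGr PowerSeries
open scoped ENNReal Classical

/-- coefficients of a power of a series of a family of objects with a size and a weight -/
theorem HerR_pow {α : Type*} (P : α → Prop) (sz : α → ℕ) (w : α → ℝ≥0∞) {I : Type} [Fintype I]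
    (N : ℕ) [∀ a N, Decidable (P a ∧ sz a = N)]
    [∀ g : I → α, Decidable ((∀ i, P (g i)) ∧ ∑ i, sz (g i) = N)] :
    coeff N ((PowerSeries.mk fun N => ∑' a, if P a ∧ sz a = N then w a else 0) ^ Fintype.card I) =
      ∑' g : I → α, if (∀ i, P (g i)) ∧ ∑ i, sz (g i) = N then ∏ i, w (g i) else 0 := by
  rw [← Finset.card_univ, ← Finset.prod_const, coeff_prod]
  have h1 : ∀ l ∈ finsuppAntidiag (univ : Finset I) N,
      ∏ i : I, coeff (l i) (PowerSeries.mk fun N => ∑' a, if P a ∧ sz a = N then w a else 0) =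
      ∑' g : I → α, ∏ i, if P (g i) ∧ sz (g i) = l i then w (g i) else 0 := by
    intro l _
    rw [← prod_tsum (fun (i : I) (a : α) => if P a ∧ sz a = l i then w a else 0)]
    exact Finset.prod_congr rfl fun i _ => coeff_mk _ _
  rw [Finset.sum_congr rfl h1, ← Summable.tsum_finsetSum fun _ _ => ENNReal.summable]
  refine tsum_congr fun g => ?_
  by_cases hg : (∀ i, P (g i)) ∧ ∑ i, sz (g i) = N
  · rw [if_pos hg]
    have hl : Finsupp.equivFunOnFinite.symm (fun i => sz (g i)) ∈
        finsuppAntidiag (univ : Finset I) N := by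
      rw [mem_finsuppAntidiag]
      exact ⟨hg.2, Finset.subset_univ _⟩
    rw [Finset.sum_eq_single_of_mem _ hl]
    · exact Finset.prod_congr rfl fun i _ => if_pos ⟨hg.1 i, rfl⟩
    · intro l _ hne
      obtain ⟨i, hi⟩ : ∃ i, l i ≠ sz (g i) := by
        by_contra hcon
        push Not at hcon
        exact hne (Finsupp.ext hcon)
      exact Finset.prod_eq_zero (Finset.mem_univ i) (if_neg fun h => hi h.2.symm)
  · rw [if_neg hg]
    refine Finset.sum_eq_zero fun l hl => ?_
    rw [mem_finsuppAntidiag] at hl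
    by_contra hne
    apply hg
    have h2 : ∀ i, P (g i) ∧ sz (g i) = l i := by
      intro i
      by_contra hi
      exact hne (Finset.prod_eq_zero (Finset.mem_univ i) (if_neg hi))
    refine ⟨fun i => (h2 i).1, ?_⟩
    rw [← hl.1]
    exact Finset.sum_congr rfl fun i _ => (h2 i).2

theorem HerR_FL (x : ℝ≥0∞) (L : ℕ) : FL x L (fun _ => True) =
    PowerSeries.mk fun N => ∑' F : FN, if (fmap F).dm ≤ L ∧ fsz F = N then x ^ fnv F else 0 := by
  unfold FL fLE
  congr 1
  funext N
  refine tsum_congr fun F => ?_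
  by_cases h : (fmap F).dm ≤ L ∧ fsz F = N
  · rw [if_pos h, if_pos ⟨trivial, h⟩]
  · rw [if_neg h, if_neg fun h' => h h'.2]

theorem fL_pow (x : ℝ≥0∞) (L : ℕ) {I : Type} [Fintype I] (N : ℕ) :
    coeff N (FL x L (fun _ => True) ^ Fintype.card I) =
      ∑' g : I → FN, if (∀ i, (fmap (g i)).dm ≤ L) ∧ ∑ i, fsz (g i) = N then
        x ^ (∑ i, fnv (g i)) else 0 := by
  rw [HerR_FL, HerR_pow (fun F : FN => (fmap F).dm ≤ L) fsz (fun F => x ^ fnv F)]
  refine tsum_congr fun g => ?_
  rw [Finset.prod_pow_eq_pow_sum]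

theorem her_rig (x : ℝ≥0∞) (L N : ℕ) :
    fLE x L IsRg N ≤ ∑' j, rLE x L j * coeff N (FL x L (fun _ => True) ^ j) := by
  have h1 : ∑' j, rLE x L j * coeff N (FL x L (fun _ => True) ^ j) =
      ∑' p : Σ c : GC, ((ESum.core c).I → FN), if (Rigid p.1.rep.1 ∧ gdm p.1 ≤ L) ∧
        ((∀ i, (fmap (p.2 i)).dm ≤ L) ∧ ∑ i, fsz (p.2 i) = N) then
          x ^ (nV p.1.rep.1.s - 2) * x ^ (∑ i, fnv (p.2 i)) else 0 := by
    have h2 : ∀ j, rLE x L j * coeff N (FL x L (fun _ => True) ^ j) =
        ∑' c : GC, if gE c = j then (if Rigid c.rep.1 ∧ gdm c ≤ L then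
          x ^ (nV c.rep.1.s - 2) * coeff N (FL x L (fun _ => True) ^ gE c) else 0) else 0 := by
      intro j
      unfold rLE
      rw [← ENNReal.tsum_mul_right]
      refine tsum_congr fun c => ?_
      by_cases hj : gE c = j
      · subst hj
        rw [if_pos rfl]
        by_cases hc : Rigid c.rep.1 ∧ gdm c ≤ L
        · rw [if_pos hc, if_pos ⟨hc.1, hc.2, rfl⟩]
        · rw [if_neg hc, if_neg fun h => hc ⟨h.1, h.2.1⟩, zero_mul]
      · rw [if_neg hj, if_neg fun h => hj h.2.2, zero_mul]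
    rw [tsum_congr h2, ENNReal.tsum_comm, ENNReal.tsum_sigma']
    refine tsum_congr fun c => ?_
    rw [tsum_eq_single (gE c) fun j hj => if_neg fun h => hj h.symm, if_pos rfl]
    by_cases hc : Rigid c.rep.1 ∧ gdm c ≤ L
    · rw [if_pos hc, ← core_card_I c, fL_pow, ← ENNReal.tsum_mul_left]
      refine tsum_congr fun g => ?_
      by_cases hg : (∀ i, (fmap (g i)).dm ≤ L) ∧ ∑ i, fsz (g i) = N
      · rw [if_pos hg, if_pos ⟨hc, hg⟩]
      · rw [if_neg hg, if_neg fun h => hg h.2, mul_zero]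
    · rw [if_neg hc]
      symm
      rw [ENNReal.tsum_eq_zero]
      exact fun g => if_neg fun h => hc h.1
  rw [h1]
  unfold fLE
  have h3 : ∀ F : FN, ∃ p : Σ c : GC, ((ESum.core c).I → FN), IsRg F.1.rep.1 →
      Rigid p.1.rep.1 ∧ RMIso (fmap F) (bigC (ESum.core p.1) p.2) := by
    intro F
    by_cases hF : IsRg F.1.rep.1
    · obtain ⟨p, hR, N', -, hB⟩ := RigLe.exists_ix F.1.rep.2 hF.1 hF.2.1 hF.2.2
      obtain ⟨g, -, hI⟩ := refill (ESum.core_good p.1) (BIso.symm hB)
      exact ⟨⟨p.1, g⟩, fun _ => ⟨hR, hI⟩⟩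
    · exact ⟨⟨F.1, fun _ => F⟩, fun h => absurd h hF⟩
  choose φ hφ using h3
  have hne : ∀ F : FN, (if IsRg F.1.rep.1 ∧ (fmap F).dm ≤ L ∧ fsz F = N then x ^ fnv F else 0) ≠ 0 →
      IsRg F.1.rep.1 ∧ (fmap F).dm ≤ L ∧ fsz F = N := by
    intro F hF
    by_contra h3
    rw [if_neg h3] at hF
    exact hF rfl
  refine tsum_le_tsum_of_injOn φ ?_ ?_
  · intro F F' hF hF' he
    have hI := (hφ F (hne F hF).1).2
    have hI' := (hφ F' (hne F' hF').1).2
    rw [← he] at hI'
    exact bigC_inj hI hI'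
  · intro F hF
    obtain ⟨hP, hL, hN⟩ := hne F hF
    obtain ⟨hR, hI⟩ := hφ F hP
    obtain ⟨h3, h4, h5, h6⟩ := refill_stat (ESum.core_good (φ F).1) hI
    rw [core_dm] at h5
    have h7 : nV (ESum.core (φ F).1).s = nV (φ F).1.rep.1.s := (ESum.core_iso (φ F).1).nV_eq
    rw [h7] at h4
    rw [if_pos ⟨hP, hL, hN⟩, if_pos ⟨⟨hR, h5.trans hL⟩, fun i => (h6 i).trans hL,
      h3.symm.trans hN⟩, h4, pow_add]

theorem HerR_opt {α : Type*} (f : Option α → ℝ≥0∞) :
    ∑' o, f o = f none + ∑' a, f (some a) := by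
  have h1 := (ENNReal.summable (f := fun x : ({none} : Set (Option α)) => f x)).tsum_add_tsum_compl
    (ENNReal.summable (f := fun x : (({none} : Set (Option α))ᶜ : Set (Option α)) => f x))
  rw [← h1, tsum_singleton none f]
  congr 1
  have h2 : (({none} : Set (Option α))ᶜ : Set (Option α)) = Set.range some := by
    ext o
    rcases o with _ | a <;> simp
  rw [h2]
  exact tsum_range (g := some) f (Option.some_injective α)

theorem HerR_E_pos (m : RMC) : m.out.1.E ≠ 0 := by
  intro h
  have hM : m.out.1.IsMap := m.out.2.toIsMap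
  unfold RM.E at h
  have h1 : Fintype.card m.out.1.T < 2 := by omega
  have h2 : Fintype.card m.out.1.T ≤ 1 := by omega
  have h3 := Fintype.card_le_one_iff.1 h2 (m.out.1.a m.out.1.r) m.out.1.r
  exact hM.fpf _ h3

/-- `AL` as a sum over optional classes -/
theorem aL_opt (x : ℝ≥0∞) (L N : ℕ) : aLE x L N =
    ∑' o : Option RMC, if (∀ m, o = some m → m.out.1.dm ≤ L) ∧ oE o = N then x ^ onv o else 0 := by
  rw [HerR_opt]
  have hn : ∀ m : RMC, (∀ m' : RMC, some m = some m' → m'.out.1.dm ≤ L) ↔ m.out.1.dm ≤ L := by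
    intro m
    constructor
    · intro h
      exact h m rfl
    · intro h m' hm'
      rw [← Option.some.inj hm']
      exact h
  by_cases hN : N = 0
  · subst hN
    unfold aLE
    rw [if_pos rfl, if_pos ⟨fun m hm => (by cases hm), rfl⟩]
    have h1 : ∑' a : RMC, (if (∀ m, some a = some m → m.out.1.dm ≤ L) ∧ oE (some a) = 0 then
        x ^ onv (some a) else 0) = 0 := by
      rw [ENNReal.tsum_eq_zero]
      intro m
      exact if_neg fun h => HerR_E_pos m h.2
    rw [h1, add_zero]
    exact (pow_zero x).symm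
  · unfold aLE
    rw [if_neg hN, if_neg (c := _ ∧ oE none = N) fun h => hN h.2.symm, zero_add]
    refine tsum_congr fun m => ?_
    by_cases h : m.out.1.E = N ∧ m.out.1.dm ≤ L
    · rw [if_pos h, if_pos ⟨(hn m).2 h.2, h.1⟩]
      rfl
    · rw [if_neg h, if_neg fun h' => h ⟨h'.2, (hn m).1 h'.1⟩]

theorem HerR_AL (x : ℝ≥0∞) (L : ℕ) : AL x L = PowerSeries.mk fun N =>
    ∑' o : Option RMC, if (∀ m, o = some m → m.out.1.dm ≤ L) ∧ oE o = N then x ^ onv o else 0 := by
  unfold AL
  congr 1
  funext N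
  exact aL_opt x L N

/-- the coefficients of a power of `AL` -/
theorem HerR_AL_pow (x : ℝ≥0∞) (L : ℕ) {I : Type} [Fintype I] (N : ℕ) :
    coeff N (AL x L ^ Fintype.card I) =
      ∑' X : I → Option RMC, if (∀ i m, X i = some m → m.out.1.dm ≤ L) ∧ ∑ i, oE (X i) = N then
        x ^ (∑ i, onv (X i)) else 0 := by
  rw [HerR_AL, HerR_pow (fun o : Option RMC => ∀ m, o = some m → m.out.1.dm ≤ L) oE
    (fun o => x ^ onv o)]
  refine tsum_congr fun g => ?_
  rw [Finset.prod_pow_eq_pow_sum]

theorem her_dig (x : ℝ≥0∞) (L N : ℕ) :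
    fLE x L (fun M => Fintype.card M.D < 4) N ≤ coeff N (ZL x L) := by
  unfold fLE
  rw [ENNReal.tsum_sigma']
  set c0 : GC := ESum.cl ⟨digonB, digon_good⟩ with hc0
  have hiso : BIso c0.rep.1 digonB := ESum.rep_iso ⟨digonB, digon_good⟩
  have hcard : Fintype.card c0.rep.1.D = 2 := by
    rw [hiso.card_eq]
    rfl
  have hnv : nV c0.rep.1.s = 2 := by
    rw [hiso.nV_eq, digon_nV]
  rw [tsum_eq_single c0]
  · unfold ZL
    rcases N with _ | n
    · rw [coeff_zero_X_mul]
      refine le_of_eq ?_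
      rw [ENNReal.tsum_eq_zero]
      intro X
      refine if_neg fun h => ?_
      have h1 : fsz ⟨c0, X⟩ = 0 := h.2.2
      unfold fsz at h1
      rw [hcard] at h1
      omega
    · rw [coeff_succ_X_mul, ← hcard, HerR_AL_pow]
      refine ENNReal.tsum_le_tsum fun X => ?_
      by_cases h : Fintype.card c0.rep.1.D < 4 ∧ (fmap ⟨c0, X⟩).dm ≤ L ∧ fsz ⟨c0, X⟩ = n + 1
      · rw [if_pos h]
        obtain ⟨-, hL, hN⟩ := h
        have h1 : ∑ d, oE (X d) = n := by
          unfold fsz at hN
          rw [hcard] at hN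
          simp only at hN
          omega
        have h2 : fnv ⟨c0, X⟩ = ∑ d, onv (X d) := by
          unfold fnv
          rw [hnv]
          simp
        rw [if_pos, h2]
        refine ⟨fun d m hm => ?_, h1⟩
        have h3 := ocm_dm_le (C := bR c0.rep.1) (bR_isMap c0.rep.2)
          (fun t => Sum.elim X (fun _ => none) t) (c := Sum.inl d) (m := m) hm
        have h4 : (fun t : (bR c0.rep.1).T => ocm (Sum.elim X (fun _ => none) t)) =
            rless fun d => ocm (X d) := by
          funext t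
          rcases t with d | b
          · rfl
          · rfl
        rw [h4] at h3
        exact h3.trans hL
      · rw [if_neg h]
        exact zero_le
  · intro c hc
    rw [ENNReal.tsum_eq_zero]
    intro X
    refine if_neg fun h => hc ?_
    exact ESum.eq_of_iso ((eq_digon c.rep.2 h.1).trans hiso.symm)

end Dia
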