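import Pool.Agent.DiaC.HerDefs
import Pool.Agent.DiaC.InsD

/-!
# Module InsDD: the distances in a map with insertions

`X.rm r` is the inserted map with root dart `r` (the distance does not depend on the root).
`C.IsMap` and `(X c).IsC` give that `ins C X` is a map (`ins_isMap`); `(X c).rm r` is a map (`CM_rm_isMap`).

`dd_ir_ir`: `≥`: the function `f (ir c e) = dd d e` (in `X c`), `f (il c'') = dd d r + C.dd c c''`,
`f (ir c'' e) = dd d r + C.dd c c''` for `c'' ≠ c` (`r` = root of `X c`) is constant on vertices and changes by at most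
one along edges: `lip`.  (`s (ir c e) = il (C.s c)` if `s e = r`: then `dd d e = dd d r`, `dd_sc`.)
`≤`: induction on the distance in `X c` (`dd_pred`, `sc_ir`, `dd_a`).
`dd_ir_il`: `≤`: triangle inequality at the vertex of `il c` = vertex of `ir c r` (`sc_root`), `dd_ir_ir`, `dd_il`.
`≥`: `lip` for the same function with base point `ir c d`.
`dd_ir_ir'`: the same, with the function `f (ir c e) = dd d e`, `f (il c'') = dd d r + C.dd c c''`,
`f (ir c'' e) = dd d r + C.dd c c'' + dd r'' e`.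

`ins_dm_le`: compare the formulas; `φ` is a map of the corners which decreases no distance, injective on
the corners with insertions.  Take `t, t'` with `dd t t' = dm` (`exists_dm`), four cases.  `dd_iso` for the
isomorphism of `X c` and `X' (φ c)`.
`ins_part_dm`: `dd_ir_ir`.
-/

set_option linter.unusedSectionVars false

namespace Dia
open Equiv Finset PGr

variable {C C' : RM} {X : C.T → CM} {X' : C'.T → CM}

private noncomputable def InsDD_xd (Y : CM) (t t' : Y.D) : ℕ := (Y.rm t).dd t t'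

private theorem InsDD_xd_eq (Y : CM) (r t t' : Y.D) : (Y.rm r).dd t t' = InsDD_xd Y t t' := rfl

theorem CM_rm_isMap {Y : CM} (hY : Y.IsC) (r : Y.D) : (Y.rm r).IsMap :=
  ⟨hY.inv, hY.fpf, hY.conn⟩

private theorem InsDD_self (Y : CM) (t : Y.D) : InsDD_xd Y t t = 0 := dd_self (M := Y.rm t) t

private theorem InsDD_comm (Y : CM) (t t' : Y.D) : InsDD_xd Y t t' = InsDD_xd Y t' t :=
  dd_comm (M := Y.rm t) t t'

private theorem InsDD_s (Y : CM) (t t' : Y.D) : InsDD_xd Y t (Y.s t') = InsDD_xd Y t t' :=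
  dd_congr (M := Y.rm t) (Perm.SameCycle.refl _ _)
    (Perm.sameCycle_apply_left.2 (Perm.SameCycle.refl _ _))

private theorem InsDD_s' (Y : CM) (t : Y.D) : InsDD_xd Y (Y.s t) t = 0 := by
  rw [InsDD_comm, InsDD_s, InsDD_self]

private theorem InsDD_a {Y : CM} (hY : Y.IsC) (t t' : Y.D) :
    InsDD_xd Y t (Y.a t') ≤ InsDD_xd Y t t' + 1 :=
  (CM_rm_isMap hY t).dist_a ((Y.rm t).vx t) t'

private theorem InsDD_iso {Y Z : CM} (hY : Y.IsC) (hZ : Z.IsC) (e : Y.D ≃ Z.D)
    (ha : ∀ t, e (Y.a t) = Z.a (e t)) (hs : ∀ t, e (Y.s t) = Z.s (e t)) (t t' : Y.D) :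
    InsDD_xd Z (e t) (e t') = InsDD_xd Y t t' :=
  dd_iso (M := Y.rm t) (N := Z.rm (e t)) (CM_rm_isMap hY t) (CM_rm_isMap hZ (e t)) e ha hs t t'

private theorem InsDD_root {Y : CM} (hY : Y.IsC) (d : Y.D) : ∃ r, Y.r = some r := by
  rcases h : Y.r with _ | r
  · exact (hY.root h).elim d
  · exact ⟨r, rfl⟩

private theorem InsDD_le (hC : C.IsMap) (hX : ∀ c, (X c).IsC) {c : C.T} (d d' : (X c).D) :
    (ins C X).dd (ir X c d) (ir X c d') ≤ InsDD_xd (X c) d d' := by
  have hI := ins_isMap hC hX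
  have h1 := lip (CM_rm_isMap (hX c) d)
    (fun e => ((ins C X).dd (ir X c d) (ir X c e) : ℤ)) ?_ ?_ d d'
  · have h2 : ((ins C X).dd (ir X c d) (ir X c d') : ℤ) ≤
        ((ins C X).dd (ir X c d) (ir X c d) : ℤ) + (InsDD_xd (X c) d d' : ℤ) := h1
    rw [dd_self] at h2
    have h3 : ((0 : ℕ) : ℤ) = 0 := rfl
    omega
  · intro e
    show ((ins C X).dd (ir X c d) (ir X c ((X c).s e)) : ℤ) = (ins C X).dd (ir X c d) (ir X c e)
    have h2 : (X c).s.SameCycle ((X c).s e) e :=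
      Perm.sameCycle_apply_left.2 (Perm.SameCycle.refl _ _)
    rw [dd_congr (Perm.SameCycle.refl _ _) ((sc_ir hX).2 h2)]
  · intro e
    show ((ins C X).dd (ir X c d) (ir X c ((X c).a e)) : ℤ) ≤
      (ins C X).dd (ir X c d) (ir X c e) + 1
    rw [← ins_a_ir]
    exact_mod_cast hI.dist_a ((ins C X).vx (ir X c d)) (ir X c e)

/-- the distance from `ir c d` -/
private noncomputable def InsDD_F (C : RM) (X : C.T → CM) (c : C.T) (r d : (X c).D) :
    C.T ⊕ (Σ c, (X c).D) → ℕ
  | Sum.inl c' => InsDD_xd (X c) d r + C.dd c c'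
  | Sum.inr p =>
    if h : p.1 = c then InsDD_xd (X c) d (h ▸ p.2)
    else InsDD_xd (X c) d r + C.dd c p.1 + InsDD_xd (X p.1) ((X p.1).r.getD p.2) p.2

private theorem InsDD_F_il {c : C.T} (r d : (X c).D) (c' : C.T) :
    InsDD_F C X c r d (il C X c') = InsDD_xd (X c) d r + C.dd c c' := rfl

private theorem InsDD_F_ir {c : C.T} (r d e : (X c).D) :
    InsDD_F C X c r d (ir X c e) = InsDD_xd (X c) d e := dif_pos rfl

private theorem InsDD_F_ne {c : C.T} (r d : (X c).D) {c' : C.T} (h : c' ≠ c) {r' : (X c').D}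
    (hr' : (X c').r = some r') (e : (X c').D) :
    InsDD_F C X c r d (ir X c' e) =
      InsDD_xd (X c) d r + C.dd c c' + InsDD_xd (X c') r' e := by
  refine (dif_neg h).trans ?_
  show InsDD_xd (X c) d r + C.dd c c' + InsDD_xd (X c') ((X c').r.getD e) e = _
  rw [hr']
  rfl

private theorem InsDD_ge (hC : C.IsMap) (hX : ∀ c, (X c).IsC) {c : C.T} {r : (X c).D}
    (hr : (X c).r = some r) (d : (X c).D) (t : (ins C X).T) :
    InsDD_F C X c r d t ≤ (ins C X).dd (ir X c d) t := by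
  have hI := ins_isMap hC hX
  have hCs : ∀ c', C.dd c (C.s c') = C.dd c c' := fun c' =>
    dd_congr (Perm.SameCycle.refl _ _) (Perm.sameCycle_apply_left.2 (Perm.SameCycle.refl _ _))
  have h1 := lip hI (fun t => (InsDD_F C X c r d t : ℤ)) ?_ ?_ (ir X c d) t
  · have h2 : (InsDD_F C X c r d t : ℤ) ≤
        (InsDD_F C X c r d (ir X c d) : ℤ) + (ins C X).dd (ir X c d) t := h1
    rw [InsDD_F_ir, InsDD_self] at h2
    have h3 : ((0 : ℕ) : ℤ) = 0 := rfl
    omega
  · intro t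
    show (InsDD_F C X c r d ((ins C X).s t) : ℤ) = InsDD_F C X c r d t
    rcases ins_cases C X t with ⟨c', rfl⟩ | ⟨c', e, rfl⟩
    · rcases hr' : (X c').r with _ | r'
      · rw [ins_s_il_none C X hr', InsDD_F_il, InsDD_F_il, hCs]
      · rw [ins_s_il_some C X hr', InsDD_F_il]
        by_cases h : c' = c
        · subst h
          rw [hr] at hr'
          have h2 := Option.some.inj hr'
          subst h2
          rw [InsDD_F_ir, dd_self, add_zero]
        · rw [InsDD_F_ne r d h hr', InsDD_self, add_zero]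
    · obtain ⟨r', hr'⟩ := InsDD_root (hX c') e
      by_cases hd : (X c').r = some ((X c').s e)
      · rw [ins_s_ir_eq C X hd, InsDD_F_il, hCs]
        by_cases h : c' = c
        · subst h
          rw [hr] at hd
          have h2 := Option.some.inj hd
          rw [InsDD_F_ir, dd_self, add_zero, h2, InsDD_s]
        · rw [InsDD_F_ne r d h hd, InsDD_s', add_zero]
      · rw [ins_s_ir_ne C X hd]
        by_cases h : c' = c
        · subst h
          rw [InsDD_F_ir, InsDD_F_ir, InsDD_s]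
        · rw [InsDD_F_ne r d h hr', InsDD_F_ne r d h hr', InsDD_s]
  · intro t
    show (InsDD_F C X c r d ((ins C X).a t) : ℤ) ≤ InsDD_F C X c r d t + 1
    rcases ins_cases C X t with ⟨c', rfl⟩ | ⟨c', e, rfl⟩
    · rw [ins_a_il, InsDD_F_il, InsDD_F_il]
      have h2 : C.dd c (C.a c') ≤ C.dd c c' + 1 := hC.dist_a (C.vx c) c'
      push_cast
      have h3 : (C.dd c (C.a c') : ℤ) ≤ C.dd c c' + 1 := by exact_mod_cast h2
      linarith
    · obtain ⟨r', hr'⟩ := InsDD_root (hX c') e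
      rw [ins_a_ir]
      by_cases h : c' = c
      · subst h
        rw [InsDD_F_ir, InsDD_F_ir]
        exact_mod_cast InsDD_a (hX c') d e
      · rw [InsDD_F_ne r d h hr', InsDD_F_ne r d h hr']
        have h3 : (InsDD_xd (X c') r' ((X c').a e) : ℤ) ≤ InsDD_xd (X c') r' e + 1 := by
          exact_mod_cast InsDD_a (hX c') r' e
        push_cast
        linarith

theorem dd_ir_ir (hC : C.IsMap) (hX : ∀ c, (X c).IsC) {c : C.T} (r d d' : (X c).D) :
    (ins C X).dd (ir X c d) (ir X c d') = ((X c).rm r).dd d d' := by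
  rw [InsDD_xd_eq]
  refine le_antisymm (InsDD_le hC hX d d') ?_
  obtain ⟨r', hr'⟩ := InsDD_root (hX c) d
  have h1 := InsDD_ge hC hX hr' d (ir X c d')
  rwa [InsDD_F_ir] at h1

private theorem InsDD_root_il {c : C.T} {r : (X c).D} (hr : (X c).r = some r) :
    (ins C X).dd (ir X c r) (il C X c) = 0 := dd_sc (sc_root hr).symm

theorem dd_ir_il (hC : C.IsMap) (hX : ∀ c, (X c).IsC) {c : C.T} (c' : C.T) {r : (X c).D}
    (hr : (X c).r = some r) (d : (X c).D) :
    (ins C X).dd (ir X c d) (il C X c') = ((X c).rm r).dd d r + C.dd c c' := by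
  have hI := ins_isMap hC hX
  rw [InsDD_xd_eq]
  refine le_antisymm ?_ (InsDD_ge hC hX hr d (il C X c'))
  have h1 := dd_triangle hI (ir X c d) (ir X c r) (il C X c')
  have h2 := dd_triangle hI (ir X c r) (il C X c) (il C X c')
  rw [InsDD_root_il hr, dd_il hC hX] at h2
  rw [dd_ir_ir hC hX r, InsDD_xd_eq] at h1
  omega

theorem dd_ir_ir' (hC : C.IsMap) (hX : ∀ c, (X c).IsC) {c c' : C.T} (hc : c ≠ c') {r : (X c).D}
    (hr : (X c).r = some r) {r' : (X c').D} (hr' : (X c').r = some r') (d : (X c).D) (d' : (X c').D) :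
    (ins C X).dd (ir X c d) (ir X c' d') =
      ((X c).rm r).dd d r + C.dd c c' + ((X c').rm r').dd r' d' := by
  have hI := ins_isMap hC hX
  have h1 := InsDD_ge hC hX hr d (ir X c' d')
  rw [InsDD_F_ne r d hc.symm hr'] at h1
  rw [InsDD_xd_eq, InsDD_xd_eq]
  refine le_antisymm ?_ h1
  have h2 := dd_triangle hI (ir X c d) (il C X c') (ir X c' d')
  have h3 := dd_triangle hI (il C X c') (ir X c' r') (ir X c' d')
  rw [dd_ir_il hC hX c' hr d] at h2
  rw [dd_comm (il C X c') (ir X c' r'), InsDD_root_il hr', dd_ir_ir hC hX r'] at h3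
  rw [InsDD_xd_eq] at h2 h3
  omega

private theorem InsDD_le_dm (M : RM) (t t' : M.T) : M.dd t t' ≤ M.dm :=
  (dd_le_ecc t t').trans (ecc_le_dm _)

theorem ins_dm_le (hC : C.IsMap) (hX : ∀ c, (X c).IsC) (hC' : C'.IsMap) (hX' : ∀ c, (X' c).IsC)
    (φ : C.T → C'.T) (hd : ∀ c c', C.dd c c' ≤ C'.dd (φ c) (φ c'))
    (hi : ∀ c c', (X c).r ≠ none → (X c').r ≠ none → φ c = φ c' → c = c')
    (h : ∀ c, (X c).r ≠ none → CMIso (X c) (X' (φ c))) :
    (ins C X).dm ≤ (ins C' X').dm := by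
  -- an insertion which occurs, with its isomorphism
  have key : ∀ c, (X c).D → ∃ (r : (X c).D) (r' : (X' (φ c)).D) (e : (X c).D → (X' (φ c)).D),
      (X c).r = some r ∧ (X' (φ c)).r = some r' ∧ e r = r' ∧
      ∀ t t', InsDD_xd (X' (φ c)) (e t) (e t') = InsDD_xd (X c) t t' := by
    intro c d
    obtain ⟨r, hr⟩ := InsDD_root (hX c) d
    obtain ⟨e, ha, hs, hr'⟩ := h c (by rw [hr]; exact Option.some_ne_none r)
    refine ⟨r, e r, e, hr, ?_, rfl, fun t t' => InsDD_iso (hX c) (hX' _) e ha hs t t'⟩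
    rw [← hr', hr]
    rfl
  have hne : ∀ c, (X c).D → (X c).r ≠ none := by
    intro c d
    obtain ⟨r, hr⟩ := InsDD_root (hX c) d
    rw [hr]
    exact Option.some_ne_none r
  have main : ∀ (c : C.T) (d : (X c).D) (c' : C.T),
      (ins C X).dd (ir X c d) (il C X c') ≤ (ins C' X').dm := by
    intro c d c'
    obtain ⟨r, r', e, hr, hr', her, he⟩ := key c d
    rw [dd_ir_il hC hX c' hr d, InsDD_xd_eq]
    refine le_trans ?_ (InsDD_le_dm _ (ir X' (φ c) (e d)) (il C' X' (φ c')))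
    rw [dd_ir_il hC' hX' (φ c') hr' (e d), InsDD_xd_eq, ← her, he]
    exact Nat.add_le_add_left (hd c c') _
  obtain ⟨t, t', ht⟩ := exists_dm (ins C X)
  rw [← ht]
  rcases ins_cases C X t with ⟨c, rfl⟩ | ⟨c, d, rfl⟩ <;>
    rcases ins_cases C X t' with ⟨c', rfl⟩ | ⟨c', d', rfl⟩
  · rw [dd_il hC hX]
    refine (hd c c').trans ?_
    rw [← dd_il hC' hX']
    exact InsDD_le_dm _ _ _
  · rw [dd_comm]
    exact main c' d' c
  · exact main c d c'
  · by_cases hcc : c = c'
    · subst hcc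
      obtain ⟨r, r', e, hr, hr', her, he⟩ := key c d
      rw [dd_ir_ir hC hX r, InsDD_xd_eq, ← he, ← InsDD_xd_eq _ r', ← dd_ir_ir hC' hX' r']
      exact InsDD_le_dm _ _ _
    · obtain ⟨r, r', e, hr, hr', her, he⟩ := key c d
      obtain ⟨r₁, r₁', e₁, hr₁, hr₁', her₁, he₁⟩ := key c' d'
      have hφ : φ c ≠ φ c' := fun h1 => hcc (hi c c' (hne c d) (hne c' d') h1)
      rw [dd_ir_ir' hC hX hcc hr hr₁, InsDD_xd_eq, InsDD_xd_eq]
      refine le_trans ?_ (InsDD_le_dm _ (ir X' (φ c) (e d)) (ir X' (φ c') (e₁ d')))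
      rw [dd_ir_ir' hC' hX' hφ hr' hr₁', InsDD_xd_eq, InsDD_xd_eq, ← her, ← her₁, he, he₁]
      have h1 := hd c c'
      omega

theorem ins_part_dm (hC : C.IsMap) (hX : ∀ c, (X c).IsC) {c : C.T} (r : (X c).D) :
    ((X c).rm r).dm ≤ (ins C X).dm := by
  obtain ⟨t, t', ht⟩ := exists_dm ((X c).rm r)
  rw [← ht]
  have h1 : ((X c).rm r).dd t t' = (ins C X).dd (ir X c t) (ir X c t') :=
    (dd_ir_ir hC hX r t t').symm
  rw [h1]
  exact InsDD_le_dm _ _ _

/-- the maps inserted by `ocm` -/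
theorem ocm_dm_le {C : RM} (hC : C.IsMap) (Z : C.T → Option RMC) {c : C.T} {m : RMC}
    (h : Z c = some m) : m.out.1.dm ≤ (ins C fun t => ocm (Z t)).dm := by
  have h1 : ∀ o : Option RMC, o = some m → ∃ r : (ocm o).D, ((ocm o).rm r).dm = m.out.1.dm := by
    rintro _ rfl
    exact ⟨m.out.1.r, rfl⟩
  obtain ⟨r, hr⟩ := h1 _ h
  rw [← hr]
  exact ins_part_dm (C := C) (X := fun t => ocm (Z t)) hC (fun t => (ocm_ok (Z t)).toIsC) (c := c) r

end Dia
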