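import Pool.Agent.DiaC.KCl
import Pool.Agent.DiaC.InsV
import Pool.Agent.PGr.SumLib
import Pool.Agent.Dia.PtSum

/-!
# Module InsSum: the bijection and the equation of the generating function

`insC (k, X)` = the class of `ins k.map (fun c => ocm (X c))`.

`insC_bij`: injective: `ins_iso_inv` gives an isomorphism of the rooted maps `k.map`, `k'.map`, so `k = k'`
(`KC.inj`) and the isomorphism `e` is an automorphism of the rooted map `k.map`, so `e = id`
(`RM.IsMap.aut_eq`, module `Dia.PtSum`); then `CMIso (ocm (X c)) (ocm (X' c))`, hence `X c = X' c` (`ocm_inj`: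
`none` has no darts; for `some m`, `some m'` the isomorphism is an `RMIso` of the representatives).
Surjective: `m : RMC`, `M` its representative: `dec_iso`, `coreM_rns`, `KC.surj`, `part_ok`; the class of
`part c` is `none` if `(part c).r = none` and the class of the rooted map `part c` otherwise
(`ocm_surj`); `ins_iso`.

`Ag_eq`: split off; the sum over the pairs `(k, X)`: the weight of `insC (k, X)` is
`x ^ (nV k.map.s - 1) * y ^ k.map.E * ∏ c, w (X c)` with `w none = 1`,
`w (some m) = x ^ (nV - 1) * y ^ E` (`ins_nV1`, `ins_E`); the sum over all functions `X` of the product is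
`Ag x y ^ card` (`prod_tsum` in `PGr.SumLib`); the sum over `k : KC`: `y A^2`, `x y A^2`, and
`∑ x ^ (nV - 2 + 1) y ^ (m + 1) A ^ (2 (m + 1)) = x (y A^2) Es x (y A^2)`.
-/

set_option linter.unusedSectionVars false

namespace Dia
open Equiv Finset PGr
open scoped ENNReal

theorem ocm_inj {o o' : Option RMC} (h : CMIso (ocm o) (ocm o')) : o = o' := by
  obtain ⟨e, h1, h2, h3⟩ := h
  rcases o with _ | m <;> rcases o' with _ | m'
  · rfl
  · have h4 : (none : Option m'.out.1.T) = some m'.out.1.r := h3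
    cases h4
  · have h4 : some (e m.out.1.r) = (none : Option Empty) := h3
    cases h4
  · have h4 : some (e m.out.1.r) = some m'.out.1.r := h3
    have h5 : RMIso m.out.1 m'.out.1 := ⟨e, h1, h2, Option.some.inj h4⟩
    have h6 : m.out ≈ m'.out := h5
    exact congrArg some (Quotient.out_equiv_out.1 h6)

theorem ocm_surj {X : CM} (h : X.Ok) : ∃ o : Option RMC, CMIso (ocm o) X := by
  rcases hr : X.r with _ | r
  · have hE := h.root hr
    refine ⟨none, ⟨Equiv.equivOfIsEmpty Empty X.D, fun t => t.elim, fun t => t.elim, ?_⟩⟩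
    rw [hr]
    rfl
  · let M : RM := { T := X.D, a := X.a, s := X.s, r := r }
    have hM : M.IsMap := ⟨h.inv, h.fpf, h.conn⟩
    have hok : M.Ok := ⟨hM, (pl_iff_eu M hM).1 h.pl⟩
    have h1 : RMIso (Quotient.mk rmSetoid ⟨M, hok⟩).out.1 M :=
      Quotient.mk_out (s := rmSetoid) ⟨M, hok⟩
    obtain ⟨e, ha, hs, he⟩ := h1
    refine ⟨some (Quotient.mk rmSetoid ⟨M, hok⟩), ⟨e, ha, hs, ?_⟩⟩
    rw [hr]
    exact congrArg some he

/-- the class of a rooted nonseparable map with insertions -/
noncomputable def insC (p : Σ k : KC, (k.map.T → Option RMC)) : RMC :=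
  Quotient.mk rmSetoid ⟨ins p.1.map (fun c => ocm (p.2 c)), ins_ok p.1.rns.ok fun c => ocm_ok (p.2 c)⟩

private theorem InsSum_iso (p : Σ k : KC, (k.map.T → Option RMC)) :
    RMIso (insC p).out.1 (ins p.1.map (fun c => ocm (p.2 c))) :=
  Quotient.mk_out (s := rmSetoid) ⟨ins p.1.map (fun c => ocm (p.2 c)), _⟩

theorem insC_bij : Function.Bijective insC := by
  constructor
  · rintro ⟨k, X⟩ ⟨k', X'⟩ h
    have h1 : RMIso (ins k.map (fun c => ocm (X c))) (ins k'.map (fun c => ocm (X' c))) :=
      Quotient.exact h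
    obtain ⟨e, ha, hs, hr, hX⟩ := ins_iso_inv k.rns (fun c => (ocm_ok (X c)).toIsC) k'.rns
      (fun c => (ocm_ok (X' c)).toIsC) h1
    have hk : k = k' := KC.inj ⟨e, ha, hs, hr⟩
    subst hk
    have he : e = Equiv.refl _ := k.rns.isMap.aut_eq e ha hs hr
    subst he
    have h2 : X = X' := funext fun c => ocm_inj (hX c)
    rw [h2]
  · intro m
    have hM : m.out.1.Ok := m.out.2
    obtain ⟨k, e, ha, hs, hr⟩ := KC.surj (coreM_rns hM.toIsMap hM.pl)
    have h1 : ∀ c : k.map.T, ∃ o : Option RMC, CMIso (ocm o) (m.out.1.part (e c)) :=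
      fun c => ocm_surj (part_ok hM.toIsMap hM.pl (e c))
    choose o ho using h1
    have h2 : RMIso (ins k.map (fun c => ocm (o c))) (ins m.out.1.coreM m.out.1.part) :=
      ins_iso e ha hs hr ho
    have h3 := h2.trans (dec_iso hM.toIsMap)
    refine ⟨⟨k, o⟩, ?_⟩
    have h4 : insC ⟨k, o⟩ = Quotient.mk rmSetoid m.out := Quotient.sound h3
    rw [h4]
    exact Quotient.out_eq m

/-- number of nonroot vertices of an optional class -/
noncomputable def onv (o : Option RMC) : ℕ := o.elim 0 fun m => nV m.out.1.s - 1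

/-- number of edges of an optional class -/
noncomputable def oE (o : Option RMC) : ℕ := o.elim 0 fun m => m.out.1.E

private theorem InsSum_nv (o : Option RMC) : (ocm o).nv = onv o := by
  rcases o with _ | m
  · show nV (1 : Perm Empty) - 1 = 0
    unfold nV
    have : IsEmpty (Quotient (Perm.SameCycle.setoid (1 : Perm Empty))) :=
      ⟨fun q => Quotient.inductionOn q fun d => d.elim⟩
    rw [Nat.card_of_isEmpty]
  · rfl

private theorem InsSum_ne (o : Option RMC) : (ocm o).ne = oE o := by
  rcases o with _ | m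
  · show Fintype.card Empty / 2 = 0
    rw [Fintype.card_empty]
  · rfl

theorem insC_nV (p : Σ k : KC, (k.map.T → Option RMC)) :
    nV (insC p).out.1.s - 1 = (nV p.1.map.s - 1) + ∑ c, onv (p.2 c) := by
  rw [(InsSum_iso p).nV_s, ins_nV1 fun c => (ocm_ok (p.2 c)).toIsC]
  congr 1
  exact Finset.sum_congr rfl fun c _ => InsSum_nv (p.2 c)

theorem insC_E (p : Σ k : KC, (k.map.T → Option RMC)) :
    (insC p).out.1.E = p.1.map.E + ∑ c, oE (p.2 c) := by
  have h1 : (insC p).out.1.E = (ins p.1.map (fun c => ocm (p.2 c))).E := by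
    unfold RM.E
    rw [(InsSum_iso p).card]
  rw [h1, ins_E p.1.rns.isMap fun c => (ocm_ok (p.2 c)).toIsC]
  congr 1
  exact Finset.sum_congr rfl fun c _ => InsSum_ne (p.2 c)

private theorem InsSum_opt {α : Type*} (f : Option α → ℝ≥0∞) :
    ∑' o, f o = f none + ∑' a, f (some a) := by
  have h1 := (ENNReal.summable (f := fun x : ({none} : Set (Option α)) => f x)).tsum_add_tsum_compl
    (ENNReal.summable (f := fun x : (({none} : Set (Option α))ᶜ : Set (Option α)) => f x))
  rw [← h1, tsum_singleton none f]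
  congr 1
  have h2 : (({none} : Set (Option α))ᶜ : Set (Option α)) = Set.range some := by
    ext o
    rcases o with _ | a <;> simp
  rw [h2]
  exact tsum_range (g := some) f (Option.some_injective α)

theorem Ag_eq_o (x y : ℝ≥0∞) : Ag x y = ∑' o : Option RMC, x ^ onv o * y ^ oE o := by
  rw [InsSum_opt]
  have h1 : x ^ onv none * y ^ oE none = 1 := by
    show x ^ 0 * y ^ 0 = 1
    rw [pow_zero, pow_zero, one_mul]
  rw [h1]
  rfl

/-- the sum over the rooted nonseparable maps -/
private theorem InsSum_KC (F : KC → ℝ≥0∞) :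
    ∑' k, F k = F .loop + (F .link + ∑' c, F (.good c)) := by
  let e : Option (Option GC) ≃ KC :=
    { toFun := fun o => match o with
        | none => .loop
        | some none => .link
        | some (some c) => .good c
      invFun := fun k => match k with
        | .loop => none
        | .link => some none
        | .good c => some (some c)
      left_inv := by
        rintro (_ | _ | c) <;> rfl
      right_inv := by
        rintro (_ | _ | c) <;> rfl }
  rw [← e.tsum_eq, InsSum_opt, InsSum_opt]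
  rfl

private theorem InsSum_A (x y : ℝ≥0∞) :
    Ag x y = 1 + ∑' k : KC, x ^ (nV k.map.s - 1) * y ^ k.map.E *
      Ag x y ^ Fintype.card k.map.T := by
  have h0 : Ag x y = 1 + ∑' m : RMC, x ^ (nV m.out.1.s - 1) * y ^ m.out.1.E := rfl
  have h1 : ∑' m : RMC, x ^ (nV m.out.1.s - 1) * y ^ m.out.1.E =
      ∑' p : Σ k : KC, (k.map.T → Option RMC), x ^ (nV (insC p).out.1.s - 1) *
        y ^ (insC p).out.1.E := ((Equiv.ofBijective insC insC_bij).tsum_eq
          (fun m : RMC => x ^ (nV m.out.1.s - 1) * y ^ m.out.1.E)).symm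
  have h2 : ∑' p : Σ k : KC, (k.map.T → Option RMC), x ^ (nV (insC p).out.1.s - 1) *
        y ^ (insC p).out.1.E = ∑' k : KC, ∑' X : k.map.T → Option RMC,
          x ^ (nV k.map.s - 1) * y ^ k.map.E * ∏ c, (x ^ onv (X c) * y ^ oE (X c)) := by
    rw [tsum_sigma_eq (fun (k : KC) (X : k.map.T → Option RMC) =>
      x ^ (nV k.map.s - 1) * y ^ k.map.E * ∏ c, (x ^ onv (X c) * y ^ oE (X c)))]
    refine tsum_congr fun p => ?_
    rw [insC_nV, insC_E, pow_add, pow_add, Finset.prod_mul_distrib, Finset.prod_pow_eq_pow_sum,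
      Finset.prod_pow_eq_pow_sum]
    ring
  have h3 : ∀ k : KC, ∑' X : k.map.T → Option RMC,
      x ^ (nV k.map.s - 1) * y ^ k.map.E * ∏ c, (x ^ onv (X c) * y ^ oE (X c)) =
      x ^ (nV k.map.s - 1) * y ^ k.map.E * Ag x y ^ Fintype.card k.map.T := by
    intro k
    rw [ENNReal.tsum_mul_left, ← prod_tsum (fun (_ : k.map.T) (o : Option RMC) =>
      x ^ onv o * y ^ oE o), ← Ag_eq_o, Finset.prod_const, Finset.card_univ]
  rw [h1, h2] at h0
  simp only [h3] at h0
  exact h0

/-- **general maps and nonseparable maps** -/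
theorem Ag_eq (x y : ℝ≥0∞) :
    Ag x y = 1 + y * Ag x y ^ 2 * (1 + x * (1 + Es x (y * Ag x y ^ 2))) := by
  conv_lhs => rw [InsSum_A, InsSum_KC]
  generalize Ag x y = A
  have h1 : x ^ (nV (KC.map .loop).s - 1) * y ^ (KC.map .loop).E *
      A ^ Fintype.card (KC.map .loop).T = y * A ^ 2 := by
    show x ^ (nV loopR.s - 1) * y ^ loopR.E * A ^ Fintype.card loopR.T = _
    rw [kc_loop.1, kc_loop.2.1, kc_loop.2.2]
    simp
  have h2 : x ^ (nV (KC.map .link).s - 1) * y ^ (KC.map .link).E *
      A ^ Fintype.card (KC.map .link).T = x * y * A ^ 2 := by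
    show x ^ (nV linkR.s - 1) * y ^ linkR.E * A ^ Fintype.card linkR.T = _
    rw [kc_link.1, kc_link.2.1, kc_link.2.2]
    simp
  have h3 : ∀ c : GC, x ^ (nV (KC.map (.good c)).s - 1) * y ^ (KC.map (.good c)).E *
      A ^ Fintype.card (KC.map (.good c)).T = x * (y * A ^ 2) * W x (y * A ^ 2) c.rep.1 := by
    intro c
    show x ^ (nV (bR c.rep.1).s - 1) * y ^ (bR c.rep.1).E * A ^ Fintype.card (bR c.rep.1).T = _
    rw [(kc_good c).1, (kc_good c).2.1, (kc_good c).2.2]
    unfold W
    have h4 : nV c.rep.1.s - 2 + 2 - 1 = (nV c.rep.1.s - 2) + 1 := by omega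
    rw [h4, pow_succ, pow_succ, pow_mul, pow_succ]
    ring
  rw [h1, h2]
  simp only [h3]
  rw [ENNReal.tsum_mul_left]
  have h5 : Es x (y * A ^ 2) = ∑' c : GC, W x (y * A ^ 2) c.rep.1 := by
    unfold Es Esel
    simp only [if_true]
  rw [h5]
  ring

end Dia
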