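import Pool.Agent.DiaC.BigOk
import Pool.Agent.Dia.RigF
import Pool.Agent.PGr.SerRl
import Pool.Agent.PGc.Rig1

/-!
# Module MapG: distances in the graph of a rigid map

`vG c.rep.1.aa c.rep.1.s` is by definition the graph `(bR c.rep.1).G`.
`PD_gdm`: `D ≤ dist x y ≤ ecc x ≤ dm`.  `gdm_le_gE`: `ecc_le_E` (`exists_dm`, `dd_le_ecc`), `(bR _).E = gE + 1`.

`PL_rl`: `t_k = (aa * s)^k (inr true)`, `rl` = period; for `0 < k < rl` `t_k` is a nonroot dart (`SerRl.iter_inl`), and
`t_(k+1) = aa (s t_k)`, `s t_(rl-1) = inr false` (from `SerRl.iter_rl`).  So the vertices of `t_0, .., t_(rl-1)` are joined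
by the edges of the nonroot darts `t_1, .., t_(rl-1)`, the first vertex is that of `inr true`, the last one that of
`inr false`.  A nonroot dart `t` of a rigid map does not join the two poles (`Rg3.simple`, with the root dart; `rigid_iff`
gives `Rg3`), so these edges are edges of the graph without the root edge: a walk of length `rl - 1` in
`(vG ..).deleteEdges {s(x, y)}`; `SimpleGraph.dist_le`.
`invP_PLm`, `invP_PDm`: distances are invariant under isomorphisms.
`sum_PL_le`: for every graph at most one `m` has the property `PLm m` (`Nat.card` of disjoint subsets).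
-/

set_option linter.unusedSectionVars false

namespace Dia
open Equiv Finset PGr

theorem PD_gdm {c : GC} {D : ℕ} (h : PDm D _ (vG c.rep.1.aa c.rep.1.s)) : D ≤ gdm c := by
  obtain ⟨x, y, hxy⟩ := h
  obtain ⟨t, rfl⟩ := Quotient.exists_rep x
  obtain ⟨t', rfl⟩ := Quotient.exists_rep y
  have h1 : D ≤ (bR c.rep.1).dd t t' := hxy
  exact h1.trans ((dd_le_ecc (M := bR c.rep.1) t t').trans (ecc_le_dm _))

theorem gdm_le_gE (c : GC) : gdm c ≤ gE c + 1 := by
  obtain ⟨t, t', ht⟩ := exists_dm (bR c.rep.1)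
  have h1 := dd_le_ecc (M := bR c.rep.1) t t'
  have h2 := ecc_le_E (bR_isMap c.rep.2) ((bR c.rep.1).vx t)
  have h3 : (bR c.rep.1).E = gE c + 1 := by
    change Fintype.card (c.rep.1.D ⊕ Bool) / 2 = Fintype.card c.rep.1.D / 2 + 1
    rw [Fintype.card_sum, Fintype.card_bool]
    omega
  unfold gdm
  omega

private theorem MapG_ne {N : GB} (hR : Rigid N.1) (d : N.1.D) :
    s(vx N.1.s (N.1.aa (Sum.inl d)), vx N.1.s (Sum.inl d)) ≠
      s(vx N.1.s (Sum.inr false), vx N.1.s (Sum.inr true)) := by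
  intro h
  have hg : Good N.1.aa N.1.s := N.2
  have hr3 : Rg3 N.1.aa N.1.s := (rigid_iff _).1 hR
  have sc : ∀ {t t' : N.1.T}, vx N.1.s t = vx N.1.s t' → N.1.s.SameCycle t t' :=
    fun h => Quotient.exact h
  have haf : N.1.aa (Sum.inr true) = Sum.inr false := rfl
  have hat : N.1.aa (Sum.inr false) = Sum.inr true := rfl
  rcases Sym2.eq_iff.1 h with ⟨h1, h2⟩ | ⟨h1, h2⟩
  · have h3 := hr3.simple hg (x := Sum.inl d) (y := Sum.inr true) (sc h2)
      (by rw [haf]; exact sc h1)
    exact absurd h3 (by simp)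
  · have h3 := hr3.simple hg (x := Sum.inl d) (y := Sum.inr false) (sc h2)
      (by rw [hat]; exact sc h1)
    exact absurd h3 (by simp)

private theorem MapG_walk {N : GB} (hR : Rigid N.1) (k : ℕ) (hk : k < N.1.rl) :
    ∃ w : ((vG N.1.aa N.1.s).deleteEdges {s(vx N.1.s (Sum.inr false),
      vx N.1.s (Sum.inr true))}).Walk (vx N.1.s (Sum.inr true))
        (vx N.1.s ((SerRl.ps N.1)^[k] (Sum.inr true))), w.length ≤ k := by
  induction k with
  | zero => exact ⟨SimpleGraph.Walk.nil, le_refl _⟩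
  | succ k ih =>
    have ih' := ih (by omega)
    obtain ⟨d, hd⟩ := SerRl.iter_inl N (k + 1) (by omega) hk
    rw [Function.iterate_succ_apply'] at hd ⊢
    generalize (SerRl.ps N.1)^[k] (Sum.inr true) = t at ih' hd ⊢
    obtain ⟨w, hw⟩ := ih'
    have hinv : ∀ u, N.1.aa (N.1.aa u) = u := N.2.inv
    have h1 : Sum.inl d = N.1.aa (N.1.s t) := hd.symm
    have h2 : vx N.1.s t = vx N.1.s (N.1.aa (Sum.inl d)) := by
      rw [h1, hinv]
      exact Quotient.sound ⟨1, by simp⟩
    have h3 := MapG_ne hR d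
    rw [← h2] at h3
    rw [hd]
    by_cases hne : vx N.1.s t = vx N.1.s (Sum.inl d)
    · exact ⟨w.copy rfl hne, by rw [SimpleGraph.Walk.length_copy]; omega⟩
    · have hadj : ((vG N.1.aa N.1.s).deleteEdges {s(vx N.1.s (Sum.inr false),
          vx N.1.s (Sum.inr true))}).Adj (vx N.1.s t) (vx N.1.s (Sum.inl d)) := by
        rw [SimpleGraph.deleteEdges_adj]
        refine ⟨?_, h3⟩
        change (SimpleGraph.fromRel _).Adj _ _
        rw [SimpleGraph.fromRel_adj]
        exact ⟨hne, Or.inr ⟨Sum.inl d, rfl, h2.symm⟩⟩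
      refine ⟨w.concat hadj, ?_⟩
      rw [SimpleGraph.Walk.length_concat]
      omega

theorem PL_rl {c : GC} (hR : Rigid c.rep.1) {m : ℕ}
    (h : PLm m _ (vG c.rep.1.aa c.rep.1.s) (vx c.rep.1.s (Sum.inr false))
      (vx c.rep.1.s (Sum.inr true))) : m + 1 ≤ c.rep.1.rl := by
  have h0 := SerRl.two_le c.rep
  obtain ⟨w, hw⟩ := MapG_walk hR (c.rep.1.rl - 1) (by omega)
  have h1 : vx c.rep.1.s ((SerRl.ps c.rep.1)^[c.rep.1.rl - 1] (Sum.inr true)) =
      vx c.rep.1.s (Sum.inr false) := by
    have h2 := SerRl.iter_rl c.rep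
    have h3 : c.rep.1.rl = (c.rep.1.rl - 1) + 1 := by omega
    rw [h3, Function.iterate_succ_apply'] at h2
    set t := (SerRl.ps c.rep.1)^[c.rep.1.rl - 1] (Sum.inr true) with ht
    have h4 : c.rep.1.aa (c.rep.1.s t) = Sum.inr true := h2
    have h5 : c.rep.1.s t = Sum.inr false := by
      have h6 : c.rep.1.aa (c.rep.1.aa (c.rep.1.s t)) = c.rep.1.s t := c.rep.2.inv _
      rw [← h6, h4]
      rfl
    rw [← h5]
    exact Quotient.sound ⟨1, by simp⟩
  have h2 := (SimpleGraph.dist_le w).trans hw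
  rw [h1] at h2
  have h3 : ((vG c.rep.1.aa c.rep.1.s).deleteEdges {s(vx c.rep.1.s (Sum.inr false),
      vx c.rep.1.s (Sum.inr true))}).dist (vx c.rep.1.s (Sum.inr false))
      (vx c.rep.1.s (Sum.inr true)) = m := h
  rw [SimpleGraph.dist_comm] at h3
  omega

private theorem MapG_dist_le {V W : Type} {G : SimpleGraph V} {H : SimpleGraph W} (e : G ≃g H)
    (x y : V) : H.dist (e x) (e y) ≤ G.dist x y := by
  by_cases h : G.Reachable x y
  · obtain ⟨w, hw⟩ := h.exists_walk_length_eq_dist
    rw [← hw]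
    have h1 := SimpleGraph.dist_le (w.map e.toHom)
    rwa [SimpleGraph.Walk.length_map] at h1
  · have h1 : ¬ H.Reachable (e x) (e y) := fun h2 => h (e.reachable_iff.1 h2)
    rw [SimpleGraph.dist_eq_zero_of_not_reachable h1]
    exact Nat.zero_le _

private theorem MapG_dist {V W : Type} {G : SimpleGraph V} {H : SimpleGraph W} (e : G ≃g H)
    (x y : V) : H.dist (e x) (e y) = G.dist x y := by
  refine le_antisymm (MapG_dist_le e x y) ?_
  have h := MapG_dist_le e.symm (e x) (e y)
  rwa [e.symm_apply_apply, e.symm_apply_apply] at h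

theorem invP_PLm (m : ℕ) : InvP (PLm m) := by
  intro V W G H e x y h
  have h1 : (G.deleteEdges {s(x, y)}).dist x y = m := h
  change (H.deleteEdges {s(e x, e y)}).dist (e x) (e y) = m
  let e' : (G.deleteEdges {s(x, y)}) ≃g (H.deleteEdges {s(e x, e y)}) :=
    { toEquiv := e.toEquiv
      map_rel_iff' := by
        intro a b
        change (H.deleteEdges {s(e x, e y)}).Adj (e a) (e b) ↔ _
        rw [SimpleGraph.deleteEdges_adj, SimpleGraph.deleteEdges_adj, e.map_adj_iff]
        simp only [Set.mem_singleton_iff, Sym2.eq_iff, e.injective.eq_iff] }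
  rw [← h1]
  exact MapG_dist e' x y

theorem invP_PDm (D : ℕ) : InvP (PDm D).two := by
  intro V W G H e x y h
  obtain ⟨a, b, hab⟩ := (show ∃ a b, D ≤ G.dist a b from h)
  exact ⟨e a, e b, by rw [MapG_dist e]; exact hab⟩

private theorem MapG_card {α : Type} [Finite α] (A : α → Prop) (f : α → ℕ) (n : ℕ) :
    ∑ m ∈ range n, Nat.card {a // A a ∧ f a = m} ≤ Nat.card {a // A a} := by
  classical
  have := Fintype.ofFinite α
  have h1 : ∀ (p : α → Prop) [DecidablePred p], Nat.card {a // p a} = (univ.filter p).card := by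
    intro p _
    rw [Nat.card_eq_fintype_card, Fintype.card_subtype]
  rw [h1]
  calc ∑ m ∈ range n, Nat.card {a // A a ∧ f a = m}
      = ∑ m ∈ range n, (univ.filter fun a => A a ∧ f a = m).card :=
        sum_congr rfl fun m _ => h1 _
    _ = ((range n).biUnion fun m => univ.filter fun a => A a ∧ f a = m).card := by
        rw [card_biUnion]
        intro m _ m' _ hne
        change Disjoint _ _
        rw [Finset.disjoint_left]
        intro a ha hb
        exact hne ((mem_filter.1 ha).2.2.symm.trans (mem_filter.1 hb).2.2)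
    _ ≤ _ := by
        apply card_le_card
        intro a ha
        obtain ⟨m, -, hm⟩ := mem_biUnion.1 ha
        exact mem_filter.2 ⟨mem_univ _, (mem_filter.1 hm).2.1⟩

theorem sum_PL_le (v e n : ℕ) : ∑ m ∈ range n, hP (PLm m) v e ≤ hN v e := by
  unfold hP hN
  rw [← sum_div]
  refine div_le_div_of_nonneg_right ?_ (Nat.cast_nonneg _)
  rw [← Nat.cast_sum]
  have h := MapG_card (α := SimpleGraph (Fin v ⊕ Bool)) (fun K => ThreeConn K ∧ IsPlanar K ∧
    K.Adj (Sum.inr false) (Sum.inr true) ∧ Nat.card K.edgeSet = e + 1)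
    (fun K => (K.deleteEdges {s(Sum.inr false, Sum.inr true)}).dist (Sum.inr false)
      (Sum.inr true)) n
  have h2 : ∀ m, Nat.card {K : SimpleGraph (Fin v ⊕ Bool) // ThreeConn K ∧ IsPlanar K ∧
      K.Adj (Sum.inr false) (Sum.inr true) ∧ Nat.card K.edgeSet = e + 1 ∧
      PLm m _ K (Sum.inr false) (Sum.inr true)} =
      Nat.card {K : SimpleGraph (Fin v ⊕ Bool) // (ThreeConn K ∧ IsPlanar K ∧
      K.Adj (Sum.inr false) (Sum.inr true) ∧ Nat.card K.edgeSet = e + 1) ∧
      (K.deleteEdges {s(Sum.inr false, Sum.inr true)}).dist (Sum.inr false)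
      (Sum.inr true) = m} := by
    intro m
    apply Nat.card_congr
    refine Equiv.subtypeEquivRight fun K => ?_
    unfold PLm
    tauto
  rw [sum_congr rfl fun m _ => h2 m]
  exact_mod_cast h

end Dia
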