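import Pool.Agent.DiaC.ZDefs
import Pool.Agent.Dia.TMaps
import Pool.Agent.DiamP.HeavyLoc

/-!
# Module YLaw: the law of the size of a filled net

`Ag_ne_top`: group `Ag` by the number of edges: `Ag = ∑' N, ofReal (am x N)` (`E ≥ 1`), `am x N ≤ K N^(-5/2)`
(`maps_bounds`, `mapsum_ne_top`), summable.
`aS_am`: `aS_eq`, `aS_zero`, definition of `am`.
`zS_bounds`: `z (n+1) = y cv a a n` (`Sys.hz`), `cv a a n ≥ a 0 a n = a n` (`Sys.a0`).
`YS_bounds`: lower: `Y n ≥ z n` (`hY`), `z 1 = y a 0 a 0 = y`, `z (n+1) ≥ y a n ≥ y c n^(-5/2)`.  Upper: `a (n+1)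
≥ x cv z (one0 + Y) (n+1) ≥ x z 1 Y n = x y Y n`, `a (n+1) ≤ K (n+1)^(-5/2)`.
`yLaw_law`: `crit_sums`: the sum of `YS` is `ecr (vc x)`; `ecr (vc x) > 0` (`ecr_pos`).
`yLaw_HT`: tail `∑_{n ≥ s} K n^(-5/2) ≤ K' s^(-3/2)` for `s ≥ 1` (`tl p s = ∑' n, p (n + s)`, see `DiamP.Prob`; compare
with `∫`, or telescoping: `n^(-5/2) ≤ C (n^(-3/2) - (n+1)^(-3/2))`).
`yMu_ge`: `Y 0 = 0`, so the mean is at least the total mass `1`.
-/

set_option linter.unusedSectionVars false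

namespace Dia
open Finset PGr Pool.Agent.DiamP
open scoped ENNReal

variable {x : ℝ}

private theorem YLaw_am_nonneg (h0 : 0 < x) (h1 : x < 1) (N : ℕ) : 0 ≤ am x N := by
  unfold am
  have := yc_pos h0 h1
  split_ifs
  · exact zero_le_one
  · positivity

private theorem YLaw_am_summable (h0 : 0 < x) (h1 : x < 1) : Summable (am x) := by
  obtain ⟨c, K, hc, hK, hb⟩ := maps_bounds h0 h1
  rw [← summable_nat_add_iff 1]
  have h2 : Summable fun n : ℕ => K * ((n + 1 : ℕ) : ℝ) ^ (-(5 / 2) : ℝ) := by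
    refine Summable.mul_left K ?_
    exact (summable_nat_add_iff 1).2 (Real.summable_nat_rpow.2 (by norm_num))
  exact Summable.of_nonneg_of_le (fun n => YLaw_am_nonneg h0 h1 _)
    (fun n => (hb (n + 1) (by omega)).2) h2

theorem Ag_ne_top (h0 : 0 < x) (h1 : x < 1) :
    Ag (ENNReal.ofReal x) (ENNReal.ofReal (yc x)) ≠ ⊤ := by
  have hy := yc_pos h0 h1
  have h2 : Ag (ENNReal.ofReal x) (ENNReal.ofReal (yc x)) = ∑' N, ENNReal.ofReal (am x N) := by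
    rw [← ev_AP, AP, ev_mk]
    refine tsum_congr fun N => ?_
    unfold aE am
    by_cases hN : N = 0
    · rw [if_pos hN, if_pos hN, hN, pow_zero, mul_one, ENNReal.ofReal_one]
    · rw [if_neg hN, if_neg hN, ENNReal.ofReal_mul ENNReal.toReal_nonneg,
        ENNReal.ofReal_toReal (mapsum_ne_top h0 h1 N), ENNReal.ofReal_pow hy.le]
      congr 1
      unfold mapsum
      refine tsum_congr fun m => ?_
      split_ifs
      · rw [ENNReal.ofReal_pow h0.le]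
      · rfl
  rw [h2, ← ENNReal.ofReal_tsum_of_nonneg (YLaw_am_nonneg h0 h1) (YLaw_am_summable h0 h1)]
  exact ENNReal.ofReal_ne_top

theorem yc_pos' (h0 : 0 < x) (h1 : x < 1) : 0 < yc x := yc_pos h0 h1

theorem aS_am (h0 : 0 < x) (h1 : x < 1) (N : ℕ) : aS x (yc x) N = am x N := by
  rcases Nat.eq_zero_or_pos N with h | h
  · subst h
    rw [aS_zero, am, if_pos rfl]
  · rw [aS_eq x (yc x) N h, am, if_neg (by omega)]
    congr 2
    unfold mapsum
    refine tsum_congr fun m => ?_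
    split_ifs
    · rw [ENNReal.ofReal_pow h0.le]
    · rfl

theorem ecr_vc_pos (h0 : 0 < x) (h1 : x < 1) : 0 < ecr (vc x) :=
  ecr_pos (vc_pos h0 h1) (vc_lt_one h0 h1)

private theorem YLaw_rpow_le {n : ℕ} (hn : 1 ≤ n) :
    ((n + 1 : ℕ) : ℝ) ^ (-(5 / 2) : ℝ) ≤ (n : ℝ) ^ (-(5 / 2) : ℝ) := by
  have h1 : (0 : ℝ) < n := by exact_mod_cast hn
  exact Real.rpow_le_rpow_of_nonpos h1 (by push_cast; linarith) (by norm_num)

private theorem YLaw_sys (h0 : 0 < x) (h1 : x < 1) : Sys x (yc x) (rhoS x) (aS x (yc x))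
    (zS x (yc x)) (SS x (yc x)) (PS x (yc x)) (RS x (yc x)) (YS x (yc x)) :=
  sys h0 (yc_pos h0 h1) (Ag_ne_top h0 h1)

theorem zS_bounds (h0 : 0 < x) (h1 : x < 1) : ∃ c : ℝ, 0 < c ∧ ∀ N : ℕ, 1 ≤ N →
    c * (N : ℝ) ^ (-(5 / 2) : ℝ) ≤ zS x (yc x) N := by
  obtain ⟨c, K, hc, hK, hb⟩ := maps_bounds h0 h1
  have hy := yc_pos h0 h1
  have hS := YLaw_sys h0 h1
  refine ⟨yc x * min 1 c, mul_pos hy (lt_min one_pos hc), fun N hN => ?_⟩
  obtain ⟨n, rfl⟩ := Nat.exists_eq_add_of_le' hN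
  rw [hS.hz n, mul_assoc]
  refine mul_le_mul_of_nonneg_left ?_ hy.le
  have h2 : aS x (yc x) n ≤ cv (aS x (yc x)) (aS x (yc x)) n := by
    unfold cv
    have h3 : aS x (yc x) n = aS x (yc x) 0 * aS x (yc x) n := by rw [aS_zero, one_mul]
    rw [h3]
    exact Finset.single_le_sum (f := fun ij : ℕ × ℕ => aS x (yc x) ij.1 * aS x (yc x) ij.2)
      (fun ij _ => mul_nonneg (hS.a0 _) (hS.a0 _)) (a := (0, n)) (by simp)
  refine le_trans ?_ h2
  rw [aS_am h0 h1]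
  rcases Nat.eq_zero_or_pos n with h | h
  · subst h
    rw [am, if_pos rfl]
    simp
  · refine le_trans ?_ (hb n h).1
    have h4 := YLaw_rpow_le h
    have h5 : 0 ≤ ((n + 1 : ℕ) : ℝ) ^ (-(5 / 2) : ℝ) := by positivity
    exact mul_le_mul (min_le_right _ _) h4 h5 hc.le

theorem YS_bounds (h0 : 0 < x) (h1 : x < 1) : ∃ c K : ℝ, 0 < c ∧ 0 < K ∧ ∀ N : ℕ, 1 ≤ N →
    c * (N : ℝ) ^ (-(5 / 2) : ℝ) ≤ YS x (yc x) N ∧
    YS x (yc x) N ≤ K * (N : ℝ) ^ (-(5 / 2) : ℝ) := by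
  obtain ⟨c, hc, hz⟩ := zS_bounds h0 h1
  obtain ⟨c', K, hc', hK, hb⟩ := maps_bounds h0 h1
  have hy := yc_pos h0 h1
  have hS := YLaw_sys h0 h1
  refine ⟨c, K / (x * yc x), hc, by positivity, fun N hN => ⟨?_, ?_⟩⟩
  · refine (hz N hN).trans ?_
    rw [hS.hY N]
    have h2 := hS.S0 N
    have h3 := hS.P0 N
    have h4 := hS.R0 N
    linarith
  · have hz1 : zS x (yc x) 1 = yc x := by
      have h2 := hS.hz 0
      rw [zero_add] at h2
      rw [h2]
      unfold cv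
      simp [aS_zero]
    have hnn : ∀ n, 0 ≤ (one0 + YS x (yc x)) n := by
      intro n
      have h2 := hS.Y0 n
      have h3 : 0 ≤ one0 n := by
        unfold one0
        split_ifs <;> norm_num
      exact add_nonneg h3 h2
    have h2 : zS x (yc x) 1 * (one0 + YS x (yc x)) N ≤
        cv (zS x (yc x)) (one0 + YS x (yc x)) (N + 1) := by
      unfold cv
      refine Finset.single_le_sum
        (f := fun ij : ℕ × ℕ => zS x (yc x) ij.1 * (one0 + YS x (yc x)) ij.2)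
        (fun ij _ => mul_nonneg (hS.z0 _) (hnn _)) (a := (1, N)) ?_
      rw [Finset.HasAntidiagonal.mem_antidiagonal]
      exact add_comm 1 N
    have h3 : (one0 + YS x (yc x)) N = YS x (yc x) N := by
      show one0 N + YS x (yc x) N = _
      unfold one0
      rw [if_neg (by omega), zero_add]
    rw [h3, hz1] at h2
    have h4 : x * (yc x * YS x (yc x) N) ≤ am x (N + 1) := by
      rw [← aS_am h0 h1, hS.ha (N + 1)]
      have h5 := hS.z0 (N + 1)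
      have h6 : one0 (N + 1) = 0 := by
        unfold one0
        rw [if_neg (by omega)]
      have h7 := mul_le_mul_of_nonneg_left h2 h0.le
      linarith
    have h5 := h4.trans (hb (N + 1) (by omega)).2
    have h6 := h5.trans (mul_le_mul_of_nonneg_left (YLaw_rpow_le hN) hK.le)
    rw [div_mul_eq_mul_div, le_div_iff₀ (by positivity)]
    calc YS x (yc x) N * (x * yc x) = x * (yc x * YS x (yc x) N) := by ring
      _ ≤ _ := h6

theorem yLaw_law (h0 : 0 < x) (h1 : x ≤ 1 / 10) : IsLaw (yLaw x) := by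
  have h1' : x < 1 := by linarith
  have he := ecr_vc_pos h0 h1'
  have hS := YLaw_sys h0 h1'
  obtain ⟨-, -, h2, -⟩ := crit_sums h0 h1 (Ag_ne_top h0 h1')
  refine ⟨fun n => div_nonneg (hS.Y0 n) he.le, ?_⟩
  have h3 := h2.div_const (ecr (vc x))
  rw [div_self he.ne'] at h3
  exact h3

private theorem YLaw_tele {m : ℕ} (hm : 1 ≤ m) : (m : ℝ) ^ (-(5 / 2) : ℝ) ≤
    2 * ((m : ℝ) ^ (-(3 / 2) : ℝ) - ((m + 1 : ℕ) : ℝ) ^ (-(3 / 2) : ℝ)) := by
  have hm0 : (0 : ℝ) < m := by exact_mod_cast hm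
  have hm1 : (1 : ℝ) ≤ m := by exact_mod_cast hm
  have h1 : (0 : ℝ) < m + 1 := by linarith
  have e1 : (m : ℝ) ^ (-(5 / 2) : ℝ) = (m : ℝ) ^ (-(3 / 2) : ℝ) * (1 / m) := by
    rw [show (-(5 / 2) : ℝ) = -(3 / 2) + -1 by norm_num, Real.rpow_add hm0, Real.rpow_neg_one,
      one_div]
  have e2 : ((m + 1 : ℕ) : ℝ) ^ (-(3 / 2) : ℝ) =
      (m : ℝ) ^ (-(3 / 2) : ℝ) * ((m : ℝ) / (m + 1)) ^ (3 / 2 : ℝ) := by
    push_cast
    rw [Real.div_rpow hm0.le h1.le, Real.rpow_neg hm0.le, Real.rpow_neg h1.le]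
    have h2 : (m : ℝ) ^ (3 / 2 : ℝ) ≠ 0 := (Real.rpow_pos_of_pos hm0 _).ne'
    field_simp
  have e3 : ((m : ℝ) / (m + 1)) ^ (3 / 2 : ℝ) ≤ (m : ℝ) / (m + 1) := by
    have h2 : (m : ℝ) / (m + 1) ≤ 1 := by
      rw [div_le_one h1]
      linarith
    have h3 : 0 < (m : ℝ) / (m + 1) := by positivity
    calc ((m : ℝ) / (m + 1)) ^ (3 / 2 : ℝ) ≤ ((m : ℝ) / (m + 1)) ^ (1 : ℝ) :=
          Real.rpow_le_rpow_of_exponent_ge h3 h2 (by norm_num)
      _ = (m : ℝ) / (m + 1) := Real.rpow_one _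
  have h4 : 0 < (m : ℝ) ^ (-(3 / 2) : ℝ) := Real.rpow_pos_of_pos hm0 _
  rw [e1, e2]
  have e4 : 1 / (m : ℝ) ≤ 2 * (1 - (m : ℝ) / (m + 1)) := by
    have h5 : 1 - (m : ℝ) / (m + 1) = 1 / (m + 1) := by
      field_simp
      ring
    rw [h5, mul_one_div, div_le_div_iff₀ hm0 h1]
    linarith
  calc (m : ℝ) ^ (-(3 / 2) : ℝ) * (1 / m)
      ≤ (m : ℝ) ^ (-(3 / 2) : ℝ) * (2 * (1 - (m : ℝ) / (m + 1))) :=
        mul_le_mul_of_nonneg_left e4 h4.le
    _ ≤ (m : ℝ) ^ (-(3 / 2) : ℝ) * (2 * (1 - ((m : ℝ) / (m + 1)) ^ (3 / 2 : ℝ))) := by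
        refine mul_le_mul_of_nonneg_left ?_ h4.le
        linarith
    _ = _ := by ring

private theorem YLaw_sum (s : ℕ) (hs : 1 ≤ s) (M : ℕ) :
    ∑ n ∈ range M, ((n + s : ℕ) : ℝ) ^ (-(5 / 2) : ℝ) ≤
      2 * ((s : ℝ) ^ (-(3 / 2) : ℝ) - ((M + s : ℕ) : ℝ) ^ (-(3 / 2) : ℝ)) := by
  induction M with
  | zero => simp
  | succ M ih =>
    rw [Finset.sum_range_succ]
    have h1 := YLaw_tele (m := M + s) (by omega)
    have h2 : M + 1 + s = M + s + 1 := by ring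
    rw [h2]
    linarith

theorem yLaw_HLaw (h0 : 0 < x) (h1 : x ≤ 1 / 10) : ∃ c K : ℝ, 0 < c ∧ 0 ≤ K ∧
    HLaw c K (yLaw x) := by
  have h1' : x < 1 := by linarith
  have he := ecr_vc_pos h0 h1'
  have hL := yLaw_law h0 h1
  obtain ⟨c, K, hc, hK, hb⟩ := YS_bounds h0 h1'
  refine ⟨c / ecr (vc x), K / ecr (vc x) * 2, by positivity, by positivity, ⟨hL, ?_⟩, ?_⟩
  · intro s hs
    unfold Pool.Agent.DiamP.tl
    have hle : ∀ n, yLaw x (n + s) ≤ K / ecr (vc x) * ((n + s : ℕ) : ℝ) ^ (-(5 / 2) : ℝ) := by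
      intro n
      unfold yLaw
      rw [div_mul_eq_mul_div]
      exact div_le_div_of_nonneg_right (hb (n + s) (by omega)).2 he.le
    refine Real.tsum_le_of_sum_range_le (fun n => hL.nonneg _) fun M => ?_
    calc ∑ n ∈ range M, yLaw x (n + s)
        ≤ ∑ n ∈ range M, K / ecr (vc x) * ((n + s : ℕ) : ℝ) ^ (-(5 / 2) : ℝ) :=
          Finset.sum_le_sum fun n _ => hle n
      _ = K / ecr (vc x) * ∑ n ∈ range M, ((n + s : ℕ) : ℝ) ^ (-(5 / 2) : ℝ) := by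
          rw [Finset.mul_sum]
      _ ≤ K / ecr (vc x) * (2 * (s : ℝ) ^ (-(3 / 2) : ℝ)) := by
          refine mul_le_mul_of_nonneg_left ?_ (by positivity)
          have h2 := YLaw_sum s hs M
          have h3 : 0 ≤ ((M + s : ℕ) : ℝ) ^ (-(3 / 2) : ℝ) := by positivity
          linarith
      _ = _ := by ring
  · intro n hn
    unfold yLaw
    rw [div_mul_eq_mul_div]
    exact div_le_div_of_nonneg_right (hb n hn).1 he.le

theorem yMu_ge (h0 : 0 < x) (h1 : x ≤ 1 / 10) : 1 ≤ yMu x := by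
  have h1' : x < 1 := by linarith
  have he := ecr_vc_pos h0 h1'
  have hL := yLaw_law h0 h1
  have hS := YLaw_sys h0 h1'
  obtain ⟨c, K, hc, hK, hb⟩ := YS_bounds h0 h1'
  have hsum : Summable fun n : ℕ => yLaw x n * (n : ℝ) := by
    rw [← summable_nat_add_iff 1]
    have h2 : Summable fun n : ℕ => K / ecr (vc x) * ((n + 1 : ℕ) : ℝ) ^ (-(3 / 2) : ℝ) := by
      refine Summable.mul_left _ ?_
      exact (summable_nat_add_iff 1).2 (Real.summable_nat_rpow.2 (by norm_num))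
    refine Summable.of_nonneg_of_le (fun n => mul_nonneg (hL.nonneg _) (Nat.cast_nonneg _))
      (fun n => ?_) h2
    have h3 := (hb (n + 1) (by omega)).2
    have hn0 : (0 : ℝ) < ((n + 1 : ℕ) : ℝ) := by positivity
    have e1 : ((n + 1 : ℕ) : ℝ) ^ (-(3 / 2) : ℝ) =
        ((n + 1 : ℕ) : ℝ) ^ (-(5 / 2) : ℝ) * ((n + 1 : ℕ) : ℝ) := by
      rw [show (-(3 / 2) : ℝ) = -(5 / 2) + 1 by norm_num, Real.rpow_add hn0, Real.rpow_one]
    rw [e1, ← mul_assoc]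
    refine mul_le_mul_of_nonneg_right ?_ hn0.le
    unfold yLaw
    rw [div_mul_eq_mul_div]
    exact div_le_div_of_nonneg_right h3 he.le
  have h2 : ∑' n, yLaw x n = 1 := hL.sum.tsum_eq
  show 1 ≤ ∑' n, yLaw x n * ((n : ℕ) : ℝ)
  rw [← h2]
  refine Summable.tsum_le_tsum (fun n => ?_) hL.sum.summable hsum
  rcases Nat.eq_zero_or_pos n with h | h
  · subst h
    have h3 : yLaw x 0 = 0 := by
      unfold yLaw
      rw [hS.hY0, zero_div]
    rw [h3, zero_mul]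
  · exact le_mul_of_one_le_right (hL.nonneg n) (by exact_mod_cast h)

end Dia
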