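import Pool.Agent.DiaC.ZSize
import Pool.Agent.DiaC.YLaw
import Pool.Agent.PGc.TEq

/-!
# Module RTail: the length of the root face has an exponential tail
-/

set_option linter.unusedSectionVars false

namespace Dia
open Equiv Finset PGr
open scoped ENNReal

variable {x : ℝ}

private theorem RTail_z (h0 : 0 < x) (h1 : x ≤ 1 / 10) :
    ENNReal.ofReal (yc x) * Ag (ENNReal.ofReal x) (ENNReal.ofReal (yc x)) ^ 2 =
      ENNReal.ofReal (Yf x (vc x)) ∧ 0 < Yf x (vc x) ∧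
    Es (ENNReal.ofReal x) (ENNReal.ofReal (Yf x (vc x))) = ENNReal.ofReal (ecr (vc x)) := by
  have h1' : x < 1 := by linarith
  have hy := yc_pos h0 h1'
  have hAg := Ag_ne_top h0 h1'
  obtain ⟨hA, hz, hE⟩ := ag_val h0 h1 hAg
  have hpsi := psiV_pos h0 (vc_pos h0 h1') (vc_lt_one h0 h1')
  refine ⟨?_, ?_, hE⟩
  · rw [hA, ← ENNReal.ofReal_pow hpsi.le, ← ENNReal.ofReal_mul hy.le, hz]
  · rw [← hz]
    positivity

theorem ZF_D (h0 : 0 < x) (h1 : x ≤ 1 / 10) :
    ZF (ENNReal.ofReal x) (ENNReal.ofReal (yc x)) (fun _ => True) =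
      ENNReal.ofReal (ecr (vc x)) := by
  obtain ⟨hz, -, hE⟩ := RTail_z h0 h1
  rw [ZF_true, hz, hE]

open Classical in
/-- the weight of the maps with a root face of length at least `l + 1` -/
private theorem RTail_T (s y : ℝ≥0∞) (l : ℕ) :
    Esel s y (fun M => l + 1 ≤ M.rl) ≤ ∑' m, (if l ≤ m then tL s y m else 0) := by
  have e : ∀ m, (if l ≤ m then tL s y m else 0) =
      ∑' c : GC, if l ≤ m ∧ c.rep.1.rl = m + 1 then W s y c.rep.1 else 0 := by
    intro m
    by_cases h : l ≤ m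
    · rw [if_pos h, tL, Esel]
      refine tsum_congr fun c => ?_
      by_cases h2 : c.rep.1.rl = m + 1
      · rw [if_pos h2, if_pos ⟨h, h2⟩]
      · rw [if_neg h2, if_neg fun h3 => h2 h3.2]
    · rw [if_neg h]
      symm
      rw [ENNReal.tsum_eq_zero]
      intro c
      rw [if_neg fun h3 => h h3.1]
  rw [tsum_congr e, ENNReal.tsum_comm, Esel]
  refine ENNReal.tsum_le_tsum fun c => ?_
  by_cases h : l + 1 ≤ c.rep.1.rl
  · rw [if_pos h]
    refine le_trans (le_of_eq ?_) (ENNReal.le_tsum (c.rep.1.rl - 1))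
    rw [if_pos ⟨by omega, by omega⟩]
  · rw [if_neg h]
    exact zero_le

open Classical in
private theorem RTail_add (s y : ℝ≥0∞) (l : ℕ) :
    tL s y l + Esel s y (fun M => l + 2 ≤ M.rl) = Esel s y (fun M => l + 1 ≤ M.rl) := by
  rw [tL, Esel, Esel, Esel, ← ENNReal.tsum_add]
  refine tsum_congr fun c => ?_
  by_cases h : l + 2 ≤ c.rep.1.rl
  · rw [if_neg (by omega : ¬ c.rep.1.rl = l + 1), if_pos h, if_pos (by omega), zero_add]
  · by_cases h2 : c.rep.1.rl = l + 1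
    · rw [if_pos h2, if_neg h, if_pos (by omega), add_zero]
    · rw [if_neg h2, if_neg h, if_neg (by omega), add_zero]

private theorem RTail_step (s y : ℝ≥0∞) (l : ℕ) (hl : 0 < l) :
    y * Esel s y (fun M => l + 1 ≤ M.rl) + Esel s y (fun M => l + 2 ≤ M.rl) ≤
      Esel s y (fun M => l + 1 ≤ M.rl) := by
  conv_rhs => rw [← RTail_add]
  gcongr
  refine le_trans ?_ (aL_le_tL s y l)
  rw [aL_eq s y l hl]
  refine le_trans ?_ le_add_self
  gcongr
  exact RTail_T s y l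

private theorem RTail_top (s y : ℝ≥0∞) (l : ℕ) :
    Esel s y (fun M => l + 1 ≤ M.rl) ≤ Es s y := by
  rw [Es, Esel, Esel]
  refine ENNReal.tsum_le_tsum fun c => ?_
  by_cases h : l + 1 ≤ c.rep.1.rl
  · rw [if_pos h, if_pos trivial]
  · rw [if_neg h]
    exact zero_le

theorem fpd_tail (h0 : 0 < x) (h1 : x ≤ 1 / 10) : ∃ ζ : ℝ, 0 < ζ ∧ ζ < 1 ∧ ∀ l : ℕ,
    ZF (ENNReal.ofReal x) (ENNReal.ofReal (yc x)) (fun F => l + 1 ≤ fpd F) ≤
      ENNReal.ofReal (ζ ^ l * ecr (vc x)) := by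
  obtain ⟨hz, hz0, hE⟩ := RTail_z h0 h1
  have h1' : x < 1 := by linarith
  have he0 : 0 < ecr (vc x) := ecr_pos (vc_pos h0 h1') (vc_lt_one h0 h1')
  obtain ⟨z, hzz⟩ : ∃ z, z = Yf x (vc x) := ⟨_, rfl⟩
  rw [← hzz] at hz hz0 hE
  obtain ⟨T, hT⟩ : ∃ T : ℕ → ℝ≥0∞, T = fun l =>
      Esel (ENNReal.ofReal x) (ENNReal.ofReal z) (fun M => l + 1 ≤ M.rl) := ⟨_, rfl⟩
  have hTE : ∀ l, T l ≤ ENNReal.ofReal (ecr (vc x)) := by
    intro l
    rw [hT, ← hE]
    exact RTail_top _ _ l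
  have hTt : ∀ l, T l ≠ ⊤ := fun l => ne_top_of_le_ne_top ENNReal.ofReal_ne_top (hTE l)
  have hstep : ∀ l, 0 < l → (T (l + 1)).toReal ≤ (1 - z) * (T l).toReal := by
    intro l hl
    have h2 := RTail_step (ENNReal.ofReal x) (ENNReal.ofReal z) l hl
    have h3 : ENNReal.ofReal z * T l + T (l + 1) ≤ T l := by
      rw [hT]
      exact h2
    have h4 : ENNReal.ofReal z * T l ≠ ⊤ := ENNReal.mul_ne_top ENNReal.ofReal_ne_top (hTt l)
    have h5 := ENNReal.toReal_mono (hTt l) h3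
    rw [ENNReal.toReal_add h4 (hTt (l + 1)), ENNReal.toReal_mul, ENNReal.toReal_ofReal hz0.le] at h5
    linarith
  refine ⟨max (1 / 2) (1 - z), by positivity, max_lt (by norm_num) (by linarith), fun l => ?_⟩
  have hζ0 : (0 : ℝ) ≤ max (1 / 2) (1 - z) := le_trans (by norm_num) (le_max_left _ _)
  have hind : ∀ l, (T (l + 1)).toReal ≤ max (1 / 2) (1 - z) ^ l * ecr (vc x) := by
    intro l
    induction l with
    | zero =>
      rw [pow_zero, one_mul]
      refine ENNReal.toReal_le_of_le_ofReal he0.le (hTE _)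
    | succ l ih =>
      refine (hstep (l + 1) (by omega)).trans ?_
      have h6 : (1 - z) * (T (l + 1)).toReal ≤ max (1 / 2) (1 - z) * (T (l + 1)).toReal :=
        mul_le_mul_of_nonneg_right (le_max_right _ _) ENNReal.toReal_nonneg
      refine h6.trans ?_
      rw [pow_succ']
      rw [mul_assoc]
      exact mul_le_mul_of_nonneg_left ih hζ0
  have e : ZF (ENNReal.ofReal x) (ENNReal.ofReal (yc x)) (fun F => l + 1 ≤ fpd F) = T (l + 1) := by
    have e1 : (fun F : FN => l + 1 ≤ fpd F) =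
        fun F : FN => (fun M : BMap => l + 1 + 1 ≤ M.rl) F.1.rep.1 := by
      funext F
      apply propext
      unfold fpd
      constructor
      · intro h
        change l + 1 + 1 ≤ F.1.rep.1.rl
        omega
      · intro h
        change l + 1 + 1 ≤ F.1.rep.1.rl at h
        omega
    rw [e1]
    refine (ZF_eq _ _ (fun M : BMap => l + 1 + 1 ≤ M.rl)).trans ?_
    rw [hz, hT]
  rw [e]
  exact (ENNReal.le_ofReal_iff_toReal_le (hTt _) (by positivity)).2 (hind l)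

theorem fpd_exp (h0 : 0 < x) (h1 : x ≤ 1 / 10) : ∃ q K : ℝ, 1 < q ∧ 1 ≤ K ∧
    ∑' F : FN, fwt (ENNReal.ofReal x) (ENNReal.ofReal (yc x)) F * ENNReal.ofReal q ^ fpd F ≤
      ENNReal.ofReal (K * ecr (vc x)) := by
  obtain ⟨ζ, hζ0, hζ1, hζ⟩ := fpd_tail h0 h1
  have h1' : x < 1 := by linarith
  have he0 : 0 < ecr (vc x) := ecr_pos (vc_pos h0 h1') (vc_lt_one h0 h1')
  obtain ⟨q, hq⟩ : ∃ q : ℝ, q = (1 + ζ⁻¹) / 2 := ⟨_, rfl⟩
  have hi : 1 < ζ⁻¹ := (one_lt_inv₀ hζ0).2 hζ1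
  have hq1 : 1 < q := by
    rw [hq]
    linarith
  have hq0 : 0 < q := by linarith
  have hqζ : q * ζ < 1 := by
    have : q * ζ = (ζ + 1) / 2 := by
      rw [hq]
      field_simp
    rw [this]
    linarith
  have hqζ0 : 0 < q * ζ := by positivity
  have hs : 0 < 1 - q * ζ := by linarith
  refine ⟨q, 1 + q / (1 - q * ζ), hq1, ?_, ?_⟩
  · have : 0 ≤ q / (1 - q * ζ) := by positivity
    linarith
  classical
  have e1 : ∑' F : FN, fwt (ENNReal.ofReal x) (ENNReal.ofReal (yc x)) F *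
      ENNReal.ofReal q ^ fpd F = ∑' m : ℕ, ENNReal.ofReal q ^ m *
        ZF (ENNReal.ofReal x) (ENNReal.ofReal (yc x)) (fun F => fpd F = m) := by
    have e2 : ∀ m : ℕ, ENNReal.ofReal q ^ m *
        ZF (ENNReal.ofReal x) (ENNReal.ofReal (yc x)) (fun F => fpd F = m) =
        ∑' F : FN, if m = fpd F then fwt (ENNReal.ofReal x) (ENNReal.ofReal (yc x)) F *
          ENNReal.ofReal q ^ fpd F else 0 := by
      intro m
      rw [ZF, ← ENNReal.tsum_mul_left]
      refine tsum_congr fun F => ?_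
      by_cases h : fpd F = m
      · rw [if_pos h, if_pos h.symm, h, mul_comm]
      · rw [if_neg h, if_neg (fun h' => h h'.symm), mul_zero]
    rw [tsum_congr e2, ENNReal.tsum_comm]
    refine tsum_congr fun F => ?_
    rw [tsum_ite_eq]
  rw [e1, tsum_eq_zero_add' ENNReal.summable]
  have h3 : ZF (ENNReal.ofReal x) (ENNReal.ofReal (yc x)) (fun F => fpd F = 0) ≤
      ENNReal.ofReal (ecr (vc x)) := by
    rw [← ZF_D h0 h1]
    exact ZF_mono fun F _ => trivial
  have h4 : ∀ m : ℕ, ENNReal.ofReal q ^ (m + 1) *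
      ZF (ENNReal.ofReal x) (ENNReal.ofReal (yc x)) (fun F => fpd F = m + 1) ≤
      ENNReal.ofReal (q * ecr (vc x) * (q * ζ) ^ m) := by
    intro m
    have h5 : ZF (ENNReal.ofReal x) (ENNReal.ofReal (yc x)) (fun F => fpd F = m + 1) ≤
        ENNReal.ofReal (ζ ^ m * ecr (vc x)) := by
      refine le_trans (ZF_mono fun F h => ?_) (hζ m)
      exact h.ge
    refine (mul_le_mul_right h5 _).trans (le_of_eq ?_)
    rw [← ENNReal.ofReal_pow hq0.le, ← ENNReal.ofReal_mul (by positivity)]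
    congr 1
    rw [mul_pow]
    ring
  have hgs : HasSum (fun m : ℕ => q * ecr (vc x) * (q * ζ) ^ m)
      (q * ecr (vc x) * (1 - q * ζ)⁻¹) :=
    (hasSum_geometric_of_lt_one hqζ0.le hqζ).mul_left _
  calc ENNReal.ofReal q ^ 0 *
        ZF (ENNReal.ofReal x) (ENNReal.ofReal (yc x)) (fun F => fpd F = 0) +
      ∑' m : ℕ, ENNReal.ofReal q ^ (m + 1) *
        ZF (ENNReal.ofReal x) (ENNReal.ofReal (yc x)) (fun F => fpd F = m + 1)
      ≤ ENNReal.ofReal (ecr (vc x)) +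
        ∑' m : ℕ, ENNReal.ofReal (q * ecr (vc x) * (q * ζ) ^ m) := by
        rw [pow_zero, one_mul]
        exact add_le_add h3 (ENNReal.tsum_le_tsum h4)
    _ = ENNReal.ofReal (ecr (vc x)) + ENNReal.ofReal (q * ecr (vc x) * (1 - q * ζ)⁻¹) := by
        rw [← ENNReal.ofReal_tsum_of_nonneg (fun m => by positivity) hgs.summable, hgs.tsum_eq]
    _ = ENNReal.ofReal ((1 + q / (1 - q * ζ)) * ecr (vc x)) := by
        rw [← ENNReal.ofReal_add he0.le (by positivity)]
        congr 1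
        field_simp

end Dia
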