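import Pool.Agent.DiaC.ZSize
import Pool.Agent.DiaC.RTail

/-!
# Module SWin: the total size of a family of `j` filled nets is near `yMu x * j`
-/

set_option linter.unusedSectionVars false

namespace Dia
open Equiv Finset PGr Pool.Agent.DiamP
open scoped ENNReal

variable {x : ℝ}

/-- the convolution powers of the unnormalised law -/
private theorem SWin_hom (hD : ecr (vc x) ≠ 0) (j : ℕ) (N : ℕ) :
    cvL (List.replicate j (YS x (yc x))) N =
      ecr (vc x) ^ j * cvL (List.replicate j (yLaw x)) N := by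
  induction j generalizing N with
  | zero => simp
  | succ j ih =>
    rw [List.replicate_succ, List.replicate_succ, cvL_cons, cvL_cons, cv, cv, Finset.mul_sum]
    refine sum_congr rfl fun ab _ => ?_
    rw [ih, pow_succ]
    have : YS x (yc x) ab.1 = ecr (vc x) * yLaw x ab.1 := by
      unfold yLaw
      field_simp
    rw [this]
    ring

private theorem SWin_mean (j : ℕ) : meanL (List.replicate j (yLaw x)) = yMu x * (j : ℕ) := by
  unfold meanL
  rw [List.map_replicate, List.sum_replicate, nsmul_eq_mul, mul_comm]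
  rfl

theorem sum_window (h0 : 0 < x) (h1 : x ≤ 1 / 10) : ∃ A : ℝ, 0 < A ∧ ∀ (I : Type) [Fintype I],
    1 ≤ Fintype.card I →
    ENNReal.ofReal (ecr (vc x) ^ Fintype.card I / 2) ≤
      ZG (ENNReal.ofReal x) (ENNReal.ofReal (yc x)) (fun g : I → FN =>
        |((∑ i, fsz (g i) : ℕ) : ℝ) - yMu x * (Fintype.card I : ℕ)| ≤
          A * ((Fintype.card I : ℕ) : ℝ) ^ (2 / 3 : ℝ)) := by
  have h1' : x < 1 := by linarith
  have he0 : 0 < ecr (vc x) := ecr_pos (vc_pos h0 h1') (vc_lt_one h0 h1')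
  obtain ⟨c, K, hc, hK, hH⟩ := yLaw_HLaw h0 h1
  have hdK := dK_nonneg hK
  obtain ⟨B, hB⟩ : ∃ B : ℝ, B = 2 * (4 * dK K + 1) := ⟨_, rfl⟩
  have hB0 : 0 < B := by rw [hB]; positivity
  refine ⟨B ^ (2 / 3 : ℝ), by positivity, ?_⟩
  intro I _ hI
  obtain ⟨j, hj⟩ : ∃ j, j = Fintype.card I := ⟨_, rfl⟩
  rw [← hj] at hI ⊢
  obtain ⟨A, hA⟩ : ∃ A : ℝ, A = B ^ (2 / 3 : ℝ) := ⟨_, rfl⟩
  have hA0 : 0 < A := by rw [hA]; positivity
  rw [← hA]
  have hj0 : (0 : ℝ) < (j : ℝ) := by exact_mod_cast hI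
  obtain ⟨t, ht⟩ : ∃ t : ℝ, t = A * (j : ℝ) ^ (2 / 3 : ℝ) := ⟨_, rfl⟩
  have ht0 : 0 < t := by rw [ht]; positivity
  rw [← ht]
  obtain ⟨l, hl⟩ : ∃ l, l = List.replicate j (yLaw x) := ⟨_, rfl⟩
  have hlmem : ∀ p ∈ l, HT K p := by
    intro p hp
    rw [hl] at hp
    rw [List.eq_of_mem_replicate hp]
    exact hH.ht
  have hlen : l.length = j := by rw [hl, List.length_replicate]
  have hmean : meanL l = yMu x * (j : ℕ) := by rw [hl]; exact SWin_mean j
  have hlaw : IsLaw (cvL l) := isLaw_cvL fun p hp => (hlmem p hp).law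
  have hdev := heavy_dev hK hlmem ht0
  have hpow : t ^ (-(3 / 2) : ℝ) = B⁻¹ * (j : ℝ)⁻¹ := by
    rw [ht, Real.mul_rpow hA0.le (by positivity), hA, ← Real.rpow_mul hB0.le,
      ← Real.rpow_mul hj0.le]
    norm_num
    rw [Real.rpow_neg_one, Real.rpow_neg_one]
  have hhalf : pr (cvL l) {n | t ≤ |(n : ℝ) - meanL l|} ≤ 1 / 2 := by
    refine hdev.trans (le_of_eq ?_)
    rw [hpow, hlen, hB]
    field_simp
  classical
  obtain ⟨W, hW⟩ : ∃ W : Finset ℕ, W = (range (⌊yMu x * (j : ℕ) + t⌋₊ + 1)).filter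
      (fun N : ℕ => |(N : ℝ) - yMu x * (j : ℕ)| ≤ t) := ⟨_, rfl⟩
  have hWc : ∀ n : ℕ, n ∉ W → t ≤ |(n : ℝ) - meanL l| := by
    intro n hn
    by_contra hlt
    push Not at hlt
    rw [hmean] at hlt
    apply hn
    rw [hW, mem_filter, mem_range]
    refine ⟨?_, hlt.le⟩
    have h2 : (n : ℝ) ≤ yMu x * (j : ℕ) + t := by
      have := (abs_lt.1 hlt).2
      linarith
    exact Nat.lt_succ_of_le (Nat.le_floor h2)
  have hsum : (1 : ℝ) / 2 ≤ ∑ N ∈ W, cvL l N := by
    have hs1 : Summable fun n => if n ∈ W then cvL l n else 0 :=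
      summable_of_ne_finset_zero (s := W) fun n hn => if_neg hn
    have hs2 := hlaw.summable_indicator {n : ℕ | t ≤ |(n : ℝ) - meanL l|}
    have e1 : ∑' n, (if n ∈ W then cvL l n else 0) = ∑ N ∈ W, cvL l N := by
      rw [tsum_eq_sum (s := W) fun n hn => if_neg hn]
      exact sum_congr rfl fun n hn => if_pos hn
    have h3 : ∑' n, cvL l n ≤ ∑' n, ((if n ∈ W then cvL l n else 0) +
        Set.indicator {n : ℕ | t ≤ |(n : ℝ) - meanL l|} (cvL l) n) := by
      refine hlaw.summable.tsum_le_tsum (fun n => ?_) (hs1.add hs2)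
      by_cases h : n ∈ W
      · rw [if_pos h]
        have : 0 ≤ Set.indicator {n : ℕ | t ≤ |(n : ℝ) - meanL l|} (cvL l) n :=
          Set.indicator_nonneg (fun _ _ => hlaw.nonneg _) n
        linarith
      · rw [if_neg h, zero_add, Set.indicator_of_mem]
        exact hWc n h
    rw [hs1.tsum_add hs2, e1, hlaw.tsum] at h3
    have h4 : ∑' n, Set.indicator {n : ℕ | t ≤ |(n : ℝ) - meanL l|} (cvL l) n ≤ 1 / 2 := hhalf
    linarith
  have hy := yc_pos h0 h1'
  have hZ := ZG_fin h0 hy (Ag_ne_top h0 h1') (I := I) W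
  have hmono : ZG (ENNReal.ofReal x) (ENNReal.ofReal (yc x))
      (fun g : I → FN => ∑ i, fsz (g i) ∈ W) ≤
      ZG (ENNReal.ofReal x) (ENNReal.ofReal (yc x)) (fun g : I → FN =>
        |((∑ i, fsz (g i) : ℕ) : ℝ) - yMu x * (j : ℕ)| ≤ t) := by
    refine ZG_mono fun g hg => ?_
    rw [hW, mem_filter] at hg
    exact hg.2
  refine le_trans ?_ hmono
  rw [hZ, ← hj, ← ENNReal.ofReal_sum_of_nonneg]
  · apply ENNReal.ofReal_le_ofReal
    have e2 : ∑ N ∈ W, cvL (List.replicate j (YS x (yc x))) N =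
        ecr (vc x) ^ j * ∑ N ∈ W, cvL l N := by
      rw [Finset.mul_sum, hl]
      exact sum_congr rfl fun N _ => SWin_hom he0.ne' j N
    rw [e2]
    have h5 : 0 < ecr (vc x) ^ j := by positivity
    nlinarith
  · intro N _
    rw [SWin_hom he0.ne' j N, ← hl]
    exact mul_nonneg (by positivity) (hlaw.nonneg _)

end Dia
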