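import Pool.Agent.DiamP.Conv

/-!
# Module SumL: sums of convolutions

`enS f` = sum of a nonnegative sequence in `[0, ∞]`.
`enS_cv`: `ENNReal.ofReal` of a finite sum of products of nonnegative numbers; exchange of sums
(`ENNReal.tsum_mul_left/right`, antidiagonal: see `ev_mul` in `DiaC/EvPS.lean`, or deduce from it with
`PowerSeries.mk (fun n => ENNReal.ofReal (f n))`, `y = 1`).
`enS_cvL`: induction.  `enS_sum`: a summable nonnegative sequence.
`hasSum_cv`, `hasSum_cvL`: real versions (`IsLaw.cv` in `DiamP/Basic.lean` has the proof for laws).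
`cvL_congr`: `r 0 = 0`, so in `cvL (replicate v r ++ l) k`, `v ≥ 1`, `k ≤ n`, only the values `l_i j` with `j < n` (at most
`k - 1`) occur: first show by induction that `cvL l k = cvL l' k` for `k < n` if the sequences agree below `n`, and
`cv r F n = cv r G n` if `F, G` agree below `n` (the term with `F n` has the factor `r 0 = 0`).
-/

set_option linter.unusedSectionVars false

namespace Dia
open Finset Pool.Agent.DiamP
open scoped ENNReal

/-- sum of a nonnegative sequence -/
noncomputable def enS (f : ℕ → ℝ) : ℝ≥0∞ := ∑' k, ENNReal.ofReal (f k)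

theorem enS_mono {f g : ℕ → ℝ} (h : ∀ k, f k ≤ g k) : enS f ≤ enS g :=
  ENNReal.tsum_le_tsum fun k => ENNReal.ofReal_le_ofReal (h k)

theorem enS_add {f g : ℕ → ℝ} (hf : ∀ k, 0 ≤ f k) (hg : ∀ k, 0 ≤ g k) :
    enS (fun k => f k + g k) = enS f + enS g := by
  unfold enS
  rw [← ENNReal.tsum_add]
  exact tsum_congr fun k => ENNReal.ofReal_add (hf k) (hg k)

theorem enS_add_le (f g : ℕ → ℝ) : enS (fun k => f k + g k) ≤ enS f + enS g := by
  unfold enS
  rw [← ENNReal.tsum_add]
  exact ENNReal.tsum_le_tsum fun k => ENNReal.ofReal_add_le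

theorem enS_mul {c : ℝ} (hc : 0 ≤ c) (f : ℕ → ℝ) :
    enS (fun k => c * f k) = ENNReal.ofReal c * enS f := by
  unfold enS
  rw [← ENNReal.tsum_mul_left]
  exact tsum_congr fun k => ENNReal.ofReal_mul hc

theorem enS_cv {f g : ℕ → ℝ} (hf : ∀ k, 0 ≤ f k) (hg : ∀ k, 0 ≤ g k) :
    enS (cv f g) = enS f * enS g := by
  unfold enS
  have h1 : ∀ n, ENNReal.ofReal (cv f g n)
      = ∑' p : Finset.HasAntidiagonal.antidiagonal n,
        ENNReal.ofReal (f p.1.1) * ENNReal.ofReal (g p.1.2) := by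
    intro n
    unfold cv
    rw [ENNReal.ofReal_sum_of_nonneg fun p _ => mul_nonneg (hf _) (hg _), tsum_fintype,
      ← Finset.sum_coe_sort (Finset.HasAntidiagonal.antidiagonal n)]
    exact Finset.sum_congr rfl fun p _ => ENNReal.ofReal_mul (hf _)
  rw [tsum_congr h1, ← ENNReal.tsum_mul_right]
  simp_rw [← ENNReal.tsum_mul_left]
  rw [← ENNReal.tsum_prod (f := fun i j => ENNReal.ofReal (f i) * ENNReal.ofReal (g j)),
    ← (Finset.HasAntidiagonal.sigmaAntidiagonalEquivProd (A := ℕ)).tsum_eq, ENNReal.tsum_sigma']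
  rfl

private theorem suml_one0_nn (k : ℕ) : 0 ≤ one0 k := isLaw_one0.nonneg k

private theorem suml_enS_one0 : enS one0 = 1 := by
  unfold enS
  rw [tsum_eq_single 0]
  · simp [one0]
  · intro n hn
    simp [one0, hn]

theorem cvL_nn {l : List (ℕ → ℝ)} (h : ∀ f ∈ l, ∀ k, 0 ≤ f k) (k : ℕ) : 0 ≤ cvL l k := by
  induction l generalizing k with
  | nil => exact suml_one0_nn k
  | cons f l ih =>
    rw [cvL_cons]
    exact cv_nonneg (h f (by simp)) (fun n => ih (fun g hg => h g (by simp [hg])) n) k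

theorem enS_cvL {l : List (ℕ → ℝ)} (h : ∀ f ∈ l, ∀ k, 0 ≤ f k) :
    enS (cvL l) = (l.map enS).prod := by
  induction l with
  | nil => rw [cvL_nil, suml_enS_one0]; simp
  | cons f l ih =>
    have hl : ∀ g ∈ l, ∀ k, 0 ≤ g k := fun g hg => h g (by simp [hg])
    rw [cvL_cons, enS_cv (h f (by simp)) (cvL_nn hl), ih hl, List.map_cons, List.prod_cons]

theorem enS_sum {f : ℕ → ℝ} (hf : ∀ k, 0 ≤ f k) (h : Summable f) :
    enS f = ENNReal.ofReal (∑' k, f k) :=
  (ENNReal.ofReal_tsum_of_nonneg hf h).symm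

theorem enS_fin {f : ℕ → ℝ} (hf : ∀ k, 0 ≤ f k) (h : enS f ≠ ⊤) :
    Summable f ∧ ∑' k, f k = (enS f).toReal := by
  have h1 : Summable f := by
    have h2 := ENNReal.summable_toReal h
    refine h2.congr fun k => ?_
    exact ENNReal.toReal_ofReal (hf k)
  refine ⟨h1, ?_⟩
  rw [enS_sum hf h1, ENNReal.toReal_ofReal (tsum_nonneg hf)]

theorem hasSum_cv {f g : ℕ → ℝ} {a b : ℝ} (hf : ∀ k, 0 ≤ f k) (hg : ∀ k, 0 ≤ g k)
    (ha : HasSum f a) (hb : HasSum g b) : HasSum (cv f g) (a * b) := by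
  have hp' : Summable fun n => ‖f n‖ := by
    simpa [Real.norm_of_nonneg (hf _)] using ha.summable
  have hq' : Summable fun n => ‖g n‖ := by
    simpa [Real.norm_of_nonneg (hg _)] using hb.summable
  have h1 := tsum_mul_tsum_eq_tsum_sum_antidiagonal_of_summable_norm hp' hq'
  have h2 := (summable_norm_sum_mul_antidiagonal_of_summable_norm hp' hq').of_norm
  rw [ha.tsum_eq, hb.tsum_eq] at h1
  have h3 := h2.hasSum
  rw [← h1] at h3
  exact h3

theorem hasSum_cvL {l : List (ℕ → ℝ)} (h : ∀ f ∈ l, (∀ k, 0 ≤ f k) ∧ Summable f) :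
    HasSum (cvL l) (l.map fun f => ∑' k, f k).prod := by
  induction l with
  | nil =>
    rw [cvL_nil]
    simpa using isLaw_one0.sum
  | cons f l ih =>
    have hl : ∀ g ∈ l, (∀ k, 0 ≤ g k) ∧ Summable g := fun g hg => h g (by simp [hg])
    obtain ⟨h1, h2⟩ := h f (by simp)
    rw [cvL_cons, List.map_cons, List.prod_cons]
    exact hasSum_cv h1 (cvL_nn fun g hg => (hl g hg).1) h2.hasSum (ih hl)

theorem cvL_congr {r : ℕ → ℝ} (hr : r 0 = 0) {v : ℕ} (hv : 1 ≤ v) {n : ℕ}
    {l l' : List (ℕ → ℝ)} (h : List.Forall₂ (fun f g => ∀ j < n, f j = g j) l l') :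
    ∀ k ≤ n, cvL (List.replicate v r ++ l) k = cvL (List.replicate v r ++ l') k := by
  have h1 : ∀ k < n, cvL l k = cvL l' k := by
    induction h with
    | nil => intro k _; rfl
    | cons hfg _ ih =>
      intro k hk
      rw [cvL_cons, cvL_cons]
      unfold cv
      refine Finset.sum_congr rfl fun p hp => ?_
      have h2 := Finset.HasAntidiagonal.mem_antidiagonal.1 hp
      rw [hfg p.1 (by omega), ih p.2 (by omega)]
  obtain ⟨w, rfl⟩ : ∃ w, v = w + 1 := ⟨v - 1, by omega⟩
  have h3 : ∀ w, ∀ k < n, cvL (List.replicate w r ++ l) k = cvL (List.replicate w r ++ l') k := by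
    intro w
    induction w with
    | zero => simpa using h1
    | succ w ih =>
      intro k hk
      rw [List.replicate_succ, List.cons_append, List.cons_append, cvL_cons, cvL_cons]
      unfold cv
      refine Finset.sum_congr rfl fun p hp => ?_
      have h2 := Finset.HasAntidiagonal.mem_antidiagonal.1 hp
      rw [ih p.2 (by omega)]
  intro k hk
  rw [List.replicate_succ, List.cons_append, List.cons_append, cvL_cons, cvL_cons]
  unfold cv
  refine Finset.sum_congr rfl fun p hp => ?_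
  have h2 := Finset.HasAntidiagonal.mem_antidiagonal.1 hp
  rcases Nat.eq_zero_or_pos p.1 with h4 | h4
  · rw [h4, hr, zero_mul, zero_mul]
  · rw [h3 w p.2 (by omega)]

/-- monotonicity -/
theorem cvL_mono' {l l' : List (ℕ → ℝ)}
    (h : List.Forall₂ (fun f g => ∀ k, 0 ≤ f k ∧ f k ≤ g k) l l') (k : ℕ) :
    cvL l k ≤ cvL l' k := by
  have key : ∀ k, 0 ≤ cvL l k ∧ cvL l k ≤ cvL l' k := by
    clear k
    induction h with
    | nil => intro k; exact ⟨suml_one0_nn k, le_rfl⟩
    | cons hfg _ ih =>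
      intro k
      rw [cvL_cons, cvL_cons]
      unfold cv
      refine ⟨Finset.sum_nonneg fun p _ => mul_nonneg (hfg _).1 (ih _).1,
        Finset.sum_le_sum fun p _ => ?_⟩
      exact mul_le_mul (hfg _).2 (ih _).2 (ih _).1 ((hfg _).1.trans (hfg _).2)
  exact (key k).2

end Dia
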