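import Pool.Agent.DiaC.EvPS
import Pool.Agent.DiaC.InsSum
import Pool.Agent.PGc.RigLe
import Pool.Agent.PGc.SerEq

/-!
# Module SysE: the equations as identities of power series

`aE_E_pos`: a rooted map has at least two darts (`r ≠ a r`), so `E ≥ 1`.
`ev_AP`: group the sum `Ag` by the number of edges (`ENNReal.tsum_comm`; for every `m` only `N = E` contributes).
`Esel_series`: the same for `Esel x z P = ∑' c, if P then x^(nV-2) z^(card D / 2)`.
`ev_ZP`, `ev_YP`: `ev_mul`, `ev_pow`, `ev_sbs`.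

Finiteness: let `Ag x y0 ≠ ⊤`, `x, y0 ∉ {0, ∞}`.  By `Ag_eq`, `z = y0 Ag^2` satisfies
`x z Es x z ≤ Ag`, so `Es x z ≠ ⊤`; all `Esel x z P ≤ Es x z`.
Every equation holds after `ev` at every `y` (`Ag_eq`; `E_eq`, `ser_eq`, `par_eq` of `PGc` at `z = ev Z y`;
`Rg_series` for the rigid term), so it holds for the power series by `ev_inj`.
`YP_split` holds coefficientwise (`Esel_add` for the coefficients: every class satisfies `P` or not).
`coeff 0`: `selE x P 0 = 0` (a good map has at least one nonroot edge), `coeff 0 (ZP) = 0`.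
-/

set_option linter.unusedSectionVars false

namespace Dia
open Finset PGr PowerSeries
open scoped ENNReal

variable {x : ℝ≥0∞}

theorem RM.IsMap.E_pos {M : RM} (h : M.IsMap) : 0 < M.E := by
  have h1 : 1 < Fintype.card M.T :=
    Fintype.one_lt_card_iff.mpr ⟨M.a M.r, M.r, h.fpf M.r⟩
  unfold RM.E
  omega

theorem ev_AP (x y : ℝ≥0∞) : ev (AP x) y = Ag x y := by
  classical
  unfold AP
  rw [ev_mk]
  have h0 : ∑' n, aE x n * y ^ n = aE x 0 * y ^ 0 + ∑' n, aE x (n + 1) * y ^ (n + 1) :=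
    tsum_eq_zero_add' ENNReal.summable
  rw [h0]
  unfold Ag
  congr 1
  · unfold aE
    rw [if_pos rfl, one_mul, pow_zero]
  · have h1 : ∀ n, aE x (n + 1) * y ^ (n + 1) = ∑' m : RMC,
        (if m.out.1.E = n + 1 then x ^ (nV m.out.1.s - 1) else 0) * y ^ (n + 1) := by
      intro n
      unfold aE
      rw [if_neg (Nat.succ_ne_zero n), ENNReal.tsum_mul_right]
    simp_rw [h1]
    rw [ENNReal.tsum_comm]
    refine tsum_congr fun m => ?_
    have hE : 0 < m.out.1.E := RM.IsMap.E_pos m.out.2.toIsMap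
    rw [tsum_eq_single (m.out.1.E - 1)]
    · rw [if_pos (by omega), Nat.sub_add_cancel hE]
    · intro n hn
      rw [if_neg (by omega), zero_mul]

theorem SysE_gen (x : ℝ≥0∞) (P : BMap → Prop) (h : ℕ → ℝ≥0∞) [DecidablePred P] :
    ∑' m, selE x P m * h m = ∑' c : GC, if P c.rep.1 then
      x ^ (nV c.rep.1.s - 2) * h (Fintype.card c.rep.1.D / 2) else 0 := by
  classical
  have h1 : ∀ n, selE x P n * h n = ∑' c : GC,
      (if P c.rep.1 ∧ Fintype.card c.rep.1.D / 2 = n then x ^ (nV c.rep.1.s - 2) else 0) * h n := by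
    intro n
    rw [selE, ENNReal.tsum_mul_right]
    congr
    funext c
    congr
  simp_rw [h1]
  rw [ENNReal.tsum_comm]
  refine tsum_congr fun c => ?_
  rw [tsum_eq_single (Fintype.card c.rep.1.D / 2)]
  · by_cases hR : P c.rep.1
    · rw [if_pos ⟨hR, rfl⟩, if_pos hR]
    · rw [if_neg (fun h => hR h.1), if_neg hR, zero_mul]
  · intro n hn
    rw [if_neg (fun h => hn h.2.symm), zero_mul]

theorem Esel_series (x z : ℝ≥0∞) (P : BMap → Prop) : Esel x z P = ∑' m, selE x P m * z ^ m := by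
  classical
  rw [SysE_gen x P (fun n => z ^ n), ESum.Esel_eq x z P]
  rfl

theorem ev_ZP (x y : ℝ≥0∞) : ev (ZP x) y = y * Ag x y ^ 2 := by
  unfold ZP
  rw [ev_mul, ev_X, ev_pow, ev_AP]

theorem ev_YP (x y : ℝ≥0∞) (P : BMap → Prop) : ev (YP x P) y = Esel x (y * Ag x y ^ 2) P := by
  unfold YP
  rw [ev_sbs, ev_ZP, ← Esel_series]

theorem SysE_one_le (x y : ℝ≥0∞) : 1 ≤ Ag x y := by
  unfold Ag
  exact le_self_add

theorem Es_ne_top {y : ℝ≥0∞} (hx0 : x ≠ 0) (hy0 : y ≠ 0) (h : Ag x y ≠ ⊤) :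
    Es x (y * Ag x y ^ 2) ≠ ⊤ := by
  intro hE
  apply h
  rw [Ag_eq, hE]
  have h1 : Ag x y ≠ 0 := by
    intro h0
    have := SysE_one_le x y
    rw [h0] at this
    exact absurd this (by simp)
  have h2 : y * Ag x y ^ 2 ≠ 0 := mul_ne_zero hy0 (pow_ne_zero 2 h1)
  rw [add_top, ENNReal.mul_top hx0, add_top, ENNReal.mul_top h2, add_top]

theorem SysE_Esel_le (x z : ℝ≥0∞) (P : BMap → Prop) : Esel x z P ≤ Es x z := by
  rw [← Esel_add x z P]
  exact le_self_add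

theorem AP_eq {y : ℝ≥0∞} (hx0 : x ≠ 0) (hy0 : y ≠ 0) (h : Ag x y ≠ ⊤) :
    AP x = 1 + ZP x + C x * (ZP x * (1 + YP x fun _ => True)) := by
  refine ev_inj (fun w => ?_) hy0 (by rw [ev_AP]; exact h)
  rw [ev_AP, ev_add, ev_add, ev_one, ev_mul, ev_C, ev_mul, ev_ZP, ev_add, ev_one, ev_YP]
  conv_lhs => rw [Ag_eq]
  unfold Es
  ring

theorem YP_split (x : ℝ≥0∞) (P : BMap → Prop) :
    YP x (fun _ => True) = YP x P + YP x (fun M => ¬ P M) := by
  classical
  have h1 : ∀ j, selE x (fun _ => True) j = selE x P j + selE x (fun M => ¬ P M) j := by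
    intro j
    unfold selE
    rw [← ENNReal.tsum_add]
    refine tsum_congr fun c => ?_
    by_cases hj : Fintype.card c.rep.1.D / 2 = j
    · by_cases hP : P c.rep.1
      · rw [if_pos ⟨trivial, hj⟩, if_pos ⟨hP, hj⟩, if_neg (fun h => h.1 hP), add_zero]
      · rw [if_pos ⟨trivial, hj⟩, if_neg (fun h => hP h.1), if_pos ⟨hP, hj⟩, zero_add]
    · rw [if_neg (fun h => hj h.2), if_neg (fun h => hj h.2), if_neg (fun h => hj h.2), add_zero]
  unfold YP
  ext n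
  rw [map_add]
  unfold sbs
  rw [coeff_mk, coeff_mk, coeff_mk, ← ENNReal.tsum_add]
  refine tsum_congr fun j => ?_
  rw [h1, add_mul]

theorem SysE_ev_ne_top {y : ℝ≥0∞} (hx0 : x ≠ 0) (hy0 : y ≠ 0) (h : Ag x y ≠ ⊤)
    (P : BMap → Prop) : ev (YP x P) y ≠ ⊤ := by
  rw [ev_YP]
  exact ne_top_of_le_ne_top (Es_ne_top hx0 hy0 h) (SysE_Esel_le _ _ _)

theorem YP_eq {y : ℝ≥0∞} (hx0 : x ≠ 0) (hy0 : y ≠ 0) (h : Ag x y ≠ ⊤) :
    YP x (fun _ => True) = ZP x + YP x IsSer + YP x IsPar + sbs (rc' x) (YP x fun _ => True) := by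
  refine ev_inj (fun w => ?_) hy0 (SysE_ev_ne_top hx0 hy0 h _)
  rw [ev_add, ev_add, ev_add, ev_sbs, ev_YP, ev_YP, ev_YP, ev_ZP, ← Rg_series]
  exact E_eq x (w * Ag x w ^ 2)

theorem YP_ser {y : ℝ≥0∞} (hx0 : x ≠ 0) (hy0 : y ≠ 0) (h : Ag x y ≠ ⊤) :
    YP x IsSer = C x * (YP x (fun M => ¬ IsSer M) * YP x (fun _ => True)) := by
  refine ev_inj (fun w => ?_) hy0 (SysE_ev_ne_top hx0 hy0 h _)
  rw [ev_mul, ev_mul, ev_C, ev_YP, ev_YP, ev_YP, ← mul_assoc]
  exact ser_eq x (w * Ag x w ^ 2)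

theorem YP_par {y : ℝ≥0∞} (hx0 : x ≠ 0) (hy0 : y ≠ 0) (h : Ag x y ≠ ⊤) :
    YP x IsPar = YP x (fun M => ¬ IsPar M) * YP x (fun _ => True) := by
  refine ev_inj (fun w => ?_) hy0 (SysE_ev_ne_top hx0 hy0 h _)
  rw [ev_mul, ev_YP, ev_YP, ev_YP]
  exact par_eq x (w * Ag x w ^ 2)

theorem coeff_zero_ZP (x : ℝ≥0∞) : coeff 0 (ZP x) = 0 := by
  unfold ZP
  exact coeff_zero_X_mul _

theorem SysE_sel_zero (x : ℝ≥0∞) (P : BMap → Prop) : selE x P 0 = 0 := by
  classical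
  unfold selE
  rw [ENNReal.tsum_eq_zero]
  intro c
  obtain ⟨k, hk, hk2⟩ := card_D_even c.rep.2
  rw [if_neg]
  rintro ⟨-, h2⟩
  omega

theorem coeff_zero_YP (x : ℝ≥0∞) (P : BMap → Prop) : coeff 0 (YP x P) = 0 := by
  unfold YP sbs
  rw [coeff_mk, ENNReal.tsum_eq_zero]
  intro j
  rcases Nat.eq_zero_or_pos j with rfl | hj
  · rw [SysE_sel_zero, zero_mul]
  · have h1 : coeff 0 (ZP x ^ j) = 0 := by
      rw [coeff_zero_eq_constantCoeff_apply, map_pow, ← coeff_zero_eq_constantCoeff_apply,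
        coeff_zero_ZP, zero_pow (by omega)]
    rw [h1, mul_zero]

end Dia
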