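import Pool.Agent.DiaC.BigSum
import Pool.Agent.DiaC.CritV
import Pool.Agent.DiamP.Tail

/-!
# Weights of families of filled nets: definitions
-/

set_option linter.unusedSectionVars false

namespace Dia
open Equiv Finset PGr Pool.Agent.DiamP
open scoped ENNReal Classical

/-- weight of the filled nets with a property -/
noncomputable def ZF (x y : ℝ≥0∞) (p : FN → Prop) : ℝ≥0∞ :=
  ∑' F : FN, if p F then fwt x y F else 0

/-- weight of the families of filled nets with a property -/
noncomputable def ZG (x y : ℝ≥0∞) {I : Type} [Fintype I] (p : (I → FN) → Prop) : ℝ≥0∞ :=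
  ∑' g : I → FN, if p g then ∏ i, fwt x y (g i) else 0

/-- weight of the rigid classes with a property: `x` per vertex, the critical value `ecr (vc x)` per
nonroot edge -/
noncomputable def tauS (x : ℝ) (P : GC → Prop) : ℝ≥0∞ :=
  ∑' c : GC, if Rigid c.rep.1 ∧ P c then
    ENNReal.ofReal (x ^ (nV c.rep.1.s - 2) * ecr (vc x) ^ gE c) else 0

/-- the law of the size of a filled net -/
noncomputable def yLaw (x : ℝ) (n : ℕ) : ℝ := YS x (yc x) n / ecr (vc x)

/-- its mean -/
noncomputable def yMu (x : ℝ) : ℝ := mean (yLaw x)

end Dia
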