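import Pool.Agent.DiaC.ZDefs

/-!
# Module ZFam: weights of families of filled nets (elementary)

All statements are for arbitrary `x, y : ℝ≥0∞`; `I` finite.  `prod_tsum` (`PGr.SumLib`): product of sums = sum
over families of products.

`ZG_mono`, `ZG_or`, `ZG_compl`: termwise.  `ZG_union`: finite union bound (`ENNReal.tsum_finsetSum`-type
exchange, termwise `if ∃ .. ≤ ∑ if`).
`ZG_exp`: `∏ i, fwt (g i) * ∏ i ∈ S, f (g i) = ∏ i, (fwt (g i) * if i ∈ S then f (g i) else 1)`, `prod_tsum`, and the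
product over `i` of `if i ∈ S then A else B` is `A ^ S.card * B ^ (card I - S.card)`.
`ZG_true`: `S = ∅`.  `ZG_one`: `S = {i}`, `f` = indicator of `p`.  `ZG_exists`: `ZG_union`, `ZG_one`.
`ZG_chern`: if `a ≤ ∑ i ∈ S, φ (g i)` then `q ^ a ≤ ∏ i ∈ S, q ^ φ (g i)` (`q ≥ 1`); `ZG_exp` with `f = q ^ φ`.
-/

set_option linter.unusedSectionVars false

namespace Dia
open Equiv Finset PGr
open scoped ENNReal

variable {x y : ℝ≥0∞} {I : Type} [Fintype I]

theorem ZF_mono {p q : FN → Prop} (h : ∀ F, p F → q F) : ZF x y p ≤ ZF x y q := by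
  refine ENNReal.tsum_le_tsum fun F => ?_
  by_cases h1 : p F
  · rw [if_pos h1, if_pos (h F h1)]
  · rw [if_neg h1]
    exact zero_le

theorem ZF_or (p q : FN → Prop) : ZF x y (fun F => p F ∨ q F) ≤ ZF x y p + ZF x y q := by
  unfold ZF
  rw [← ENNReal.tsum_add]
  refine ENNReal.tsum_le_tsum fun F => ?_
  by_cases h1 : p F
  · rw [if_pos (Or.inl h1), if_pos h1]
    exact le_self_add
  · by_cases h2 : q F
    · rw [if_pos (Or.inr h2), if_pos h2]
      exact le_add_self
    · rw [if_neg (by tauto)]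
      exact zero_le

theorem ZG_mono {p q : (I → FN) → Prop} (h : ∀ g, p g → q g) : ZG x y p ≤ ZG x y q := by
  refine ENNReal.tsum_le_tsum fun F => ?_
  by_cases h1 : p F
  · rw [if_pos h1, if_pos (h F h1)]
  · rw [if_neg h1]
    exact zero_le

theorem ZG_or (p q : (I → FN) → Prop) : ZG x y (fun g => p g ∨ q g) ≤ ZG x y p + ZG x y q := by
  unfold ZG
  rw [← ENNReal.tsum_add]
  refine ENNReal.tsum_le_tsum fun F => ?_
  by_cases h1 : p F
  · rw [if_pos (Or.inl h1), if_pos h1]
    exact le_self_add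
  · by_cases h2 : q F
    · rw [if_pos (Or.inr h2), if_pos h2]
      exact le_add_self
    · rw [if_neg (by tauto)]
      exact zero_le

theorem ZG_compl (p : (I → FN) → Prop) :
    ZG x y p + ZG x y (fun g => ¬ p g) = ZG x y (fun _ : I → FN => True) := by
  unfold ZG
  rw [← ENNReal.tsum_add]
  refine tsum_congr fun F => ?_
  by_cases h1 : p F
  · simp [h1]
  · simp [h1]

theorem ZG_union {α : Type*} (s : Finset α) (p : α → (I → FN) → Prop) :
    ZG x y (fun g => ∃ a ∈ s, p a g) ≤ ∑ a ∈ s, ZG x y (p a) := by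
  classical
  unfold ZG
  rw [← Summable.tsum_finsetSum (fun i _ => ENNReal.summable)]
  refine ENNReal.tsum_le_tsum fun F => ?_
  by_cases h1 : ∃ a ∈ s, p a F
  · obtain ⟨a, ha, hp⟩ := h1
    rw [if_pos ⟨a, ha, hp⟩]
    refine le_trans (le_of_eq ?_) (Finset.single_le_sum (f := fun b =>
      if p b F then ∏ i, fwt x y (F i) else 0) (fun _ _ => zero_le) ha)
    show _ = if p a F then ∏ i, fwt x y (F i) else 0
    rw [if_pos hp]
  · rw [if_neg h1]
    exact zero_le

theorem ZG_exp (S : Finset I) (f : FN → ℝ≥0∞) :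
    ∑' g : I → FN, (∏ i, fwt x y (g i)) * ∏ i ∈ S, f (g i) =
      (∑' F : FN, fwt x y F * f F) ^ S.card *
        ZF x y (fun _ => True) ^ (Fintype.card I - S.card) := by
  classical
  have hB : ZF x y (fun _ => True) = ∑' F : FN, fwt x y F := by
    unfold ZF
    refine tsum_congr fun F => ?_
    rw [if_pos trivial]
  have h1 : ∀ g : I → FN, (∏ i, fwt x y (g i)) * ∏ i ∈ S, f (g i) =
      ∏ i, (fwt x y (g i) * if i ∈ S then f (g i) else 1) := by
    intro g
    rw [Finset.prod_mul_distrib, Finset.prod_ite_mem, Finset.univ_inter]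
  rw [tsum_congr h1, ← prod_tsum (fun (i : I) (F : FN) => fwt x y F * if i ∈ S then f F else 1)]
  have h2 : ∀ i : I, (∑' F : FN, fwt x y F * if i ∈ S then f F else 1) =
      if i ∈ S then (∑' F : FN, fwt x y F * f F) else ZF x y (fun _ => True) := by
    intro i
    by_cases hi : i ∈ S
    · simp only [hi, if_true]
    · simp only [hi, if_false, mul_one]
      exact hB.symm
  rw [Finset.prod_congr rfl fun i _ => h2 i, Finset.prod_ite, Finset.prod_const, Finset.prod_const]
  congr 2
  · simp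
  · rw [Finset.filter_not, Finset.card_sdiff_of_subset (Finset.filter_subset _ _)]
    simp

theorem ZG_true : ZG x y (fun _ : I → FN => True) = ZF x y (fun _ => True) ^ Fintype.card I := by
  have h := ZG_exp (x := x) (y := y) (∅ : Finset I) (fun _ => 1)
  simp only [Finset.prod_empty, mul_one, Finset.card_empty, pow_zero, one_mul, Nat.sub_zero] at h
  rw [← h]
  unfold ZG
  refine tsum_congr fun g => ?_
  rw [if_pos trivial]

theorem ZG_one (i : I) (p : FN → Prop) :
    ZG x y (fun g : I → FN => p (g i)) =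
      ZF x y p * ZF x y (fun _ => True) ^ (Fintype.card I - 1) := by
  classical
  have h := ZG_exp (x := x) (y := y) ({i} : Finset I) (fun F => if p F then 1 else 0)
  simp only [Finset.prod_singleton, Finset.card_singleton, pow_one] at h
  have h1 : ZG x y (fun g : I → FN => p (g i)) =
      ∑' g : I → FN, (∏ i, fwt x y (g i)) * (if p (g i) then 1 else 0) := by
    unfold ZG
    refine tsum_congr fun g => ?_
    by_cases hp : p (g i)
    · rw [if_pos hp, if_pos hp, mul_one]
    · rw [if_neg hp, if_neg hp, mul_zero]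
  have h2 : ZF x y p = ∑' F : FN, fwt x y F * (if p F then 1 else 0) := by
    unfold ZF
    refine tsum_congr fun F => ?_
    by_cases hp : p F
    · rw [if_pos hp, if_pos hp, mul_one]
    · rw [if_neg hp, if_neg hp, mul_zero]
  rw [h1, h, h2]

theorem ZG_exists (p : FN → Prop) :
    ZG x y (fun g : I → FN => ∃ i, p (g i)) ≤
      (Fintype.card I : ℝ≥0∞) * (ZF x y p * ZF x y (fun _ => True) ^ (Fintype.card I - 1)) := by
  have h1 : ZG x y (fun g : I → FN => ∃ i, p (g i)) ≤
      ZG x y (fun g : I → FN => ∃ i ∈ (Finset.univ : Finset I), p (g i)) := by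
    refine ZG_mono fun g => ?_
    rintro ⟨i, hi⟩
    exact ⟨i, Finset.mem_univ _, hi⟩
  refine h1.trans ((ZG_union Finset.univ (fun i (g : I → FN) => p (g i))).trans (le_of_eq ?_))
  rw [Finset.sum_congr rfl fun i _ => ZG_one (x := x) (y := y) i p, Finset.sum_const,
    nsmul_eq_mul, Finset.card_univ]

theorem ZG_chern {q : ℝ≥0∞} (hq : 1 ≤ q) (S : Finset I) (φ : FN → ℕ) (a : ℕ) :
    q ^ a * ZG x y (fun g : I → FN => a ≤ ∑ i ∈ S, φ (g i)) ≤
      (∑' F : FN, fwt x y F * q ^ φ F) ^ S.card *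
        ZF x y (fun _ => True) ^ (Fintype.card I - S.card) := by
  rw [← ZG_exp (x := x) (y := y) S (fun F => q ^ φ F)]
  unfold ZG
  rw [← ENNReal.tsum_mul_left]
  refine ENNReal.tsum_le_tsum fun g => ?_
  by_cases h1 : a ≤ ∑ i ∈ S, φ (g i)
  · rw [if_pos h1, mul_comm, Finset.prod_pow_eq_pow_sum]
    exact mul_le_mul_right (pow_le_pow_right₀ hq h1) _
  · rw [if_neg h1, mul_zero]
    exact zero_le

end Dia
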